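import Mathlib

/-!
# MP_bbea99_co: the thresholds
-/

namespace MPbbea99S

/-- `w` encounters `y^r` in the Abelian sense: some factor of `w` has the form `u v u'` with
`u'` a rearrangement of `u` and `|uvu| / |uv| = r`. -/
def Encounters {α : Type*} (w : List α) (r : ℝ) : Prop :=
  ∃ u v u' : List α, (u ++ v ++ u') <:+: w ∧ u.Perm u' ∧
    ((u ++ v ++ u).length : ℝ) / ((u ++ v).length : ℝ) = r

/-- the words over an `n`-letter alphabet that encounter no `y^r` with `r ≥ s`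
(exponents `r` range over `(1,2]`) -/
def AvoidSet (s : ℝ) (n : ℕ) : Set (List (Fin n)) :=
  {w | ∀ r : ℝ, s ≤ r → 1 < r → r ≤ 2 → ¬ Encounters w r}

/-- the statement `𝒜(s,n)` -/
def Avoid (s : ℝ) (n : ℕ) : Prop := (AvoidSet s n).Infinite

/-- the Abelian repetitive threshold -/
noncomputable def ART (n : ℕ) : ℝ := sInf {s : ℝ | Avoid s n}

/-- the dual threshold (a minimum of natural numbers) -/
noncomputable def DART (r : ℝ) : ℕ := sInf {n : ℕ | Avoid r n}

lemma Avoid.mono {s s' : ℝ} {n : ℕ} (h : Avoid s n) (hs : s ≤ s') : Avoid s' n := by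
  apply Set.Infinite.mono _ h
  intro w hw r h1 h2 h3
  exact hw r (hs.trans h1) h2 h3

lemma Encounters.of_map {α β : Type*} {f : α → β} (hf : Function.Injective f) {w : List α}
    {r : ℝ} (h : Encounters (w.map f) r) : Encounters w r := by
  obtain ⟨u, v, u', ⟨s, t, hst⟩, hperm, hlen⟩ := h
  have h1 : s ++ (u ++ v ++ u') ++ t = w.map f := hst
  obtain ⟨w1, t0, hw1, h2, h3⟩ := List.append_eq_map_iff.1 h1
  obtain ⟨s0, w2, hw2, h4, h5⟩ := List.append_eq_map_iff.1 h2.symm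
  obtain ⟨w3, u0', hw3, h6, h7⟩ := List.append_eq_map_iff.1 h5.symm
  obtain ⟨u0, v0, hw4, h8, h9⟩ := List.append_eq_map_iff.1 h6.symm
  refine ⟨u0, v0, u0', ⟨s0, t0, ?_⟩, ?_, ?_⟩
  · rw [hw1, hw2, hw3, hw4]
  · rw [← h8, ← h7] at hperm
    exact (List.map_perm_map_iff hf).1 hperm
  · rw [← hlen, ← h8, ← h9]
    simp

/-- more letters -/
lemma Avoid.letters {s : ℝ} {n n' : ℕ} (h : Avoid s n) (hn : n ≤ n') : Avoid s n' := by
  have hinj : Function.Injective (List.map (Fin.castLE hn)) :=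
    List.map_injective_iff.2 (Fin.castLE_injective hn)
  have h1 := Set.Infinite.image (f := List.map (Fin.castLE hn)) (hinj.injOn) h
  apply Set.Infinite.mono _ h1
  rintro w ⟨w0, hw0, rfl⟩ r h2 h3 h4 henc
  exact hw0 r h2 h3 h4 (henc.of_map (Fin.castLE_injective hn))

/-- arbitrarily long words -/
lemma Avoid.exists_long {s : ℝ} {n : ℕ} (h : Avoid s n) (N : ℕ) :
    ∃ w ∈ AvoidSet s n, N ≤ w.length := by
  by_contra hcon
  push Not at hcon
  apply h
  apply (List.finite_length_lt (Fin n) N).subset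
  intro w hw
  exact hcon w hw

lemma DART_eq {r : ℝ} {n : ℕ} (h1 : Avoid r (n + 1)) (h2 : ¬ Avoid r n) : DART r = n + 1 := by
  unfold DART
  apply le_antisymm
  · exact Nat.sInf_le h1
  · have hmem : Avoid r (sInf {n : ℕ | Avoid r n}) :=
      Nat.sInf_mem (s := {n : ℕ | Avoid r n}) ⟨n + 1, h1⟩
    by_contra hcon
    push Not at hcon
    exact h2 (hmem.letters (by omega))

lemma ART_le {s c : ℝ} {n : ℕ} (h : Avoid s n) (hlow : ∀ t, Avoid t n → c ≤ t) : ART n ≤ s :=
  csInf_le ⟨c, fun t ht => hlow t ht⟩ h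

lemma le_ART {s c : ℝ} {n : ℕ} (h : Avoid s n) (hlow : ∀ t, Avoid t n → c ≤ t) : c ≤ ART n :=
  le_csInf ⟨s, h⟩ (fun t ht => hlow t ht)

end MPbbea99S
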