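import Pool.Agent.Lib.Pbbea99S.Parent

/-!
# MP_bbea99_co: the induction over parents
-/

namespace MPbbea99S

open Finset

/-- relative letter -/
def rel (n a b : ℕ) : ℕ := (b + (n - a)) % n

/-- all short repetitions are strong or in the list `Exc` -/
def HB (n : ℕ) (x : ℕ → ℕ) (A B m0 Lb : ℕ) (Exc : List (ℕ × ℕ)) : Prop :=
  ∀ a g m, 1 ≤ m → m ≤ Lb → Ex n x a (a + m + g) m → A * m + m0 ≤ B * g ∨ (m, g) ∈ Exc

/-- the occurrences of the repetitions in `Exc` are in no bad class -/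
def HE (n : ℕ) (x : ℕ → ℕ) (Exc : List (ℕ × ℕ))
    (bad : ℕ × ℕ → ℕ → ℕ → ℕ → ℕ → ℕ → ℕ → ℕ → Bool) : Prop :=
  ∀ a m g, (m, g) ∈ Exc → ∀ e1 e2 e3 e4, e1 ≤ 1 → e2 ≤ 1 → e3 ≤ 1 → e4 ≤ 1 →
    Ex n x (a + e1) (a + e1 + m + g) m →
    bad (m, g) (rel n (x a) (x (a + e1 + m - e2))) (rel n (x a) (x (a + e1 + m + g - e3)))
      (rel n (x a) (x (a + e1 + m + g + m - e4))) e1 e2 e3 e4 = false

section

variable {n l : ℕ} {w φ : ℕ → ℕ} {N A B m0 Lb : ℕ} {Exc : List (ℕ × ℕ)}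
  {bad : ℕ × ℕ → ℕ → ℕ → ℕ → ℕ → ℕ → ℕ → ℕ → Bool}

theorem all_pairs {x : ℕ → ℕ} (h : IsSeq n l w x) (hn : 0 < n) (hl : 1 < l)
    (hφ : ∀ d, d < n → fs n w φ d l % N = 0) (inj : Inj n l w)
    (ht : HT n l w φ N A B m0 Lb Exc bad) (hb : HB n x A B m0 Lb Exc) (he : HE n x Exc bad)
    (hE1 : ∀ e ∈ Exc, 1 ≤ e.1) (hLb : 2 * l ≤ Lb) :
    ∀ m a g, 1 ≤ m → Ex n x a (a + m + g) m → A * m + m0 ≤ B * g ∨ (m, g) ∈ Exc := by
  intro m
  induction m using Nat.strong_induction_on with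
  | _ m ih =>
  intro a g hm1 hex
  by_cases hmL : m ≤ Lb
  · exact hb a g m hm1 hmL hex
  push Not at hmL
  left
  obtain ⟨b, hbdef⟩ : ∃ b, b = a + m + g := ⟨_, rfl⟩
  rw [← hbdef] at hex
  obtain ⟨k, hk⟩ : ∃ k, k = n - x (a / l) := ⟨_, rfl⟩
  have hkn : k ≤ n := by omega
  have hs := h.shift hn k
  have hy0 : (fun i => (x i + k) % n) (a / l) = 0 := by
    have h1 := h.lt (a / l)
    show (x (a / l) + k) % n = 0
    have : x (a / l) + k = n := by omega
    rw [this, Nat.mod_self]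
  obtain ⟨e1, e2, e3, e4, hsol, hpar⟩ := parent hs (by omega) hφ inj ht (b := b) hy0
    (hex.shift h.lt hkn)
  -- sum over the letters
  have hsum : (a + m) / l + e2 + (b / l + e3) = (b + m) / l + e4 + (a / l + e1) := by
    have h1 : ∑ d ∈ range n, (cn (fun i => (x i + k) % n) d ((a + m) / l + e2) +
        cn (fun i => (x i + k) % n) d (b / l + e3)) =
        ∑ d ∈ range n, (cn (fun i => (x i + k) % n) d ((b + m) / l + e4) +
        cn (fun i => (x i + k) % n) d (a / l + e1)) :=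
      Finset.sum_congr rfl (fun d hd => hpar d (Finset.mem_range.1 hd))
    rw [Finset.sum_add_distrib, Finset.sum_add_distrib, sum_cn hs.lt, sum_cn hs.lt, sum_cn hs.lt,
      sum_cn hs.lt] at h1
    exact h1
  have l1 := hsol.le1
  have l2 := hsol.le2
  have l3 := hsol.le3
  have l4 := hsol.le4
  have hl0 : 0 < l := by omega
  -- block decompositions
  obtain ⟨q0, hq0⟩ : ∃ q, q = a / l := ⟨_, rfl⟩
  obtain ⟨q1, hq1⟩ : ∃ q, q = (a + m) / l := ⟨_, rfl⟩
  obtain ⟨p0, hp0⟩ : ∃ q, q = b / l := ⟨_, rfl⟩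
  obtain ⟨p1, hp1⟩ : ∃ q, q = (b + m) / l := ⟨_, rfl⟩
  obtain ⟨r0, hr0⟩ : ∃ q, q = a % l := ⟨_, rfl⟩
  obtain ⟨r1, hr1⟩ : ∃ q, q = (a + m) % l := ⟨_, rfl⟩
  obtain ⟨s0, hs0⟩ : ∃ q, q = b % l := ⟨_, rfl⟩
  obtain ⟨s1, hs1⟩ : ∃ q, q = (b + m) % l := ⟨_, rfl⟩
  have d0 : l * q0 + r0 = a := by rw [hq0, hr0]; exact Nat.div_add_mod a l
  have d1 : l * q1 + r1 = a + m := by rw [hq1, hr1]; exact Nat.div_add_mod (a + m) l
  have d2 : l * p0 + s0 = b := by rw [hp0, hs0]; exact Nat.div_add_mod b l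
  have d3 : l * p1 + s1 = b + m := by rw [hp1, hs1]; exact Nat.div_add_mod (b + m) l
  have b0 : r0 < l := by rw [hr0]; exact Nat.mod_lt _ hl0
  have b1 : r1 < l := by rw [hr1]; exact Nat.mod_lt _ hl0
  have b2 : s0 < l := by rw [hs0]; exact Nat.mod_lt _ hl0
  have b3 : s1 < l := by rw [hs1]; exact Nat.mod_lt _ hl0
  rw [← hq1, ← hp0, ← hp1, ← hr0, ← hr1, ← hs0, ← hs1] at hsol
  rw [← hq1, ← hp0, ← hp1, ← hq0] at hsum
  rw [← hq1, ← hp0, ← hp1, ← hq0] at hpar
  -- L' ≥ 1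
  have hL1 : q0 + e1 < q1 + e2 := by
    by_contra hcon
    push Not at hcon
    have h1 : l * (q1 + e2) ≤ l * (q0 + e1) := Nat.mul_le_mul le_rfl hcon
    rw [mul_add, mul_add] at h1
    have h2 : l * e1 ≤ l * 1 := Nat.mul_le_mul le_rfl l1
    omega
  -- g' ≥ 0
  have hp0q1 : q1 ≤ p0 := by
    rw [hq1, hp0]
    exact Nat.div_le_div_right (by omega)
  have hg1 : q1 + e2 ≤ p0 + e3 := by
    rcases Nat.lt_or_ge q1 p0 with h1 | h1
    · omega
    · have h2 : p0 = q1 := by omega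
      have h3 : r1 ≤ s0 := by
        rw [h2] at d2
        omega
      have h4 := hsol.ord (by rw [h2]) h3
      omega
  obtain ⟨L', hL'⟩ : ∃ L', q1 + e2 = q0 + e1 + L' := ⟨q1 + e2 - (q0 + e1), by omega⟩
  obtain ⟨g', hg'⟩ : ∃ g', p0 + e3 = q0 + e1 + L' + g' := ⟨p0 + e3 - (q1 + e2), by omega⟩
  have hL'1 : 1 ≤ L' := by omega
  have hp1' : p1 + e4 = q0 + e1 + L' + g' + L' := by omega
  -- L' < m
  have hlL : l * L' ≤ m + 2 * l := by
    have h1 : l * (q1 + e2) = l * (q0 + e1) + l * L' := by rw [hL']; ring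
    rw [mul_add, mul_add] at h1
    have h2 : l * e2 ≤ l * 1 := Nat.mul_le_mul le_rfl l2
    omega
  have hL'm : L' < m := by
    by_contra hcon
    push Not at hcon
    have h1 : 2 * L' ≤ l * L' := Nat.mul_le_mul hl le_rfl
    have h2 : 2 * m ≤ 2 * L' := by omega
    have h3 : l * L' ≤ 2 * m := by omega
    have h4 : l * L' = 2 * L' := by omega
    have h5 : l = 2 := Nat.eq_of_mul_eq_mul_right (by omega) h4
    subst h5
    omega
  have hexy : Ex n (fun i => (x i + k) % n) (q0 + e1) (q0 + e1 + L' + g') L' := by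
    intro c hc
    have := hpar c hc
    rw [hL', hg', hp1'] at this
    exact this
  have hexx : Ex n x (q0 + e1) (q0 + e1 + L' + g') L' := hexy.unshift h.lt hkn hn
  -- the key identity
  have hmg : (B : ℤ) * g - A * m = l * (B * g' - A * L') -
      ((A + B) * r1 + B * (l * e3) + A * (l * e1) - (A + B) * (l * e2) - B * s0 - A * r0) := by
    have z0 : (l : ℤ) * q0 + r0 = a := by exact_mod_cast d0
    have z1 : (l : ℤ) * q1 + r1 = a + m := by exact_mod_cast d1
    have z2 : (l : ℤ) * p0 + s0 = a + m + g := by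
      have : l * p0 + s0 = a + m + g := by omega
      exact_mod_cast this
    have y1 : (q1 : ℤ) + e2 = q0 + e1 + L' := by exact_mod_cast hL'
    have y2 : (p0 : ℤ) + e3 = q0 + e1 + L' + g' := by exact_mod_cast hg'
    have em : (m : ℤ) = l * (L' + e1 - e2) + r1 - r0 := by
      have : (q1 : ℤ) = q0 + e1 + L' - e2 := by linarith
      rw [this] at z1
      linear_combination z0 - z1
    have eg : (g : ℤ) = l * (g' + e2 - e3) + s0 - r1 := by
      have : (q1 : ℤ) = q0 + e1 + L' - e2 := by linarith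
      rw [this] at z1
      have h2 : (p0 : ℤ) = q0 + e1 + L' + g' - e3 := by linarith
      rw [h2] at z2
      linear_combination z1 - z2
    rw [em, eg]
    ring
  rcases ih L' hL'm (q0 + e1) g' hL'1 hexx with hstr | hexc
  · -- strong parent
    have hbd := hsol.bd
    have h1 : ((A + B) * r1 + B * (l * e3) + A * (l * e1) + m0 : ℤ) ≤
      l * m0 + (A + B) * (l * e2) + B * s0 + A * r0 := by exact_mod_cast hbd
    have h2 : (A : ℤ) * L' + m0 ≤ B * g' := by exact_mod_cast hstr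
    have h3 : (l : ℤ) * (A * L' + m0) ≤ l * (B * g') := by
      apply mul_le_mul_of_nonneg_left h2
      positivity
    have h4 : (A : ℤ) * m + m0 ≤ B * g := by linarith
    exact_mod_cast h4
  · -- exceptional parent
    have hex3 := hsol.exc (L', g') hexc
    rcases hex3 with h1 | h1 | h1
    · have h2 : ((A + B) * r1 + B * (l * e3) + A * (l * e1) + m0 + l * (A * L') : ℤ) ≤
        l * (B * g') + (A + B) * (l * e2) + B * s0 + A * r0 := by exact_mod_cast h1
      have h4 : (A : ℤ) * m + m0 ≤ B * g := by linarith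
      exact_mod_cast h4
    · exfalso
      simp only at h1
      have h2 : l * (q1 + e2) = l * (q0 + e1) + l * L' := by rw [hL']; ring
      rw [mul_add, mul_add] at h2
      omega
    · exfalso
      have hbad := he q0 L' g' hexc e1 e2 e3 e4 l1 l2 l3 l4 hexx
      have f1 : q0 + e1 + L' - e2 = q1 := by omega
      have f2 : q0 + e1 + L' + g' - e3 = p0 := by omega
      have f3 : q0 + e1 + L' + g' + L' - e4 = p1 := by omega
      rw [f1, f2, f3] at hbad
      have hr : ∀ z, (x z + k) % n = rel n (x q0) (x z) := by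
        intro z
        unfold rel
        rw [hk, hq0]
      simp only [hr] at h1
      rw [h1] at hbad
      exact absurd hbad (by simp)

end

end MPbbea99S
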