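import Pool.Agent.Lib.Pbbea99S.Tab
import Pool.Agent.Lib.Pbbea99S.Induct

/-!
# MP_bbea99_co: checking all short repetitions
-/

namespace MPbbea99S

open Finset

/-- sums of the weights of the first letters -/
def hs (h y : ℕ → ℕ) (i : ℕ) : ℕ := ∑ t ∈ range i, h (y t)

lemma hs_eq {n : ℕ} {h y : ℕ → ℕ} (hy : ∀ i, y i < n) (i : ℕ) :
    hs h y i = ∑ c ∈ range n, h c * cn y c i := by
  induction i with
  | zero => simp [hs, cn_zero]
  | succ i ih =>
    have h1 : ∀ c ∈ range n, h c * cn y c (i + 1) =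
        h c * cn y c i + if y i = c then h c else 0 := by
      intro c _
      rw [cn_succ]
      split_ifs <;> ring
    rw [Finset.sum_congr rfl h1, Finset.sum_add_distrib, ← ih, Finset.sum_ite_eq,
      if_pos (Finset.mem_range.2 (hy i)), hs, Finset.sum_range_succ, ← hs]

lemma hs_add (h y : ℕ → ℕ) (a m : ℕ) :
    hs h y (a + m) = hs h y a + ∑ t ∈ range m, h (y (a + t)) := by
  unfold hs
  rw [Finset.sum_range_add]

/-- equal letter counts give equal weights -/
lemma Ex.hsum {n : ℕ} {h y : ℕ → ℕ} (hy : ∀ i, y i < n) {a b m : ℕ} (he : Ex n y a b m) :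
    ∑ t ∈ range m, h (y (a + t)) = ∑ t ∈ range m, h (y (b + t)) := by
  have h1 : ∑ c ∈ range n, h c * (cn y c (a + m) + cn y c b) =
      ∑ c ∈ range n, h c * (cn y c (b + m) + cn y c a) :=
    Finset.sum_congr rfl (fun c hc => by rw [he c (Finset.mem_range.1 hc)])
  simp only [mul_add, Finset.sum_add_distrib] at h1
  rw [← hs_eq hy, ← hs_eq hy, ← hs_eq hy, ← hs_eq hy, hs_add h y a m, hs_add h y b m] at h1
  omega

/-- two consecutive blocks of length `l ^ 2` starting with `0` and `k` -/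
def zf (n l : ℕ) (w : ℕ → ℕ) (k t : ℕ) : ℕ :=
  bif Nat.ble (Nat.succ t) (Nat.mul l l) then
    Nat.mod (Nat.add (w (Nat.div t l)) (w (Nat.mod t l))) n
  else Nat.mod (Nat.add k (Nat.add (w (Nat.div (Nat.sub t (Nat.mul l l)) l))
    (w (Nat.mod (Nat.sub t (Nat.mul l l)) l)))) n

section

variable {n l : ℕ} {w x : ℕ → ℕ}

lemma IsSeq.two (h : IsSeq n l w x) (hl : 0 < l) (q t : ℕ) (ht : t < l * l) :
    x (l * l * q + t) = (x q + (w (t / l) + w (t % l))) % n := by
  have h1 : t / l < l := Nat.div_lt_of_lt_mul ht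
  have h2 : t % l < l := Nat.mod_lt _ hl
  have e : l * l * q + t = l * (l * q + t / l) + t % l := by
    have := Nat.div_add_mod t l
    rw [mul_add]
    linarith [mul_assoc l l q]
  rw [e, h.step _ _ h2, h.step _ _ h1, Nat.mod_add_mod, Nat.add_assoc]

lemma rel_lt {a b : ℕ} (hn : 0 < n) : rel n a b < n := Nat.mod_lt _ hn

/-- letters relative to the letter of the block -/
lemma IsSeq.blocks (h : IsSeq n l w x) (hl : 0 < l) (q t : ℕ)
    (ht : t < l * l + l * l) :
    (x (l * l * q + t) + (n - x q)) % n = zf n l w (rel n (x q) (x (q + 1))) t := by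
  have hq := h.lt q
  unfold zf
  cases hb : Nat.ble (Nat.succ t) (Nat.mul l l) with
  | true =>
    have h1 : t < l * l := Nat.le_of_ble_eq_true hb
    rw [cond_true, h.two hl q t h1, Nat.mod_add_mod]
    have e : x q + (w (t / l) + w (t % l)) + (n - x q) = w (t / l) + w (t % l) + n := by omega
    rw [e, Nat.add_mod_right]
    rfl
  | false =>
    have h1 : ¬ t < l * l := by
      intro h2
      have := Nat.ble_eq_true_of_le h2
      have h3 : Nat.ble (Nat.succ t) (Nat.mul l l) = true := this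
      rw [hb] at h3
      exact absurd h3 (by simp)
    obtain ⟨t', rfl⟩ : ∃ t', t = l * l + t' := ⟨t - l * l, by omega⟩
    have h2 : t' < l * l := by omega
    have e : l * l * q + (l * l + t') = l * l * (q + 1) + t' := by ring
    have e2 : l * l + t' - l * l = t' := by omega
    rw [cond_false, e, h.two hl (q + 1) t' h2, Nat.mod_add_mod]
    show _ = (rel n (x q) (x (q + 1)) + (w ((l * l + t' - l * l) / l) +
      w ((l * l + t' - l * l) % l))) % n
    rw [e2]
    unfold rel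
    rw [Nat.mod_add_mod]
    congr 1
    ring

/-- the differences of consecutive letters -/
lemma IsSeq.diffs (h : IsSeq n l w x) (hl : 1 < l) (K : List ℕ)
    (hw : ∀ r, r + 1 < l → rel n (w r % n) (w (r + 1) % n) ∈ K)
    (hlast : w (l - 1) = 0) (hw0 : w 0 = 0) (hn : 0 < n) :
    ∀ q, rel n (x q) (x (q + 1)) ∈ K := by
  intro q
  induction q using Nat.strong_induction_on with
  | _ q ih =>
  obtain ⟨p, r, hr, rfl⟩ : ∃ p r, r < l ∧ q = l * p + r :=
    ⟨q / l, q % l, Nat.mod_lt _ (by omega), (Nat.div_add_mod q l).symm⟩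
  have hp := h.lt p
  rcases Nat.lt_or_ge (r + 1) l with h1 | h1
  · have e1 := h.step p r hr
    have e2 := h.step p (r + 1) h1
    have e3 : l * p + r + 1 = l * p + (r + 1) := by ring
    rw [e3, e1, e2]
    have h2 := hw r h1
    have e4 : rel n ((x p + w r) % n) ((x p + w (r + 1)) % n) =
        rel n (w r % n) (w (r + 1) % n) := by
      unfold rel
      have m1 := Nat.mod_lt (x p + w r) hn
      have m2 := Nat.mod_lt (w r) hn
      have k1 : ((x p + w (r + 1)) % n + (n - (x p + w r) % n)) % n ≡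
        (w (r + 1) % n + (n - w r % n)) % n [MOD n] := by
        rw [Nat.ModEq, Nat.mod_mod, Nat.mod_mod]
        have a1 : ((x p + w (r + 1)) % n + (n - (x p + w r) % n)) + (x p + w r) % n =
          (x p + w (r + 1)) % n + n := by omega
        have a2 : (w (r + 1) % n + (n - w r % n)) + w r % n = w (r + 1) % n + n := by omega
        apply Nat.ModEq.add_right_cancel' ((x p + w r) % n)
        rw [a1]
        show ((x p + w (r + 1)) % n + n) % n = ((w (r + 1) % n + (n - w r % n)) +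
          (x p + w r) % n) % n
        rw [Nat.add_mod_right, Nat.mod_mod, Nat.add_mod_mod]
        have a3 : (w (r + 1) % n + (n - w r % n)) + (x p + w r) =
          ((w (r + 1) % n + (n - w r % n)) + w r) + x p := by ring
        rw [a3, Nat.add_mod ((w (r + 1) % n + (n - w r % n)) + w r) (x p) n,
          ← Nat.add_mod_mod (w (r + 1) % n + (n - w r % n)) (w r) n, a2, Nat.add_mod_right,
          Nat.mod_mod, ← Nat.add_mod, Nat.add_comm]
      rw [Nat.ModEq, Nat.mod_mod, Nat.mod_mod] at k1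
      exact k1
    rw [e4]
    exact h2
  · have hr1 : r = l - 1 := by omega
    have e1 := h.step p r hr
    have e2 := h.step (p + 1) 0 (by omega)
    have e3 : l * p + r + 1 = l * (p + 1) + 0 := by
      rw [hr1, mul_add]
      omega
    rw [e3, e1, e2, hr1, hlast, hw0, Nat.add_zero, Nat.add_zero, Nat.mod_eq_of_lt hp,
      Nat.mod_eq_of_lt (h.lt (p + 1))]
    apply ih
    have : 2 * p ≤ l * p := Nat.mul_le_mul hl le_rfl
    omega

end

lemma pk_split (F : ℕ) (f : ℕ → ℕ) (s L : ℕ) :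
    pk F f (s + L) = pk F f s + 2 ^ (F * s) * pk F (fun i => f (i + s)) L := by
  induction L with
  | zero => simp [pk]
  | succ L ih =>
    rw [← Nat.add_assoc, pk_succ, pk_succ, ih]
    have e : F * (s + L) = F * s + F * L := by ring
    rw [e, pow_add, Nat.add_comm L s]
    ring

/-- packing by halving -/
def pk2 (F : ℕ) (f : ℕ → ℕ) (lo j : ℕ) : ℕ :=
  Nat.rec (motive := fun _ => ℕ → ℕ) (fun lo => f lo)
    (fun j ih lo => Nat.add (ih lo) (Nat.shiftLeft (ih (Nat.add lo (Nat.pow 2 j)))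
      (Nat.mul F (Nat.pow 2 j)))) j lo

lemma pk2_eq (F : ℕ) (f : ℕ → ℕ) (j : ℕ) :
    ∀ lo, pk2 F f lo j = pk F (fun i => f (lo + i)) (2 ^ j) := by
  induction j with
  | zero =>
    intro lo
    show f lo = _
    simp [pk]
  | succ j ih =>
    intro lo
    have h1 : pk2 F f lo (j + 1) = pk2 F f lo j + (pk2 F f (lo + 2 ^ j) j) <<< (F * 2 ^ j) := rfl
    have e : 2 ^ (j + 1) = 2 ^ j + 2 ^ j := by ring
    rw [h1, ih, ih, e, pk_split, Nat.shiftLeft_eq]
    congr 1
    rw [Nat.mul_comm]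
    congr 1
    apply pk_congr
    intro i _
    congr 1
    ring

/-- window sums -/
def Qs (E F m : ℕ) : ℕ :=
  Nat.rec 0 (fun t ih => Nat.add ih (Nat.shiftRight E (Nat.mul F t))) m

lemma pk_zero' (F L : ℕ) : pk F (fun _ => 0) L = 0 := by
  have := pk_mul F (fun _ => 0) 0 L
  simpa using this

lemma Qs_eq {F Z : ℕ} {f : ℕ → ℕ} (hf : ∀ i, i < Z → f i < 2 ^ F) (m : ℕ) :
    Qs (pk F f Z) F m =
      pk F (fun i => ∑ t ∈ range m, if i + t < Z then f (i + t) else 0) Z := by
  induction m with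
  | zero =>
    show 0 = _
    simp only [Finset.range_zero, Finset.sum_empty]
    rw [pk_zero']
  | succ m ih =>
    have h1 : Qs (pk F f Z) F (m + 1) = Qs (pk F f Z) F m + (pk F f Z) >>> (F * m) := rfl
    rw [h1, ih, Nat.shiftRight_eq_div_pow]
    have h2 : pk F f Z / 2 ^ (F * m) = pk F (fun i => if i + m < Z then f (i + m) else 0) Z := by
      rcases Nat.lt_or_ge m Z with h | h
      · obtain ⟨k, rfl⟩ : ∃ k, Z = m + k := ⟨Z - m, by omega⟩
        rw [pk_div m k (fun i hi => hf i (by omega))]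
        have h3 : pk F (fun i => if i + m < m + k then f (i + m) else 0) (m + k) =
            pk F (fun i => if i + m < m + k then f (i + m) else 0) k := by
          rw [Nat.add_comm m k]
          apply pk_ext
          intro i hi
          rw [if_neg (by omega)]
        rw [h3]
        apply pk_congr
        intro i hi
        rw [if_pos (by omega)]
      · rw [Nat.div_eq_of_lt]
        · have h3 : pk F (fun i => if i + m < Z then f (i + m) else 0) Z = pk F (fun _ => 0) Z := by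
            apply pk_congr
            intro i _
            rw [if_neg (by omega)]
          rw [h3, pk_zero']
        · exact (pk_lt hf).trans_le (Nat.pow_le_pow_right (by norm_num) (Nat.mul_le_mul le_rfl h))
    rw [h2, ← pk_add]
    apply pk_congr
    intro i _
    rw [Finset.sum_range_succ]

/-- repunit -/
lemma pk_const (F c L : ℕ) (hF : 1 ≤ F) :
    pk F (fun _ => c) L = c * ((2 ^ (F * L) - 1) / (2 ^ F - 1)) := by
  have h0 : 1 < 2 ^ F := Nat.one_lt_two_pow (by omega)
  have h1 : (2 ^ F - 1) * pk F (fun _ => c) L = c * (2 ^ (F * L) - 1) := by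
    induction L with
    | zero => simp [pk]
    | succ L ih =>
      rw [pk_succ, mul_add, ih]
      have h2 : 0 < 2 ^ (F * L) := by positivity
      have e : 2 ^ (F * (L + 1)) = 2 ^ F * 2 ^ (F * L) := by rw [← pow_add]; ring_nf
      rw [e]
      obtain ⟨a, ha⟩ : ∃ a, 2 ^ F = a + 1 := ⟨2 ^ F - 1, by omega⟩
      obtain ⟨b, hb⟩ : ∃ b, 2 ^ (F * L) = b + 1 := ⟨2 ^ (F * L) - 1, by omega⟩
      rw [ha, hb]
      have e2 : (a + 1) * (b + 1) - 1 = a * b + a + b := by
        have : (a + 1) * (b + 1) = a * b + a + b + 1 := by ring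
        omega
      rw [e2, Nat.add_sub_cancel, Nat.add_sub_cancel]
      ring
  have h3 : (2 ^ F - 1) ∣ (2 ^ (F * L) - 1) := by
    rw [pow_mul]
    have := Nat.sub_dvd_pow_sub_pow (2 ^ F) 1 L
    simpa using this
  obtain ⟨r, hr⟩ := h3
  have hpos : 0 < 2 ^ F - 1 := by omega
  rw [hr, Nat.mul_div_cancel_left _ hpos]
  rw [hr] at h1
  apply Nat.eq_of_mul_eq_mul_left hpos
  rw [h1]
  ring

/-- the table of exceptions -/
noncomputable def exB (Exc : List (ℕ × ℕ)) (m g : ℕ) : Bool :=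
  List.rec false (fun e _ ih => or (and (Nat.beq m e.1) (Nat.beq g e.2)) ih) Exc

lemma exB_mem {Exc : List (ℕ × ℕ)} {m g : ℕ} (h : exB Exc m g = true) : (m, g) ∈ Exc := by
  induction Exc with
  | nil => exact absurd h (by simp [exB])
  | cons e r ih =>
    have h' : (and (Nat.beq m e.1) (Nat.beq g e.2) || exB r m g) = true := h
    rw [Bool.or_eq_true, Bool.and_eq_true] at h'
    rcases h' with ⟨h1, h2⟩ | h'
    · have e1 := beq_t h1
      have e2 := beq_t h2
      rw [e1, e2]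
      simp
    · exact List.mem_cons_of_mem _ (ih h')

/-- check of the window lengths `lo, ..., lo + cnt - 1` -/
noncomputable def ckW (E F Kc Gc A B m0 : ℕ) (Exc : List (ℕ × ℕ)) (lo cnt : ℕ) : Bool :=
  allN (fun j => allN (fun g => or (nz (Nat.xor (Qs E F (Nat.add lo j))
    (Nat.shiftRight (Qs E F (Nat.add lo j)) (Nat.mul F (Nat.add (Nat.add lo j) g)))) Kc Gc)
      (exB Exc (Nat.add lo j) g))
    (Nat.div (Nat.add (Nat.add (Nat.mul A (Nat.add lo j)) m0) (Nat.pred B)) B)) cnt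

theorem ckW_sound {n l : ℕ} {w x h : ℕ → ℕ} (hs : IsSeq n l w x) (hn : 0 < n) (hl : 0 < l)
    {E F Kc Gc A B m0 lo cnt J Z k q i m g : ℕ} {Exc : List (ℕ × ℕ)}
    (hF : 1 ≤ F) (hB : 0 < B) (hk : rel n (x q) (x (q + 1)) = k)
    (hE : E = pk2 F (fun t => h (zf n l w k t)) 0 J % 2 ^ (F * Z))
    (hKc : Kc = (2 ^ (F - 1) - 1) * ((2 ^ (F * (l * l)) - 1) / (2 ^ F - 1)))
    (hGc : Gc = 2 ^ (F - 1) * ((2 ^ (F * (l * l)) - 1) / (2 ^ F - 1)))
    (hZJ : Z ≤ 2 ^ J) (hZl : Z ≤ l * l + l * l)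
    (hh : ∀ c, c < n → m * h c < 2 ^ (F - 1)) (hm1 : 1 ≤ m)
    (hck : ckW E F Kc Gc A B m0 Exc lo cnt = true)
    (hlo : lo ≤ m) (hhi : m < lo + cnt) (hg : B * g < A * m + m0)
    (hi : i < l * l) (hwin : l * l + 2 * m + g ≤ Z)
    (hex : Ex n x (l * l * q + i) (l * l * q + i + m + g) m) : (m, g) ∈ Exc := by
  have c1 := allN_sound hck (m - lo) (by omega)
  have elo : Nat.add lo (m - lo) = m := by
    show lo + (m - lo) = m
    omega
  rw [elo] at c1
  have c2 := allN_sound c1 g (by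
    show g < (A * m + m0 + (B - 1)) / B
    rw [Nat.lt_div_iff_mul_lt hB, Nat.add_sub_cancel, Nat.mul_comm]
    exact hg)
  rw [Bool.or_eq_true] at c2
  rcases c2 with c2 | c2
  swap
  · exact exB_mem c2
  exfalso
  obtain ⟨z, hz⟩ : ∃ z : ℕ → ℕ, z = fun t => zf n l w k t := ⟨_, rfl⟩
  have hzlt : ∀ t, z t < n := by
    intro t
    rw [hz]
    show zf n l w k t < n
    unfold zf
    cases Nat.ble (Nat.succ t) (Nat.mul l l) with
    | true => exact Nat.mod_lt _ hn
    | false => exact Nat.mod_lt _ hn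
  have hpF : 2 ^ (F - 1) ≤ 2 ^ F := Nat.pow_le_pow_right (by norm_num) (by omega)
  have hfld : ∀ i, (fun t => h (z t)) i < 2 ^ F := by
    intro i
    have h1 := hh (z i) (hzlt i)
    have h2 : 1 * h (z i) ≤ m * h (z i) := Nat.mul_le_mul hm1 le_rfl
    show h (z i) < _
    omega
  have hE2 : E = pk F (fun t => h (z t)) Z := by
    rw [hE, pk2_eq]
    obtain ⟨r, hr⟩ : ∃ r, 2 ^ J = Z + r := ⟨2 ^ J - Z, by omega⟩
    rw [hr, pk_mod]
    · apply pk_congr
      intro i _
      show h (zf n l w k (0 + i)) = _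
      rw [Nat.zero_add, hz]
    · intro i _
      have := hfld i
      rw [hz] at this
      show h (zf n l w k (0 + i)) < _
      rw [Nat.zero_add]
      exact this
  obtain ⟨Q, hQ⟩ : ∃ Q, Q = Qs E F m := ⟨_, rfl⟩
  have hsum : ∀ a, (∑ t ∈ range m, if a + t < Z then h (z (a + t)) else 0) < 2 ^ (F - 1) := by
    intro a
    obtain ⟨H, hH1, hH2⟩ : ∃ H, (∀ c, c < n → h c ≤ H) ∧ m * H < 2 ^ (F - 1) := by
      refine ⟨(range n).sup h, fun c hc => Finset.le_sup (f := h) (Finset.mem_range.2 hc), ?_⟩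
      obtain ⟨c, hc, hcs⟩ := Finset.exists_mem_eq_sup (range n) ⟨0, Finset.mem_range.2 hn⟩ h
      rw [hcs]
      exact hh c (Finset.mem_range.1 hc)
    refine lt_of_le_of_lt ?_ hH2
    calc (∑ t ∈ range m, if a + t < Z then h (z (a + t)) else 0) ≤ ∑ t ∈ range m, H := by
          apply Finset.sum_le_sum
          intro t _
          split_ifs
          · exact hH1 _ (hzlt _)
          · exact Nat.zero_le _
      _ = m * H := by rw [Finset.sum_const, Finset.card_range, smul_eq_mul]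
  have hQ2 : Q = pk F (fun i => ∑ t ∈ range m, if i + t < Z then h (z (i + t)) else 0) Z := by
    rw [hQ, hE2]
    exact Qs_eq (fun i _ => hfld i) m
  have hfl : ∀ a, a < Z → Q / 2 ^ (F * a) % 2 ^ F =
      ∑ t ∈ range m, if a + t < Z then h (z (a + t)) else 0 := by
    intro a ha
    rw [hQ2]
    exact pk_field (f := fun i => ∑ t ∈ range m, if i + t < Z then h (z (i + t)) else 0)
      (fun i _ => lt_of_lt_of_le (hsum i) hpF) ha
  have hfl2 : ∀ a, Q / 2 ^ (F * a) % 2 ^ F < 2 ^ (F - 1) := by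
    intro a
    rcases Nat.lt_or_ge a Z with ha | ha
    · rw [hfl a ha]
      exact hsum a
    · have h1 : Q < 2 ^ (F * a) := by
        rw [hQ2]
        exact (pk_lt (fun i _ => lt_of_lt_of_le (hsum i) hpF)).trans_le
          (Nat.pow_le_pow_right (by norm_num) (Nat.mul_le_mul le_rfl ha))
      rw [Nat.div_eq_of_lt h1, Nat.zero_mod]
      positivity
  have hne := nz_ne (F := F) (Cnt := l * l) (Q := Q) (s := m + g) (K := Kc) (G := Gc) hF
    (by rw [hKc, pk_const _ _ _ hF]) (by rw [hGc, pk_const _ _ _ hF]) hfl2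
    (by rw [hQ]; exact c2) hi
  apply hne
  rw [hfl _ (by omega), hfl _ (by omega)]
  -- the windows of the sequence
  obtain ⟨y, hy⟩ : ∃ y : ℕ → ℕ, y = fun t => (x t + (n - x q)) % n := ⟨_, rfl⟩
  have hylt : ∀ t, y t < n := by
    intro t
    rw [hy]
    exact Nat.mod_lt _ hn
  have hexy : Ex n y (l * l * q + i) (l * l * q + i + m + g) m := by
    rw [hy]
    exact hex.shift hs.lt (by omega)
  have hyz : ∀ t, t < Z → y (l * l * q + t) = z t := by
    intro t ht
    rw [hy, hz, ← hk]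
    exact hs.blocks hl q t (by omega)
  have hsm := hexy.hsum (h := h) hylt
  have e1 : ∀ t ∈ range m, (if i + t < Z then h (z (i + t)) else 0) =
      h (y (l * l * q + i + t)) := by
    intro t ht
    have ht' := Finset.mem_range.1 ht
    rw [if_pos (by omega), ← hyz _ (by omega), Nat.add_assoc]
  have e2 : ∀ t ∈ range m, (if i + (m + g) + t < Z then h (z (i + (m + g) + t)) else 0) =
      h (y (l * l * q + i + m + g + t)) := by
    intro t ht
    have ht' := Finset.mem_range.1 ht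
    rw [if_pos (by omega), ← hyz _ (by omega)]
    congr 2
    ring
  rw [Finset.sum_congr rfl e1, Finset.sum_congr rfl e2]
  exact hsm

theorem HB_of {n l : ℕ} {w x h : ℕ → ℕ} (hs : IsSeq n l w x) (hn : 0 < n) (hl : 0 < l)
    {K : List ℕ} (hK : ∀ q, rel n (x q) (x (q + 1)) ∈ K)
    {F Kc Gc A B m0 J Z Lb : ℕ} {Exc : List (ℕ × ℕ)} (hF : 1 ≤ F) (hB : 0 < B)
    (hKc : Kc = (2 ^ (F - 1) - 1) * ((2 ^ (F * (l * l)) - 1) / (2 ^ F - 1)))
    (hGc : Gc = 2 ^ (F - 1) * ((2 ^ (F * (l * l)) - 1) / (2 ^ F - 1)))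
    (hZJ : Z ≤ 2 ^ J) (hZl : Z ≤ l * l + l * l)
    (hh : ∀ c, c < n → Lb * h c < 2 ^ (F - 1))
    (hwin : l * l + 2 * Lb + (A * Lb + m0) / B ≤ Z)
    (hck : ∀ k ∈ K, ∃ E, E = pk2 F (fun t => h (zf n l w k t)) 0 J % 2 ^ (F * Z) ∧
      ∀ m, 1 ≤ m → m ≤ Lb → ∃ lo cnt, lo ≤ m ∧ m < lo + cnt ∧
        ckW E F Kc Gc A B m0 Exc lo cnt = true) : HB n x A B m0 Lb Exc := by
  intro a g m h1 h2 hex
  by_contra hcon
  push Not at hcon
  obtain ⟨hc1, hc2⟩ := hcon
  apply hc2
  have hll : 0 < l * l := Nat.mul_pos hl hl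
  obtain ⟨q, i, hi, rfl⟩ : ∃ q i, i < l * l ∧ a = l * l * q + i :=
    ⟨a / (l * l), a % (l * l), Nat.mod_lt _ hll, (Nat.div_add_mod a (l * l)).symm⟩
  obtain ⟨E, hE, hE2⟩ := hck _ (hK q)
  obtain ⟨lo, cnt, g1, g2, g3⟩ := hE2 m h1 h2
  refine ckW_sound hs hn hl hF hB rfl hE hKc hGc hZJ hZl ?_ h1 g3 g1 g2 hc1 hi ?_ hex
  · intro c hc
    have := hh c hc
    have h3 : m * h c ≤ Lb * h c := Nat.mul_le_mul h2 le_rfl
    omega
  · have h3 : g ≤ (A * Lb + m0) / B := by
      rw [Nat.le_div_iff_mul_le hB]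
      have h4 : A * m ≤ A * Lb := Nat.mul_le_mul le_rfl h2
      rw [Nat.mul_comm]
      omega
    omega

end MPbbea99S
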