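import Mathlib

/-!
# MP_bbea99_co: digit-sum sequences and their letter counts

`y (l q + r) = (y q + w r) mod n`: the fixed points of the uniform substitutions
`c ↦ c + w` on `n` letters.
-/

namespace MPbbea99S

open Finset

/-- `y` is a sequence over `{0..n-1}` with `y (l q + r) = y q + w r (mod n)` -/
structure IsSeq (n l : ℕ) (w y : ℕ → ℕ) : Prop where
  lt : ∀ i, y i < n
  step : ∀ q r, r < l → y (l * q + r) = (y q + w r) % n

/-- the fixed point -/
def xs (n l : ℕ) (w : ℕ → ℕ) (i : ℕ) : ℕ := ((Nat.digits l i).map w).sum % n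

lemma xs_isSeq {n l : ℕ} {w : ℕ → ℕ} (hn : 0 < n) (hl : 1 < l) (hw0 : w 0 = 0) :
    IsSeq n l w (xs n l w) := by
  constructor
  · intro i
    exact Nat.mod_lt _ hn
  · intro q r hr
    unfold xs
    by_cases h : r ≠ 0 ∨ q ≠ 0
    · rw [Nat.add_comm (l * q) r, Nat.digits_add l hl r q hr h, List.map_cons, List.sum_cons,
        Nat.add_comm (w r), Nat.mod_add_mod]
    · push Not at h
      obtain ⟨h1, h2⟩ := h
      subst h1
      subst h2
      simp [hw0]

lemma IsSeq.shift {n l : ℕ} {w y : ℕ → ℕ} (h : IsSeq n l w y) (hn : 0 < n) (k : ℕ) :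
    IsSeq n l w (fun i => (y i + k) % n) := by
  constructor
  · intro i
    exact Nat.mod_lt _ hn
  · intro q r hr
    show (y (l * q + r) + k) % n = ((y q + k) % n + w r) % n
    rw [h.step q r hr, Nat.mod_add_mod, Nat.mod_add_mod]
    congr 1
    ring

/-- number of letters `c` among the first `i` letters -/
def cn (y : ℕ → ℕ) (c i : ℕ) : ℕ := Nat.count (fun j => y j = c) i

/-- number of letters `c` among the first `r` letters of the image of `d` -/
def pre (n : ℕ) (w : ℕ → ℕ) (d r c : ℕ) : ℕ := Nat.count (fun t => (d + w t) % n = c) r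

lemma cn_zero (y : ℕ → ℕ) (c : ℕ) : cn y c 0 = 0 := by simp [cn]

lemma pre_zero (n : ℕ) (w : ℕ → ℕ) (d c : ℕ) : pre n w d 0 c = 0 := by simp [pre]

lemma cn_succ (y : ℕ → ℕ) (c i : ℕ) : cn y c (i + 1) = cn y c i + if y i = c then 1 else 0 := by
  simp [cn, Nat.count_succ]

lemma pre_succ (n : ℕ) (w : ℕ → ℕ) (d r c : ℕ) :
    pre n w d (r + 1) c = pre n w d r c + if (d + w r) % n = c then 1 else 0 := by
  simp [pre, Nat.count_succ]

lemma count_congr {p q : ℕ → Prop} [DecidablePred p] [DecidablePred q] {m : ℕ}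
    (h : ∀ t, t < m → (p t ↔ q t)) : Nat.count p m = Nat.count q m := by
  induction m with
  | zero => simp
  | succ m ih =>
    rw [Nat.count_succ, Nat.count_succ, ih (fun t ht => h t (by omega))]
    congr 1
    have := h m (by omega)
    by_cases hp : p m
    · rw [if_pos hp, if_pos (this.1 hp)]
    · rw [if_neg hp, if_neg (fun hq => hp (this.2 hq))]

lemma cn_block {n l : ℕ} {w y : ℕ → ℕ} (h : IsSeq n l w y) (c q r : ℕ) (hr : r ≤ l) :
    cn y c (l * q + r) = cn y c (l * q) + pre n w (y q) r c := by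
  unfold cn pre
  rw [Nat.count_add]
  congr 1
  apply count_congr
  intro t ht
  rw [h.step q t (by omega)]

lemma cn_mul {n l : ℕ} {w y : ℕ → ℕ} (h : IsSeq n l w y) (c q : ℕ) :
    cn y c (l * q) = ∑ d ∈ range n, pre n w d l c * cn y d q := by
  induction q with
  | zero => simp [cn_zero]
  | succ q ih =>
    rw [Nat.mul_succ, cn_block h c q l le_rfl, ih]
    have h1 : ∀ d ∈ range n, pre n w d l c * cn y d (q + 1) =
        pre n w d l c * cn y d q + if y q = d then pre n w d l c else 0 := by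
      intro d _
      rw [cn_succ]
      split_ifs <;> ring
    rw [Finset.sum_congr rfl h1, Finset.sum_add_distrib]
    congr 1
    rw [Finset.sum_ite_eq, if_pos (Finset.mem_range.2 (h.lt q))]

/-- letter counts of prefixes -/
lemma cn_rec {n l : ℕ} {w y : ℕ → ℕ} (h : IsSeq n l w y) (c q r : ℕ) (hr : r ≤ l) :
    cn y c (l * q + r) = (∑ d ∈ range n, pre n w d l c * cn y d q) + pre n w (y q) r c := by
  rw [cn_block h c q r hr, cn_mul h]

lemma sum_cn {n : ℕ} {y : ℕ → ℕ} (h : ∀ i, y i < n) (i : ℕ) : ∑ c ∈ range n, cn y c i = i := by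
  induction i with
  | zero => simp [cn_zero]
  | succ i ih =>
    have h1 : ∀ c ∈ range n, cn y c (i + 1) = cn y c i + if y i = c then 1 else 0 :=
      fun c _ => cn_succ y c i
    rw [Finset.sum_congr rfl h1, Finset.sum_add_distrib, ih, Finset.sum_ite_eq,
      if_pos (Finset.mem_range.2 (h i))]

/-- the windows `[a, a+m)` and `[b, b+m)` have the same letter counts -/
def Ex (n : ℕ) (y : ℕ → ℕ) (a b m : ℕ) : Prop :=
  ∀ c, c < n → cn y c (a + m) + cn y c b = cn y c (b + m) + cn y c a

lemma cn_shift {n : ℕ} {y : ℕ → ℕ} (h : ∀ i, y i < n) {k : ℕ} (hk : k ≤ n) {c : ℕ} (hc : c < n)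
    (i : ℕ) : cn (fun i => (y i + k) % n) c i = cn y ((c + (n - k)) % n) i := by
  unfold cn
  apply count_congr
  intro t _
  have h1 := h t
  show (y t + k) % n = c ↔ y t = (c + (n - k)) % n
  constructor
  · intro h2
    rw [← h2, Nat.mod_add_mod]
    have e : y t + k + (n - k) = y t + n := by omega
    rw [e, Nat.add_mod_right, Nat.mod_eq_of_lt h1]
  · intro h2
    rw [h2, Nat.mod_add_mod]
    have e : c + (n - k) + k = c + n := by omega
    rw [e, Nat.add_mod_right, Nat.mod_eq_of_lt hc]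

lemma Ex.shift {n : ℕ} {y : ℕ → ℕ} (h : ∀ i, y i < n) {k : ℕ} (hk : k ≤ n) {a b m : ℕ}
    (he : Ex n y a b m) : Ex n (fun i => (y i + k) % n) a b m := by
  intro c hc
  rw [cn_shift h hk hc, cn_shift h hk hc, cn_shift h hk hc, cn_shift h hk hc]
  exact he _ (Nat.mod_lt _ (by omega))

lemma Ex.unshift {n : ℕ} {y : ℕ → ℕ} (h : ∀ i, y i < n) {k : ℕ} (hk : k ≤ n) {a b m : ℕ}
    (hn : 0 < n) (he : Ex n (fun i => (y i + k) % n) a b m) : Ex n y a b m := by
  have h2 := Ex.shift (n := n) (y := fun i => (y i + k) % n) (fun i => Nat.mod_lt _ hn)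
    (k := n - k) (by omega) he
  have e : (fun i => ((fun i => (y i + k) % n) i + (n - k)) % n) = y := by
    funext i
    show ((y i + k) % n + (n - k)) % n = y i
    rw [Nat.mod_add_mod]
    have e : y i + k + (n - k) = y i + n := by omega
    rw [e, Nat.add_mod_right, Nat.mod_eq_of_lt (h i)]
  rw [e] at h2
  exact h2

end MPbbea99S
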