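import Pool.Agent.Lib.Pbbea99S.Defs
import Pool.Agent.Lib.Pbbea99S.Seq

/-!
# MP_bbea99_co: from sequences to words
-/

namespace MPbbea99S

open Finset

/-- the substitution matrix is injective if it has an adjugate -/
theorem inj_of_adj {n l : ℕ} {w : ℕ → ℕ} {adj : ℕ → ℕ → ℤ} {D : ℤ} (hD : D ≠ 0)
    (h : ∀ e, e < n → ∀ d, d < n →
      ∑ c ∈ range n, adj e c * (pre n w d l c : ℤ) = if e = d then D else 0) :
    ∀ Y : ℕ → ℤ, (∀ c, c < n → ∑ d ∈ range n, (pre n w d l c : ℤ) * Y d = 0) →
      ∀ d, d < n → Y d = 0 := by
  intro Y hY e he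
  have h1 : ∑ c ∈ range n, adj e c * ∑ d ∈ range n, (pre n w d l c : ℤ) * Y d = 0 := by
    apply Finset.sum_eq_zero
    intro c hc
    rw [hY c (Finset.mem_range.1 hc), mul_zero]
  have h2 : ∑ c ∈ range n, adj e c * ∑ d ∈ range n, (pre n w d l c : ℤ) * Y d =
      ∑ d ∈ range n, (∑ c ∈ range n, adj e c * (pre n w d l c : ℤ)) * Y d := by
    simp_rw [Finset.mul_sum, Finset.sum_mul]
    rw [Finset.sum_comm]
    apply Finset.sum_congr rfl
    intro d _
    apply Finset.sum_congr rfl
    intro c _
    ring
  have h3 : ∑ d ∈ range n, (∑ c ∈ range n, adj e c * (pre n w d l c : ℤ)) * Y d = D * Y e := by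
    have h4 : ∀ d ∈ range n, (∑ c ∈ range n, adj e c * (pre n w d l c : ℤ)) * Y d =
        if e = d then D * Y e else 0 := by
      intro d hd
      rw [h e he d (Finset.mem_range.1 hd)]
      split_ifs with hed
      · rw [hed]
      · ring
    rw [Finset.sum_congr rfl h4, Finset.sum_ite_eq, if_pos (Finset.mem_range.2 he)]
  rw [h2, h3] at h1
  rcases mul_eq_zero.1 h1 with h5 | h5
  · exact absurd h5 hD
  · exact h5

/-- a sequence without long exact repetitions gives `𝒜(s,n)` -/
theorem avoid_of_seq {n : ℕ} (x : ℕ → ℕ) (hx : ∀ i, x i < n) (s : ℝ) (hs : 1 < s)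
    (h : ∀ m a g, 1 ≤ m → Ex n x a (a + m + g) m → (m : ℝ) < (s - 1) * (m + g)) :
    Avoid s n := by
  unfold Avoid
  apply Set.Infinite.of_image List.length
  apply Set.Infinite.mono (s := Set.univ) _ Set.infinite_univ
  intro N _
  let V : ℕ → Fin n := fun i => ⟨x i, hx i⟩
  refine ⟨(List.range N).map V, ?_, by simp⟩
  rintro r hr1 hr2 hr3 ⟨u, v, u', ⟨s', t, hst⟩, hperm, hlen⟩
  have hul : u'.length = u.length := hperm.length_eq.symm
  have htot : s'.length + (u.length + v.length + u.length) + t.length = N := by
    have := congrArg List.length hst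
    simp only [List.length_append, List.length_map, List.length_range, hul] at this
    omega
  obtain ⟨A, hA⟩ : ∃ A, A = s'.length := ⟨_, rfl⟩
  obtain ⟨m, hm⟩ : ∃ m, m = u.length := ⟨_, rfl⟩
  obtain ⟨g, hg⟩ : ∃ g, g = v.length := ⟨_, rfl⟩
  rw [← hA, ← hm, ← hg] at htot
  have hlen' : ((m : ℝ) + g + m) / (m + g) = r := by
    rw [← hlen]
    simp only [List.length_append, ← hm, ← hg]
    push_cast
    ring
  have hp0 : (0 : ℝ) < m + g := by
    rcases Nat.eq_zero_or_pos (m + g) with h0 | h0
    · have h0' : (m : ℝ) + g = 0 := by exact_mod_cast h0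
      rw [h0'] at hlen'
      simp only [div_zero] at hlen'
      linarith
    · exact_mod_cast h0
  have hr : r = 1 + m / (m + g) := by
    rw [← hlen']
    field_simp
  have hm1 : 1 ≤ m := by
    rcases Nat.eq_zero_or_pos m with h0 | h0
    · rw [h0] at hr
      simp at hr
      linarith
    · exact h0
  have hu : ∀ i (hi : i < m), u[i]'(by omega) = V (A + i) := by
    intro i hi
    have h1 : (s' ++ (u ++ v ++ u') ++ t)[A + i]? = ((List.range N).map V)[A + i]? := by rw [hst]
    rw [List.append_assoc, List.getElem?_append_right (by omega)] at h1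
    have e : A + i - s'.length = i := by omega
    rw [e, List.append_assoc, List.append_assoc, List.getElem?_append_left (by omega)] at h1
    rw [List.getElem?_eq_getElem (by omega)] at h1
    rw [List.getElem?_map, List.getElem?_range (by omega)] at h1
    simpa using h1
  have hu' : ∀ i (hi : i < m), u'[i]'(by omega) = V (A + m + g + i) := by
    intro i hi
    have h1 : (s' ++ (u ++ v ++ u') ++ t)[A + m + g + i]? =
        ((List.range N).map V)[A + m + g + i]? := by
      rw [hst]
    rw [List.append_assoc, List.getElem?_append_right (by omega)] at h1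
    have e : A + m + g + i - s'.length = m + g + i := by omega
    rw [e, List.getElem?_append_left (by
      rw [List.length_append, List.length_append]; omega)] at h1
    rw [List.getElem?_append_right (by rw [List.length_append]; omega)] at h1
    have e2 : m + g + i - (u ++ v).length = i := by rw [List.length_append]; omega
    rw [e2, List.getElem?_eq_getElem (by omega)] at h1
    rw [List.getElem?_map, List.getElem?_range (by omega)] at h1
    simpa using h1
  have hcount : ∀ (l : List (Fin n)) (B : ℕ) (_ : ∀ i (hi : i < l.length), l[i] = V (B + i))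
      (c : Fin n), cn x c B + l.count c = cn x c (B + l.length) := by
    intro l
    induction l with
    | nil => intro B _ c; simp
    | cons z l ih =>
      intro B hl c
      have h1 : ∀ i (hi : i < l.length), l[i] = V (B + 1 + i) := by
        intro i hi
        have := hl (i + 1) (by simp; omega)
        simp only [List.getElem_cons_succ] at this
        rw [this]
        congr 1
        ring
      have h2 := ih (B + 1) h1 c
      have h3 := hl 0 (by simp)
      simp only [List.getElem_cons_zero, Nat.add_zero] at h3
      rw [cn_succ] at h2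
      have e : B + (z :: l).length = B + 1 + l.length := by simp; ring
      rw [e, ← h2, List.count_cons, h3]
      have e2 : ((V B == c) = true) ↔ x B = c := by
        rw [beq_iff_eq]
        constructor
        · intro h4
          rw [← h4]
        · intro h4
          exact Fin.ext h4
      by_cases hc : x B = c
      · rw [if_pos hc, if_pos (e2.2 hc)]
        ring
      · rw [if_neg hc, if_neg (fun h4 => hc (e2.1 h4))]
        ring
  have hex : Ex n x A (A + m + g) m := by
    intro c hc
    have h1 := hcount u A (fun i hi => hu i (by omega)) ⟨c, hc⟩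
    have h2 := hcount u' (A + m + g) (fun i hi => hu' i (by omega)) ⟨c, hc⟩
    rw [← hperm.count_eq, hul, ← hm] at h2
    rw [← hm] at h1
    show cn x c (A + m) + cn x c (A + m + g) = cn x c (A + m + g + m) + cn x c A
    have h1' : cn x c A + u.count ⟨c, hc⟩ = cn x c (A + m) := h1
    have h2' : cn x c (A + m + g) + u.count ⟨c, hc⟩ = cn x c (A + m + g + m) := h2
    omega
  have hfin := h m A g hm1 hex
  have h5 : s - 1 ≤ m / (m + g) := by linarith
  rw [le_div_iff₀ hp0] at h5
  linarith

end MPbbea99S
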