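import Pool.Agent.Lib.Pbbea99S.Lower

/-!
# MP_bbea99_co: Abelian squares on three letters
-/

namespace MPbbea99S.Low3

/-- certificate -/
def t0 : T :=
  .R (.c (.R (.c (.v 0 1 0) (.c (.R (.c (.R (.c (.v 2 1 0) (.c (.v 0 2 0) (.c (.R (.c (.R (.c (.v
  4 1 0) (.c (.R (.c (.R (.c (.v 6 1 0) (.c (.v 4 2 0) (.c (.v 0 4 0) .e)))) (.c (.v 5 1 0) (.c
  (.v 1 3 0) .e)))) (.c (.v 2 2 0) .e)))) (.c (.R (.c (.R (.c (.v 5 1 0) (.c (.R (.c (.v 4 2 0)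
  (.c (.v 6 1 0) (.c (.v 2 3 0) .e)))) (.c (.v 1 3 0) .e)))) (.c (.v 4 1 0) (.c (.R (.c (.v 1 3 0)
  (.c (.v 3 2 0) (.c (.v 5 1 0) .e)))) .e)))) (.c (.v 3 1 0) .e)))) .e)))) (.c (.v 1 1 0) (.c (.R
  (.c (.R (.c (.v 3 1 0) (.c (.R (.c (.R (.c (.v 5 1 0) (.c (.v 3 2 0) (.c (.v 1 3 0) .e)))) (.c
  (.v 4 1 0) (.c (.v 0 3 0) .e)))) (.c (.R (.c (.v 2 2 0) (.c (.v 0 3 0) (.c (.v 4 1 0) .e))))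
  .e)))) (.c (.R (.c (.R (.c (.v 4 1 0) (.c (.R (.c (.v 3 2 0) (.c (.v 5 1 0) (.c (.R (.c (.v 2 3
  0) (.c (.v 0 4 0) (.c (.v 6 1 0) .e)))) .e)))) (.c (.v 0 3 0) .e)))) (.c (.v 3 1 0) (.c (.v 1 2
  0) .e)))) (.c (.v 2 1 0) .e)))) .e)))) (.c (.R (.c (.R (.c (.v 2 1 0) (.c (.R (.c (.R (.c (.v 4
  1 0) (.c (.v 2 2 0) (.c (.R (.c (.R (.c (.v 6 1 0) (.c (.v 0 4 0) (.c (.v 4 2 0) .e)))) (.c (.v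
  1 3 0) (.c (.v 5 1 0) .e)))) .e)))) (.c (.v 3 1 0) (.c (.R (.c (.R (.c (.v 5 1 0) (.c (.v 1 3 0)
  (.c (.R (.c (.v 4 2 0) (.c (.v 2 3 0) (.c (.v 6 1 0) .e)))) .e)))) (.c (.R (.c (.v 1 3 0) (.c
  (.v 5 1 0) (.c (.v 3 2 0) .e)))) (.c (.v 4 1 0) .e)))) .e)))) (.c (.v 0 2 0) .e)))) (.c (.R (.c
  (.R (.c (.v 3 1 0) (.c (.R (.c (.v 2 2 0) (.c (.v 4 1 0) (.c (.v 0 3 0) .e)))) (.c (.R (.c (.R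
  (.c (.v 5 1 0) (.c (.v 1 3 0) (.c (.v 3 2 0) .e)))) (.c (.v 0 3 0) (.c (.v 4 1 0) .e)))) .e))))
  (.c (.v 2 1 0) (.c (.R (.c (.R (.c (.v 4 1 0) (.c (.v 0 3 0) (.c (.R (.c (.v 3 2 0) (.c (.R (.c
  (.v 2 3 0) (.c (.v 6 1 0) (.c (.v 0 4 0) .e)))) (.c (.v 5 1 0) .e)))) .e)))) (.c (.v 1 2 0) (.c
  (.v 3 1 0) .e)))) .e)))) (.c (.v 1 1 0) .e)))) .e)))) (.c (.R (.c (.R (.c (.v 1 1 0) (.c (.R (.c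
  (.v 0 2 0) (.c (.v 2 1 0) (.c (.R (.c (.R (.c (.v 4 1 0) (.c (.R (.c (.R (.c (.v 6 1 0) (.c (.v
  4 2 0) (.c (.v 2 3 0) .e)))) (.c (.v 5 1 0) (.c (.v 1 3 0) .e)))) (.c (.R (.c (.v 3 2 0) (.c (.v
  1 3 0) (.c (.v 5 1 0) .e)))) .e)))) (.c (.R (.c (.R (.c (.v 5 1 0) (.c (.R (.c (.v 4 2 0) (.c
  (.v 6 1 0) (.c (.v 0 4 0) .e)))) (.c (.v 1 3 0) .e)))) (.c (.v 4 1 0) (.c (.v 2 2 0) .e)))) (.c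
  (.v 3 1 0) .e)))) .e)))) (.c (.R (.c (.R (.c (.v 3 1 0) (.c (.R (.c (.R (.c (.v 5 1 0) (.c (.v 3
  2 0) (.c (.R (.c (.v 0 4 0) (.c (.v 2 3 0) (.c (.v 6 1 0) .e)))) .e)))) (.c (.v 4 1 0) (.c (.v 0
  3 0) .e)))) (.c (.v 1 2 0) .e)))) (.c (.R (.c (.R (.c (.v 4 1 0) (.c (.R (.c (.v 3 2 0) (.c (.v
  5 1 0) (.c (.v 1 3 0) .e)))) (.c (.v 0 3 0) .e)))) (.c (.v 3 1 0) (.c (.R (.c (.v 0 3 0) (.c (.v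
  2 2 0) (.c (.v 4 1 0) .e)))) .e)))) (.c (.v 2 1 0) .e)))) .e)))) (.c (.v 0 1 0) (.c (.R (.c (.R
  (.c (.v 2 1 0) (.c (.R (.c (.R (.c (.v 4 1 0) (.c (.v 2 2 0) (.c (.v 0 3 0) .e)))) (.c (.v 3 1
  0) (.c (.R (.c (.v 0 3 0) (.c (.R (.c (.v 1 3 0) (.c (.v 5 1 0) (.c (.v 3 2 0) .e)))) (.c (.v 4
  1 0) .e)))) .e)))) (.c (.R (.c (.v 1 2 0) (.c (.R (.c (.v 0 3 0) (.c (.v 4 1 0) (.c (.R (.c (.R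
  (.c (.v 6 1 0) (.c (.v 2 3 0) (.c (.v 0 4 0) .e)))) (.c (.v 3 2 0) (.c (.v 5 1 0) .e)))) .e))))
  (.c (.v 3 1 0) .e)))) .e)))) (.c (.R (.c (.R (.c (.v 3 1 0) (.c (.R (.c (.v 2 2 0) (.c (.v 4 1
  0) (.c (.R (.c (.v 1 3 0) (.c (.R (.c (.v 0 4 0) (.c (.v 6 1 0) (.c (.v 4 2 0) .e)))) (.c (.v 5
  1 0) .e)))) .e)))) (.c (.R (.c (.R (.c (.v 5 1 0) (.c (.v 1 3 0) (.c (.v 3 2 0) .e)))) (.c (.R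
  (.c (.v 1 3 0) (.c (.v 5 1 0) (.c (.R (.c (.v 2 3 0) (.c (.v 4 2 0) (.c (.v 6 1 0) .e)))) .e))))
  (.c (.v 4 1 0) .e)))) .e)))) (.c (.v 2 1 0) (.c (.v 0 2 0) .e)))) (.c (.v 1 1 0) .e)))) .e))))
  (.c (.R (.c (.R (.c (.v 1 1 0) (.c (.R (.c (.R (.c (.v 3 1 0) (.c (.v 1 2 0) (.c (.R (.c (.R (.c
  (.v 5 1 0) (.c (.R (.c (.v 0 4 0) (.c (.v 6 1 0) (.c (.v 2 3 0) .e)))) (.c (.v 3 2 0) .e)))) (.c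
  (.v 0 3 0) (.c (.v 4 1 0) .e)))) .e)))) (.c (.v 2 1 0) (.c (.R (.c (.R (.c (.v 4 1 0) (.c (.v 0
  3 0) (.c (.R (.c (.v 3 2 0) (.c (.v 1 3 0) (.c (.v 5 1 0) .e)))) .e)))) (.c (.R (.c (.v 0 3 0)
  (.c (.v 4 1 0) (.c (.v 2 2 0) .e)))) (.c (.v 3 1 0) .e)))) .e)))) (.c (.R (.c (.v 0 2 0) (.c (.R
  (.c (.R (.c (.v 4 1 0) (.c (.R (.c (.v 3 2 0) (.c (.v 5 1 0) (.c (.v 1 3 0) .e)))) (.c (.R (.c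
  (.R (.c (.v 6 1 0) (.c (.v 2 3 0) (.c (.v 4 2 0) .e)))) (.c (.v 1 3 0) (.c (.v 5 1 0) .e))))
  .e)))) (.c (.v 3 1 0) (.c (.R (.c (.R (.c (.v 5 1 0) (.c (.v 1 3 0) (.c (.R (.c (.v 4 2 0) (.c
  (.v 0 4 0) (.c (.v 6 1 0) .e)))) .e)))) (.c (.v 2 2 0) (.c (.v 4 1 0) .e)))) .e)))) (.c (.v 2 1
  0) .e)))) .e)))) (.c (.R (.c (.R (.c (.v 2 1 0) (.c (.R (.c (.v 1 2 0) (.c (.v 3 1 0) (.c (.R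
  (.c (.v 0 3 0) (.c (.R (.c (.R (.c (.v 6 1 0) (.c (.v 0 4 0) (.c (.v 2 3 0) .e)))) (.c (.v 5 1
  0) (.c (.v 3 2 0) .e)))) (.c (.v 4 1 0) .e)))) .e)))) (.c (.R (.c (.R (.c (.v 4 1 0) (.c (.v 0 3
  0) (.c (.v 2 2 0) .e)))) (.c (.R (.c (.v 0 3 0) (.c (.v 4 1 0) (.c (.R (.c (.v 1 3 0) (.c (.v 3
  2 0) (.c (.v 5 1 0) .e)))) .e)))) (.c (.v 3 1 0) .e)))) .e)))) (.c (.v 1 1 0) (.c (.R (.c (.R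
  (.c (.v 3 1 0) (.c (.R (.c (.R (.c (.v 5 1 0) (.c (.v 3 2 0) (.c (.v 1 3 0) .e)))) (.c (.v 4 1
  0) (.c (.R (.c (.v 1 3 0) (.c (.R (.c (.v 2 3 0) (.c (.v 6 1 0) (.c (.v 4 2 0) .e)))) (.c (.v 5
  1 0) .e)))) .e)))) (.c (.R (.c (.v 2 2 0) (.c (.R (.c (.v 1 3 0) (.c (.v 5 1 0) (.c (.R (.c (.v
  0 4 0) (.c (.v 4 2 0) (.c (.v 6 1 0) .e)))) .e)))) (.c (.v 4 1 0) .e)))) .e)))) (.c (.v 0 2 0)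
  (.c (.v 2 1 0) .e)))) .e)))) (.c (.v 0 1 0) .e)))) .e)))

theorem ok : chkAll 3 0 1 0 [([], t0)] [] = true := by decide +kernel

theorem noext : ¬ Ext 3 0 1 [] :=
  chkAll_sound (fun g hg => by simp at hg) ok ([], t0) (by simp)

end MPbbea99S.Low3
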