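import Pool.Agent.Lib.Pbbea99S.Lower

/-!
# MP_bbea99_co: a certificate
-/

namespace MPbbea99S.Low4

/-- certificate -/
def t0 : T := (.R (.c (.v 6 1 0) (.c (.v 4 2 0) (.c (.v 0 4 0) (.c (.L (.c (.v 0 1 0) (.c (.v 0
  2 0) (.c (.v 0 4 0) (.c (.v 0 4 1) .e))))) .e)))))

/-- certificate -/
def t1 : T := (.R (.c (.v 2 3 0) (.c (.v 0 4 0) (.c (.v 6 1 0) (.c (.L (.c (.v 0 1 0) (.c (.v 0
  4 0) (.c (.v 0 3 0) (.c (.v 0 4 1) .e))))) .e)))))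

/-- certificate -/
def t2 : T := (.R (.c (.v 6 1 0) (.c (.L (.c (.v 0 1 0) (.c (.v 0 2 0) (.c (.L (.c (.f 1 0 1616
  1616 0) (.c (.v 0 3 0) (.c (.v 0 1 0) (.c (.v 0 5 0) .e))))) (.c (.v 0 4 1) .e))))) (.c (.R
  (.c (.f 1 2 1112 720 0) (.c (.L (.c (.v 0 1 0) (.c (.v 0 2 0) (.c (.L (.c (.f 1 0 1616 1616
  0) (.c (.v 0 3 0) (.c (.v 0 1 0) (.c (.v 0 5 1) .e))))) (.c (.v 0 5 0) .e))))) (.c (.v 7 1 0)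
  (.c (.v 3 3 0) .e))))) (.c (.v 4 2 0) .e)))))

/-- certificate -/
def t3 : T := (.R (.c (.v 6 1 0) (.c (.R (.c (.v 5 2 0) (.c (.v 7 1 0) (.c (.L (.c (.v 0 1 0)
  (.c (.R (.c (.v 0 5 1) (.c (.R (.c (.R (.c (.v 11 1 0) (.c (.f 2 6 1665 1665 0) (.c (.v 7 3
  0) (.c (.v 2 5 1) .e))))) (.c (.v 10 1 0) (.c (.v 8 2 0) (.c (.v 2 5 0) .e))))) (.c (.v 9 1
  0) (.c (.v 3 4 0) .e))))) (.c (.R (.c (.R (.c (.v 10 1 0) (.c (.R (.c (.R (.c (.v 12 1 0) (.c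
  (.v 10 2 0) (.c (.v 8 3 0) (.c (.v 3 5 1) .e))))) (.c (.v 11 1 0) (.c (.v 7 3 0) (.c (.v 2 5
  1) .e))))) (.c (.R (.c (.v 9 2 0) (.c (.v 7 3 0) (.c (.v 11 1 0) (.c (.v 0 6 1) .e))))) (.c
  (.v 3 4 1) .e))))) (.c (.R (.c (.R (.c (.v 11 1 0) (.c (.f 2 6 1665 1665 0) (.c (.v 7 3 0)
  (.c (.v 2 5 1) .e))))) (.c (.v 10 1 0) (.c (.v 8 2 0) (.c (.v 2 5 0) .e))))) (.c (.v 9 1 0)
  (.c (.v 3 4 0) .e))))) (.c (.L (.c (.v 0 4 1) (.c (.v 0 5 1) (.c (.v 0 4 0) (.c (.v 0 1 0)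
  .e))))) .e))))) (.c (.v 3 3 0) .e))))) (.c (.R (.c (.v 0 4 1) (.c (.L (.c (.v 0 1 0) (.c (.L
  (.c (.v 0 2 0) (.c (.v 0 1 0) (.c (.v 0 3 0) (.c (.v 0 5 1) .e))))) (.c (.L (.c (.L (.c (.v 0
  1 0) (.c (.v 0 3 0) (.c (.v 0 2 0) (.c (.v 0 5 0) .e))))) (.c (.v 0 3 0) (.c (.v 0 1 0) (.c
  (.v 0 4 0) .e))))) (.c (.v 0 4 1) .e))))) (.c (.v 7 1 0) (.c (.v 1 4 0) .e))))) (.c (.R (.c
  (.R (.c (.v 8 1 0) (.c (.v 4 3 0) (.c (.v 0 5 0) (.c (.v 6 2 0) .e))))) (.c (.v 3 3 0) (.c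
  (.v 1 4 0) (.c (.v 7 1 0) .e))))) .e)))))

/-- certificate -/
def t4 : T := (.L (.c (.v 0 1 0) (.c (.v 0 2 0) (.c (.L (.c (.L (.c (.v 0 1 0) (.c (.f 2 0 1665
  1665 0) (.c (.v 0 2 0) (.c (.v 0 5 0) .e))))) (.c (.v 0 3 0) (.c (.v 0 1 0) (.c (.v 0 4 0)
  .e))))) (.c (.L (.c (.L (.c (.v 0 1 0) (.c (.L (.c (.f 3 0 1224 1224 0) (.c (.v 0 1 0) (.c
  (.v 0 4 1) (.c (.v 0 3 0) .e))))) (.c (.v 0 5 0) (.c (.v 0 2 0) .e))))) (.c (.R (.c (.v 8 1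
  0) (.c (.R (.c (.v 7 2 0) (.c (.v 9 1 0) (.c (.R (.c (.v 0 6 0) (.c (.R (.c (.R (.c (.v 12 1
  0) (.c (.f 3 7 1665 1665 0) (.c (.v 8 3 0) (.c (.v 5 4 1) .e))))) (.c (.v 11 1 0) (.c (.v 9 2
  0) (.c (.v 3 5 0) .e))))) (.c (.v 10 1 0) (.c (.v 4 4 0) .e))))) (.c (.R (.c (.v 6 3 0) (.c
  (.R (.c (.f 2 6 202 1035 0) (.c (.v 11 1 0) (.c (.v 3 5 0) (.c (.v 9 2 0) .e))))) (.c (.v 4 4
  0) (.c (.v 10 1 0) .e))))) .e))))) (.c (.R (.c (.v 2 4 1) (.c (.R (.c (.v 0 6 0) (.c (.v 10 1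
  0) (.c (.R (.c (.v 7 3 0) (.c (.v 9 2 0) (.c (.v 11 1 0) (.c (.R (.c (.v 6 4 0) (.c (.R (.c
  (.v 6 4 1) (.c (.v 13 1 0) (.c (.R (.c (.v 5 5 1) (.c (.R (.c (.v 6 5 1) (.c (.v 15 1 0) (.c
  (.v 13 2 0) (.c (.v 11 3 0) .e))))) (.c (.v 14 1 0) (.c (.v 10 3 0) .e))))) (.c (.L (.c (.L
  (.c (.v 0 1 0) (.c (.L (.c (.v 0 2 0) (.c (.v 0 1 0) (.c (.v 0 5 1) (.c (.v 0 3 0) .e)))))
  (.c (.v 0 4 1) (.c (.v 0 3 0) .e))))) (.c (.v 0 1 0) (.c (.v 0 4 0) (.c (.L (.c (.v 0 3 0)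
  (.c (.v 0 2 0) (.c (.R (.c (.v 0 8 2) (.c (.v 14 2 0) (.c (.v 12 3 0) (.c (.v 16 1 0) .e)))))
  (.c (.v 0 1 0) .e))))) .e))))) .e))))) (.c (.R (.c (.v 5 5 0) (.c (.R (.c (.v 5 5 1) (.c (.v
  14 1 0) (.c (.f 3 9 1035 202 0) (.c (.v 10 3 0) .e))))) (.c (.v 13 1 0) (.c (.v 11 2 0)
  .e))))) (.c (.v 12 1 0) .e))))) .e))))) (.c (.v 4 4 0) .e))))) (.c (.v 9 1 0) (.c (.v 3 4 0)
  .e))))) (.c (.R (.c (.R (.c (.v 10 1 0) (.c (.v 6 3 0) (.c (.v 2 5 0) (.c (.v 8 2 0) .e)))))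
  (.c (.L (.c (.L (.c (.v 0 1 0) (.c (.L (.c (.v 0 2 0) (.c (.v 0 1 0) (.c (.v 0 5 1) (.c (.v 0
  3 0) .e))))) (.c (.v 0 4 1) (.c (.v 0 3 0) .e))))) (.c (.v 0 1 0) (.c (.v 0 4 0) (.c (.L (.c
  (.v 0 3 0) (.c (.v 0 2 0) (.c (.v 0 6 1) (.c (.v 0 1 0) .e))))) .e))))) (.c (.v 3 4 0) (.c
  (.v 9 1 0) .e))))) .e))))) (.c (.v 0 4 0) (.c (.v 0 1 0) .e))))) .e)))))

/-- certificate -/
def t5 : T := (.R (.c (.L (.c (.v 0 1 0) (.c (.f 0 0 1665 1665 0) (.c (.R (.c (.v 8 1 0) (.c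
  (.R (.c (.R (.c (.v 10 1 0) (.c (.v 8 2 0) (.c (.v 6 3 0) (.c (.v 1 5 1) .e))))) (.c (.v 9 1
  0) (.c (.v 5 3 0) (.c (.v 3 4 0) .e))))) (.c (.R (.c (.v 7 2 0) (.c (.v 5 3 0) (.c (.v 9 1 0)
  (.c (.v 0 5 1) .e))))) (.c (.v 2 4 0) .e))))) (.c (.v 0 4 0) .e))))) (.c (.f 0 1 1602 1553 1)
  (.c (.v 6 1 0) (.c (.v 0 4 0) .e)))))

/-- certificate -/
def t6 : T := (.L (.c (.v 0 1 0) (.c (.v 0 2 0) (.c (.L (.c (.L (.c (.v 0 1 0) (.c (.f 4 0 1665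
  1665 0) (.c (.v 0 2 0) (.c (.v 0 4 1) .e))))) (.c (.v 0 3 0) (.c (.v 0 1 0) (.c (.v 0 4 1)
  .e))))) (.c (.L (.c (.L (.c (.v 0 1 0) (.c (.L (.c (.f 5 0 1224 1224 0) (.c (.v 0 1 0) (.c
  (.v 0 4 1) (.c (.v 0 3 0) .e))))) (.c (.v 0 4 1) (.c (.v 0 2 0) .e))))) (.c (.R (.c (.v 1 4
  1) (.c (.v 8 1 0) (.c (.R (.c (.v 2 4 1) (.c (.R (.c (.v 0 6 0) (.c (.v 10 1 0) (.c (.v 8 2
  0) (.c (.R (.c (.v 5 4 0) (.c (.R (.c (.L (.c (.L (.c (.v 0 1 0) (.c (.L (.c (.v 0 2 0) (.c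
  (.v 0 1 0) (.c (.v 0 6 0) (.c (.v 0 3 0) .e))))) (.c (.v 0 4 1) (.c (.v 0 3 0) .e))))) (.c
  (.v 0 1 0) (.c (.v 0 4 0) (.c (.L (.c (.v 0 3 0) (.c (.v 0 2 0) (.c (.R (.c (.v 15 1 0) (.c
  (.f 3 10 1091 209 0) (.c (.v 8 4 1) (.c (.R (.c (.R (.c (.v 17 1 0) (.c (.v 13 3 0) (.c (.R
  (.c (.v 3 8 1) (.c (.R (.c (.v 3 8 2) (.c (.v 19 1 0) (.c (.v 6 7 1) (.c (.R (.c (.v 1 10 1)
  (.c (.v 11 5 1) (.c (.v 6 8 0) (.c (.v 20 1 0) .e))))) .e))))) (.c (.v 18 1 0) (.c (.v 0 9 2)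
  .e))))) (.c (.v 15 2 0) .e))))) (.c (.R (.c (.v 13 3 0) (.c (.v 17 1 0) (.c (.v 9 5 0) (.c
  (.R (.c (.v 14 3 0) (.c (.v 16 2 0) (.c (.v 8 6 0) (.c (.v 18 1 0) .e))))) .e))))) (.c (.R
  (.c (.R (.c (.v 18 1 0) (.c (.R (.c (.v 3 8 2) (.c (.v 19 1 0) (.c (.v 6 7 1) (.c (.R (.c (.v
  1 10 1) (.c (.v 11 5 1) (.c (.v 14 4 0) (.c (.v 20 1 0) .e))))) .e))))) (.c (.R (.c (.v 17 2
  0) (.c (.v 6 7 1) (.c (.v 19 1 0) (.c (.v 15 3 0) .e))))) (.c (.v 0 9 2) .e))))) (.c (.v 9 5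
  0) (.c (.v 17 1 0) (.c (.R (.c (.v 0 9 2) (.c (.v 8 6 0) (.c (.v 16 2 0) (.c (.v 18 1 0)
  .e))))) .e))))) (.c (.v 16 1 0) .e))))) .e))))) (.c (.v 0 1 0) .e))))) .e))))) (.c (.v 12 1
  0) (.c (.R (.c (.v 6 4 1) (.c (.f 5 8 1091 209 0) (.c (.v 13 1 0) (.c (.v 9 3 0) .e))))) (.c
  (.v 10 2 0) .e))))) (.c (.L (.c (.L (.c (.v 0 1 0) (.c (.L (.c (.v 0 2 0) (.c (.v 0 1 0) (.c
  (.v 0 6 0) (.c (.v 0 3 0) .e))))) (.c (.v 0 4 1) (.c (.v 0 3 0) .e))))) (.c (.v 0 1 0) (.c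
  (.v 0 4 0) (.c (.R (.c (.v 7 4 0) (.c (.R (.c (.v 7 4 1) (.c (.v 14 1 0) (.c (.R (.c (.v 6 5
  1) (.c (.v 13 2 0) (.c (.v 15 1 0) (.c (.v 11 3 0) .e))))) (.c (.v 10 3 0) .e))))) (.c (.v 13
  1 0) (.c (.L (.c (.v 0 3 0) (.c (.v 0 2 0) (.c (.R (.c (.v 0 8 1) (.c (.v 11 3 0) (.c (.v 13
  2 0) (.c (.v 15 1 0) .e))))) (.c (.v 0 1 0) .e))))) .e))))) .e))))) (.c (.v 11 1 0) .e)))))
  .e))))) (.c (.v 9 1 0) (.c (.v 3 4 0) .e))))) (.c (.R (.c (.R (.c (.v 10 1 0) (.c (.v 6 3 0)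
  (.c (.v 3 4 1) (.c (.R (.c (.v 9 2 0) (.c (.v 7 3 0) (.c (.v 1 6 0) (.c (.v 11 1 0) .e)))))
  .e))))) (.c (.L (.c (.L (.c (.v 0 1 0) (.c (.L (.c (.v 0 2 0) (.c (.v 0 1 0) (.c (.v 0 6 0)
  (.c (.v 0 3 0) .e))))) (.c (.v 0 4 1) (.c (.v 0 3 0) .e))))) (.c (.v 0 1 0) (.c (.v 0 4 0)
  (.c (.L (.c (.v 0 3 0) (.c (.v 0 2 0) (.c (.v 0 6 1) (.c (.v 0 1 0) .e))))) .e))))) (.c (.v 3
  4 0) (.c (.v 9 1 0) .e))))) .e))))) (.c (.v 0 4 1) (.c (.v 0 1 0) .e))))) .e)))))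

/-- certificate -/
def t7 : T := (.L (.c (.v 0 1 0) (.c (.L (.c (.v 0 2 0) (.c (.v 0 1 0) (.c (.v 0 3 0) (.c (.L
  (.c (.R (.c (.v 9 1 0) (.c (.v 0 5 1) (.c (.R (.c (.f 0 5 1112 720 1) (.c (.v 1 5 1) (.c (.v
  10 1 0) (.c (.R (.c (.R (.c (.v 12 1 0) (.c (.v 5 4 1) (.c (.v 8 3 0) (.c (.R (.c (.v 11 2 0)
  (.c (.R (.c (.R (.c (.v 15 1 0) (.c (.L (.c (.v 0 1 0) (.c (.L (.c (.L (.c (.v 0 1 0) (.c (.v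
  0 2 0) (.c (.v 0 6 0) (.c (.v 0 3 0) .e))))) (.c (.v 0 1 0) (.c (.v 0 5 1) (.c (.v 0 3 0)
  .e))))) (.c (.v 0 5 1) (.c (.v 0 8 2) .e))))) (.c (.v 6 5 1) (.c (.R (.c (.R (.c (.v 17 1 0)
  (.c (.v 13 3 0) (.c (.v 7 6 0) (.c (.v 15 2 0) .e))))) (.c (.v 12 3 0) (.c (.v 7 5 1) (.c (.v
  16 1 0) .e))))) .e))))) (.c (.v 14 1 0) (.c (.v 7 4 1) (.c (.R (.c (.R (.c (.v 16 1 0) (.c
  (.v 12 3 0) (.c (.v 7 5 1) (.c (.f 6 11 209 1091 0) .e))))) (.c (.v 13 2 0) (.c (.v 7 5 0)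
  (.c (.v 15 1 0) .e))))) .e))))) (.c (.v 9 3 0) (.c (.v 13 1 0) .e))))) .e))))) (.c (.v 5 4 0)
  (.c (.R (.c (.v 8 3 0) (.c (.L (.c (.v 0 1 0) (.c (.L (.c (.L (.c (.v 0 1 0) (.c (.v 0 2 0)
  (.c (.v 0 6 0) (.c (.v 0 3 0) .e))))) (.c (.v 0 1 0) (.c (.v 0 5 1) (.c (.v 0 3 0) .e)))))
  (.c (.v 0 5 1) (.c (.L (.c (.v 0 2 0) (.c (.v 0 3 0) (.c (.v 0 8 0) (.c (.v 0 1 0) .e)))))
  .e))))) (.c (.v 12 1 0) (.c (.v 10 2 0) .e))))) (.c (.v 11 1 0) .e))))) .e))))) (.c (.L (.c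
  (.v 0 1 0) (.c (.L (.c (.L (.c (.v 0 1 0) (.c (.v 0 2 0) (.c (.v 0 6 0) (.c (.v 0 3 0)
  .e))))) (.c (.v 0 1 0) (.c (.v 0 5 1) (.c (.v 0 3 0) .e))))) (.c (.v 0 5 1) (.c (.L (.c (.v 0
  2 0) (.c (.v 0 3 0) (.c (.v 0 6 1) (.c (.v 0 1 0) .e))))) .e))))) .e))))) (.c (.L (.c (.L (.c
  (.v 0 1 0) (.c (.f 6 0 1217 1217 0) (.c (.v 0 5 1) (.c (.v 0 3 0) .e))))) (.c (.v 0 1 0) (.c
  (.v 0 5 0) (.c (.v 0 2 0) .e))))) (.c (.v 0 4 1) (.c (.v 0 1 0) .e))))) .e))))) (.c (.v 0 3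
  0) (.c (.L (.c (.v 0 4 1) (.c (.R (.c (.v 8 1 0) (.c (.R (.c (.R (.c (.v 10 1 0) (.c (.v 8 2
  0) (.c (.v 1 5 1) (.c (.v 6 3 0) .e))))) (.c (.v 9 1 0) (.c (.v 0 5 1) (.c (.v 5 3 0) .e)))))
  (.c (.v 1 4 1) (.c (.L (.c (.L (.c (.v 0 1 0) (.c (.L (.c (.v 0 2 0) (.c (.v 0 1 0) (.c (.v 0
  5 1) (.c (.v 0 3 0) .e))))) (.c (.v 0 5 1) (.c (.v 0 3 0) .e))))) (.c (.v 0 1 0) (.c (.v 0 4
  1) (.c (.R (.c (.v 8 2 0) (.c (.v 6 3 0) (.c (.L (.c (.v 0 3 0) (.c (.v 0 2 0) (.c (.R (.c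
  (.R (.c (.v 13 1 0) (.c (.v 6 4 1) (.c (.R (.c (.v 12 2 0) (.c (.v 0 8 0) (.c (.v 14 1 0) (.c
  (.v 10 3 0) .e))))) (.c (.R (.c (.R (.c (.v 15 1 0) (.c (.v 6 5 1) (.c (.v 11 3 0) (.c (.v 13
  2 0) .e))))) (.c (.R (.c (.v 6 5 1) (.c (.v 15 1 0) (.c (.R (.c (.R (.c (.v 17 1 0) (.c (.L
  (.c (.v 0 4 0) (.c (.L (.c (.v 0 4 1) (.c (.v 0 1 0) (.c (.L (.c (.v 0 8 0) (.c (.v 0 2 0)
  (.c (.v 0 1 0) (.c (.v 0 3 0) .e))))) (.c (.L (.c (.v 0 11 0) (.c (.L (.c (.v 0 5 1) (.c (.v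
  0 1 0) (.c (.v 0 3 0) (.c (.v 0 2 0) .e))))) (.c (.v 0 3 0) (.c (.v 0 1 0) .e))))) .e)))))
  (.c (.v 0 1 0) (.c (.v 0 9 0) .e))))) (.c (.f 2 12 1553 1602 1) (.c (.v 8 5 1) .e))))) (.c
  (.v 0 8 2) (.c (.v 16 1 0) (.c (.v 8 5 0) .e))))) (.c (.v 8 4 1) .e))))) (.c (.v 10 3 0) (.c
  (.v 14 1 0) .e))))) .e))))) (.c (.v 6 4 0) (.c (.v 12 1 0) (.c (.L (.c (.v 0 4 0) (.c (.L (.c
  (.v 0 4 1) (.c (.v 0 1 0) (.c (.L (.c (.v 0 8 0) (.c (.v 0 2 0) (.c (.v 0 1 0) (.c (.v 0 3 0)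
  .e))))) (.c (.L (.c (.L (.c (.v 0 1 0) (.c (.v 0 5 1) (.c (.v 0 9 0) (.c (.v 0 4 1) .e)))))
  (.c (.L (.c (.v 0 5 1) (.c (.v 0 1 0) (.c (.v 0 3 0) (.c (.v 0 2 0) .e))))) (.c (.v 0 3 0)
  (.c (.v 0 1 0) .e))))) .e))))) (.c (.v 0 1 0) (.c (.R (.c (.R (.c (.v 15 1 0) (.c (.R (.c (.v
  7 5 1) (.c (.v 16 1 0) (.c (.v 0 9 0) (.c (.v 9 4 1) .e))))) (.c (.v 11 3 0) (.c (.f 6 10 153
  643 0) .e))))) (.c (.R (.c (.R (.c (.v 16 1 0) (.c (.v 4 7 0) (.c (.v 0 9 0) (.c (.v 9 4 1)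
  .e))))) (.c (.v 15 1 0) (.c (.v 0 8 1) (.c (.f 4 10 153 643 0) .e))))) (.c (.v 12 2 0) (.c
  (.v 14 1 0) .e))))) .e))))) .e))))) (.c (.v 0 1 0) .e))))) (.c (.v 10 1 0) .e))))) .e)))))
  .e))))) (.c (.v 0 4 0) (.c (.v 0 1 0) .e))))) .e)))))

/-- certificate -/
def t8 : T := (.L (.c (.v 0 1 0) (.c (.R (.c (.R (.c (.v 8 1 0) (.c (.L (.c (.v 0 2 0) (.c (.v
  0 1 0) (.c (.v 0 3 0) (.c (.v 0 5 1) .e))))) (.c (.f 4 3 1049 706 0) (.c (.v 2 4 0) .e)))))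
  (.c (.v 7 1 0) (.c (.f 1 2 1035 202 1) (.c (.R (.c (.v 2 4 0) (.c (.R (.c (.L (.c (.v 0 2 0)
  (.c (.v 0 1 0) (.c (.v 0 3 0) (.c (.R (.c (.v 11 1 0) (.c (.L (.c (.L (.c (.v 0 1 0) (.c (.L
  (.c (.L (.c (.v 0 1 0) (.c (.v 0 2 0) (.c (.v 0 5 1) (.c (.v 0 3 0) .e))))) (.c (.v 0 1 0)
  (.c (.L (.c (.v 0 5 1) (.c (.v 0 4 1) (.c (.v 0 1 0) (.c (.v 0 8 1) .e))))) (.c (.v 0 3 0)
  .e))))) (.c (.v 0 4 1) (.c (.v 0 7 0) .e))))) (.c (.R (.c (.v 11 2 0) (.c (.v 13 1 0) (.c (.L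
  (.c (.R (.c (.R (.c (.v 16 1 0) (.c (.R (.c (.R (.c (.v 18 1 0) (.c (.v 16 2 0) (.c (.v 14 3
  0) (.c (.v 0 9 2) .e))))) (.c (.v 17 1 0) (.c (.v 13 3 0) (.c (.v 9 5 0) .e))))) (.c (.v 4 7
  0) (.c (.v 1 8 1) .e))))) (.c (.f 5 10 706 1049 0) (.c (.v 15 1 0) (.c (.R (.c (.v 1 8 1) (.c
  (.v 9 4 1) (.c (.v 5 6 1) (.c (.v 16 1 0) .e))))) .e))))) (.c (.v 0 1 0) (.c (.R (.c (.v 0 8
  1) (.c (.f 5 10 706 1049 0) (.c (.v 15 1 0) (.c (.R (.c (.v 1 8 1) (.c (.v 9 4 1) (.c (.v 5 6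
  1) (.c (.v 16 1 0) .e))))) .e))))) (.c (.v 0 2 0) .e))))) (.c (.R (.c (.v 10 3 0) (.c (.f 7 9
  706 1049 0) (.c (.R (.c (.v 0 8 1) (.c (.v 8 4 1) (.c (.v 15 1 0) (.c (.v 6 5 1) .e))))) (.c
  (.v 14 1 0) .e))))) .e))))) (.c (.v 0 4 0) (.c (.v 0 1 0) .e))))) (.c (.v 5 4 0) (.c (.R (.c
  (.v 0 7 0) (.c (.R (.c (.v 9 3 0) (.c (.v 13 1 0) (.c (.R (.c (.R (.c (.v 15 1 0) (.c (.v 7 5
  0) (.c (.v 2 7 1) (.c (.R (.c (.f 3 11 664 664 1) (.c (.v 7 5 1) (.c (.v 2 8 0) (.c (.v 16 1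
  0) .e))))) .e))))) (.c (.v 7 4 1) (.c (.v 14 1 0) (.c (.v 5 5 1) .e))))) (.c (.R (.c (.v 10 3
  0) (.c (.v 12 2 0) (.c (.v 5 5 1) (.c (.v 14 1 0) .e))))) .e))))) (.c (.v 5 4 1) (.c (.v 12 1
  0) .e))))) .e))))) .e))))) (.c (.v 9 1 0) (.c (.v 5 3 0) (.c (.v 7 2 0) .e))))) (.c (.f 0 3
  531 90 1) (.c (.v 8 1 0) .e))))) .e))))) (.c (.f 0 0 1553 1602 0) (.c (.v 0 4 0) .e)))))

/-- certificate -/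
def t9 : T := (.R (.c (.f 0 1 1672 1672 1) (.c (.v 6 1 0) (.c (.f 2 1 1546 1546 1) (.c (.v 0 4
  0) .e)))))

/-- certificate -/
def t10 : T := (.L (.c (.v 0 1 0) (.c (.v 0 2 0) (.c (.v 0 3 0) (.c (.L (.c (.L (.c (.v 0 1 0)
  (.c (.L (.c (.f 9 0 1224 1224 0) (.c (.v 0 1 0) (.c (.v 0 5 1) (.c (.v 0 3 0) .e))))) (.c (.v
  0 5 0) (.c (.v 0 2 0) .e))))) (.c (.R (.c (.v 8 1 0) (.c (.f 6 3 1665 1665 0) (.c (.R (.c (.v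
  1 5 0) (.c (.f 4 4 1616 1616 0) (.c (.v 9 1 0) (.c (.R (.c (.R (.c (.v 11 1 0) (.c (.v 5 4 0)
  (.c (.v 7 3 0) (.c (.R (.c (.v 10 2 0) (.c (.R (.c (.R (.c (.v 14 1 0) (.c (.v 1 7 1) (.c (.R
  (.c (.R (.c (.v 16 1 0) (.c (.v 1 8 1) (.c (.v 14 2 0) (.c (.v 6 6 0) .e))))) (.c (.R (.c (.v
  1 8 1) (.c (.v 16 1 0) (.c (.v 3 7 1) (.c (.f 1 11 720 1112 0) .e))))) (.c (.v 15 1 0) (.c
  (.v 6 5 1) .e))))) (.c (.R (.c (.R (.c (.v 16 1 0) (.c (.v 12 3 0) (.c (.v 6 6 0) (.c (.v 14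
  2 0) .e))))) (.c (.v 11 3 0) (.c (.v 6 5 1) (.c (.v 15 1 0) .e))))) .e))))) (.c (.v 13 1 0)
  (.c (.v 6 4 1) (.c (.R (.c (.R (.c (.v 15 1 0) (.c (.v 11 3 0) (.c (.v 6 5 1) (.c (.f 9 10
  209 1091 0) .e))))) (.c (.v 12 2 0) (.c (.v 6 5 0) (.c (.v 14 1 0) .e))))) .e))))) (.c (.v 8
  3 0) (.c (.v 12 1 0) .e))))) .e))))) (.c (.v 4 4 0) (.c (.R (.c (.v 7 3 0) (.c (.R (.c (.v 6
  4 0) (.c (.v 12 1 0) (.c (.R (.c (.v 5 5 0) (.c (.v 11 2 0) (.c (.v 13 1 0) (.c (.R (.c (.v 5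
  5 1) (.c (.v 10 3 0) (.c (.f 9 9 531 90 0) (.c (.v 14 1 0) .e))))) .e))))) (.c (.R (.c (.v 6
  4 1) (.c (.L (.c (.L (.c (.v 0 1 0) (.c (.L (.c (.v 0 2 0) (.c (.v 0 1 0) (.c (.v 0 5 1) (.c
  (.v 0 3 0) .e))))) (.c (.v 0 5 1) (.c (.v 0 3 0) .e))))) (.c (.v 0 1 0) (.c (.v 0 4 1) (.c
  (.R (.c (.L (.c (.v 0 3 0) (.c (.v 0 2 0) (.c (.v 0 8 2) (.c (.v 0 1 0) .e))))) (.c (.v 15 1
  0) (.c (.v 11 3 0) (.c (.v 13 2 0) .e))))) .e))))) (.c (.R (.c (.v 5 5 1) (.c (.v 10 3 0) (.c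
  (.v 14 1 0) (.c (.R (.c (.v 6 5 1) (.c (.v 11 3 0) (.c (.v 13 2 0) (.c (.v 15 1 0) .e)))))
  .e))))) (.c (.v 13 1 0) .e))))) .e))))) (.c (.v 11 1 0) (.c (.v 9 2 0) .e))))) (.c (.v 10 1
  0) .e))))) .e))))) (.c (.R (.c (.v 7 2 0) (.c (.L (.c (.L (.c (.v 0 1 0) (.c (.L (.c (.v 0 2
  0) (.c (.v 0 1 0) (.c (.v 0 5 1) (.c (.v 0 3 0) .e))))) (.c (.v 0 5 1) (.c (.v 0 3 0) .e)))))
  (.c (.v 0 1 0) (.c (.v 0 4 1) (.c (.L (.c (.v 0 3 0) (.c (.v 0 2 0) (.c (.v 0 6 1) (.c (.v 0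
  1 0) .e))))) .e))))) (.c (.L (.c (.L (.c (.v 0 1 0) (.c (.L (.c (.v 0 2 0) (.c (.v 0 1 0) (.c
  (.v 0 5 1) (.c (.v 0 3 0) .e))))) (.c (.v 0 5 1) (.c (.v 0 3 0) .e))))) (.c (.v 0 1 0) (.c
  (.v 0 4 1) (.c (.L (.c (.v 0 3 0) (.c (.v 0 2 0) (.c (.R (.c (.R (.c (.v 13 1 0) (.c (.v 7 4
  0) (.c (.R (.c (.v 12 2 0) (.c (.v 0 8 0) (.c (.v 14 1 0) (.c (.v 10 3 0) .e))))) (.c (.R (.c
  (.R (.c (.v 15 1 0) (.c (.v 6 5 1) (.c (.v 11 3 0) (.c (.v 13 2 0) .e))))) (.c (.v 7 4 1) (.c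
  (.v 10 3 0) (.c (.v 14 1 0) .e))))) .e))))) (.c (.v 6 4 0) (.c (.v 12 1 0) (.c (.R (.c (.R
  (.c (.v 14 1 0) (.c (.v 7 4 1) (.c (.v 10 3 0) (.c (.f 9 9 153 643 0) .e))))) (.c (.R (.c (.v
  7 4 1) (.c (.v 14 1 0) (.c (.R (.c (.R (.c (.v 16 1 0) (.c (.v 0 8 2) (.c (.L (.c (.v 0 6 1)
  (.c (.L (.c (.v 0 7 0) (.c (.v 0 1 0) (.c (.L (.c (.v 0 8 0) (.c (.v 0 2 0) (.c (.v 0 1 0)
  (.c (.v 0 3 0) .e))))) (.c (.R (.c (.v 17 2 0) (.c (.L (.c (.L (.c (.v 0 1 0) (.c (.f 2 0 643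
  153 1) (.c (.v 0 9 0) (.c (.v 0 4 1) .e))))) (.c (.L (.c (.L (.c (.v 0 1 0) (.c (.L (.c (.v 0
  2 0) (.c (.v 0 1 0) (.c (.L (.c (.L (.c (.v 0 1 0) (.c (.R (.c (.v 22 3 0) (.c (.v 26 1 0)
  (.c (.R (.c (.f 8 22 1602 1553 0) (.c (.v 25 2 0) (.c (.v 27 1 0) (.c (.v 20 4 1) .e))))) (.c
  (.L (.c (.L (.c (.v 0 1 0) (.c (.v 0 2 0) (.c (.v 0 3 0) (.c (.L (.c (.L (.c (.v 0 1 0) (.c
  (.L (.c (.f 9 0 1224 1224 0) (.c (.v 0 1 0) (.c (.v 0 6 0) (.c (.v 0 3 0) .e))))) (.c (.L (.c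
  (.f 7 0 1112 720 0) (.c (.v 0 6 0) (.c (.v 0 1 0) (.c (.v 0 15 0) .e))))) (.c (.v 0 2 0)
  .e))))) (.c (.L (.c (.L (.c (.v 0 1 0) (.c (.L (.c (.v 0 2 0) (.c (.v 0 1 0) (.c (.v 0 6 1)
  (.c (.v 0 3 0) .e))))) (.c (.v 0 6 0) (.c (.v 0 3 0) .e))))) (.c (.v 0 1 0) (.c (.v 0 5 1)
  (.c (.L (.c (.v 0 3 0) (.c (.v 0 2 0) (.c (.v 0 12 0) (.c (.v 0 1 0) .e))))) .e))))) (.c (.L
  (.c (.L (.c (.v 0 1 0) (.c (.v 0 6 0) (.c (.v 0 15 2) (.c (.v 0 15 0) .e))))) (.c (.v 0 5 1)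
  (.c (.v 0 1 0) (.c (.v 0 11 1) .e))))) (.c (.v 0 1 0) .e))))) .e))))) (.c (.v 0 1 0) (.c (.v
  0 3 0) (.c (.v 0 5 0) .e))))) .e))))) (.c (.L (.c (.v 0 2 0) (.c (.v 0 3 0) (.c (.v 0 1 0)
  (.c (.v 0 8 1) .e))))) (.c (.v 0 7 1) .e))))) (.c (.f 7 0 1602 1553 0) (.c (.v 0 1 0) (.c (.v
  0 6 0) .e))))) (.c (.L (.c (.v 0 3 0) (.c (.f 9 0 706 1049 0) (.c (.v 0 6 0) (.c (.v 0 1 0)
  .e))))) .e))))) (.c (.v 0 10 0) (.c (.v 0 5 1) .e))))) (.c (.v 0 1 0) (.c (.v 0 3 0) (.c (.v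
  0 2 0) .e))))) (.c (.v 0 3 0) (.c (.v 0 1 0) .e))))) (.c (.v 19 1 0) (.c (.v 9 6 0) .e)))))
  .e))))) (.c (.v 0 1 0) (.c (.v 0 9 0) .e))))) (.c (.v 8 5 0) .e))))) (.c (.R (.c (.v 0 8 2)
  (.c (.v 16 1 0) (.c (.v 14 2 0) (.c (.v 12 3 0) .e))))) (.c (.v 15 1 0) (.c (.R (.c (.v 8 5
  0) (.c (.v 12 3 0) (.c (.R (.c (.v 7 6 0) (.c (.v 13 3 0) (.c (.v 17 1 0) (.c (.v 15 2 0)
  .e))))) (.c (.v 16 1 0) .e))))) .e))))) (.c (.f 7 9 153 643 0) .e))))) (.c (.v 11 2 0) (.c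
  (.v 13 1 0) .e))))) .e))))) (.c (.v 0 1 0) .e))))) .e))))) (.c (.v 9 1 0) .e))))) .e))))) (.c
  (.v 0 4 0) (.c (.v 0 1 0) .e))))) .e)))))

/-- certificate -/
def t11 : T := (.R (.c (.f 1 1 1665 1665 0) (.c (.f 0 1 1091 209 1) (.c (.v 6 1 0) (.c (.R (.c
  (.v 1 4 0) (.c (.v 3 3 0) (.c (.R (.c (.L (.c (.v 0 1 0) (.c (.v 0 2 0) (.c (.L (.c (.L (.c
  (.v 0 1 0) (.c (.f 9 0 1665 1665 0) (.c (.v 0 2 0) (.c (.L (.c (.f 8 0 664 664 0) (.c (.v 0 4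
  1) (.c (.L (.c (.L (.c (.v 0 1 0) (.c (.v 0 5 1) (.c (.L (.c (.v 0 2 0) (.c (.v 0 6 0) (.c
  (.v 0 1 0) (.c (.v 0 3 0) .e))))) (.c (.v 0 3 0) .e))))) (.c (.L (.c (.v 0 5 1) (.c (.v 0 1
  0) (.c (.L (.c (.v 0 6 0) (.c (.v 0 2 0) (.c (.v 0 1 0) (.c (.v 0 8 1) .e))))) (.c (.L (.c
  (.f 2 0 1049 706 1) (.c (.v 0 7 1) (.c (.v 0 8 1) (.c (.v 0 1 0) .e))))) .e))))) (.c (.v 0 1
  0) (.c (.R (.c (.v 14 1 0) (.c (.v 7 4 1) (.c (.R (.c (.v 13 2 0) (.c (.v 7 5 0) (.c (.v 15 1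
  0) (.c (.R (.c (.v 12 3 0) (.c (.v 7 5 1) (.c (.f 10 11 538 538 0) (.c (.v 16 1 0) .e)))))
  .e))))) (.c (.L (.c (.v 0 3 0) (.c (.L (.c (.L (.c (.v 0 1 0) (.c (.v 0 8 0) (.c (.v 0 8 2)
  (.c (.L (.c (.L (.c (.v 0 1 0) (.c (.v 0 3 0) (.c (.L (.c (.v 0 8 0) (.c (.v 0 4 0) (.c (.v 0
  1 0) (.c (.L (.c (.L (.c (.v 0 1 0) (.c (.v 0 6 0) (.c (.v 0 3 0) (.c (.L (.c (.v 0 2 0) (.c
  (.v 0 5 1) (.c (.v 0 3 0) (.c (.v 0 1 0) .e))))) .e))))) (.c (.v 0 4 1) (.c (.v 0 6 1) (.c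
  (.v 0 1 0) .e))))) .e))))) (.c (.v 0 2 0) .e))))) (.c (.L (.c (.v 0 3 0) (.c (.v 0 1 0) (.c
  (.v 0 10 1) (.c (.L (.c (.v 0 3 0) (.c (.v 0 2 0) (.c (.v 0 4 1) (.c (.v 0 1 0) .e)))))
  .e))))) (.c (.v 0 9 2) (.c (.v 0 1 0) .e))))) .e))))) (.c (.v 0 1 0) (.c (.v 0 8 1) (.c (.L
  (.c (.L (.c (.v 0 1 0) (.c (.R (.c (.R (.c (.v 20 1 0) (.c (.v 2 9 2) (.c (.v 16 3 0) (.c (.v
  18 2 0) .e))))) (.c (.R (.c (.v 2 9 2) (.c (.v 20 1 0) (.c (.v 11 5 1) (.c (.R (.c (.R (.c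
  (.v 22 1 0) (.c (.v 18 3 0) (.c (.R (.c (.v 4 10 1) (.c (.v 17 4 0) (.c (.v 23 1 0) (.c (.v
  16 4 1) .e))))) (.c (.R (.c (.v 21 2 0) (.c (.f 9 18 720 1112 0) (.c (.v 16 4 1) (.c (.v 23 1
  0) .e))))) .e))))) (.c (.v 19 2 0) (.c (.v 11 6 0) (.c (.v 21 1 0) .e))))) .e))))) (.c (.R
  (.c (.v 16 3 0) (.c (.v 11 5 1) (.c (.v 20 1 0) (.c (.R (.c (.v 17 3 0) (.c (.v 11 6 0) (.c
  (.v 19 2 0) (.c (.v 21 1 0) .e))))) .e))))) (.c (.v 19 1 0) .e))))) (.c (.v 0 9 2) (.c (.f 8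
  0 209 1091 0) .e))))) (.c (.v 0 2 0) (.c (.v 0 9 1) (.c (.v 0 1 0) .e))))) .e))))) (.c (.v 0
  2 0) (.c (.v 0 1 0) .e))))) .e))))) .e))))) (.c (.v 0 1 0) .e))))) .e))))) (.c (.v 0 3 0) (.c
  (.v 0 1 0) (.c (.v 0 4 0) .e))))) (.c (.R (.c (.v 10 1 0) (.c (.v 3 4 1) (.c (.R (.c (.v 9 2
  0) (.c (.v 3 5 0) (.c (.v 11 1 0) (.c (.R (.c (.v 8 3 0) (.c (.v 3 5 1) (.c (.f 10 7 538 538
  0) (.c (.v 12 1 0) .e))))) .e))))) (.c (.L (.c (.L (.c (.v 0 1 0) (.c (.L (.c (.f 10 0 1224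
  1224 0) (.c (.v 0 1 0) (.c (.v 0 4 1) (.c (.v 0 3 0) .e))))) (.c (.L (.c (.f 8 0 1112 720 0)
  (.c (.v 0 4 1) (.c (.v 0 1 0) (.c (.R (.c (.R (.c (.v 15 1 0) (.c (.R (.c (.v 1 8 1) (.c (.v
  16 1 0) (.c (.R (.c (.v 1 8 2) (.c (.v 4 7 1) (.c (.v 17 1 0) (.c (.R (.c (.v 0 9 2) (.c (.v
  4 8 0) (.c (.v 9 5 1) (.c (.v 18 1 0) .e))))) .e))))) (.c (.R (.c (.v 0 9 1) (.c (.R (.c (.v
  14 3 0) (.c (.v 18 1 0) (.c (.v 4 8 0) (.c (.v 16 2 0) .e))))) (.c (.R (.c (.v 0 9 2) (.c (.v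
  4 8 0) (.c (.v 18 1 0) (.c (.R (.c (.R (.c (.v 20 1 0) (.c (.v 2 10 0) (.c (.v 9 6 1) (.c (.R
  (.c (.v 19 2 0) (.c (.v 14 4 1) (.c (.v 8 7 1) (.c (.v 21 1 0) .e))))) .e))))) (.c (.v 3 9 0)
  (.c (.v 17 2 0) (.c (.v 19 1 0) .e))))) .e))))) (.c (.v 17 1 0) .e))))) .e))))) (.c (.v 11 3
  0) (.c (.v 13 2 0) .e))))) (.c (.R (.c (.R (.c (.v 16 1 0) (.c (.v 3 7 1) (.c (.f 2 11 90 531
  0) (.c (.f 3 11 209 1091 1) .e))))) (.c (.v 15 1 0) (.c (.v 6 5 1) (.c (.R (.c (.R (.c (.v 17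
  1 0) (.c (.v 13 3 0) (.c (.R (.c (.v 0 9 2) (.c (.v 12 4 0) (.c (.v 18 1 0) (.c (.v 11 4 1)
  .e))))) (.c (.R (.c (.v 16 2 0) (.c (.f 9 13 720 1112 0) (.c (.v 11 4 1) (.c (.v 18 1 0)
  .e))))) .e))))) (.c (.v 14 2 0) (.c (.v 6 6 0) (.c (.v 16 1 0) .e))))) .e))))) (.c (.R (.c
  (.v 11 3 0) (.c (.v 6 5 1) (.c (.v 15 1 0) (.c (.R (.c (.v 12 3 0) (.c (.v 6 6 0) (.c (.v 14
  2 0) (.c (.v 16 1 0) .e))))) .e))))) (.c (.v 14 1 0) .e))))) .e))))) (.c (.v 0 2 0) .e)))))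
  (.c (.L (.c (.L (.c (.v 0 1 0) (.c (.L (.c (.v 0 2 0) (.c (.v 0 1 0) (.c (.v 0 5 1) (.c (.v 0
  3 0) .e))))) (.c (.v 0 4 1) (.c (.v 0 3 0) .e))))) (.c (.v 0 1 0) (.c (.v 0 4 0) (.c (.R (.c
  (.R (.c (.v 14 1 0) (.c (.L (.c (.v 0 3 0) (.c (.v 0 2 0) (.c (.v 0 8 1) (.c (.v 0 1 0)
  .e))))) (.c (.v 10 3 0) (.c (.v 12 2 0) .e))))) (.c (.R (.c (.R (.c (.v 15 1 0) (.c (.v 2 7
  1) (.c (.f 2 10 90 531 0) (.c (.f 3 10 209 1091 1) .e))))) (.c (.v 14 1 0) (.c (.v 5 5 1) (.c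
  (.R (.c (.L (.c (.v 0 3 0) (.c (.v 0 2 0) (.c (.v 0 9 0) (.c (.v 0 1 0) .e))))) (.c (.v 13 2
  0) (.c (.v 5 6 0) (.c (.v 15 1 0) .e))))) .e))))) (.c (.R (.c (.v 10 3 0) (.c (.v 5 5 1) (.c
  (.v 14 1 0) (.c (.R (.c (.v 11 3 0) (.c (.v 5 6 0) (.c (.v 13 2 0) (.c (.v 15 1 0) .e)))))
  .e))))) (.c (.v 13 1 0) .e))))) .e))))) (.c (.v 0 4 0) (.c (.v 0 1 0) .e))))) .e))))) .e)))))
  (.c (.v 4 3 0) (.c (.v 8 1 0) (.c (.v 6 2 0) .e))))) (.c (.v 7 1 0) .e))))) .e)))))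

/-- certificate -/
def t12 : T := (.L (.c (.v 0 1 0) (.c (.L (.c (.v 0 2 0) (.c (.v 0 1 0) (.c (.f 10 0 1546 1546
  0) (.c (.R (.c (.f 0 3 1602 1553 0) (.c (.v 0 5 0) (.c (.v 8 1 0) (.c (.R (.c (.R (.c (.v 10
  1 0) (.c (.v 4 4 0) (.c (.v 6 3 0) (.c (.R (.c (.v 9 2 0) (.c (.R (.c (.L (.c (.R (.c (.v 14
  1 0) (.c (.R (.c (.v 13 2 0) (.c (.v 15 1 0) (.c (.R (.c (.R (.c (.v 17 1 0) (.c (.v 0 9 1)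
  (.c (.R (.c (.v 16 2 0) (.c (.v 14 3 0) (.c (.v 18 1 0) (.c (.v 4 8 0) .e))))) (.c (.R (.c
  (.R (.c (.v 19 1 0) (.c (.R (.c (.R (.c (.v 21 1 0) (.c (.v 19 2 0) (.c (.v 14 4 1) (.c (.R
  (.c (.f 11 17 720 1112 0) (.c (.v 18 3 0) (.c (.v 15 4 1) (.c (.v 22 1 0) .e))))) .e))))) (.c
  (.v 20 1 0) (.c (.v 2 10 0) (.c (.v 9 6 1) .e))))) (.c (.v 3 9 0) (.c (.v 17 2 0) .e))))) (.c
  (.v 0 9 2) (.c (.v 4 8 0) (.c (.v 18 1 0) .e))))) .e))))) (.c (.v 1 8 1) (.c (.v 16 1 0) (.c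
  (.R (.c (.R (.c (.v 18 1 0) (.c (.v 0 9 2) (.c (.v 4 8 0) (.c (.v 9 5 1) .e))))) (.c (.v 1 8
  2) (.c (.v 4 7 1) (.c (.v 17 1 0) .e))))) .e))))) (.c (.v 11 3 0) .e))))) (.c (.R (.c (.R (.c
  (.v 16 1 0) (.c (.R (.c (.R (.c (.v 18 1 0) (.c (.v 16 2 0) (.c (.f 10 13 1665 1665 0) (.c
  (.v 11 4 1) .e))))) (.c (.v 17 1 0) (.c (.v 13 3 0) (.c (.R (.c (.v 11 4 1) (.c (.v 0 9 2)
  (.c (.v 12 4 0) (.c (.v 18 1 0) .e))))) .e))))) (.c (.v 14 2 0) (.c (.v 6 6 0) .e))))) (.c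
  (.R (.c (.f 4 11 1672 1672 1) (.c (.v 16 1 0) (.c (.v 3 7 1) (.c (.f 3 11 720 1112 0) .e)))))
  (.c (.v 15 1 0) (.c (.v 6 5 1) .e))))) (.c (.R (.c (.R (.c (.v 16 1 0) (.c (.v 12 3 0) (.c
  (.v 6 6 0) (.c (.v 14 2 0) .e))))) (.c (.v 11 3 0) (.c (.v 6 5 1) (.c (.v 15 1 0) .e)))))
  .e))))) (.c (.f 9 0 706 1049 0) (.c (.v 0 4 1) (.c (.v 0 1 0) .e))))) (.c (.v 12 1 0) (.c (.v
  5 4 1) (.c (.f 9 7 90 531 0) .e))))) (.c (.f 10 6 664 664 0) (.c (.v 11 1 0) .e))))) .e)))))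
  (.c (.R (.c (.v 4 4 0) (.c (.v 10 1 0) (.c (.R (.c (.v 5 4 0) (.c (.R (.c (.v 3 5 1) (.c (.v
  12 1 0) (.c (.v 10 2 0) (.c (.v 8 3 0) .e))))) (.c (.v 11 1 0) (.c (.R (.c (.v 5 4 1) (.c (.v
  8 3 0) (.c (.R (.c (.v 4 5 1) (.c (.v 9 3 0) (.c (.v 13 1 0) (.c (.v 11 2 0) .e))))) (.c (.v
  12 1 0) .e))))) .e))))) (.c (.R (.c (.R (.c (.v 12 1 0) (.c (.R (.c (.L (.c (.R (.c (.v 15 1
  0) (.c (.v 13 2 0) (.c (.R (.c (.R (.c (.v 17 1 0) (.c (.v 0 9 1) (.c (.v 15 2 0) (.c (.R (.c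
  (.f 9 13 1672 1672 0) (.c (.v 0 9 2) (.c (.R (.c (.R (.c (.v 20 1 0) (.c (.v 12 5 0) (.c (.R
  (.c (.v 19 2 0) (.c (.L (.c (.v 0 1 0) (.c (.L (.c (.L (.c (.v 0 1 0) (.c (.v 0 2 0) (.c (.v
  0 6 0) (.c (.v 0 3 0) .e))))) (.c (.v 0 1 0) (.c (.v 0 5 1) (.c (.v 0 3 0) .e))))) (.c (.L
  (.c (.v 0 12 1) (.c (.v 0 5 1) (.c (.v 0 1 0) (.c (.L (.c (.v 0 13 0) (.c (.f 3 0 1224 1224
  1) (.c (.L (.c (.v 0 3 0) (.c (.v 0 7 1) (.c (.v 0 1 0) (.c (.v 0 2 0) .e))))) (.c (.v 0 1 0)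
  .e))))) .e))))) (.c (.L (.c (.v 0 2 0) (.c (.v 0 3 0) (.c (.L (.c (.v 0 13 0) (.c (.L (.c (.L
  (.c (.v 0 1 0) (.c (.v 0 5 1) (.c (.v 0 8 0) (.c (.v 0 10 1) .e))))) (.c (.v 0 1 0) (.c (.v 0
  7 1) (.c (.v 0 8 2) .e))))) (.c (.v 0 1 0) (.c (.v 0 8 1) .e))))) (.c (.v 0 1 0) .e)))))
  .e))))) (.c (.v 21 1 0) (.c (.v 17 3 0) .e))))) (.c (.v 16 3 0) .e))))) (.c (.v 0 10 1) (.c
  (.v 19 1 0) (.c (.R (.c (.v 16 3 0) (.c (.v 0 11 0) (.c (.v 18 2 0) (.c (.v 20 1 0) .e)))))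
  .e))))) (.c (.v 18 1 0) .e))))) .e))))) (.c (.v 1 8 1) (.c (.v 16 1 0) (.c (.R (.c (.R (.c
  (.v 18 1 0) (.c (.v 0 9 2) (.c (.R (.c (.R (.c (.v 20 1 0) (.c (.v 13 4 1) (.c (.v 18 2 0)
  (.c (.v 16 3 0) .e))))) (.c (.v 0 10 1) (.c (.v 19 1 0) (.c (.v 15 3 0) .e))))) (.c (.R (.c
  (.v 17 2 0) (.c (.R (.c (.R (.c (.v 21 1 0) (.c (.v 10 6 1) (.c (.v 14 4 1) (.c (.R (.c (.R
  (.c (.v 23 1 0) (.c (.v 19 3 0) (.c (.v 14 5 1) (.c (.v 21 2 0) .e))))) (.c (.v 18 3 0) (.c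
  (.v 12 6 0) (.c (.v 22 1 0) .e))))) .e))))) (.c (.v 20 1 0) (.c (.v 14 4 0) (.c (.v 7 7 1)
  .e))))) (.c (.v 15 3 0) (.c (.v 19 1 0) .e))))) .e))))) (.c (.v 1 8 2) (.c (.v 3 8 0) (.c (.v
  17 1 0) .e))))) .e))))) (.c (.v 11 3 0) .e))))) (.c (.f 9 0 706 1049 0) (.c (.v 0 4 1) (.c
  (.v 0 1 0) .e))))) (.c (.v 13 1 0) (.c (.R (.c (.R (.c (.v 15 1 0) (.c (.v 0 8 1) (.c (.v 2 7
  1) (.c (.f 3 10 706 1049 0) .e))))) (.c (.R (.c (.v 0 8 1) (.c (.v 15 1 0) (.c (.v 13 2 0)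
  (.c (.v 5 6 0) .e))))) (.c (.v 14 1 0) (.c (.v 6 5 0) .e))))) (.c (.R (.c (.v 10 3 0) (.c (.R
  (.c (.v 11 3 0) (.c (.v 15 1 0) (.c (.v 5 6 0) (.c (.v 13 2 0) .e))))) (.c (.v 6 5 0) (.c (.v
  14 1 0) .e))))) .e))))) (.c (.v 5 4 1) (.c (.f 9 7 83 83 0) .e))))) (.c (.v 9 2 0) (.c (.R
  (.c (.v 5 4 1) (.c (.v 8 3 0) (.c (.v 12 1 0) (.c (.f 11 7 83 83 0) .e))))) (.c (.v 11 1 0)
  .e))))) .e))))) (.c (.v 7 2 0) (.c (.v 9 1 0) .e))))) .e))))) .e))))) (.c (.v 0 3 0) (.c (.v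
  0 4 0) .e)))))

/-- certificate -/
def t13 : T := (.R (.c (.R (.c (.v 7 1 0) (.c (.R (.c (.R (.c (.v 9 1 0) (.c (.v 7 2 0) (.c (.R
  (.c (.f 12 5 1616 1616 0) (.c (.v 6 3 0) (.c (.v 10 1 0) (.c (.v 3 4 1) .e))))) (.c (.R (.c
  (.f 10 5 1616 1616 0) (.c (.v 0 6 0) (.c (.v 3 4 1) (.c (.v 10 1 0) .e))))) .e))))) (.c (.v 8
  1 0) (.c (.R (.c (.R (.c (.v 10 1 0) (.c (.v 6 3 0) (.c (.R (.c (.v 9 2 0) (.c (.v 7 3 0) (.c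
  (.v 11 1 0) (.c (.v 2 5 1) .e))))) (.c (.v 3 4 1) .e))))) (.c (.R (.c (.v 6 3 0) (.c (.v 10 1
  0) (.c (.v 8 2 0) (.c (.v 1 5 1) .e))))) (.c (.v 9 1 0) (.c (.v 3 4 0) .e))))) (.c (.v 2 4 0)
  .e))))) (.c (.v 5 2 0) (.c (.f 0 2 153 643 1) .e))))) (.c (.f 8 1 1091 209 0) (.c (.v 6 1 0)
  (.c (.f 1 1 1091 209 0) .e)))))

/-- certificate -/
def t14 : T := (.L (.c (.v 0 1 0) (.c (.v 0 2 0) (.c (.f 12 0 1553 1602 0) (.c (.L (.c (.f 11 0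
  720 1112 0) (.c (.R (.c (.v 1 4 1) (.c (.R (.c (.v 0 5 1) (.c (.v 9 1 0) (.c (.R (.c (.v 0 6
  0) (.c (.R (.c (.R (.c (.v 12 1 0) (.c (.f 11 7 643 153 0) (.c (.R (.c (.R (.c (.v 14 1 0)
  (.c (.v 10 3 0) (.c (.v 12 2 0) (.c (.L (.c (.L (.c (.v 0 1 0) (.c (.L (.c (.v 0 2 0) (.c (.v
  0 1 0) (.c (.v 0 6 0) (.c (.v 0 3 0) .e))))) (.c (.v 0 5 1) (.c (.v 0 3 0) .e))))) (.c (.v 0
  1 0) (.c (.v 0 5 1) (.c (.L (.c (.v 0 3 0) (.c (.v 0 2 0) (.c (.v 0 8 2) (.c (.v 0 1 0)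
  .e))))) .e))))) .e))))) (.c (.R (.c (.v 10 3 0) (.c (.v 14 1 0) (.c (.R (.c (.v 11 3 0) (.c
  (.v 13 2 0) (.c (.v 15 1 0) (.c (.v 5 6 0) .e))))) (.c (.v 6 5 0) .e))))) (.c (.v 13 1 0) (.c
  (.R (.c (.L (.c (.L (.c (.v 0 1 0) (.c (.L (.c (.v 0 2 0) (.c (.v 0 1 0) (.c (.v 0 6 0) (.c
  (.v 0 3 0) .e))))) (.c (.v 0 5 1) (.c (.v 0 3 0) .e))))) (.c (.v 0 1 0) (.c (.v 0 5 1) (.c
  (.L (.c (.v 0 3 0) (.c (.v 0 2 0) (.c (.v 0 8 2) (.c (.v 0 1 0) .e))))) .e))))) (.c (.v 6 5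
  0) (.c (.R (.c (.R (.c (.v 16 1 0) (.c (.v 4 7 0) (.c (.R (.c (.v 15 2 0) (.c (.v 10 4 1) (.c
  (.v 17 1 0) (.c (.f 12 12 1112 720 0) .e))))) (.c (.v 12 3 0) .e))))) (.c (.v 5 6 0) (.c (.v
  15 1 0) (.c (.v 13 2 0) .e))))) (.c (.v 14 1 0) .e))))) .e))))) (.c (.v 5 4 1) .e))))) (.c
  (.v 11 1 0) (.c (.v 9 2 0) (.c (.R (.c (.v 5 4 1) (.c (.f 13 7 643 153 0) (.c (.v 8 3 0) (.c
  (.v 12 1 0) .e))))) .e))))) (.c (.v 10 1 0) (.c (.L (.c (.L (.c (.v 0 1 0) (.c (.L (.c (.v 0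
  2 0) (.c (.v 0 1 0) (.c (.v 0 6 0) (.c (.v 0 3 0) .e))))) (.c (.v 0 5 1) (.c (.v 0 3 0)
  .e))))) (.c (.v 0 1 0) (.c (.v 0 5 1) (.c (.L (.c (.v 0 3 0) (.c (.v 0 2 0) (.c (.R (.c (.v 7
  4 0) (.c (.R (.c (.v 7 4 1) (.c (.v 14 1 0) (.c (.v 10 3 0) (.c (.L (.c (.L (.c (.v 0 1 0)
  (.c (.f 0 0 720 1112 1) (.c (.v 0 8 0) (.c (.L (.c (.L (.c (.v 0 1 0) (.c (.L (.c (.v 0 8 0)
  (.c (.v 0 1 0) (.c (.v 0 4 0) (.c (.L (.c (.L (.c (.v 0 1 0) (.c (.v 0 3 0) (.c (.v 0 6 0)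
  (.c (.L (.c (.v 0 2 0) (.c (.v 0 3 0) (.c (.v 0 5 1) (.c (.v 0 1 0) .e))))) .e))))) (.c (.v 0
  6 1) (.c (.v 0 4 1) (.c (.v 0 1 0) .e))))) .e))))) (.c (.v 0 3 0) (.c (.v 0 2 0) .e))))) (.c
  (.f 7 0 139 139 1) (.c (.L (.c (.v 0 3 0) (.c (.v 0 10 0) (.c (.v 0 1 0) (.c (.L (.c (.v 0 3
  0) (.c (.v 0 4 1) (.c (.v 0 2 0) (.c (.v 0 1 0) .e))))) .e))))) (.c (.v 0 1 0) .e)))))
  .e))))) (.c (.L (.c (.L (.c (.v 0 1 0) (.c (.L (.c (.v 0 2 0) (.c (.v 0 1 0) (.c (.v 0 9 0)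
  (.c (.L (.c (.v 0 6 1) (.c (.L (.c (.L (.c (.v 0 1 0) (.c (.f 13 0 1217 1217 0) (.c (.v 0 4
  1) (.c (.v 0 3 0) .e))))) (.c (.v 0 1 0) (.c (.v 0 4 1) (.c (.v 0 2 0) .e))))) (.c (.v 0 10
  1) (.c (.v 0 1 0) .e))))) .e))))) (.c (.v 0 8 1) (.c (.f 3 0 139 139 1) .e))))) (.c (.v 0 1
  0) (.c (.v 0 8 1) (.c (.v 0 8 2) .e))))) (.c (.v 0 1 0) (.c (.L (.c (.R (.c (.L (.c (.v 0 1
  0) (.c (.v 0 9 2) (.c (.L (.c (.L (.c (.v 0 1 0) (.c (.v 0 11 0) (.c (.v 0 2 0) (.c (.v 0 3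
  0) .e))))) (.c (.v 0 10 0) (.c (.v 0 1 0) (.c (.L (.c (.v 0 3 0) (.c (.v 0 5 0) (.c (.L (.c
  (.v 0 3 0) (.c (.R (.c (.v 22 1 0) (.c (.R (.c (.R (.c (.v 24 1 0) (.c (.v 22 2 0) (.c (.R
  (.c (.v 9 8 2) (.c (.R (.c (.v 10 8 2) (.c (.v 26 1 0) (.c (.v 11 8 1) (.c (.R (.c (.v 9 9 2)
  (.c (.R (.c (.v 8 10 2) (.c (.v 28 1 0) (.c (.v 12 9 0) (.c (.v 26 2 0) .e))))) (.c (.v 12 8
  1) (.c (.v 27 1 0) .e))))) .e))))) (.c (.v 25 1 0) (.c (.R (.c (.v 6 11 0) (.c (.f 0 21 209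
  1091 0) (.c (.v 12 8 0) (.c (.v 26 1 0) .e))))) .e))))) (.c (.v 20 3 0) .e))))) (.c (.v 23 1
  0) (.c (.v 14 5 1) (.c (.R (.c (.v 20 3 0) (.c (.R (.c (.v 21 3 0) (.c (.v 25 1 0) (.c (.v 14
  6 1) (.c (.v 23 2 0) .e))))) (.c (.v 14 6 0) (.c (.v 24 1 0) .e))))) .e))))) (.c (.R (.c (.v
  5 9 2) (.c (.v 14 5 1) (.c (.v 23 1 0) (.c (.v 0 12 1) .e))))) (.c (.R (.c (.v 21 2 0) (.c
  (.R (.c (.v 20 3 0) (.c (.v 24 1 0) (.c (.v 14 6 0) (.c (.f 13 19 202 1035 0) .e))))) (.c (.v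
  0 12 1) (.c (.v 23 1 0) .e))))) .e))))) (.c (.v 0 1 0) (.c (.v 0 2 0) .e))))) (.c (.v 0 1 0)
  .e))))) .e))))) (.c (.f 11 0 153 643 0) .e))))) (.c (.v 15 2 0) (.c (.v 13 3 0) (.c (.v 17 1
  0) .e))))) (.c (.v 0 8 2) (.c (.v 0 2 0) (.c (.v 0 1 0) .e))))) .e))))) .e))))) (.c (.R (.c
  (.v 0 8 0) (.c (.v 10 3 0) (.c (.v 14 1 0) (.c (.v 12 2 0) .e))))) (.c (.v 13 1 0) .e)))))
  (.c (.v 0 1 0) .e))))) .e))))) .e))))) (.c (.v 7 2 0) .e))))) (.c (.f 1 3 1665 1665 0) (.c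
  (.v 8 1 0) .e))))) (.c (.v 0 4 1) (.c (.v 0 1 0) .e))))) .e)))))

/-- certificate -/
def t15 : T := (.R (.c (.f 1 1 720 1112 1) (.c (.v 4 2 0) (.c (.f 2 1 531 90 1) (.c (.v 6 1 0)
  .e)))))

/-- certificate -/
def t16 : T := (.L (.c (.v 0 1 0) (.c (.f 15 0 1665 1665 0) (.c (.v 0 3 0) (.c (.f 1 0 1665
  1665 1) .e)))))

/-- certificate -/
def t17 : T := (.R (.c (.f 8 1 1665 1665 0) (.c (.f 9 1 1091 209 1) (.c (.v 6 1 0) (.c (.R (.c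
  (.L (.c (.v 0 1 0) (.c (.v 0 2 0) (.c (.v 0 3 0) (.c (.R (.c (.v 9 1 0) (.c (.v 3 4 0) (.c
  (.R (.c (.R (.c (.v 11 1 0) (.c (.L (.c (.R (.c (.R (.c (.v 14 1 0) (.c (.v 12 2 0) (.c (.f 0
  9 1553 1602 1) (.c (.R (.c (.f 14 10 1616 1616 0) (.c (.v 0 8 1) (.c (.R (.c (.v 9 4 1) (.c
  (.v 0 9 0) (.c (.v 16 1 0) (.c (.v 4 7 0) .e))))) (.c (.v 15 1 0) .e))))) .e))))) (.c (.v 13
  1 0) (.c (.L (.c (.v 0 1 0) (.c (.f 0 0 1217 1217 0) (.c (.R (.c (.R (.c (.v 16 1 0) (.c (.v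
  12 3 0) (.c (.R (.c (.v 15 2 0) (.c (.v 13 3 0) (.c (.v 17 1 0) (.c (.R (.c (.v 9 5 1) (.c
  (.v 0 10 0) (.c (.R (.c (.f 0 14 1112 720 1) (.c (.R (.c (.v 10 6 0) (.c (.v 20 1 0) (.c (.f
  14 15 1049 706 0) (.c (.v 4 9 0) .e))))) (.c (.v 19 1 0) (.c (.v 17 2 0) .e))))) (.c (.v 18 1
  0) .e))))) .e))))) (.c (.R (.c (.v 10 4 1) (.c (.v 1 9 0) (.c (.f 9 12 1553 1602 0) (.c (.v
  17 1 0) .e))))) .e))))) (.c (.v 3 7 0) (.c (.v 15 1 0) (.c (.R (.c (.f 6 11 1616 1616 0) (.c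
  (.v 3 7 1) (.c (.R (.c (.R (.c (.v 18 1 0) (.c (.v 0 10 0) (.c (.R (.c (.v 17 2 0) (.c (.v 12
  4 1) (.c (.v 19 1 0) (.c (.v 6 7 1) .e))))) (.c (.v 7 6 1) .e))))) (.c (.R (.c (.v 0 10 0)
  (.c (.v 18 1 0) (.c (.f 2 13 1035 202 1) (.c (.v 14 3 0) .e))))) (.c (.v 17 1 0) (.c (.v 15 2
  0) .e))))) (.c (.v 16 1 0) .e))))) .e))))) (.c (.v 0 2 0) .e))))) (.c (.R (.c (.R (.c (.v 15
  1 0) (.c (.v 0 8 1) (.c (.f 10 10 1616 1616 0) (.c (.R (.c (.v 14 2 0) (.c (.v 12 3 0) (.c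
  (.v 4 7 0) (.c (.v 16 1 0) .e))))) .e))))) (.c (.v 1 7 1) (.c (.f 3 9 153 643 0) (.c (.v 14 1
  0) .e))))) .e))))) (.c (.L (.c (.L (.c (.v 0 1 0) (.c (.L (.c (.v 0 2 0) (.c (.v 0 1 0) (.c
  (.v 0 5 1) (.c (.v 0 3 0) .e))))) (.c (.L (.c (.v 0 4 1) (.c (.v 0 5 1) (.c (.v 0 1 0) (.c
  (.L (.c (.v 0 5 0) (.c (.L (.c (.v 0 5 1) (.c (.v 0 1 0) (.c (.v 0 7 1) (.c (.f 12 0 139 139
  0) .e))))) (.c (.v 0 7 1) (.c (.v 0 1 0) .e))))) .e))))) (.c (.v 0 3 0) .e))))) (.c (.v 0 1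
  0) (.c (.v 0 4 1) (.c (.L (.c (.v 0 3 0) (.c (.v 0 2 0) (.c (.v 0 8 0) (.c (.v 0 1 0) .e)))))
  .e))))) (.c (.v 0 4 0) (.c (.v 0 1 0) .e))))) (.c (.v 9 2 0) (.c (.v 7 3 0) .e))))) (.c (.v 3
  4 1) (.c (.v 10 1 0) (.c (.R (.c (.v 7 3 0) (.c (.R (.c (.R (.c (.v 13 1 0) (.c (.v 0 7 1)
  (.c (.R (.c (.f 12 9 1616 1616 1) (.c (.v 1 7 1) (.c (.v 14 1 0) (.c (.v 5 5 1) .e))))) (.c
  (.v 5 5 0) .e))))) (.c (.v 12 1 0) (.c (.v 3 5 1) (.c (.v 5 4 1) .e))))) (.c (.R (.c (.v 8 3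
  0) (.c (.v 3 5 1) (.c (.v 12 1 0) (.c (.v 10 2 0) .e))))) (.c (.v 11 1 0) .e))))) .e))))) (.c
  (.R (.c (.v 8 2 0) (.c (.R (.c (.R (.c (.v 12 1 0) (.c (.v 0 7 0) (.c (.R (.c (.R (.c (.v 14
  1 0) (.c (.L (.c (.v 0 8 1) (.c (.R (.c (.f 2 11 1672 1672 1) (.c (.v 16 1 0) (.c (.v 12 3 0)
  (.c (.R (.c (.v 10 4 1) (.c (.R (.c (.R (.c (.v 19 1 0) (.c (.f 2 14 1217 1217 1) (.c (.R (.c
  (.v 13 4 1) (.c (.L (.c (.v 0 9 2) (.c (.v 0 1 0) (.c (.v 0 4 1) (.c (.L (.c (.v 0 3 0) (.c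
  (.v 0 2 0) (.c (.R (.c (.v 14 5 1) (.c (.v 23 1 0) (.c (.L (.c (.v 0 9 2) (.c (.L (.c (.R (.c
  (.v 22 3 0) (.c (.v 24 2 0) (.c (.v 26 1 0) (.c (.v 0 13 2) .e))))) (.c (.v 0 1 0) (.c (.v 0
  7 0) (.c (.L (.c (.v 0 11 0) (.c (.L (.c (.L (.c (.v 0 1 0) (.c (.L (.c (.v 0 2 0) (.c (.v 0
  1 0) (.c (.L (.c (.v 0 9 0) (.c (.f 14 0 1602 1553 0) (.c (.v 0 1 0) (.c (.v 0 6 0) .e)))))
  (.c (.f 0 0 202 1035 0) .e))))) (.c (.v 0 10 0) (.c (.v 0 5 1) .e))))) (.c (.v 0 1 0) (.c (.v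
  0 3 0) (.c (.v 0 2 0) .e))))) (.c (.v 0 3 0) (.c (.v 0 1 0) .e))))) .e))))) (.c (.v 0 1 0)
  (.c (.v 0 8 1) .e))))) (.c (.v 16 4 1) .e))))) (.c (.v 0 1 0) .e))))) .e))))) (.c (.v 20 1 0)
  (.c (.v 14 4 0) .e))))) (.c (.v 15 3 0) .e))))) (.c (.v 18 1 0) (.c (.v 0 9 2) (.c (.v 16 2
  0) .e))))) (.c (.v 11 4 0) (.c (.v 17 1 0) .e))))) .e))))) (.c (.v 0 4 0) (.c (.v 0 1 0)
  .e))))) (.c (.v 12 2 0) (.c (.R (.c (.R (.c (.v 16 1 0) (.c (.v 9 4 1) (.c (.f 0 11 1049 706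
  1) (.c (.v 14 2 0) .e))))) (.c (.R (.c (.v 9 4 1) (.c (.v 16 1 0) (.c (.v 10 4 0) (.c (.v 7 5
  1) .e))))) (.c (.v 3 7 0) (.c (.v 15 1 0) .e))))) .e))))) (.c (.v 0 7 1) (.c (.v 13 1 0) (.c
  (.v 5 5 0) .e))))) (.c (.R (.c (.R (.c (.v 14 1 0) (.c (.v 10 3 0) (.c (.R (.c (.R (.c (.v 16
  1 0) (.c (.R (.c (.f 14 12 664 664 0) (.c (.v 17 1 0) (.c (.v 1 9 0) (.c (.v 7 6 0) .e)))))
  (.c (.v 14 2 0) (.c (.f 0 11 153 643 1) .e))))) (.c (.R (.c (.R (.c (.v 17 1 0) (.c (.R (.c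
  (.v 16 2 0) (.c (.v 18 1 0) (.c (.v 14 3 0) (.c (.R (.c (.R (.c (.v 20 1 0) (.c (.R (.c (.R
  (.c (.v 22 1 0) (.c (.v 20 2 0) (.c (.v 13 5 1) (.c (.v 18 3 0) .e))))) (.c (.v 21 1 0) (.c
  (.v 11 6 0) (.c (.v 17 3 0) .e))))) (.c (.v 13 4 1) (.c (.R (.c (.v 19 2 0) (.c (.v 17 3 0)
  (.c (.v 10 6 1) (.c (.v 21 1 0) .e))))) .e))))) (.c (.R (.c (.f 0 15 1224 1224 1) (.c (.v 20
  1 0) (.c (.R (.c (.v 11 6 0) (.c (.f 14 16 1217 1217 0) (.c (.v 21 1 0) (.c (.v 2 10 1)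
  .e))))) (.c (.v 18 2 0) .e))))) (.c (.v 13 4 0) (.c (.v 19 1 0) .e))))) .e))))) (.c (.v 1 9
  0) (.c (.v 7 6 0) .e))))) (.c (.v 16 1 0) (.c (.v 2 8 0) (.c (.v 7 5 1) .e))))) (.c (.v 15 1
  0) (.c (.R (.c (.R (.c (.v 17 1 0) (.c (.v 7 6 0) (.c (.v 13 3 0) (.c (.R (.c (.v 16 2 0) (.c
  (.v 7 6 1) (.c (.v 14 3 0) (.c (.v 18 1 0) .e))))) .e))))) (.c (.v 7 5 1) (.c (.v 3 7 1) (.c
  (.v 16 1 0) .e))))) .e))))) (.c (.v 12 2 0) .e))))) (.c (.v 9 3 0) (.c (.v 5 5 0) (.c (.v 13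
  1 0) .e))))) .e))))) (.c (.v 11 1 0) (.c (.R (.c (.f 3 7 538 538 0) (.c (.R (.c (.v 0 7 1)
  (.c (.v 13 1 0) (.c (.v 11 2 0) (.c (.R (.c (.R (.c (.v 15 1 0) (.c (.R (.c (.L (.c (.L (.c
  (.v 0 1 0) (.c (.v 0 9 2) (.c (.L (.c (.f 14 0 1112 720 0) (.c (.R (.c (.v 20 1 0) (.c (.v 18
  2 0) (.c (.v 0 10 2) (.c (.v 16 3 0) .e))))) (.c (.v 0 1 0) (.c (.L (.c (.L (.c (.v 0 1 0)
  (.c (.v 0 5 0) (.c (.v 0 3 0) (.c (.L (.c (.v 0 2 0) (.c (.L (.c (.L (.c (.v 0 1 0) (.c (.v 0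
  7 1) (.c (.v 0 5 1) (.c (.L (.c (.L (.c (.v 0 1 0) (.c (.v 0 3 0) (.c (.v 0 6 1) (.c (.v 0 2
  0) .e))))) (.c (.v 0 3 0) (.c (.v 0 6 0) (.c (.v 0 1 0) .e))))) .e))))) (.c (.v 0 1 0) (.c
  (.v 0 8 2) (.c (.L (.c (.f 0 0 720 1112 0) (.c (.v 0 2 0) (.c (.L (.c (.v 0 6 0) (.c (.v 0 9
  0) (.c (.v 0 1 0) (.c (.f 14 0 83 83 0) .e))))) (.c (.v 0 1 0) .e))))) .e))))) (.c (.v 0 3 0)
  (.c (.v 0 1 0) .e))))) .e))))) (.c (.v 0 11 0) (.c (.v 0 7 0) (.c (.v 0 1 0) .e))))) .e)))))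
  (.c (.v 0 2 0) .e))))) (.c (.v 0 8 2) (.c (.v 0 4 0) (.c (.v 0 1 0) .e))))) (.c (.v 16 1 0)
  (.c (.v 9 4 1) (.c (.R (.c (.v 13 3 0) (.c (.R (.c (.v 14 3 0) (.c (.v 18 1 0) (.c (.v 11 4
  1) (.c (.v 16 2 0) .e))))) (.c (.v 8 5 1) (.c (.v 17 1 0) .e))))) .e))))) (.c (.v 9 4 0) (.c
  (.v 8 4 1) .e))))) (.c (.f 2 9 643 153 1) (.c (.v 10 3 0) (.c (.v 14 1 0) .e))))) .e))))) (.c
  (.v 12 1 0) (.c (.v 5 4 1) .e))))) (.c (.f 14 6 90 531 0) .e))))) (.c (.f 0 5 538 538 1) (.c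
  (.v 10 1 0) .e))))) .e))))) .e))))) (.c (.v 3 3 0) (.c (.v 5 2 0) (.c (.v 7 1 0) .e)))))
  .e)))))

/-- certificate -/
def t18 : T := (.L (.c (.v 0 1 0) (.c (.v 0 2 0) (.c (.v 0 3 0) (.c (.R (.c (.v 0 4 1) (.c (.f
  10 2 1665 1665 0) (.c (.R (.c (.v 0 5 0) (.c (.R (.c (.v 0 5 1) (.c (.v 9 1 0) (.c (.f 13 4
  1035 202 1) (.c (.R (.c (.v 4 4 0) (.c (.f 7 5 643 153 1) (.c (.R (.c (.v 5 4 0) (.c (.v 7 3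
  0) (.c (.v 11 1 0) (.c (.R (.c (.R (.c (.v 13 1 0) (.c (.v 6 4 1) (.c (.L (.c (.L (.c (.v 0 1
  0) (.c (.f 1 0 1217 1217 0) (.c (.v 0 5 0) (.c (.v 0 2 0) .e))))) (.c (.R (.c (.R (.c (.v 16
  1 0) (.c (.R (.c (.v 1 9 0) (.c (.v 17 1 0) (.c (.R (.c (.R (.c (.v 19 1 0) (.c (.v 15 3 0)
  (.c (.R (.c (.v 18 2 0) (.c (.v 16 3 0) (.c (.v 20 1 0) (.c (.R (.c (.v 12 5 1) (.c (.R (.c
  (.v 13 5 1) (.c (.v 22 1 0) (.c (.R (.c (.v 13 6 0) (.c (.R (.c (.R (.c (.v 25 1 0) (.c (.R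
  (.c (.v 24 2 0) (.c (.v 26 1 0) (.c (.f 1 21 1546 1546 1) (.c (.R (.c (.R (.c (.v 28 1 0) (.c
  (.R (.c (.R (.c (.v 30 1 0) (.c (.v 28 2 0) (.c (.R (.c (.R (.c (.v 32 1 0) (.c (.f 1 27 1665
  1665 1) (.c (.v 30 2 0) (.c (.v 2 16 0) .e))))) (.c (.R (.c (.R (.c (.v 33 1 0) (.c (.R (.c
  (.v 32 2 0) (.c (.v 34 1 0) (.c (.v 30 3 0) (.c (.v 23 6 1) .e))))) (.c (.v 29 3 0) (.c (.v
  23 6 0) .e))))) (.c (.v 32 1 0) (.c (.v 19 7 1) (.c (.v 23 5 1) .e))))) (.c (.v 31 1 0) (.c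
  (.v 3 15 0) .e))))) (.c (.v 26 3 0) .e))))) (.c (.v 29 1 0) (.c (.v 21 5 0) (.c (.v 25 3 0)
  .e))))) (.c (.v 16 7 0) (.c (.v 6 12 0) .e))))) (.c (.f 15 22 1602 1553 0) (.c (.v 17 6 0)
  (.c (.v 27 1 0) .e))))) .e))))) (.c (.R (.c (.R (.c (.v 27 1 0) (.c (.v 23 3 0) (.c (.v 25 2
  0) (.c (.v 16 6 1) .e))))) (.c (.R (.c (.v 23 3 0) (.c (.v 27 1 0) (.c (.R (.c (.v 24 3 0)
  (.c (.v 26 2 0) (.c (.v 28 1 0) (.c (.v 19 5 1) .e))))) (.c (.v 17 6 0) .e))))) (.c (.v 26 1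
  0) (.c (.v 19 4 1) .e))))) (.c (.v 19 4 0) .e))))) (.c (.v 24 1 0) (.c (.v 22 2 0) (.c (.v 20
  3 0) .e))))) (.c (.v 23 1 0) (.c (.R (.c (.v 11 7 1) (.c (.v 20 3 0) (.c (.R (.c (.v 18 4 1)
  (.c (.v 21 3 0) (.c (.v 25 1 0) (.c (.v 23 2 0) .e))))) (.c (.v 24 1 0) .e))))) .e))))) (.c
  (.v 4 9 2) .e))))) (.c (.R (.c (.f 1 17 1112 720 1) (.c (.R (.c (.v 13 6 0) (.c (.v 23 1 0)
  (.c (.f 15 18 1049 706 0) (.c (.R (.c (.v 11 7 1) (.c (.R (.c (.v 10 8 1) (.c (.v 25 1 0) (.c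
  (.v 21 3 0) (.c (.v 23 2 0) .e))))) (.c (.R (.c (.v 17 5 0) (.c (.v 21 3 0) (.c (.v 25 1 0)
  (.c (.v 5 11 0) .e))))) (.c (.v 24 1 0) .e))))) .e))))) (.c (.v 22 1 0) (.c (.v 20 2 0)
  .e))))) (.c (.v 21 1 0) .e))))) .e))))) (.c (.R (.c (.v 13 4 1) (.c (.R (.c (.v 13 5 0) (.c
  (.v 21 1 0) (.c (.R (.c (.v 13 5 1) (.c (.v 2 11 0) (.c (.v 22 1 0) (.c (.v 4 9 2) .e)))))
  (.c (.f 6 16 202 1035 1) .e))))) (.c (.f 10 15 1553 1602 0) (.c (.v 20 1 0) .e))))) .e)))))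
  (.c (.R (.c (.v 15 3 0) (.c (.v 19 1 0) (.c (.v 17 2 0) (.c (.v 4 8 1) .e))))) (.c (.v 18 1
  0) (.c (.R (.c (.f 7 14 1616 1616 0) (.c (.v 4 8 1) (.c (.R (.c (.R (.c (.v 21 1 0) (.c (.R
  (.c (.v 13 5 1) (.c (.v 22 1 0) (.c (.v 15 4 1) (.c (.v 16 4 0) .e))))) (.c (.R (.c (.v 20 2
  0) (.c (.v 15 4 1) (.c (.v 22 1 0) (.c (.v 9 7 1) .e))))) (.c (.v 10 6 1) .e))))) (.c (.v 4 9
  0) (.c (.v 20 1 0) (.c (.v 18 2 0) .e))))) (.c (.v 19 1 0) .e))))) .e))))) (.c (.R (.c (.R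
  (.c (.v 19 1 0) (.c (.v 1 9 2) (.c (.f 11 14 1616 1616 0) (.c (.R (.c (.v 18 2 0) (.c (.v 16
  3 0) (.c (.R (.c (.R (.c (.v 22 1 0) (.c (.v 15 4 1) (.c (.v 11 6 1) (.c (.R (.c (.R (.c (.v
  24 1 0) (.c (.v 15 5 1) (.c (.v 20 3 0) (.c (.v 22 2 0) .e))))) (.c (.v 13 6 0) (.c (.v 19 3
  0) (.c (.v 23 1 0) .e))))) .e))))) (.c (.v 15 4 0) (.c (.v 21 1 0) (.c (.v 7 8 0) .e))))) (.c
  (.v 20 1 0) .e))))) .e))))) (.c (.v 4 8 0) (.c (.f 4 13 153 643 0) (.c (.v 18 1 0) .e)))))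
  .e))))) (.c (.v 14 2 0) (.c (.v 12 3 0) .e))))) (.c (.R (.c (.f 0 11 90 531 0) (.c (.v 16 1
  0) (.c (.R (.c (.R (.c (.v 18 1 0) (.c (.v 14 3 0) (.c (.f 3 13 1553 1602 1) (.c (.R (.c (.R
  (.c (.v 20 1 0) (.c (.L (.c (.L (.c (.v 0 1 0) (.c (.L (.c (.v 0 2 0) (.c (.v 0 1 0) (.c (.v
  0 6 0) (.c (.v 0 3 0) .e))))) (.c (.v 0 5 1) (.c (.v 0 3 0) .e))))) (.c (.v 0 1 0) (.c (.L
  (.c (.v 0 5 1) (.c (.L (.c (.v 0 6 0) (.c (.v 0 1 0) (.c (.v 0 2 0) (.c (.R (.c (.R (.c (.v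
  25 1 0) (.c (.v 23 2 0) (.c (.R (.c (.f 15 21 720 1112 0) (.c (.R (.c (.R (.c (.v 28 1 0) (.c
  (.R (.c (.v 27 2 0) (.c (.v 29 1 0) (.c (.v 25 3 0) (.c (.v 19 6 0) .e))))) (.c (.v 24 3 0)
  (.c (.v 20 5 0) .e))))) (.c (.v 27 1 0) (.c (.R (.c (.v 24 3 0) (.c (.v 26 2 0) (.c (.v 28 1
  0) (.c (.R (.c (.v 18 6 1) (.c (.R (.c (.v 18 7 0) (.c (.v 30 1 0) (.c (.R (.c (.R (.c (.v 32
  1 0) (.c (.f 10 27 1091 209 0) (.c (.v 25 4 1) (.c (.v 5 13 3) .e))))) (.c (.R (.c (.R (.c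
  (.v 33 1 0) (.c (.R (.c (.v 32 2 0) (.c (.v 34 1 0) (.c (.f 1 29 1546 1546 1) (.c (.R (.c (.R
  (.c (.v 36 1 0) (.c (.R (.c (.R (.c (.v 38 1 0) (.c (.v 36 2 0) (.c (.R (.c (.R (.c (.v 40 1
  0) (.c (.f 1 35 1665 1665 1) (.c (.v 38 2 0) (.c (.R (.c (.f 15 36 1672 1672 0) (.c (.v 31 6
  0) (.c (.v 16 12 3) (.c (.v 41 1 0) .e))))) .e))))) (.c (.R (.c (.R (.c (.v 41 1 0) (.c (.R
  (.c (.v 40 2 0) (.c (.v 42 1 0) (.c (.v 38 3 0) (.c (.v 31 6 1) .e))))) (.c (.v 37 3 0) (.c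
  (.v 31 6 0) .e))))) (.c (.v 40 1 0) (.c (.R (.c (.v 37 3 0) (.c (.v 39 2 0) (.c (.v 41 1 0)
  (.c (.v 21 10 2) .e))))) (.c (.v 31 5 1) .e))))) (.c (.v 39 1 0) (.c (.v 21 10 0) .e))))) (.c
  (.v 34 3 0) .e))))) (.c (.v 37 1 0) (.c (.v 29 5 0) (.c (.v 33 3 0) .e))))) (.c (.v 23 7 1)
  (.c (.R (.c (.v 35 2 0) (.c (.v 33 3 0) (.c (.v 22 8 1) (.c (.v 37 1 0) .e))))) .e))))) (.c
  (.f 15 30 1602 1553 0) (.c (.v 25 6 0) (.c (.v 35 1 0) .e))))) .e))))) (.c (.v 24 5 1) (.c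
  (.v 5 15 0) .e))))) (.c (.v 32 1 0) (.c (.v 30 2 0) (.c (.v 28 3 0) .e))))) (.c (.v 31 1 0)
  (.c (.v 27 3 0) .e))))) (.c (.v 6 12 2) .e))))) (.c (.v 13 9 0) (.c (.v 29 1 0) .e)))))
  .e))))) (.c (.v 5 11 2) .e))))) (.c (.v 26 1 0) (.c (.v 19 4 1) .e))))) (.c (.f 1 20 209 1091
  1) .e))))) (.c (.v 24 1 0) (.c (.R (.c (.R (.c (.v 26 1 0) (.c (.R (.c (.R (.c (.v 28 1 0)
  (.c (.v 26 2 0) (.c (.v 24 3 0) (.c (.v 21 4 1) .e))))) (.c (.v 27 1 0) (.c (.v 23 3 0) (.c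
  (.v 5 11 2) .e))))) (.c (.v 17 5 1) (.c (.v 19 4 1) .e))))) (.c (.v 5 11 0) (.c (.v 25 1 0)
  (.c (.v 19 4 0) .e))))) (.c (.R (.c (.R (.c (.v 26 1 0) (.c (.v 22 3 0) (.c (.v 19 4 1) (.c
  (.R (.c (.v 25 2 0) (.c (.v 23 3 0) (.c (.v 7 11 0) (.c (.v 27 1 0) .e))))) .e))))) (.c (.v 5
  10 2) (.c (.v 19 4 0) (.c (.v 25 1 0) .e))))) .e))))) .e))))) (.c (.v 0 1 0) (.c (.v 0 12 0)
  .e))))) (.c (.L (.c (.v 0 3 0) (.c (.v 0 2 0) (.c (.v 0 12 0) (.c (.v 0 1 0) .e))))) .e)))))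
  (.c (.R (.c (.f 3 16 1112 720 1) (.c (.R (.c (.R (.c (.v 23 1 0) (.c (.R (.c (.v 22 2 0) (.c
  (.v 24 1 0) (.c (.v 20 3 0) (.c (.v 2 11 2) .e))))) (.c (.v 14 5 1) (.c (.v 16 4 1) .e)))))
  (.c (.v 22 1 0) (.c (.v 15 4 1) (.c (.v 16 4 0) .e))))) (.c (.v 21 1 0) (.c (.v 17 3 0)
  .e))))) (.c (.v 18 2 0) .e))))) (.c (.v 13 4 0) (.c (.v 12 4 1) (.c (.v 19 1 0) .e)))))
  .e))))) (.c (.v 15 2 0) (.c (.v 17 1 0) (.c (.v 7 6 0) .e))))) (.c (.v 7 5 1) .e))))) (.c (.v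
  15 1 0) (.c (.R (.c (.v 12 3 0) (.c (.v 7 5 1) (.c (.R (.c (.v 13 3 0) (.c (.v 7 6 0) (.c (.v
  17 1 0) (.c (.v 15 2 0) .e))))) (.c (.v 16 1 0) .e))))) .e))))) (.c (.v 0 4 1) (.c (.v 0 1 0)
  .e))))) (.c (.R (.c (.v 12 2 0) (.c (.v 6 5 0) (.c (.f 1 9 538 538 1) (.c (.v 14 1 0) .e)))))
  .e))))) (.c (.v 8 3 0) (.c (.v 10 2 0) (.c (.v 12 1 0) .e))))) .e))))) (.c (.v 10 1 0)
  .e))))) .e))))) (.c (.v 8 1 0) (.c (.f 6 3 90 531 1) .e))))) (.c (.v 7 1 0) .e))))) .e)))))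

/-- certificate -/
def t19 : T := (.R (.c (.R (.c (.v 7 1 0) (.c (.f 13 2 1553 1602 0) (.c (.f 14 2 1049 706 1)
  (.c (.R (.c (.f 8 3 664 664 1) (.c (.v 2 4 0) (.c (.R (.c (.v 5 3 0) (.c (.v 3 4 0) (.c (.v 9
  1 0) (.c (.f 0 4 90 531 1) .e))))) (.c (.v 8 1 0) .e))))) .e))))) (.c (.f 15 1 1602 1553 0)
  (.c (.v 6 1 0) (.c (.f 7 1 83 83 1) .e)))))

/-- certificate -/
def t20 : T := (.R (.c (.f 14 1 1602 1553 0) (.c (.f 15 1 1091 209 1) (.c (.v 6 1 0) (.c (.R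
  (.c (.v 1 4 0) (.c (.f 0 2 643 153 1) (.c (.f 9 2 531 90 1) (.c (.v 7 1 0) .e))))) .e)))))

/-- certificate -/
def t21 : T := (.L (.c (.v 0 1 0) (.c (.v 0 2 0) (.c (.f 4 0 1553 1602 0) (.c (.L (.c (.f 18 0
  720 1112 0) (.c (.R (.c (.v 1 4 1) (.c (.v 8 1 0) (.c (.f 7 3 1665 1665 0) (.c (.L (.c (.L
  (.c (.v 0 1 0) (.c (.L (.c (.v 0 2 0) (.c (.v 0 1 0) (.c (.v 0 6 0) (.c (.v 0 3 0) .e)))))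
  (.c (.v 0 5 0) (.c (.v 0 3 0) .e))))) (.c (.v 0 1 0) (.c (.L (.c (.v 0 5 0) (.c (.L (.c (.v 0
  6 0) (.c (.v 0 1 0) (.c (.v 0 2 0) (.c (.L (.c (.v 0 7 0) (.c (.f 6 0 643 153 0) (.c (.v 0 3
  0) (.c (.v 0 1 0) .e))))) .e))))) (.c (.v 0 1 0) (.c (.f 3 0 1224 1224 1) .e))))) (.c (.L (.c
  (.v 0 3 0) (.c (.v 0 2 0) (.c (.R (.c (.R (.c (.v 12 1 0) (.c (.v 8 3 0) (.c (.R (.c (.v 6 4
  1) (.c (.v 7 4 0) (.c (.v 13 1 0) (.c (.R (.c (.R (.c (.v 15 1 0) (.c (.v 6 5 1) (.c (.v 11 3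
  0) (.c (.f 2 10 153 643 1) .e))))) (.c (.v 7 4 1) (.c (.R (.c (.v 11 3 0) (.c (.L (.c (.v 0 6
  1) (.c (.L (.c (.v 0 7 0) (.c (.v 0 1 0) (.c (.R (.c (.v 12 4 0) (.c (.v 18 1 0) (.c (.R (.c
  (.R (.c (.v 20 1 0) (.c (.v 0 10 2) (.c (.f 18 15 531 90 0) (.c (.R (.c (.v 9 7 0) (.c (.f 7
  16 83 83 0) (.c (.v 14 4 1) (.c (.v 21 1 0) .e))))) .e))))) (.c (.v 17 2 0) (.c (.v 19 1 0)
  (.c (.f 4 14 83 83 1) .e))))) (.c (.L (.c (.R (.c (.v 13 4 1) (.c (.R (.c (.R (.c (.v 22 1 0)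
  (.c (.R (.c (.v 21 2 0) (.c (.v 23 1 0) (.c (.R (.c (.v 1 12 1) (.c (.f 18 19 706 1049 0) (.c
  (.v 24 1 0) (.c (.R (.c (.v 1 12 2) (.c (.v 18 4 1) (.c (.v 13 7 0) (.c (.v 25 1 0) .e)))))
  .e))))) (.c (.f 4 18 202 1035 1) .e))))) (.c (.R (.c (.v 1 12 0) (.c (.R (.c (.v 1 12 1) (.c
  (.v 24 1 0) (.c (.R (.c (.v 21 3 0) (.c (.v 23 2 0) (.c (.v 25 1 0) (.c (.v 13 7 0) .e)))))
  (.c (.f 14 19 706 1049 0) .e))))) (.c (.v 23 1 0) (.c (.f 7 18 1035 202 0) .e))))) (.c (.R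
  (.c (.v 3 10 2) (.c (.R (.c (.v 20 3 0) (.c (.v 24 1 0) (.c (.f 2 19 706 1049 0) (.c (.R (.c
  (.v 21 3 0) (.c (.v 23 2 0) (.c (.R (.c (.R (.c (.v 27 1 0) (.c (.v 18 5 1) (.c (.v 11 9 0)
  (.c (.R (.c (.v 3 12 3) (.c (.v 18 6 0) (.c (.v 11 9 1) (.c (.v 28 1 0) .e))))) .e))))) (.c
  (.v 17 5 1) (.c (.v 26 1 0) (.c (.R (.c (.R (.c (.v 28 1 0) (.c (.v 18 6 0) (.c (.v 11 9 1)
  (.c (.f 18 23 139 139 0) .e))))) (.c (.f 4 22 643 153 1) (.c (.v 25 2 0) (.c (.v 27 1 0)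
  .e))))) .e))))) (.c (.v 25 1 0) .e))))) .e))))) (.c (.R (.c (.f 3 19 706 1049 0) (.c (.f 10
  19 706 1049 0) (.c (.v 24 1 0) (.c (.R (.c (.R (.c (.v 26 1 0) (.c (.R (.c (.v 3 12 2) (.c
  (.v 27 1 0) (.c (.v 21 4 0) (.c (.v 20 4 1) .e))))) (.c (.v 22 3 0) (.c (.f 6 21 153 643 1)
  .e))))) (.c (.R (.c (.R (.c (.v 27 1 0) (.c (.v 18 5 1) (.c (.v 21 4 0) (.c (.v 20 4 1)
  .e))))) (.c (.v 26 1 0) (.c (.v 15 6 1) (.c (.R (.c (.v 20 4 1) (.c (.v 25 2 0) (.c (.v 14 7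
  1) (.c (.v 27 1 0) .e))))) .e))))) (.c (.v 23 2 0) (.c (.v 25 1 0) .e))))) .e))))) (.c (.v 23
  1 0) .e))))) .e))))) (.c (.v 21 1 0) (.c (.v 17 3 0) (.c (.v 19 2 0) .e))))) (.c (.R (.c (.f
  2 16 531 90 0) (.c (.v 17 3 0) (.c (.v 21 1 0) (.c (.R (.c (.v 13 5 1) (.c (.v 18 3 0) (.c
  (.v 20 2 0) (.c (.v 22 1 0) .e))))) .e))))) (.c (.v 20 1 0) .e))))) (.c (.v 0 2 0) (.c (.v 0
  1 0) (.c (.v 0 3 0) .e))))) .e))))) (.c (.R (.c (.v 12 4 0) (.c (.v 18 1 0) (.c (.R (.c (.L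
  (.c (.f 2 0 139 139 1) (.c (.L (.c (.L (.c (.v 0 1 0) (.c (.L (.c (.v 0 2 0) (.c (.v 0 1 0)
  (.c (.L (.c (.L (.c (.v 0 1 0) (.c (.L (.c (.L (.c (.v 0 1 0) (.c (.v 0 2 0) (.c (.v 0 3 0)
  (.c (.L (.c (.L (.c (.v 0 1 0) (.c (.f 4 0 1217 1217 0) (.c (.L (.c (.f 18 0 1112 720 0) (.c
  (.v 0 6 0) (.c (.v 0 1 0) (.c (.v 0 12 3) .e))))) (.c (.v 0 2 0) .e))))) (.c (.L (.c (.L (.c
  (.v 0 1 0) (.c (.L (.c (.v 0 2 0) (.c (.v 0 1 0) (.c (.v 0 6 1) (.c (.v 0 3 0) .e))))) (.c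
  (.v 0 6 0) (.c (.v 0 3 0) .e))))) (.c (.v 0 1 0) (.c (.v 0 5 1) (.c (.L (.c (.v 0 3 0) (.c
  (.v 0 2 0) (.c (.v 0 10 2) (.c (.v 0 1 0) .e))))) .e))))) (.c (.v 0 10 0) (.c (.v 0 1 0)
  .e))))) .e))))) (.c (.v 0 1 0) (.c (.v 0 3 0) (.c (.v 0 5 0) .e))))) (.c (.L (.c (.v 0 2 0)
  (.c (.v 0 3 0) (.c (.v 0 1 0) (.c (.v 0 8 1) .e))))) (.c (.v 0 7 1) .e))))) (.c (.f 18 0 1602
  1553 0) (.c (.v 0 1 0) (.c (.v 0 6 0) .e))))) (.c (.f 4 0 202 1035 0) .e))))) (.c (.L (.c (.L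
  (.c (.v 0 1 0) (.c (.L (.c (.f 6 0 1672 1672 0) (.c (.v 0 1 0) (.c (.v 0 3 0) (.c (.v 0 7 1)
  .e))))) (.c (.v 0 2 0) (.c (.v 0 7 0) .e))))) (.c (.R (.c (.v 24 1 0) (.c (.L (.c (.L (.c (.v
  0 1 0) (.c (.f 2 0 1665 1665 0) (.c (.v 0 3 0) (.c (.v 0 7 1) .e))))) (.c (.v 0 1 0) (.c (.L
  (.c (.v 0 3 0) (.c (.v 0 2 0) (.c (.v 0 1 0) (.c (.L (.c (.v 0 4 0) (.c (.L (.c (.v 0 4 1)
  (.c (.v 0 1 0) (.c (.L (.c (.v 0 6 0) (.c (.L (.c (.v 0 5 1) (.c (.v 0 1 0) (.c (.v 0 2 0)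
  (.c (.v 0 3 0) .e))))) (.c (.v 0 1 0) (.c (.v 0 3 0) .e))))) (.c (.L (.c (.v 0 6 1) (.c (.v 0
  2 0) (.c (.v 0 3 0) (.c (.v 0 1 0) .e))))) .e))))) (.c (.L (.c (.R (.c (.R (.c (.v 30 1 0)
  (.c (.v 28 2 0) (.c (.v 26 3 0) (.c (.R (.c (.v 15 9 0) (.c (.v 5 13 2) (.c (.R (.c (.R (.c
  (.v 33 1 0) (.c (.f 14 28 1224 1224 0) (.c (.R (.c (.v 32 2 0) (.c (.R (.c (.R (.c (.v 36 1
  0) (.c (.v 25 6 1) (.c (.R (.c (.R (.c (.v 38 1 0) (.c (.v 34 3 0) (.c (.v 36 2 0) (.c (.v 29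
  5 1) .e))))) (.c (.v 33 3 0) (.c (.v 37 1 0) (.c (.v 27 6 0) .e))))) (.c (.v 29 4 1) .e)))))
  (.c (.v 35 1 0) (.c (.v 22 7 1) (.c (.v 29 4 0) .e))))) (.c (.v 34 1 0) (.c (.v 30 3 0)
  .e))))) (.c (.v 15 9 2) .e))))) (.c (.f 7 27 1553 1602 0) (.c (.v 32 1 0) (.c (.R (.c (.v 15
  9 2) (.c (.R (.c (.R (.c (.v 35 1 0) (.c (.v 3 17 0) (.c (.v 29 4 0) (.c (.v 15 10 2) .e)))))
  (.c (.v 34 1 0) (.c (.R (.c (.v 29 4 0) (.c (.v 1 17 2) (.c (.v 35 1 0) (.c (.v 19 8 2)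
  .e))))) (.c (.v 18 9 0) .e))))) (.c (.v 31 2 0) (.c (.v 33 1 0) .e))))) .e))))) (.c (.v 31 1
  0) .e))))) .e))))) (.c (.v 29 1 0) (.c (.R (.c (.v 26 3 0) (.c (.R (.c (.v 27 3 0) (.c (.v 31
  1 0) (.c (.v 29 2 0) (.c (.v 0 15 3) .e))))) (.c (.v 30 1 0) (.c (.v 22 5 0) .e))))) (.c (.R
  (.c (.f 3 25 1546 1546 0) (.c (.v 0 15 2) (.c (.v 22 5 0) (.c (.v 30 1 0) .e))))) .e))))) (.c
  (.f 4 0 1091 209 0) (.c (.v 0 1 0) (.c (.v 0 2 0) .e))))) (.c (.v 0 1 0) .e))))) .e))))) (.c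
  (.v 0 6 0) .e))))) (.c (.f 18 19 531 90 0) (.c (.R (.c (.v 13 7 0) (.c (.f 7 20 83 83 0) (.c
  (.v 18 4 1) (.c (.v 25 1 0) .e))))) .e))))) (.c (.v 0 1 0) (.c (.v 0 5 1) .e))))) (.c (.v 0 5
  1) .e))))) (.c (.v 0 1 0) (.c (.v 0 3 0) (.c (.v 0 2 0) .e))))) (.c (.v 0 3 0) (.c (.v 0 1 0)
  .e))))) (.c (.v 17 2 0) (.c (.v 19 1 0) (.c (.f 4 14 83 83 1) .e))))) (.c (.R (.c (.v 12 4 1)
  (.c (.R (.c (.v 0 10 2) (.c (.v 20 1 0) (.c (.v 16 3 0) (.c (.v 18 2 0) .e))))) (.c (.R (.c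
  (.f 2 15 531 90 0) (.c (.v 16 3 0) (.c (.v 20 1 0) (.c (.R (.c (.v 12 5 1) (.c (.v 17 3 0)
  (.c (.v 19 2 0) (.c (.v 21 1 0) .e))))) .e))))) (.c (.v 19 1 0) .e))))) .e))))) .e))))) (.c
  (.v 0 1 0) (.c (.v 0 9 0) .e))))) (.c (.v 15 1 0) (.c (.v 13 2 0) .e))))) (.c (.v 14 1 0)
  .e))))) .e))))) (.c (.f 6 7 209 1091 1) .e))))) (.c (.v 9 2 0) (.c (.L (.c (.v 0 6 1) (.c (.L
  (.c (.v 0 7 0) (.c (.v 0 1 0) (.c (.L (.c (.v 0 8 0) (.c (.v 0 2 0) (.c (.v 0 1 0) (.c (.v 0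
  3 0) .e))))) (.c (.L (.c (.f 2 0 139 139 1) (.c (.L (.c (.L (.c (.v 0 1 0) (.c (.L (.c (.v 0
  2 0) (.c (.v 0 1 0) (.c (.L (.c (.L (.c (.v 0 1 0) (.c (.L (.c (.L (.c (.v 0 1 0) (.c (.v 0 2
  0) (.c (.v 0 3 0) (.c (.L (.c (.L (.c (.v 0 1 0) (.c (.f 4 0 1217 1217 0) (.c (.L (.c (.f 18
  0 1112 720 0) (.c (.v 0 6 0) (.c (.v 0 1 0) (.c (.R (.c (.v 0 12 3) (.c (.v 3 12 0) (.c (.v
  25 1 0) (.c (.R (.c (.R (.c (.v 27 1 0) (.c (.v 20 4 1) (.c (.R (.c (.R (.c (.v 29 1 0) (.c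
  (.v 13 8 2) (.c (.v 27 2 0) (.c (.v 25 3 0) .e))))) (.c (.v 0 15 0) (.c (.v 28 1 0) (.c (.R
  (.c (.v 25 3 0) (.c (.v 21 5 0) (.c (.R (.c (.v 26 3 0) (.c (.v 20 6 0) (.c (.v 30 1 0) (.c
  (.v 28 2 0) .e))))) (.c (.v 29 1 0) .e))))) .e))))) (.c (.f 18 22 139 139 0) .e))))) (.c (.f
  4 21 643 153 1) (.c (.v 24 2 0) (.c (.v 26 1 0) .e))))) .e))))) .e))))) (.c (.v 0 2 0)
  .e))))) (.c (.L (.c (.L (.c (.v 0 1 0) (.c (.L (.c (.v 0 2 0) (.c (.v 0 1 0) (.c (.v 0 6 1)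
  (.c (.v 0 3 0) .e))))) (.c (.v 0 6 0) (.c (.v 0 3 0) .e))))) (.c (.v 0 1 0) (.c (.v 0 5 1)
  (.c (.L (.c (.v 0 3 0) (.c (.v 0 2 0) (.c (.v 0 10 2) (.c (.v 0 1 0) .e))))) .e))))) (.c (.v
  0 10 0) (.c (.v 0 1 0) .e))))) .e))))) (.c (.v 0 1 0) (.c (.v 0 3 0) (.c (.v 0 5 0) .e)))))
  (.c (.L (.c (.v 0 2 0) (.c (.v 0 3 0) (.c (.v 0 1 0) (.c (.v 0 8 1) .e))))) (.c (.v 0 7 1)
  .e))))) (.c (.f 18 0 1602 1553 0) (.c (.v 0 1 0) (.c (.v 0 6 0) .e))))) (.c (.f 4 0 202 1035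
  0) .e))))) (.c (.L (.c (.L (.c (.v 0 1 0) (.c (.L (.c (.f 6 0 1672 1672 0) (.c (.v 0 1 0) (.c
  (.v 0 3 0) (.c (.v 0 7 1) .e))))) (.c (.v 0 2 0) (.c (.v 0 7 0) .e))))) (.c (.L (.c (.L (.c
  (.v 0 1 0) (.c (.f 2 0 1665 1665 0) (.c (.v 0 3 0) (.c (.v 0 7 1) .e))))) (.c (.v 0 1 0) (.c
  (.L (.c (.v 0 3 0) (.c (.v 0 2 0) (.c (.v 0 1 0) (.c (.L (.c (.v 0 4 0) (.c (.L (.c (.v 0 4
  1) (.c (.v 0 1 0) (.c (.L (.c (.v 0 6 0) (.c (.L (.c (.v 0 5 1) (.c (.v 0 1 0) (.c (.v 0 2 0)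
  (.c (.v 0 3 0) .e))))) (.c (.v 0 1 0) (.c (.v 0 3 0) .e))))) (.c (.L (.c (.v 0 6 1) (.c (.v 0
  2 0) (.c (.v 0 3 0) (.c (.v 0 1 0) .e))))) .e))))) (.c (.L (.c (.L (.c (.v 0 1 0) (.c (.v 0 6
  0) (.c (.f 18 0 1049 706 0) (.c (.R (.c (.R (.c (.v 24 1 0) (.c (.v 18 4 0) (.c (.R (.c (.v
  23 2 0) (.c (.v 11 8 0) (.c (.v 25 1 0) (.c (.R (.c (.v 22 3 0) (.c (.R (.c (.v 21 4 0) (.c
  (.v 27 1 0) (.c (.R (.c (.v 21 4 1) (.c (.R (.c (.R (.c (.v 30 1 0) (.c (.v 6 13 0) (.c (.R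
  (.c (.R (.c (.v 32 1 0) (.c (.v 28 3 0) (.c (.v 30 2 0) (.c (.v 16 8 2) .e))))) (.c (.R (.c
  (.v 28 3 0) (.c (.v 32 1 0) (.c (.R (.c (.v 29 3 0) (.c (.v 31 2 0) (.c (.v 33 1 0) (.c (.v
  24 5 1) .e))))) (.c (.v 1 15 3) .e))))) (.c (.v 31 1 0) (.c (.v 24 4 1) .e))))) (.c (.v 24 4
  0) .e))))) (.c (.v 29 1 0) (.c (.v 27 2 0) (.c (.v 25 3 0) .e))))) (.c (.v 28 1 0) (.c (.v 18
  6 0) .e))))) (.c (.v 20 4 1) .e))))) (.c (.f 6 21 538 538 1) (.c (.v 26 1 0) .e))))) .e)))))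
  (.c (.R (.c (.R (.c (.v 26 1 0) (.c (.v 17 5 1) (.c (.v 22 3 0) (.c (.v 24 2 0) .e))))) (.c
  (.v 18 4 1) (.c (.R (.c (.v 22 3 0) (.c (.R (.c (.v 21 4 0) (.c (.v 27 1 0) (.c (.R (.c (.R
  (.c (.v 29 1 0) (.c (.R (.c (.R (.c (.v 31 1 0) (.c (.v 29 2 0) (.c (.v 27 3 0) (.c (.v 16 8
  1) .e))))) (.c (.v 30 1 0) (.c (.R (.c (.v 27 3 0) (.c (.R (.c (.v 28 3 0) (.c (.v 32 1 0)
  (.c (.v 30 2 0) (.c (.v 1 15 3) .e))))) (.c (.v 31 1 0) (.c (.v 24 4 1) .e))))) (.c (.v 24 4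
  0) .e))))) (.c (.R (.c (.v 28 2 0) (.c (.f 4 25 1602 1553 1) (.c (.v 30 1 0) (.c (.v 23 4 1)
  .e))))) (.c (.v 18 6 1) .e))))) (.c (.v 26 2 0) (.c (.v 28 1 0) (.c (.v 18 6 0) .e))))) (.c
  (.v 20 4 1) .e))))) (.c (.v 26 1 0) (.c (.f 2 21 90 531 1) .e))))) (.c (.v 25 1 0) .e)))))
  .e))))) (.c (.R (.c (.v 18 4 0) (.c (.v 24 1 0) (.c (.R (.c (.v 11 8 0) (.c (.v 23 2 0) (.c
  (.v 25 1 0) (.c (.v 21 3 0) .e))))) (.c (.v 6 10 0) .e))))) (.c (.v 23 1 0) (.c (.R (.c (.R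
  (.c (.v 25 1 0) (.c (.v 18 4 1) (.c (.R (.c (.R (.c (.v 27 1 0) (.c (.v 11 8 2) (.c (.v 25 2
  0) (.c (.v 23 3 0) .e))))) (.c (.R (.c (.v 11 8 2) (.c (.v 27 1 0) (.c (.R (.c (.R (.c (.v 29
  1 0) (.c (.v 25 3 0) (.c (.f 6 24 1553 1602 1) (.c (.v 17 7 0) .e))))) (.c (.v 26 2 0) (.c
  (.v 28 1 0) (.c (.v 18 6 0) .e))))) (.c (.v 19 5 0) .e))))) (.c (.v 26 1 0) (.c (.R (.c (.v
  23 3 0) (.c (.v 19 5 0) (.c (.R (.c (.v 24 3 0) (.c (.v 18 6 0) (.c (.v 28 1 0) (.c (.v 26 2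
  0) .e))))) (.c (.v 27 1 0) .e))))) .e))))) (.c (.f 18 20 139 139 0) .e))))) (.c (.v 6 10 0)
  (.c (.v 22 2 0) (.c (.v 24 1 0) .e))))) .e))))) .e))))) (.c (.f 4 0 1091 209 0) (.c (.v 0 1
  0) (.c (.v 0 2 0) .e))))) (.c (.v 0 1 0) .e))))) .e))))) (.c (.v 0 6 0) .e))))) (.c (.v 0 1
  0) (.c (.v 0 5 1) .e))))) (.c (.v 0 5 1) .e))))) (.c (.v 0 1 0) (.c (.v 0 3 0) (.c (.v 0 2 0)
  .e))))) (.c (.v 0 3 0) (.c (.v 0 1 0) .e))))) .e))))) (.c (.v 0 1 0) (.c (.R (.c (.R (.c (.v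
  14 1 0) (.c (.v 8 4 0) (.c (.R (.c (.v 13 2 0) (.c (.v 1 8 0) (.c (.v 15 1 0) (.c (.R (.c (.v
  12 3 0) (.c (.v 0 9 0) (.c (.f 6 11 538 538 1) (.c (.v 16 1 0) .e))))) .e))))) (.c (.R (.c
  (.R (.c (.v 16 1 0) (.c (.v 7 5 1) (.c (.v 12 3 0) (.c (.v 14 2 0) .e))))) (.c (.v 8 4 1) (.c
  (.R (.c (.v 12 3 0) (.c (.v 0 9 0) (.c (.v 16 1 0) (.c (.f 2 11 90 531 1) .e))))) (.c (.v 15
  1 0) .e))))) .e))))) (.c (.R (.c (.v 8 4 0) (.c (.v 14 1 0) (.c (.R (.c (.v 1 8 0) (.c (.v 13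
  2 0) (.c (.v 15 1 0) (.c (.v 11 3 0) .e))))) (.c (.L (.c (.L (.c (.v 0 1 0) (.c (.R (.c (.v
  10 4 1) (.c (.R (.c (.v 0 9 2) (.c (.v 18 1 0) (.c (.v 14 3 0) (.c (.v 16 2 0) .e))))) (.c
  (.v 13 3 0) (.c (.v 17 1 0) .e))))) (.c (.v 0 9 0) (.c (.f 18 0 153 643 0) .e))))) (.c (.f 4
  0 643 153 0) (.c (.v 0 2 0) (.c (.v 0 1 0) .e))))) .e))))) (.c (.v 13 1 0) (.c (.R (.c (.R
  (.c (.v 15 1 0) (.c (.v 8 4 1) (.c (.R (.c (.R (.c (.v 17 1 0) (.c (.v 1 8 2) (.c (.v 15 2 0)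
  (.c (.v 13 3 0) .e))))) (.c (.v 0 9 0) (.c (.v 16 1 0) (.c (.R (.c (.v 13 3 0) (.c (.v 9 5 0)
  (.c (.R (.c (.v 14 3 0) (.c (.v 8 6 0) (.c (.v 18 1 0) (.c (.v 16 2 0) .e))))) (.c (.v 17 1
  0) .e))))) .e))))) (.c (.f 18 10 139 139 0) .e))))) (.c (.f 4 9 643 153 1) (.c (.v 12 2 0)
  (.c (.v 14 1 0) .e))))) .e))))) .e))))) (.c (.v 11 1 0) .e))))) (.c (.v 0 1 0) .e)))))
  .e))))) .e))))) (.c (.v 0 4 1) (.c (.v 0 1 0) .e))))) .e)))))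

/-- certificate -/
def t22 : T := (.R (.c (.v 6 1 0) (.c (.R (.c (.v 0 4 1) (.c (.v 7 1 0) (.c (.R (.c (.R (.c (.v
  9 1 0) (.c (.v 5 3 0) (.c (.f 3 4 1553 1602 1) (.c (.v 0 5 1) .e))))) (.c (.R (.c (.v 5 3 0)
  (.c (.v 9 1 0) (.c (.v 7 2 0) (.c (.R (.c (.v 4 4 0) (.c (.R (.c (.R (.c (.v 12 1 0) (.c (.f
  19 7 1091 209 0) (.c (.f 0 7 1091 209 0) (.c (.L (.c (.v 0 1 0) (.c (.v 0 2 0) (.c (.L (.c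
  (.f 7 0 1616 1616 0) (.c (.v 0 3 0) (.c (.v 0 1 0) (.c (.L (.c (.L (.c (.v 0 1 0) (.c (.v 0 4
  1) (.c (.v 0 5 1) (.c (.L (.c (.v 0 2 0) (.c (.L (.c (.L (.c (.v 0 1 0) (.c (.L (.c (.v 0 2
  0) (.c (.v 0 1 0) (.c (.L (.c (.L (.c (.v 0 1 0) (.c (.L (.c (.L (.c (.v 0 1 0) (.c (.v 0 2
  0) (.c (.v 0 3 0) (.c (.L (.c (.L (.c (.v 0 1 0) (.c (.f 5 0 1217 1217 0) (.c (.L (.c (.f 19
  0 1112 720 0) (.c (.v 0 6 0) (.c (.v 0 1 0) (.c (.v 0 9 1) .e))))) (.c (.v 0 2 0) .e))))) (.c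
  (.v 0 5 1) (.c (.L (.c (.L (.c (.v 0 1 0) (.c (.v 0 6 0) (.c (.L (.c (.v 0 2 0) (.c (.v 0 13
  3) (.c (.v 0 1 0) (.c (.v 0 3 0) .e))))) (.c (.v 0 9 1) .e))))) (.c (.v 0 5 1) (.c (.v 0 1 0)
  (.c (.v 0 9 0) .e))))) (.c (.v 0 1 0) .e))))) .e))))) (.c (.v 0 1 0) (.c (.v 0 3 0) (.c (.f 3
  0 1665 1665 1) .e))))) (.c (.v 0 8 2) (.c (.L (.c (.L (.c (.v 0 1 0) (.c (.L (.c (.f 0 0 1224
  1224 0) (.c (.v 0 1 0) (.c (.L (.c (.v 0 4 1) (.c (.v 0 5 1) (.c (.v 0 1 0) (.c (.v 0 4 0)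
  .e))))) (.c (.v 0 6 1) .e))))) (.c (.L (.c (.f 7 0 1112 720 0) (.c (.L (.c (.v 0 4 1) (.c (.v
  0 1 0) (.c (.L (.c (.L (.c (.v 0 1 0) (.c (.v 0 3 0) (.c (.v 0 13 0) (.c (.v 0 11 2) .e)))))
  (.c (.v 0 2 0) (.c (.v 0 1 0) (.c (.L (.c (.v 0 11 2) (.c (.v 0 8 0) (.c (.v 0 12 2) (.c (.v
  0 1 0) .e))))) .e))))) (.c (.v 0 4 0) .e))))) (.c (.v 0 1 0) (.c (.v 0 3 0) .e))))) (.c (.v 0
  2 0) .e))))) (.c (.f 11 0 1665 1665 1) (.c (.f 4 0 1665 1665 1) (.c (.v 0 1 0) .e)))))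
  .e))))) (.c (.L (.c (.f 5 0 1672 1672 0) (.c (.v 0 1 0) (.c (.v 0 2 0) (.c (.L (.c (.f 0 0
  1665 1665 1) (.c (.f 19 0 643 153 0) (.c (.v 0 12 1) (.c (.v 0 1 0) .e))))) .e))))) (.c (.v 0
  1 0) (.c (.L (.c (.f 8 0 202 1035 1) (.c (.L (.c (.f 15 0 1665 1665 1) (.c (.v 0 1 0) (.c (.v
  0 12 1) (.c (.L (.c (.v 0 7 0) (.c (.v 0 2 0) (.c (.v 0 3 0) (.c (.v 0 1 0) .e))))) .e)))))
  (.c (.v 0 12 0) (.c (.v 0 1 0) .e))))) .e))))) (.c (.v 0 3 0) .e))))) (.c (.v 0 4 1) (.c (.L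
  (.c (.L (.c (.v 0 1 0) (.c (.v 0 3 0) (.c (.v 0 5 1) (.c (.v 0 2 0) .e))))) (.c (.v 0 3 0)
  (.c (.f 3 0 209 1091 1) (.c (.v 0 1 0) .e))))) .e))))) (.c (.v 0 1 0) (.c (.v 0 4 0) (.c (.L
  (.c (.f 5 0 720 1112 0) (.c (.v 0 2 0) (.c (.L (.c (.f 0 0 209 1091 1) (.c (.v 0 10 2) (.c
  (.v 0 1 0) (.c (.f 19 0 83 83 0) .e))))) (.c (.v 0 1 0) .e))))) .e))))) (.c (.v 0 3 0) (.c
  (.v 0 1 0) .e))))) .e))))) (.c (.v 0 4 0) (.c (.v 0 4 1) (.c (.v 0 1 0) .e))))) .e))))) (.c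
  (.L (.c (.f 0 0 720 1112 0) (.c (.R (.c (.R (.c (.v 16 1 0) (.c (.v 12 3 0) (.c (.v 0 8 2)
  (.c (.v 14 2 0) .e))))) (.c (.R (.c (.v 12 3 0) (.c (.v 16 1 0) (.c (.v 8 5 0) (.c (.R (.c
  (.v 13 3 0) (.c (.v 15 2 0) (.c (.L (.c (.L (.c (.v 0 1 0) (.c (.L (.c (.v 0 2 0) (.c (.v 0 1
  0) (.c (.L (.c (.L (.c (.v 0 1 0) (.c (.L (.c (.L (.c (.v 0 1 0) (.c (.v 0 2 0) (.c (.v 0 3
  0) (.c (.v 0 6 1) .e))))) (.c (.v 0 1 0) (.c (.v 0 3 0) (.c (.v 0 6 0) .e))))) (.c (.v 0 7 1)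
  (.c (.v 0 5 1) .e))))) (.c (.L (.c (.f 5 0 1672 1672 0) (.c (.v 0 1 0) (.c (.v 0 2 0) (.c (.L
  (.c (.v 0 6 0) (.c (.f 19 0 643 153 0) (.c (.L (.c (.L (.c (.v 0 1 0) (.c (.v 0 5 0) (.c (.v
  0 9 2) (.c (.v 0 8 0) .e))))) (.c (.L (.c (.v 0 5 0) (.c (.v 0 1 0) (.c (.v 0 11 0) (.c (.v 0
  3 0) .e))))) (.c (.v 0 1 0) (.c (.v 0 11 2) .e))))) (.c (.v 0 1 0) .e))))) .e))))) (.c (.v 0
  1 0) (.c (.L (.c (.v 0 5 1) (.c (.L (.c (.v 0 6 0) (.c (.v 0 1 0) (.c (.L (.c (.L (.c (.v 0 1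
  0) (.c (.v 0 4 1) (.c (.v 0 9 2) (.c (.v 0 4 0) .e))))) (.c (.f 3 0 1091 209 0) (.c (.v 0 1
  0) (.c (.v 0 3 0) .e))))) (.c (.R (.c (.v 1 12 1) (.c (.R (.c (.v 16 5 1) (.c (.v 25 1 0) (.c
  (.v 12 7 1) (.c (.R (.c (.v 16 6 0) (.c (.R (.c (.v 16 6 1) (.c (.v 27 1 0) (.c (.v 23 3 0)
  (.c (.v 25 2 0) .e))))) (.c (.v 22 3 0) (.c (.v 26 1 0) .e))))) .e))))) (.c (.v 24 1 0) (.c
  (.R (.c (.v 0 13 1) (.c (.f 5 20 643 153 1) (.c (.v 23 2 0) (.c (.v 25 1 0) .e))))) .e)))))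
  .e))))) (.c (.v 0 9 2) (.c (.v 0 1 0) .e))))) .e))))) (.c (.v 0 3 0) .e))))) (.c (.v 0 4 1)
  (.c (.v 0 3 0) .e))))) (.c (.v 0 1 0) (.c (.v 0 4 0) (.c (.L (.c (.v 0 3 0) (.c (.v 0 2 0)
  (.c (.L (.c (.L (.c (.v 0 1 0) (.c (.f 8 0 720 1112 1) (.c (.L (.c (.v 0 2 0) (.c (.v 0 9 2)
  (.c (.v 0 1 0) (.c (.L (.c (.v 0 3 0) (.c (.v 0 10 2) (.c (.f 7 0 538 538 0) (.c (.v 0 1 0)
  .e))))) .e))))) (.c (.L (.c (.v 0 6 0) (.c (.f 15 0 139 139 1) (.c (.L (.c (.v 0 3 0) (.c (.v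
  0 10 2) (.c (.v 0 1 0) (.c (.f 3 0 90 531 0) .e))))) (.c (.v 0 1 0) .e))))) .e))))) (.c (.v 0
  9 0) (.c (.v 0 1 0) (.c (.L (.c (.L (.c (.v 0 1 0) (.c (.f 0 0 139 139 1) (.c (.L (.c (.v 0 7
  0) (.c (.v 0 10 2) (.c (.v 0 1 0) (.c (.L (.c (.v 0 3 0) (.c (.v 0 5 0) (.c (.L (.c (.v 0 3
  0) (.c (.L (.c (.L (.c (.v 0 1 0) (.c (.v 0 8 0) (.c (.L (.c (.L (.c (.v 0 1 0) (.c (.v 0 3
  0) (.c (.v 0 2 0) (.c (.L (.c (.L (.c (.v 0 1 0) (.c (.L (.c (.f 19 0 1224 1224 0) (.c (.v 0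
  1 0) (.c (.v 0 6 0) (.c (.v 0 10 0) .e))))) (.c (.f 5 0 1049 706 0) (.c (.v 0 2 0) .e)))))
  (.c (.v 0 4 0) (.c (.L (.c (.L (.c (.v 0 1 0) (.c (.v 0 6 0) (.c (.L (.c (.v 0 2 0) (.c (.v 0
  5 1) (.c (.v 0 1 0) (.c (.v 0 3 0) .e))))) (.c (.v 0 3 0) .e))))) (.c (.v 0 4 1) (.c (.v 0 1
  0) (.c (.L (.c (.v 0 3 0) (.c (.v 0 6 1) (.c (.v 0 2 0) (.c (.v 0 1 0) .e))))) .e))))) (.c
  (.v 0 1 0) .e))))) .e))))) (.c (.v 0 15 0) (.c (.v 0 1 0) (.c (.v 0 6 0) .e))))) (.c (.v 0 5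
  1) .e))))) (.c (.v 0 1 0) (.c (.L (.c (.L (.c (.v 0 1 0) (.c (.v 0 15 0) (.c (.f 19 0 1553
  1602 0) (.c (.v 0 6 0) .e))))) (.c (.v 0 2 0) (.c (.v 0 1 0) (.c (.f 5 0 83 83 0) .e))))) (.c
  (.L (.c (.v 0 5 1) (.c (.L (.c (.v 0 8 1) (.c (.v 0 1 0) (.c (.v 0 3 0) (.c (.v 0 2 0)
  .e))))) (.c (.L (.c (.v 0 6 0) (.c (.v 0 3 0) (.c (.v 0 1 0) (.c (.L (.c (.v 0 6 1) (.c (.v 0
  3 0) (.c (.v 0 2 0) (.c (.v 0 1 0) .e))))) .e))))) (.c (.v 0 1 0) .e))))) .e))))) (.c (.v 0 1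
  0) (.c (.v 0 2 0) .e))))) (.c (.v 0 1 0) .e))))) .e))))) (.c (.f 19 0 153 643 0) .e))))) (.c
  (.v 0 10 0) (.c (.v 0 2 0) (.c (.v 0 1 0) .e))))) .e))))) (.c (.v 0 1 0) .e))))) .e))))) (.c
  (.v 17 1 0) .e))))) .e))))) (.c (.R (.c (.v 0 8 2) (.c (.v 8 5 0) (.c (.v 16 1 0) (.c (.R (.c
  (.L (.c (.L (.c (.v 0 1 0) (.c (.L (.c (.v 0 2 0) (.c (.v 0 1 0) (.c (.R (.c (.v 21 1 0) (.c
  (.L (.c (.L (.c (.v 0 1 0) (.c (.L (.c (.L (.c (.v 0 1 0) (.c (.v 0 2 0) (.c (.v 0 3 0) (.c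
  (.v 0 6 1) .e))))) (.c (.v 0 1 0) (.c (.v 0 3 0) (.c (.v 0 6 0) .e))))) (.c (.v 0 7 1) (.c
  (.v 0 5 1) .e))))) (.c (.L (.c (.f 5 0 1672 1672 0) (.c (.v 0 1 0) (.c (.v 0 2 0) (.c (.v 0
  12 1) .e))))) (.c (.v 0 1 0) (.c (.v 0 11 1) .e))))) (.c (.v 17 3 0) (.c (.f 7 16 153 643 1)
  .e))))) (.c (.v 0 3 0) .e))))) (.c (.v 0 4 1) (.c (.v 0 3 0) .e))))) (.c (.v 0 1 0) (.c (.v 0
  4 0) (.c (.v 0 9 2) .e))))) (.c (.R (.c (.R (.c (.v 19 1 0) (.c (.v 10 5 1) (.c (.v 13 4 0)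
  (.c (.v 12 4 1) .e))))) (.c (.v 18 1 0) (.c (.v 6 7 0) (.c (.f 0 13 139 139 1) .e))))) (.c
  (.v 15 2 0) (.c (.v 17 1 0) .e))))) .e))))) (.c (.v 15 1 0) .e))))) (.c (.L (.c (.L (.c (.v 0
  1 0) (.c (.v 0 4 1) (.c (.v 0 5 1) (.c (.L (.c (.f 3 0 664 664 0) (.c (.L (.c (.v 0 4 1) (.c
  (.v 0 1 0) (.c (.v 0 4 0) (.c (.L (.c (.v 0 6 0) (.c (.v 0 2 0) (.c (.L (.c (.v 0 6 1) (.c
  (.v 0 10 2) (.c (.v 0 1 0) (.c (.f 0 0 83 83 0) .e))))) (.c (.v 0 1 0) .e))))) .e))))) (.c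
  (.v 0 3 0) (.c (.v 0 1 0) .e))))) .e))))) (.c (.v 0 4 0) (.c (.v 0 1 0) (.c (.L (.c (.L (.c
  (.v 0 1 0) (.c (.L (.c (.v 0 4 1) (.c (.v 0 1 0) (.c (.v 0 4 0) (.c (.L (.c (.v 0 6 0) (.c
  (.L (.c (.v 0 3 0) (.c (.v 0 1 0) (.c (.v 0 10 2) (.c (.v 0 2 0) .e))))) (.c (.v 0 4 1) (.c
  (.v 0 1 0) .e))))) .e))))) (.c (.v 0 3 0) (.c (.f 7 0 153 643 0) .e))))) (.c (.L (.c (.L (.c
  (.v 0 1 0) (.c (.L (.c (.v 0 2 0) (.c (.v 0 1 0) (.c (.v 0 9 2) (.c (.L (.c (.v 0 3 0) (.c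
  (.f 7 0 706 1049 0) (.c (.v 0 10 2) (.c (.v 0 1 0) .e))))) .e))))) (.c (.v 0 4 0) (.c (.L (.c
  (.v 0 6 0) (.c (.L (.c (.v 0 3 0) (.c (.v 0 1 0) (.c (.v 0 10 2) (.c (.f 3 0 202 1035 0)
  .e))))) (.c (.v 0 4 1) (.c (.v 0 1 0) .e))))) .e))))) (.c (.v 0 1 0) (.c (.L (.c (.v 0 4 0)
  (.c (.v 0 8 2) (.c (.v 0 1 0) (.c (.L (.c (.v 0 4 1) (.c (.v 0 3 0) (.c (.L (.c (.L (.c (.v 0
  1 0) (.c (.v 0 11 1) (.c (.L (.c (.v 0 2 0) (.c (.L (.c (.L (.c (.v 0 1 0) (.c (.L (.c (.v 0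
  2 0) (.c (.v 0 1 0) (.c (.v 0 3 0) (.c (.v 0 8 0) .e))))) (.c (.L (.c (.v 0 11 0) (.c (.v 0 3
  0) (.c (.v 0 1 0) (.c (.v 0 5 0) .e))))) (.c (.v 0 8 2) .e))))) (.c (.v 0 1 0) (.c (.f 19 0
  1546 1546 0) (.c (.v 0 6 0) .e))))) (.c (.v 0 1 0) (.c (.f 5 0 90 531 0) .e))))) (.c (.L (.c
  (.v 0 7 0) (.c (.v 0 5 1) (.c (.L (.c (.v 0 3 0) (.c (.v 0 6 0) (.c (.v 0 1 0) (.c (.L (.c
  (.v 0 3 0) (.c (.v 0 6 1) (.c (.v 0 2 0) (.c (.v 0 1 0) .e))))) .e))))) (.c (.v 0 1 0)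
  .e))))) .e))))) (.c (.v 0 3 0) (.c (.v 0 1 0) (.c (.v 0 2 0) .e))))) (.c (.v 0 1 0) .e)))))
  .e))))) (.c (.f 0 0 139 139 0) .e))))) (.c (.v 0 2 0) (.c (.v 0 1 0) .e))))) .e))))) (.c (.v
  0 1 0) .e))))) .e))))) .e))))) (.c (.v 11 1 0) (.c (.f 5 6 1035 202 1) (.c (.v 9 2 0) .e)))))
  (.c (.R (.c (.v 4 4 1) (.c (.R (.c (.f 3 7 1091 209 0) (.c (.v 12 1 0) (.c (.R (.c (.v 4 5 1)
  (.c (.v 11 2 0) (.c (.v 13 1 0) (.c (.v 9 3 0) .e))))) (.c (.v 8 3 0) .e))))) (.c (.v 11 1 0)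
  (.c (.L (.c (.v 0 1 0) (.c (.v 0 2 0) (.c (.L (.c (.f 7 0 1616 1616 0) (.c (.v 0 3 0) (.c (.v
  0 1 0) (.c (.L (.c (.L (.c (.v 0 1 0) (.c (.v 0 4 1) (.c (.v 0 5 1) (.c (.L (.c (.v 0 2 0)
  (.c (.L (.c (.L (.c (.v 0 1 0) (.c (.R (.c (.L (.c (.v 0 2 0) (.c (.v 0 1 0) (.c (.R (.c (.v
  21 1 0) (.c (.R (.c (.R (.c (.v 23 1 0) (.c (.v 21 2 0) (.c (.R (.c (.v 6 10 0) (.c (.R (.c
  (.R (.c (.v 26 1 0) (.c (.R (.c (.v 25 2 0) (.c (.v 27 1 0) (.c (.v 23 3 0) (.c (.R (.c (.R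
  (.c (.v 29 1 0) (.c (.R (.c (.R (.c (.v 31 1 0) (.c (.v 29 2 0) (.c (.v 20 6 1) (.c (.v 27 3
  0) .e))))) (.c (.v 30 1 0) (.c (.v 20 6 0) (.c (.v 26 3 0) .e))))) (.c (.v 20 5 1) (.c (.v 17
  7 0) .e))))) (.c (.R (.c (.f 5 24 1224 1224 1) (.c (.v 29 1 0) (.c (.R (.c (.v 20 6 0) (.c
  (.f 19 25 1217 1217 0) (.c (.v 30 1 0) (.c (.v 15 8 1) .e))))) (.c (.v 27 2 0) .e))))) (.c
  (.v 8 11 0) (.c (.v 28 1 0) .e))))) .e))))) (.c (.v 22 3 0) (.c (.v 19 4 1) .e))))) (.c (.v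
  25 1 0) (.c (.v 10 8 1) (.c (.v 19 4 0) .e))))) (.c (.v 24 1 0) (.c (.R (.c (.v 3 11 2) (.c
  (.v 19 4 0) (.c (.R (.c (.v 0 14 0) (.c (.v 10 9 0) (.c (.v 26 1 0) (.c (.v 24 2 0) .e)))))
  (.c (.v 25 1 0) .e))))) .e))))) (.c (.R (.c (.v 1 12 1) (.c (.v 20 3 0) (.c (.R (.c (.v 3 11
  2) (.c (.v 19 4 0) (.c (.v 25 1 0) (.c (.v 18 4 1) .e))))) (.c (.v 24 1 0) .e))))) .e)))))
  (.c (.v 22 1 0) (.c (.f 8 17 643 153 0) (.c (.R (.c (.R (.c (.v 24 1 0) (.c (.v 20 3 0) (.c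
  (.R (.c (.v 3 11 2) (.c (.v 19 4 0) (.c (.v 25 1 0) (.c (.v 18 4 1) .e))))) (.c (.f 3 19 209
  1091 1) .e))))) (.c (.R (.c (.v 20 3 0) (.c (.v 24 1 0) (.c (.v 12 7 0) (.c (.v 22 2 0)
  .e))))) (.c (.f 15 18 90 531 0) (.c (.v 23 1 0) .e))))) .e))))) (.c (.R (.c (.v 6 8 2) (.c
  (.R (.c (.f 4 18 90 531 0) (.c (.v 23 1 0) (.c (.R (.c (.R (.c (.v 25 1 0) (.c (.v 21 3 0)
  (.c (.f 7 20 1553 1602 1) (.c (.R (.c (.v 0 14 0) (.c (.v 20 4 0) (.c (.v 19 4 1) (.c (.v 26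
  1 0) .e))))) .e))))) (.c (.v 22 2 0) (.c (.v 24 1 0) (.c (.R (.c (.R (.c (.v 26 1 0) (.c (.v
  20 4 0) (.c (.v 19 4 1) (.c (.v 17 5 1) .e))))) (.c (.v 14 6 1) (.c (.f 0 20 531 90 1) (.c
  (.v 25 1 0) .e))))) .e))))) (.c (.f 11 18 90 531 0) .e))))) (.c (.v 22 1 0) (.c (.R (.c (.v
  19 3 0) (.c (.f 3 18 90 531 0) (.c (.R (.c (.v 20 3 0) (.c (.R (.c (.R (.c (.v 26 1 0) (.c
  (.v 10 9 0) (.c (.R (.c (.R (.c (.v 28 1 0) (.c (.v 24 3 0) (.c (.v 26 2 0) (.c (.R (.c (.R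
  (.c (.v 30 1 0) (.c (.v 4 13 2) (.c (.f 5 25 1049 706 1) (.c (.v 28 2 0) .e))))) (.c (.v 23 4
  0) (.c (.R (.c (.R (.c (.v 31 1 0) (.c (.v 21 6 0) (.c (.R (.c (.v 30 2 0) (.c (.v 23 5 1)
  (.c (.v 32 1 0) (.c (.v 28 3 0) .e))))) (.c (.v 27 3 0) .e))))) (.c (.v 23 4 1) (.c (.v 30 1
  0) (.c (.R (.c (.v 27 3 0) (.c (.v 20 6 1) (.c (.v 29 2 0) (.c (.v 31 1 0) .e))))) .e)))))
  (.c (.v 29 1 0) .e))))) .e))))) (.c (.v 10 9 1) (.c (.v 27 1 0) (.c (.v 17 6 0) .e))))) (.c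
  (.v 17 5 1) .e))))) (.c (.v 25 1 0) (.c (.R (.c (.R (.c (.v 27 1 0) (.c (.v 10 9 1) (.c (.f
  19 22 531 90 0) (.c (.v 17 6 0) .e))))) (.c (.v 24 2 0) (.c (.v 26 1 0) (.c (.f 5 21 83 83 1)
  .e))))) (.c (.v 16 5 1) .e))))) (.c (.v 24 1 0) (.c (.v 22 2 0) .e))))) (.c (.v 23 1 0)
  .e))))) .e))))) (.c (.R (.c (.v 20 2 0) (.c (.R (.c (.L (.c (.L (.c (.v 0 1 0) (.c (.L (.c
  (.L (.c (.v 0 1 0) (.c (.v 0 2 0) (.c (.v 0 3 0) (.c (.L (.c (.L (.c (.v 0 1 0) (.c (.f 5 0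
  1217 1217 0) (.c (.L (.c (.f 19 0 1112 720 0) (.c (.v 0 6 0) (.c (.v 0 1 0) (.c (.v 0 9 1)
  .e))))) (.c (.v 0 2 0) .e))))) (.c (.v 0 5 1) (.c (.L (.c (.L (.c (.v 0 1 0) (.c (.v 0 6 0)
  (.c (.L (.c (.v 0 2 0) (.c (.L (.c (.L (.c (.v 0 1 0) (.c (.L (.c (.v 0 2 0) (.c (.v 0 1 0)
  (.c (.v 0 3 0) (.c (.v 0 6 1) .e))))) (.c (.L (.c (.L (.c (.v 0 1 0) (.c (.v 0 3 0) (.c (.v 0
  2 0) (.c (.v 0 5 1) .e))))) (.c (.v 0 3 0) (.c (.v 0 1 0) (.c (.v 0 6 0) .e))))) (.c (.v 0 4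
  1) .e))))) (.c (.v 0 1 0) (.c (.L (.c (.f 5 0 1616 1616 0) (.c (.v 0 2 0) (.c (.v 0 1 0) (.c
  (.v 0 13 2) .e))))) (.c (.v 0 4 0) .e))))) (.c (.v 0 1 0) (.c (.v 0 3 0) .e))))) (.c (.v 0 9
  1) .e))))) (.c (.v 0 5 1) (.c (.v 0 1 0) (.c (.v 0 9 0) .e))))) (.c (.v 0 1 0) .e)))))
  .e))))) (.c (.v 0 1 0) (.c (.v 0 3 0) (.c (.f 3 0 1665 1665 1) .e))))) (.c (.v 0 8 2) (.c (.L
  (.c (.L (.c (.v 0 1 0) (.c (.L (.c (.f 0 0 1224 1224 0) (.c (.v 0 1 0) (.c (.L (.c (.v 0 4 1)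
  (.c (.v 0 5 1) (.c (.v 0 1 0) (.c (.v 0 4 0) .e))))) (.c (.v 0 6 1) .e))))) (.c (.L (.c (.f 7
  0 1112 720 0) (.c (.L (.c (.v 0 4 1) (.c (.v 0 1 0) (.c (.v 0 14 0) (.c (.v 0 4 0) .e)))))
  (.c (.v 0 1 0) (.c (.v 0 3 0) .e))))) (.c (.v 0 2 0) .e))))) (.c (.f 11 0 1665 1665 1) (.c
  (.f 4 0 1665 1665 1) (.c (.v 0 1 0) .e))))) .e))))) (.c (.L (.c (.f 5 0 1672 1672 0) (.c (.v
  0 1 0) (.c (.v 0 2 0) (.c (.L (.c (.f 0 0 1665 1665 1) (.c (.f 19 0 643 153 0) (.c (.R (.c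
  (.v 27 1 0) (.c (.v 0 13 3) (.c (.R (.c (.v 6 11 2) (.c (.f 4 23 209 1091 0) (.c (.v 28 1 0)
  (.c (.v 20 5 0) .e))))) (.c (.R (.c (.R (.c (.v 29 1 0) (.c (.v 25 3 0) (.c (.R (.c (.R (.c
  (.v 31 1 0) (.c (.v 1 15 2) (.c (.v 29 2 0) (.c (.f 5 26 153 643 1) .e))))) (.c (.v 1 15 1)
  (.c (.v 30 1 0) (.c (.R (.c (.R (.c (.v 32 1 0) (.c (.v 22 6 0) (.c (.v 28 3 0) (.c (.R (.c
  (.v 31 2 0) (.c (.v 22 6 1) (.c (.v 29 3 0) (.c (.v 33 1 0) .e))))) .e))))) (.c (.v 22 5 1)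
  (.c (.R (.c (.v 28 3 0) (.c (.v 17 8 1) (.c (.v 32 1 0) (.c (.v 30 2 0) .e))))) (.c (.v 31 1
  0) .e))))) .e))))) (.c (.v 27 2 0) .e))))) (.c (.v 24 3 0) (.c (.v 20 5 0) (.c (.v 28 1 0)
  .e))))) .e))))) (.c (.v 0 1 0) .e))))) .e))))) (.c (.v 0 1 0) (.c (.L (.c (.f 8 0 202 1035 1)
  (.c (.L (.c (.f 15 0 1665 1665 1) (.c (.v 0 1 0) (.c (.R (.c (.v 27 1 0) (.c (.v 0 13 3) (.c
  (.R (.c (.v 6 11 2) (.c (.f 4 23 209 1091 0) (.c (.v 28 1 0) (.c (.v 20 5 0) .e))))) (.c (.R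
  (.c (.v 2 14 0) (.c (.v 24 3 0) (.c (.v 20 5 0) (.c (.v 28 1 0) .e))))) .e))))) (.c (.L (.c
  (.v 0 7 0) (.c (.v 0 2 0) (.c (.v 0 3 0) (.c (.v 0 1 0) .e))))) .e))))) (.c (.v 0 12 3) (.c
  (.v 0 1 0) .e))))) .e))))) (.c (.v 23 1 0) (.c (.f 0 18 90 531 0) (.c (.f 19 18 90 531 0)
  .e))))) (.c (.f 5 17 538 538 1) (.c (.v 22 1 0) .e))))) .e))))) (.c (.v 0 3 0) .e))))) (.c
  (.v 15 3 0) (.c (.v 17 2 0) (.c (.v 19 1 0) .e))))) (.c (.v 0 4 1) (.c (.L (.c (.L (.c (.v 0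
  1 0) (.c (.v 0 3 0) (.c (.v 0 5 1) (.c (.v 0 2 0) .e))))) (.c (.v 0 3 0) (.c (.f 3 0 209 1091
  1) (.c (.v 0 1 0) .e))))) .e))))) (.c (.v 0 1 0) (.c (.v 0 4 0) (.c (.L (.c (.f 5 0 720 1112
  0) (.c (.v 0 2 0) (.c (.L (.c (.f 0 0 209 1091 1) (.c (.R (.c (.R (.c (.v 21 1 0) (.c (.R (.c
  (.v 0 12 0) (.c (.v 22 1 0) (.c (.f 8 17 643 153 0) (.c (.R (.c (.v 0 12 1) (.c (.R (.c (.v
  20 3 0) (.c (.v 24 1 0) (.c (.v 12 7 0) (.c (.v 22 2 0) .e))))) (.c (.f 15 18 90 531 0) (.c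
  (.v 23 1 0) .e))))) .e))))) (.c (.R (.c (.v 6 8 2) (.c (.R (.c (.f 4 18 90 531 0) (.c (.v 23
  1 0) (.c (.R (.c (.R (.c (.v 25 1 0) (.c (.v 21 3 0) (.c (.f 7 20 1553 1602 1) (.c (.R (.c
  (.R (.c (.v 27 1 0) (.c (.R (.c (.v 4 12 2) (.c (.v 28 1 0) (.c (.v 6 11 2) (.c (.v 14 8 0)
  .e))))) (.c (.R (.c (.v 4 13 0) (.c (.v 6 11 2) (.c (.v 28 1 0) (.c (.v 24 3 0) .e))))) (.c
  (.v 25 2 0) .e))))) (.c (.v 20 4 0) (.c (.v 19 4 1) (.c (.v 26 1 0) .e))))) .e))))) (.c (.v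
  22 2 0) (.c (.v 24 1 0) (.c (.R (.c (.R (.c (.v 26 1 0) (.c (.v 20 4 0) (.c (.v 19 4 1) (.c
  (.v 17 5 1) .e))))) (.c (.v 14 6 1) (.c (.f 0 20 531 90 1) (.c (.v 25 1 0) .e))))) .e)))))
  (.c (.f 11 18 90 531 0) .e))))) (.c (.v 22 1 0) (.c (.R (.c (.v 19 3 0) (.c (.f 3 18 90 531
  0) (.c (.R (.c (.v 20 3 0) (.c (.R (.c (.R (.c (.v 26 1 0) (.c (.v 10 9 0) (.c (.R (.c (.R
  (.c (.v 28 1 0) (.c (.v 24 3 0) (.c (.v 26 2 0) (.c (.v 1 13 3) .e))))) (.c (.v 10 9 1) (.c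
  (.v 27 1 0) (.c (.v 17 6 0) .e))))) (.c (.v 17 5 1) .e))))) (.c (.v 25 1 0) (.c (.R (.c (.R
  (.c (.v 27 1 0) (.c (.v 10 9 1) (.c (.f 19 22 531 90 0) (.c (.v 17 6 0) .e))))) (.c (.v 24 2
  0) (.c (.v 26 1 0) (.c (.f 5 21 83 83 1) .e))))) (.c (.v 16 5 1) .e))))) (.c (.v 24 1 0) (.c
  (.v 22 2 0) .e))))) (.c (.v 23 1 0) .e))))) .e))))) (.c (.R (.c (.v 20 2 0) (.c (.R (.c (.v 0
  12 1) (.c (.v 23 1 0) (.c (.f 0 18 90 531 0) (.c (.f 19 18 90 531 0) .e))))) (.c (.f 5 17 538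
  538 1) (.c (.v 22 1 0) .e))))) .e))))) (.c (.v 16 3 0) (.c (.v 18 2 0) (.c (.v 20 1 0)
  .e))))) (.c (.v 0 1 0) (.c (.f 19 0 83 83 0) .e))))) (.c (.v 0 1 0) .e))))) .e))))) (.c (.v 0
  3 0) (.c (.v 0 1 0) .e))))) .e))))) (.c (.v 0 4 0) (.c (.v 0 4 1) (.c (.v 0 1 0) .e)))))
  .e))))) (.c (.R (.c (.L (.c (.f 0 0 720 1112 0) (.c (.v 0 8 0) (.c (.L (.c (.L (.c (.v 0 1 0)
  (.c (.v 0 4 1) (.c (.v 0 5 1) (.c (.L (.c (.f 3 0 664 664 0) (.c (.L (.c (.v 0 4 1) (.c (.v 0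
  1 0) (.c (.v 0 4 0) (.c (.L (.c (.v 0 6 0) (.c (.v 0 2 0) (.c (.L (.c (.v 0 6 1) (.c (.R (.c
  (.v 21 1 0) (.c (.R (.c (.v 0 12 0) (.c (.v 22 1 0) (.c (.f 8 17 643 153 0) (.c (.R (.c (.v 0
  12 1) (.c (.R (.c (.v 20 3 0) (.c (.v 24 1 0) (.c (.v 12 7 0) (.c (.v 22 2 0) .e))))) (.c (.f
  15 18 90 531 0) (.c (.v 23 1 0) .e))))) .e))))) (.c (.R (.c (.v 6 8 2) (.c (.R (.c (.f 4 18
  90 531 0) (.c (.v 23 1 0) (.c (.R (.c (.R (.c (.v 25 1 0) (.c (.v 21 3 0) (.c (.f 7 20 1553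
  1602 1) (.c (.R (.c (.R (.c (.v 27 1 0) (.c (.v 7 10 2) (.c (.R (.c (.v 4 13 0) (.c (.v 6 11
  2) (.c (.v 28 1 0) (.c (.v 24 3 0) .e))))) (.c (.v 25 2 0) .e))))) (.c (.v 20 4 0) (.c (.v 19
  4 1) (.c (.v 26 1 0) .e))))) .e))))) (.c (.v 22 2 0) (.c (.v 24 1 0) (.c (.R (.c (.R (.c (.v
  26 1 0) (.c (.v 20 4 0) (.c (.v 19 4 1) (.c (.v 17 5 1) .e))))) (.c (.v 14 6 1) (.c (.f 0 20
  531 90 1) (.c (.v 25 1 0) .e))))) .e))))) (.c (.f 11 18 90 531 0) .e))))) (.c (.v 22 1 0) (.c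
  (.R (.c (.v 19 3 0) (.c (.f 3 18 90 531 0) (.c (.R (.c (.v 20 3 0) (.c (.R (.c (.R (.c (.v 26
  1 0) (.c (.v 10 9 0) (.c (.R (.c (.R (.c (.v 28 1 0) (.c (.v 24 3 0) (.c (.v 26 2 0) (.c (.v
  1 13 3) .e))))) (.c (.v 10 9 1) (.c (.v 27 1 0) (.c (.v 17 6 0) .e))))) (.c (.v 17 5 1)
  .e))))) (.c (.v 25 1 0) (.c (.R (.c (.R (.c (.v 27 1 0) (.c (.v 10 9 1) (.c (.f 19 22 531 90
  0) (.c (.v 17 6 0) .e))))) (.c (.v 24 2 0) (.c (.v 26 1 0) (.c (.f 5 21 83 83 1) .e))))) (.c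
  (.v 16 5 1) .e))))) (.c (.v 24 1 0) (.c (.v 22 2 0) .e))))) (.c (.v 23 1 0) .e))))) .e)))))
  (.c (.R (.c (.v 20 2 0) (.c (.R (.c (.v 0 12 1) (.c (.v 23 1 0) (.c (.f 0 18 90 531 0) (.c
  (.f 19 18 90 531 0) .e))))) (.c (.f 5 17 538 538 1) (.c (.v 22 1 0) .e))))) .e))))) (.c (.v 0
  1 0) (.c (.f 0 0 83 83 0) .e))))) (.c (.v 0 1 0) .e))))) .e))))) (.c (.v 0 3 0) (.c (.v 0 1
  0) .e))))) .e))))) (.c (.v 0 4 0) (.c (.v 0 1 0) (.c (.L (.c (.L (.c (.v 0 1 0) (.c (.L (.c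
  (.v 0 4 1) (.c (.v 0 1 0) (.c (.v 0 4 0) (.c (.L (.c (.v 0 6 0) (.c (.L (.c (.v 0 3 0) (.c
  (.v 0 1 0) (.c (.R (.c (.v 21 1 0) (.c (.R (.c (.v 0 12 0) (.c (.v 22 1 0) (.c (.f 8 17 643
  153 0) (.c (.R (.c (.v 1 11 2) (.c (.R (.c (.v 20 3 0) (.c (.v 24 1 0) (.c (.v 12 7 0) (.c
  (.v 22 2 0) .e))))) (.c (.f 15 18 90 531 0) (.c (.v 23 1 0) .e))))) .e))))) (.c (.L (.c (.v 0
  4 0) (.c (.L (.c (.L (.c (.v 0 1 0) (.c (.f 19 0 1665 1665 0) (.c (.v 0 10 2) (.c (.f 0 0 643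
  153 1) .e))))) (.c (.v 0 1 0) (.c (.v 0 2 0) (.c (.f 5 0 139 139 0) .e))))) (.c (.v 0 1 0)
  (.c (.L (.c (.v 0 4 1) (.c (.L (.c (.f 3 0 643 153 1) (.c (.v 0 1 0) (.c (.v 0 3 0) (.c (.L
  (.c (.v 0 5 1) (.c (.v 0 2 0) (.c (.v 0 3 0) (.c (.v 0 1 0) .e))))) .e))))) (.c (.L (.c (.L
  (.c (.v 0 1 0) (.c (.L (.c (.v 0 12 0) (.c (.v 0 1 0) (.c (.v 0 12 2) (.c (.f 8 0 1091 209 1)
  .e))))) (.c (.L (.c (.v 0 2 0) (.c (.v 0 12 2) (.c (.v 0 1 0) (.c (.f 5 0 90 531 0) .e)))))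
  (.c (.R (.c (.v 10 8 2) (.c (.R (.c (.f 4 22 90 531 0) (.c (.v 27 1 0) (.c (.R (.c (.R (.c
  (.v 29 1 0) (.c (.v 25 3 0) (.c (.f 7 24 1553 1602 1) (.c (.R (.c (.v 9 11 1) (.c (.v 24 4 0)
  (.c (.v 23 4 1) (.c (.v 30 1 0) .e))))) .e))))) (.c (.v 26 2 0) (.c (.v 28 1 0) (.c (.R (.c
  (.R (.c (.v 30 1 0) (.c (.v 24 4 0) (.c (.v 23 4 1) (.c (.v 21 5 1) .e))))) (.c (.v 18 6 1)
  (.c (.f 0 24 531 90 1) (.c (.v 29 1 0) .e))))) .e))))) (.c (.f 11 22 90 531 0) .e))))) (.c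
  (.v 26 1 0) (.c (.R (.c (.v 23 3 0) (.c (.f 3 22 90 531 0) (.c (.R (.c (.v 24 3 0) (.c (.R
  (.c (.R (.c (.v 30 1 0) (.c (.v 14 9 0) (.c (.R (.c (.v 9 12 0) (.c (.v 14 9 1) (.c (.v 31 1
  0) (.c (.v 21 6 0) .e))))) (.c (.v 21 5 1) .e))))) (.c (.v 29 1 0) (.c (.R (.c (.R (.c (.v 31
  1 0) (.c (.v 14 9 1) (.c (.f 19 26 531 90 0) (.c (.v 21 6 0) .e))))) (.c (.v 28 2 0) (.c (.v
  30 1 0) (.c (.f 5 25 83 83 1) .e))))) (.c (.v 20 5 1) .e))))) (.c (.v 28 1 0) (.c (.v 26 2 0)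
  .e))))) (.c (.v 27 1 0) .e))))) .e))))) .e))))) (.c (.v 0 3 0) (.c (.v 0 1 0) (.c (.v 0 2 0)
  .e))))) (.c (.v 0 1 0) .e))))) .e))))) (.c (.R (.c (.v 20 2 0) (.c (.R (.c (.v 1 11 2) (.c
  (.v 23 1 0) (.c (.f 0 18 90 531 0) (.c (.f 19 18 90 531 0) .e))))) (.c (.f 5 17 538 538 1)
  (.c (.v 22 1 0) .e))))) .e))))) (.c (.v 0 2 0) .e))))) (.c (.v 0 4 1) (.c (.v 0 1 0) .e)))))
  .e))))) (.c (.v 0 3 0) (.c (.f 7 0 153 643 0) .e))))) (.c (.v 0 8 2) (.c (.v 0 2 0) (.c (.v 0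
  1 0) .e))))) .e))))) (.c (.v 0 1 0) .e))))) (.c (.v 9 3 0) (.c (.v 11 2 0) (.c (.v 13 1 0)
  .e))))) .e))))) .e))))) (.c (.v 10 1 0) .e))))) .e))))) (.c (.v 8 1 0) (.c (.v 1 4 1) .e)))))
  (.c (.v 1 4 0) .e))))) (.c (.f 7 1 1049 706 1) (.c (.v 2 3 0) .e)))))

/-- certificate -/
def t23 : T := (.R (.c (.f 8 1 1112 720 1) (.c (.R (.c (.v 0 4 1) (.c (.v 7 1 0) (.c (.f 0 2
  1546 1546 1) (.c (.v 1 4 0) .e))))) (.c (.v 6 1 0) (.c (.v 2 3 0) .e)))))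

/-- certificate -/
def t24 : T := (.R (.c (.R (.c (.v 7 1 0) (.c (.v 5 2 0) (.c (.f 1 2 538 538 0) (.c (.L (.c (.v
  0 1 0) (.c (.L (.c (.v 0 2 0) (.c (.v 0 1 0) (.c (.f 1 0 531 90 1) (.c (.R (.c (.f 2 5 720
  1112 1) (.c (.L (.c (.v 0 6 1) (.c (.f 2 0 706 1049 0) (.c (.L (.c (.v 0 4 0) (.c (.L (.c (.v
  0 4 1) (.c (.v 0 1 0) (.c (.v 0 6 0) (.c (.L (.c (.L (.c (.v 0 1 0) (.c (.v 0 4 1) (.c (.v 0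
  4 0) (.c (.L (.c (.v 0 2 0) (.c (.v 0 6 0) (.c (.L (.c (.R (.c (.R (.c (.v 19 1 0) (.c (.R
  (.c (.v 18 2 0) (.c (.v 20 1 0) (.c (.R (.c (.R (.c (.v 22 1 0) (.c (.R (.c (.R (.c (.v 24 1
  0) (.c (.v 22 2 0) (.c (.v 20 3 0) (.c (.v 13 6 1) .e))))) (.c (.v 23 1 0) (.c (.v 19 3 0)
  (.c (.v 13 6 0) .e))))) (.c (.v 10 7 0) (.c (.v 13 5 1) .e))))) (.c (.R (.c (.f 7 17 1672
  1672 1) (.c (.v 22 1 0) (.c (.v 20 2 0) (.c (.R (.c (.v 13 6 0) (.c (.f 21 18 1665 1665 0)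
  (.c (.v 7 9 0) (.c (.v 23 1 0) .e))))) .e))))) (.c (.v 21 1 0) (.c (.v 0 11 1) .e))))) (.c
  (.v 16 3 0) .e))))) (.c (.v 12 4 1) (.c (.v 15 3 0) .e))))) (.c (.v 18 1 0) (.c (.v 12 4 0)
  (.c (.v 2 8 2) .e))))) (.c (.v 0 6 1) (.c (.v 0 1 0) (.c (.f 2 0 90 531 0) .e))))) (.c (.v 0
  1 0) .e))))) .e))))) (.c (.f 5 0 643 153 0) (.c (.v 0 3 0) (.c (.v 0 1 0) .e))))) .e))))) (.c
  (.v 0 1 0) (.c (.L (.c (.v 0 7 1) (.c (.f 1 0 1217 1217 1) (.c (.v 0 2 0) (.c (.v 0 1 0)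
  .e))))) .e))))) (.c (.v 0 1 0) .e))))) (.c (.R (.c (.R (.c (.v 12 1 0) (.c (.v 5 4 1) (.c (.v
  2 6 0) (.c (.R (.c (.f 5 8 664 664 1) (.c (.R (.c (.v 7 4 1) (.c (.v 14 1 0) (.c (.v 8 4 0)
  (.c (.R (.c (.v 5 6 0) (.c (.v 13 2 0) (.c (.R (.c (.v 5 6 1) (.c (.L (.c (.L (.c (.v 0 1 0)
  (.c (.L (.c (.L (.c (.v 0 1 0) (.c (.v 0 2 0) (.c (.L (.c (.L (.c (.v 0 1 0) (.c (.f 7 0 1665
  1665 0) (.c (.v 0 2 0) (.c (.L (.c (.f 21 0 664 664 0) (.c (.v 0 6 0) (.c (.v 0 9 0) (.c (.v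
  0 1 0) .e))))) .e))))) (.c (.L (.c (.L (.c (.v 0 1 0) (.c (.L (.c (.v 0 2 0) (.c (.v 0 1 0)
  (.c (.v 0 3 0) (.c (.v 0 6 1) .e))))) (.c (.v 0 3 0) (.c (.v 0 6 0) .e))))) (.c (.v 0 1 0)
  (.c (.v 0 7 0) (.c (.v 0 5 1) .e))))) (.c (.v 0 1 0) (.c (.v 0 11 1) .e))))) (.c (.v 0 3 0)
  .e))))) (.c (.v 0 1 0) (.c (.v 0 4 1) (.c (.v 0 3 0) .e))))) (.c (.v 0 4 0) (.c (.v 0 8 2)
  .e))))) (.c (.f 2 0 706 1049 0) (.c (.L (.c (.v 0 4 0) (.c (.L (.c (.v 0 4 1) (.c (.v 0 1 0)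
  (.c (.v 0 6 0) (.c (.L (.c (.v 0 10 2) (.c (.f 5 0 643 153 0) (.c (.v 0 3 0) (.c (.v 0 1 0)
  .e))))) .e))))) (.c (.v 0 1 0) (.c (.L (.c (.v 0 9 2) (.c (.f 1 0 1217 1217 1) (.c (.v 0 2 0)
  (.c (.v 0 1 0) .e))))) .e))))) (.c (.v 0 1 0) .e))))) (.c (.v 16 1 0) (.c (.f 2 11 83 83 1)
  .e))))) (.c (.v 15 1 0) .e))))) .e))))) (.c (.v 9 3 0) (.c (.v 13 1 0) .e))))) .e))))) (.c
  (.v 5 4 0) (.c (.v 11 1 0) (.c (.R (.c (.f 1 7 1224 1224 0) (.c (.R (.c (.R (.c (.v 14 1 0)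
  (.c (.R (.c (.v 13 2 0) (.c (.v 15 1 0) (.c (.v 0 8 1) (.c (.f 1 10 83 83 0) .e))))) (.c (.v
  8 4 0) (.c (.R (.c (.v 5 6 0) (.c (.R (.c (.v 12 3 0) (.c (.v 16 1 0) (.c (.R (.c (.v 11 4 0)
  (.c (.R (.c (.v 0 9 2) (.c (.v 18 1 0) (.c (.v 16 2 0) (.c (.v 8 6 0) .e))))) (.c (.v 17 1 0)
  (.c (.v 10 4 1) .e))))) (.c (.f 5 11 202 1035 1) .e))))) (.c (.v 8 4 1) (.c (.v 15 1 0)
  .e))))) .e))))) (.c (.v 13 1 0) (.c (.v 0 7 1) (.c (.f 2 8 139 139 1) .e))))) (.c (.v 10 2 0)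
  (.c (.v 12 1 0) .e))))) .e))))) (.c (.v 10 1 0) .e))))) .e))))) (.c (.L (.c (.L (.c (.v 0 1
  0) (.c (.v 0 3 0) (.c (.v 0 2 0) (.c (.v 0 5 1) .e))))) (.c (.L (.c (.v 0 3 0) (.c (.v 0 1 0)
  (.c (.f 5 0 1546 1546 0) (.c (.L (.c (.v 0 4 0) (.c (.L (.c (.L (.c (.v 0 1 0) (.c (.f 2 0
  1217 1217 0) (.c (.v 0 6 1) (.c (.L (.c (.L (.c (.v 0 1 0) (.c (.v 0 3 0) (.c (.v 0 8 1) (.c
  (.v 0 2 0) .e))))) (.c (.L (.c (.v 0 3 0) (.c (.v 0 1 0) (.c (.v 0 4 1) (.c (.L (.c (.v 0 3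
  0) (.c (.v 0 2 0) (.c (.R (.c (.f 2 12 720 1112 1) (.c (.R (.c (.R (.c (.v 19 1 0) (.c (.R
  (.c (.v 18 2 0) (.c (.v 20 1 0) (.c (.R (.c (.R (.c (.v 22 1 0) (.c (.R (.c (.R (.c (.v 24 1
  0) (.c (.v 22 2 0) (.c (.v 20 3 0) (.c (.v 13 6 1) .e))))) (.c (.v 23 1 0) (.c (.v 19 3 0)
  (.c (.v 13 6 0) .e))))) (.c (.v 10 7 0) (.c (.v 13 5 1) .e))))) (.c (.R (.c (.f 7 17 1672
  1672 1) (.c (.v 22 1 0) (.c (.v 20 2 0) (.c (.R (.c (.v 13 6 0) (.c (.f 21 18 1665 1665 0)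
  (.c (.R (.c (.R (.c (.v 25 1 0) (.c (.v 17 5 0) (.c (.v 7 9 2) (.c (.v 11 8 0) .e))))) (.c
  (.R (.c (.v 17 5 0) (.c (.v 25 1 0) (.c (.v 5 11 0) (.c (.v 21 3 0) .e))))) (.c (.v 24 1 0)
  (.c (.v 2 11 2) .e))))) (.c (.v 23 1 0) .e))))) .e))))) (.c (.v 21 1 0) (.c (.R (.c (.v 13 5
  1) (.c (.R (.c (.v 13 6 0) (.c (.v 23 1 0) (.c (.R (.c (.R (.c (.v 25 1 0) (.c (.v 18 4 1)
  (.c (.v 7 9 2) (.c (.v 19 4 0) .e))))) (.c (.f 5 19 1091 209 1) (.c (.v 24 1 0) (.c (.v 20 3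
  0) .e))))) (.c (.R (.c (.v 12 7 0) (.c (.v 22 2 0) (.c (.v 20 3 0) (.c (.v 24 1 0) .e)))))
  .e))))) (.c (.v 4 9 2) (.c (.v 22 1 0) .e))))) .e))))) (.c (.v 16 3 0) .e))))) (.c (.v 12 4
  1) (.c (.v 15 3 0) .e))))) (.c (.v 18 1 0) (.c (.v 12 4 0) (.c (.v 0 10 0) .e))))) (.c (.R
  (.c (.R (.c (.v 19 1 0) (.c (.v 12 4 1) (.c (.v 9 6 0) (.c (.R (.c (.f 5 15 664 664 1) (.c
  (.R (.c (.v 14 4 1) (.c (.v 21 1 0) (.c (.v 15 4 0) (.c (.R (.c (.v 12 6 0) (.c (.v 20 2 0)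
  (.c (.R (.c (.v 12 6 1) (.c (.v 3 10 2) (.c (.v 23 1 0) (.c (.f 2 18 83 83 1) .e))))) (.c (.v
  22 1 0) .e))))) .e))))) (.c (.v 16 3 0) (.c (.v 20 1 0) .e))))) .e))))) (.c (.v 12 4 0) (.c
  (.v 18 1 0) (.c (.R (.c (.f 1 14 1224 1224 0) (.c (.R (.c (.R (.c (.v 21 1 0) (.c (.R (.c (.v
  20 2 0) (.c (.v 22 1 0) (.c (.v 4 9 2) (.c (.f 1 17 83 83 0) .e))))) (.c (.v 15 4 0) (.c (.R
  (.c (.v 12 6 0) (.c (.R (.c (.v 19 3 0) (.c (.v 23 1 0) (.c (.v 3 10 2) (.c (.f 5 18 202 1035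
  1) .e))))) (.c (.v 15 4 1) (.c (.v 22 1 0) .e))))) .e))))) (.c (.v 20 1 0) (.c (.R (.c (.v 15
  4 0) (.c (.v 5 8 2) (.c (.v 21 1 0) (.c (.R (.c (.v 15 4 1) (.c (.v 18 3 0) (.c (.R (.c (.R
  (.c (.v 24 1 0) (.c (.v 3 11 1) (.c (.R (.c (.v 23 2 0) (.c (.R (.c (.v 10 9 0) (.c (.v 26 1
  0) (.c (.f 21 21 538 538 0) (.c (.v 16 6 0) .e))))) (.c (.v 25 1 0) (.c (.f 7 20 90 531 1)
  .e))))) (.c (.R (.c (.v 13 7 0) (.c (.v 16 5 1) (.c (.R (.c (.v 22 3 0) (.c (.v 16 6 0) (.c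
  (.v 26 1 0) (.c (.R (.c (.v 23 3 0) (.c (.v 16 6 1) (.c (.v 25 2 0) (.c (.v 27 1 0) .e)))))
  .e))))) (.c (.v 25 1 0) .e))))) .e))))) (.c (.v 19 3 0) (.c (.v 23 1 0) (.c (.v 21 2 0)
  .e))))) (.c (.v 22 1 0) .e))))) .e))))) (.c (.f 2 15 139 139 1) .e))))) (.c (.v 17 2 0) (.c
  (.v 19 1 0) .e))))) .e))))) (.c (.v 17 1 0) .e))))) (.c (.v 0 1 0) .e))))) .e))))) (.c (.v 0
  4 0) (.c (.v 0 1 0) .e))))) .e))))) (.c (.v 0 1 0) (.c (.v 0 6 0) (.c (.v 0 2 0) .e))))) (.c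
  (.v 0 4 1) (.c (.v 0 1 0) .e))))) .e))))) (.c (.v 0 1 0) (.c (.v 0 4 1) .e))))) (.c (.v 0 4
  0) .e))))) .e))))) (.c (.v 6 1 0) (.c (.R (.c (.R (.c (.v 8 1 0) (.c (.v 4 3 0) (.c (.f 5 3
  1553 1602 1) (.c (.R (.c (.R (.c (.v 10 1 0) (.c (.R (.c (.f 2 6 1224 1224 1) (.c (.v 11 1 0)
  (.c (.v 0 6 1) (.c (.L (.c (.v 0 1 0) (.c (.L (.c (.v 0 2 0) (.c (.v 0 1 0) (.c (.f 1 0 531
  90 1) (.c (.R (.c (.R (.c (.v 15 1 0) (.c (.v 11 3 0) (.c (.v 8 4 1) (.c (.R (.c (.v 14 2 0)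
  (.c (.v 12 3 0) (.c (.L (.c (.L (.c (.v 0 1 0) (.c (.L (.c (.L (.c (.v 0 1 0) (.c (.v 0 2 0)
  (.c (.L (.c (.L (.c (.v 0 1 0) (.c (.f 7 0 1665 1665 0) (.c (.v 0 2 0) (.c (.L (.c (.f 21 0
  664 664 0) (.c (.v 0 6 0) (.c (.L (.c (.L (.c (.v 0 1 0) (.c (.v 0 5 0) (.c (.v 0 11 0) (.c
  (.v 0 3 0) .e))))) (.c (.L (.c (.v 0 5 0) (.c (.v 0 1 0) (.c (.v 0 9 2) (.c (.v 0 8 0)
  .e))))) (.c (.v 0 1 0) (.c (.v 0 11 2) .e))))) (.c (.v 0 1 0) .e))))) .e))))) (.c (.L (.c (.L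
  (.c (.v 0 1 0) (.c (.L (.c (.v 0 2 0) (.c (.v 0 1 0) (.c (.v 0 3 0) (.c (.v 0 6 1) .e)))))
  (.c (.v 0 3 0) (.c (.v 0 6 0) .e))))) (.c (.v 0 1 0) (.c (.v 0 7 0) (.c (.v 0 5 1) .e)))))
  (.c (.v 0 1 0) (.c (.L (.c (.L (.c (.v 0 1 0) (.c (.v 0 6 0) (.c (.L (.c (.f 5 0 1112 720 0)
  (.c (.L (.c (.v 0 4 1) (.c (.v 0 1 0) (.c (.v 0 9 2) (.c (.v 0 4 0) .e))))) (.c (.v 0 1 0)
  (.c (.v 0 3 0) .e))))) (.c (.R (.c (.R (.c (.v 25 1 0) (.c (.v 16 5 1) (.c (.v 12 7 1) (.c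
  (.R (.c (.R (.c (.v 27 1 0) (.c (.v 16 6 1) (.c (.v 23 3 0) (.c (.v 25 2 0) .e))))) (.c (.v
  16 6 0) (.c (.v 22 3 0) (.c (.v 26 1 0) .e))))) .e))))) (.c (.v 2 11 2) (.c (.v 24 1 0) (.c
  (.R (.c (.f 7 20 664 664 1) (.c (.v 0 13 1) (.c (.v 23 2 0) (.c (.v 25 1 0) .e))))) .e)))))
  .e))))) (.c (.v 0 5 1) (.c (.v 0 9 2) (.c (.v 0 1 0) .e))))) .e))))) (.c (.v 0 3 0) .e)))))
  (.c (.v 0 1 0) (.c (.v 0 4 1) (.c (.v 0 3 0) .e))))) (.c (.v 0 4 0) (.c (.v 0 10 0) .e)))))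
  (.c (.f 2 0 706 1049 0) (.c (.L (.c (.v 0 4 0) (.c (.L (.c (.v 0 4 1) (.c (.v 0 1 0) (.c (.v
  0 6 0) (.c (.L (.c (.L (.c (.v 0 1 0) (.c (.v 0 4 1) (.c (.v 0 4 0) (.c (.R (.c (.R (.c (.v
  23 1 0) (.c (.v 14 5 1) (.c (.v 10 7 1) (.c (.R (.c (.R (.c (.v 25 1 0) (.c (.v 14 6 1) (.c
  (.v 21 3 0) (.c (.v 23 2 0) .e))))) (.c (.v 14 6 0) (.c (.v 20 3 0) (.c (.v 24 1 0) .e)))))
  .e))))) (.c (.R (.c (.v 14 5 1) (.c (.v 23 1 0) (.c (.v 1 12 0) (.c (.R (.c (.v 14 6 0) (.c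
  (.R (.c (.v 13 7 0) (.c (.v 25 1 0) (.c (.v 21 3 0) (.c (.v 23 2 0) .e))))) (.c (.v 0 13 0)
  (.c (.v 24 1 0) .e))))) .e))))) (.c (.v 22 1 0) (.c (.R (.c (.f 7 18 664 664 1) (.c (.R (.c
  (.v 14 6 0) (.c (.v 24 1 0) (.c (.v 0 13 0) (.c (.f 21 19 153 643 0) .e))))) (.c (.v 21 2 0)
  (.c (.v 23 1 0) .e))))) .e))))) .e))))) (.c (.f 5 0 643 153 0) (.c (.v 0 3 0) (.c (.v 0 1 0)
  .e))))) .e))))) (.c (.v 0 1 0) (.c (.L (.c (.L (.c (.v 0 1 0) (.c (.L (.c (.L (.c (.v 0 1 0)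
  (.c (.v 0 2 0) (.c (.v 0 9 2) (.c (.f 1 0 90 531 1) .e))))) (.c (.v 0 1 0) (.c (.v 0 4 0) (.c
  (.R (.c (.R (.c (.v 23 1 0) (.c (.v 14 5 1) (.c (.v 10 7 1) (.c (.R (.c (.R (.c (.v 25 1 0)
  (.c (.v 14 6 1) (.c (.v 21 3 0) (.c (.v 23 2 0) .e))))) (.c (.v 14 6 0) (.c (.v 20 3 0) (.c
  (.v 24 1 0) .e))))) .e))))) (.c (.R (.c (.v 14 5 1) (.c (.v 23 1 0) (.c (.v 2 11 1) (.c (.R
  (.c (.v 14 6 0) (.c (.R (.c (.v 13 7 0) (.c (.v 25 1 0) (.c (.v 21 3 0) (.c (.v 23 2 0)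
  .e))))) (.c (.v 0 13 0) (.c (.v 24 1 0) .e))))) .e))))) (.c (.v 22 1 0) (.c (.R (.c (.f 7 18
  664 664 1) (.c (.R (.c (.v 14 6 0) (.c (.v 24 1 0) (.c (.v 0 13 0) (.c (.f 21 19 153 643 0)
  .e))))) (.c (.v 21 2 0) (.c (.v 23 1 0) .e))))) .e))))) .e))))) (.c (.L (.c (.v 0 8 2) (.c
  (.v 0 4 0) (.c (.v 0 1 0) (.c (.L (.c (.v 0 3 0) (.c (.v 0 4 1) (.c (.L (.c (.v 0 3 0) (.c
  (.L (.c (.v 0 11 1) (.c (.v 0 1 0) (.c (.L (.c (.L (.c (.v 0 1 0) (.c (.v 0 9 0) (.c (.f 21 0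
  1553 1602 0) (.c (.v 0 6 0) .e))))) (.c (.v 0 2 0) (.c (.v 0 1 0) (.c (.f 7 0 83 83 0)
  .e))))) (.c (.L (.c (.v 0 5 1) (.c (.v 0 7 0) (.c (.L (.c (.v 0 6 0) (.c (.v 0 3 0) (.c (.v 0
  1 0) (.c (.L (.c (.v 0 6 1) (.c (.v 0 3 0) (.c (.v 0 2 0) (.c (.v 0 1 0) .e))))) .e))))) (.c
  (.v 0 1 0) .e))))) .e))))) (.c (.v 0 1 0) (.c (.v 0 2 0) .e))))) (.c (.v 0 1 0) .e)))))
  .e))))) (.c (.f 2 0 153 643 0) .e))))) (.c (.f 1 0 1217 1217 1) (.c (.v 0 2 0) (.c (.v 0 1 0)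
  .e))))) .e))))) (.c (.v 0 1 0) .e))))) (.c (.v 16 1 0) .e))))) .e))))) (.c (.R (.c (.v 11 3
  0) (.c (.v 15 1 0) (.c (.v 0 8 1) (.c (.v 13 2 0) .e))))) (.c (.v 8 4 0) (.c (.v 14 1 0)
  .e))))) .e))))) (.c (.v 0 4 1) (.c (.v 0 4 0) .e))))) .e))))) (.c (.v 0 6 0) (.c (.v 8 2 0)
  .e))))) (.c (.v 3 4 0) (.c (.v 2 4 1) (.c (.v 9 1 0) .e))))) .e))))) (.c (.L (.c (.v 0 1 0)
  (.c (.R (.c (.v 5 3 0) (.c (.v 9 1 0) (.c (.v 7 2 0) (.c (.v 0 5 1) .e))))) (.c (.v 0 4 1)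
  (.c (.v 0 4 0) .e))))) (.c (.v 7 1 0) (.c (.v 0 4 1) .e))))) (.c (.v 0 4 0) .e)))))

/-- certificate -/
def t25 : T := (.R (.c (.v 6 1 0) (.c (.f 2 1 1665 1665 1) (.c (.f 1 1 1553 1602 1) (.c (.v 0 4
  0) .e)))))

/-- certificate -/
def t26 : T := (.R (.c (.f 7 1 1112 720 1) (.c (.R (.c (.v 0 4 1) (.c (.v 7 1 0) (.c (.R (.c
  (.f 2 3 538 538 0) (.c (.v 6 2 0) (.c (.v 8 1 0) (.c (.L (.c (.v 0 1 0) (.c (.v 0 2 0) (.c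
  (.f 2 0 664 664 1) (.c (.R (.c (.f 1 5 153 643 0) (.c (.L (.c (.f 4 0 720 1112 0) (.c (.R (.c
  (.v 6 4 0) (.c (.v 12 1 0) (.c (.R (.c (.v 6 4 1) (.c (.R (.c (.R (.c (.v 15 1 0) (.c (.R (.c
  (.v 14 2 0) (.c (.v 16 1 0) (.c (.f 9 11 1546 1546 1) (.c (.R (.c (.R (.c (.v 18 1 0) (.c (.R
  (.c (.R (.c (.v 20 1 0) (.c (.v 18 2 0) (.c (.R (.c (.R (.c (.v 22 1 0) (.c (.f 9 17 1665
  1665 1) (.c (.v 20 2 0) (.c (.R (.c (.f 23 18 1672 1672 0) (.c (.v 13 6 0) (.c (.L (.c (.v 0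
  12 2) (.c (.v 0 1 0) (.c (.v 0 4 0) (.c (.L (.c (.v 0 3 0) (.c (.v 0 2 0) (.c (.L (.c (.L (.c
  (.v 0 1 0) (.c (.v 0 14 0) (.c (.L (.c (.v 0 2 0) (.c (.v 0 15 0) (.c (.v 0 1 0) (.c (.f 3 0
  139 139 1) .e))))) (.c (.L (.c (.v 0 6 0) (.c (.f 19 0 139 139 1) (.c (.L (.c (.v 0 3 0) (.c
  (.L (.c (.v 0 4 0) (.c (.v 0 1 0) (.c (.L (.c (.v 0 9 2) (.c (.v 0 2 0) (.c (.v 0 1 0) (.c
  (.f 2 0 1049 706 1) .e))))) (.c (.v 0 4 1) .e))))) (.c (.v 0 1 0) (.c (.f 7 0 90 531 0)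
  .e))))) (.c (.v 0 1 0) .e))))) .e))))) (.c (.L (.c (.v 0 14 0) (.c (.v 0 1 0) (.c (.v 0 10 0)
  (.c (.L (.c (.f 7 0 139 139 1) (.c (.L (.c (.L (.c (.v 0 1 0) (.c (.L (.c (.v 0 2 0) (.c (.v
  0 1 0) (.c (.v 0 14 0) (.c (.f 9 0 202 1035 0) .e))))) (.c (.v 0 13 0) (.c (.v 0 5 1) .e)))))
  (.c (.v 0 1 0) (.c (.v 0 3 0) (.c (.v 0 2 0) .e))))) (.c (.v 0 3 0) (.c (.v 0 1 0) .e)))))
  .e))))) (.c (.v 0 1 0) (.c (.L (.c (.L (.c (.v 0 1 0) (.c (.f 4 0 139 139 1) (.c (.L (.c (.L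
  (.c (.v 0 1 0) (.c (.L (.c (.v 0 8 1) (.c (.v 0 1 0) (.c (.v 0 9 2) (.c (.L (.c (.v 0 8 2)
  (.c (.v 0 7 0) (.c (.f 12 0 153 643 1) (.c (.v 0 1 0) .e))))) .e))))) (.c (.v 0 2 0) (.c (.v
  0 3 0) .e))))) (.c (.L (.c (.f 8 0 90 531 1) (.c (.v 0 1 0) (.c (.L (.c (.v 0 9 2) (.c (.v 0
  2 0) (.c (.v 0 1 0) (.c (.L (.c (.f 1 0 664 664 0) (.c (.L (.c (.v 0 4 0) (.c (.v 0 1 0) (.c
  (.L (.c (.v 0 4 1) (.c (.L (.c (.L (.c (.v 0 1 0) (.c (.L (.c (.v 0 2 0) (.c (.v 0 1 0) (.c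
  (.f 9 0 1546 1546 0) (.c (.L (.c (.v 0 13 2) (.c (.f 23 0 706 1049 0) (.c (.v 0 6 0) (.c (.v
  0 1 0) .e))))) .e))))) (.c (.L (.c (.v 0 19 0) (.c (.L (.c (.v 0 3 0) (.c (.v 0 1 0) (.c (.L
  (.c (.v 0 3 0) (.c (.v 0 2 0) (.c (.v 0 1 0) (.c (.v 0 6 1) .e))))) (.c (.v 0 6 0) .e)))))
  (.c (.v 0 1 0) (.c (.v 0 5 1) .e))))) (.c (.v 0 7 0) .e))))) (.c (.v 0 1 0) (.c (.v 0 2 0)
  (.c (.v 0 3 0) .e))))) (.c (.v 0 1 0) (.c (.v 0 3 0) .e))))) (.c (.L (.c (.v 0 8 1) (.c (.v 0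
  2 0) (.c (.v 0 3 0) (.c (.v 0 1 0) .e))))) .e))))) (.c (.f 4 0 531 90 0) (.c (.v 0 1 0)
  .e))))) .e))))) (.c (.v 0 5 0) .e))))) (.c (.v 0 1 0) (.c (.L (.c (.v 0 3 0) (.c (.v 0 5 0)
  (.c (.L (.c (.v 0 3 0) (.c (.L (.c (.L (.c (.v 0 1 0) (.c (.v 0 8 0) (.c (.L (.c (.L (.c (.v
  0 1 0) (.c (.v 0 3 0) (.c (.v 0 2 0) (.c (.L (.c (.L (.c (.v 0 1 0) (.c (.L (.c (.f 23 0 1224
  1224 0) (.c (.v 0 1 0) (.c (.v 0 6 0) (.c (.v 0 10 0) .e))))) (.c (.f 9 0 1049 706 0) (.c (.v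
  0 2 0) .e))))) (.c (.v 0 4 0) (.c (.L (.c (.L (.c (.v 0 1 0) (.c (.v 0 6 0) (.c (.L (.c (.v 0
  2 0) (.c (.v 0 5 1) (.c (.v 0 1 0) (.c (.v 0 3 0) .e))))) (.c (.v 0 3 0) .e))))) (.c (.v 0 4
  1) (.c (.v 0 1 0) (.c (.L (.c (.v 0 3 0) (.c (.v 0 6 1) (.c (.v 0 2 0) (.c (.v 0 1 0) .e)))))
  .e))))) (.c (.v 0 1 0) .e))))) .e))))) (.c (.L (.c (.v 0 3 0) (.c (.v 0 1 0) (.c (.f 7 0 1546
  1546 0) (.c (.L (.c (.v 0 4 0) (.c (.L (.c (.v 0 12 0) (.c (.v 0 1 0) (.c (.f 2 0 1665 1665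
  1) (.c (.v 0 2 0) .e))))) (.c (.v 0 4 1) (.c (.v 0 1 0) .e))))) .e))))) (.c (.v 0 1 0) (.c
  (.v 0 6 0) .e))))) (.c (.v 0 5 1) .e))))) (.c (.v 0 1 0) (.c (.L (.c (.L (.c (.v 0 1 0) (.c
  (.L (.c (.v 0 13 0) (.c (.v 0 1 0) (.c (.L (.c (.v 0 3 0) (.c (.L (.c (.v 0 3 0) (.c (.v 0 1
  0) (.c (.v 0 2 0) (.c (.L (.c (.v 0 13 0) (.c (.L (.c (.v 0 14 2) (.c (.v 0 1 0) (.c (.f 9 0
  1035 202 0) (.c (.v 0 2 0) .e))))) (.c (.L (.c (.v 0 5 1) (.c (.L (.c (.v 0 6 0) (.c (.v 0 1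
  0) (.c (.L (.c (.v 0 6 1) (.c (.v 0 2 0) (.c (.v 0 1 0) (.c (.v 0 3 0) .e))))) (.c (.v 0 3 0)
  .e))))) (.c (.v 0 1 0) (.c (.L (.c (.L (.c (.v 0 1 0) (.c (.v 0 16 0) (.c (.L (.c (.v 0 8 1)
  (.c (.L (.c (.v 0 9 0) (.c (.v 0 1 0) (.c (.L (.c (.v 0 9 1) (.c (.v 0 2 0) (.c (.v 0 1 0)
  (.c (.v 0 10 2) .e))))) (.c (.f 15 0 90 531 1) .e))))) (.c (.v 0 1 0) (.c (.v 0 9 2) .e)))))
  (.c (.L (.c (.v 0 2 0) (.c (.v 0 16 1) (.c (.v 0 9 2) (.c (.v 0 1 0) .e))))) .e))))) (.c (.v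
  0 3 0) (.c (.v 0 2 0) (.c (.v 0 1 0) .e))))) .e))))) (.c (.v 0 1 0) .e))))) .e))))) (.c (.v 0
  1 0) (.c (.v 0 5 0) .e))))) (.c (.L (.c (.v 0 11 0) (.c (.L (.c (.v 0 12 0) (.c (.v 0 1 0)
  (.c (.L (.c (.v 0 13 0) (.c (.f 4 0 1091 209 0) (.c (.v 0 1 0) (.c (.L (.c (.v 0 4 0) (.c (.L
  (.c (.v 0 4 1) (.c (.v 0 1 0) (.c (.v 0 3 0) (.c (.L (.c (.v 0 15 1) (.c (.v 0 2 0) (.c (.v 0
  3 0) (.c (.v 0 1 0) .e))))) .e))))) (.c (.L (.c (.L (.c (.v 0 1 0) (.c (.v 0 6 0) (.c (.L (.c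
  (.v 0 2 0) (.c (.v 0 7 1) (.c (.v 0 1 0) (.c (.v 0 9 2) .e))))) (.c (.L (.c (.v 0 14 2) (.c
  (.v 0 7 0) (.c (.v 0 9 2) (.c (.v 0 1 0) .e))))) .e))))) (.c (.v 0 3 0) (.c (.v 0 1 0) (.c
  (.v 0 2 0) .e))))) (.c (.v 0 1 0) .e))))) .e))))) (.c (.v 0 2 0) .e))))) (.c (.v 0 5 0) (.c
  (.v 0 1 0) .e))))) .e))))) (.c (.f 23 0 1553 1602 0) (.c (.v 0 6 0) .e))))) (.c (.v 0 2 0)
  (.c (.v 0 1 0) (.c (.f 9 0 83 83 0) .e))))) (.c (.L (.c (.v 0 5 1) (.c (.L (.c (.v 0 8 1) (.c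
  (.v 0 1 0) (.c (.v 0 3 0) (.c (.v 0 2 0) .e))))) (.c (.L (.c (.v 0 6 0) (.c (.v 0 3 0) (.c
  (.v 0 1 0) (.c (.L (.c (.v 0 6 1) (.c (.v 0 3 0) (.c (.v 0 2 0) (.c (.v 0 1 0) .e)))))
  .e))))) (.c (.v 0 1 0) .e))))) .e))))) (.c (.v 0 1 0) (.c (.v 0 2 0) .e))))) (.c (.v 0 1 0)
  .e))))) .e))))) (.c (.f 23 0 153 643 0) .e))))) (.c (.f 9 0 643 153 0) (.c (.v 0 2 0) (.c (.v
  0 1 0) .e))))) .e))))) (.c (.v 0 1 0) .e))))) .e))))) (.c (.v 23 1 0) .e))))) .e))))) (.c (.R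
  (.c (.R (.c (.v 23 1 0) (.c (.R (.c (.v 22 2 0) (.c (.v 24 1 0) (.c (.v 20 3 0) (.c (.v 13 6
  1) .e))))) (.c (.v 19 3 0) (.c (.v 13 6 0) .e))))) (.c (.v 22 1 0) (.c (.R (.c (.v 19 3 0)
  (.c (.v 21 2 0) (.c (.v 23 1 0) (.c (.R (.c (.R (.c (.v 25 1 0) (.c (.f 12 20 1616 1616 0)
  (.c (.R (.c (.R (.c (.v 27 1 0) (.c (.R (.c (.R (.c (.v 29 1 0) (.c (.v 27 2 0) (.c (.f 9 24
  1553 1602 1) (.c (.R (.c (.f 23 25 1616 1616 0) (.c (.R (.c (.R (.c (.v 32 1 0) (.c (.R (.c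
  (.v 31 2 0) (.c (.v 33 1 0) (.c (.v 15 9 2) (.c (.v 29 3 0) .e))))) (.c (.v 24 5 0) (.c (.v
  28 3 0) .e))))) (.c (.v 31 1 0) (.c (.v 19 7 0) (.c (.R (.c (.v 28 3 0) (.c (.v 30 2 0) (.c
  (.v 17 8 1) (.c (.v 32 1 0) .e))))) .e))))) (.c (.v 20 6 0) (.c (.v 30 1 0) .e))))) .e)))))
  (.c (.v 28 1 0) (.c (.v 2 14 0) (.c (.v 22 4 0) .e))))) (.c (.v 25 2 0) (.c (.v 23 3 0)
  .e))))) (.c (.f 19 21 1035 202 0) (.c (.v 26 1 0) (.c (.v 1 12 3) .e))))) (.c (.R (.c (.v 24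
  2 0) (.c (.v 10 9 0) (.c (.v 1 12 3) (.c (.v 26 1 0) .e))))) .e))))) (.c (.R (.c (.R (.c (.v
  26 1 0) (.c (.R (.c (.v 25 2 0) (.c (.v 27 1 0) (.c (.v 7 10 2) (.c (.v 10 9 1) .e))))) (.c
  (.f 15 21 1035 202 0) (.c (.v 10 9 0) .e))))) (.c (.v 25 1 0) (.c (.v 7 9 2) (.c (.v 10 8 1)
  .e))))) (.c (.v 6 10 0) (.c (.v 24 1 0) .e))))) .e))))) (.c (.v 13 5 1) .e))))) (.c (.v 21 1
  0) (.c (.R (.c (.R (.c (.v 23 1 0) (.c (.v 13 6 0) (.c (.R (.c (.f 7 19 1112 720 1) (.c (.R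
  (.c (.v 18 4 1) (.c (.v 25 1 0) (.c (.R (.c (.f 2 21 538 538 0) (.c (.v 24 2 0) (.c (.v 26 1
  0) (.c (.v 1 12 3) .e))))) (.c (.v 19 4 0) .e))))) (.c (.v 24 1 0) (.c (.v 20 3 0) .e)))))
  (.c (.R (.c (.v 22 2 0) (.c (.R (.c (.R (.c (.v 26 1 0) (.c (.R (.c (.v 25 2 0) (.c (.v 27 1
  0) (.c (.v 16 6 1) (.c (.v 23 3 0) .e))))) (.c (.v 19 4 1) (.c (.R (.c (.R (.c (.v 28 1 0)
  (.c (.v 24 3 0) (.c (.v 19 5 1) (.c (.v 26 2 0) .e))))) (.c (.v 23 3 0) (.c (.v 17 6 0) (.c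
  (.v 27 1 0) .e))))) .e))))) (.c (.v 25 1 0) (.c (.v 19 4 0) (.c (.R (.c (.f 9 21 720 1112 1)
  (.c (.v 24 2 0) (.c (.R (.c (.v 17 6 0) (.c (.L (.c (.L (.c (.v 0 1 0) (.c (.v 0 12 2) (.c
  (.v 0 4 1) (.c (.v 0 3 0) .e))))) (.c (.v 0 1 0) (.c (.v 0 4 0) (.c (.R (.c (.v 17 7 0) (.c
  (.v 29 1 0) (.c (.v 0 14 3) (.c (.L (.c (.v 0 3 0) (.c (.v 0 2 0) (.c (.R (.c (.v 23 5 0) (.c
  (.R (.c (.R (.c (.v 33 1 0) (.c (.R (.c (.v 32 2 0) (.c (.v 34 1 0) (.c (.R (.c (.v 13 12 0)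
  (.c (.f 23 30 706 1049 0) (.c (.v 35 1 0) (.c (.v 25 6 0) .e))))) (.c (.f 9 29 202 1035 1)
  .e))))) (.c (.R (.c (.R (.c (.v 35 1 0) (.c (.v 13 12 0) (.c (.v 33 2 0) (.c (.R (.c (.v 20 8
  2) (.c (.f 1 31 202 1035 0) (.c (.R (.c (.R (.c (.v 38 1 0) (.c (.v 31 4 1) (.c (.R (.c (.v
  37 2 0) (.c (.L (.c (.L (.c (.v 0 1 0) (.c (.v 0 14 0) (.c (.L (.c (.v 0 2 0) (.c (.L (.c (.L
  (.c (.v 0 1 0) (.c (.v 0 14 3) (.c (.v 0 8 2) (.c (.v 0 4 0) .e))))) (.c (.v 0 1 0) (.c (.v 0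
  9 0) (.c (.f 1 0 139 139 0) .e))))) (.c (.v 0 1 0) (.c (.f 3 0 139 139 1) .e))))) (.c (.v 0
  20 3) .e))))) (.c (.v 0 13 0) (.c (.v 0 1 0) (.c (.L (.c (.v 0 20 3) (.c (.f 9 0 643 153 0)
  (.c (.v 0 2 0) (.c (.v 0 1 0) .e))))) .e))))) (.c (.v 39 1 0) (.c (.v 35 3 0) .e))))) (.c (.v
  34 3 0) .e))))) (.c (.v 31 4 0) (.c (.v 37 1 0) (.c (.v 22 8 1) .e))))) (.c (.v 36 1 0)
  .e))))) .e))))) (.c (.R (.c (.v 13 12 0) (.c (.v 35 1 0) (.c (.v 1 16 4) (.c (.v 25 6 0)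
  .e))))) (.c (.v 34 1 0) (.c (.v 25 5 1) .e))))) (.c (.R (.c (.v 21 7 1) (.c (.R (.c (.v 31 3
  0) (.c (.v 35 1 0) (.c (.v 25 6 0) (.c (.R (.c (.v 32 3 0) (.c (.v 34 2 0) (.c (.v 25 6 1)
  (.c (.v 36 1 0) .e))))) .e))))) (.c (.v 25 5 1) (.c (.v 34 1 0) .e))))) .e))))) (.c (.v 32 1
  0) (.c (.v 28 3 0) (.c (.v 30 2 0) .e))))) (.c (.v 27 3 0) (.c (.v 31 1 0) .e))))) (.c (.v 0
  1 0) .e))))) .e))))) .e))))) (.c (.v 27 1 0) (.c (.f 23 22 209 1091 0) .e))))) (.c (.v 26 1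
  0) .e))))) .e))))) (.c (.v 20 3 0) (.c (.v 24 1 0) .e))))) .e))))) (.c (.v 13 5 1) (.c (.v 2
  11 0) (.c (.v 22 1 0) .e))))) .e))))) (.c (.v 16 3 0) .e))))) (.c (.v 19 1 0) (.c (.v 11 5 0)
  (.c (.v 15 3 0) .e))))) (.c (.R (.c (.v 0 10 1) (.c (.v 11 5 0) (.c (.v 19 1 0) (.c (.f 8 14
  1217 1217 0) .e))))) (.c (.R (.c (.v 17 2 0) (.c (.v 15 3 0) (.c (.R (.c (.v 0 10 2) (.c (.R
  (.c (.f 12 16 706 1049 0) (.c (.v 21 1 0) (.c (.v 3 10 0) (.c (.R (.c (.f 19 17 153 643 0)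
  (.c (.R (.c (.R (.c (.v 24 1 0) (.c (.v 11 7 1) (.c (.v 18 4 0) (.c (.R (.c (.v 14 6 1) (.c
  (.R (.c (.v 22 3 0) (.c (.v 26 1 0) (.c (.v 16 6 0) (.c (.R (.c (.v 23 3 0) (.c (.v 25 2 0)
  (.c (.v 18 5 1) (.c (.v 27 1 0) .e))))) .e))))) (.c (.v 18 4 1) (.c (.v 25 1 0) .e)))))
  .e))))) (.c (.v 23 1 0) (.c (.v 19 3 0) (.c (.v 21 2 0) .e))))) (.c (.R (.c (.v 1 12 0) (.c
  (.v 19 3 0) (.c (.v 23 1 0) (.c (.f 7 18 83 83 1) .e))))) (.c (.v 22 1 0) .e))))) .e))))) (.c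
  (.v 20 1 0) (.c (.R (.c (.f 9 16 664 664 1) (.c (.R (.c (.f 4 17 153 643 0) (.c (.v 22 1 0)
  (.c (.R (.c (.v 1 12 0) (.c (.R (.c (.v 0 13 0) (.c (.v 24 1 0) (.c (.v 22 2 0) (.c (.v 20 3
  0) .e))))) (.c (.v 23 1 0) (.c (.R (.c (.v 16 5 0) (.c (.v 20 3 0) (.c (.R (.c (.L (.c (.L
  (.c (.v 0 1 0) (.c (.L (.c (.v 0 2 0) (.c (.v 0 1 0) (.c (.L (.c (.L (.c (.v 0 1 0) (.c (.L
  (.c (.L (.c (.v 0 1 0) (.c (.v 0 2 0) (.c (.v 0 3 0) (.c (.v 0 6 1) .e))))) (.c (.v 0 1 0)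
  (.c (.v 0 3 0) (.c (.v 0 6 0) .e))))) (.c (.v 0 7 1) (.c (.v 0 5 1) .e))))) (.c (.L (.c (.f 9
  0 1672 1672 0) (.c (.v 0 1 0) (.c (.v 0 2 0) (.c (.L (.c (.v 0 6 0) (.c (.f 23 0 643 153 0)
  (.c (.v 0 12 1) (.c (.v 0 1 0) .e))))) .e))))) (.c (.v 0 1 0) (.c (.L (.c (.v 0 5 1) (.c (.L
  (.c (.v 0 6 0) (.c (.v 0 1 0) (.c (.v 0 12 1) (.c (.L (.c (.v 0 7 0) (.c (.v 0 2 0) (.c (.v 0
  3 0) (.c (.v 0 1 0) .e))))) .e))))) (.c (.L (.c (.L (.c (.v 0 1 0) (.c (.f 1 0 1665 1665 0)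
  (.c (.v 0 8 2) (.c (.L (.c (.v 0 8 1) (.c (.v 0 4 0) (.c (.v 0 9 2) (.c (.v 0 1 0) .e)))))
  .e))))) (.c (.v 0 12 1) (.c (.v 0 1 0) (.c (.v 0 2 0) .e))))) (.c (.v 0 1 0) .e))))) .e)))))
  (.c (.v 0 3 0) .e))))) (.c (.v 0 4 1) (.c (.v 0 3 0) .e))))) (.c (.v 0 1 0) (.c (.v 0 4 0)
  (.c (.v 0 13 2) .e))))) (.c (.v 21 3 0) (.c (.v 25 1 0) (.c (.v 23 2 0) .e))))) (.c (.v 24 1
  0) .e))))) .e))))) (.c (.f 23 17 153 643 0) .e))))) (.c (.v 19 2 0) (.c (.v 21 1 0) .e)))))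
  .e))))) (.c (.v 19 1 0) .e))))) .e))))) (.c (.f 23 12 1602 1553 0) (.c (.v 7 6 0) (.c (.v 17
  1 0) .e))))) .e))))) (.c (.R (.c (.v 3 7 1) (.c (.R (.c (.v 13 3 0) (.c (.v 17 1 0) (.c (.R
  (.c (.v 14 3 0) (.c (.v 16 2 0) (.c (.v 18 1 0) (.c (.v 7 6 1) .e))))) (.c (.v 7 6 0) .e)))))
  (.c (.v 16 1 0) (.c (.v 7 5 1) .e))))) (.c (.R (.c (.R (.c (.v 17 1 0) (.c (.f 3 12 1602 1553
  0) (.c (.R (.c (.v 2 8 2) (.c (.f 1 13 1546 1546 0) (.c (.v 18 1 0) (.c (.R (.c (.v 1 9 2)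
  (.c (.v 13 4 0) (.c (.v 4 8 1) (.c (.v 19 1 0) .e))))) .e))))) (.c (.v 15 2 0) .e))))) (.c
  (.R (.c (.R (.c (.v 18 1 0) (.c (.f 7 13 1217 1217 1) (.c (.R (.c (.v 0 10 1) (.c (.v 12 4 1)
  (.c (.v 19 1 0) (.c (.v 13 4 0) .e))))) (.c (.v 14 3 0) .e))))) (.c (.v 17 1 0) (.c (.v 7 6
  0) (.c (.R (.c (.v 14 3 0) (.c (.v 16 2 0) (.c (.v 6 7 0) (.c (.v 18 1 0) .e))))) .e))))) (.c
  (.v 7 5 1) (.c (.v 16 1 0) .e))))) .e))))) (.c (.v 14 1 0) (.c (.v 12 2 0) (.c (.v 10 3 0)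
  .e))))) (.c (.v 13 1 0) (.c (.v 9 3 0) .e))))) (.c (.R (.c (.L (.c (.L (.c (.v 0 1 0) (.c (.L
  (.c (.v 0 2 0) (.c (.v 0 1 0) (.c (.L (.c (.L (.c (.v 0 1 0) (.c (.L (.c (.L (.c (.v 0 1 0)
  (.c (.v 0 2 0) (.c (.v 0 3 0) (.c (.v 0 6 1) .e))))) (.c (.v 0 1 0) (.c (.v 0 3 0) (.c (.v 0
  6 0) .e))))) (.c (.v 0 7 1) (.c (.v 0 5 1) .e))))) (.c (.L (.c (.f 9 0 1672 1672 0) (.c (.v 0
  1 0) (.c (.v 0 2 0) (.c (.L (.c (.v 0 6 0) (.c (.f 23 0 643 153 0) (.c (.L (.c (.L (.c (.v 0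
  1 0) (.c (.v 0 5 0) (.c (.v 0 10 1) (.c (.f 8 0 1091 209 1) .e))))) (.c (.L (.c (.v 0 5 0)
  (.c (.v 0 1 0) (.c (.L (.c (.R (.c (.v 23 1 0) (.c (.R (.c (.v 6 10 0) (.c (.v 24 1 0) (.c
  (.R (.c (.f 8 20 202 1035 0) (.c (.R (.c (.v 3 12 1) (.c (.v 26 1 0) (.c (.v 24 2 0) (.c (.R
  (.c (.v 3 13 0) (.c (.f 4 22 643 153 1) (.c (.v 16 6 1) (.c (.v 27 1 0) .e))))) .e))))) (.c
  (.v 25 1 0) (.c (.f 15 20 202 1035 0) .e))))) (.c (.R (.c (.v 21 3 0) (.c (.R (.c (.v 22 3 0)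
  (.c (.v 26 1 0) (.c (.R (.c (.v 3 13 0) (.c (.R (.c (.v 2 14 0) (.c (.v 28 1 0) (.c (.v 26 2
  0) (.c (.f 9 23 139 139 1) .e))))) (.c (.v 27 1 0) (.c (.v 18 5 1) .e))))) (.c (.v 24 2 0)
  .e))))) (.c (.f 7 20 202 1035 0) (.c (.v 25 1 0) .e))))) .e))))) (.c (.R (.c (.R (.c (.v 25 1
  0) (.c (.R (.c (.v 10 9 0) (.c (.v 26 1 0) (.c (.R (.c (.v 11 8 2) (.c (.R (.c (.v 24 3 0)
  (.c (.v 28 1 0) (.c (.v 26 2 0) (.c (.R (.c (.v 9 10 2) (.c (.v 1 15 0) (.c (.v 13 9 0) (.c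
  (.v 29 1 0) .e))))) .e))))) (.c (.v 27 1 0) (.c (.v 21 4 0) .e))))) (.c (.f 1 21 706 1049 0)
  .e))))) (.c (.v 23 2 0) (.c (.f 3 20 202 1035 0) .e))))) (.c (.f 12 19 531 90 0) (.c (.v 24 1
  0) (.c (.R (.c (.R (.c (.v 26 1 0) (.c (.R (.c (.R (.c (.v 28 1 0) (.c (.v 26 2 0) (.c (.v 10
  9 2) (.c (.f 2 23 1112 720 0) .e))))) (.c (.v 27 1 0) (.c (.v 21 4 0) (.c (.v 20 4 1) .e)))))
  (.c (.v 22 3 0) (.c (.f 7 21 153 643 1) .e))))) (.c (.f 19 20 202 1035 0) (.c (.v 15 6 0) (.c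
  (.v 25 1 0) .e))))) .e))))) (.c (.R (.c (.v 22 2 0) (.c (.f 9 19 706 1049 1) (.c (.R (.c (.R
  (.c (.v 26 1 0) (.c (.R (.c (.R (.c (.v 28 1 0) (.c (.v 26 2 0) (.c (.v 10 9 2) (.c (.R (.c
  (.f 4 24 720 1112 1) (.c (.R (.c (.R (.c (.v 31 1 0) (.c (.R (.c (.v 30 2 0) (.c (.v 32 1 0)
  (.c (.R (.c (.R (.c (.v 34 1 0) (.c (.R (.c (.R (.c (.v 36 1 0) (.c (.v 34 2 0) (.c (.v 32 3
  0) (.c (.v 25 6 1) .e))))) (.c (.v 35 1 0) (.c (.v 31 3 0) (.c (.v 25 6 0) .e))))) (.c (.R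
  (.c (.v 33 2 0) (.c (.v 31 3 0) (.c (.v 35 1 0) (.c (.v 11 13 0) .e))))) (.c (.v 25 5 1)
  .e))))) (.c (.R (.c (.f 9 29 1672 1672 1) (.c (.v 34 1 0) (.c (.v 32 2 0) (.c (.R (.c (.v 25
  6 0) (.c (.f 23 30 1665 1665 0) (.c (.v 9 13 2) (.c (.v 35 1 0) .e))))) .e))))) (.c (.v 33 1
  0) (.c (.v 21 7 0) .e))))) (.c (.v 28 3 0) .e))))) (.c (.v 24 4 1) (.c (.v 27 3 0) .e)))))
  (.c (.v 30 1 0) (.c (.v 24 4 0) (.c (.R (.c (.v 27 3 0) (.c (.v 29 2 0) (.c (.v 16 8 1) (.c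
  (.v 31 1 0) .e))))) .e))))) (.c (.f 1 24 90 531 0) (.c (.v 29 1 0) .e))))) .e))))) (.c (.v 27
  1 0) (.c (.f 8 22 153 643 0) (.c (.v 19 5 0) .e))))) (.c (.R (.c (.v 25 2 0) (.c (.R (.c (.v
  10 9 2) (.c (.v 28 1 0) (.c (.v 13 8 1) (.c (.R (.c (.f 12 24 90 531 0) (.c (.v 17 7 0) (.c
  (.v 13 8 2) (.c (.v 29 1 0) .e))))) .e))))) (.c (.v 27 1 0) (.c (.v 23 3 0) .e))))) (.c (.R
  (.c (.R (.c (.v 28 1 0) (.c (.R (.c (.R (.c (.v 30 1 0) (.c (.v 28 2 0) (.c (.R (.c (.f 23 26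
  720 1112 0) (.c (.R (.c (.R (.c (.v 33 1 0) (.c (.R (.c (.v 32 2 0) (.c (.v 34 1 0) (.c (.v
  30 3 0) (.c (.R (.c (.R (.c (.v 36 1 0) (.c (.R (.c (.R (.c (.v 38 1 0) (.c (.v 36 2 0) (.c
  (.v 27 6 1) (.c (.v 34 3 0) .e))))) (.c (.v 37 1 0) (.c (.v 27 6 0) (.c (.v 33 3 0) .e)))))
  (.c (.v 27 5 1) (.c (.R (.c (.v 35 2 0) (.c (.v 33 3 0) (.c (.R (.c (.R (.c (.v 39 1 0) (.c
  (.R (.c (.R (.c (.v 41 1 0) (.c (.v 39 2 0) (.c (.v 24 9 1) (.c (.v 21 10 2) .e))))) (.c (.v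
  40 1 0) (.c (.v 24 9 0) (.c (.f 15 35 153 643 0) .e))))) (.c (.v 24 8 1) (.c (.v 21 9 2)
  .e))))) (.c (.v 8 16 0) (.c (.v 38 1 0) (.c (.R (.c (.v 21 9 2) (.c (.v 8 16 1) (.c (.v 37 2
  0) (.c (.v 39 1 0) .e))))) .e))))) (.c (.v 37 1 0) .e))))) .e))))) (.c (.R (.c (.f 9 31 1224
  1224 1) (.c (.v 36 1 0) (.c (.v 8 14 2) (.c (.v 34 2 0) .e))))) (.c (.v 11 13 0) (.c (.v 35 1
  0) .e))))) .e))))) (.c (.v 29 3 0) (.c (.v 25 5 0) .e))))) (.c (.v 32 1 0) (.c (.v 8 13 0)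
  (.c (.R (.c (.v 25 5 0) (.c (.R (.c (.R (.c (.v 35 1 0) (.c (.f 4 30 1217 1217 1) (.c (.v 11
  13 0) (.c (.R (.c (.R (.c (.v 37 1 0) (.c (.v 33 3 0) (.c (.R (.c (.R (.c (.v 39 1 0) (.c (.v
  26 7 1) (.c (.v 37 2 0) (.c (.v 21 9 2) .e))))) (.c (.v 28 6 0) (.c (.v 38 1 0) (.c (.R (.c
  (.v 21 9 2) (.c (.v 27 7 0) (.c (.v 11 14 2) (.c (.v 39 1 0) .e))))) .e))))) (.c (.v 35 2 0)
  .e))))) (.c (.R (.c (.v 33 3 0) (.c (.v 37 1 0) (.c (.v 30 4 1) (.c (.R (.c (.v 34 3 0) (.c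
  (.v 36 2 0) (.c (.v 9 15 1) (.c (.v 38 1 0) .e))))) .e))))) (.c (.v 30 4 0) (.c (.v 36 1 0)
  .e))))) .e))))) (.c (.v 34 1 0) (.c (.v 12 12 0) (.c (.v 32 2 0) .e))))) (.c (.v 13 11 0) (.c
  (.v 33 1 0) .e))))) .e))))) (.c (.v 31 1 0) (.c (.v 21 6 0) .e))))) (.c (.f 9 25 209 1091 1)
  .e))))) (.c (.v 29 1 0) (.c (.R (.c (.R (.c (.v 31 1 0) (.c (.R (.c (.f 7 27 1672 1672 1) (.c
  (.v 32 1 0) (.c (.v 28 3 0) (.c (.R (.c (.v 26 4 1) (.c (.R (.c (.f 2 29 1602 1553 0) (.c (.v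
  34 1 0) (.c (.v 12 12 0) (.c (.v 32 2 0) .e))))) (.c (.v 27 4 0) (.c (.v 33 1 0) .e)))))
  .e))))) (.c (.R (.c (.v 30 2 0) (.c (.v 28 3 0) (.c (.v 32 1 0) (.c (.R (.c (.R (.c (.v 34 1
  0) (.c (.v 27 4 1) (.c (.R (.c (.R (.c (.v 36 1 0) (.c (.v 27 5 1) (.c (.v 34 2 0) (.c (.v 32
  3 0) .e))))) (.c (.v 25 6 0) (.c (.v 35 1 0) (.c (.v 31 3 0) .e))))) (.c (.R (.c (.v 33 2 0)
  (.c (.v 24 6 1) (.c (.v 31 3 0) (.c (.v 35 1 0) .e))))) .e))))) (.c (.v 27 4 0) (.c (.R (.c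
  (.f 9 29 1112 720 1) (.c (.R (.c (.v 25 6 0) (.c (.v 35 1 0) (.c (.f 23 30 1049 706 0) (.c
  (.v 17 10 0) .e))))) (.c (.v 34 1 0) (.c (.v 32 2 0) .e))))) (.c (.v 33 1 0) .e))))) .e)))))
  (.c (.v 21 6 0) .e))))) (.c (.v 16 8 0) (.c (.v 30 1 0) (.c (.v 21 5 1) .e))))) (.c (.R (.c
  (.R (.c (.v 31 1 0) (.c (.v 27 3 0) (.c (.v 21 6 0) (.c (.R (.c (.v 30 2 0) (.c (.v 28 3 0)
  (.c (.v 21 6 1) (.c (.v 32 1 0) .e))))) .e))))) (.c (.R (.c (.v 27 3 0) (.c (.v 31 1 0) (.c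
  (.v 16 8 1) (.c (.v 29 2 0) .e))))) (.c (.v 21 5 1) (.c (.v 30 1 0) .e))))) .e))))) (.c (.v
  24 3 0) (.c (.v 26 2 0) .e))))) (.c (.v 19 5 0) (.c (.v 23 3 0) (.c (.v 27 1 0) .e)))))
  .e))))) (.c (.f 4 20 202 1035 0) (.c (.v 25 1 0) (.c (.f 23 20 202 1035 0) .e))))) (.c (.v 24
  1 0) .e))))) .e))))) (.c (.v 0 2 0) (.c (.v 0 1 0) (.c (.v 0 3 0) .e))))) (.c (.v 0 3 0)
  .e))))) (.c (.v 0 1 0) (.c (.L (.c (.L (.c (.v 0 1 0) (.c (.L (.c (.v 0 10 0) (.c (.v 0 1 0)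
  (.c (.f 12 0 643 153 1) (.c (.L (.c (.L (.c (.v 0 1 0) (.c (.v 0 3 0) (.c (.v 0 12 0) (.c (.f
  7 0 209 1091 0) .e))))) (.c (.L (.c (.v 0 3 0) (.c (.v 0 1 0) (.c (.L (.c (.v 0 4 0) (.c (.v
  0 7 1) (.c (.v 0 1 0) (.c (.L (.c (.v 0 4 1) (.c (.L (.c (.v 0 6 0) (.c (.v 0 1 0) (.c (.v 0
  3 0) (.c (.L (.c (.v 0 5 1) (.c (.v 0 2 0) (.c (.v 0 3 0) (.c (.v 0 1 0) .e))))) .e))))) (.c
  (.v 0 6 1) (.c (.v 0 1 0) .e))))) .e))))) (.c (.v 0 2 0) .e))))) (.c (.f 19 0 90 531 1) (.c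
  (.v 0 1 0) .e))))) .e))))) (.c (.v 0 10 2) (.c (.L (.c (.v 0 2 0) (.c (.L (.c (.L (.c (.v 0 1
  0) (.c (.L (.c (.v 0 2 0) (.c (.v 0 1 0) (.c (.v 0 13 0) (.c (.v 0 3 0) .e))))) (.c (.v 0 12
  0) (.c (.L (.c (.L (.c (.v 0 1 0) (.c (.v 0 3 0) (.c (.v 0 13 2) (.c (.v 0 2 0) .e))))) (.c
  (.v 0 3 0) (.c (.v 0 5 0) (.c (.v 0 1 0) .e))))) .e))))) (.c (.v 0 1 0) (.c (.f 4 0 90 531 1)
  (.c (.f 23 0 202 1035 0) .e))))) (.c (.v 0 11 2) (.c (.v 0 1 0) .e))))) .e))))) (.c (.v 0 3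
  0) (.c (.v 0 2 0) (.c (.v 0 1 0) .e))))) .e))))) (.c (.v 0 1 0) .e))))) .e))))) (.c (.v 0 1
  0) (.c (.L (.c (.v 0 5 1) (.c (.L (.c (.v 0 6 0) (.c (.v 0 1 0) (.c (.L (.c (.L (.c (.v 0 1
  0) (.c (.v 0 4 1) (.c (.v 0 10 1) (.c (.v 0 4 0) .e))))) (.c (.f 7 0 1091 209 0) (.c (.v 0 1
  0) (.c (.v 0 3 0) .e))))) (.c (.L (.c (.v 0 7 0) (.c (.v 0 2 0) (.c (.v 0 3 0) (.c (.v 0 1 0)
  .e))))) .e))))) (.c (.L (.c (.L (.c (.v 0 1 0) (.c (.f 1 0 1665 1665 0) (.c (.v 0 8 2) (.c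
  (.L (.c (.v 0 8 1) (.c (.v 0 4 0) (.c (.v 0 9 2) (.c (.v 0 1 0) .e))))) .e))))) (.c (.f 3 0
  1665 1665 1) (.c (.v 0 1 0) (.c (.v 0 2 0) .e))))) (.c (.v 0 1 0) .e))))) .e))))) (.c (.v 0 3
  0) .e))))) (.c (.v 0 4 1) (.c (.v 0 3 0) .e))))) (.c (.v 0 1 0) (.c (.v 0 4 0) (.c (.L (.c
  (.v 0 3 0) (.c (.v 0 2 0) (.c (.v 0 8 1) (.c (.v 0 1 0) .e))))) .e))))) (.c (.v 11 2 0) (.c
  (.v 9 3 0) (.c (.v 13 1 0) .e))))) .e))))) (.c (.f 1 0 538 538 0) (.c (.v 0 1 0) .e))))) (.c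
  (.f 4 5 531 90 1) (.c (.v 10 1 0) .e))))) .e))))) .e))))) (.c (.v 1 4 0) .e))))) (.c (.v 6 1
  0) (.c (.v 2 3 0) .e)))))

/-- certificate -/
def t27 : T := (.R (.c (.v 6 1 0) (.c (.f 19 1 1091 209 0) (.c (.f 0 1 1553 1602 1) (.c (.v 0 4
  0) .e)))))

/-- certificate -/
def t28 : T := (.L (.c (.v 0 1 0) (.c (.v 0 2 0) (.c (.f 5 0 538 538 1) (.c (.R (.c (.f 3 2
  1665 1665 0) (.c (.v 7 1 0) (.c (.f 6 2 1035 202 1) (.c (.L (.c (.f 6 0 720 1112 0) (.c (.R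
  (.c (.v 3 4 0) (.c (.R (.c (.R (.c (.v 11 1 0) (.c (.R (.c (.v 10 2 0) (.c (.v 12 1 0) (.c
  (.R (.c (.R (.c (.v 14 1 0) (.c (.R (.c (.R (.c (.v 16 1 0) (.c (.v 14 2 0) (.c (.v 12 3 0)
  (.c (.L (.c (.L (.c (.v 0 1 0) (.c (.v 0 9 2) (.c (.v 0 4 1) (.c (.v 0 3 0) .e))))) (.c (.v 0
  1 0) (.c (.v 0 4 0) (.c (.L (.c (.v 0 3 0) (.c (.v 0 2 0) (.c (.L (.c (.L (.c (.v 0 1 0) (.c
  (.f 14 0 720 1112 1) (.c (.v 0 8 0) (.c (.L (.c (.v 0 6 0) (.c (.f 21 0 139 139 1) (.c (.f 1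
  0 139 139 1) (.c (.v 0 1 0) .e))))) .e))))) (.c (.v 0 9 0) (.c (.v 0 1 0) (.c (.L (.c (.L (.c
  (.v 0 1 0) (.c (.f 6 0 139 139 1) (.c (.R (.c (.R (.c (.v 23 1 0) (.c (.f 11 18 1217 1217 1)
  (.c (.R (.c (.f 25 19 1224 1224 0) (.c (.v 14 6 0) (.c (.v 24 1 0) (.c (.L (.c (.v 0 7 0) (.c
  (.L (.c (.v 0 7 1) (.c (.v 0 1 0) (.c (.L (.c (.f 4 0 538 538 1) (.c (.v 0 2 0) (.c (.v 0 1
  0) (.c (.L (.c (.f 3 0 664 664 0) (.c (.L (.c (.v 0 4 0) (.c (.v 0 1 0) (.c (.L (.c (.v 0 4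
  1) (.c (.L (.c (.R (.c (.L (.c (.v 0 1 0) (.c (.L (.c (.v 0 2 0) (.c (.v 0 1 0) (.c (.f 11 0
  1546 1546 0) (.c (.L (.c (.v 0 13 3) (.c (.f 25 0 706 1049 0) (.c (.v 0 6 0) (.c (.v 0 1 0)
  .e))))) .e))))) (.c (.L (.c (.L (.c (.v 0 1 0) (.c (.v 0 3 0) (.c (.v 0 2 0) (.c (.R (.c (.v
  36 1 0) (.c (.v 28 5 0) (.c (.v 32 3 0) (.c (.R (.c (.v 35 2 0) (.c (.L (.c (.L (.c (.v 0 1
  0) (.c (.L (.c (.f 25 0 1224 1224 0) (.c (.v 0 1 0) (.c (.f 6 0 1112 720 1) (.c (.v 0 11 1)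
  .e))))) (.c (.f 11 0 1049 706 0) (.c (.v 0 2 0) .e))))) (.c (.L (.c (.R (.c (.R (.c (.v 41 1
  0) (.c (.R (.c (.v 40 2 0) (.c (.v 42 1 0) (.c (.v 0 22 0) (.c (.v 38 3 0) .e))))) (.c (.v 32
  5 1) (.c (.R (.c (.R (.c (.v 43 1 0) (.c (.v 39 3 0) (.c (.v 32 6 1) (.c (.v 41 2 0) .e)))))
  (.c (.v 38 3 0) (.c (.v 32 6 0) (.c (.v 42 1 0) .e))))) .e))))) (.c (.v 40 1 0) (.c (.v 2 20
  0) (.c (.R (.c (.f 11 36 720 1112 1) (.c (.v 39 2 0) (.c (.R (.c (.v 32 6 0) (.c (.R (.c (.R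
  (.c (.v 44 1 0) (.c (.R (.c (.v 43 2 0) (.c (.v 45 1 0) (.c (.f 4 40 643 153 0) (.c (.R (.c
  (.R (.c (.v 47 1 0) (.c (.R (.c (.R (.c (.v 49 1 0) (.c (.v 47 2 0) (.c (.v 25 13 0) (.c (.v
  45 3 0) .e))))) (.c (.v 48 1 0) (.c (.v 41 4 1) (.c (.v 44 3 0) .e))))) (.c (.v 41 4 0) (.c
  (.R (.c (.v 46 2 0) (.c (.v 44 3 0) (.c (.R (.c (.R (.c (.v 50 1 0) (.c (.v 38 7 0) (.c (.R
  (.c (.v 49 2 0) (.c (.v 23 15 0) (.c (.v 51 1 0) (.c (.v 47 3 0) .e))))) (.c (.v 32 9 2)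
  .e))))) (.c (.v 39 6 0) (.c (.v 49 1 0) (.c (.R (.c (.v 32 9 2) (.c (.v 37 7 1) (.c (.v 48 2
  0) (.c (.v 50 1 0) .e))))) .e))))) (.c (.v 48 1 0) .e))))) .e))))) (.c (.f 6 41 706 1049 1)
  (.c (.v 13 16 3) (.c (.v 46 1 0) .e))))) .e))))) (.c (.v 0 22 2) (.c (.v 36 5 0) .e))))) (.c
  (.v 43 1 0) (.c (.v 1 21 2) (.c (.v 13 16 0) .e))))) (.c (.v 42 1 0) (.c (.f 25 37 209 1091
  0) .e))))) (.c (.v 41 1 0) .e))))) .e))))) (.c (.v 0 1 0) (.c (.f 14 0 1665 1665 1) (.c (.v 0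
  10 1) .e))))) (.c (.L (.c (.L (.c (.v 0 1 0) (.c (.f 9 0 1112 720 1) (.c (.L (.c (.v 0 2 0)
  (.c (.L (.c (.v 0 5 1) (.c (.v 0 1 0) (.c (.L (.c (.f 11 0 1616 1616 0) (.c (.v 0 2 0) (.c
  (.v 0 1 0) (.c (.L (.c (.v 0 6 0) (.c (.L (.c (.v 0 7 1) (.c (.v 0 1 0) (.c (.L (.c (.v 0 5
  0) (.c (.v 0 9 2) (.c (.v 0 1 0) (.c (.v 0 3 0) .e))))) (.c (.v 0 13 3) .e))))) (.c (.f 25 0
  531 90 0) (.c (.v 0 1 0) .e))))) .e))))) (.c (.v 0 13 0) .e))))) (.c (.v 0 1 0) (.c (.v 0 3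
  0) .e))))) (.c (.v 0 3 0) .e))))) (.c (.L (.c (.f 17 0 1112 720 1) (.c (.v 0 1 0) (.c (.L (.c
  (.L (.c (.v 0 1 0) (.c (.v 0 6 1) (.c (.f 6 0 1553 1602 0) (.c (.v 0 13 0) .e))))) (.c (.v 0
  2 0) (.c (.v 0 1 0) (.c (.f 4 0 1049 706 1) .e))))) (.c (.v 0 11 0) .e))))) (.c (.v 0 1 0)
  (.c (.v 0 10 0) .e))))) (.c (.v 0 1 0) .e))))) (.c (.v 33 3 0) (.c (.v 37 1 0) .e)))))
  .e))))) .e))))) (.c (.L (.c (.v 0 3 0) (.c (.v 0 1 0) (.c (.L (.c (.v 0 3 0) (.c (.v 0 2 0)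
  (.c (.v 0 1 0) (.c (.v 0 6 1) .e))))) (.c (.v 0 6 0) .e))))) (.c (.v 0 1 0) (.c (.v 0 5 1)
  .e))))) (.c (.v 0 7 0) .e))))) (.c (.v 14 10 0) (.c (.R (.c (.v 29 3 0) (.c (.v 0 17 1) (.c
  (.v 33 1 0) (.c (.v 31 2 0) .e))))) (.c (.v 32 1 0) .e))))) (.c (.v 0 1 0) (.c (.v 0 2 0) (.c
  (.v 0 3 0) .e))))) (.c (.v 0 1 0) (.c (.v 0 3 0) .e))))) (.c (.L (.c (.v 0 8 1) (.c (.v 0 2
  0) (.c (.v 0 3 0) (.c (.v 0 1 0) .e))))) .e))))) (.c (.f 6 0 531 90 0) (.c (.v 0 1 0) .e)))))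
  .e))))) (.c (.v 0 5 0) .e))))) (.c (.v 0 1 0) (.c (.L (.c (.v 0 3 0) (.c (.v 0 5 0) (.c (.L
  (.c (.v 0 3 0) (.c (.L (.c (.L (.c (.v 0 1 0) (.c (.v 0 8 0) (.c (.L (.c (.L (.c (.v 0 1 0)
  (.c (.v 0 3 0) (.c (.v 0 2 0) (.c (.L (.c (.L (.c (.v 0 1 0) (.c (.L (.c (.f 25 0 1224 1224
  0) (.c (.v 0 1 0) (.c (.v 0 6 0) (.c (.v 0 10 0) .e))))) (.c (.f 11 0 1049 706 0) (.c (.v 0 2
  0) .e))))) (.c (.v 0 4 0) (.c (.L (.c (.L (.c (.v 0 1 0) (.c (.v 0 6 0) (.c (.L (.c (.v 0 2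
  0) (.c (.v 0 5 1) (.c (.v 0 1 0) (.c (.v 0 3 0) .e))))) (.c (.v 0 3 0) .e))))) (.c (.v 0 4 1)
  (.c (.v 0 1 0) (.c (.L (.c (.v 0 3 0) (.c (.v 0 6 1) (.c (.v 0 2 0) (.c (.v 0 1 0) .e)))))
  .e))))) (.c (.v 0 1 0) .e))))) .e))))) (.c (.v 0 16 0) (.c (.v 0 1 0) (.c (.v 0 6 0) .e)))))
  (.c (.v 0 5 1) .e))))) (.c (.v 0 1 0) (.c (.L (.c (.L (.c (.v 0 1 0) (.c (.v 0 16 0) (.c (.f
  25 0 1553 1602 0) (.c (.v 0 6 0) .e))))) (.c (.v 0 2 0) (.c (.v 0 1 0) (.c (.f 11 0 83 83 0)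
  .e))))) (.c (.L (.c (.v 0 5 1) (.c (.L (.c (.v 0 8 1) (.c (.v 0 1 0) (.c (.v 0 3 0) (.c (.v 0
  2 0) .e))))) (.c (.L (.c (.v 0 6 0) (.c (.v 0 3 0) (.c (.v 0 1 0) (.c (.L (.c (.v 0 6 1) (.c
  (.v 0 3 0) (.c (.v 0 2 0) (.c (.v 0 1 0) .e))))) .e))))) (.c (.v 0 1 0) .e))))) .e))))) (.c
  (.v 0 1 0) (.c (.v 0 2 0) .e))))) (.c (.v 0 1 0) .e))))) .e))))) .e))))) (.c (.v 21 2 0)
  .e))))) (.c (.R (.c (.R (.c (.v 24 1 0) (.c (.R (.c (.v 23 2 0) (.c (.v 25 1 0) (.c (.v 14 6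
  1) (.c (.v 21 3 0) .e))))) (.c (.v 14 6 0) (.c (.v 20 3 0) .e))))) (.c (.v 23 1 0) (.c (.v 14
  5 1) (.c (.R (.c (.v 20 3 0) (.c (.v 22 2 0) (.c (.v 9 8 1) (.c (.v 24 1 0) .e))))) .e)))))
  (.c (.R (.c (.R (.c (.v 24 1 0) (.c (.v 14 6 0) (.c (.R (.c (.v 23 2 0) (.c (.R (.c (.R (.c
  (.v 27 1 0) (.c (.R (.c (.v 26 2 0) (.c (.v 28 1 0) (.c (.v 24 3 0) (.c (.v 17 6 1) .e)))))
  (.c (.R (.c (.R (.c (.v 29 1 0) (.c (.v 25 3 0) (.c (.v 27 2 0) (.c (.v 20 5 1) .e))))) (.c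
  (.v 24 3 0) (.c (.v 28 1 0) (.c (.v 18 6 0) .e))))) (.c (.v 20 4 1) .e))))) (.c (.v 26 1 0)
  (.c (.R (.c (.f 11 22 1616 1616 1) (.c (.v 25 2 0) (.c (.v 27 1 0) (.c (.R (.c (.v 18 6 0)
  (.c (.v 10 10 0) (.c (.f 25 23 1553 1602 0) (.c (.v 28 1 0) .e))))) .e))))) (.c (.v 20 4 0)
  .e))))) (.c (.v 25 1 0) (.c (.v 21 3 0) .e))))) (.c (.f 1 19 1224 1224 0) .e))))) (.c (.v 14
  5 1) (.c (.v 23 1 0) (.c (.v 9 8 0) .e))))) (.c (.v 22 1 0) .e))))) (.c (.f 25 0 153 643 0)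
  .e))))) (.c (.f 11 0 643 153 0) (.c (.v 0 2 0) (.c (.v 0 1 0) .e))))) .e))))) (.c (.v 0 1 0)
  .e))))) .e))))) .e))))) (.c (.v 15 1 0) (.c (.v 11 3 0) (.c (.v 7 5 0) .e))))) (.c (.v 2 7 0)
  (.c (.R (.c (.R (.c (.v 16 1 0) (.c (.R (.c (.f 6 12 1224 1224 1) (.c (.v 17 1 0) (.c (.f 3
  12 1602 1553 0) (.c (.R (.c (.L (.c (.v 0 8 2) (.c (.v 0 1 0) (.c (.v 0 4 0) (.c (.L (.c (.v
  0 3 0) (.c (.v 0 2 0) (.c (.L (.c (.L (.c (.v 0 1 0) (.c (.v 0 10 1) (.c (.v 0 8 0) (.c (.L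
  (.c (.v 0 6 0) (.c (.v 0 11 0) (.c (.f 1 0 139 139 1) (.c (.v 0 1 0) .e))))) .e))))) (.c (.v
  0 9 0) (.c (.v 0 1 0) (.c (.L (.c (.L (.c (.v 0 1 0) (.c (.v 0 11 0) (.c (.R (.c (.v 24 1 0)
  (.c (.v 20 3 0) (.c (.v 17 4 1) (.c (.R (.c (.v 23 2 0) (.c (.v 21 3 0) (.c (.R (.c (.L (.c
  (.v 0 7 0) (.c (.v 0 10 2) (.c (.v 0 1 0) (.c (.R (.c (.v 28 1 0) (.c (.v 19 5 1) (.c (.R (.c
  (.v 27 2 0) (.c (.R (.c (.R (.c (.v 31 1 0) (.c (.v 13 10 0) (.c (.R (.c (.R (.c (.v 33 1 0)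
  (.c (.v 29 3 0) (.c (.v 31 2 0) (.c (.R (.c (.R (.c (.v 35 1 0) (.c (.R (.c (.f 25 31 1112
  720 0) (.c (.v 36 1 0) (.c (.v 26 6 0) (.c (.R (.c (.R (.c (.v 38 1 0) (.c (.v 34 3 0) (.c
  (.v 30 5 0) (.c (.v 20 9 2) .e))))) (.c (.v 10 13 3) (.c (.v 24 7 1) (.c (.v 37 1 0) .e)))))
  .e))))) (.c (.f 11 30 1049 706 1) (.c (.v 33 2 0) .e))))) (.c (.v 10 13 0) (.c (.v 25 5 1)
  (.c (.v 34 1 0) .e))))) .e))))) (.c (.v 28 3 0) (.c (.v 32 1 0) (.c (.f 9 27 1553 1602 0)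
  .e))))) (.c (.R (.c (.R (.c (.v 33 1 0) (.c (.f 4 28 1616 1616 0) (.c (.R (.c (.f 6 29 1112
  720 1) (.c (.v 10 13 0) (.c (.v 34 1 0) (.c (.v 23 6 1) .e))))) (.c (.v 31 2 0) .e))))) (.c
  (.v 12 11 0) (.c (.f 17 27 1553 1602 0) (.c (.v 32 1 0) .e))))) .e))))) (.c (.v 30 1 0) (.c
  (.R (.c (.f 11 26 1616 1616 1) (.c (.v 29 2 0) (.c (.v 31 1 0) (.c (.R (.c (.f 6 27 1553 1602
  0) (.c (.v 11 11 1) (.c (.f 25 27 1553 1602 0) (.c (.v 32 1 0) .e))))) .e))))) (.c (.R (.c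
  (.f 14 26 90 531 0) (.c (.v 12 10 1) (.c (.R (.c (.f 21 27 1553 1602 0) (.c (.v 11 11 1) (.c
  (.v 32 1 0) (.c (.R (.c (.R (.c (.v 34 1 0) (.c (.v 28 4 0) (.c (.R (.c (.v 24 6 1) (.c (.v
  28 4 1) (.c (.v 35 1 0) (.c (.R (.c (.v 32 3 0) (.c (.v 26 6 0) (.c (.R (.c (.v 33 3 0) (.c
  (.v 28 5 1) (.c (.v 37 1 0) (.c (.v 35 2 0) .e))))) (.c (.v 36 1 0) .e))))) .e))))) (.c (.R
  (.c (.v 33 2 0) (.c (.R (.c (.v 18 10 0) (.c (.v 36 1 0) (.c (.v 26 6 0) (.c (.f 25 31 90 531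
  0) .e))))) (.c (.f 11 30 538 538 1) (.c (.v 35 1 0) .e))))) .e))))) (.c (.v 29 3 0) (.c (.v
  31 2 0) (.c (.v 33 1 0) .e))))) .e))))) (.c (.v 31 1 0) .e))))) .e))))) (.c (.v 29 1 0) (.c
  (.v 25 3 0) .e))))) (.c (.R (.c (.R (.c (.v 30 1 0) (.c (.v 19 6 1) (.c (.v 26 3 0) (.c (.v
  28 2 0) .e))))) (.c (.v 19 6 0) (.c (.v 25 3 0) (.c (.v 29 1 0) .e))))) .e))))) .e))))) (.c
  (.v 14 7 0) (.c (.v 26 1 0) (.c (.R (.c (.f 11 22 664 664 1) (.c (.R (.c (.v 18 6 0) (.c (.v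
  28 1 0) (.c (.v 1 13 3) (.c (.f 25 23 153 643 0) .e))))) (.c (.v 25 2 0) (.c (.v 27 1 0)
  .e))))) .e))))) (.c (.v 25 1 0) .e))))) .e))))) (.c (.f 25 0 153 643 0) .e))))) (.c (.v 0 10
  0) (.c (.v 0 2 0) (.c (.v 0 1 0) .e))))) .e))))) (.c (.v 0 1 0) .e))))) .e))))) (.c (.R (.c
  (.v 15 3 0) (.c (.v 19 1 0) (.c (.v 4 8 1) (.c (.v 17 2 0) .e))))) (.c (.v 12 4 0) (.c (.v 18
  1 0) .e))))) .e))))) (.c (.f 4 11 1672 1672 0) (.c (.v 14 2 0) .e))))) (.c (.v 7 5 0) (.c (.v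
  2 7 1) (.c (.v 15 1 0) .e))))) .e))))) (.c (.f 25 8 706 1049 0) (.c (.v 13 1 0) (.c (.f 6 8
  706 1049 0) .e))))) (.c (.f 11 7 202 1035 1) .e))))) (.c (.R (.c (.R (.c (.v 13 1 0) (.c (.f
  5 8 706 1049 0) (.c (.v 11 2 0) (.c (.v 0 7 1) .e))))) (.c (.R (.c (.f 1 8 706 1049 0) (.c
  (.v 13 1 0) (.c (.v 3 6 0) (.c (.f 21 8 706 1049 0) .e))))) (.c (.v 12 1 0) (.c (.f 14 7 1035
  202 0) .e))))) (.c (.R (.c (.v 0 7 0) (.c (.R (.c (.v 9 3 0) (.c (.v 13 1 0) (.c (.f 9 8 706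
  1049 0) (.c (.R (.c (.v 10 3 0) (.c (.v 12 2 0) (.c (.R (.c (.R (.c (.v 16 1 0) (.c (.v 7 5
  1) (.c (.v 2 8 0) (.c (.R (.c (.R (.c (.v 18 1 0) (.c (.R (.c (.R (.c (.v 20 1 0) (.c (.v 18
  2 0) (.c (.R (.c (.f 25 16 720 1112 0) (.c (.v 2 10 1) (.c (.v 21 1 0) (.c (.v 11 6 0)
  .e))))) (.c (.f 11 15 209 1091 1) .e))))) (.c (.v 19 1 0) (.c (.v 13 4 0) (.c (.R (.c (.R (.c
  (.v 21 1 0) (.c (.v 17 3 0) (.c (.v 11 6 0) (.c (.R (.c (.v 20 2 0) (.c (.v 18 3 0) (.c (.v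
  13 5 1) (.c (.v 22 1 0) .e))))) .e))))) (.c (.R (.c (.v 17 3 0) (.c (.v 21 1 0) (.c (.v 10 6
  1) (.c (.v 19 2 0) .e))))) (.c (.v 13 4 1) (.c (.v 20 1 0) .e))))) .e))))) (.c (.v 14 3 0)
  (.c (.v 16 2 0) .e))))) (.c (.v 7 6 0) (.c (.v 1 9 0) (.c (.v 17 1 0) .e))))) .e))))) (.c (.v
  6 5 1) (.c (.v 15 1 0) (.c (.R (.c (.R (.c (.v 17 1 0) (.c (.v 7 6 0) (.c (.v 1 9 0) (.c (.f
  25 12 139 139 0) .e))))) (.c (.f 11 11 643 153 1) (.c (.v 14 2 0) (.c (.v 16 1 0) .e)))))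
  .e))))) (.c (.v 14 1 0) .e))))) .e))))) (.c (.R (.c (.v 0 7 1) (.c (.f 17 8 706 1049 0) (.c
  (.v 13 1 0) (.c (.R (.c (.f 4 9 202 1035 0) (.c (.R (.c (.f 3 10 1217 1217 0) (.c (.v 15 1 0)
  (.c (.v 4 6 1) (.c (.f 6 10 139 139 1) .e))))) (.c (.v 12 2 0) (.c (.v 14 1 0) .e)))))
  .e))))) (.c (.v 12 1 0) .e))))) .e))))) (.c (.v 10 1 0) (.c (.v 6 3 0) (.c (.v 8 2 0) .e)))))
  (.c (.R (.c (.v 3 4 1) (.c (.v 6 3 0) (.c (.v 10 1 0) (.c (.R (.c (.R (.c (.v 12 1 0) (.c (.R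
  (.c (.v 0 7 1) (.c (.v 13 1 0) (.c (.v 4 5 1) (.c (.R (.c (.f 1 9 90 531 0) (.c (.R (.c (.v
  11 3 0) (.c (.v 15 1 0) (.c (.v 3 7 0) (.c (.v 13 2 0) .e))))) (.c (.v 4 6 0) (.c (.v 14 1 0)
  .e))))) .e))))) (.c (.R (.c (.v 1 7 0) (.c (.v 4 5 1) (.c (.v 13 1 0) (.c (.R (.c (.v 10 3 0)
  (.c (.v 4 6 0) (.c (.R (.c (.v 11 3 0) (.c (.v 4 6 1) (.c (.v 15 1 0) (.c (.v 13 2 0) .e)))))
  (.c (.v 14 1 0) .e))))) .e))))) (.c (.R (.c (.v 11 2 0) (.c (.R (.c (.L (.c (.L (.c (.v 0 1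
  0) (.c (.L (.c (.v 0 2 0) (.c (.v 0 1 0) (.c (.L (.c (.L (.c (.v 0 1 0) (.c (.L (.c (.L (.c
  (.v 0 1 0) (.c (.v 0 2 0) (.c (.v 0 3 0) (.c (.v 0 6 1) .e))))) (.c (.v 0 1 0) (.c (.v 0 3 0)
  (.c (.v 0 6 0) .e))))) (.c (.v 0 7 0) (.c (.v 0 5 1) .e))))) (.c (.L (.c (.f 11 0 1672 1672
  0) (.c (.v 0 1 0) (.c (.v 0 2 0) (.c (.L (.c (.v 0 6 0) (.c (.f 25 0 643 153 0) (.c (.R (.c
  (.v 21 1 0) (.c (.R (.c (.v 20 2 0) (.c (.v 22 1 0) (.c (.v 8 8 0) (.c (.v 18 3 0) .e)))))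
  (.c (.R (.c (.R (.c (.v 23 1 0) (.c (.v 5 9 2) (.c (.v 21 2 0) (.c (.R (.c (.f 6 19 664 664
  1) (.c (.f 3 19 202 1035 0) (.c (.R (.c (.R (.c (.v 26 1 0) (.c (.v 19 4 1) (.c (.R (.c (.v
  25 2 0) (.c (.L (.c (.L (.c (.v 0 1 0) (.c (.v 0 5 0) (.c (.L (.c (.v 0 2 0) (.c (.L (.c (.L
  (.c (.v 0 1 0) (.c (.L (.c (.v 0 2 0) (.c (.v 0 1 0) (.c (.v 0 3 0) (.c (.L (.c (.v 0 10 0)
  (.c (.L (.c (.v 0 9 2) (.c (.v 0 1 0) (.c (.v 0 7 1) (.c (.v 0 2 0) .e))))) (.c (.v 0 6 0)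
  (.c (.v 0 1 0) .e))))) .e))))) (.c (.L (.c (.L (.c (.v 0 1 0) (.c (.v 0 3 0) (.c (.v 0 2 0)
  (.c (.R (.c (.R (.c (.v 36 1 0) (.c (.L (.c (.L (.c (.v 0 1 0) (.c (.L (.c (.f 25 0 1224 1224
  0) (.c (.v 0 1 0) (.c (.v 0 6 0) (.c (.L (.c (.L (.c (.v 0 1 0) (.c (.v 0 3 0) (.c (.v 0 5 0)
  (.c (.v 0 16 4) .e))))) (.c (.v 0 10 0) (.c (.L (.c (.v 0 5 0) (.c (.v 0 10 1) (.c (.v 0 1 0)
  (.c (.L (.c (.L (.c (.v 0 1 0) (.c (.f 3 0 1217 1217 0) (.c (.v 0 22 1) (.c (.v 0 17 4)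
  .e))))) (.c (.v 0 16 0) (.c (.v 0 2 0) (.c (.v 0 1 0) .e))))) .e))))) (.c (.v 0 1 0) .e)))))
  .e))))) (.c (.f 11 0 1049 706 0) (.c (.v 0 2 0) .e))))) (.c (.v 0 7 0) (.c (.L (.c (.L (.c
  (.v 0 1 0) (.c (.v 0 6 0) (.c (.L (.c (.v 0 2 0) (.c (.v 0 6 1) (.c (.v 0 1 0) (.c (.v 0 3 0)
  .e))))) (.c (.v 0 3 0) .e))))) (.c (.v 0 5 1) (.c (.v 0 1 0) (.c (.v 0 18 4) .e))))) (.c (.v
  0 1 0) .e))))) (.c (.R (.c (.R (.c (.v 38 1 0) (.c (.v 34 3 0) (.c (.v 36 2 0) (.c (.v 27 6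
  1) .e))))) (.c (.v 33 3 0) (.c (.v 37 1 0) (.c (.v 27 6 0) .e))))) (.c (.v 27 5 1) .e)))))
  (.c (.v 35 1 0) (.c (.R (.c (.f 11 31 1616 1616 1) (.c (.v 34 2 0) (.c (.v 36 1 0) (.c (.R
  (.c (.v 27 6 0) (.c (.R (.c (.R (.c (.v 39 1 0) (.c (.R (.c (.v 38 2 0) (.c (.v 40 1 0) (.c
  (.R (.c (.R (.c (.v 42 1 0) (.c (.v 0 20 4) (.c (.R (.c (.v 41 2 0) (.c (.v 39 3 0) (.c (.v
  43 1 0) (.c (.R (.c (.v 26 10 0) (.c (.v 34 6 0) (.c (.R (.c (.v 27 9 2) (.c (.v 32 7 1) (.c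
  (.v 45 1 0) (.c (.v 43 2 0) .e))))) (.c (.v 44 1 0) .e))))) .e))))) (.c (.v 36 4 0) .e)))))
  (.c (.v 5 17 4) (.c (.v 41 1 0) (.c (.f 3 36 531 90 0) .e))))) (.c (.v 10 16 0) .e))))) (.c
  (.v 31 5 0) (.c (.v 20 10 1) .e))))) (.c (.v 38 1 0) (.c (.R (.c (.v 31 5 0) (.c (.v 5 16 4)
  (.c (.v 39 1 0) (.c (.v 35 3 0) .e))))) (.c (.v 20 10 0) .e))))) (.c (.f 25 32 1553 1602 0)
  (.c (.v 37 1 0) .e))))) .e))))) (.c (.v 23 7 0) .e))))) .e))))) (.c (.v 0 3 0) (.c (.v 0 1 0)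
  (.c (.v 0 4 1) .e))))) (.c (.v 0 4 0) .e))))) (.c (.v 0 1 0) (.c (.f 6 0 1546 1546 0) (.c (.f
  3 0 139 139 0) .e))))) (.c (.v 0 1 0) (.c (.v 0 9 2) .e))))) (.c (.v 0 8 0) .e))))) (.c (.R
  (.c (.R (.c (.v 30 1 0) (.c (.R (.c (.v 29 2 0) (.c (.v 31 1 0) (.c (.v 27 3 0) (.c (.R (.c
  (.R (.c (.v 33 1 0) (.c (.R (.c (.R (.c (.v 35 1 0) (.c (.v 33 2 0) (.c (.R (.c (.R (.c (.v
  37 1 0) (.c (.f 11 32 1665 1665 1) (.c (.v 35 2 0) (.c (.R (.c (.f 25 33 1672 1672 0) (.c (.v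
  28 6 0) (.c (.R (.c (.R (.c (.v 40 1 0) (.c (.v 32 5 0) (.c (.v 22 9 2) (.c (.v 36 3 0)
  .e))))) (.c (.v 26 7 1) (.c (.v 39 1 0) (.c (.v 9 16 0) .e))))) (.c (.v 38 1 0) .e)))))
  .e))))) (.c (.v 27 5 1) (.c (.v 36 1 0) (.c (.R (.c (.R (.c (.v 38 1 0) (.c (.v 28 6 0) (.c
  (.f 1 33 1672 1672 0) (.c (.R (.c (.v 37 2 0) (.c (.R (.c (.R (.c (.v 41 1 0) (.c (.R (.c (.v
  40 2 0) (.c (.v 42 1 0) (.c (.v 31 6 1) (.c (.v 38 3 0) .e))))) (.c (.v 34 4 1) (.c (.R (.c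
  (.R (.c (.v 43 1 0) (.c (.v 39 3 0) (.c (.v 34 5 1) (.c (.v 41 2 0) .e))))) (.c (.v 38 3 0)
  (.c (.v 32 6 0) (.c (.v 42 1 0) .e))))) .e))))) (.c (.v 40 1 0) (.c (.v 34 4 0) (.c (.v 6 17
  2) .e))))) (.c (.v 35 3 0) (.c (.v 39 1 0) .e))))) .e))))) (.c (.v 28 5 1) (.c (.R (.c (.f 5
  33 1672 1672 0) (.c (.v 26 7 0) (.c (.v 38 1 0) (.c (.v 36 2 0) .e))))) (.c (.v 37 1 0)
  .e))))) .e))))) (.c (.v 31 3 0) .e))))) (.c (.v 34 1 0) (.c (.f 9 29 1217 1217 0) (.c (.v 30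
  3 0) .e))))) (.c (.R (.c (.R (.c (.v 35 1 0) (.c (.R (.c (.f 6 31 1672 1672 1) (.c (.v 36 1
  0) (.c (.v 25 6 1) (.c (.f 3 31 706 1049 0) .e))))) (.c (.v 33 2 0) (.c (.f 4 30 1224 1224 0)
  .e))))) (.c (.f 17 29 1217 1217 0) (.c (.v 34 1 0) (.c (.v 14 11 0) .e))))) (.c (.v 15 10 0)
  .e))))) (.c (.R (.c (.f 11 28 1224 1224 1) (.c (.v 33 1 0) (.c (.R (.c (.f 6 29 1217 1217 0)
  (.c (.f 25 29 1217 1217 0) (.c (.v 34 1 0) (.c (.v 4 16 0) .e))))) (.c (.v 31 2 0) .e)))))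
  (.c (.R (.c (.f 14 28 1546 1546 0) (.c (.R (.c (.f 21 29 1217 1217 0) (.c (.v 34 1 0) (.c (.R
  (.c (.R (.c (.v 36 1 0) (.c (.R (.c (.v 26 6 1) (.c (.v 37 1 0) (.c (.R (.c (.v 34 3 0) (.c
  (.R (.c (.v 35 3 0) (.c (.v 39 1 0) (.c (.v 37 2 0) (.c (.v 30 5 1) .e))))) (.c (.v 38 1 0)
  (.c (.v 28 6 0) .e))))) (.c (.v 30 4 1) .e))))) (.c (.R (.c (.v 35 2 0) (.c (.f 11 32 1602
  1553 1) (.c (.v 37 1 0) (.c (.R (.c (.v 20 10 0) (.c (.v 28 6 0) (.c (.f 25 33 1546 1546 0)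
  (.c (.v 38 1 0) .e))))) .e))))) (.c (.v 30 4 0) .e))))) (.c (.v 33 2 0) (.c (.v 35 1 0) (.c
  (.v 31 3 0) .e))))) (.c (.v 4 16 0) .e))))) (.c (.v 33 1 0) (.c (.v 14 10 1) .e))))) (.c (.v
  32 1 0) .e))))) .e))))) (.c (.R (.c (.R (.c (.v 32 1 0) (.c (.v 28 3 0) (.c (.v 30 2 0) (.c
  (.v 21 6 1) .e))))) (.c (.v 27 3 0) (.c (.v 31 1 0) (.c (.v 21 6 0) .e))))) (.c (.v 21 5 1)
  .e))))) (.c (.v 29 1 0) (.c (.R (.c (.f 11 25 1616 1616 1) (.c (.v 28 2 0) (.c (.v 30 1 0)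
  (.c (.R (.c (.v 21 6 0) (.c (.R (.c (.R (.c (.v 33 1 0) (.c (.R (.c (.v 32 2 0) (.c (.v 34 1
  0) (.c (.R (.c (.R (.c (.v 36 1 0) (.c (.R (.c (.R (.c (.v 38 1 0) (.c (.v 36 2 0) (.c (.v 34
  3 0) (.c (.R (.c (.R (.c (.v 40 1 0) (.c (.f 11 35 1217 1217 1) (.c (.R (.c (.f 25 36 1224
  1224 0) (.c (.v 31 6 0) (.c (.v 41 1 0) (.c (.R (.c (.R (.c (.v 43 1 0) (.c (.v 35 5 0) (.c
  (.v 39 3 0) (.c (.R (.c (.v 42 2 0) (.c (.v 4 21 0) (.c (.v 40 3 0) (.c (.v 44 1 0) .e)))))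
  .e))))) (.c (.R (.c (.v 35 5 0) (.c (.v 43 1 0) (.c (.v 24 10 1) (.c (.v 4 20 1) .e))))) (.c
  (.v 24 10 0) (.c (.v 42 1 0) .e))))) .e))))) (.c (.v 38 2 0) .e))))) (.c (.R (.c (.R (.c (.v
  41 1 0) (.c (.R (.c (.v 40 2 0) (.c (.v 42 1 0) (.c (.v 31 6 1) (.c (.v 38 3 0) .e))))) (.c
  (.v 31 6 0) (.c (.v 37 3 0) .e))))) (.c (.v 40 1 0) (.c (.v 31 5 1) (.c (.R (.c (.v 37 3 0)
  (.c (.v 39 2 0) (.c (.R (.c (.R (.c (.v 43 1 0) (.c (.f 14 38 720 1112 0) (.c (.v 24 10 1)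
  (.c (.v 4 20 1) .e))))) (.c (.R (.c (.R (.c (.v 44 1 0) (.c (.R (.c (.v 43 2 0) (.c (.v 45 1
  0) (.c (.f 4 40 643 153 0) (.c (.R (.c (.v 35 6 1) (.c (.f 6 41 706 1049 1) (.c (.f 3 41 83
  83 0) (.c (.v 46 1 0) .e))))) .e))))) (.c (.v 24 11 0) (.c (.v 3 21 1) .e))))) (.c (.v 43 1
  0) (.c (.v 25 10 0) (.c (.v 0 20 5) .e))))) (.c (.v 42 1 0) (.c (.v 4 20 0) .e))))) (.c (.v
  41 1 0) .e))))) .e))))) (.c (.v 27 7 0) (.c (.v 39 1 0) .e))))) .e))))) (.c (.v 37 1 0) (.c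
  (.v 33 3 0) (.c (.v 30 4 1) .e))))) (.c (.R (.c (.v 35 2 0) (.c (.v 33 3 0) (.c (.v 37 1 0)
  (.c (.R (.c (.v 20 10 0) (.c (.v 28 6 0) (.c (.R (.c (.v 21 9 2) (.c (.v 26 7 1) (.c (.v 39 1
  0) (.c (.v 37 2 0) .e))))) (.c (.v 38 1 0) .e))))) .e))))) (.c (.v 30 4 0) .e))))) (.c (.f 6
  30 1602 1553 1) (.c (.v 35 1 0) (.c (.f 3 30 531 90 0) .e))))) (.c (.v 4 16 0) .e))))) (.c
  (.v 25 5 0) (.c (.v 14 10 1) .e))))) (.c (.v 32 1 0) (.c (.R (.c (.v 25 5 0) (.c (.R (.c (.R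
  (.c (.v 35 1 0) (.c (.R (.c (.v 34 2 0) (.c (.v 36 1 0) (.c (.f 11 31 1546 1546 1) (.c (.R
  (.c (.R (.c (.v 38 1 0) (.c (.L (.c (.v 0 5 0) (.c (.v 0 1 0) (.c (.L (.c (.L (.c (.v 0 1 0)
  (.c (.L (.c (.L (.c (.v 0 1 0) (.c (.v 0 2 0) (.c (.v 0 3 0) (.c (.v 0 20 5) .e))))) (.c (.v
  0 1 0) (.c (.L (.c (.v 0 3 0) (.c (.L (.c (.v 0 3 0) (.c (.v 0 1 0) (.c (.v 0 2 0) (.c (.v 0
  6 1) .e))))) (.c (.v 0 1 0) (.c (.v 0 6 0) .e))))) (.c (.v 0 5 1) .e))))) (.c (.L (.c (.v 0 2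
  0) (.c (.f 11 0 1602 1553 0) (.c (.v 0 1 0) (.c (.L (.c (.v 0 19 4) (.c (.v 0 6 0) (.c (.f 25
  0 538 538 0) (.c (.v 0 1 0) .e))))) .e))))) (.c (.L (.c (.v 0 19 3) (.c (.v 0 5 1) (.c (.L
  (.c (.v 0 19 4) (.c (.v 0 6 0) (.c (.v 0 1 0) (.c (.v 0 20 0) .e))))) (.c (.v 0 1 0) .e)))))
  .e))))) (.c (.v 0 2 0) (.c (.v 0 1 0) (.c (.v 0 3 0) .e))))) (.c (.v 0 3 0) .e))))) (.c (.R
  (.c (.R (.c (.v 40 1 0) (.c (.R (.c (.f 6 36 1672 1672 1) (.c (.v 41 1 0) (.c (.R (.c (.R (.c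
  (.v 43 1 0) (.c (.v 39 3 0) (.c (.R (.c (.v 42 2 0) (.c (.v 40 3 0) (.c (.v 44 1 0) (.c (.R
  (.c (.R (.c (.v 46 1 0) (.c (.v 37 5 1) (.c (.R (.c (.R (.c (.v 48 1 0) (.c (.v 37 6 1) (.c
  (.v 46 2 0) (.c (.v 44 3 0) .e))))) (.c (.v 37 6 0) (.c (.v 47 1 0) (.c (.v 43 3 0) .e)))))
  (.c (.R (.c (.v 45 2 0) (.c (.R (.c (.R (.c (.v 49 1 0) (.c (.v 31 10 0) (.c (.R (.c (.R (.c
  (.v 51 1 0) (.c (.f 4 46 720 1112 0) (.c (.v 49 2 0) (.c (.R (.c (.f 6 47 664 664 1) (.c (.f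
  3 47 202 1035 0) (.c (.v 41 6 1) (.c (.v 52 1 0) .e))))) .e))))) (.c (.v 30 11 0) (.c (.v 50
  1 0) (.c (.f 17 45 209 1091 0) .e))))) (.c (.v 4 21 5) .e))))) (.c (.v 48 1 0) (.c (.v 19 14
  3) (.c (.v 3 21 5) .e))))) (.c (.v 43 3 0) (.c (.v 47 1 0) .e))))) .e))))) (.c (.v 33 7 0)
  (.c (.R (.c (.f 11 41 1112 720 1) (.c (.v 24 12 0) (.c (.v 46 1 0) (.c (.v 44 2 0) .e)))))
  (.c (.v 45 1 0) .e))))) .e))))) (.c (.v 36 4 1) .e))))) (.c (.R (.c (.v 39 3 0) (.c (.v 43 1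
  0) (.c (.v 41 2 0) (.c (.R (.c (.v 34 6 0) (.c (.R (.c (.v 32 7 1) (.c (.v 45 1 0) (.c (.v 27
  9 2) (.c (.v 43 2 0) .e))))) (.c (.R (.c (.v 33 7 0) (.c (.v 27 9 2) (.c (.v 45 1 0) (.c (.R
  (.c (.R (.c (.v 47 1 0) (.c (.v 31 9 0) (.c (.v 20 13 3) (.c (.R (.c (.v 46 2 0) (.c (.R (.c
  (.R (.c (.v 50 1 0) (.c (.R (.c (.v 49 2 0) (.c (.v 51 1 0) (.c (.v 37 8 0) (.c (.v 47 3 0)
  .e))))) (.c (.R (.c (.R (.c (.v 52 1 0) (.c (.v 24 15 0) (.c (.v 50 2 0) (.c (.v 3 23 5)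
  .e))))) (.c (.v 37 8 0) (.c (.v 51 1 0) (.c (.v 43 5 0) .e))))) (.c (.v 0 24 4) .e))))) (.c
  (.v 49 1 0) (.c (.f 6 44 90 531 0) (.c (.v 0 24 3) .e))))) (.c (.v 18 15 2) (.c (.v 48 1 0)
  .e))))) .e))))) (.c (.v 42 3 0) (.c (.v 44 2 0) (.c (.v 46 1 0) .e))))) .e))))) (.c (.v 44 1
  0) .e))))) .e))))) (.c (.v 42 1 0) (.c (.v 36 4 0) .e))))) (.c (.f 3 36 706 1049 0) .e)))))
  (.c (.v 38 2 0) (.c (.f 4 35 1224 1224 0) .e))))) (.c (.v 31 5 0) (.c (.v 39 1 0) (.c (.f 10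
  34 1217 1217 0) .e))))) (.c (.v 4 16 4) .e))))) (.c (.f 25 32 1602 1553 0) (.c (.v 27 6 0)
  (.c (.v 37 1 0) .e))))) .e))))) (.c (.R (.c (.R (.c (.v 37 1 0) (.c (.v 33 3 0) (.c (.v 35 2
  0) (.c (.R (.c (.v 20 10 0) (.c (.R (.c (.R (.c (.v 40 1 0) (.c (.R (.c (.v 39 2 0) (.c (.v
  41 1 0) (.c (.R (.c (.R (.c (.v 43 1 0) (.c (.R (.c (.R (.c (.v 45 1 0) (.c (.v 43 2 0) (.c
  (.v 41 3 0) (.c (.v 36 5 1) .e))))) (.c (.v 44 1 0) (.c (.v 40 3 0) (.c (.v 34 6 0) .e)))))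
  (.c (.v 32 6 1) (.c (.v 36 4 1) .e))))) (.c (.R (.c (.f 11 38 1672 1672 1) (.c (.v 43 1 0)
  (.c (.v 41 2 0) (.c (.R (.c (.v 34 6 0) (.c (.f 25 39 1665 1665 0) (.c (.R (.c (.v 33 7 0)
  (.c (.R (.c (.v 38 5 0) (.c (.v 46 1 0) (.c (.R (.c (.v 29 9 2) (.c (.v 45 2 0) (.c (.v 47 1
  0) (.c (.v 43 3 0) .e))))) (.c (.v 42 3 0) .e))))) (.c (.v 45 1 0) (.c (.R (.c (.v 31 8 1)
  (.c (.v 42 3 0) (.c (.v 44 2 0) (.c (.v 46 1 0) .e))))) .e))))) (.c (.v 44 1 0) .e)))))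
  .e))))) (.c (.v 42 1 0) (.c (.v 36 4 0) .e))))) (.c (.v 37 3 0) .e))))) (.c (.f 21 35 1112
  720 0) (.c (.f 1 35 1112 720 0) .e))))) (.c (.v 39 1 0) (.c (.f 14 34 1665 1665 0) (.c (.R
  (.c (.f 5 35 1112 720 0) (.c (.v 38 2 0) (.c (.v 24 9 0) (.c (.v 40 1 0) .e))))) .e))))) (.c
  (.R (.c (.v 21 9 2) (.c (.R (.c (.f 17 35 1112 720 0) (.c (.v 40 1 0) (.c (.R (.c (.v 21 10
  2) (.c (.v 39 2 0) (.c (.v 41 1 0) (.c (.v 24 9 1) .e))))) (.c (.v 24 9 0) .e))))) (.c (.v 39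
  1 0) (.c (.v 24 8 1) .e))))) (.c (.v 38 1 0) .e))))) .e))))) (.c (.R (.c (.v 33 3 0) (.c (.v
  37 1 0) (.c (.R (.c (.v 34 3 0) (.c (.v 36 2 0) (.c (.v 38 1 0) (.c (.v 27 6 1) .e))))) (.c
  (.v 27 6 0) .e))))) (.c (.v 36 1 0) (.c (.v 27 5 1) .e))))) (.c (.R (.c (.R (.c (.v 37 1 0)
  (.c (.f 5 32 1602 1553 0) (.c (.R (.c (.v 20 10 0) (.c (.f 3 33 1546 1546 0) (.c (.v 38 1 0)
  (.c (.R (.c (.R (.c (.v 40 1 0) (.c (.v 33 4 1) (.c (.v 36 3 0) (.c (.v 15 12 3) .e))))) (.c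
  (.v 33 4 0) (.c (.v 24 8 1) (.c (.v 39 1 0) .e))))) .e))))) (.c (.v 35 2 0) .e))))) (.c (.R
  (.c (.f 1 32 1602 1553 0) (.c (.v 37 1 0) (.c (.v 27 6 0) (.c (.v 1 19 0) .e))))) (.c (.v 27
  5 1) (.c (.v 36 1 0) .e))))) .e))))) (.c (.v 34 1 0) (.c (.v 32 2 0) (.c (.v 30 3 0) .e)))))
  (.c (.v 33 1 0) (.c (.v 29 3 0) .e))))) (.c (.v 14 10 0) .e))))) (.c (.f 25 26 1553 1602 0)
  (.c (.v 31 1 0) .e))))) .e))))) (.c (.v 17 7 0) .e))))) (.c (.v 0 1 0) (.c (.L (.c (.v 0 8 0)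
  (.c (.v 0 3 0) (.c (.v 0 2 0) (.c (.v 0 1 0) .e))))) .e))))) (.c (.v 27 1 0) (.c (.v 23 3 0)
  .e))))) (.c (.v 22 3 0) .e))))) (.c (.v 19 4 0) (.c (.v 25 1 0) (.c (.R (.c (.v 22 3 0) (.c
  (.R (.c (.v 17 6 0) (.c (.v 27 1 0) (.c (.v 9 10 0) (.c (.R (.c (.v 15 7 1) (.c (.v 26 2 0)
  (.c (.v 10 9 2) (.c (.v 28 1 0) .e))))) .e))))) (.c (.v 24 2 0) (.c (.v 26 1 0) .e)))))
  .e))))) (.c (.v 24 1 0) .e))))) .e))))) (.c (.v 8 8 0) (.c (.v 22 1 0) (.c (.v 14 5 0)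
  .e))))) (.c (.L (.c (.L (.c (.v 0 1 0) (.c (.v 0 5 0) (.c (.L (.c (.v 0 2 0) (.c (.L (.c (.L
  (.c (.v 0 1 0) (.c (.L (.c (.v 0 2 0) (.c (.v 0 1 0) (.c (.v 0 3 0) (.c (.L (.c (.v 0 10 0)
  (.c (.L (.c (.v 0 9 2) (.c (.v 0 1 0) (.c (.v 0 7 1) (.c (.v 0 2 0) .e))))) (.c (.v 0 6 0)
  (.c (.v 0 1 0) .e))))) .e))))) (.c (.L (.c (.L (.c (.v 0 1 0) (.c (.v 0 3 0) (.c (.v 0 2 0)
  (.c (.R (.c (.R (.c (.v 30 1 0) (.c (.v 26 3 0) (.c (.L (.c (.L (.c (.v 0 1 0) (.c (.L (.c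
  (.f 25 0 1224 1224 0) (.c (.v 0 1 0) (.c (.v 0 6 0) (.c (.L (.c (.L (.c (.v 0 1 0) (.c (.v 0
  3 0) (.c (.v 0 5 0) (.c (.L (.c (.v 0 2 0) (.c (.v 0 3 0) (.c (.R (.c (.R (.c (.v 38 1 0) (.c
  (.R (.c (.f 25 34 664 664 0) (.c (.v 39 1 0) (.c (.L (.c (.L (.c (.v 0 1 0) (.c (.v 0 5 1)
  (.c (.L (.c (.v 0 2 0) (.c (.L (.c (.L (.c (.v 0 1 0) (.c (.v 0 8 1) (.c (.v 0 9 2) (.c (.R
  (.c (.v 0 21 5) (.c (.v 5 21 0) (.c (.v 45 1 0) (.c (.R (.c (.v 38 5 0) (.c (.f 10 41 1616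
  1616 0) (.c (.v 26 11 0) (.c (.v 46 1 0) .e))))) .e))))) .e))))) (.c (.v 0 1 0) (.c (.v 0 10
  0) (.c (.v 0 20 5) .e))))) (.c (.v 0 1 0) (.c (.v 0 3 0) .e))))) (.c (.v 0 20 3) .e))))) (.c
  (.L (.c (.v 0 5 1) (.c (.v 0 1 0) (.c (.L (.c (.L (.c (.v 0 1 0) (.c (.L (.c (.v 0 8 1) (.c
  (.v 0 1 0) (.c (.L (.c (.v 0 3 0) (.c (.v 0 12 3) (.c (.v 0 1 0) (.c (.v 0 4 1) .e))))) (.c
  (.v 0 4 0) .e))))) (.c (.v 0 10 0) (.c (.v 0 20 5) .e))))) (.c (.v 0 2 0) (.c (.v 0 1 0) (.c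
  (.f 5 0 153 643 1) .e))))) (.c (.L (.c (.v 0 6 0) (.c (.v 0 19 0) (.c (.f 1 0 153 643 1) (.c
  (.v 0 1 0) .e))))) .e))))) (.c (.v 0 1 0) (.c (.v 0 19 4) .e))))) (.c (.v 29 6 0) .e))))) (.c
  (.v 36 2 0) (.c (.f 11 33 153 643 1) .e))))) (.c (.R (.c (.R (.c (.v 39 1 0) (.c (.v 1 20 0)
  (.c (.f 1 34 664 664 0) (.c (.v 29 6 0) .e))))) (.c (.v 38 1 0) (.c (.R (.c (.f 5 34 664 664
  0) (.c (.v 37 2 0) (.c (.v 39 1 0) (.c (.R (.c (.f 3 35 153 643 0) (.c (.v 18 11 2) (.c (.v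
  22 10 0) (.c (.v 40 1 0) .e))))) .e))))) (.c (.v 29 5 1) .e))))) (.c (.v 37 1 0) (.c (.R (.c
  (.R (.c (.v 39 1 0) (.c (.v 29 6 0) (.c (.v 35 3 0) (.c (.R (.c (.v 38 2 0) (.c (.v 29 6 1)
  (.c (.v 36 3 0) (.c (.v 40 1 0) .e))))) .e))))) (.c (.v 29 5 1) (.c (.R (.c (.v 35 3 0) (.c
  (.R (.c (.R (.c (.v 41 1 0) (.c (.R (.c (.v 40 2 0) (.c (.v 42 1 0) (.c (.v 18 12 2) (.c (.v
  26 9 0) .e))))) (.c (.v 21 11 0) (.c (.f 14 36 1112 720 0) .e))))) (.c (.v 40 1 0) (.c (.v 22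
  10 0) (.c (.R (.c (.R (.c (.v 42 1 0) (.c (.v 26 9 0) (.c (.v 21 11 1) (.c (.R (.c (.v 41 2
  0) (.c (.v 26 9 1) (.c (.v 23 10 2) (.c (.v 43 1 0) .e))))) .e))))) (.c (.v 26 8 1) (.c (.v
  23 9 2) (.c (.v 41 1 0) .e))))) .e))))) (.c (.v 39 1 0) (.c (.v 37 2 0) .e))))) (.c (.v 38 1
  0) .e))))) .e))))) (.c (.v 0 1 0) .e))))) .e))))) (.c (.v 0 10 0) (.c (.L (.c (.v 0 5 0) (.c
  (.v 0 10 1) (.c (.v 0 1 0) (.c (.L (.c (.L (.c (.v 0 1 0) (.c (.f 3 0 1217 1217 0) (.c (.L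
  (.c (.L (.c (.v 0 1 0) (.c (.L (.c (.L (.c (.v 0 1 0) (.c (.v 0 2 0) (.c (.v 0 9 2) (.c (.v 0
  7 1) .e))))) (.c (.v 0 1 0) (.c (.v 0 10 0) (.c (.v 0 6 0) .e))))) (.c (.v 0 2 0) (.c (.v 0 3
  0) .e))))) (.c (.v 0 4 0) (.c (.v 0 1 0) (.c (.L (.c (.v 0 3 0) (.c (.v 0 4 1) (.c (.L (.c
  (.v 0 3 0) (.c (.L (.c (.v 0 7 0) (.c (.v 0 1 0) (.c (.L (.c (.L (.c (.v 0 1 0) (.c (.L (.c
  (.v 0 10 0) (.c (.v 0 1 0) (.c (.L (.c (.v 0 3 0) (.c (.L (.c (.v 0 3 0) (.c (.v 0 1 0) (.c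
  (.v 0 2 0) (.c (.v 0 21 0) .e))))) (.c (.v 0 1 0) (.c (.v 0 5 0) .e))))) (.c (.L (.c (.v 0 10
  1) (.c (.v 0 20 1) (.c (.v 0 5 0) (.c (.v 0 1 0) .e))))) .e))))) (.c (.f 25 0 1553 1602 0)
  (.c (.v 0 6 0) .e))))) (.c (.v 0 2 0) (.c (.v 0 1 0) (.c (.f 11 0 83 83 0) .e))))) (.c (.L
  (.c (.v 0 5 1) (.c (.L (.c (.L (.c (.v 0 1 0) (.c (.v 0 20 0) (.c (.L (.c (.v 0 10 1) (.c (.v
  0 20 1) (.c (.v 0 1 0) (.c (.f 14 0 1035 202 1) .e))))) (.c (.L (.c (.v 0 10 0) (.c (.v 0 20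
  5) (.c (.L (.c (.v 0 11 0) (.c (.v 0 21 1) (.c (.v 0 1 0) (.c (.L (.c (.f 4 0 202 1035 1) (.c
  (.L (.c (.f 3 0 1224 1224 0) (.c (.v 0 1 0) (.c (.v 0 6 1) (.c (.f 6 0 139 139 0) .e))))) (.c
  (.v 0 2 0) (.c (.v 0 1 0) .e))))) .e))))) (.c (.v 0 1 0) .e))))) .e))))) (.c (.v 0 1 0) (.c
  (.v 0 3 0) (.c (.v 0 2 0) .e))))) (.c (.L (.c (.v 0 6 0) (.c (.v 0 3 0) (.c (.v 0 1 0) (.c
  (.L (.c (.v 0 6 1) (.c (.v 0 3 0) (.c (.v 0 2 0) (.c (.v 0 1 0) .e))))) .e))))) (.c (.v 0 1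
  0) .e))))) .e))))) (.c (.v 0 1 0) (.c (.v 0 2 0) .e))))) (.c (.v 0 1 0) .e))))) .e))))) (.c
  (.f 6 0 153 643 0) .e))))) (.c (.v 0 16 0) (.c (.v 0 2 0) (.c (.v 0 1 0) .e))))) .e))))) (.c
  (.v 0 1 0) .e))))) .e))))) (.c (.f 11 0 1049 706 0) (.c (.v 0 2 0) .e))))) (.c (.v 0 7 0) (.c
  (.L (.c (.L (.c (.v 0 1 0) (.c (.v 0 6 0) (.c (.L (.c (.v 0 2 0) (.c (.v 0 6 1) (.c (.v 0 1
  0) (.c (.v 0 3 0) .e))))) (.c (.v 0 3 0) .e))))) (.c (.v 0 5 1) (.c (.v 0 1 0) (.c (.L (.c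
  (.v 0 3 0) (.c (.L (.c (.L (.c (.v 0 1 0) (.c (.v 0 10 1) (.c (.f 14 0 664 664 1) (.c (.L (.c
  (.L (.c (.v 0 1 0) (.c (.v 0 3 0) (.c (.L (.c (.L (.c (.v 0 1 0) (.c (.L (.c (.f 25 0 1672
  1672 0) (.c (.v 0 1 0) (.c (.v 0 10 0) (.c (.v 0 6 0) .e))))) (.c (.v 0 2 0) (.c (.f 11 0 153
  643 0) .e))))) (.c (.v 0 4 0) (.c (.v 0 1 0) (.c (.L (.c (.L (.c (.v 0 1 0) (.c (.v 0 6 0)
  (.c (.v 0 3 0) (.c (.L (.c (.v 0 2 0) (.c (.v 0 5 1) (.c (.v 0 3 0) (.c (.v 0 1 0) .e)))))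
  .e))))) (.c (.v 0 4 1) (.c (.v 0 6 1) (.c (.v 0 1 0) .e))))) .e))))) (.c (.v 0 2 0) .e)))))
  (.c (.v 0 16 0) (.c (.f 21 0 83 83 1) (.c (.v 0 1 0) .e))))) .e))))) (.c (.v 0 1 0) (.c (.L
  (.c (.L (.c (.v 0 1 0) (.c (.v 0 11 0) (.c (.L (.c (.v 0 2 0) (.c (.f 4 0 531 90 1) (.c (.v 0
  1 0) (.c (.L (.c (.v 0 6 1) (.c (.f 3 0 643 153 0) (.c (.f 6 0 538 538 0) (.c (.v 0 1 0)
  .e))))) .e))))) (.c (.f 17 0 83 83 1) .e))))) (.c (.v 0 10 0) (.c (.v 0 1 0) (.c (.L (.c (.f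
  9 0 83 83 1) (.c (.v 0 3 0) (.c (.L (.c (.L (.c (.v 0 1 0) (.c (.L (.c (.L (.c (.v 0 1 0) (.c
  (.v 0 2 0) (.c (.f 5 0 538 538 1) (.c (.v 0 7 0) .e))))) (.c (.v 0 1 0) (.c (.L (.c (.f 1 0
  538 538 1) (.c (.L (.c (.v 0 3 0) (.c (.v 0 1 0) (.c (.v 0 2 0) (.c (.L (.c (.v 0 4 0) (.c
  (.v 0 17 2) (.c (.L (.c (.v 0 4 1) (.c (.L (.c (.v 0 6 0) (.c (.v 0 1 0) (.c (.L (.c (.v 0 5
  1) (.c (.v 0 2 0) (.c (.v 0 1 0) (.c (.v 0 3 0) .e))))) (.c (.v 0 3 0) .e))))) (.c (.v 0 1 0)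
  (.c (.L (.c (.v 0 6 1) (.c (.v 0 3 0) (.c (.v 0 2 0) (.c (.v 0 1 0) .e))))) .e))))) (.c (.v 0
  1 0) .e))))) .e))))) (.c (.v 0 1 0) (.c (.v 0 6 0) .e))))) (.c (.v 0 5 1) .e))))) (.c (.L (.c
  (.v 0 2 0) (.c (.L (.c (.L (.c (.v 0 1 0) (.c (.v 0 16 0) (.c (.L (.c (.v 0 9 2) (.c (.v 0 3
  0) (.c (.v 0 1 0) (.c (.v 0 5 0) .e))))) (.c (.v 0 7 1) .e))))) (.c (.v 0 1 0) (.c (.f 25 0
  1546 1546 0) (.c (.v 0 6 0) .e))))) (.c (.v 0 1 0) (.c (.f 11 0 90 531 0) .e))))) (.c (.v 0 5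
  1) .e))))) (.c (.v 0 3 0) (.c (.v 0 1 0) (.c (.v 0 2 0) .e))))) (.c (.v 0 1 0) .e)))))
  .e))))) (.c (.L (.c (.L (.c (.v 0 1 0) (.c (.v 0 16 0) (.c (.f 6 0 83 83 1) (.c (.f 25 0 209
  1091 0) .e))))) (.c (.v 0 2 0) (.c (.f 11 0 531 90 0) (.c (.v 0 1 0) .e))))) .e))))) (.c (.v
  0 2 0) (.c (.v 0 1 0) .e))))) .e))))) (.c (.v 0 1 0) .e))))) (.c (.v 28 2 0) .e))))) (.c (.v
  25 3 0) (.c (.v 21 5 0) (.c (.v 29 1 0) .e))))) .e))))) (.c (.v 0 3 0) (.c (.v 0 1 0) (.c (.v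
  0 4 1) .e))))) (.c (.v 0 4 0) .e))))) (.c (.v 0 1 0) (.c (.f 6 0 1546 1546 0) (.c (.f 3 0 139
  139 0) .e))))) (.c (.v 0 1 0) (.c (.v 0 9 2) .e))))) (.c (.v 0 8 0) .e))))) (.c (.R (.c (.R
  (.c (.v 24 1 0) (.c (.v 20 3 0) (.c (.L (.c (.v 0 5 0) (.c (.v 0 1 0) (.c (.L (.c (.R (.c (.R
  (.c (.v 28 1 0) (.c (.R (.c (.f 25 24 664 664 0) (.c (.v 29 1 0) (.c (.R (.c (.R (.c (.v 31 1
  0) (.c (.v 27 3 0) (.c (.R (.c (.v 30 2 0) (.c (.v 28 3 0) (.c (.v 32 1 0) (.c (.R (.c (.R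
  (.c (.v 34 1 0) (.c (.v 25 5 1) (.c (.R (.c (.R (.c (.v 36 1 0) (.c (.v 25 6 1) (.c (.v 34 2
  0) (.c (.v 32 3 0) .e))))) (.c (.v 25 6 0) (.c (.v 35 1 0) (.c (.v 31 3 0) .e))))) (.c (.R
  (.c (.v 33 2 0) (.c (.R (.c (.R (.c (.v 37 1 0) (.c (.v 22 8 1) (.c (.R (.c (.R (.c (.v 39 1
  0) (.c (.v 22 9 1) (.c (.v 37 2 0) (.c (.v 19 10 2) .e))))) (.c (.v 22 9 0) (.c (.v 38 1 0)
  (.c (.f 17 33 209 1091 0) .e))))) (.c (.v 19 9 2) .e))))) (.c (.v 36 1 0) (.c (.R (.c (.f 14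
  32 538 538 0) (.c (.R (.c (.v 22 9 0) (.c (.v 38 1 0) (.c (.v 36 2 0) (.c (.f 5 33 209 1091
  0) .e))))) (.c (.v 37 1 0) (.c (.R (.c (.f 21 33 209 1091 0) (.c (.f 1 33 209 1091 0) (.c (.R
  (.c (.R (.c (.v 40 1 0) (.c (.v 34 4 0) (.c (.R (.c (.v 39 2 0) (.c (.R (.c (.R (.c (.v 43 1
  0) (.c (.R (.c (.v 42 2 0) (.c (.v 44 1 0) (.c (.v 40 3 0) (.c (.v 29 8 1) .e))))) (.c (.R
  (.c (.R (.c (.v 45 1 0) (.c (.v 41 3 0) (.c (.v 43 2 0) (.c (.v 27 9 2) .e))))) (.c (.v 40 3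
  0) (.c (.v 44 1 0) (.c (.v 36 5 0) .e))))) (.c (.v 31 7 0) .e))))) (.c (.v 42 1 0) (.c (.f 25
  37 538 538 0) (.c (.v 32 6 0) .e))))) (.c (.v 41 1 0) (.c (.f 11 36 90 531 1) .e))))) (.c (.R
  (.c (.v 30 6 1) (.c (.v 34 4 1) (.c (.R (.c (.v 38 3 0) (.c (.v 32 6 0) (.c (.v 42 1 0) (.c
  (.R (.c (.v 39 3 0) (.c (.v 34 5 1) (.c (.v 41 2 0) (.c (.v 43 1 0) .e))))) .e))))) (.c (.v
  41 1 0) .e))))) .e))))) (.c (.v 35 3 0) (.c (.v 39 1 0) (.c (.v 37 2 0) .e))))) (.c (.v 38 1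
  0) .e))))) .e))))) (.c (.R (.c (.v 19 9 2) (.c (.v 35 2 0) (.c (.R (.c (.f 6 33 209 1091 0)
  (.c (.R (.c (.R (.c (.v 40 1 0) (.c (.R (.c (.v 39 2 0) (.c (.v 41 1 0) (.c (.f 4 36 643 153
  0) (.c (.R (.c (.v 17 13 1) (.c (.v 6 19 0) (.c (.f 3 37 83 83 0) (.c (.v 42 1 0) .e)))))
  .e))))) (.c (.f 10 35 139 139 0) (.c (.v 32 5 0) .e))))) (.c (.v 39 1 0) (.c (.R (.c (.R (.c
  (.v 41 1 0) (.c (.R (.c (.R (.c (.v 43 1 0) (.c (.v 41 2 0) (.c (.v 39 3 0) (.c (.v 29 8 0)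
  .e))))) (.c (.v 42 1 0) (.c (.R (.c (.v 39 3 0) (.c (.R (.c (.v 40 3 0) (.c (.v 44 1 0) (.c
  (.v 42 2 0) (.c (.R (.c (.R (.c (.v 46 1 0) (.c (.R (.c (.R (.c (.v 48 1 0) (.c (.v 46 2 0)
  (.c (.R (.c (.R (.c (.v 50 1 0) (.c (.f 11 45 1665 1665 1) (.c (.v 48 2 0) (.c (.R (.c (.f 25
  46 1672 1672 0) (.c (.v 41 6 0) (.c (.R (.c (.R (.c (.v 53 1 0) (.c (.v 45 5 0) (.c (.R (.c
  (.v 52 2 0) (.c (.R (.c (.R (.c (.v 56 1 0) (.c (.v 43 7 1) (.c (.R (.c (.R (.c (.v 58 1 0)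
  (.c (.v 54 3 0) (.c (.v 56 2 0) (.c (.v 47 6 1) .e))))) (.c (.v 53 3 0) (.c (.v 57 1 0) (.c
  (.v 47 6 0) .e))))) (.c (.v 47 5 1) .e))))) (.c (.v 55 1 0) (.c (.R (.c (.f 11 51 1616 1616
  1) (.c (.v 54 2 0) (.c (.v 56 1 0) (.c (.v 28 14 2) .e))))) (.c (.v 28 14 1) .e))))) (.c (.v
  54 1 0) (.c (.v 50 3 0) .e))))) (.c (.v 49 3 0) .e))))) (.c (.v 40 7 0) (.c (.v 52 1 0) (.c
  (.v 31 11 1) .e))))) (.c (.v 51 1 0) .e))))) .e))))) (.c (.R (.c (.R (.c (.v 51 1 0) (.c (.R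
  (.c (.v 50 2 0) (.c (.v 52 1 0) (.c (.v 48 3 0) (.c (.v 43 5 1) .e))))) (.c (.v 47 3 0) (.c
  (.v 41 6 0) .e))))) (.c (.v 50 1 0) (.c (.R (.c (.v 47 3 0) (.c (.v 49 2 0) (.c (.v 51 1 0)
  (.c (.v 40 6 1) .e))))) (.c (.v 43 4 1) .e))))) (.c (.v 49 1 0) (.c (.v 43 4 0) .e))))) (.c
  (.v 44 3 0) .e))))) (.c (.v 47 1 0) (.c (.v 37 6 0) (.c (.v 0 22 5) .e))))) (.c (.v 37 5 1)
  (.c (.R (.c (.v 45 2 0) (.c (.v 0 22 5) (.c (.v 35 7 0) (.c (.v 47 1 0) .e))))) .e))))) (.c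
  (.v 0 22 3) (.c (.v 36 5 1) (.c (.v 45 1 0) .e))))) .e))))) (.c (.v 43 1 0) (.c (.f 9 38 1546
  1546 0) .e))))) (.c (.R (.c (.v 29 8 0) (.c (.R (.c (.f 4 39 1602 1553 0) (.c (.v 44 1 0) (.c
  (.R (.c (.f 3 40 1553 1602 0) (.c (.v 0 22 3) (.c (.v 45 1 0) (.c (.v 34 6 1) .e))))) (.c (.v
  42 2 0) .e))))) (.c (.f 17 38 1546 1546 0) (.c (.v 43 1 0) .e))))) .e))))) (.c (.R (.c (.v 40
  2 0) (.c (.f 11 37 1602 1553 1) (.c (.v 42 1 0) (.c (.R (.c (.R (.c (.v 44 1 0) (.c (.v 16 15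
  0) (.c (.R (.c (.R (.c (.v 46 1 0) (.c (.v 16 15 2) (.c (.v 44 2 0) (.c (.v 42 3 0) .e)))))
  (.c (.v 37 5 0) (.c (.v 45 1 0) (.c (.v 41 3 0) .e))))) (.c (.v 14 15 2) .e))))) (.c (.f 6 38
  1546 1546 0) (.c (.f 25 38 1546 1546 0) (.c (.v 43 1 0) .e))))) .e))))) (.c (.v 16 12 3)
  .e))))) (.c (.v 38 2 0) (.c (.v 40 1 0) (.c (.v 36 3 0) .e))))) (.c (.v 12 13 3) .e))))) (.c
  (.v 38 1 0) (.c (.v 16 12 0) .e))))) (.c (.v 37 1 0) .e))))) .e))))) (.c (.v 31 3 0) (.c (.v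
  35 1 0) .e))))) .e))))) (.c (.R (.c (.v 25 5 1) (.c (.v 34 1 0) (.c (.R (.c (.v 25 6 0) (.c
  (.R (.c (.R (.c (.v 37 1 0) (.c (.R (.c (.v 36 2 0) (.c (.v 38 1 0) (.c (.f 11 33 1546 1546
  1) (.c (.R (.c (.L (.c (.v 0 1 0) (.c (.L (.c (.L (.c (.v 0 1 0) (.c (.v 0 2 0) (.c (.v 0 3
  0) (.c (.L (.c (.v 0 10 0) (.c (.L (.c (.v 0 9 2) (.c (.v 0 1 0) (.c (.L (.c (.v 0 11 1) (.c
  (.L (.c (.v 0 10 2) (.c (.v 0 1 0) (.c (.v 0 2 0) (.c (.v 0 9 1) .e))))) (.c (.v 0 1 0) (.c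
  (.v 0 9 0) .e))))) (.c (.v 0 8 1) .e))))) (.c (.L (.c (.v 0 11 0) (.c (.f 14 0 1553 1602 1)
  (.c (.v 0 1 0) (.c (.L (.c (.v 0 12 2) (.c (.v 0 9 0) (.c (.v 0 2 0) (.c (.v 0 1 0) .e)))))
  .e))))) (.c (.v 0 1 0) .e))))) .e))))) (.c (.v 0 1 0) (.c (.L (.c (.v 0 3 0) (.c (.L (.c (.v
  0 3 0) (.c (.v 0 1 0) (.c (.v 0 2 0) (.c (.v 0 6 1) .e))))) (.c (.v 0 1 0) (.c (.v 0 6 0)
  .e))))) (.c (.v 0 5 1) .e))))) (.c (.L (.c (.v 0 2 0) (.c (.f 11 0 1602 1553 0) (.c (.v 0 1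
  0) (.c (.L (.c (.L (.c (.v 0 1 0) (.c (.L (.c (.v 0 11 0) (.c (.v 0 1 0) (.c (.v 0 5 0) (.c
  (.f 10 0 1049 706 1) .e))))) (.c (.L (.c (.L (.c (.v 0 1 0) (.c (.L (.c (.L (.c (.v 0 1 0)
  (.c (.v 0 2 0) (.c (.f 11 0 1553 1602 0) (.c (.L (.c (.f 25 0 720 1112 0) (.c (.L (.c (.R (.c
  (.v 50 1 0) (.c (.R (.c (.R (.c (.v 52 1 0) (.c (.v 50 2 0) (.c (.R (.c (.R (.c (.v 54 1 0)
  (.c (.f 11 49 1665 1665 1) (.c (.v 52 2 0) (.c (.R (.c (.f 25 50 1672 1672 0) (.c (.v 45 6 0)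
  (.c (.v 33 12 0) (.c (.v 55 1 0) .e))))) .e))))) (.c (.v 0 26 3) (.c (.v 53 1 0) (.c (.R (.c
  (.R (.c (.v 55 1 0) (.c (.v 45 6 0) (.c (.v 33 12 0) (.c (.R (.c (.v 54 2 0) (.c (.R (.c (.R
  (.c (.v 58 1 0) (.c (.R (.c (.v 57 2 0) (.c (.v 59 1 0) (.c (.v 48 6 1) (.c (.v 55 3 0)
  .e))))) (.c (.v 51 4 1) (.c (.R (.c (.R (.c (.v 60 1 0) (.c (.v 56 3 0) (.c (.v 51 5 1) (.c
  (.v 58 2 0) .e))))) (.c (.v 55 3 0) (.c (.v 49 6 0) (.c (.v 59 1 0) .e))))) .e))))) (.c (.v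
  57 1 0) (.c (.v 51 4 0) (.c (.v 15 20 4) .e))))) (.c (.v 52 3 0) (.c (.v 56 1 0) .e)))))
  .e))))) (.c (.v 45 5 1) (.c (.v 2 24 6) (.c (.v 54 1 0) .e))))) .e))))) (.c (.v 48 3 0)
  .e))))) (.c (.v 51 1 0) (.c (.v 43 5 0) (.c (.v 47 3 0) .e))))) (.c (.v 38 7 0) (.c (.R (.c
  (.v 49 2 0) (.c (.v 47 3 0) (.c (.R (.c (.R (.c (.v 53 1 0) (.c (.R (.c (.R (.c (.v 55 1 0)
  (.c (.v 53 2 0) (.c (.v 33 12 0) (.c (.R (.c (.f 6 51 720 1112 1) (.c (.v 45 6 1) (.c (.v 32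
  13 0) (.c (.v 56 1 0) .e))))) .e))))) (.c (.v 54 1 0) (.c (.v 2 24 6) (.c (.f 17 49 153 643
  0) .e))))) (.c (.v 35 10 0) (.c (.v 27 14 0) .e))))) (.c (.R (.c (.f 14 48 706 1049 0) (.c
  (.v 53 1 0) (.c (.v 2 24 5) (.c (.R (.c (.f 21 49 153 643 0) (.c (.R (.c (.R (.c (.v 56 1 0)
  (.c (.v 43 7 1) (.c (.v 50 4 0) (.c (.v 15 20 3) .e))))) (.c (.v 55 1 0) (.c (.v 51 3 0) (.c
  (.v 53 2 0) .e))))) (.c (.f 1 49 153 643 0) (.c (.v 54 1 0) .e))))) .e))))) (.c (.v 52 1 0)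
  (.c (.R (.c (.v 27 14 0) (.c (.R (.c (.f 6 49 153 643 0) (.c (.v 54 1 0) (.c (.R (.c (.R (.c
  (.v 56 1 0) (.c (.f 10 51 83 83 0) (.c (.v 2 25 6) (.c (.v 48 5 0) .e))))) (.c (.v 10 22 3)
  (.c (.v 55 1 0) (.c (.R (.c (.v 48 5 0) (.c (.v 52 3 0) (.c (.v 7 25 1) (.c (.v 56 1 0)
  .e))))) .e))))) (.c (.v 16 18 4) .e))))) (.c (.v 51 2 0) (.c (.v 53 1 0) .e))))) .e))))) (.c
  (.v 51 1 0) .e))))) .e))))) (.c (.v 0 1 0) (.c (.L (.c (.v 0 5 0) (.c (.L (.c (.L (.c (.v 0 1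
  0) (.c (.f 6 0 1665 1665 0) (.c (.L (.c (.L (.c (.v 0 1 0) (.c (.v 0 3 0) (.c (.v 0 2 0) (.c
  (.L (.c (.L (.c (.v 0 1 0) (.c (.v 0 7 1) (.c (.v 0 9 2) (.c (.v 0 2 0) .e))))) (.c (.v 0 6
  0) (.c (.L (.c (.v 0 9 2) (.c (.v 0 7 0) (.c (.v 0 1 0) (.c (.L (.c (.v 0 3 0) (.c (.v 0 15
  0) (.c (.v 0 2 0) (.c (.v 0 1 0) .e))))) .e))))) (.c (.v 0 1 0) .e))))) .e))))) (.c (.L (.c
  (.v 0 3 0) (.c (.v 0 1 0) (.c (.L (.c (.v 0 3 0) (.c (.v 0 2 0) (.c (.v 0 1 0) (.c (.v 0 13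
  0) .e))))) (.c (.v 0 4 1) .e))))) (.c (.v 0 1 0) (.c (.v 0 4 0) .e))))) (.c (.f 3 0 209 1091
  0) .e))))) (.c (.v 0 1 0) (.c (.v 0 2 0) (.c (.f 4 0 1217 1217 1) .e))))) (.c (.v 0 1 0) (.c
  (.v 0 23 4) .e))))) (.c (.v 0 16 0) .e))))) (.c (.v 0 6 0) (.c (.v 0 1 0) .e))))) .e))))) (.c
  (.v 0 1 0) (.c (.L (.c (.L (.c (.v 0 1 0) (.c (.v 0 3 0) (.c (.L (.c (.v 0 2 0) (.c (.v 0 3
  0) (.c (.v 0 1 0) (.c (.v 0 6 1) .e))))) (.c (.v 0 6 0) .e))))) (.c (.L (.c (.v 0 3 0) (.c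
  (.v 0 1 0) (.c (.v 0 2 0) (.c (.L (.c (.L (.c (.v 0 1 0) (.c (.L (.c (.L (.c (.v 0 1 0) (.c
  (.v 0 2 0) (.c (.L (.c (.L (.c (.v 0 1 0) (.c (.f 11 0 1665 1665 0) (.c (.v 0 2 0) (.c (.L
  (.c (.f 25 0 664 664 0) (.c (.v 0 6 0) (.c (.L (.c (.L (.c (.v 0 1 0) (.c (.v 0 5 0) (.c (.L
  (.c (.v 0 2 0) (.c (.v 0 9 2) (.c (.v 0 1 0) (.c (.v 0 3 0) .e))))) (.c (.v 0 3 0) .e)))))
  (.c (.v 0 7 0) (.c (.v 0 1 0) (.c (.L (.c (.v 0 3 0) (.c (.v 0 8 1) (.c (.v 0 2 0) (.c (.v 0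
  1 0) .e))))) .e))))) (.c (.v 0 1 0) .e))))) .e))))) (.c (.L (.c (.L (.c (.v 0 1 0) (.c (.L
  (.c (.v 0 2 0) (.c (.v 0 1 0) (.c (.v 0 3 0) (.c (.v 0 5 1) .e))))) (.c (.v 0 3 0) (.c (.v 0
  6 0) .e))))) (.c (.v 0 1 0) (.c (.v 0 6 1) (.c (.v 0 4 1) .e))))) (.c (.v 0 1 0) (.c (.v 0 4
  0) .e))))) (.c (.v 0 3 0) .e))))) (.c (.v 0 1 0) (.c (.f 21 0 1091 209 1) (.c (.f 1 0 1091
  209 1) .e))))) (.c (.f 14 0 1672 1672 1) (.c (.v 0 23 4) .e))))) (.c (.L (.c (.L (.c (.v 0 1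
  0) (.c (.v 0 12 0) (.c (.f 6 0 1091 209 1) (.c (.L (.c (.L (.c (.v 0 1 0) (.c (.v 0 3 0) (.c
  (.L (.c (.L (.c (.v 0 1 0) (.c (.L (.c (.f 25 0 1672 1672 0) (.c (.v 0 1 0) (.c (.L (.c (.L
  (.c (.v 0 1 0) (.c (.v 0 3 0) (.c (.L (.c (.v 0 2 0) (.c (.v 0 3 0) (.c (.v 0 1 0) (.c (.v 0
  15 2) .e))))) (.c (.v 0 5 0) .e))))) (.c (.v 0 15 2) (.c (.v 0 1 0) (.c (.v 0 15 0) .e)))))
  (.c (.f 6 0 664 664 1) .e))))) (.c (.v 0 2 0) (.c (.v 0 27 1) .e))))) (.c (.v 0 12 3) (.c (.v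
  0 1 0) (.c (.v 0 27 0) .e))))) (.c (.v 0 2 0) .e))))) (.c (.v 0 13 3) (.c (.L (.c (.f 10 0
  706 1049 1) (.c (.v 0 5 0) (.c (.v 0 1 0) (.c (.L (.c (.v 0 27 0) (.c (.L (.c (.f 3 0 1224
  1224 0) (.c (.v 0 1 0) (.c (.v 0 13 1) (.c (.v 0 19 0) .e))))) (.c (.v 0 2 0) (.c (.v 0 1 0)
  .e))))) .e))))) (.c (.v 0 1 0) .e))))) .e))))) (.c (.v 0 1 0) (.c (.v 0 9 2) (.c (.v 0 2 0)
  .e))))) (.c (.L (.c (.L (.c (.v 0 1 0) (.c (.f 17 0 1091 209 1) (.c (.L (.c (.v 0 2 0) (.c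
  (.v 0 10 2) (.c (.v 0 1 0) (.c (.v 0 9 1) .e))))) (.c (.v 0 9 0) .e))))) (.c (.v 0 9 2) (.c
  (.v 0 1 0) (.c (.v 0 8 1) .e))))) (.c (.v 0 1 0) .e))))) .e))))) (.c (.v 0 1 0) (.c (.v 0 5
  1) .e))))) (.c (.v 0 23 0) .e))))) (.c (.v 0 2 0) (.c (.v 0 3 0) .e))))) (.c (.v 0 5 0) (.c
  (.v 0 1 0) (.c (.v 0 3 0) .e))))) (.c (.v 0 20 1) .e))))) (.c (.v 0 6 0) (.c (.f 25 0 538 538
  0) (.c (.v 0 1 0) .e))))) .e))))) (.c (.L (.c (.L (.c (.v 0 1 0) (.c (.L (.c (.v 0 10 0) (.c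
  (.v 0 1 0) (.c (.f 3 0 1546 1546 0) (.c (.v 0 11 2) .e))))) (.c (.f 5 0 1546 1546 1) (.c (.v
  0 2 0) .e))))) (.c (.v 0 5 1) (.c (.L (.c (.f 1 0 1546 1546 1) (.c (.v 0 6 0) (.c (.v 0 1 0)
  (.c (.L (.c (.v 0 3 0) (.c (.L (.c (.v 0 4 0) (.c (.v 0 1 0) (.c (.L (.c (.v 0 4 1) (.c (.L
  (.c (.v 0 6 1) (.c (.v 0 1 0) (.c (.v 0 2 0) (.c (.v 0 3 0) .e))))) (.c (.v 0 1 0) (.c (.L
  (.c (.v 0 6 0) (.c (.v 0 3 0) (.c (.L (.c (.v 0 5 1) (.c (.v 0 3 0) (.c (.v 0 1 0) (.c (.v 0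
  2 0) .e))))) (.c (.v 0 1 0) .e))))) .e))))) (.c (.L (.c (.v 0 12 3) (.c (.v 0 2 0) (.c (.f 11
  0 531 90 0) (.c (.v 0 1 0) .e))))) .e))))) (.c (.v 0 2 0) (.c (.v 0 1 0) .e))))) .e))))) (.c
  (.v 0 1 0) .e))))) .e))))) (.c (.f 25 34 1602 1553 0) (.c (.v 29 6 0) (.c (.v 39 1 0) .e)))))
  .e))))) (.c (.R (.c (.R (.c (.v 39 1 0) (.c (.v 35 3 0) (.c (.v 37 2 0) (.c (.v 28 6 1)
  .e))))) (.c (.R (.c (.v 35 3 0) (.c (.v 39 1 0) (.c (.R (.c (.v 36 3 0) (.c (.v 38 2 0) (.c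
  (.v 40 1 0) (.c (.v 31 5 1) .e))))) (.c (.v 29 6 0) .e))))) (.c (.v 38 1 0) (.c (.v 31 4 1)
  .e))))) (.c (.v 31 4 0) .e))))) (.c (.v 36 1 0) (.c (.v 34 2 0) (.c (.v 32 3 0) .e))))) (.c
  (.v 35 1 0) (.c (.f 1 30 1049 706 0) .e))))) (.c (.v 8 14 0) .e))))) (.c (.R (.c (.f 11 29
  1112 720 1) (.c (.R (.c (.v 25 6 0) (.c (.v 35 1 0) (.c (.f 25 30 1049 706 0) (.c (.R (.c (.R
  (.c (.v 37 1 0) (.c (.f 10 32 531 90 0) (.c (.v 29 5 0) (.c (.R (.c (.v 36 2 0) (.c (.f 4 33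
  83 83 0) (.c (.R (.c (.R (.c (.v 40 1 0) (.c (.v 34 4 0) (.c (.R (.c (.v 39 2 0) (.c (.R (.c
  (.R (.c (.v 43 1 0) (.c (.R (.c (.v 42 2 0) (.c (.v 44 1 0) (.c (.v 40 3 0) (.c (.v 16 15 0)
  .e))))) (.c (.v 25 9 2) (.c (.v 31 7 0) .e))))) (.c (.v 42 1 0) (.c (.R (.c (.v 25 9 2) (.c
  (.v 41 2 0) (.c (.v 43 1 0) (.c (.v 30 7 1) .e))))) (.c (.v 32 6 0) .e))))) (.c (.v 41 1 0)
  (.c (.v 37 3 0) .e))))) (.c (.R (.c (.R (.c (.v 42 1 0) (.c (.v 18 13 0) (.c (.v 38 3 0) (.c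
  (.v 40 2 0) .e))))) (.c (.v 34 4 1) (.c (.v 37 3 0) (.c (.v 41 1 0) .e))))) .e))))) (.c (.f 3
  34 1035 202 0) (.c (.v 39 1 0) (.c (.f 6 34 90 531 1) .e))))) (.c (.v 38 1 0) .e))))) .e)))))
  (.c (.v 6 16 0) (.c (.R (.c (.v 29 5 0) (.c (.v 33 3 0) (.c (.v 37 1 0) (.c (.R (.c (.R (.c
  (.v 39 1 0) (.c (.R (.c (.R (.c (.v 41 1 0) (.c (.v 39 2 0) (.c (.R (.c (.f 6 37 1616 1616 1)
  (.c (.R (.c (.R (.c (.v 44 1 0) (.c (.R (.c (.v 43 2 0) (.c (.v 45 1 0) (.c (.v 41 3 0) (.c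
  (.R (.c (.R (.c (.v 47 1 0) (.c (.R (.c (.R (.c (.v 49 1 0) (.c (.v 47 2 0) (.c (.v 38 6 1)
  (.c (.v 45 3 0) .e))))) (.c (.v 48 1 0) (.c (.v 38 6 0) (.c (.v 44 3 0) .e))))) (.c (.v 38 5
  1) (.c (.v 35 7 0) .e))))) (.c (.R (.c (.f 11 42 1224 1224 1) (.c (.v 47 1 0) (.c (.R (.c (.v
  38 6 0) (.c (.f 25 43 1217 1217 0) (.c (.v 48 1 0) (.c (.R (.c (.R (.c (.v 50 1 0) (.c (.v 42
  5 0) (.c (.v 36 8 0) (.c (.R (.c (.v 49 2 0) (.c (.v 1 24 4) (.c (.v 33 9 2) (.c (.v 51 1 0)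
  .e))))) .e))))) (.c (.R (.c (.v 42 5 0) (.c (.v 50 1 0) (.c (.v 46 3 0) (.c (.v 1 23 5)
  .e))))) (.c (.R (.c (.v 36 8 0) (.c (.v 46 3 0) (.c (.v 50 1 0) (.c (.v 48 2 0) .e))))) (.c
  (.v 49 1 0) .e))))) .e))))) (.c (.v 45 2 0) .e))))) (.c (.R (.c (.v 38 5 1) (.c (.R (.c (.v
  38 6 0) (.c (.v 48 1 0) (.c (.R (.c (.v 37 7 0) (.c (.v 47 2 0) (.c (.v 49 1 0) (.c (.v 45 3
  0) .e))))) (.c (.f 1 43 1217 1217 0) .e))))) (.c (.v 47 1 0) (.c (.v 34 7 1) .e))))) (.c (.v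
  46 1 0) .e))))) .e))))) (.c (.v 40 3 0) (.c (.v 37 4 1) .e))))) (.c (.v 43 1 0) (.c (.v 28 8
  1) (.c (.v 37 4 0) .e))))) (.c (.v 42 1 0) (.c (.f 3 37 538 538 0) .e))))) (.c (.v 16 12 3)
  .e))))) (.c (.v 40 1 0) (.c (.v 31 5 1) (.c (.R (.c (.v 16 12 3) (.c (.R (.c (.v 38 3 0) (.c
  (.v 42 1 0) (.c (.R (.c (.v 37 4 0) (.c (.v 0 22 1) (.c (.v 43 1 0) (.c (.R (.c (.v 37 4 1)
  (.c (.v 0 23 0) (.c (.R (.c (.v 34 6 1) (.c (.v 41 3 0) (.c (.v 45 1 0) (.c (.v 43 2 0)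
  .e))))) (.c (.v 44 1 0) .e))))) .e))))) (.c (.v 40 2 0) .e))))) (.c (.v 31 6 0) (.c (.v 41 1
  0) .e))))) .e))))) (.c (.R (.c (.R (.c (.v 41 1 0) (.c (.R (.c (.R (.c (.v 43 1 0) (.c (.v 41
  2 0) (.c (.v 25 9 2) (.c (.R (.c (.v 22 12 0) (.c (.v 16 15 0) (.c (.f 6 39 1616 1616 0) (.c
  (.v 44 1 0) .e))))) .e))))) (.c (.v 42 1 0) (.c (.R (.c (.v 25 9 2) (.c (.v 28 8 1) (.c (.v
  43 1 0) (.c (.R (.c (.f 17 39 1616 1616 0) (.c (.v 28 9 0) (.c (.R (.c (.v 25 10 2) (.c (.v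
  28 9 1) (.c (.v 45 1 0) (.c (.v 43 2 0) .e))))) (.c (.v 44 1 0) .e))))) .e))))) (.c (.R (.c
  (.R (.c (.v 44 1 0) (.c (.v 16 15 0) (.c (.f 21 39 1616 1616 0) (.c (.v 14 15 2) .e))))) (.c
  (.R (.c (.v 16 15 0) (.c (.v 44 1 0) (.c (.v 28 9 0) (.c (.v 42 2 0) .e))))) (.c (.f 14 38
  153 643 0) (.c (.v 43 1 0) .e))))) .e))))) (.c (.v 39 2 0) (.c (.v 37 3 0) .e))))) (.c (.v 31
  5 1) (.c (.v 40 1 0) (.c (.R (.c (.v 37 3 0) (.c (.v 31 6 0) (.c (.R (.c (.v 38 3 0) (.c (.v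
  31 6 1) (.c (.v 42 1 0) (.c (.v 40 2 0) .e))))) (.c (.v 41 1 0) .e))))) .e))))) (.c (.R (.c
  (.v 38 2 0) (.c (.R (.c (.v 16 12 3) (.c (.v 41 1 0) (.c (.v 31 6 0) (.c (.f 25 36 90 531 0)
  .e))))) (.c (.f 11 35 538 538 1) (.c (.v 40 1 0) .e))))) .e))))) (.c (.v 34 3 0) (.c (.v 36 2
  0) (.c (.v 38 1 0) .e))))) .e))))) (.c (.v 36 1 0) .e))))) .e))))) (.c (.v 34 1 0) (.c (.v 32
  2 0) .e))))) (.c (.v 33 1 0) .e))))) .e))))) (.c (.v 23 5 0) .e))))) (.c (.R (.c (.v 27 3 0)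
  (.c (.v 31 1 0) (.c (.v 29 2 0) (.c (.R (.c (.R (.c (.v 33 1 0) (.c (.R (.c (.R (.c (.v 35 1
  0) (.c (.v 33 2 0) (.c (.R (.c (.v 23 7 1) (.c (.R (.c (.R (.c (.v 38 1 0) (.c (.R (.c (.v 37
  2 0) (.c (.v 39 1 0) (.c (.v 35 3 0) (.c (.v 30 5 1) .e))))) (.c (.v 34 3 0) (.c (.v 28 6 0)
  .e))))) (.c (.v 37 1 0) (.c (.v 26 6 1) (.c (.v 30 4 1) .e))))) (.c (.v 36 1 0) (.c (.v 30 4
  0) .e))))) (.c (.v 31 3 0) .e))))) (.c (.v 34 1 0) (.c (.f 21 29 1091 209 0) (.c (.f 1 29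
  1091 209 0) .e))))) (.c (.f 14 28 1672 1672 0) (.c (.R (.c (.v 32 2 0) (.c (.f 5 29 1091 209
  0) (.c (.v 8 14 0) (.c (.v 34 1 0) .e))))) .e))))) (.c (.v 7 12 3) (.c (.v 8 12 2) (.c (.v 32
  1 0) .e))))) .e))))) (.c (.v 30 1 0) (.c (.R (.c (.v 23 5 0) (.c (.f 10 26 1616 1616 0) (.c
  (.v 11 11 0) (.c (.v 31 1 0) .e))))) .e))))) (.c (.v 19 6 0) .e))))) (.c (.v 26 2 0) (.c (.f
  11 23 153 643 1) .e))))) (.c (.R (.c (.R (.c (.v 29 1 0) (.c (.R (.c (.v 28 2 0) (.c (.v 30 1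
  0) (.c (.v 26 3 0) (.c (.R (.c (.R (.c (.v 32 1 0) (.c (.R (.c (.R (.c (.v 34 1 0) (.c (.v 32
  2 0) (.c (.v 25 5 1) (.c (.v 30 3 0) .e))))) (.c (.v 33 1 0) (.c (.v 23 6 0) (.c (.v 29 3 0)
  .e))))) (.c (.v 25 4 1) (.c (.R (.c (.v 31 2 0) (.c (.v 29 3 0) (.c (.v 22 6 1) (.c (.v 33 1
  0) .e))))) .e))))) (.c (.R (.c (.f 11 27 1224 1224 1) (.c (.v 32 1 0) (.c (.v 7 12 3) (.c (.v
  30 2 0) .e))))) (.c (.v 25 4 0) (.c (.v 31 1 0) .e))))) .e))))) (.c (.f 1 24 664 664 0) (.c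
  (.v 19 6 0) .e))))) (.c (.v 28 1 0) (.c (.R (.c (.f 5 24 664 664 0) (.c (.v 27 2 0) (.c (.v
  29 1 0) (.c (.R (.c (.f 3 25 153 643 0) (.c (.v 8 11 2) (.c (.v 12 10 0) (.c (.v 30 1 0)
  .e))))) .e))))) (.c (.v 19 5 1) .e))))) (.c (.v 27 1 0) (.c (.R (.c (.R (.c (.v 29 1 0) (.c
  (.v 19 6 0) (.c (.v 25 3 0) (.c (.R (.c (.v 28 2 0) (.c (.v 19 6 1) (.c (.v 26 3 0) (.c (.v
  30 1 0) .e))))) .e))))) (.c (.v 19 5 1) (.c (.R (.c (.v 25 3 0) (.c (.R (.c (.R (.c (.v 31 1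
  0) (.c (.R (.c (.v 30 2 0) (.c (.v 32 1 0) (.c (.v 8 12 2) (.c (.v 16 9 0) .e))))) (.c (.v 11
  11 0) (.c (.f 14 26 1112 720 0) .e))))) (.c (.v 30 1 0) (.c (.v 12 10 0) (.c (.R (.c (.R (.c
  (.v 32 1 0) (.c (.v 16 9 0) (.c (.v 11 11 1) (.c (.R (.c (.v 31 2 0) (.c (.v 16 9 1) (.c (.v
  13 10 2) (.c (.v 33 1 0) .e))))) .e))))) (.c (.v 16 8 1) (.c (.v 13 9 2) (.c (.v 31 1 0)
  .e))))) .e))))) (.c (.v 29 1 0) (.c (.v 27 2 0) .e))))) (.c (.v 28 1 0) .e))))) .e))))) (.c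
  (.v 0 2 0) (.c (.v 0 1 0) (.c (.v 0 3 0) .e))))) (.c (.v 0 3 0) .e))))) (.c (.v 22 2 0)
  .e))))) (.c (.v 19 3 0) (.c (.v 15 5 0) (.c (.v 23 1 0) .e))))) (.c (.v 0 1 0) (.c (.L (.c
  (.v 0 8 0) (.c (.v 0 3 0) (.c (.v 0 2 0) (.c (.v 0 1 0) .e))))) .e))))) .e))))) (.c (.v 0 1
  0) .e))))) .e))))) (.c (.v 0 1 0) (.c (.L (.c (.v 0 5 1) (.c (.L (.c (.v 0 6 0) (.c (.v 0 1
  0) (.c (.f 1 0 1665 1665 1) (.c (.L (.c (.v 0 7 0) (.c (.v 0 2 0) (.c (.v 0 3 0) (.c (.v 0 1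
  0) .e))))) .e))))) (.c (.v 0 7 1) (.c (.v 0 1 0) .e))))) .e))))) (.c (.v 0 3 0) .e))))) (.c
  (.v 0 4 1) (.c (.v 0 3 0) .e))))) (.c (.v 0 1 0) (.c (.v 0 4 0) (.c (.v 0 8 1) .e))))) (.c
  (.v 14 1 0) (.c (.v 4 6 0) (.c (.f 25 9 90 531 0) .e))))) (.c (.f 11 8 538 538 1) (.c (.v 13
  1 0) .e))))) .e))))) (.c (.v 7 3 0) (.c (.v 9 2 0) (.c (.v 11 1 0) .e))))) .e))))) (.c (.v 9
  1 0) .e))))) (.c (.f 3 0 538 538 0) (.c (.v 0 1 0) .e))))) .e))))) .e)))))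

/-- certificate -/
def t29 : T := (.R (.c (.f 15 1 1602 1553 0) (.c (.v 6 1 0) (.c (.R (.c (.f 22 2 1049 706 0)
  (.c (.R (.c (.R (.c (.v 9 1 0) (.c (.R (.c (.v 8 2 0) (.c (.v 10 1 0) (.c (.f 12 5 1546 1546
  1) (.c (.R (.c (.L (.c (.v 0 1 0) (.c (.L (.c (.v 0 2 0) (.c (.v 0 1 0) (.c (.v 0 3 0) (.c
  (.R (.c (.v 14 1 0) (.c (.R (.c (.R (.c (.v 16 1 0) (.c (.v 14 2 0) (.c (.L (.c (.R (.c (.R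
  (.c (.v 19 1 0) (.c (.f 12 14 1665 1665 1) (.c (.v 17 2 0) (.c (.L (.c (.v 0 1 0) (.c (.v 0 9
  2) (.c (.v 0 7 0) (.c (.L (.c (.v 0 2 0) (.c (.v 0 3 0) (.c (.R (.c (.f 26 17 1672 1672 0)
  (.c (.v 12 6 0) (.c (.L (.c (.R (.c (.R (.c (.v 25 1 0) (.c (.v 17 5 0) (.c (.R (.c (.v 24 2
  0) (.c (.R (.c (.R (.c (.v 28 1 0) (.c (.R (.c (.v 27 2 0) (.c (.v 29 1 0) (.c (.v 25 3 0)
  (.c (.R (.c (.R (.c (.v 31 1 0) (.c (.v 13 9 2) (.c (.R (.c (.R (.c (.v 33 1 0) (.c (.v 13 10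
  2) (.c (.v 31 2 0) (.c (.v 16 9 1) .e))))) (.c (.f 18 27 1217 1217 0) (.c (.v 32 1 0) (.c (.v
  16 9 0) .e))))) (.c (.v 16 8 1) .e))))) (.c (.v 8 11 2) (.c (.v 0 16 0) (.c (.v 30 1 0)
  .e))))) .e))))) (.c (.R (.c (.R (.c (.v 30 1 0) (.c (.v 26 3 0) (.c (.v 28 2 0) (.c (.v 19 6
  1) .e))))) (.c (.v 25 3 0) (.c (.v 29 1 0) (.c (.v 19 6 0) .e))))) (.c (.v 19 5 1) .e)))))
  (.c (.v 27 1 0) (.c (.R (.c (.f 12 23 1616 1616 1) (.c (.v 26 2 0) (.c (.v 28 1 0) (.c (.v 0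
  14 2) .e))))) (.c (.v 0 13 3) .e))))) (.c (.v 26 1 0) (.c (.v 22 3 0) .e))))) (.c (.v 21 3 0)
  .e))))) (.c (.R (.c (.v 17 5 0) (.c (.v 25 1 0) (.c (.v 3 11 2) (.c (.f 11 20 1112 720 0)
  .e))))) (.c (.v 24 1 0) (.c (.v 0 13 0) .e))))) (.c (.v 0 9 0) (.c (.v 0 1 0) (.c (.L (.c (.f
  12 0 664 664 0) (.c (.L (.c (.f 7 0 153 643 1) (.c (.v 0 1 0) (.c (.L (.c (.L (.c (.v 0 1 0)
  (.c (.v 0 8 0) (.c (.L (.c (.v 0 2 0) (.c (.v 0 15 0) (.c (.v 0 1 0) (.c (.L (.c (.L (.c (.v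
  0 1 0) (.c (.v 0 4 0) (.c (.L (.c (.L (.c (.v 0 1 0) (.c (.v 0 10 0) (.c (.v 0 2 0) (.c (.v 0
  3 0) .e))))) (.c (.v 0 4 1) (.c (.v 0 1 0) (.c (.v 0 3 0) .e))))) (.c (.L (.c (.v 0 2 0) (.c
  (.v 0 8 1) (.c (.v 0 3 0) (.c (.v 0 1 0) .e))))) .e))))) (.c (.f 4 0 643 153 0) (.c (.f 7 0
  538 538 0) (.c (.v 0 1 0) .e))))) .e))))) (.c (.v 0 5 0) .e))))) (.c (.L (.c (.v 0 8 0) (.c
  (.v 0 1 0) (.c (.v 0 2 0) (.c (.v 0 3 0) .e))))) (.c (.v 0 1 0) (.c (.L (.c (.v 0 5 0) (.c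
  (.v 0 3 0) (.c (.L (.c (.L (.c (.v 0 1 0) (.c (.L (.c (.v 0 8 0) (.c (.v 0 1 0) (.c (.R (.c
  (.L (.c (.f 2 0 538 538 1) (.c (.L (.c (.v 0 3 0) (.c (.v 0 1 0) (.c (.v 0 2 0) (.c (.L (.c
  (.v 0 4 0) (.c (.L (.c (.L (.c (.v 0 1 0) (.c (.f 26 0 1217 1217 0) (.c (.v 0 6 0) (.c (.v 0
  10 0) .e))))) (.c (.v 0 1 0) (.c (.f 12 0 1035 202 0) (.c (.v 0 2 0) .e))))) (.c (.L (.c (.v
  0 4 1) (.c (.L (.c (.v 0 6 0) (.c (.v 0 1 0) (.c (.L (.c (.v 0 5 1) (.c (.v 0 2 0) (.c (.v 0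
  1 0) (.c (.v 0 3 0) .e))))) (.c (.v 0 3 0) .e))))) (.c (.v 0 1 0) (.c (.L (.c (.v 0 6 1) (.c
  (.v 0 3 0) (.c (.v 0 2 0) (.c (.v 0 1 0) .e))))) .e))))) (.c (.v 0 1 0) .e))))) .e))))) (.c
  (.v 0 1 0) (.c (.v 0 6 0) .e))))) (.c (.R (.c (.v 24 5 0) (.c (.v 32 1 0) (.c (.v 10 11 2)
  (.c (.f 11 27 1112 720 0) .e))))) (.c (.v 31 1 0) (.c (.v 1 16 0) .e))))) (.c (.v 0 5 1)
  .e))))) (.c (.L (.c (.v 0 2 0) (.c (.L (.c (.R (.c (.R (.c (.v 33 1 0) (.c (.v 25 5 0) (.c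
  (.R (.c (.v 32 2 0) (.c (.R (.c (.R (.c (.v 36 1 0) (.c (.R (.c (.v 35 2 0) (.c (.v 37 1 0)
  (.c (.v 33 3 0) (.c (.R (.c (.R (.c (.v 39 1 0) (.c (.v 21 9 2) (.c (.R (.c (.R (.c (.v 41 1
  0) (.c (.v 21 10 2) (.c (.v 39 2 0) (.c (.v 24 9 1) .e))))) (.c (.f 18 35 1217 1217 0) (.c
  (.v 40 1 0) (.c (.v 24 9 0) .e))))) (.c (.v 24 8 1) .e))))) (.c (.v 16 11 2) (.c (.R (.c (.f
  15 34 1546 1546 0) (.c (.R (.c (.f 22 35 1217 1217 0) (.c (.v 40 1 0) (.c (.R (.c (.R (.c (.v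
  42 1 0) (.c (.v 16 14 0) (.c (.R (.c (.v 41 2 0) (.c (.f 12 38 1602 1553 1) (.c (.v 43 1 0)
  (.c (.R (.c (.R (.c (.v 45 1 0) (.c (.v 33 7 0) (.c (.R (.c (.R (.c (.v 47 1 0) (.c (.v 29 9
  2) (.c (.v 45 2 0) (.c (.v 43 3 0) .e))))) (.c (.v 38 5 0) (.c (.v 46 1 0) (.c (.v 42 3 0)
  .e))))) (.c (.R (.c (.v 44 2 0) (.c (.v 31 8 1) (.c (.v 42 3 0) (.c (.v 46 1 0) .e)))))
  .e))))) (.c (.v 34 6 0) (.c (.f 26 39 1546 1546 0) (.c (.v 44 1 0) .e))))) .e))))) (.c (.v 36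
  4 0) .e))))) (.c (.v 39 2 0) (.c (.v 41 1 0) (.c (.v 37 3 0) .e))))) (.c (.v 9 15 3) .e)))))
  (.c (.v 39 1 0) (.c (.f 0 34 83 83 1) .e))))) (.c (.v 38 1 0) .e))))) .e))))) (.c (.R (.c (.R
  (.c (.v 38 1 0) (.c (.v 34 3 0) (.c (.v 36 2 0) (.c (.v 27 6 1) .e))))) (.c (.v 33 3 0) (.c
  (.v 37 1 0) (.c (.v 27 6 0) .e))))) (.c (.v 27 5 1) .e))))) (.c (.v 35 1 0) (.c (.R (.c (.f
  12 31 1616 1616 1) (.c (.v 34 2 0) (.c (.v 36 1 0) (.c (.R (.c (.v 27 6 0) (.c (.v 9 15 0)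
  (.c (.f 26 32 1553 1602 0) (.c (.v 37 1 0) .e))))) .e))))) (.c (.R (.c (.v 27 5 1) (.c (.v 16
  11 0) (.c (.R (.c (.v 27 6 0) (.c (.v 9 15 0) (.c (.v 37 1 0) (.c (.v 0 18 3) .e))))) (.c (.v
  36 1 0) .e))))) .e))))) (.c (.v 34 1 0) (.c (.v 30 3 0) .e))))) (.c (.v 29 3 0) .e))))) (.c
  (.R (.c (.v 25 5 0) (.c (.v 33 1 0) (.c (.v 11 11 2) (.c (.f 11 28 1112 720 0) .e))))) (.c
  (.v 32 1 0) (.c (.v 0 16 2) .e))))) (.c (.v 0 1 0) (.c (.f 26 0 1546 1546 0) (.c (.v 0 6 0)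
  .e))))) (.c (.v 0 1 0) (.c (.f 12 0 90 531 0) .e))))) (.c (.L (.c (.L (.c (.v 0 1 0) (.c (.v
  0 8 1) (.c (.v 0 3 0) (.c (.v 0 2 0) .e))))) (.c (.v 0 5 1) (.c (.L (.c (.v 0 3 0) (.c (.v 0
  6 0) (.c (.v 0 1 0) (.c (.L (.c (.v 0 3 0) (.c (.v 0 6 1) (.c (.v 0 2 0) (.c (.v 0 1 0)
  .e))))) .e))))) (.c (.v 0 1 0) .e))))) .e))))) (.c (.v 0 3 0) (.c (.v 0 1 0) (.c (.v 0 2 0)
  .e))))) (.c (.v 0 1 0) .e))))) .e))))) (.c (.f 26 0 139 139 0) .e))))) (.c (.v 0 2 0) (.c (.v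
  0 1 0) .e))))) .e))))) (.c (.v 22 1 0) .e))))) (.c (.v 0 1 0) .e))))) .e))))) .e))))) (.c (.R
  (.c (.R (.c (.v 20 1 0) (.c (.R (.c (.v 19 2 0) (.c (.v 21 1 0) (.c (.v 17 3 0) (.c (.v 10 6
  1) .e))))) (.c (.v 16 3 0) (.c (.v 10 6 0) .e))))) (.c (.v 19 1 0) (.c (.v 6 7 1) (.c (.v 10
  5 1) .e))))) (.c (.v 18 1 0) (.c (.v 0 10 0) .e))))) (.c (.L (.c (.v 0 9 2) (.c (.v 0 1 0)
  (.c (.v 0 7 1) (.c (.v 0 2 0) .e))))) (.c (.v 0 6 0) (.c (.v 0 1 0) .e))))) (.c (.v 12 3 0)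
  .e))))) (.c (.v 15 1 0) (.c (.v 7 5 0) (.c (.v 11 3 0) .e))))) (.c (.v 2 7 0) (.c (.R (.c (.v
  13 2 0) (.c (.v 11 3 0) (.c (.v 0 8 1) (.c (.v 15 1 0) .e))))) .e))))) .e))))) (.c (.L (.c
  (.L (.c (.v 0 1 0) (.c (.v 0 3 0) (.c (.v 0 2 0) (.c (.L (.c (.L (.c (.v 0 1 0) (.c (.L (.c
  (.f 26 0 1224 1224 0) (.c (.v 0 1 0) (.c (.v 0 6 0) (.c (.L (.c (.L (.c (.v 0 1 0) (.c (.v 0
  3 0) (.c (.v 0 5 0) (.c (.L (.c (.v 0 2 0) (.c (.v 0 3 0) (.c (.L (.c (.L (.c (.v 0 1 0) (.c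
  (.v 0 5 1) (.c (.L (.c (.v 0 2 0) (.c (.L (.c (.L (.c (.v 0 1 0) (.c (.v 0 8 1) (.c (.v 0 9
  2) (.c (.L (.c (.L (.c (.v 0 1 0) (.c (.v 0 9 1) (.c (.v 0 10 2) (.c (.v 0 2 0) .e))))) (.c
  (.v 0 9 0) (.c (.f 18 0 1553 1602 1) (.c (.v 0 1 0) .e))))) .e))))) (.c (.v 0 1 0) (.c (.v 0
  10 0) (.c (.L (.c (.f 15 0 90 531 1) (.c (.f 0 0 643 153 0) (.c (.L (.c (.f 22 0 1553 1602 1)
  (.c (.f 2 0 1553 1602 1) (.c (.v 0 1 0) (.c (.L (.c (.L (.c (.v 0 1 0) (.c (.v 0 4 0) (.c (.L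
  (.c (.v 0 6 1) (.c (.v 0 4 1) (.c (.v 0 1 0) (.c (.L (.c (.v 0 3 0) (.c (.v 0 6 0) (.c (.L
  (.c (.v 0 3 0) (.c (.v 0 5 1) (.c (.v 0 1 0) (.c (.v 0 2 0) .e))))) (.c (.v 0 1 0) .e)))))
  .e))))) (.c (.L (.c (.v 0 2 0) (.c (.L (.c (.L (.c (.v 0 1 0) (.c (.L (.c (.v 0 2 0) (.c (.v
  0 1 0) (.c (.v 0 8 1) (.c (.v 0 3 0) .e))))) (.c (.v 0 7 0) (.c (.L (.c (.L (.c (.v 0 1 0)
  (.c (.v 0 3 0) (.c (.v 0 9 2) (.c (.v 0 2 0) .e))))) (.c (.v 0 3 0) (.c (.v 0 5 0) (.c (.v 0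
  1 0) .e))))) .e))))) (.c (.v 0 1 0) (.c (.v 0 6 0) (.c (.f 26 0 202 1035 0) .e))))) (.c (.f
  12 0 538 538 0) (.c (.v 0 1 0) .e))))) .e))))) (.c (.v 0 3 0) (.c (.v 0 2 0) (.c (.v 0 1 0)
  .e))))) .e))))) (.c (.v 0 1 0) .e))))) .e))))) (.c (.v 0 1 0) (.c (.v 0 3 0) .e))))) (.c (.L
  (.c (.L (.c (.v 0 1 0) (.c (.v 0 6 1) (.c (.v 0 3 0) (.c (.v 0 2 0) .e))))) (.c (.v 0 6 0)
  (.c (.v 0 3 0) (.c (.v 0 1 0) .e))))) .e))))) (.c (.L (.c (.v 0 5 1) (.c (.v 0 1 0) (.c (.f 0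
  0 1035 202 0) (.c (.L (.c (.v 0 6 0) (.c (.L (.c (.L (.c (.v 0 1 0) (.c (.L (.c (.v 0 2 0)
  (.c (.v 0 1 0) (.c (.L (.c (.R (.c (.v 28 1 0) (.c (.R (.c (.R (.c (.v 30 1 0) (.c (.v 28 2
  0) (.c (.R (.c (.R (.c (.v 32 1 0) (.c (.f 12 27 1665 1665 1) (.c (.v 30 2 0) (.c (.R (.c (.f
  26 28 1672 1672 0) (.c (.v 23 6 0) (.c (.v 11 12 0) (.c (.v 33 1 0) .e))))) .e))))) (.c (.R
  (.c (.R (.c (.v 33 1 0) (.c (.R (.c (.v 32 2 0) (.c (.v 34 1 0) (.c (.v 30 3 0) (.c (.v 23 6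
  1) .e))))) (.c (.v 29 3 0) (.c (.v 23 6 0) .e))))) (.c (.v 32 1 0) (.c (.v 19 7 1) (.c (.v 23
  5 1) .e))))) (.c (.v 31 1 0) (.c (.R (.c (.R (.c (.v 33 1 0) (.c (.v 23 6 0) (.c (.v 11 12 0)
  (.c (.v 4 14 3) .e))))) (.c (.v 23 5 1) (.c (.f 0 27 538 538 1) (.c (.v 32 1 0) .e)))))
  .e))))) (.c (.v 26 3 0) .e))))) (.c (.v 29 1 0) (.c (.v 21 5 0) (.c (.v 25 3 0) .e))))) (.c
  (.v 16 7 0) (.c (.R (.c (.v 27 2 0) (.c (.v 25 3 0) (.c (.L (.c (.v 0 1 0) (.c (.L (.c (.L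
  (.c (.v 0 1 0) (.c (.v 0 2 0) (.c (.v 0 3 0) (.c (.L (.c (.L (.c (.v 0 1 0) (.c (.f 12 0 1217
  1217 0) (.c (.L (.c (.f 26 0 1112 720 0) (.c (.v 0 6 0) (.c (.v 0 1 0) (.c (.v 0 12 0)
  .e))))) (.c (.v 0 2 0) .e))))) (.c (.L (.c (.L (.c (.v 0 1 0) (.c (.L (.c (.v 0 2 0) (.c (.v
  0 1 0) (.c (.v 0 6 1) (.c (.v 0 3 0) .e))))) (.c (.v 0 6 0) (.c (.v 0 3 0) .e))))) (.c (.v 0
  1 0) (.c (.v 0 5 1) (.c (.v 0 7 1) .e))))) (.c (.L (.c (.L (.c (.v 0 1 0) (.c (.v 0 6 0) (.c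
  (.v 0 14 3) (.c (.v 0 12 0) .e))))) (.c (.v 0 5 1) (.c (.v 0 1 0) (.c (.f 0 0 90 531 0)
  .e))))) (.c (.v 0 1 0) .e))))) .e))))) (.c (.v 0 1 0) (.c (.v 0 3 0) (.c (.v 0 5 0) .e)))))
  (.c (.v 0 14 3) (.c (.v 0 7 0) .e))))) (.c (.v 29 1 0) .e))))) .e))))) (.c (.f 26 0 1602 1553
  0) (.c (.v 0 1 0) (.c (.v 0 6 0) .e))))) (.c (.f 12 0 202 1035 0) .e))))) (.c (.v 0 4 0) (.c
  (.L (.c (.L (.c (.v 0 1 0) (.c (.v 0 3 0) (.c (.v 0 6 1) (.c (.v 0 2 0) .e))))) (.c (.L (.c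
  (.v 0 3 0) (.c (.v 0 1 0) (.c (.v 0 6 0) (.c (.L (.c (.v 0 3 0) (.c (.v 0 2 0) (.c (.v 0 5 1)
  (.c (.v 0 1 0) .e))))) .e))))) (.c (.v 0 4 1) (.c (.v 0 1 0) .e))))) .e))))) (.c (.v 0 1 0)
  (.c (.v 0 3 0) (.c (.v 0 2 0) .e))))) (.c (.f 2 0 153 643 1) (.c (.v 0 1 0) .e))))) .e)))))
  (.c (.v 0 1 0) (.c (.L (.c (.f 12 0 664 664 0) (.c (.L (.c (.v 0 6 0) (.c (.v 0 1 0) (.c (.R
  (.c (.v 24 1 0) (.c (.R (.c (.R (.c (.v 26 1 0) (.c (.v 24 2 0) (.c (.R (.c (.R (.c (.v 28 1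
  0) (.c (.f 12 23 1665 1665 1) (.c (.v 26 2 0) (.c (.R (.c (.f 26 24 1672 1672 0) (.c (.v 19 6
  0) (.c (.v 7 12 0) (.c (.v 29 1 0) .e))))) .e))))) (.c (.R (.c (.R (.c (.v 29 1 0) (.c (.R
  (.c (.v 28 2 0) (.c (.v 30 1 0) (.c (.v 26 3 0) (.c (.v 19 6 1) .e))))) (.c (.v 25 3 0) (.c
  (.v 19 6 0) .e))))) (.c (.v 28 1 0) (.c (.v 15 7 1) (.c (.v 19 5 1) .e))))) (.c (.v 27 1 0)
  (.c (.R (.c (.R (.c (.v 29 1 0) (.c (.v 19 6 0) (.c (.v 7 12 0) (.c (.R (.c (.v 28 2 0) (.c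
  (.R (.c (.R (.c (.v 32 1 0) (.c (.R (.c (.v 31 2 0) (.c (.v 33 1 0) (.c (.v 22 6 1) (.c (.v
  29 3 0) .e))))) (.c (.v 25 4 1) (.c (.R (.c (.R (.c (.v 34 1 0) (.c (.v 30 3 0) (.c (.v 25 5
  1) (.c (.v 32 2 0) .e))))) (.c (.v 29 3 0) (.c (.v 23 6 0) (.c (.v 33 1 0) .e))))) .e)))))
  (.c (.v 31 1 0) (.c (.v 25 4 0) (.c (.R (.c (.f 12 27 720 1112 1) (.c (.v 30 2 0) (.c (.R (.c
  (.v 23 6 0) (.c (.R (.c (.v 22 7 0) (.c (.v 34 1 0) (.c (.R (.c (.R (.c (.v 36 1 0) (.c (.R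
  (.c (.v 19 10 0) (.c (.v 37 1 0) (.c (.v 9 15 0) (.c (.R (.c (.f 11 33 1546 1546 0) (.c (.R
  (.c (.v 17 12 0) (.c (.v 39 1 0) (.c (.R (.c (.v 16 13 0) (.c (.f 7 35 1091 209 1) (.c (.v 40
  1 0) (.c (.v 29 6 1) .e))))) (.c (.v 37 2 0) .e))))) (.c (.f 18 33 1546 1546 0) (.c (.v 38 1
  0) .e))))) .e))))) (.c (.v 4 17 0) (.c (.R (.c (.f 0 32 664 664 1) (.c (.f 15 32 83 83 0) (.c
  (.v 1 18 2) (.c (.v 37 1 0) .e))))) .e))))) (.c (.v 33 2 0) (.c (.v 35 1 0) (.c (.v 31 3 0)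
  .e))))) (.c (.R (.c (.v 27 5 0) (.c (.R (.c (.R (.c (.v 37 1 0) (.c (.R (.c (.v 36 2 0) (.c
  (.v 38 1 0) (.c (.R (.c (.v 17 12 0) (.c (.f 26 34 706 1049 0) (.c (.v 39 1 0) (.c (.v 29 6
  0) .e))))) (.c (.f 12 33 202 1035 1) .e))))) (.c (.R (.c (.f 0 33 1616 1616 1) (.c (.R (.c
  (.v 17 12 0) (.c (.v 39 1 0) (.c (.R (.c (.v 36 3 0) (.c (.v 38 2 0) (.c (.v 40 1 0) (.c (.R
  (.c (.v 35 4 0) (.c (.R (.c (.v 35 4 1) (.c (.v 42 1 0) (.c (.R (.c (.v 33 6 0) (.c (.R (.c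
  (.v 35 5 1) (.c (.v 44 1 0) (.c (.v 42 2 0) (.c (.v 40 3 0) .e))))) (.c (.v 43 1 0) (.c (.v
  39 3 0) .e))))) (.c (.R (.c (.v 32 6 1) (.c (.v 41 2 0) (.c (.v 39 3 0) (.c (.v 43 1 0)
  .e))))) .e))))) (.c (.R (.c (.v 1 20 3) (.c (.f 12 37 1091 209 1) (.c (.v 42 1 0) (.c (.v 40
  2 0) .e))))) (.c (.v 41 1 0) .e))))) .e))))) (.c (.v 29 6 0) .e))))) (.c (.v 38 1 0) (.c (.v
  29 5 1) .e))))) (.c (.R (.c (.v 25 7 1) (.c (.R (.c (.v 35 3 0) (.c (.v 39 1 0) (.c (.v 29 6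
  0) (.c (.R (.c (.v 36 3 0) (.c (.v 38 2 0) (.c (.v 29 6 1) (.c (.v 40 1 0) .e))))) .e)))))
  (.c (.v 29 5 1) (.c (.v 38 1 0) .e))))) .e))))) (.c (.v 36 1 0) (.c (.v 32 3 0) (.c (.v 34 2
  0) .e))))) (.c (.v 31 3 0) (.c (.v 35 1 0) .e))))) .e))))) (.c (.v 33 1 0) (.c (.f 26 28 209
  1091 0) .e))))) (.c (.v 32 1 0) .e))))) .e))))) (.c (.v 26 3 0) (.c (.v 30 1 0) .e)))))
  .e))))) (.c (.v 19 5 1) (.c (.f 0 23 538 538 1) (.c (.v 28 1 0) .e))))) .e))))) (.c (.v 22 3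
  0) .e))))) (.c (.v 25 1 0) (.c (.v 17 5 0) (.c (.v 21 3 0) .e))))) (.c (.v 12 7 0) (.c (.R
  (.c (.v 23 2 0) (.c (.v 21 3 0) (.c (.R (.c (.R (.c (.v 27 1 0) (.c (.R (.c (.R (.c (.v 29 1
  0) (.c (.v 27 2 0) (.c (.v 7 12 0) (.c (.R (.c (.f 7 25 720 1112 1) (.c (.v 19 6 1) (.c (.v 6
  13 0) (.c (.v 30 1 0) .e))))) .e))))) (.c (.v 28 1 0) (.c (.f 11 23 153 643 0) (.c (.f 18 23
  153 643 0) .e))))) (.c (.v 9 10 0) (.c (.v 1 14 0) .e))))) (.c (.R (.c (.f 15 22 706 1049 0)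
  (.c (.v 27 1 0) (.c (.f 0 22 1035 202 1) (.c (.R (.c (.f 22 23 153 643 0) (.c (.R (.c (.R (.c
  (.v 30 1 0) (.c (.v 17 7 1) (.c (.v 24 4 0) (.c (.R (.c (.v 20 6 1) (.c (.R (.c (.v 28 3 0)
  (.c (.v 32 1 0) (.c (.v 22 6 0) (.c (.R (.c (.v 29 3 0) (.c (.v 31 2 0) (.c (.v 24 5 1) (.c
  (.v 33 1 0) .e))))) .e))))) (.c (.v 24 4 1) (.c (.v 31 1 0) .e))))) .e))))) (.c (.v 29 1 0)
  (.c (.v 25 3 0) (.c (.v 27 2 0) .e))))) (.c (.f 2 23 153 643 0) (.c (.v 28 1 0) .e)))))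
  .e))))) (.c (.v 26 1 0) (.c (.R (.c (.v 1 14 0) (.c (.R (.c (.f 7 23 153 643 0) (.c (.v 28 1
  0) (.c (.L (.c (.L (.c (.v 0 1 0) (.c (.f 11 0 83 83 1) (.c (.L (.c (.v 0 2 0) (.c (.f 5 0
  531 90 1) (.c (.v 0 1 0) (.c (.L (.c (.L (.c (.v 0 1 0) (.c (.v 0 4 0) (.c (.L (.c (.L (.c
  (.v 0 1 0) (.c (.L (.c (.L (.c (.v 0 1 0) (.c (.v 0 2 0) (.c (.f 12 0 1553 1602 0) (.c (.v 0
  12 0) .e))))) (.c (.v 0 1 0) (.c (.L (.c (.L (.c (.v 0 1 0) (.c (.v 0 3 0) (.c (.L (.c (.v 0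
  2 0) (.c (.v 0 3 0) (.c (.v 0 1 0) (.c (.v 0 6 1) .e))))) (.c (.v 0 6 0) .e))))) (.c (.v 0 17
  3) (.c (.v 0 1 0) (.c (.v 0 5 1) .e))))) (.c (.v 0 7 0) .e))))) (.c (.v 0 2 0) (.c (.v 0 3 0)
  .e))))) (.c (.v 0 4 1) (.c (.v 0 1 0) (.c (.v 0 3 0) .e))))) (.c (.L (.c (.v 0 2 0) (.c (.L
  (.c (.L (.c (.v 0 1 0) (.c (.L (.c (.v 0 2 0) (.c (.v 0 1 0) (.c (.L (.c (.v 0 13 3) (.c (.L
  (.c (.v 0 15 2) (.c (.v 0 1 0) (.c (.v 0 2 0) (.c (.L (.c (.f 7 0 1665 1665 1) (.c (.f 26 0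
  643 153 0) (.c (.L (.c (.v 0 19 3) (.c (.L (.c (.v 0 5 0) (.c (.v 0 1 0) (.c (.L (.c (.v 0 21
  3) (.c (.v 0 2 0) (.c (.v 0 1 0) (.c (.v 0 3 0) .e))))) (.c (.v 0 3 0) .e))))) (.c (.v 0 1 0)
  (.c (.L (.c (.v 0 8 0) (.c (.v 0 3 0) (.c (.v 0 2 0) (.c (.v 0 1 0) .e))))) .e))))) (.c (.v 0
  1 0) .e))))) .e))))) (.c (.v 0 1 0) (.c (.v 0 9 0) .e))))) (.c (.v 0 3 0) .e))))) (.c (.v 0 7
  0) (.c (.v 0 9 2) .e))))) (.c (.v 0 1 0) (.c (.v 0 6 0) (.c (.L (.c (.v 0 9 2) (.c (.v 0 2 0)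
  (.c (.v 0 7 1) (.c (.v 0 1 0) .e))))) .e))))) (.c (.v 0 3 0) (.c (.v 0 1 0) .e))))) .e)))))
  (.c (.f 4 0 643 153 0) (.c (.f 7 0 538 538 0) (.c (.v 0 1 0) .e))))) .e))))) (.c (.v 0 5 0)
  .e))))) (.c (.v 0 13 3) (.c (.v 0 1 0) (.c (.L (.c (.v 0 5 0) (.c (.v 0 3 0) (.c (.L (.c (.R
  (.c (.R (.c (.v 33 1 0) (.c (.f 11 28 83 83 0) (.c (.R (.c (.v 32 2 0) (.c (.f 5 29 531 90 0)
  (.c (.v 34 1 0) (.c (.R (.c (.R (.c (.v 36 1 0) (.c (.v 30 4 0) (.c (.R (.c (.v 6 15 3) (.c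
  (.v 30 4 1) (.c (.v 37 1 0) (.c (.v 33 3 0) .e))))) (.c (.v 2 16 4) .e))))) (.c (.f 4 30 139
  139 0) (.c (.f 7 30 538 538 1) (.c (.v 35 1 0) .e))))) .e))))) (.c (.v 25 5 0) .e))))) (.c
  (.R (.c (.R (.c (.v 34 1 0) (.c (.v 19 8 1) (.c (.R (.c (.v 9 13 2) (.c (.v 17 10 0) (.c (.v
  35 1 0) (.c (.R (.c (.v 22 8 0) (.c (.f 18 31 1602 1553 0) (.c (.R (.c (.f 5 32 1546 1546 0)
  (.c (.R (.c (.f 4 33 1665 1665 0) (.c (.v 38 1 0) (.c (.f 7 33 1035 202 1) (.c (.v 27 6 1)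
  .e))))) (.c (.v 37 1 0) (.c (.v 35 2 0) .e))))) (.c (.v 36 1 0) .e))))) .e))))) (.c (.R (.c
  (.v 23 7 0) (.c (.v 19 8 2) (.c (.f 15 30 139 139 0) (.c (.v 35 1 0) .e))))) .e))))) (.c (.v
  33 1 0) (.c (.v 31 2 0) (.c (.v 29 3 0) .e))))) (.c (.v 32 1 0) (.c (.R (.c (.v 25 5 0) (.c
  (.v 29 3 0) (.c (.R (.c (.R (.c (.v 35 1 0) (.c (.R (.c (.v 22 8 0) (.c (.v 36 1 0) (.c (.R
  (.c (.f 2 32 538 538 0) (.c (.R (.c (.v 34 3 0) (.c (.v 38 1 0) (.c (.v 36 2 0) (.c (.R (.c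
  (.v 33 4 0) (.c (.R (.c (.R (.c (.v 41 1 0) (.c (.f 26 36 1091 209 0) (.c (.v 31 6 0) (.c (.v
  23 10 0) .e))))) (.c (.v 40 1 0) (.c (.f 12 35 1035 202 1) (.c (.v 38 2 0) .e))))) (.c (.R
  (.c (.v 33 4 1) (.c (.R (.c (.v 31 6 0) (.c (.v 41 1 0) (.c (.R (.c (.v 33 5 1) (.c (.v 40 2
  0) (.c (.v 42 1 0) (.c (.v 38 3 0) .e))))) (.c (.v 37 3 0) .e))))) (.c (.v 40 1 0) (.c (.R
  (.c (.v 30 6 1) (.c (.v 37 3 0) (.c (.v 39 2 0) (.c (.v 41 1 0) .e))))) .e))))) (.c (.v 39 1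
  0) .e))))) .e))))) (.c (.v 37 1 0) (.c (.v 27 6 0) .e))))) (.c (.v 27 5 1) .e))))) (.c (.R
  (.c (.v 34 2 0) (.c (.R (.c (.R (.c (.v 38 1 0) (.c (.R (.c (.v 37 2 0) (.c (.v 39 1 0) (.c
  (.v 35 3 0) (.c (.v 19 11 0) .e))))) (.c (.R (.c (.v 6 17 1) (.c (.v 35 3 0) (.c (.v 39 1 0)
  (.c (.v 31 5 0) .e))))) (.c (.R (.c (.v 5 17 2) (.c (.v 19 11 0) (.c (.v 31 5 0) (.c (.v 39 1
  0) .e))))) .e))))) (.c (.v 37 1 0) (.c (.f 26 32 538 538 0) (.c (.v 27 6 0) .e))))) (.c (.v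
  36 1 0) (.c (.f 12 31 90 531 1) .e))))) (.c (.R (.c (.v 2 16 4) (.c (.v 27 5 1) (.c (.R (.c
  (.v 33 3 0) (.c (.v 27 6 0) (.c (.v 37 1 0) (.c (.R (.c (.v 34 3 0) (.c (.v 27 6 1) (.c (.v
  36 2 0) (.c (.v 38 1 0) .e))))) .e))))) (.c (.v 36 1 0) .e))))) .e))))) (.c (.v 30 3 0) (.c
  (.v 34 1 0) (.c (.v 32 2 0) .e))))) (.c (.v 33 1 0) .e))))) .e))))) (.c (.v 0 3 0) (.c (.v 0
  1 0) (.c (.v 0 2 0) .e))))) (.c (.v 0 1 0) .e))))) .e))))) (.c (.f 26 23 153 643 0) .e)))))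
  (.c (.v 25 2 0) (.c (.v 27 1 0) .e))))) .e))))) (.c (.v 25 1 0) .e))))) .e))))) (.c (.f 26 0
  139 139 0) .e))))) (.c (.v 0 2 0) (.c (.v 0 1 0) .e))))) .e))))) (.c (.v 0 1 0) .e)))))
  .e))))) (.c (.v 0 10 0) (.c (.L (.c (.v 0 5 0) (.c (.v 0 10 1) (.c (.v 0 1 0) (.c (.L (.c (.L
  (.c (.v 0 1 0) (.c (.f 4 0 1217 1217 0) (.c (.L (.c (.L (.c (.v 0 1 0) (.c (.L (.c (.L (.c
  (.v 0 1 0) (.c (.v 0 2 0) (.c (.v 0 9 2) (.c (.v 0 7 1) .e))))) (.c (.v 0 1 0) (.c (.v 0 10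
  0) (.c (.v 0 6 0) .e))))) (.c (.v 0 2 0) (.c (.v 0 3 0) .e))))) (.c (.v 0 4 0) (.c (.v 0 1 0)
  (.c (.L (.c (.v 0 3 0) (.c (.v 0 4 1) (.c (.L (.c (.v 0 3 0) (.c (.L (.c (.v 0 7 0) (.c (.v 0
  1 0) (.c (.L (.c (.L (.c (.v 0 1 0) (.c (.L (.c (.v 0 10 0) (.c (.v 0 1 0) (.c (.L (.c (.v 0
  3 0) (.c (.L (.c (.v 0 3 0) (.c (.v 0 1 0) (.c (.v 0 2 0) (.c (.L (.c (.L (.c (.v 0 1 0) (.c
  (.L (.c (.v 0 14 3) (.c (.v 0 1 0) (.c (.v 0 6 0) (.c (.f 2 0 1091 209 1) .e))))) (.c (.v 0 5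
  1) (.c (.f 0 0 209 1091 0) .e))))) (.c (.L (.c (.L (.c (.v 0 1 0) (.c (.f 26 0 1217 1217 0)
  (.c (.v 0 6 0) (.c (.R (.c (.v 34 1 0) (.c (.R (.c (.R (.c (.v 36 1 0) (.c (.v 34 2 0) (.c
  (.R (.c (.R (.c (.v 38 1 0) (.c (.f 12 33 1665 1665 1) (.c (.v 36 2 0) (.c (.R (.c (.f 26 34
  1672 1672 0) (.c (.v 29 6 0) (.c (.v 17 12 0) (.c (.v 39 1 0) .e))))) .e))))) (.c (.R (.c (.R
  (.c (.v 39 1 0) (.c (.R (.c (.v 38 2 0) (.c (.v 40 1 0) (.c (.v 36 3 0) (.c (.v 29 6 1)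
  .e))))) (.c (.v 35 3 0) (.c (.v 29 6 0) .e))))) (.c (.v 38 1 0) (.c (.v 25 7 1) (.c (.v 29 5
  1) .e))))) (.c (.v 37 1 0) (.c (.R (.c (.R (.c (.v 39 1 0) (.c (.v 29 6 0) (.c (.v 17 12 0)
  (.c (.R (.c (.v 38 2 0) (.c (.R (.c (.R (.c (.v 42 1 0) (.c (.R (.c (.v 41 2 0) (.c (.v 43 1
  0) (.c (.v 32 6 1) (.c (.v 39 3 0) .e))))) (.c (.v 35 4 1) (.c (.R (.c (.R (.c (.v 44 1 0)
  (.c (.v 40 3 0) (.c (.v 35 5 1) (.c (.v 42 2 0) .e))))) (.c (.v 39 3 0) (.c (.v 33 6 0) (.c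
  (.v 43 1 0) .e))))) .e))))) (.c (.v 41 1 0) (.c (.v 35 4 0) (.c (.R (.c (.f 12 37 720 1112 1)
  (.c (.v 40 2 0) (.c (.v 1 20 3) (.c (.v 42 1 0) .e))))) .e))))) (.c (.v 36 3 0) (.c (.v 40 1
  0) .e))))) .e))))) (.c (.v 29 5 1) (.c (.f 0 33 538 538 1) (.c (.v 38 1 0) .e))))) .e)))))
  (.c (.v 32 3 0) .e))))) (.c (.v 35 1 0) (.c (.v 27 5 0) (.c (.v 31 3 0) .e))))) (.c (.v 22 7
  0) (.c (.R (.c (.v 33 2 0) (.c (.v 31 3 0) (.c (.R (.c (.R (.c (.v 37 1 0) (.c (.R (.c (.R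
  (.c (.v 39 1 0) (.c (.v 37 2 0) (.c (.v 17 12 0) (.c (.R (.c (.f 7 35 720 1112 1) (.c (.v 29
  6 1) (.c (.v 16 13 0) (.c (.v 40 1 0) .e))))) .e))))) (.c (.v 38 1 0) (.c (.f 11 33 153 643
  0) (.c (.f 18 33 153 643 0) .e))))) (.c (.v 19 10 0) (.c (.v 9 15 0) .e))))) (.c (.R (.c (.f
  15 32 706 1049 0) (.c (.v 37 1 0) (.c (.f 0 32 1035 202 1) (.c (.v 1 18 2) .e))))) (.c (.v 36
  1 0) (.c (.v 4 17 0) .e))))) (.c (.v 35 1 0) .e))))) .e))))) .e))))) (.c (.v 0 1 0) (.c (.f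
  12 0 1035 202 0) (.c (.v 0 2 0) .e))))) (.c (.L (.c (.v 0 5 1) (.c (.L (.c (.v 0 6 0) (.c (.v
  0 1 0) (.c (.L (.c (.v 0 6 1) (.c (.v 0 2 0) (.c (.v 0 1 0) (.c (.v 0 3 0) .e))))) (.c (.v 0
  3 0) .e))))) (.c (.v 0 1 0) (.c (.L (.c (.L (.c (.v 0 1 0) (.c (.L (.c (.v 0 16 1) (.c (.v 0
  1 0) (.c (.f 15 0 643 153 1) (.c (.L (.c (.v 0 17 0) (.c (.L (.c (.v 0 3 0) (.c (.v 0 1 0)
  (.c (.L (.c (.v 0 4 0) (.c (.L (.c (.L (.c (.v 0 1 0) (.c (.f 26 0 1665 1665 0) (.c (.L (.c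
  (.L (.c (.v 0 1 0) (.c (.v 0 3 0) (.c (.v 0 2 0) (.c (.v 0 8 1) .e))))) (.c (.L (.c (.v 0 3
  0) (.c (.v 0 1 0) (.c (.L (.c (.v 0 3 0) (.c (.v 0 2 0) (.c (.v 0 1 0) (.c (.v 0 9 2) .e)))))
  (.c (.v 0 5 0) .e))))) (.c (.v 0 1 0) (.c (.v 0 7 0) .e))))) (.c (.v 0 6 0) .e))))) (.c (.v 0
  1 0) (.c (.v 0 2 0) (.c (.f 12 0 139 139 0) .e))))) (.c (.v 0 1 0) (.c (.L (.c (.v 0 4 1) (.c
  (.L (.c (.v 0 6 0) (.c (.v 0 1 0) (.c (.v 0 3 0) (.c (.L (.c (.v 0 5 1) (.c (.v 0 2 0) (.c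
  (.v 0 3 0) (.c (.v 0 1 0) .e))))) .e))))) (.c (.v 0 6 1) (.c (.v 0 1 0) .e))))) .e))))) (.c
  (.v 0 2 0) .e))))) (.c (.f 22 0 90 531 1) (.c (.v 0 1 0) .e))))) .e))))) (.c (.L (.c (.v 0 8
  1) (.c (.L (.c (.v 0 9 0) (.c (.v 0 1 0) (.c (.L (.c (.v 0 9 1) (.c (.v 0 2 0) (.c (.v 0 1 0)
  (.c (.v 0 10 2) .e))))) (.c (.f 18 0 90 531 1) .e))))) (.c (.v 0 1 0) (.c (.v 0 9 2) .e)))))
  (.c (.v 0 10 0) .e))))) (.c (.v 0 3 0) (.c (.v 0 2 0) (.c (.v 0 1 0) .e))))) .e))))) (.c (.v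
  0 1 0) .e))))) .e))))) (.c (.v 0 1 0) (.c (.v 0 5 0) .e))))) (.c (.L (.c (.v 0 10 1) (.c (.L
  (.c (.f 5 0 1602 1553 1) (.c (.v 0 1 0) (.c (.L (.c (.f 4 0 1616 1616 0) (.c (.f 7 0 1091 209
  0) (.c (.v 0 1 0) (.c (.L (.c (.v 0 4 0) (.c (.L (.c (.v 0 4 1) (.c (.v 0 1 0) (.c (.v 0 3 0)
  (.c (.L (.c (.L (.c (.v 0 1 0) (.c (.L (.c (.L (.c (.v 0 1 0) (.c (.v 0 2 0) (.c (.L (.c (.v
  0 19 0) (.c (.L (.c (.L (.c (.v 0 1 0) (.c (.L (.c (.v 0 2 0) (.c (.v 0 1 0) (.c (.v 0 3 0)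
  (.c (.L (.c (.v 0 5 1) (.c (.L (.c (.f 12 0 1224 1224 0) (.c (.v 0 1 0) (.c (.L (.c (.v 0 6
  0) (.c (.f 26 0 1091 209 0) (.c (.v 0 1 0) (.c (.L (.c (.v 0 7 1) (.c (.L (.c (.v 0 5 0) (.c
  (.v 0 1 0) (.c (.v 0 3 0) (.c (.v 0 9 2) .e))))) (.c (.L (.c (.v 0 8 1) (.c (.v 0 3 0) (.c
  (.v 0 1 0) (.c (.v 0 2 0) .e))))) (.c (.v 0 1 0) .e))))) .e))))) (.c (.v 0 2 0) .e))))) (.c
  (.L (.c (.v 0 5 1) (.c (.L (.c (.v 0 6 0) (.c (.v 0 1 0) (.c (.L (.c (.L (.c (.v 0 1 0) (.c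
  (.L (.c (.L (.c (.v 0 1 0) (.c (.v 0 2 0) (.c (.v 0 3 0) (.c (.v 0 6 1) .e))))) (.c (.v 0 1
  0) (.c (.L (.c (.v 0 3 0) (.c (.L (.c (.v 0 3 0) (.c (.v 0 1 0) (.c (.v 0 2 0) (.c (.v 0 5 1)
  .e))))) (.c (.v 0 1 0) (.c (.v 0 6 0) .e))))) (.c (.v 0 4 1) .e))))) (.c (.L (.c (.v 0 2 0)
  (.c (.f 12 0 1602 1553 0) (.c (.v 0 1 0) (.c (.L (.c (.L (.c (.v 0 1 0) (.c (.v 0 7 0) (.c
  (.L (.c (.L (.c (.v 0 1 0) (.c (.L (.c (.L (.c (.v 0 1 0) (.c (.v 0 2 0) (.c (.f 12 0 1553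
  1602 0) (.c (.L (.c (.f 26 0 720 1112 0) (.c (.R (.c (.v 55 1 0) (.c (.R (.c (.R (.c (.v 57 1
  0) (.c (.v 55 2 0) (.c (.R (.c (.R (.c (.v 59 1 0) (.c (.f 12 54 1665 1665 1) (.c (.v 57 2 0)
  (.c (.R (.c (.f 26 55 1672 1672 0) (.c (.v 50 6 0) (.c (.v 38 12 0) (.c (.v 60 1 0) .e)))))
  .e))))) (.c (.v 4 25 6) (.c (.v 58 1 0) (.c (.R (.c (.R (.c (.v 60 1 0) (.c (.v 50 6 0) (.c
  (.v 38 12 0) (.c (.R (.c (.v 59 2 0) (.c (.R (.c (.R (.c (.v 63 1 0) (.c (.R (.c (.v 62 2 0)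
  (.c (.v 64 1 0) (.c (.v 53 6 1) (.c (.v 60 3 0) .e))))) (.c (.v 56 4 1) (.c (.R (.c (.R (.c
  (.v 65 1 0) (.c (.v 61 3 0) (.c (.v 56 5 1) (.c (.v 63 2 0) .e))))) (.c (.v 60 3 0) (.c (.v
  54 6 0) (.c (.v 64 1 0) .e))))) .e))))) (.c (.v 62 1 0) (.c (.v 56 4 0) (.c (.R (.c (.f 12 58
  720 1112 1) (.c (.v 61 2 0) (.c (.v 25 20 0) (.c (.v 63 1 0) .e))))) .e))))) (.c (.v 57 3 0)
  (.c (.v 61 1 0) .e))))) .e))))) (.c (.v 50 5 1) (.c (.f 0 54 538 538 1) (.c (.v 59 1 0)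
  .e))))) .e))))) (.c (.v 53 3 0) .e))))) (.c (.v 56 1 0) (.c (.v 48 5 0) (.c (.v 52 3 0)
  .e))))) (.c (.v 43 7 0) (.c (.R (.c (.v 54 2 0) (.c (.v 52 3 0) (.c (.R (.c (.R (.c (.v 58 1
  0) (.c (.R (.c (.R (.c (.v 60 1 0) (.c (.v 58 2 0) (.c (.v 38 12 0) (.c (.R (.c (.f 7 56 720
  1112 1) (.c (.v 50 6 1) (.c (.v 37 13 0) (.c (.v 61 1 0) .e))))) .e))))) (.c (.v 59 1 0) (.c
  (.f 11 54 153 643 0) (.c (.f 18 54 153 643 0) .e))))) (.c (.v 40 10 0) (.c (.v 30 15 0)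
  .e))))) (.c (.R (.c (.f 15 53 706 1049 0) (.c (.v 58 1 0) (.c (.f 0 53 1035 202 1) (.c (.R
  (.c (.f 22 54 153 643 0) (.c (.v 15 21 4) (.c (.f 2 54 153 643 0) (.c (.v 59 1 0) .e)))))
  .e))))) (.c (.v 57 1 0) (.c (.R (.c (.v 30 15 0) (.c (.R (.c (.f 7 54 153 643 0) (.c (.v 59 1
  0) (.c (.R (.c (.R (.c (.v 61 1 0) (.c (.f 11 56 83 83 0) (.c (.R (.c (.v 60 2 0) (.c (.f 5
  57 531 90 0) (.c (.v 62 1 0) (.c (.v 25 18 3) .e))))) (.c (.v 53 5 0) .e))))) (.c (.v 15 22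
  3) (.c (.v 60 1 0) (.c (.v 24 17 4) .e))))) (.c (.v 25 16 4) .e))))) (.c (.v 56 2 0) (.c (.v
  58 1 0) .e))))) .e))))) (.c (.v 56 1 0) .e))))) .e))))) (.c (.v 0 6 0) (.c (.v 0 1 0) .e)))))
  .e))))) (.c (.v 0 1 0) (.c (.L (.c (.L (.c (.v 0 1 0) (.c (.v 0 3 0) (.c (.v 0 27 0) (.c (.v
  0 6 0) .e))))) (.c (.v 0 7 1) (.c (.v 0 1 0) (.c (.v 0 5 1) .e))))) (.c (.L (.c (.L (.c (.v 0
  1 0) (.c (.f 2 0 1616 1616 1) (.c (.v 0 6 0) (.c (.L (.c (.v 0 2 0) (.c (.v 0 3 0) (.c (.v 0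
  26 5) (.c (.v 0 1 0) .e))))) .e))))) (.c (.f 0 0 706 1049 0) (.c (.v 0 5 1) (.c (.v 0 1 0)
  .e))))) .e))))) (.c (.v 0 2 0) (.c (.v 0 3 0) .e))))) (.c (.v 0 5 0) (.c (.v 0 1 0) (.c (.v 0
  3 0) .e))))) (.c (.v 0 20 0) .e))))) (.c (.v 0 6 0) (.c (.f 26 0 538 538 0) (.c (.v 0 1 0)
  .e))))) .e))))) (.c (.v 0 4 0) .e))))) (.c (.v 0 2 0) (.c (.v 0 1 0) (.c (.v 0 3 0) .e)))))
  (.c (.f 2 0 1217 1217 1) .e))))) (.c (.v 0 1 0) (.c (.f 0 0 83 83 0) .e))))) (.c (.v 0 1 0)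
  .e))))) .e))))) (.c (.v 0 3 0) (.c (.f 10 0 1672 1672 1) .e))))) (.c (.v 0 1 0) (.c (.v 0 10
  0) (.c (.L (.c (.f 18 0 1672 1672 1) (.c (.L (.c (.L (.c (.v 0 1 0) (.c (.f 7 0 1217 1217 0)
  (.c (.f 4 0 1553 1602 0) (.c (.v 0 6 1) .e))))) (.c (.v 0 1 0) (.c (.f 5 0 1665 1665 1) (.c
  (.v 0 2 0) .e))))) (.c (.v 0 11 0) (.c (.v 0 1 0) .e))))) .e))))) (.c (.v 0 1 0) (.c (.L (.c
  (.v 0 20 0) (.c (.f 15 0 209 1091 1) (.c (.v 0 10 1) (.c (.v 0 1 0) .e))))) .e))))) (.c (.v 0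
  3 0) .e))))) (.c (.v 0 1 0) (.c (.v 0 5 1) (.c (.L (.c (.v 0 3 0) (.c (.L (.c (.v 0 3 0) (.c
  (.v 0 1 0) (.c (.v 0 6 1) (.c (.v 0 2 0) .e))))) (.c (.v 0 6 0) (.c (.v 0 1 0) .e)))))
  .e))))) (.c (.v 0 7 0) (.c (.L (.c (.v 0 2 0) (.c (.f 12 0 706 1049 0) (.c (.L (.c (.L (.c
  (.v 0 1 0) (.c (.L (.c (.v 0 20 0) (.c (.v 0 1 0) (.c (.v 0 10 1) (.c (.v 0 5 0) .e))))) (.c
  (.v 0 10 0) (.c (.L (.c (.L (.c (.v 0 1 0) (.c (.L (.c (.L (.c (.v 0 1 0) (.c (.v 0 2 0) (.c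
  (.v 0 20 3) (.c (.f 12 0 209 1091 0) .e))))) (.c (.v 0 1 0) (.c (.L (.c (.v 0 20 3) (.c (.f 0
  0 1602 1553 0) (.c (.v 0 1 0) (.c (.v 0 5 1) .e))))) (.c (.L (.c (.L (.c (.v 0 1 0) (.c (.v 0
  3 0) (.c (.v 0 6 0) (.c (.L (.c (.v 0 2 0) (.c (.v 0 3 0) (.c (.v 0 6 1) (.c (.v 0 1 0)
  .e))))) .e))))) (.c (.L (.c (.v 0 3 0) (.c (.v 0 1 0) (.c (.L (.c (.L (.c (.v 0 1 0) (.c (.L
  (.c (.L (.c (.v 0 1 0) (.c (.v 0 2 0) (.c (.v 0 3 0) (.c (.L (.c (.L (.c (.v 0 1 0) (.c (.f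
  12 0 1217 1217 0) (.c (.L (.c (.f 26 0 1112 720 0) (.c (.v 0 6 0) (.c (.v 0 1 0) (.c (.L (.c
  (.L (.c (.v 0 1 0) (.c (.v 0 5 0) (.c (.v 0 3 0) (.c (.L (.c (.v 0 2 0) (.c (.v 0 9 2) (.c
  (.v 0 3 0) (.c (.v 0 1 0) .e))))) .e))))) (.c (.v 0 7 0) (.c (.L (.c (.v 0 3 0) (.c (.v 0 8
  1) (.c (.v 0 1 0) (.c (.v 0 2 0) .e))))) (.c (.v 0 1 0) .e))))) .e))))) (.c (.v 0 2 0)
  .e))))) (.c (.L (.c (.L (.c (.v 0 1 0) (.c (.L (.c (.v 0 2 0) (.c (.v 0 1 0) (.c (.v 0 5 1)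
  (.c (.v 0 3 0) .e))))) (.c (.v 0 6 0) (.c (.v 0 3 0) .e))))) (.c (.v 0 1 0) (.c (.v 0 4 1)
  (.c (.v 0 6 1) .e))))) (.c (.v 0 4 0) (.c (.v 0 1 0) .e))))) .e))))) (.c (.v 0 1 0) (.c (.v 0
  17 0) (.c (.f 22 0 643 153 1) .e))))) (.c (.v 0 16 1) (.c (.f 15 0 1224 1224 1) .e))))) (.c
  (.v 0 10 0) (.c (.v 0 1 0) (.c (.L (.c (.L (.c (.v 0 1 0) (.c (.f 18 0 643 153 1) (.c (.v 0 9
  0) (.c (.L (.c (.v 0 2 0) (.c (.v 0 10 2) (.c (.v 0 9 1) (.c (.v 0 1 0) .e))))) .e))))) (.c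
  (.v 0 9 2) (.c (.v 0 8 1) (.c (.v 0 1 0) .e))))) .e))))) (.c (.v 0 2 0) .e))))) (.c (.v 0 5
  1) (.c (.v 0 1 0) .e))))) .e))))) (.c (.v 0 3 0) (.c (.v 0 2 0) .e))))) (.c (.v 0 5 0) (.c
  (.v 0 3 0) (.c (.v 0 1 0) .e))))) .e))))) (.c (.v 0 6 0) (.c (.v 0 1 0) (.c (.f 26 0 90 531
  0) .e))))) (.c (.v 0 1 0) .e))))) .e))))) (.c (.v 0 2 0) (.c (.v 0 3 0) (.c (.v 0 1 0)
  .e))))) .e))))) (.c (.L (.c (.L (.c (.v 0 1 0) (.c (.v 0 6 0) (.c (.L (.c (.v 0 2 0) (.c (.v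
  0 7 1) (.c (.v 0 1 0) (.c (.v 0 9 2) .e))))) (.c (.v 0 10 0) .e))))) (.c (.v 0 3 0) (.c (.v 0
  1 0) (.c (.v 0 2 0) .e))))) (.c (.v 0 1 0) .e))))) .e))))) (.c (.v 0 2 0) .e))))) (.c (.v 0 5
  0) (.c (.v 0 1 0) .e))))) .e))))) (.c (.f 26 0 1553 1602 0) (.c (.v 0 6 0) .e))))) (.c (.v 0
  2 0) (.c (.v 0 1 0) (.c (.f 12 0 83 83 0) .e))))) (.c (.L (.c (.v 0 5 1) (.c (.L (.c (.R (.c
  (.v 28 1 0) (.c (.R (.c (.R (.c (.v 30 1 0) (.c (.v 28 2 0) (.c (.R (.c (.R (.c (.v 32 1 0)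
  (.c (.f 12 27 1665 1665 1) (.c (.v 30 2 0) (.c (.R (.c (.f 26 28 1672 1672 0) (.c (.v 23 6 0)
  (.c (.v 11 12 0) (.c (.v 33 1 0) .e))))) .e))))) (.c (.R (.c (.R (.c (.v 33 1 0) (.c (.R (.c
  (.v 32 2 0) (.c (.v 34 1 0) (.c (.v 30 3 0) (.c (.v 23 6 1) .e))))) (.c (.v 29 3 0) (.c (.v
  23 6 0) .e))))) (.c (.v 32 1 0) (.c (.v 19 7 1) (.c (.v 23 5 1) .e))))) (.c (.v 31 1 0) (.c
  (.R (.c (.R (.c (.v 33 1 0) (.c (.v 23 6 0) (.c (.v 11 12 0) (.c (.R (.c (.v 32 2 0) (.c (.R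
  (.c (.R (.c (.v 36 1 0) (.c (.R (.c (.v 35 2 0) (.c (.v 37 1 0) (.c (.v 26 6 1) (.c (.v 33 3
  0) .e))))) (.c (.v 29 4 1) (.c (.R (.c (.R (.c (.v 38 1 0) (.c (.v 34 3 0) (.c (.v 29 5 1)
  (.c (.v 36 2 0) .e))))) (.c (.v 33 3 0) (.c (.v 27 6 0) (.c (.v 37 1 0) .e))))) .e))))) (.c
  (.v 35 1 0) (.c (.v 29 4 0) (.c (.R (.c (.f 12 31 720 1112 1) (.c (.v 34 2 0) (.c (.L (.c (.v
  0 1 0) (.c (.v 0 19 0) (.c (.L (.c (.v 0 10 1) (.c (.v 0 20 0) (.c (.v 0 1 0) (.c (.f 15 0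
  1035 202 1) .e))))) (.c (.L (.c (.v 0 10 0) (.c (.L (.c (.v 0 3 0) (.c (.v 0 1 0) (.c (.f 10
  0 706 1049 1) (.c (.L (.c (.v 0 3 0) (.c (.v 0 2 0) (.c (.L (.c (.L (.c (.v 0 1 0) (.c (.v 0
  5 1) (.c (.f 0 0 1049 706 0) (.c (.L (.c (.L (.c (.v 0 1 0) (.c (.L (.c (.L (.c (.v 0 1 0)
  (.c (.v 0 2 0) (.c (.L (.c (.f 26 0 1616 1616 0) (.c (.L (.c (.L (.c (.v 0 1 0) (.c (.L (.c
  (.v 0 2 0) (.c (.v 0 1 0) (.c (.v 0 3 0) (.c (.R (.c (.v 41 6 0) (.c (.L (.c (.L (.c (.v 0 1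
  0) (.c (.L (.c (.v 0 27 0) (.c (.v 0 1 0) (.c (.v 0 6 0) (.c (.v 0 3 0) .e))))) (.c (.v 0 5
  1) (.c (.v 0 7 1) .e))))) (.c (.L (.c (.f 12 0 1224 1224 0) (.c (.v 0 1 0) (.c (.L (.c (.v 0
  6 0) (.c (.f 26 0 1091 209 0) (.c (.v 0 1 0) (.c (.R (.c (.v 43 7 0) (.c (.v 55 1 0) (.c (.R
  (.c (.R (.c (.v 57 1 0) (.c (.R (.c (.v 40 10 0) (.c (.v 58 1 0) (.c (.v 30 15 0) (.c (.R (.c
  (.f 11 54 1546 1546 0) (.c (.R (.c (.v 38 12 0) (.c (.v 60 1 0) (.c (.R (.c (.v 37 13 0) (.c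
  (.f 7 56 1091 209 1) (.c (.v 61 1 0) (.c (.v 50 6 1) .e))))) (.c (.v 58 2 0) .e))))) (.c (.f
  18 54 1546 1546 0) (.c (.v 59 1 0) .e))))) .e))))) (.c (.R (.c (.v 56 2 0) (.c (.v 30 15 0)
  (.c (.v 58 1 0) (.c (.R (.c (.R (.c (.v 60 1 0) (.c (.R (.c (.R (.c (.v 62 1 0) (.c (.v 60 2
  0) (.c (.v 25 18 3) (.c (.f 5 57 1112 720 0) .e))))) (.c (.v 61 1 0) (.c (.v 53 5 0) (.c (.f
  11 56 1049 706 0) .e))))) (.c (.v 24 17 4) (.c (.v 15 22 3) .e))))) (.c (.f 7 54 1546 1546 0)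
  (.c (.v 25 16 4) (.c (.v 59 1 0) .e))))) .e))))) (.c (.R (.c (.f 0 53 664 664 1) (.c (.f 15
  53 83 83 0) (.c (.R (.c (.f 2 54 1546 1546 0) (.c (.f 22 54 1546 1546 0) (.c (.v 59 1 0) (.c
  (.v 15 21 4) .e))))) (.c (.v 58 1 0) .e))))) .e))))) (.c (.v 54 2 0) (.c (.v 56 1 0) (.c (.v
  52 3 0) .e))))) (.c (.R (.c (.v 48 5 0) (.c (.R (.c (.R (.c (.v 58 1 0) (.c (.R (.c (.v 57 2
  0) (.c (.v 59 1 0) (.c (.R (.c (.v 38 12 0) (.c (.f 26 55 706 1049 0) (.c (.v 60 1 0) (.c (.v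
  50 6 0) .e))))) (.c (.f 12 54 202 1035 1) .e))))) (.c (.R (.c (.f 0 54 1616 1616 1) (.c (.R
  (.c (.v 38 12 0) (.c (.v 60 1 0) (.c (.R (.c (.v 57 3 0) (.c (.v 59 2 0) (.c (.v 61 1 0) (.c
  (.R (.c (.v 56 4 0) (.c (.R (.c (.v 56 4 1) (.c (.v 63 1 0) (.c (.R (.c (.v 54 6 0) (.c (.R
  (.c (.v 56 5 1) (.c (.v 65 1 0) (.c (.v 63 2 0) (.c (.v 61 3 0) .e))))) (.c (.v 64 1 0) (.c
  (.v 60 3 0) .e))))) (.c (.R (.c (.v 53 6 1) (.c (.v 62 2 0) (.c (.v 60 3 0) (.c (.v 64 1 0)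
  .e))))) .e))))) (.c (.R (.c (.v 25 20 0) (.c (.f 12 58 1091 209 1) (.c (.v 63 1 0) (.c (.v 61
  2 0) .e))))) (.c (.v 62 1 0) .e))))) .e))))) (.c (.v 50 6 0) .e))))) (.c (.v 59 1 0) (.c (.v
  50 5 1) .e))))) (.c (.v 4 25 6) .e))))) (.c (.v 57 1 0) (.c (.v 53 3 0) (.c (.v 55 2 0)
  .e))))) (.c (.v 52 3 0) (.c (.v 56 1 0) .e))))) .e))))) .e))))) (.c (.v 0 2 0) .e))))) (.c
  (.L (.c (.v 0 5 1) (.c (.L (.c (.v 0 6 0) (.c (.v 0 1 0) (.c (.L (.c (.v 0 26 5) (.c (.v 0 2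
  0) (.c (.v 0 1 0) (.c (.v 0 3 0) .e))))) (.c (.f 2 0 1217 1217 1) .e))))) (.c (.v 0 1 0) (.c
  (.f 0 0 83 83 0) .e))))) (.c (.v 0 1 0) .e))))) (.c (.v 51 1 0) (.c (.v 12 20 1) .e)))))
  .e))))) (.c (.v 0 3 0) (.c (.v 0 5 0) .e))))) (.c (.v 0 1 0) (.c (.v 0 20 0) (.c (.v 0 7 0)
  .e))))) (.c (.v 0 1 0) (.c (.v 0 6 0) .e))))) (.c (.f 12 0 209 1091 0) .e))))) (.c (.v 0 1 0)
  (.c (.v 0 4 0) (.c (.L (.c (.L (.c (.v 0 1 0) (.c (.v 0 3 0) (.c (.v 0 6 0) (.c (.L (.c (.v 0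
  2 0) (.c (.v 0 3 0) (.c (.v 0 5 1) (.c (.v 0 1 0) .e))))) .e))))) (.c (.L (.c (.v 0 3 0) (.c
  (.v 0 1 0) (.c (.v 0 6 1) (.c (.v 0 2 0) .e))))) (.c (.v 0 4 1) (.c (.v 0 1 0) .e)))))
  .e))))) (.c (.v 0 3 0) (.c (.v 0 2 0) .e))))) (.c (.v 0 6 0) (.c (.f 2 0 139 139 1) (.c (.v 0
  1 0) .e))))) .e))))) (.c (.v 0 5 1) (.c (.v 0 1 0) (.c (.L (.c (.L (.c (.v 0 1 0) (.c (.v 0 6
  0) (.c (.L (.c (.L (.c (.v 0 1 0) (.c (.v 0 8 1) (.c (.v 0 2 0) (.c (.v 0 3 0) .e))))) (.c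
  (.v 0 7 1) (.c (.v 0 1 0) (.c (.L (.c (.v 0 3 0) (.c (.v 0 5 0) (.c (.v 0 9 2) (.c (.v 0 1 0)
  .e))))) .e))))) (.c (.f 26 0 153 643 0) .e))))) (.c (.f 12 0 643 153 0) (.c (.v 0 2 0) (.c
  (.v 0 1 0) .e))))) .e))))) (.c (.v 0 1 0) .e))))) .e))))) (.c (.L (.c (.v 0 11 0) (.c (.f 18
  0 706 1049 1) (.c (.v 0 1 0) (.c (.L (.c (.f 5 0 202 1035 1) (.c (.L (.c (.f 4 0 1224 1224 0)
  (.c (.v 0 1 0) (.c (.v 0 6 1) (.c (.f 7 0 139 139 0) .e))))) (.c (.v 0 2 0) (.c (.v 0 1 0)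
  .e))))) .e))))) (.c (.v 0 1 0) .e))))) .e))))) (.c (.v 36 1 0) .e))))) .e))))) (.c (.v 30 3
  0) (.c (.v 34 1 0) .e))))) .e))))) (.c (.v 23 5 1) (.c (.f 0 27 538 538 1) (.c (.v 32 1 0)
  .e))))) .e))))) (.c (.v 26 3 0) .e))))) (.c (.v 29 1 0) (.c (.v 21 5 0) (.c (.v 25 3 0)
  .e))))) (.c (.v 16 7 0) (.c (.R (.c (.v 27 2 0) (.c (.v 25 3 0) (.c (.R (.c (.R (.c (.v 31 1
  0) (.c (.R (.c (.R (.c (.v 33 1 0) (.c (.v 31 2 0) (.c (.v 11 12 0) (.c (.R (.c (.f 7 29 720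
  1112 1) (.c (.v 23 6 1) (.c (.v 10 13 0) (.c (.v 34 1 0) .e))))) .e))))) (.c (.v 32 1 0) (.c
  (.f 11 27 153 643 0) (.c (.f 18 27 153 643 0) .e))))) (.c (.v 13 10 0) (.c (.v 3 15 0)
  .e))))) (.c (.R (.c (.f 15 26 706 1049 0) (.c (.v 31 1 0) (.c (.f 0 26 1035 202 1) (.c (.R
  (.c (.f 22 27 153 643 0) (.c (.R (.c (.R (.c (.v 34 1 0) (.c (.v 21 7 1) (.c (.v 28 4 0) (.c
  (.R (.c (.v 24 6 1) (.c (.R (.c (.v 32 3 0) (.c (.v 36 1 0) (.c (.v 26 6 0) (.c (.R (.c (.v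
  33 3 0) (.c (.v 35 2 0) (.c (.v 28 5 1) (.c (.v 37 1 0) .e))))) .e))))) (.c (.v 28 4 1) (.c
  (.v 35 1 0) .e))))) .e))))) (.c (.v 33 1 0) (.c (.v 29 3 0) (.c (.v 31 2 0) .e))))) (.c (.f 2
  27 153 643 0) (.c (.v 32 1 0) .e))))) .e))))) (.c (.v 30 1 0) (.c (.R (.c (.v 3 15 0) (.c (.R
  (.c (.f 7 27 153 643 0) (.c (.v 32 1 0) (.c (.R (.c (.R (.c (.v 34 1 0) (.c (.f 11 29 83 83
  0) (.c (.R (.c (.v 33 2 0) (.c (.f 5 30 531 90 0) (.c (.v 35 1 0) (.c (.v 1 18 0) .e))))) (.c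
  (.v 26 5 0) .e))))) (.c (.R (.c (.R (.c (.v 35 1 0) (.c (.v 20 8 1) (.c (.R (.c (.v 10 13 2)
  (.c (.v 18 10 0) (.c (.v 36 1 0) (.c (.R (.c (.v 23 8 0) (.c (.f 18 32 1602 1553 0) (.c (.R
  (.c (.v 8 15 2) (.c (.R (.c (.f 4 34 1665 1665 0) (.c (.v 39 1 0) (.c (.f 7 34 1035 202 1)
  (.c (.v 28 6 1) .e))))) (.c (.v 38 1 0) (.c (.v 36 2 0) .e))))) (.c (.v 37 1 0) .e)))))
  .e))))) (.c (.R (.c (.v 24 7 0) (.c (.v 20 8 2) (.c (.f 15 31 139 139 0) (.c (.v 36 1 0)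
  .e))))) .e))))) (.c (.v 34 1 0) (.c (.v 32 2 0) (.c (.v 30 3 0) .e))))) (.c (.v 33 1 0) (.c
  (.R (.c (.v 26 5 0) (.c (.v 30 3 0) (.c (.R (.c (.v 1 18 0) (.c (.v 31 3 0) (.c (.v 35 1 0)
  (.c (.v 33 2 0) .e))))) (.c (.v 34 1 0) .e))))) .e))))) (.c (.f 26 27 153 643 0) .e))))) (.c
  (.v 29 2 0) (.c (.v 31 1 0) .e))))) .e))))) (.c (.v 29 1 0) .e))))) .e))))) (.c (.v 0 1 0)
  (.c (.v 0 3 0) (.c (.v 0 2 0) .e))))) (.c (.L (.c (.v 0 6 0) (.c (.v 0 3 0) (.c (.v 0 1 0)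
  (.c (.L (.c (.v 0 6 1) (.c (.v 0 3 0) (.c (.v 0 2 0) (.c (.v 0 1 0) .e))))) .e))))) (.c (.v 0
  1 0) .e))))) .e))))) (.c (.v 0 1 0) (.c (.v 0 2 0) .e))))) (.c (.v 0 1 0) .e))))) .e))))) (.c
  (.f 7 0 153 643 0) .e))))) (.c (.f 5 0 209 1091 1) (.c (.v 0 2 0) (.c (.v 0 1 0) .e)))))
  .e))))) (.c (.v 0 1 0) .e))))) .e))))) (.c (.f 12 0 1049 706 0) (.c (.v 0 2 0) .e))))) (.c
  (.v 0 7 0) (.c (.L (.c (.L (.c (.v 0 1 0) (.c (.v 0 6 0) (.c (.L (.c (.v 0 2 0) (.c (.v 0 6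
  1) (.c (.v 0 1 0) (.c (.v 0 3 0) .e))))) (.c (.v 0 3 0) .e))))) (.c (.v 0 5 1) (.c (.v 0 1 0)
  (.c (.L (.c (.v 0 3 0) (.c (.L (.c (.L (.c (.v 0 1 0) (.c (.v 0 10 1) (.c (.f 15 0 664 664 1)
  (.c (.L (.c (.L (.c (.v 0 1 0) (.c (.v 0 3 0) (.c (.L (.c (.L (.c (.v 0 1 0) (.c (.L (.c (.f
  26 0 1672 1672 0) (.c (.v 0 1 0) (.c (.v 0 10 0) (.c (.v 0 6 0) .e))))) (.c (.v 0 2 0) (.c
  (.f 12 0 153 643 0) .e))))) (.c (.v 0 4 0) (.c (.v 0 1 0) (.c (.L (.c (.L (.c (.v 0 1 0) (.c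
  (.v 0 6 0) (.c (.v 0 3 0) (.c (.L (.c (.v 0 2 0) (.c (.v 0 5 1) (.c (.v 0 3 0) (.c (.v 0 1 0)
  .e))))) .e))))) (.c (.v 0 4 1) (.c (.v 0 6 1) (.c (.v 0 1 0) .e))))) .e))))) (.c (.v 0 2 0)
  .e))))) (.c (.f 2 0 83 83 1) (.c (.f 22 0 83 83 1) (.c (.v 0 1 0) .e))))) .e))))) (.c (.v 0 1
  0) (.c (.L (.c (.L (.c (.v 0 1 0) (.c (.v 0 11 0) (.c (.L (.c (.v 0 2 0) (.c (.f 5 0 531 90
  1) (.c (.v 0 1 0) (.c (.L (.c (.v 0 6 1) (.c (.f 4 0 643 153 0) (.c (.f 7 0 538 538 0) (.c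
  (.v 0 1 0) .e))))) .e))))) (.c (.f 18 0 83 83 1) .e))))) (.c (.v 0 10 0) (.c (.v 0 1 0) (.c
  (.L (.c (.f 10 0 83 83 1) (.c (.v 0 3 0) (.c (.L (.c (.L (.c (.v 0 1 0) (.c (.L (.c (.f 0 0
  1672 1672 0) (.c (.v 0 1 0) (.c (.R (.c (.v 24 1 0) (.c (.R (.c (.R (.c (.v 26 1 0) (.c (.v
  24 2 0) (.c (.L (.c (.f 2 0 538 538 1) (.c (.L (.c (.v 0 3 0) (.c (.v 0 1 0) (.c (.v 0 2 0)
  (.c (.L (.c (.v 0 4 0) (.c (.L (.c (.L (.c (.v 0 1 0) (.c (.f 26 0 1217 1217 0) (.c (.v 0 6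
  0) (.c (.L (.c (.L (.c (.v 0 1 0) (.c (.v 0 3 0) (.c (.v 0 13 0) (.c (.v 0 2 0) .e))))) (.c
  (.L (.c (.v 0 3 0) (.c (.v 0 1 0) (.c (.v 0 5 0) (.c (.L (.c (.v 0 3 0) (.c (.v 0 2 0) (.c
  (.R (.c (.R (.c (.v 36 1 0) (.c (.f 12 31 1665 1665 1) (.c (.v 34 2 0) (.c (.R (.c (.f 26 32
  1672 1672 0) (.c (.v 27 6 0) (.c (.L (.c (.L (.c (.v 0 1 0) (.c (.v 0 5 1) (.c (.f 0 0 1049
  706 0) (.c (.L (.c (.L (.c (.v 0 1 0) (.c (.L (.c (.L (.c (.v 0 1 0) (.c (.v 0 2 0) (.c (.L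
  (.c (.f 26 0 1616 1616 0) (.c (.L (.c (.L (.c (.v 0 1 0) (.c (.L (.c (.v 0 2 0) (.c (.v 0 1
  0) (.c (.v 0 3 0) (.c (.L (.c (.L (.c (.v 0 1 0) (.c (.L (.c (.L (.c (.v 0 1 0) (.c (.v 0 2
  0) (.c (.v 0 6 1) (.c (.v 0 3 0) .e))))) (.c (.v 0 1 0) (.c (.v 0 6 0) (.c (.v 0 3 0) .e)))))
  (.c (.v 0 5 1) (.c (.v 0 7 1) .e))))) (.c (.L (.c (.f 12 0 1224 1224 0) (.c (.v 0 1 0) (.c
  (.L (.c (.v 0 6 0) (.c (.f 26 0 1091 209 0) (.c (.v 0 1 0) (.c (.v 0 12 0) .e))))) (.c (.v 0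
  2 0) .e))))) (.c (.L (.c (.v 0 5 1) (.c (.L (.c (.v 0 6 0) (.c (.v 0 1 0) (.c (.L (.c (.L (.c
  (.v 0 1 0) (.c (.L (.c (.L (.c (.v 0 1 0) (.c (.v 0 2 0) (.c (.v 0 3 0) (.c (.v 0 6 1)
  .e))))) (.c (.v 0 1 0) (.c (.L (.c (.v 0 3 0) (.c (.L (.c (.v 0 3 0) (.c (.v 0 1 0) (.c (.v 0
  2 0) (.c (.v 0 5 1) .e))))) (.c (.v 0 1 0) (.c (.v 0 6 0) .e))))) (.c (.v 0 4 1) .e))))) (.c
  (.L (.c (.v 0 2 0) (.c (.f 12 0 1602 1553 0) (.c (.v 0 1 0) (.c (.L (.c (.R (.c (.R (.c (.v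
  56 1 0) (.c (.v 48 5 0) (.c (.R (.c (.v 55 2 0) (.c (.R (.c (.R (.c (.v 59 1 0) (.c (.R (.c
  (.v 58 2 0) (.c (.v 60 1 0) (.c (.v 56 3 0) (.c (.R (.c (.R (.c (.v 62 1 0) (.c (.v 44 9 2)
  (.c (.R (.c (.R (.c (.v 64 1 0) (.c (.v 44 10 2) (.c (.v 62 2 0) (.c (.v 47 9 1) .e))))) (.c
  (.v 35 15 0) (.c (.v 63 1 0) (.c (.v 47 9 0) .e))))) (.c (.v 47 8 1) .e))))) (.c (.v 39 11 2)
  (.c (.v 34 13 3) (.c (.v 61 1 0) .e))))) .e))))) (.c (.R (.c (.R (.c (.v 61 1 0) (.c (.v 57 3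
  0) (.c (.v 59 2 0) (.c (.v 50 6 1) .e))))) (.c (.v 56 3 0) (.c (.v 60 1 0) (.c (.v 50 6 0)
  .e))))) (.c (.v 50 5 1) .e))))) (.c (.v 58 1 0) (.c (.v 34 13 0) (.c (.R (.c (.v 50 5 1) (.c
  (.v 39 11 0) (.c (.v 21 20 0) (.c (.v 59 1 0) .e))))) .e))))) (.c (.v 57 1 0) (.c (.v 53 3 0)
  .e))))) (.c (.v 52 3 0) .e))))) (.c (.R (.c (.v 48 5 0) (.c (.v 56 1 0) (.c (.R (.c (.R (.c
  (.v 58 1 0) (.c (.R (.c (.R (.c (.v 60 1 0) (.c (.v 58 2 0) (.c (.v 56 3 0) (.c (.R (.c (.R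
  (.c (.v 62 1 0) (.c (.v 44 9 2) (.c (.v 49 7 1) (.c (.v 60 2 0) .e))))) (.c (.v 39 11 2) (.c
  (.v 51 6 0) (.c (.v 61 1 0) .e))))) .e))))) (.c (.v 59 1 0) (.c (.v 35 12 2) (.c (.v 53 4 0)
  .e))))) (.c (.v 34 13 0) (.c (.f 4 53 664 664 0) .e))))) (.c (.v 55 2 0) (.c (.v 57 1 0) (.c
  (.v 21 18 2) .e))))) (.c (.f 11 51 1112 720 0) .e))))) (.c (.v 55 1 0) (.c (.R (.c (.v 52 3
  0) (.c (.R (.c (.R (.c (.v 58 1 0) (.c (.v 40 10 0) (.c (.f 15 53 664 664 0) (.c (.R (.c (.R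
  (.c (.v 60 1 0) (.c (.v 56 3 0) (.c (.R (.c (.v 48 7 1) (.c (.v 55 4 0) (.c (.v 61 1 0) (.c
  (.R (.c (.R (.c (.v 63 1 0) (.c (.v 53 6 0) (.c (.v 59 3 0) (.c (.R (.c (.v 62 2 0) (.c (.v
  55 5 1) (.c (.v 60 3 0) (.c (.v 64 1 0) .e))))) .e))))) (.c (.v 55 4 1) (.c (.v 51 6 1) (.c
  (.v 62 1 0) .e))))) .e))))) (.c (.v 58 2 0) .e))))) (.c (.v 0 30 1) (.c (.f 22 54 83 83 0)
  (.c (.v 59 1 0) .e))))) .e))))) (.c (.v 57 1 0) (.c (.v 21 18 2) (.c (.R (.c (.R (.c (.v 59 1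
  0) (.c (.v 0 30 1) (.c (.f 7 54 83 83 0) (.c (.f 26 54 83 83 0) .e))))) (.c (.v 56 2 0) (.c
  (.v 20 19 2) (.c (.v 58 1 0) .e))))) .e))))) (.c (.v 54 2 0) (.c (.v 56 1 0) .e))))) .e)))))
  (.c (.v 0 6 0) (.c (.v 0 20 1) (.c (.v 0 1 0) .e))))) .e))))) (.c (.v 0 4 0) .e))))) (.c (.v
  0 2 0) (.c (.v 0 1 0) (.c (.v 0 3 0) .e))))) (.c (.v 0 12 0) .e))))) (.c (.v 0 1 0) (.c (.f 0
  0 83 83 0) .e))))) (.c (.v 0 1 0) .e))))) .e))))) (.c (.v 0 3 0) (.c (.v 0 5 0) .e))))) (.c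
  (.v 0 1 0) (.c (.v 0 20 2) (.c (.v 0 7 0) .e))))) (.c (.v 0 1 0) (.c (.v 0 6 0) .e))))) (.c
  (.f 12 0 209 1091 0) .e))))) (.c (.v 0 1 0) (.c (.v 0 4 0) (.c (.L (.c (.L (.c (.v 0 1 0) (.c
  (.v 0 3 0) (.c (.v 0 6 0) (.c (.L (.c (.v 0 2 0) (.c (.v 0 3 0) (.c (.v 0 5 1) (.c (.v 0 1 0)
  .e))))) .e))))) (.c (.L (.c (.v 0 3 0) (.c (.v 0 1 0) (.c (.v 0 6 1) (.c (.v 0 2 0) .e)))))
  (.c (.v 0 4 1) (.c (.v 0 1 0) .e))))) .e))))) (.c (.v 0 3 0) (.c (.v 0 2 0) .e))))) (.c (.v 0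
  6 0) (.c (.f 2 0 139 139 1) (.c (.v 0 1 0) .e))))) .e))))) (.c (.L (.c (.v 0 5 1) (.c (.v 0 1
  0) (.c (.v 0 7 1) (.c (.L (.c (.v 0 6 0) (.c (.L (.c (.v 0 6 1) (.c (.v 0 1 0) (.c (.v 0 3 0)
  (.c (.v 0 2 0) .e))))) (.c (.v 0 3 0) (.c (.v 0 1 0) .e))))) .e))))) (.c (.v 0 1 0) (.c (.L
  (.c (.L (.c (.v 0 1 0) (.c (.v 0 6 0) (.c (.R (.c (.R (.c (.v 42 1 0) (.c (.v 34 5 0) (.c (.R
  (.c (.v 41 2 0) (.c (.R (.c (.R (.c (.v 45 1 0) (.c (.R (.c (.v 44 2 0) (.c (.v 46 1 0) (.c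
  (.v 42 3 0) (.c (.R (.c (.R (.c (.v 48 1 0) (.c (.v 30 9 2) (.c (.R (.c (.R (.c (.v 50 1 0)
  (.c (.v 30 10 2) (.c (.v 48 2 0) (.c (.v 33 9 1) .e))))) (.c (.v 21 15 0) (.c (.v 49 1 0) (.c
  (.v 33 9 0) .e))))) (.c (.v 33 8 1) .e))))) (.c (.v 25 11 2) (.c (.v 20 13 3) (.c (.v 47 1 0)
  .e))))) .e))))) (.c (.R (.c (.R (.c (.v 47 1 0) (.c (.v 43 3 0) (.c (.v 45 2 0) (.c (.v 36 6
  1) .e))))) (.c (.v 42 3 0) (.c (.v 46 1 0) (.c (.v 36 6 0) .e))))) (.c (.v 36 5 1) .e)))))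
  (.c (.v 44 1 0) (.c (.v 20 13 0) (.c (.R (.c (.v 36 5 1) (.c (.v 25 11 0) (.c (.v 7 20 0) (.c
  (.v 45 1 0) .e))))) .e))))) (.c (.v 43 1 0) (.c (.v 39 3 0) .e))))) (.c (.v 38 3 0) .e)))))
  (.c (.R (.c (.v 34 5 0) (.c (.v 42 1 0) (.c (.R (.c (.R (.c (.v 44 1 0) (.c (.R (.c (.R (.c
  (.v 46 1 0) (.c (.v 44 2 0) (.c (.v 42 3 0) (.c (.R (.c (.R (.c (.v 48 1 0) (.c (.v 30 9 2)
  (.c (.v 35 7 1) (.c (.v 46 2 0) .e))))) (.c (.v 25 11 2) (.c (.v 37 6 0) (.c (.v 47 1 0)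
  .e))))) .e))))) (.c (.v 45 1 0) (.c (.v 21 12 2) (.c (.v 39 4 0) .e))))) (.c (.v 20 13 0) (.c
  (.f 4 39 664 664 0) .e))))) (.c (.v 41 2 0) (.c (.v 43 1 0) (.c (.v 7 18 2) .e))))) (.c (.f
  11 37 1112 720 0) .e))))) (.c (.v 41 1 0) (.c (.R (.c (.v 38 3 0) (.c (.R (.c (.R (.c (.v 44
  1 0) (.c (.v 26 10 0) (.c (.f 15 39 664 664 0) (.c (.R (.c (.R (.c (.v 46 1 0) (.c (.v 42 3
  0) (.c (.R (.c (.v 34 7 1) (.c (.v 41 4 0) (.c (.v 47 1 0) (.c (.R (.c (.R (.c (.v 49 1 0)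
  (.c (.v 39 6 0) (.c (.v 45 3 0) (.c (.R (.c (.v 48 2 0) (.c (.v 41 5 1) (.c (.v 46 3 0) (.c
  (.v 50 1 0) .e))))) .e))))) (.c (.v 41 4 1) (.c (.v 37 6 1) (.c (.v 48 1 0) .e))))) .e)))))
  (.c (.v 44 2 0) .e))))) (.c (.f 2 40 83 83 0) (.c (.f 22 40 83 83 0) (.c (.v 45 1 0) .e)))))
  .e))))) (.c (.v 43 1 0) (.c (.v 7 18 2) (.c (.R (.c (.R (.c (.v 45 1 0) (.c (.L (.c (.L (.c
  (.v 0 1 0) (.c (.L (.c (.L (.c (.v 0 1 0) (.c (.v 0 2 0) (.c (.v 0 19 2) (.c (.L (.c (.f 26 0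
  720 1112 0) (.c (.R (.c (.R (.c (.v 52 1 0) (.c (.v 50 2 0) (.c (.R (.c (.v 38 8 1) (.c (.R
  (.c (.R (.c (.v 55 1 0) (.c (.v 33 11 2) (.c (.v 51 3 0) (.c (.f 10 50 1672 1672 0) .e)))))
  (.c (.v 54 1 0) (.c (.v 25 15 1) (.c (.R (.c (.f 18 50 1672 1672 0) (.c (.R (.c (.R (.c (.v
  57 1 0) (.c (.f 7 52 1217 1217 1) (.c (.f 4 52 1616 1616 0) (.c (.v 46 6 1) .e))))) (.c (.v
  56 1 0) (.c (.f 5 51 1665 1665 0) (.c (.v 54 2 0) .e))))) (.c (.v 41 8 0) (.c (.v 55 1 0)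
  .e))))) .e))))) (.c (.v 53 1 0) (.c (.R (.c (.v 38 8 2) (.c (.f 15 49 209 1091 0) (.c (.v 42
  7 0) (.c (.v 54 1 0) .e))))) .e))))) (.c (.v 48 3 0) .e))))) (.c (.v 51 1 0) (.c (.R (.c (.f
  11 47 202 1035 0) (.c (.R (.c (.f 5 48 706 1049 0) (.c (.v 53 1 0) (.c (.v 51 2 0) (.c (.R
  (.c (.f 4 49 209 1091 0) (.c (.f 7 49 643 153 1) (.c (.R (.c (.v 49 4 0) (.c (.R (.c (.v 49 4
  1) (.c (.v 56 1 0) (.c (.v 22 18 0) (.c (.v 52 3 0) .e))))) (.c (.v 55 1 0) (.c (.v 3 27 0)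
  .e))))) (.c (.v 54 1 0) .e))))) .e))))) (.c (.v 52 1 0) (.c (.v 44 5 0) .e))))) (.c (.R (.c
  (.v 48 3 0) (.c (.R (.c (.v 49 3 0) (.c (.v 53 1 0) (.c (.L (.c (.v 0 24 6) (.c (.v 0 1 0)
  (.c (.L (.c (.v 0 5 0) (.c (.L (.c (.v 0 26 6) (.c (.v 0 1 0) (.c (.v 0 2 0) (.c (.f 5 0 1217
  1217 1) .e))))) (.c (.v 0 1 0) (.c (.f 11 0 1224 1224 1) .e))))) (.c (.L (.c (.v 0 3 0) (.c
  (.v 0 2 0) (.c (.L (.c (.L (.c (.v 0 1 0) (.c (.f 15 0 720 1112 1) (.c (.v 0 7 0) (.c (.v 0 8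
  2) .e))))) (.c (.L (.c (.L (.c (.v 0 1 0) (.c (.L (.c (.v 0 2 0) (.c (.v 0 1 0) (.c (.f 5 0
  643 153 1) (.c (.L (.c (.v 0 6 1) (.c (.f 7 0 706 1049 0) (.c (.f 4 0 531 90 0) (.c (.v 0 1
  0) .e))))) .e))))) (.c (.v 0 8 0) (.c (.f 18 0 139 139 1) .e))))) (.c (.v 0 1 0) (.c (.v 0 15
  1) (.c (.L (.c (.f 10 0 139 139 1) (.c (.v 0 11 2) (.c (.v 0 3 0) (.c (.v 0 1 0) .e)))))
  .e))))) (.c (.v 0 1 0) (.c (.v 0 8 1) .e))))) (.c (.v 0 1 0) .e))))) .e))))) (.c (.v 51 2 0)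
  .e))))) (.c (.v 44 5 0) (.c (.v 52 1 0) .e))))) .e))))) (.c (.f 7 0 1616 1616 1) (.c (.v 0 1
  0) .e))))) .e))))) (.c (.v 0 1 0) (.c (.v 0 18 2) (.c (.L (.c (.L (.c (.v 0 1 0) (.c (.f 2 0
  1616 1616 1) (.c (.f 22 0 1616 1616 1) (.c (.L (.c (.v 0 2 0) (.c (.v 0 3 0) (.c (.L (.c (.L
  (.c (.v 0 1 0) (.c (.v 0 4 1) (.c (.v 0 6 1) (.c (.L (.c (.L (.c (.v 0 1 0) (.c (.v 0 5 1)
  (.c (.v 0 3 0) (.c (.v 0 2 0) .e))))) (.c (.v 0 6 0) (.c (.v 0 3 0) (.c (.v 0 1 0) .e)))))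
  .e))))) (.c (.v 0 4 0) (.c (.v 0 1 0) (.c (.v 0 7 1) .e))))) (.c (.v 0 1 0) .e))))) .e)))))
  (.c (.v 0 10 0) (.c (.f 15 0 153 643 1) (.c (.v 0 1 0) .e))))) .e))))) (.c (.v 0 2 0) (.c (.v
  0 3 0) .e))))) (.c (.L (.c (.f 11 0 90 531 1) (.c (.v 0 1 0) (.c (.L (.c (.v 0 18 2) (.c (.v
  0 2 0) (.c (.v 0 1 0) (.c (.L (.c (.f 4 0 664 664 0) (.c (.L (.c (.v 0 4 0) (.c (.v 0 1 0)
  (.c (.v 0 12 2) (.c (.L (.c (.L (.c (.v 0 1 0) (.c (.v 0 11 2) (.c (.v 0 6 0) (.c (.L (.c (.v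
  0 2 0) (.c (.v 0 9 2) (.c (.v 0 7 1) (.c (.v 0 1 0) .e))))) .e))))) (.c (.v 0 2 0) (.c (.v 0
  3 0) (.c (.v 0 1 0) .e))))) .e))))) (.c (.v 0 13 0) (.c (.v 0 1 0) .e))))) .e))))) (.c (.v 0
  5 0) .e))))) (.c (.v 0 1 0) (.c (.L (.c (.v 0 3 0) (.c (.v 0 5 0) (.c (.L (.c (.v 0 3 0) (.c
  (.L (.c (.L (.c (.v 0 1 0) (.c (.v 0 11 0) (.c (.v 0 20 0) (.c (.v 0 5 1) .e))))) (.c (.v 0 1
  0) (.c (.v 0 13 0) (.c (.L (.c (.v 0 5 1) (.c (.L (.c (.L (.c (.v 0 1 0) (.c (.v 0 11 2) (.c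
  (.v 0 13 3) (.c (.L (.c (.v 0 8 1) (.c (.v 0 9 2) (.c (.L (.c (.v 0 9 0) (.c (.v 0 15 0) (.c
  (.v 0 1 0) (.c (.L (.c (.v 0 9 1) (.c (.v 0 10 2) (.c (.v 0 2 0) (.c (.v 0 1 0) .e)))))
  .e))))) (.c (.v 0 1 0) .e))))) .e))))) (.c (.v 0 1 0) (.c (.v 0 3 0) (.c (.v 0 2 0) .e)))))
  (.c (.L (.c (.v 0 6 0) (.c (.v 0 3 0) (.c (.v 0 1 0) (.c (.L (.c (.v 0 6 1) (.c (.v 0 3 0)
  (.c (.v 0 2 0) (.c (.v 0 1 0) .e))))) .e))))) (.c (.v 0 1 0) .e))))) .e))))) (.c (.v 0 1 0)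
  (.c (.v 0 2 0) .e))))) (.c (.v 0 1 0) .e))))) .e))))) (.c (.f 7 40 83 83 0) (.c (.f 26 40 83
  83 0) .e))))) (.c (.v 42 2 0) (.c (.v 6 19 2) (.c (.v 44 1 0) .e))))) .e))))) (.c (.v 40 2 0)
  (.c (.v 42 1 0) .e))))) .e))))) (.c (.f 26 0 153 643 0) .e))))) (.c (.f 12 0 643 153 0) (.c
  (.v 0 2 0) (.c (.v 0 1 0) .e))))) .e))))) (.c (.v 37 1 0) .e))))) .e))))) (.c (.R (.c (.R (.c
  (.v 37 1 0) (.c (.R (.c (.v 36 2 0) (.c (.v 38 1 0) (.c (.v 34 3 0) (.c (.v 27 6 1) .e)))))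
  (.c (.v 33 3 0) (.c (.v 27 6 0) .e))))) (.c (.v 36 1 0) (.c (.v 23 7 1) (.c (.v 27 5 1)
  .e))))) (.c (.v 35 1 0) (.c (.R (.c (.R (.c (.v 37 1 0) (.c (.v 27 6 0) (.c (.f 2 32 1672
  1672 0) (.c (.R (.c (.v 36 2 0) (.c (.R (.c (.R (.c (.v 40 1 0) (.c (.R (.c (.v 39 2 0) (.c
  (.v 41 1 0) (.c (.v 30 6 1) (.c (.v 37 3 0) .e))))) (.c (.v 33 4 1) (.c (.R (.c (.R (.c (.v
  42 1 0) (.c (.v 38 3 0) (.c (.v 33 5 1) (.c (.v 40 2 0) .e))))) (.c (.v 37 3 0) (.c (.v 31 6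
  0) (.c (.v 41 1 0) .e))))) .e))))) (.c (.v 39 1 0) (.c (.v 33 4 0) (.c (.R (.c (.f 12 35 720
  1112 1) (.c (.v 38 2 0) (.c (.R (.c (.v 31 6 0) (.c (.R (.c (.v 30 7 0) (.c (.v 42 1 0) (.c
  (.v 2 20 2) (.c (.R (.c (.v 35 5 0) (.c (.R (.c (.R (.c (.v 45 1 0) (.c (.R (.c (.v 44 2 0)
  (.c (.v 46 1 0) (.c (.R (.c (.v 25 12 0) (.c (.f 26 42 706 1049 0) (.c (.v 47 1 0) (.c (.v 37
  6 0) .e))))) (.c (.f 12 41 202 1035 1) .e))))) (.c (.R (.c (.f 0 41 1616 1616 1) (.c (.R (.c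
  (.v 25 12 0) (.c (.v 47 1 0) (.c (.R (.c (.v 44 3 0) (.c (.v 46 2 0) (.c (.v 48 1 0) (.c (.R
  (.c (.v 43 4 0) (.c (.R (.c (.v 43 4 1) (.c (.v 50 1 0) (.c (.R (.c (.v 41 6 0) (.c (.R (.c
  (.v 43 5 1) (.c (.v 52 1 0) (.c (.v 50 2 0) (.c (.v 48 3 0) .e))))) (.c (.v 51 1 0) (.c (.v
  47 3 0) .e))))) (.c (.R (.c (.v 40 6 1) (.c (.v 49 2 0) (.c (.v 47 3 0) (.c (.v 51 1 0)
  .e))))) .e))))) (.c (.R (.c (.R (.c (.v 51 1 0) (.c (.v 41 6 0) (.c (.v 12 20 1) (.c (.L (.c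
  (.L (.c (.v 0 1 0) (.c (.v 0 5 1) (.c (.f 0 0 1049 706 0) (.c (.L (.c (.L (.c (.v 0 1 0) (.c
  (.v 0 26 5) (.c (.v 0 3 0) (.c (.v 0 2 0) .e))))) (.c (.v 0 6 0) (.c (.f 2 0 139 139 1) (.c
  (.v 0 1 0) .e))))) .e))))) (.c (.L (.c (.v 0 5 1) (.c (.v 0 1 0) (.c (.v 0 7 1) (.c (.L (.c
  (.v 0 6 0) (.c (.v 0 27 0) (.c (.v 0 3 0) (.c (.v 0 1 0) .e))))) .e))))) (.c (.v 0 1 0) (.c
  (.L (.c (.L (.c (.v 0 1 0) (.c (.v 0 6 0) (.c (.R (.c (.R (.c (.v 56 1 0) (.c (.R (.c (.R (.c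
  (.v 58 1 0) (.c (.v 56 2 0) (.c (.R (.c (.v 25 16 4) (.c (.R (.c (.v 24 17 4) (.c (.v 60 1 0)
  (.c (.v 15 22 3) (.c (.R (.c (.v 53 5 0) (.c (.R (.c (.v 25 18 3) (.c (.v 62 1 0) (.c (.f 5
  57 1665 1665 0) (.c (.v 60 2 0) .e))))) (.c (.f 11 56 1672 1672 0) (.c (.v 61 1 0) .e)))))
  .e))))) (.c (.v 59 1 0) (.c (.f 7 54 720 1112 0) .e))))) (.c (.v 30 15 0) .e))))) (.c (.v 57
  1 0) (.c (.R (.c (.R (.c (.v 59 1 0) (.c (.f 2 54 720 1112 0) (.c (.v 15 21 4) (.c (.f 22 54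
  720 1112 0) .e))))) (.c (.f 0 53 1602 1553 1) (.c (.v 58 1 0) (.c (.f 15 53 1049 706 0)
  .e))))) (.c (.R (.c (.v 30 15 0) (.c (.v 40 10 0) (.c (.R (.c (.f 18 54 720 1112 0) (.c (.f
  11 54 720 1112 0) (.c (.v 59 1 0) (.c (.R (.c (.R (.c (.v 61 1 0) (.c (.v 37 13 0) (.c (.v 50
  6 1) (.c (.f 7 56 153 643 1) .e))))) (.c (.v 38 12 0) (.c (.v 58 2 0) (.c (.v 60 1 0) .e)))))
  .e))))) (.c (.v 58 1 0) .e))))) .e))))) (.c (.v 52 3 0) (.c (.v 54 2 0) .e))))) (.c (.v 43 7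
  0) (.c (.R (.c (.v 52 3 0) (.c (.v 48 5 0) (.c (.v 56 1 0) (.c (.R (.c (.v 53 3 0) (.c (.R
  (.c (.R (.c (.v 59 1 0) (.c (.f 0 54 1217 1217 1) (.c (.v 50 5 1) (.c (.R (.c (.R (.c (.v 61
  1 0) (.c (.v 57 3 0) (.c (.R (.c (.R (.c (.v 63 1 0) (.c (.v 25 20 0) (.c (.v 61 2 0) (.c (.f
  12 58 153 643 1) .e))))) (.c (.v 56 4 0) (.c (.v 62 1 0) (.c (.R (.c (.R (.c (.v 64 1 0) (.c
  (.v 54 6 0) (.c (.v 60 3 0) (.c (.R (.c (.v 63 2 0) (.c (.v 56 5 1) (.c (.v 61 3 0) (.c (.v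
  65 1 0) .e))))) .e))))) (.c (.v 56 4 1) (.c (.R (.c (.v 60 3 0) (.c (.v 53 6 1) (.c (.v 64 1
  0) (.c (.v 62 2 0) .e))))) (.c (.v 63 1 0) .e))))) .e))))) (.c (.v 59 2 0) .e))))) (.c (.v 38
  12 0) (.c (.v 50 6 0) (.c (.v 60 1 0) .e))))) .e))))) (.c (.v 58 1 0) (.c (.v 4 25 6) (.c (.R
  (.c (.R (.c (.v 60 1 0) (.c (.v 38 12 0) (.c (.v 50 6 0) (.c (.f 26 55 83 83 0) .e))))) (.c
  (.v 57 2 0) (.c (.f 12 54 531 90 1) (.c (.v 59 1 0) .e))))) .e))))) (.c (.v 55 2 0) (.c (.v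
  57 1 0) .e))))) .e))))) (.c (.v 55 1 0) .e))))) (.c (.f 26 0 153 643 0) .e))))) (.c (.f 12 0
  643 153 0) (.c (.v 0 2 0) (.c (.v 0 1 0) .e))))) .e))))) .e))))) (.c (.f 12 45 1091 209 1)
  (.c (.v 50 1 0) (.c (.v 48 2 0) .e))))) (.c (.v 49 1 0) .e))))) .e))))) (.c (.v 37 6 0)
  .e))))) (.c (.v 46 1 0) (.c (.v 37 5 1) .e))))) (.c (.R (.c (.v 33 7 1) (.c (.R (.c (.v 43 3
  0) (.c (.v 47 1 0) (.c (.v 37 6 0) (.c (.R (.c (.v 44 3 0) (.c (.v 46 2 0) (.c (.v 37 6 1)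
  (.c (.v 48 1 0) .e))))) .e))))) (.c (.v 37 5 1) (.c (.v 46 1 0) .e))))) .e))))) (.c (.v 44 1
  0) (.c (.v 40 3 0) (.c (.v 42 2 0) .e))))) (.c (.v 39 3 0) (.c (.v 43 1 0) .e))))) .e)))))
  (.c (.v 41 1 0) (.c (.f 26 36 209 1091 0) .e))))) (.c (.v 40 1 0) .e))))) .e))))) (.c (.v 34
  3 0) (.c (.v 38 1 0) .e))))) .e))))) (.c (.v 27 5 1) (.c (.f 0 31 538 538 1) (.c (.v 36 1 0)
  .e))))) .e))))) (.c (.v 0 1 0) .e))))) .e))))) (.c (.v 0 7 0) (.c (.v 0 1 0) .e))))) .e)))))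
  (.c (.v 0 1 0) (.c (.f 12 0 1035 202 0) (.c (.v 0 2 0) .e))))) (.c (.L (.c (.v 0 4 1) (.c (.L
  (.c (.v 0 6 0) (.c (.v 0 1 0) (.c (.L (.c (.v 0 5 1) (.c (.v 0 2 0) (.c (.v 0 1 0) (.c (.v 0
  3 0) .e))))) (.c (.v 0 3 0) .e))))) (.c (.v 0 1 0) (.c (.L (.c (.v 0 6 1) (.c (.v 0 3 0) (.c
  (.v 0 2 0) (.c (.v 0 1 0) .e))))) .e))))) (.c (.v 0 1 0) .e))))) .e))))) (.c (.v 0 1 0) (.c
  (.v 0 6 0) .e))))) (.c (.v 22 3 0) .e))))) (.c (.v 25 1 0) (.c (.v 17 5 0) (.c (.v 21 3 0)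
  .e))))) (.c (.v 12 7 0) (.c (.R (.c (.v 23 2 0) (.c (.v 21 3 0) (.c (.v 1 13 0) (.c (.v 25 1
  0) .e))))) .e))))) (.c (.v 0 5 1) .e))))) (.c (.L (.c (.v 0 2 0) (.c (.L (.c (.L (.c (.v 0 1
  0) (.c (.L (.c (.v 0 2 0) (.c (.v 0 1 0) (.c (.v 0 3 0) (.c (.v 0 8 1) .e))))) (.c (.L (.c
  (.v 0 9 2) (.c (.v 0 3 0) (.c (.v 0 1 0) (.c (.v 0 5 0) .e))))) (.c (.v 0 7 1) .e))))) (.c
  (.v 0 1 0) (.c (.f 26 0 1546 1546 0) (.c (.v 0 6 0) .e))))) (.c (.v 0 1 0) (.c (.f 12 0 90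
  531 0) .e))))) (.c (.v 0 5 1) .e))))) (.c (.v 0 3 0) (.c (.v 0 1 0) (.c (.v 0 2 0) .e)))))
  (.c (.v 0 1 0) .e))))) .e))))) (.c (.L (.c (.L (.c (.v 0 1 0) (.c (.R (.c (.v 21 1 0) (.c (.R
  (.c (.R (.c (.v 23 1 0) (.c (.v 21 2 0) (.c (.R (.c (.R (.c (.v 25 1 0) (.c (.f 12 20 1665
  1665 1) (.c (.v 23 2 0) (.c (.R (.c (.f 26 21 1672 1672 0) (.c (.v 16 6 0) (.c (.R (.c (.R
  (.c (.v 28 1 0) (.c (.v 20 5 0) (.c (.R (.c (.v 27 2 0) (.c (.R (.c (.R (.c (.v 31 1 0) (.c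
  (.R (.c (.v 30 2 0) (.c (.v 32 1 0) (.c (.v 28 3 0) (.c (.R (.c (.R (.c (.v 34 1 0) (.c (.v
  16 9 2) (.c (.R (.c (.R (.c (.v 36 1 0) (.c (.v 16 10 2) (.c (.v 34 2 0) (.c (.v 19 9 1)
  .e))))) (.c (.v 7 15 0) (.c (.v 35 1 0) (.c (.v 19 9 0) .e))))) (.c (.v 19 8 1) .e))))) (.c
  (.v 11 11 2) (.c (.v 6 13 3) (.c (.v 33 1 0) .e))))) .e))))) (.c (.R (.c (.R (.c (.v 33 1 0)
  (.c (.v 29 3 0) (.c (.v 31 2 0) (.c (.v 22 6 1) .e))))) (.c (.v 28 3 0) (.c (.v 32 1 0) (.c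
  (.v 22 6 0) .e))))) (.c (.v 22 5 1) .e))))) (.c (.v 30 1 0) (.c (.v 6 13 0) (.c (.R (.c (.v
  22 5 1) (.c (.v 11 11 0) (.c (.R (.c (.v 22 6 0) (.c (.v 6 13 2) (.c (.v 32 1 0) (.c (.v 1 15
  3) .e))))) (.c (.v 31 1 0) .e))))) .e))))) (.c (.v 29 1 0) (.c (.v 25 3 0) .e))))) (.c (.v 24
  3 0) .e))))) (.c (.R (.c (.v 20 5 0) (.c (.v 28 1 0) (.c (.R (.c (.R (.c (.v 30 1 0) (.c (.R
  (.c (.R (.c (.v 32 1 0) (.c (.v 30 2 0) (.c (.v 28 3 0) (.c (.R (.c (.R (.c (.v 34 1 0) (.c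
  (.v 16 9 2) (.c (.v 21 7 1) (.c (.v 32 2 0) .e))))) (.c (.v 11 11 2) (.c (.v 23 6 0) (.c (.v
  33 1 0) .e))))) .e))))) (.c (.v 31 1 0) (.c (.v 7 12 2) (.c (.v 25 4 0) .e))))) (.c (.v 6 13
  0) (.c (.f 4 25 664 664 0) .e))))) (.c (.v 27 2 0) (.c (.v 29 1 0) (.c (.f 5 24 1049 706 0)
  .e))))) (.c (.f 11 23 1112 720 0) .e))))) (.c (.v 27 1 0) (.c (.v 0 13 3) .e))))) (.c (.v 26
  1 0) .e))))) .e))))) (.c (.R (.c (.R (.c (.v 26 1 0) (.c (.R (.c (.v 25 2 0) (.c (.v 27 1 0)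
  (.c (.v 23 3 0) (.c (.v 16 6 1) .e))))) (.c (.v 22 3 0) (.c (.v 16 6 0) .e))))) (.c (.v 25 1
  0) (.c (.v 12 7 1) (.c (.v 16 5 1) .e))))) (.c (.v 24 1 0) (.c (.R (.c (.R (.c (.v 26 1 0)
  (.c (.v 16 6 0) (.c (.f 2 21 1672 1672 0) (.c (.R (.c (.v 25 2 0) (.c (.R (.c (.R (.c (.v 29
  1 0) (.c (.R (.c (.v 28 2 0) (.c (.v 30 1 0) (.c (.v 19 6 1) (.c (.v 26 3 0) .e))))) (.c (.v
  22 4 1) (.c (.R (.c (.R (.c (.v 31 1 0) (.c (.v 27 3 0) (.c (.v 22 5 1) (.c (.v 29 2 0)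
  .e))))) (.c (.v 26 3 0) (.c (.v 20 6 0) (.c (.v 30 1 0) .e))))) .e))))) (.c (.v 28 1 0) (.c
  (.v 22 4 0) (.c (.R (.c (.f 12 24 720 1112 1) (.c (.v 27 2 0) (.c (.L (.c (.L (.c (.v 0 1 0)
  (.c (.v 0 2 0) (.c (.R (.c (.v 22 6 0) (.c (.L (.c (.L (.c (.v 0 1 0) (.c (.v 0 15 1) (.c (.v
  0 2 0) (.c (.L (.c (.f 26 0 664 664 0) (.c (.v 0 16 1) (.c (.L (.c (.L (.c (.v 0 1 0) (.c (.v
  0 5 0) (.c (.L (.c (.v 0 2 0) (.c (.L (.c (.L (.c (.v 0 1 0) (.c (.v 0 16 0) (.c (.L (.c (.L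
  (.c (.v 0 1 0) (.c (.v 0 3 0) (.c (.v 0 2 0) (.c (.v 0 6 1) .e))))) (.c (.v 0 3 0) (.c (.v 0
  1 0) (.c (.v 0 6 0) .e))))) (.c (.v 0 5 1) .e))))) (.c (.v 0 1 0) (.c (.v 0 13 2) (.c (.v 0
  10 2) .e))))) (.c (.v 0 1 0) (.c (.v 0 3 0) .e))))) (.c (.v 0 3 0) .e))))) (.c (.v 0 17 0)
  (.c (.v 0 1 0) (.c (.L (.c (.v 0 3 0) (.c (.v 0 8 2) (.c (.v 0 2 0) (.c (.v 0 1 0) .e)))))
  .e))))) (.c (.v 0 1 0) .e))))) .e))))) (.c (.v 0 14 1) (.c (.v 0 1 0) (.c (.L (.c (.L (.c (.v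
  0 1 0) (.c (.v 0 16 1) (.c (.f 2 0 1672 1672 1) (.c (.L (.c (.v 0 2 0) (.c (.L (.c (.L (.c
  (.v 0 1 0) (.c (.v 0 6 1) (.c (.v 0 4 1) (.c (.L (.c (.L (.c (.v 0 1 0) (.c (.v 0 3 0) (.c
  (.v 0 5 1) (.c (.v 0 2 0) .e))))) (.c (.v 0 3 0) (.c (.v 0 6 0) (.c (.v 0 1 0) .e)))))
  .e))))) (.c (.v 0 1 0) (.c (.v 0 4 0) (.c (.v 0 7 1) .e))))) (.c (.v 0 3 0) (.c (.v 0 1 0)
  .e))))) .e))))) (.c (.v 0 15 2) (.c (.v 0 7 0) (.c (.v 0 1 0) .e))))) .e))))) (.c (.v 32 1 0)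
  (.c (.f 26 27 209 1091 0) .e))))) (.c (.v 0 3 0) .e))))) (.c (.v 0 1 0) (.c (.L (.c (.f 11 0
  202 1035 1) (.c (.v 0 13 2) (.c (.v 0 1 0) (.c (.v 0 5 0) .e))))) (.c (.L (.c (.v 0 3 0) (.c
  (.v 0 15 0) (.c (.v 0 5 0) (.c (.v 0 1 0) .e))))) .e))))) (.c (.v 29 1 0) .e))))) .e))))) (.c
  (.v 23 3 0) (.c (.v 27 1 0) .e))))) .e))))) (.c (.v 16 5 1) (.c (.f 0 20 538 538 1) (.c (.v
  25 1 0) .e))))) .e))))) (.c (.v 19 3 0) .e))))) (.c (.v 22 1 0) (.c (.v 14 5 0) (.c (.v 18 3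
  0) .e))))) (.c (.v 9 7 0) (.c (.v 0 11 1) .e))))) (.c (.f 7 0 83 83 1) (.c (.f 26 0 209 1091
  0) .e))))) (.c (.v 0 2 0) (.c (.f 12 0 531 90 0) (.c (.v 0 1 0) .e))))) .e))))) (.c (.v 0 2
  0) (.c (.v 0 1 0) .e))))) .e))))) (.c (.v 0 1 0) .e))))) .e))))) (.c (.v 0 3 0) (.c (.v 0 1
  0) (.c (.v 0 4 1) .e))))) (.c (.v 0 4 0) .e))))) (.c (.f 26 6 1602 1553 0) (.c (.v 1 6 0) (.c
  (.v 11 1 0) .e))))) .e))))) (.c (.R (.c (.R (.c (.v 11 1 0) (.c (.v 7 3 0) (.c (.v 9 2 0) (.c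
  (.v 0 6 1) .e))))) (.c (.R (.c (.v 7 3 0) (.c (.v 11 1 0) (.c (.R (.c (.v 8 3 0) (.c (.v 10 2
  0) (.c (.v 12 1 0) (.c (.v 3 5 1) .e))))) (.c (.v 1 6 0) .e))))) (.c (.v 10 1 0) (.c (.v 3 4
  1) .e))))) (.c (.v 3 4 0) .e))))) (.c (.v 8 1 0) (.c (.v 6 2 0) (.c (.v 4 3 0) .e))))) (.c
  (.v 7 1 0) (.c (.f 2 2 1049 706 0) .e))))) (.c (.f 0 1 139 139 1) .e)))))

/-- certificate -/
def t30 : T := (.R (.c (.f 8 1 1224 1224 1) (.c (.v 6 1 0) (.c (.f 5 1 1602 1553 0) (.c (.f 0 1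
  202 1035 1) .e)))))

/-- certificate -/
def t31 : T := (.R (.c (.v 6 1 0) (.c (.f 28 1 1091 209 0) (.c (.f 9 1 1091 209 0) (.c (.L (.c
  (.v 0 1 0) (.c (.f 28 0 1665 1665 0) (.c (.R (.c (.R (.c (.v 9 1 0) (.c (.v 5 3 0) (.c (.R
  (.c (.R (.c (.v 11 1 0) (.c (.R (.c (.f 28 7 664 664 0) (.c (.v 12 1 0) (.c (.R (.c (.R (.c
  (.v 14 1 0) (.c (.v 10 3 0) (.c (.R (.c (.v 13 2 0) (.c (.v 11 3 0) (.c (.v 15 1 0) (.c (.R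
  (.c (.R (.c (.v 17 1 0) (.c (.v 8 5 1) (.c (.R (.c (.R (.c (.v 19 1 0) (.c (.v 8 6 1) (.c (.v
  17 2 0) (.c (.v 15 3 0) .e))))) (.c (.v 8 6 0) (.c (.v 18 1 0) (.c (.v 14 3 0) .e))))) (.c
  (.R (.c (.v 16 2 0) (.c (.v 3 8 1) (.c (.v 14 3 0) (.c (.v 18 1 0) .e))))) .e))))) (.c (.f 1
  11 1672 1672 0) (.c (.R (.c (.f 14 12 1112 720 1) (.c (.R (.c (.v 8 6 0) (.c (.v 18 1 0) (.c
  (.f 28 13 1049 706 0) (.c (.R (.c (.R (.c (.v 20 1 0) (.c (.v 0 11 0) (.c (.v 12 5 0) (.c (.R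
  (.c (.v 19 2 0) (.c (.f 7 16 83 83 0) (.c (.f 0 16 83 83 0) (.c (.v 21 1 0) .e))))) .e)))))
  (.c (.R (.c (.v 0 11 0) (.c (.v 20 1 0) (.c (.v 16 3 0) (.c (.v 18 2 0) .e))))) (.c (.R (.c
  (.v 12 5 0) (.c (.v 16 3 0) (.c (.v 20 1 0) (.c (.R (.c (.R (.c (.v 22 1 0) (.c (.f 1 17 1035
  202 0) (.c (.R (.c (.R (.c (.v 24 1 0) (.c (.R (.c (.R (.c (.v 26 1 0) (.c (.v 24 2 0) (.c
  (.v 8 9 2) (.c (.R (.c (.v 5 12 0) (.c (.R (.c (.v 4 13 0) (.c (.v 28 1 0) (.c (.R (.c (.v 21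
  5 0) (.c (.R (.c (.v 4 13 2) (.c (.v 30 1 0) (.c (.v 28 2 0) (.c (.f 7 25 1217 1217 0)
  .e))))) (.c (.v 29 1 0) (.c (.f 13 24 1224 1224 0) .e))))) (.c (.R (.c (.v 25 3 0) (.c (.v 27
  2 0) (.c (.R (.c (.v 5 12 3) (.c (.R (.c (.v 4 13 3) (.c (.v 31 1 0) (.c (.R (.c (.v 18 8 0)
  (.c (.v 30 2 0) (.c (.v 32 1 0) (.c (.v 28 3 0) .e))))) (.c (.R (.c (.f 12 27 139 139 0) (.c
  (.R (.c (.R (.c (.v 34 1 0) (.c (.R (.c (.v 33 2 0) (.c (.v 35 1 0) (.c (.R (.c (.R (.c (.v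
  37 1 0) (.c (.R (.c (.R (.c (.v 39 1 0) (.c (.v 37 2 0) (.c (.v 35 3 0) (.c (.R (.c (.R (.c
  (.v 41 1 0) (.c (.f 14 36 1217 1217 1) (.c (.R (.c (.f 28 37 1224 1224 0) (.c (.v 32 6 0) (.c
  (.v 42 1 0) (.c (.R (.c (.R (.c (.v 44 1 0) (.c (.v 36 5 0) (.c (.v 40 3 0) (.c (.R (.c (.v
  43 2 0) (.c (.R (.c (.R (.c (.v 47 1 0) (.c (.R (.c (.v 46 2 0) (.c (.v 48 1 0) (.c (.R (.c
  (.R (.c (.v 50 1 0) (.c (.v 32 9 2) (.c (.v 35 8 1) (.c (.R (.c (.R (.c (.v 52 1 0) (.c (.v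
  32 10 2) (.c (.v 35 9 1) (.c (.v 50 2 0) .e))))) (.c (.f 20 46 1665 1665 0) (.c (.v 35 9 0)
  (.c (.v 51 1 0) .e))))) .e))))) (.c (.v 22 13 3) (.c (.v 49 1 0) (.c (.f 1 44 720 1112 0)
  .e))))) (.c (.v 44 3 0) .e))))) (.c (.v 38 5 1) (.c (.R (.c (.R (.c (.v 49 1 0) (.c (.v 45 3
  0) (.c (.v 38 6 1) (.c (.v 47 2 0) .e))))) (.c (.v 44 3 0) (.c (.v 38 6 0) (.c (.v 48 1 0)
  .e))))) .e))))) (.c (.v 46 1 0) (.c (.f 1 41 1112 720 0) (.c (.R (.c (.f 14 42 720 1112 1)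
  (.c (.v 45 2 0) (.c (.R (.c (.v 38 6 0) (.c (.v 20 15 0) (.c (.v 48 1 0) (.c (.f 28 43 209
  1091 0) .e))))) (.c (.v 47 1 0) .e))))) .e))))) (.c (.v 41 3 0) (.c (.v 45 1 0) .e)))))
  .e))))) (.c (.R (.c (.v 36 5 0) (.c (.v 44 1 0) (.c (.f 13 39 664 664 0) (.c (.v 22 11 2)
  .e))))) (.c (.R (.c (.v 40 3 0) (.c (.R (.c (.f 1 40 153 643 0) (.c (.v 45 1 0) (.c (.R (.c
  (.R (.c (.v 47 1 0) (.c (.R (.c (.R (.c (.v 49 1 0) (.c (.v 47 2 0) (.c (.v 45 3 0) (.c (.R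
  (.c (.v 35 8 1) (.c (.R (.c (.R (.c (.v 52 1 0) (.c (.v 30 11 2) (.c (.f 12 47 1224 1224 0)
  (.c (.v 48 3 0) .e))))) (.c (.v 51 1 0) (.c (.R (.c (.f 20 47 1224 1224 0) (.c (.R (.c (.f 0
  48 1217 1217 0) (.c (.v 53 1 0) (.c (.v 51 2 0) (.c (.v 20 17 1) .e))))) (.c (.v 52 1 0) (.c
  (.v 38 8 0) .e))))) (.c (.v 20 15 3) .e))))) (.c (.f 1 45 1602 1553 0) (.c (.v 50 1 0)
  .e))))) .e))))) (.c (.v 48 1 0) (.c (.R (.c (.v 45 3 0) (.c (.R (.c (.v 46 3 0) (.c (.v 50 1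
  0) (.c (.v 48 2 0) (.c (.R (.c (.f 1 46 1553 1602 0) (.c (.R (.c (.R (.c (.v 53 1 0) (.c (.f
  28 48 1091 209 0) (.c (.v 43 6 0) (.c (.v 20 17 1) .e))))) (.c (.v 52 1 0) (.c (.f 14 47 1035
  202 1) (.c (.v 50 2 0) .e))))) (.c (.R (.c (.v 43 5 1) (.c (.R (.c (.v 43 6 0) (.c (.v 53 1
  0) (.c (.R (.c (.v 43 6 1) (.c (.v 52 2 0) (.c (.v 54 1 0) (.c (.v 50 3 0) .e))))) (.c (.v 49
  3 0) .e))))) (.c (.v 52 1 0) (.c (.R (.c (.v 38 8 1) (.c (.v 49 3 0) (.c (.v 51 2 0) (.c (.v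
  53 1 0) .e))))) .e))))) (.c (.v 51 1 0) .e))))) .e))))) (.c (.v 49 1 0) (.c (.v 41 5 0)
  .e))))) (.c (.R (.c (.f 13 44 1546 1546 0) (.c (.R (.c (.f 7 45 1602 1553 0) (.c (.v 50 1 0)
  (.c (.f 0 45 1602 1553 0) (.c (.v 48 2 0) .e))))) (.c (.v 41 5 0) (.c (.v 49 1 0) .e)))))
  .e))))) (.c (.f 28 42 531 90 0) (.c (.f 9 42 531 90 0) .e))))) (.c (.v 44 2 0) (.c (.v 46 1
  0) (.c (.f 14 41 83 83 1) .e))))) (.c (.v 20 12 3) .e))))) (.c (.v 44 1 0) (.c (.v 42 2 0)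
  .e))))) (.c (.v 43 1 0) .e))))) .e))))) (.c (.v 39 2 0) .e))))) (.c (.R (.c (.R (.c (.v 42 1
  0) (.c (.R (.c (.v 41 2 0) (.c (.v 43 1 0) (.c (.v 32 6 1) (.c (.v 39 3 0) .e))))) (.c (.v 32
  6 0) (.c (.v 38 3 0) .e))))) (.c (.v 41 1 0) (.c (.v 32 5 1) (.c (.R (.c (.v 38 3 0) (.c (.v
  40 2 0) (.c (.v 22 10 2) (.c (.v 42 1 0) .e))))) .e))))) (.c (.v 22 10 0) (.c (.v 40 1 0)
  .e))))) .e))))) (.c (.v 38 1 0) (.c (.v 34 3 0) (.c (.v 30 5 0) .e))))) (.c (.v 1 19 0) (.c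
  (.v 24 7 1) .e))))) (.c (.f 28 31 706 1049 0) (.c (.v 36 1 0) (.c (.v 26 6 0) .e))))) (.c (.f
  14 30 202 1035 1) .e))))) (.c (.v 4 16 0) (.c (.v 25 5 1) .e))))) (.c (.v 33 1 0) (.c (.v 29
  3 0) (.c (.v 31 2 0) .e))))) (.c (.v 28 3 0) (.c (.v 32 1 0) .e))))) .e))))) (.c (.v 30 1 0)
  (.c (.R (.c (.R (.c (.v 32 1 0) (.c (.f 9 27 139 139 0) (.c (.R (.c (.R (.c (.v 34 1 0) (.c
  (.v 18 8 2) (.c (.v 32 2 0) (.c (.v 30 3 0) .e))))) (.c (.v 5 15 0) (.c (.v 33 1 0) (.c (.R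
  (.c (.v 30 3 0) (.c (.v 26 5 0) (.c (.R (.c (.v 31 3 0) (.c (.v 5 15 2) (.c (.v 35 1 0) (.c
  (.v 33 2 0) .e))))) (.c (.v 34 1 0) .e))))) .e))))) (.c (.f 28 27 139 139 0) .e))))) (.c (.f
  14 26 643 153 1) (.c (.v 29 2 0) (.c (.v 31 1 0) .e))))) .e))))) (.c (.v 29 1 0) .e)))))
  .e))))) (.c (.f 9 22 1616 1616 0) (.c (.v 27 1 0) .e))))) .e))))) (.c (.v 25 1 0) (.c (.R (.c
  (.v 8 9 2) (.c (.v 11 8 1) (.c (.v 26 1 0) (.c (.R (.c (.f 20 22 1616 1616 0) (.c (.v 11 9 0)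
  (.c (.R (.c (.v 8 10 2) (.c (.v 11 9 1) (.c (.v 28 1 0) (.c (.v 26 2 0) .e))))) (.c (.v 27 1
  0) .e))))) .e))))) (.c (.f 1 20 538 538 0) .e))))) (.c (.v 22 2 0) (.c (.v 20 3 0) .e)))))
  (.c (.v 14 5 1) (.c (.v 23 1 0) (.c (.R (.c (.v 20 3 0) (.c (.v 14 6 0) (.c (.R (.c (.v 21 3
  0) (.c (.v 14 6 1) (.c (.v 25 1 0) (.c (.v 23 2 0) .e))))) (.c (.v 24 1 0) .e))))) .e)))))
  (.c (.R (.c (.v 21 2 0) (.c (.R (.c (.L (.c (.L (.c (.v 0 1 0) (.c (.v 0 3 0) (.c (.v 0 2 0)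
  (.c (.L (.c (.v 0 8 1) (.c (.f 1 0 1546 1546 1) (.c (.L (.c (.L (.c (.v 0 1 0) (.c (.f 12 0
  1112 720 1) (.c (.v 0 11 2) (.c (.v 0 3 0) .e))))) (.c (.L (.c (.f 20 0 1112 720 1) (.c (.v 0
  1 0) (.c (.L (.c (.f 0 0 1049 706 1) (.c (.v 0 2 0) (.c (.v 0 1 0) (.c (.f 7 0 1049 706 1)
  .e))))) (.c (.v 0 8 0) .e))))) (.c (.v 0 1 0) (.c (.v 0 15 0) .e))))) (.c (.v 0 1 0) .e)))))
  .e))))) (.c (.L (.c (.v 0 3 0) (.c (.v 0 1 0) (.c (.L (.c (.v 0 3 0) (.c (.v 0 2 0) (.c (.v 0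
  1 0) (.c (.L (.c (.f 1 0 1665 1665 1) (.c (.L (.c (.v 0 5 1) (.c (.v 0 1 0) (.c (.L (.c (.v 0
  6 0) (.c (.L (.c (.v 0 6 1) (.c (.v 0 1 0) (.c (.v 0 2 0) (.c (.v 0 3 0) .e))))) (.c (.v 0 1
  0) (.c (.v 0 3 0) .e))))) (.c (.L (.c (.v 0 8 1) (.c (.v 0 2 0) (.c (.v 0 3 0) (.c (.v 0 1 0)
  .e))))) .e))))) (.c (.L (.c (.L (.c (.v 0 1 0) (.c (.v 0 6 0) (.c (.f 28 0 1049 706 0) (.c
  (.R (.c (.v 31 1 0) (.c (.v 0 15 3) (.c (.R (.c (.R (.c (.v 33 1 0) (.c (.v 0 17 1) (.c (.v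
  31 2 0) (.c (.f 0 28 720 1112 0) .e))))) (.c (.v 0 17 0) (.c (.v 32 1 0) (.c (.v 24 5 0)
  .e))))) (.c (.L (.c (.L (.c (.v 0 1 0) (.c (.v 0 11 0) (.c (.v 0 3 0) (.c (.v 0 2 0) .e)))))
  (.c (.L (.c (.v 0 11 0) (.c (.v 0 1 0) (.c (.v 0 5 0) (.c (.L (.c (.f 7 0 90 531 1) (.c (.v 0
  2 0) (.c (.f 0 0 90 531 1) (.c (.v 0 1 0) .e))))) .e))))) (.c (.R (.c (.R (.c (.v 34 1 0) (.c
  (.v 30 3 0) (.c (.R (.c (.R (.c (.v 36 1 0) (.c (.R (.c (.f 28 32 664 664 0) (.c (.v 37 1 0)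
  (.c (.v 12 12 3) (.c (.v 27 6 0) .e))))) (.c (.v 34 2 0) (.c (.f 14 31 153 643 1) .e))))) (.c
  (.f 1 30 202 1035 0) (.c (.v 35 1 0) (.c (.R (.c (.R (.c (.v 37 1 0) (.c (.v 27 6 0) (.c (.v
  33 3 0) (.c (.R (.c (.v 36 2 0) (.c (.v 27 6 1) (.c (.v 34 3 0) (.c (.v 38 1 0) .e)))))
  .e))))) (.c (.v 27 5 1) (.c (.R (.c (.v 33 3 0) (.c (.R (.c (.f 1 33 153 643 0) (.c (.v 38 1
  0) (.c (.R (.c (.R (.c (.v 40 1 0) (.c (.v 12 15 0) (.c (.v 18 12 0) (.c (.f 9 35 531 90 0)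
  .e))))) (.c (.v 37 2 0) (.c (.v 39 1 0) (.c (.v 21 9 2) .e))))) (.c (.R (.c (.R (.c (.v 40 1
  0) (.c (.v 24 9 0) (.c (.f 20 35 531 90 0) (.c (.R (.c (.v 39 2 0) (.c (.v 24 9 1) (.c (.v 21
  10 2) (.c (.v 41 1 0) .e))))) .e))))) (.c (.v 24 8 1) (.c (.v 21 9 2) (.c (.v 39 1 0) .e)))))
  .e))))) (.c (.v 37 1 0) (.c (.v 35 2 0) .e))))) (.c (.v 36 1 0) .e))))) .e))))) (.c (.v 32 2
  0) .e))))) (.c (.v 29 3 0) (.c (.v 25 5 0) (.c (.v 33 1 0) .e))))) (.c (.v 0 1 0) .e)))))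
  .e))))) .e))))) (.c (.f 14 0 1091 209 0) (.c (.v 0 1 0) (.c (.v 0 2 0) .e))))) (.c (.v 0 1 0)
  .e))))) .e))))) (.c (.v 0 5 0) .e))))) (.c (.v 0 1 0) (.c (.L (.c (.f 13 0 1602 1553 1) (.c
  (.v 0 5 0) (.c (.L (.c (.f 7 0 1546 1546 1) (.c (.f 0 0 1546 1546 1) (.c (.v 0 1 0) (.c (.v 0
  2 0) .e))))) (.c (.v 0 1 0) .e))))) .e))))) (.c (.v 24 1 0) (.c (.v 14 6 0) (.c (.f 28 19 90
  531 0) .e))))) (.c (.f 14 18 538 538 1) (.c (.v 23 1 0) .e))))) .e))))) (.c (.v 17 3 0) (.c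
  (.v 19 2 0) (.c (.v 21 1 0) .e))))) .e))))) (.c (.v 19 1 0) .e))))) .e))))) (.c (.v 17 1 0)
  (.c (.v 15 2 0) .e))))) (.c (.v 16 1 0) .e))))) .e))))) (.c (.v 6 5 0) .e))))) (.c (.R (.c
  (.v 10 3 0) (.c (.v 14 1 0) (.c (.v 12 2 0) (.c (.R (.c (.f 1 10 1553 1602 0) (.c (.v 0 8 1)
  (.c (.R (.c (.R (.c (.v 17 1 0) (.c (.f 20 12 1091 209 0) (.c (.R (.c (.v 16 2 0) (.c (.f 0
  13 1035 202 0) (.c (.v 18 1 0) (.c (.f 7 13 1035 202 0) .e))))) (.c (.v 3 8 0) .e))))) (.c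
  (.R (.c (.f 12 12 1091 209 0) (.c (.v 17 1 0) (.c (.R (.c (.R (.c (.v 19 1 0) (.c (.v 10 5 1)
  (.c (.R (.c (.v 18 2 0) (.c (.f 14 15 1602 1553 1) (.c (.v 20 1 0) (.c (.R (.c (.R (.c (.v 22
  1 0) (.c (.v 9 7 1) (.c (.L (.c (.L (.c (.v 0 1 0) (.c (.v 0 3 0) (.c (.v 0 2 0) (.c (.v 0 8
  2) .e))))) (.c (.L (.c (.v 0 3 0) (.c (.v 0 1 0) (.c (.L (.c (.v 0 3 0) (.c (.v 0 2 0) (.c
  (.v 0 1 0) (.c (.L (.c (.v 0 10 2) (.c (.L (.c (.v 0 5 1) (.c (.v 0 1 0) (.c (.L (.c (.v 0 6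
  0) (.c (.L (.c (.v 0 6 1) (.c (.v 0 1 0) (.c (.v 0 2 0) (.c (.v 0 3 0) .e))))) (.c (.v 0 1 0)
  (.c (.v 0 3 0) .e))))) (.c (.L (.c (.v 0 8 1) (.c (.v 0 2 0) (.c (.v 0 3 0) (.c (.v 0 1 0)
  .e))))) .e))))) (.c (.L (.c (.v 0 11 2) (.c (.f 14 0 1091 209 0) (.c (.v 0 1 0) (.c (.v 0 2
  0) .e))))) (.c (.v 0 1 0) .e))))) .e))))) (.c (.v 0 5 0) .e))))) (.c (.v 0 1 0) (.c (.L (.c
  (.v 0 8 2) (.c (.v 0 5 0) (.c (.v 0 10 0) (.c (.v 0 1 0) .e))))) .e))))) (.c (.R (.c (.v 21 2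
  0) (.c (.v 8 8 1) (.c (.v 19 3 0) (.c (.v 23 1 0) .e))))) .e))))) (.c (.v 11 6 0) (.c (.f 28
  16 1546 1546 0) (.c (.v 21 1 0) .e))))) .e))))) (.c (.f 1 14 643 153 0) .e))))) (.c (.v 16 2
  0) (.c (.v 18 1 0) (.c (.v 14 3 0) .e))))) (.c (.v 13 3 0) .e))))) (.c (.v 16 1 0) (.c (.R
  (.c (.v 3 8 0) (.c (.v 13 3 0) (.c (.v 15 2 0) (.c (.v 17 1 0) .e))))) .e))))) (.c (.v 15 1
  0) .e))))) .e))))) (.c (.v 13 1 0) (.c (.R (.c (.v 6 5 0) (.c (.f 13 9 1616 1616 0) (.c (.R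
  (.c (.f 0 10 1553 1602 0) (.c (.f 7 10 1553 1602 0) (.c (.v 15 1 0) (.c (.v 13 2 0) .e)))))
  (.c (.v 14 1 0) .e))))) .e))))) (.c (.f 9 7 664 664 0) .e))))) (.c (.v 9 2 0) (.c (.f 14 6
  153 643 1) .e))))) (.c (.f 1 5 202 1035 0) (.c (.v 10 1 0) (.c (.R (.c (.R (.c (.v 12 1 0)
  (.c (.f 12 7 664 664 0) (.c (.v 8 3 0) (.c (.R (.c (.v 11 2 0) (.c (.R (.c (.v 5 5 1) (.c (.v
  14 1 0) (.c (.f 1 9 1112 720 0) (.c (.R (.c (.f 14 10 720 1112 1) (.c (.v 13 2 0) (.c (.R (.c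
  (.v 6 6 0) (.c (.R (.c (.v 4 7 1) (.c (.v 17 1 0) (.c (.R (.c (.v 3 8 1) (.c (.v 16 2 0) (.c
  (.v 18 1 0) (.c (.v 14 3 0) .e))))) (.c (.R (.c (.v 10 5 0) (.c (.R (.c (.R (.c (.v 20 1 0)
  (.c (.R (.c (.v 19 2 0) (.c (.v 21 1 0) (.c (.R (.c (.R (.c (.v 23 1 0) (.c (.R (.c (.R (.c
  (.v 25 1 0) (.c (.v 23 2 0) (.c (.v 21 3 0) (.c (.R (.c (.R (.c (.v 27 1 0) (.c (.f 14 22
  1217 1217 1) (.c (.R (.c (.f 28 23 1224 1224 0) (.c (.v 18 6 0) (.c (.v 28 1 0) (.c (.v 0 15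
  0) .e))))) (.c (.v 25 2 0) .e))))) (.c (.R (.c (.R (.c (.v 28 1 0) (.c (.R (.c (.v 27 2 0)
  (.c (.v 29 1 0) (.c (.v 18 6 1) (.c (.v 25 3 0) .e))))) (.c (.v 18 6 0) (.c (.v 24 3 0)
  .e))))) (.c (.v 27 1 0) (.c (.v 18 5 1) (.c (.R (.c (.v 24 3 0) (.c (.v 26 2 0) (.c (.R (.c
  (.f 1 24 1217 1217 0) (.c (.R (.c (.R (.c (.v 31 1 0) (.c (.R (.c (.v 30 2 0) (.c (.v 32 1 0)
  (.c (.v 15 9 1) (.c (.v 12 10 2) .e))))) (.c (.v 15 9 0) (.c (.f 20 26 139 139 0) .e))))) (.c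
  (.v 30 1 0) (.c (.v 15 8 1) (.c (.v 12 9 2) .e))))) (.c (.v 29 1 0) (.c (.v 2 13 3) .e)))))
  (.c (.v 28 1 0) .e))))) .e))))) (.c (.f 1 21 1602 1553 0) (.c (.v 26 1 0) .e))))) .e))))) (.c
  (.v 24 1 0) (.c (.v 20 3 0) (.c (.v 16 5 0) .e))))) (.c (.R (.c (.v 22 2 0) (.c (.v 20 3 0)
  (.c (.v 24 1 0) (.c (.R (.c (.v 0 12 3) (.c (.f 1 20 1672 1672 0) (.c (.R (.c (.f 14 21 1112
  720 1) (.c (.R (.c (.f 9 22 1049 706 0) (.c (.v 27 1 0) (.c (.f 28 22 1049 706 0) (.c (.L (.c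
  (.L (.c (.v 0 1 0) (.c (.v 0 3 0) (.c (.v 0 2 0) (.c (.L (.c (.L (.c (.v 0 1 0) (.c (.L (.c
  (.f 28 0 1224 1224 0) (.c (.v 0 1 0) (.c (.f 9 0 1112 720 1) (.c (.L (.c (.L (.c (.v 0 1 0)
  (.c (.v 0 3 0) (.c (.v 0 5 0) (.c (.L (.c (.v 0 2 0) (.c (.v 0 3 0) (.c (.v 0 15 2) (.c (.v 0
  1 0) .e))))) .e))))) (.c (.L (.c (.v 0 3 0) (.c (.v 0 1 0) (.c (.v 0 8 2) (.c (.v 0 2 0)
  .e))))) (.c (.v 0 15 0) (.c (.v 0 1 0) .e))))) .e))))) (.c (.f 14 0 1049 706 0) (.c (.v 0 2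
  0) .e))))) (.c (.v 0 12 3) (.c (.L (.c (.L (.c (.v 0 1 0) (.c (.f 12 0 1112 720 1) (.c (.L
  (.c (.v 0 2 0) (.c (.L (.c (.v 0 5 1) (.c (.v 0 1 0) (.c (.L (.c (.f 14 0 1616 1616 0) (.c
  (.v 0 2 0) (.c (.v 0 1 0) (.c (.L (.c (.v 0 6 0) (.c (.L (.c (.v 0 7 1) (.c (.v 0 1 0) (.c
  (.L (.c (.v 0 5 0) (.c (.L (.c (.L (.c (.v 0 1 0) (.c (.L (.c (.v 0 2 0) (.c (.v 0 1 0) (.c
  (.f 14 0 1546 1546 0) (.c (.L (.c (.L (.c (.v 0 1 0) (.c (.L (.c (.L (.c (.v 0 1 0) (.c (.v 0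
  2 0) (.c (.L (.c (.L (.c (.v 0 1 0) (.c (.f 14 0 1665 1665 0) (.c (.v 0 2 0) (.c (.L (.c (.f
  28 0 664 664 0) (.c (.v 0 6 0) (.c (.v 0 15 0) (.c (.v 0 1 0) .e))))) .e))))) (.c (.L (.c (.L
  (.c (.v 0 1 0) (.c (.L (.c (.v 0 2 0) (.c (.v 0 1 0) (.c (.v 0 3 0) (.c (.v 0 6 1) .e)))))
  (.c (.v 0 3 0) (.c (.v 0 6 0) .e))))) (.c (.v 0 1 0) (.c (.L (.c (.v 0 3 0) (.c (.v 0 2 0)
  (.c (.v 0 1 0) (.c (.L (.c (.f 1 0 1665 1665 1) (.c (.L (.c (.L (.c (.v 0 1 0) (.c (.L (.c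
  (.v 0 2 0) (.c (.v 0 1 0) (.c (.v 0 10 2) (.c (.v 0 9 1) .e))))) (.c (.f 20 0 1035 202 1) (.c
  (.v 0 9 0) .e))))) (.c (.v 0 1 0) (.c (.v 0 9 2) (.c (.v 0 8 1) .e))))) (.c (.v 0 13 3) (.c
  (.v 0 1 0) .e))))) .e))))) (.c (.v 0 5 1) .e))))) (.c (.v 0 1 0) (.c (.f 1 0 706 1049 1)
  .e))))) (.c (.v 0 3 0) .e))))) (.c (.v 0 1 0) (.c (.v 0 5 0) (.c (.v 0 3 0) .e))))) (.c (.L
  (.c (.v 0 11 2) (.c (.v 0 5 0) (.c (.v 0 1 0) (.c (.f 13 0 1217 1217 1) .e))))) (.c (.L (.c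
  (.v 0 2 0) (.c (.v 0 3 0) (.c (.L (.c (.v 0 12 3) (.c (.f 1 0 1224 1224 1) (.c (.v 0 1 0) (.c
  (.L (.c (.f 14 0 664 664 0) (.c (.L (.c (.f 9 0 153 643 1) (.c (.v 0 1 0) (.c (.R (.c (.R (.c
  (.v 49 1 0) (.c (.f 13 44 531 90 0) (.c (.v 41 5 0) (.c (.R (.c (.v 48 2 0) (.c (.f 7 45 83
  83 0) (.c (.f 0 45 83 83 0) (.c (.v 50 1 0) .e))))) .e))))) (.c (.R (.c (.R (.c (.v 50 1 0)
  (.c (.v 35 8 1) (.c (.f 1 45 83 83 0) (.c (.R (.c (.v 20 15 3) (.c (.R (.c (.v 48 3 0) (.c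
  (.v 52 1 0) (.c (.f 12 47 706 1049 0) (.c (.v 30 11 2) .e))))) (.c (.R (.c (.v 38 8 0) (.c
  (.f 20 47 706 1049 0) (.c (.v 52 1 0) (.c (.R (.c (.v 20 17 1) (.c (.f 0 48 202 1035 0) (.c
  (.v 51 2 0) (.c (.v 53 1 0) .e))))) .e))))) (.c (.v 51 1 0) .e))))) .e))))) (.c (.v 49 1 0)
  (.c (.v 45 3 0) (.c (.v 47 2 0) .e))))) (.c (.R (.c (.v 41 5 0) (.c (.v 45 3 0) (.c (.v 49 1
  0) (.c (.R (.c (.R (.c (.v 51 1 0) (.c (.f 1 46 1035 202 0) (.c (.R (.c (.R (.c (.v 53 1 0)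
  (.c (.v 38 8 1) (.c (.v 51 2 0) (.c (.v 49 3 0) .e))))) (.c (.v 43 5 1) (.c (.v 52 1 0) (.c
  (.R (.c (.v 49 3 0) (.c (.v 43 6 0) (.c (.R (.c (.v 50 3 0) (.c (.v 43 6 1) (.c (.v 54 1 0)
  (.c (.v 52 2 0) .e))))) (.c (.v 53 1 0) .e))))) .e))))) (.c (.R (.c (.v 50 2 0) (.c (.R (.c
  (.v 20 17 1) (.c (.v 53 1 0) (.c (.v 43 6 0) (.c (.f 28 48 90 531 0) .e))))) (.c (.f 14 47
  538 538 1) (.c (.v 52 1 0) .e))))) .e))))) (.c (.v 46 3 0) (.c (.v 48 2 0) (.c (.v 50 1 0)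
  .e))))) .e))))) (.c (.v 48 1 0) .e))))) (.c (.f 28 0 139 139 0) .e))))) (.c (.v 0 2 0) (.c
  (.v 0 1 0) .e))))) .e))))) (.c (.v 0 1 0) .e))))) .e))))) (.c (.f 28 0 706 1049 0) (.c (.v 0
  6 0) (.c (.v 0 1 0) .e))))) .e))))) (.c (.L (.c (.L (.c (.v 0 1 0) (.c (.v 0 3 0) (.c (.v 0 2
  0) (.c (.v 0 10 2) .e))))) (.c (.L (.c (.v 0 3 0) (.c (.v 0 1 0) (.c (.L (.c (.v 0 3 0) (.c
  (.v 0 2 0) (.c (.v 0 1 0) (.c (.v 0 6 1) .e))))) (.c (.v 0 6 0) .e))))) (.c (.v 0 1 0) (.c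
  (.v 0 5 1) .e))))) (.c (.v 0 10 0) .e))))) (.c (.v 0 1 0) (.c (.v 0 2 0) (.c (.v 0 3 0)
  .e))))) (.c (.v 0 1 0) (.c (.v 0 3 0) .e))))) (.c (.v 0 19 0) .e))))) (.c (.f 28 0 531 90 0)
  (.c (.v 0 1 0) .e))))) .e))))) (.c (.v 0 16 0) .e))))) (.c (.v 0 1 0) (.c (.v 0 3 0) .e)))))
  (.c (.v 0 3 0) .e))))) (.c (.v 0 13 3) (.c (.v 0 1 0) (.c (.L (.c (.v 0 3 0) (.c (.v 0 8 0)
  (.c (.v 0 2 0) (.c (.v 0 1 0) .e))))) .e))))) (.c (.v 0 1 0) .e))))) .e))))) (.c (.v 0 13 0)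
  (.c (.v 0 1 0) (.c (.L (.c (.f 13 0 1602 1553 1) (.c (.v 0 5 0) (.c (.L (.c (.f 7 0 1546 1546
  1) (.c (.v 0 13 2) (.c (.v 0 1 0) (.c (.v 0 2 0) .e))))) (.c (.v 0 1 0) .e))))) .e)))))
  .e))))) (.c (.v 26 1 0) (.c (.v 24 2 0) .e))))) (.c (.v 25 1 0) .e))))) .e))))) (.c (.R (.c
  (.v 2 11 2) (.c (.v 16 5 0) (.c (.f 13 19 1665 1665 0) (.c (.v 24 1 0) .e))))) .e))))) (.c
  (.f 28 17 706 1049 0) (.c (.v 22 1 0) (.c (.v 12 6 0) .e))))) (.c (.f 14 16 202 1035 1)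
  .e))))) (.c (.v 2 10 0) (.c (.R (.c (.R (.c (.v 22 1 0) (.c (.v 18 3 0) (.c (.v 2 10 2) (.c
  (.v 20 2 0) .e))))) (.c (.R (.c (.v 18 3 0) (.c (.v 22 1 0) (.c (.v 12 6 0) (.c (.R (.c (.v
  19 3 0) (.c (.v 21 2 0) (.c (.v 12 6 1) (.c (.v 23 1 0) .e))))) .e))))) (.c (.v 12 5 1) (.c
  (.v 21 1 0) .e))))) .e))))) (.c (.v 19 1 0) (.c (.v 15 3 0) (.c (.v 17 2 0) .e))))) (.c (.v
  14 3 0) (.c (.v 18 1 0) .e))))) .e))))) (.c (.v 16 1 0) (.c (.f 28 11 209 1091 0) .e))))) (.c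
  (.v 15 1 0) .e))))) .e))))) (.c (.v 9 3 0) (.c (.v 13 1 0) .e))))) .e))))) (.c (.R (.c (.f 20
  7 664 664 0) (.c (.v 12 1 0) (.c (.f 13 7 664 664 0) (.c (.R (.c (.f 0 8 153 643 0) (.c (.v
  11 2 0) (.c (.f 7 8 153 643 0) (.c (.v 13 1 0) .e))))) .e))))) (.c (.R (.c (.v 8 3 0) (.c (.L
  (.c (.L (.c (.v 0 1 0) (.c (.v 0 3 0) (.c (.v 0 2 0) (.c (.v 0 8 0) .e))))) (.c (.L (.c (.v 0
  3 0) (.c (.v 0 1 0) (.c (.L (.c (.v 0 3 0) (.c (.v 0 2 0) (.c (.v 0 1 0) (.c (.L (.c (.f 1 0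
  1665 1665 1) (.c (.L (.c (.v 0 5 1) (.c (.v 0 1 0) (.c (.L (.c (.v 0 6 0) (.c (.L (.c (.v 0 6
  1) (.c (.v 0 1 0) (.c (.v 0 2 0) (.c (.v 0 3 0) .e))))) (.c (.v 0 1 0) (.c (.v 0 3 0) .e)))))
  (.c (.L (.c (.v 0 8 1) (.c (.v 0 2 0) (.c (.v 0 3 0) (.c (.v 0 1 0) .e))))) .e))))) (.c (.L
  (.c (.L (.c (.v 0 1 0) (.c (.v 0 6 0) (.c (.f 28 0 1049 706 0) (.c (.L (.c (.L (.c (.v 0 1 0)
  (.c (.L (.c (.L (.c (.v 0 1 0) (.c (.v 0 2 0) (.c (.L (.c (.f 28 0 1616 1616 0) (.c (.v 0 11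
  0) (.c (.v 0 1 0) (.c (.f 9 0 720 1112 1) .e))))) (.c (.f 14 0 209 1091 0) .e))))) (.c (.v 0
  1 0) (.c (.f 1 0 90 531 1) (.c (.v 0 10 2) .e))))) (.c (.v 0 3 0) (.c (.v 0 2 0) .e))))) (.c
  (.L (.c (.f 13 0 538 538 1) (.c (.v 0 1 0) (.c (.v 0 5 0) (.c (.v 0 10 1) .e))))) (.c (.L (.c
  (.v 0 3 0) (.c (.v 0 5 0) (.c (.v 0 1 0) (.c (.L (.c (.v 0 3 0) (.c (.R (.c (.f 1 17 153 643
  0) (.c (.v 22 1 0) (.c (.v 0 12 0) (.c (.L (.c (.f 1 0 1049 706 1) (.c (.v 0 1 0) (.c (.L (.c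
  (.v 0 5 1) (.c (.L (.c (.L (.c (.v 0 1 0) (.c (.L (.c (.v 0 2 0) (.c (.v 0 1 0) (.c (.v 0 9
  2) (.c (.L (.c (.v 0 12 3) (.c (.v 0 12 0) (.c (.f 9 0 1602 1553 1) (.c (.v 0 1 0) .e)))))
  .e))))) (.c (.L (.c (.v 0 8 1) (.c (.v 0 9 2) (.c (.v 0 1 0) (.c (.L (.c (.v 0 9 0) (.c (.f
  20 0 1602 1553 1) (.c (.L (.c (.v 0 9 1) (.c (.v 0 10 2) (.c (.v 0 1 0) (.c (.v 0 2 0)
  .e))))) (.c (.v 0 1 0) .e))))) .e))))) (.c (.f 1 0 531 90 1) .e))))) (.c (.v 0 1 0) (.c (.v 0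
  2 0) (.c (.v 0 3 0) .e))))) (.c (.v 0 1 0) (.c (.L (.c (.v 0 6 0) (.c (.v 0 3 0) (.c (.L (.c
  (.v 0 6 1) (.c (.v 0 3 0) (.c (.v 0 1 0) (.c (.v 0 2 0) .e))))) (.c (.v 0 1 0) .e)))))
  .e))))) (.c (.L (.c (.L (.c (.v 0 1 0) (.c (.v 0 12 3) (.c (.v 0 6 0) (.c (.f 28 0 209 1091
  0) .e))))) (.c (.v 0 2 0) (.c (.f 14 0 531 90 0) (.c (.v 0 1 0) .e))))) .e))))) .e))))) (.c
  (.v 0 2 0) (.c (.v 0 1 0) .e))))) .e))))) (.c (.v 0 1 0) .e))))) .e))))) (.c (.f 14 0 1091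
  209 0) (.c (.v 0 1 0) (.c (.v 0 2 0) .e))))) (.c (.v 0 1 0) .e))))) .e))))) (.c (.v 0 5 0)
  .e))))) (.c (.v 0 1 0) (.c (.L (.c (.v 0 8 0) (.c (.v 0 5 0) (.c (.L (.c (.f 7 0 1546 1546 1)
  (.c (.f 0 0 1546 1546 1) (.c (.v 0 1 0) (.c (.v 0 2 0) .e))))) (.c (.v 0 1 0) .e))))) .e)))))
  (.c (.v 12 1 0) (.c (.v 10 2 0) .e))))) (.c (.v 11 1 0) .e))))) .e))))) (.c (.v 7 2 0)
  .e))))) (.c (.R (.c (.v 5 3 0) (.c (.v 9 1 0) (.c (.v 1 5 0) (.c (.R (.c (.v 6 3 0) (.c (.v 8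
  2 0) (.c (.R (.c (.f 1 6 1217 1217 0) (.c (.R (.c (.v 3 5 1) (.c (.v 12 1 0) (.c (.R (.c (.L
  (.c (.L (.c (.v 0 1 0) (.c (.v 0 3 0) (.c (.v 0 2 0) (.c (.v 0 8 1) .e))))) (.c (.L (.c (.v 0
  3 0) (.c (.v 0 1 0) (.c (.R (.c (.v 16 1 0) (.c (.R (.c (.v 2 8 1) (.c (.v 17 1 0) (.c (.R
  (.c (.v 14 3 0) (.c (.v 0 9 2) (.c (.v 18 1 0) (.c (.f 12 13 1546 1546 0) .e))))) (.c (.R (.c
  (.v 2 9 0) (.c (.R (.c (.v 2 9 1) (.c (.v 19 1 0) (.c (.f 0 14 1602 1553 0) (.c (.v 17 2 0)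
  .e))))) (.c (.f 20 13 1546 1546 0) (.c (.v 18 1 0) .e))))) .e))))) (.c (.L (.c (.v 0 3 0) (.c
  (.v 0 2 0) (.c (.v 0 1 0) (.c (.R (.c (.v 16 2 0) (.c (.v 0 9 2) (.c (.v 18 1 0) (.c (.R (.c
  (.L (.c (.v 0 10 0) (.c (.L (.c (.v 0 5 1) (.c (.v 0 1 0) (.c (.L (.c (.v 0 6 0) (.c (.L (.c
  (.v 0 6 1) (.c (.v 0 1 0) (.c (.v 0 2 0) (.c (.v 0 3 0) .e))))) (.c (.v 0 1 0) (.c (.v 0 3 0)
  .e))))) (.c (.L (.c (.v 0 10 2) (.c (.v 0 2 0) (.c (.v 0 3 0) (.c (.v 0 1 0) .e))))) .e)))))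
  (.c (.L (.c (.L (.c (.v 0 1 0) (.c (.v 0 6 0) (.c (.f 28 0 1049 706 0) (.c (.L (.c (.L (.c
  (.v 0 1 0) (.c (.R (.c (.v 25 1 0) (.c (.R (.c (.R (.c (.v 27 1 0) (.c (.v 25 2 0) (.c (.v 1
  13 2) (.c (.f 7 22 1112 720 0) .e))))) (.c (.v 26 1 0) (.c (.v 18 5 0) (.c (.f 13 21 1049 706
  0) .e))))) (.c (.v 1 13 0) (.c (.R (.c (.v 24 2 0) (.c (.R (.c (.R (.c (.v 28 1 0) (.c (.R
  (.c (.v 27 2 0) (.c (.v 29 1 0) (.c (.v 15 8 0) (.c (.v 25 3 0) .e))))) (.c (.v 1 13 3) (.c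
  (.R (.c (.R (.c (.v 30 1 0) (.c (.v 26 3 0) (.c (.R (.c (.R (.c (.v 32 1 0) (.c (.R (.c (.f
  28 28 664 664 0) (.c (.v 33 1 0) (.c (.R (.c (.R (.c (.v 35 1 0) (.c (.v 31 3 0) (.c (.R (.c
  (.v 34 2 0) (.c (.v 32 3 0) (.c (.v 36 1 0) (.c (.R (.c (.R (.c (.v 38 1 0) (.c (.v 29 5 1)
  (.c (.R (.c (.R (.c (.v 40 1 0) (.c (.v 29 6 1) (.c (.v 38 2 0) (.c (.v 36 3 0) .e))))) (.c
  (.v 29 6 0) (.c (.v 39 1 0) (.c (.v 35 3 0) .e))))) (.c (.R (.c (.v 37 2 0) (.c (.v 19 10 2)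
  (.c (.v 35 3 0) (.c (.v 39 1 0) .e))))) .e))))) (.c (.v 19 10 0) (.c (.R (.c (.f 14 33 1112
  720 1) (.c (.R (.c (.v 29 6 0) (.c (.v 39 1 0) (.c (.f 28 34 1049 706 0) (.c (.R (.c (.R (.c
  (.v 41 1 0) (.c (.f 13 36 531 90 0) (.c (.v 33 5 0) (.c (.v 19 11 2) .e))))) (.c (.R (.c (.R
  (.c (.v 42 1 0) (.c (.R (.c (.v 41 2 0) (.c (.v 43 1 0) (.c (.R (.c (.L (.c (.L (.c (.v 0 1
  0) (.c (.v 0 2 0) (.c (.L (.c (.f 28 0 1616 1616 0) (.c (.R (.c (.v 48 1 0) (.c (.R (.c (.R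
  (.c (.v 50 1 0) (.c (.v 48 2 0) (.c (.v 46 3 0) (.c (.R (.c (.R (.c (.v 52 1 0) (.c (.f 14 47
  1217 1217 1) (.c (.R (.c (.f 28 48 1224 1224 0) (.c (.v 43 6 0) (.c (.v 53 1 0) (.c (.v 20 17
  1) .e))))) (.c (.v 50 2 0) .e))))) (.c (.R (.c (.R (.c (.v 53 1 0) (.c (.R (.c (.v 52 2 0)
  (.c (.v 54 1 0) (.c (.v 43 6 1) (.c (.v 50 3 0) .e))))) (.c (.v 43 6 0) (.c (.v 49 3 0)
  .e))))) (.c (.v 52 1 0) (.c (.v 43 5 1) (.c (.R (.c (.v 49 3 0) (.c (.v 51 2 0) (.c (.v 38 8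
  1) (.c (.v 53 1 0) .e))))) .e))))) (.c (.f 1 46 1602 1553 0) (.c (.v 51 1 0) .e))))) .e)))))
  (.c (.v 49 1 0) (.c (.v 45 3 0) (.c (.v 41 5 0) .e))))) (.c (.R (.c (.v 47 2 0) (.c (.v 45 3
  0) (.c (.v 49 1 0) (.c (.R (.c (.R (.c (.v 51 1 0) (.c (.R (.c (.R (.c (.v 53 1 0) (.c (.v 51
  2 0) (.c (.f 0 48 1112 720 0) (.c (.v 20 17 1) .e))))) (.c (.v 52 1 0) (.c (.f 20 47 1049 706
  0) (.c (.v 38 8 0) .e))))) (.c (.R (.c (.v 30 11 2) (.c (.f 12 47 1049 706 0) (.c (.v 52 1 0)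
  (.c (.v 48 3 0) .e))))) (.c (.v 20 15 3) .e))))) (.c (.f 1 45 1672 1672 0) (.c (.v 35 8 1)
  (.c (.v 50 1 0) .e))))) .e))))) (.c (.R (.c (.R (.c (.v 50 1 0) (.c (.f 0 45 1672 1672 0) (.c
  (.f 7 45 1672 1672 0) (.c (.v 48 2 0) .e))))) (.c (.v 41 5 0) (.c (.f 13 44 1665 1665 0) (.c
  (.v 49 1 0) .e))))) .e))))) (.c (.v 0 1 0) (.c (.f 9 0 720 1112 1) .e))))) (.c (.f 14 0 209
  1091 0) .e))))) (.c (.v 0 1 0) (.c (.f 1 0 90 531 1) (.c (.v 0 12 3) .e))))) (.c (.f 28 39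
  706 1049 0) (.c (.v 44 1 0) (.c (.f 9 39 706 1049 0) .e))))) (.c (.f 14 38 202 1035 1)
  .e))))) (.c (.f 1 37 83 83 0) (.c (.v 17 12 3) .e))))) (.c (.v 41 1 0) (.c (.v 37 3 0) (.c
  (.v 39 2 0) .e))))) (.c (.R (.c (.v 33 5 0) (.c (.v 37 3 0) (.c (.v 41 1 0) (.c (.R (.c (.R
  (.c (.v 43 1 0) (.c (.f 1 38 1035 202 0) (.c (.R (.c (.R (.c (.v 45 1 0) (.c (.R (.c (.v 19
  13 3) (.c (.v 46 1 0) (.c (.R (.c (.v 29 9 2) (.c (.v 32 8 1) (.c (.v 47 1 0) (.c (.R (.c (.f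
  20 43 1616 1616 0) (.c (.v 32 9 0) (.c (.R (.c (.v 29 10 2) (.c (.v 32 9 1) (.c (.v 49 1 0)
  (.c (.v 47 2 0) .e))))) (.c (.v 48 1 0) .e))))) .e))))) (.c (.f 1 41 538 538 0) .e))))) (.c
  (.v 43 2 0) (.c (.v 41 3 0) .e))))) (.c (.v 35 5 1) (.c (.v 44 1 0) (.c (.R (.c (.v 41 3 0)
  (.c (.v 35 6 0) (.c (.R (.c (.v 42 3 0) (.c (.v 35 6 1) (.c (.v 46 1 0) (.c (.v 44 2 0)
  .e))))) (.c (.v 45 1 0) .e))))) .e))))) (.c (.R (.c (.v 42 2 0) (.c (.R (.c (.v 17 15 0) (.c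
  (.v 45 1 0) (.c (.v 35 6 0) (.c (.f 28 40 90 531 0) .e))))) (.c (.f 14 39 538 538 1) (.c (.v
  44 1 0) .e))))) .e))))) (.c (.v 38 3 0) (.c (.v 40 2 0) (.c (.v 42 1 0) .e))))) .e))))) (.c
  (.v 40 1 0) .e))))) .e))))) (.c (.v 38 1 0) (.c (.v 36 2 0) .e))))) (.c (.v 37 1 0) .e)))))
  .e))))) (.c (.v 27 5 0) .e))))) (.c (.R (.c (.v 31 3 0) (.c (.v 35 1 0) (.c (.v 33 2 0) (.c
  (.v 20 8 1) .e))))) (.c (.v 34 1 0) (.c (.v 21 7 1) .e))))) (.c (.v 23 6 0) .e))))) (.c (.v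
  30 2 0) (.c (.f 14 27 153 643 1) .e))))) (.c (.v 1 16 0) (.c (.v 31 1 0) (.c (.v 22 5 1)
  .e))))) (.c (.v 28 2 0) .e))))) (.c (.v 25 3 0) (.c (.f 12 24 209 1091 0) (.c (.v 29 1 0)
  .e))))) .e))))) (.c (.v 27 1 0) (.c (.v 2 12 3) (.c (.R (.c (.f 14 23 720 1112 1) (.c (.v 26
  2 0) (.c (.R (.c (.f 9 24 209 1091 0) (.c (.R (.c (.v 2 15 0) (.c (.v 30 1 0) (.c (.R (.c (.v
  15 8 2) (.c (.v 29 2 0) (.c (.v 31 1 0) (.c (.v 27 3 0) .e))))) (.c (.R (.c (.v 23 5 0) (.c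
  (.R (.c (.v 2 15 2) (.c (.v 32 1 0) (.c (.v 28 3 0) (.c (.v 30 2 0) .e))))) (.c (.v 27 3 0)
  (.c (.v 31 1 0) .e))))) .e))))) (.c (.v 29 1 0) (.c (.f 28 24 209 1091 0) .e))))) (.c (.v 28
  1 0) .e))))) .e))))) (.c (.v 22 3 0) (.c (.v 26 1 0) .e))))) .e))))) (.c (.v 0 3 0) (.c (.v 0
  2 0) .e))))) (.c (.L (.c (.f 13 0 538 538 1) (.c (.v 0 1 0) (.c (.v 0 5 0) (.c (.v 0 11 2)
  .e))))) (.c (.L (.c (.v 0 3 0) (.c (.v 0 5 0) (.c (.v 0 1 0) (.c (.L (.c (.v 0 3 0) (.c (.L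
  (.c (.f 1 0 1049 706 1) (.c (.v 0 1 0) (.c (.L (.c (.v 0 5 1) (.c (.L (.c (.L (.c (.v 0 1 0)
  (.c (.v 0 13 3) (.c (.L (.c (.v 0 8 1) (.c (.v 0 9 2) (.c (.v 0 1 0) (.c (.L (.c (.v 0 9 0)
  (.c (.f 20 0 1602 1553 1) (.c (.L (.c (.v 0 9 1) (.c (.v 0 10 2) (.c (.v 0 1 0) (.c (.v 0 2
  0) .e))))) (.c (.v 0 1 0) .e))))) .e))))) (.c (.f 1 0 531 90 1) .e))))) (.c (.v 0 1 0) (.c
  (.v 0 2 0) (.c (.v 0 3 0) .e))))) (.c (.v 0 1 0) (.c (.L (.c (.v 0 6 0) (.c (.v 0 3 0) (.c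
  (.L (.c (.v 0 6 1) (.c (.v 0 3 0) (.c (.v 0 1 0) (.c (.v 0 2 0) .e))))) (.c (.v 0 1 0)
  .e))))) .e))))) (.c (.L (.c (.L (.c (.v 0 1 0) (.c (.v 0 15 0) (.c (.v 0 6 0) (.c (.f 28 0
  209 1091 0) .e))))) (.c (.v 0 2 0) (.c (.f 14 0 531 90 0) (.c (.v 0 1 0) .e))))) .e))))) (.c
  (.v 0 2 0) (.c (.v 0 1 0) .e))))) .e))))) (.c (.v 0 1 0) .e))))) .e))))) (.c (.f 14 0 1091
  209 0) (.c (.v 0 1 0) (.c (.v 0 2 0) .e))))) (.c (.v 0 1 0) .e))))) (.c (.f 9 14 1546 1546 0)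
  (.c (.f 28 14 1546 1546 0) (.c (.v 19 1 0) .e))))) .e))))) .e))))) (.c (.f 1 11 643 153 0)
  .e))))) (.c (.v 0 5 0) .e))))) (.c (.v 0 1 0) (.c (.v 0 7 1) .e))))) (.c (.v 11 2 0) (.c (.v
  13 1 0) (.c (.v 9 3 0) .e))))) (.c (.R (.c (.v 3 6 0) (.c (.R (.c (.v 3 6 1) (.c (.v 14 1 0)
  (.c (.v 10 3 0) (.c (.v 12 2 0) .e))))) (.c (.v 9 3 0) (.c (.v 13 1 0) .e))))) .e))))) (.c
  (.v 11 1 0) (.c (.R (.c (.R (.c (.v 13 1 0) (.c (.v 3 6 0) (.c (.R (.c (.R (.c (.v 15 1 0)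
  (.c (.R (.c (.R (.c (.v 17 1 0) (.c (.v 15 2 0) (.c (.f 14 12 1553 1602 1) (.c (.R (.c (.f 28
  13 1616 1616 0) (.c (.L (.c (.L (.c (.v 0 1 0) (.c (.v 0 3 0) (.c (.v 0 2 0) (.c (.v 0 11 0)
  .e))))) (.c (.L (.c (.v 0 3 0) (.c (.v 0 1 0) (.c (.L (.c (.v 0 3 0) (.c (.v 0 2 0) (.c (.v 0
  1 0) (.c (.R (.c (.R (.c (.v 23 1 0) (.c (.R (.c (.v 22 2 0) (.c (.v 24 1 0) (.c (.R (.c (.R
  (.c (.v 26 1 0) (.c (.R (.c (.R (.c (.v 28 1 0) (.c (.v 26 2 0) (.c (.v 24 3 0) (.c (.v 17 6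
  1) .e))))) (.c (.v 27 1 0) (.c (.v 23 3 0) (.c (.v 17 6 0) .e))))) (.c (.R (.c (.v 25 2 0)
  (.c (.v 23 3 0) (.c (.v 27 1 0) (.c (.v 12 8 1) .e))))) (.c (.v 17 5 1) .e))))) (.c (.R (.c
  (.f 14 21 1672 1672 1) (.c (.v 26 1 0) (.c (.v 24 2 0) (.c (.R (.c (.v 17 6 0) (.c (.f 28 22
  1665 1665 0) (.c (.R (.c (.R (.c (.v 29 1 0) (.c (.v 21 5 0) (.c (.R (.c (.v 28 2 0) (.c (.f
  0 25 1035 202 0) (.c (.v 30 1 0) (.c (.f 7 25 1035 202 0) .e))))) (.c (.v 9 11 0) .e))))) (.c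
  (.R (.c (.v 21 5 0) (.c (.v 29 1 0) (.c (.R (.c (.R (.c (.v 31 1 0) (.c (.R (.c (.R (.c (.v
  33 1 0) (.c (.v 31 2 0) (.c (.v 29 3 0) (.c (.R (.c (.R (.c (.v 35 1 0) (.c (.v 17 9 2) (.c
  (.R (.c (.v 14 12 0) (.c (.f 9 31 1224 1224 0) (.c (.v 36 1 0) (.c (.v 3 17 1) .e))))) (.c
  (.v 33 2 0) .e))))) (.c (.R (.c (.v 17 9 2) (.c (.v 35 1 0) (.c (.R (.c (.f 20 31 1224 1224
  0) (.c (.R (.c (.v 17 10 2) (.c (.v 37 1 0) (.c (.v 35 2 0) (.c (.v 20 9 1) .e))))) (.c (.v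
  36 1 0) (.c (.v 20 9 0) .e))))) (.c (.v 20 8 1) .e))))) (.c (.f 1 29 1602 1553 0) (.c (.v 34
  1 0) .e))))) .e))))) (.c (.v 32 1 0) (.c (.R (.c (.v 29 3 0) (.c (.R (.c (.v 30 3 0) (.c (.v
  34 1 0) (.c (.v 32 2 0) (.c (.v 23 6 1) .e))))) (.c (.v 33 1 0) (.c (.v 23 6 0) .e))))) (.c
  (.v 23 5 1) .e))))) (.c (.R (.c (.v 30 2 0) (.c (.f 14 27 1602 1553 1) (.c (.v 32 1 0) (.c
  (.R (.c (.R (.c (.v 34 1 0) (.c (.R (.c (.R (.c (.v 36 1 0) (.c (.v 34 2 0) (.c (.f 0 31 1112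
  720 0) (.c (.v 3 17 1) .e))))) (.c (.v 35 1 0) (.c (.v 27 5 0) (.c (.v 2 16 3) .e))))) (.c
  (.R (.c (.R (.c (.v 36 1 0) (.c (.R (.c (.R (.c (.v 38 1 0) (.c (.v 36 2 0) (.c (.f 14 33
  1553 1602 1) (.c (.R (.c (.f 28 34 1616 1616 0) (.c (.v 14 12 3) (.c (.v 29 6 0) (.c (.v 39 1
  0) .e))))) .e))))) (.c (.v 37 1 0) (.c (.R (.c (.R (.c (.v 39 1 0) (.c (.v 35 3 0) (.c (.R
  (.c (.v 38 2 0) (.c (.v 36 3 0) (.c (.v 40 1 0) (.c (.v 29 6 1) .e))))) (.c (.v 29 6 0)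
  .e))))) (.c (.R (.c (.v 35 3 0) (.c (.v 39 1 0) (.c (.v 37 2 0) (.c (.R (.c (.f 1 35 1553
  1602 0) (.c (.R (.c (.R (.c (.v 42 1 0) (.c (.v 20 12 0) (.c (.f 9 37 1091 209 0) (.c (.v 14
  15 0) .e))))) (.c (.v 41 1 0) (.c (.v 23 9 2) (.c (.v 39 2 0) .e))))) (.c (.R (.c (.R (.c (.v
  42 1 0) (.c (.f 20 37 1091 209 0) (.c (.R (.c (.v 41 2 0) (.c (.v 23 10 2) (.c (.v 43 1 0)
  (.c (.v 26 9 1) .e))))) (.c (.v 26 9 0) .e))))) (.c (.v 23 9 2) (.c (.v 41 1 0) (.c (.v 26 8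
  1) .e))))) (.c (.v 40 1 0) .e))))) .e))))) (.c (.v 38 1 0) (.c (.v 29 5 1) .e))))) (.c (.v 1
  18 2) .e))))) (.c (.v 34 2 0) (.c (.v 32 3 0) .e))))) (.c (.v 27 5 0) (.c (.v 35 1 0) (.c (.v
  31 3 0) .e))))) (.c (.v 3 15 3) .e))))) (.c (.v 23 6 0) (.c (.f 28 28 1546 1546 0) (.c (.v 33
  1 0) .e))))) .e))))) (.c (.f 1 26 643 153 0) .e))))) (.c (.v 28 2 0) (.c (.v 30 1 0) (.c (.v
  26 3 0) .e))))) (.c (.v 25 3 0) .e))))) (.c (.v 28 1 0) (.c (.R (.c (.v 9 11 0) (.c (.v 25 3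
  0) (.c (.v 27 2 0) (.c (.v 29 1 0) .e))))) .e))))) (.c (.v 27 1 0) .e))))) .e))))) (.c (.v 25
  1 0) (.c (.f 1 20 720 1112 0) .e))))) (.c (.v 20 3 0) .e))))) (.c (.v 15 5 0) (.c (.v 19 3 0)
  .e))))) (.c (.v 22 1 0) (.c (.R (.c (.v 15 5 0) (.c (.R (.c (.f 0 19 1217 1217 0) (.c (.v 24
  1 0) (.c (.v 22 2 0) (.c (.f 7 19 1217 1217 0) .e))))) (.c (.v 23 1 0) (.c (.f 13 18 1224
  1224 0) .e))))) (.c (.R (.c (.v 19 3 0) (.c (.v 21 2 0) (.c (.R (.c (.f 1 19 1217 1217 0) (.c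
  (.R (.c (.R (.c (.v 26 1 0) (.c (.R (.c (.v 25 2 0) (.c (.v 27 1 0) (.c (.f 7 22 643 153 0)
  (.c (.f 0 22 643 153 0) .e))))) (.c (.v 12 8 0) (.c (.f 20 21 139 139 0) .e))))) (.c (.v 25 1
  0) (.c (.R (.c (.v 12 8 0) (.c (.v 24 2 0) (.c (.v 26 1 0) (.c (.v 22 3 0) .e))))) (.c (.R
  (.c (.f 12 21 139 139 0) (.c (.v 4 11 2) (.c (.v 22 3 0) (.c (.v 26 1 0) .e))))) .e))))) (.c
  (.v 24 1 0) (.c (.v 9 8 1) .e))))) (.c (.v 23 1 0) .e))))) .e))))) .e))))) (.c (.v 0 5 0)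
  .e))))) (.c (.v 0 1 0) (.c (.L (.c (.v 0 11 0) (.c (.v 0 5 0) (.c (.L (.c (.f 7 0 1546 1546
  1) (.c (.f 0 0 1546 1546 1) (.c (.v 0 1 0) (.c (.v 0 2 0) .e))))) (.c (.v 0 1 0) .e)))))
  .e))))) (.c (.f 9 13 1616 1616 0) (.c (.v 18 1 0) .e))))) .e))))) (.c (.v 16 1 0) (.c (.R (.c
  (.R (.c (.v 18 1 0) (.c (.v 14 3 0) (.c (.R (.c (.v 17 2 0) (.c (.v 15 3 0) (.c (.v 19 1 0)
  (.c (.R (.c (.v 11 5 1) (.c (.f 1 15 1672 1672 0) (.c (.R (.c (.f 14 16 1112 720 1) (.c (.R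
  (.c (.v 12 6 0) (.c (.v 22 1 0) (.c (.f 28 17 1049 706 0) (.c (.R (.c (.v 10 7 1) (.c (.R (.c
  (.v 9 8 1) (.c (.v 24 1 0) (.c (.v 20 3 0) (.c (.v 22 2 0) .e))))) (.c (.R (.c (.v 16 5 0)
  (.c (.v 20 3 0) (.c (.v 24 1 0) (.c (.R (.c (.R (.c (.v 26 1 0) (.c (.v 8 10 0) (.c (.R (.c
  (.R (.c (.v 28 1 0) (.c (.v 8 10 2) (.c (.v 26 2 0) (.c (.v 24 3 0) .e))))) (.c (.v 18 5 1)
  (.c (.v 27 1 0) (.c (.R (.c (.v 24 3 0) (.c (.v 18 6 0) (.c (.R (.c (.v 25 3 0) (.c (.v 18 6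
  1) (.c (.v 29 1 0) (.c (.v 27 2 0) .e))))) (.c (.v 28 1 0) .e))))) .e))))) (.c (.R (.c (.v 25
  2 0) (.c (.R (.c (.R (.c (.v 29 1 0) (.c (.v 5 13 0) (.c (.R (.c (.v 8 11 2) (.c (.f 13 25
  209 1091 0) (.c (.v 30 1 0) (.c (.v 22 5 0) .e))))) (.c (.R (.c (.R (.c (.v 31 1 0) (.c (.v
  27 3 0) (.c (.R (.c (.R (.c (.v 33 1 0) (.c (.v 5 14 2) (.c (.v 31 2 0) (.c (.f 14 28 153 643
  1) .e))))) (.c (.v 5 13 3) (.c (.v 32 1 0) (.c (.R (.c (.R (.c (.v 34 1 0) (.c (.v 24 6 0)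
  (.c (.v 30 3 0) (.c (.R (.c (.v 33 2 0) (.c (.v 24 6 1) (.c (.v 31 3 0) (.c (.v 35 1 0)
  .e))))) .e))))) (.c (.v 24 5 1) (.c (.R (.c (.v 30 3 0) (.c (.R (.c (.v 5 16 0) (.c (.v 35 1
  0) (.c (.v 8 13 3) (.c (.R (.c (.R (.c (.v 37 1 0) (.c (.v 21 9 0) (.c (.f 20 32 531 90 0)
  (.c (.R (.c (.v 36 2 0) (.c (.v 21 9 1) (.c (.v 18 10 2) (.c (.v 38 1 0) .e))))) .e))))) (.c
  (.v 21 8 1) (.c (.v 18 9 2) (.c (.v 36 1 0) .e))))) .e))))) (.c (.v 34 1 0) (.c (.v 32 2 0)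
  .e))))) (.c (.v 33 1 0) .e))))) .e))))) (.c (.v 29 2 0) .e))))) (.c (.v 26 3 0) (.c (.v 22 5
  0) (.c (.v 30 1 0) .e))))) .e))))) (.c (.v 28 1 0) (.c (.v 18 6 0) (.c (.f 28 23 90 531 0)
  .e))))) (.c (.f 14 22 538 538 1) (.c (.v 27 1 0) .e))))) .e))))) (.c (.v 21 3 0) (.c (.v 23 2
  0) (.c (.v 25 1 0) .e))))) .e))))) (.c (.v 23 1 0) .e))))) .e))))) (.c (.v 21 1 0) (.c (.v 19
  2 0) .e))))) (.c (.v 20 1 0) .e))))) .e))))) (.c (.f 12 13 1616 1616 0) .e))))) (.c (.L (.c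
  (.L (.c (.v 0 1 0) (.c (.v 0 3 0) (.c (.v 0 2 0) (.c (.L (.c (.L (.c (.v 0 1 0) (.c (.L (.c
  (.f 28 0 1224 1224 0) (.c (.v 0 1 0) (.c (.f 9 0 1112 720 1) (.c (.v 0 11 0) .e))))) (.c (.f
  14 0 1049 706 0) (.c (.v 0 2 0) .e))))) (.c (.f 1 0 1546 1546 1) (.c (.v 0 10 2) (.c (.v 0 1
  0) .e))))) .e))))) (.c (.L (.c (.v 0 3 0) (.c (.v 0 1 0) (.c (.L (.c (.v 0 3 0) (.c (.v 0 2
  0) (.c (.v 0 1 0) (.c (.R (.c (.v 17 3 0) (.c (.v 21 1 0) (.c (.v 19 2 0) (.c (.R (.c (.f 1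
  17 1553 1602 0) (.c (.v 0 12 0) (.c (.L (.c (.f 1 0 1665 1665 1) (.c (.L (.c (.v 0 5 1) (.c
  (.v 0 1 0) (.c (.L (.c (.v 0 6 0) (.c (.L (.c (.v 0 6 1) (.c (.v 0 1 0) (.c (.v 0 2 0) (.c
  (.v 0 3 0) .e))))) (.c (.v 0 1 0) (.c (.v 0 3 0) .e))))) (.c (.L (.c (.L (.c (.v 0 1 0) (.c
  (.L (.c (.v 0 8 1) (.c (.v 0 1 0) (.c (.L (.c (.v 0 9 0) (.c (.L (.c (.v 0 9 1) (.c (.v 0 1
  0) (.c (.v 0 2 0) (.c (.v 0 10 2) .e))))) (.c (.v 0 1 0) (.c (.f 20 0 202 1035 1) .e))))) (.c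
  (.v 0 9 2) .e))))) (.c (.f 1 0 1091 209 1) (.c (.L (.c (.v 0 2 0) (.c (.v 0 9 2) (.c (.L (.c
  (.v 0 12 3) (.c (.f 9 0 202 1035 1) (.c (.v 0 1 0) (.c (.v 0 12 0) .e))))) (.c (.v 0 1 0)
  .e))))) .e))))) (.c (.v 0 2 0) (.c (.v 0 3 0) (.c (.v 0 1 0) .e))))) .e))))) (.c (.L (.c (.L
  (.c (.v 0 1 0) (.c (.v 0 6 0) (.c (.f 28 0 1049 706 0) (.c (.v 0 12 3) .e))))) (.c (.f 14 0
  1091 209 0) (.c (.v 0 1 0) (.c (.v 0 2 0) .e))))) (.c (.v 0 1 0) .e))))) (.c (.v 22 1 0)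
  .e))))) .e))))) .e))))) (.c (.v 0 5 0) .e))))) (.c (.v 0 1 0) (.c (.L (.c (.f 13 0 1602 1553
  1) (.c (.v 0 5 0) (.c (.v 0 10 1) (.c (.v 0 1 0) .e))))) .e))))) (.c (.v 17 1 0) (.c (.R (.c
  (.f 20 13 1616 1616 0) (.c (.f 13 13 1616 1616 0) (.c (.R (.c (.f 0 14 1553 1602 0) (.c (.f 7
  14 1553 1602 0) (.c (.v 19 1 0) (.c (.v 17 2 0) .e))))) (.c (.v 18 1 0) .e))))) .e))))) (.c
  (.f 1 11 538 538 0) .e))))) (.c (.v 13 2 0) (.c (.v 11 3 0) .e))))) (.c (.R (.c (.f 13 10 90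
  531 0) (.c (.v 15 1 0) (.c (.R (.c (.f 7 11 538 538 0) (.c (.v 14 2 0) (.c (.v 16 1 0) (.c
  (.f 0 11 538 538 0) .e))))) (.c (.v 7 5 0) .e))))) (.c (.v 14 1 0) (.c (.R (.c (.v 11 3 0)
  (.c (.v 7 5 0) (.c (.R (.c (.v 12 3 0) (.c (.R (.c (.f 1 12 153 643 0) (.c (.v 17 1 0) (.c
  (.R (.c (.R (.c (.v 19 1 0) (.c (.R (.c (.R (.c (.v 21 1 0) (.c (.v 19 2 0) (.c (.v 17 3 0)
  (.c (.R (.c (.R (.c (.v 23 1 0) (.c (.f 14 18 1217 1217 1) (.c (.R (.c (.f 28 19 1224 1224 0)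
  (.c (.f 9 19 1224 1224 0) (.c (.v 24 1 0) (.c (.R (.c (.R (.c (.v 26 1 0) (.c (.v 18 5 0) (.c
  (.v 22 3 0) (.c (.R (.c (.v 25 2 0) (.c (.R (.c (.R (.c (.v 29 1 0) (.c (.R (.c (.v 28 2 0)
  (.c (.v 30 1 0) (.c (.v 15 8 1) (.c (.v 26 3 0) .e))))) (.c (.v 20 5 1) (.c (.R (.c (.R (.c
  (.v 31 1 0) (.c (.v 27 3 0) (.c (.v 20 6 1) (.c (.v 29 2 0) .e))))) (.c (.v 26 3 0) (.c (.v
  20 6 0) (.c (.v 30 1 0) .e))))) .e))))) (.c (.v 28 1 0) (.c (.f 1 23 1112 720 0) (.c (.R (.c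
  (.f 14 24 720 1112 1) (.c (.v 27 2 0) (.c (.R (.c (.v 20 6 0) (.c (.R (.c (.R (.c (.v 32 1 0)
  (.c (.R (.c (.v 31 2 0) (.c (.v 33 1 0) (.c (.f 7 28 643 153 0) (.c (.f 0 28 643 153 0)
  .e))))) (.c (.v 12 11 0) (.c (.v 24 5 0) .e))))) (.c (.v 31 1 0) (.c (.R (.c (.v 12 11 0) (.c
  (.v 30 2 0) (.c (.v 32 1 0) (.c (.v 28 3 0) .e))))) (.c (.L (.c (.v 0 15 3) (.c (.R (.c (.v
  25 5 0) (.c (.R (.c (.L (.c (.v 0 3 0) (.c (.v 0 1 0) (.c (.L (.c (.v 0 3 0) (.c (.v 0 2 0)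
  (.c (.v 0 1 0) (.c (.L (.c (.v 0 18 2) (.c (.L (.c (.v 0 5 1) (.c (.v 0 1 0) (.c (.L (.c (.v
  0 6 0) (.c (.L (.c (.v 0 6 1) (.c (.v 0 1 0) (.c (.v 0 2 0) (.c (.v 0 3 0) .e))))) (.c (.v 0
  1 0) (.c (.v 0 3 0) .e))))) (.c (.L (.c (.L (.c (.v 0 1 0) (.c (.L (.c (.v 0 8 1) (.c (.v 0 1
  0) (.c (.L (.c (.v 0 9 0) (.c (.L (.c (.v 0 9 1) (.c (.v 0 1 0) (.c (.v 0 2 0) (.c (.v 0 10
  2) .e))))) (.c (.v 0 1 0) (.c (.f 20 0 202 1035 1) .e))))) (.c (.v 0 9 2) .e))))) (.c (.f 1 0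
  1091 209 1) (.c (.L (.c (.v 0 2 0) (.c (.v 0 9 2) (.c (.L (.c (.v 0 15 0) (.c (.f 9 0 202
  1035 1) (.c (.v 0 1 0) (.c (.v 0 12 0) .e))))) (.c (.v 0 1 0) .e))))) .e))))) (.c (.v 0 2 0)
  (.c (.v 0 3 0) (.c (.v 0 1 0) .e))))) .e))))) (.c (.L (.c (.L (.c (.v 0 1 0) (.c (.v 0 6 0)
  (.c (.f 28 0 1049 706 0) (.c (.v 0 12 3) .e))))) (.c (.f 14 0 1091 209 0) (.c (.v 0 1 0) (.c
  (.v 0 2 0) .e))))) (.c (.v 0 1 0) .e))))) .e))))) (.c (.v 0 5 0) .e))))) (.c (.v 34 1 0) (.c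
  (.v 30 3 0) (.c (.v 32 2 0) .e))))) (.c (.v 29 3 0) (.c (.v 33 1 0) .e))))) (.c (.v 0 1 0)
  (.c (.L (.c (.v 0 16 3) (.c (.v 0 5 0) (.c (.L (.c (.v 0 17 1) (.c (.f 0 0 1546 1546 1) (.c
  (.v 0 1 0) (.c (.v 0 2 0) .e))))) (.c (.v 0 1 0) .e))))) .e))))) .e))))) (.c (.v 30 1 0) (.c
  (.f 28 25 209 1091 0) .e))))) (.c (.v 29 1 0) .e))))) .e))))) (.c (.v 23 3 0) (.c (.v 27 1 0)
  .e))))) .e))))) (.c (.R (.c (.v 18 5 0) (.c (.v 26 1 0) (.c (.f 13 21 664 664 0) (.c (.R (.c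
  (.f 0 22 153 643 0) (.c (.v 25 2 0) (.c (.f 7 22 153 643 0) (.c (.v 27 1 0) .e))))) .e)))))
  (.c (.R (.c (.v 22 3 0) (.c (.R (.c (.f 1 22 153 643 0) (.c (.v 27 1 0) (.c (.v 12 8 1) (.c
  (.R (.c (.R (.c (.v 29 1 0) (.c (.v 15 8 0) (.c (.f 20 24 531 90 0) (.c (.R (.c (.v 28 2 0)
  (.c (.f 7 25 83 83 0) (.c (.f 0 25 83 83 0) (.c (.v 30 1 0) .e))))) .e))))) (.c (.v 0 15 0)
  (.c (.R (.c (.f 12 24 531 90 0) (.c (.v 25 3 0) (.c (.v 29 1 0) (.c (.v 7 11 2) .e))))) (.c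
  (.v 28 1 0) .e))))) .e))))) (.c (.v 26 1 0) (.c (.v 24 2 0) .e))))) (.c (.v 25 1 0) .e)))))
  .e))))) (.c (.v 21 2 0) .e))))) (.c (.R (.c (.R (.c (.v 24 1 0) (.c (.R (.c (.v 23 2 0) (.c
  (.v 25 1 0) (.c (.R (.c (.v 17 5 1) (.c (.R (.c (.f 14 22 1672 1672 1) (.c (.v 27 1 0) (.c
  (.v 25 2 0) (.c (.R (.c (.v 18 6 0) (.c (.f 28 23 1665 1665 0) (.c (.R (.c (.v 16 7 1) (.c
  (.R (.c (.v 22 5 0) (.c (.v 30 1 0) (.c (.R (.c (.R (.c (.v 32 1 0) (.c (.R (.c (.R (.c (.v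
  34 1 0) (.c (.v 32 2 0) (.c (.v 30 3 0) (.c (.v 14 10 2) .e))))) (.c (.v 33 1 0) (.c (.R (.c
  (.v 30 3 0) (.c (.R (.c (.v 31 3 0) (.c (.v 35 1 0) (.c (.v 33 2 0) (.c (.v 24 6 1) .e)))))
  (.c (.v 34 1 0) (.c (.v 24 6 0) .e))))) (.c (.v 24 5 1) .e))))) (.c (.R (.c (.v 31 2 0) (.c
  (.f 14 28 1602 1553 1) (.c (.v 33 1 0) (.c (.R (.c (.R (.c (.v 35 1 0) (.c (.R (.c (.v 14 11
  2) (.c (.v 36 1 0) (.c (.v 28 5 0) (.c (.f 13 31 1049 706 0) .e))))) (.c (.R (.c (.R (.c (.v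
  37 1 0) (.c (.R (.c (.R (.c (.v 39 1 0) (.c (.v 37 2 0) (.c (.f 14 34 1553 1602 1) (.c (.v 11
  14 2) .e))))) (.c (.v 38 1 0) (.c (.R (.c (.R (.c (.v 40 1 0) (.c (.v 36 3 0) (.c (.R (.c (.v
  39 2 0) (.c (.v 37 3 0) (.c (.v 41 1 0) (.c (.v 30 6 1) .e))))) (.c (.v 30 6 0) .e))))) (.c
  (.R (.c (.v 36 3 0) (.c (.v 40 1 0) (.c (.v 38 2 0) (.c (.R (.c (.v 11 16 0) (.c (.v 14 13 3)
  (.c (.R (.c (.R (.c (.v 43 1 0) (.c (.f 20 38 1091 209 0) (.c (.R (.c (.v 42 2 0) (.c (.v 24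
  10 2) (.c (.v 44 1 0) (.c (.v 27 9 1) .e))))) (.c (.v 27 9 0) .e))))) (.c (.v 24 9 2) (.c (.v
  42 1 0) (.c (.v 27 8 1) .e))))) (.c (.v 41 1 0) .e))))) .e))))) (.c (.v 39 1 0) (.c (.v 30 5
  1) .e))))) (.c (.v 11 13 3) .e))))) (.c (.v 35 2 0) (.c (.v 33 3 0) .e))))) (.c (.v 28 5 0)
  (.c (.v 36 1 0) (.c (.v 32 3 0) .e))))) (.c (.v 11 13 0) .e))))) (.c (.v 24 6 0) (.c (.f 28
  29 1546 1546 0) (.c (.v 34 1 0) .e))))) .e))))) (.c (.v 14 10 0) .e))))) (.c (.v 29 2 0) (.c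
  (.v 31 1 0) (.c (.v 27 3 0) .e))))) (.c (.v 26 3 0) .e))))) (.c (.v 29 1 0) (.c (.R (.c (.v
  15 8 1) (.c (.v 26 3 0) (.c (.v 28 2 0) (.c (.v 30 1 0) .e))))) .e))))) (.c (.v 28 1 0)
  .e))))) .e))))) (.c (.v 26 1 0) (.c (.f 1 21 720 1112 0) .e))))) (.c (.v 21 3 0) .e))))) (.c
  (.f 12 19 1224 1224 0) (.c (.v 20 3 0) .e))))) (.c (.v 23 1 0) (.c (.R (.c (.f 20 19 1224
  1224 0) (.c (.R (.c (.f 0 20 1217 1217 0) (.c (.v 25 1 0) (.c (.v 23 2 0) (.c (.v 0 12 3)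
  .e))))) (.c (.v 24 1 0) (.c (.f 13 19 1224 1224 0) .e))))) (.c (.R (.c (.v 20 3 0) (.c (.v 22
  2 0) (.c (.R (.c (.f 1 20 1217 1217 0) (.c (.v 0 12 3) (.c (.v 25 1 0) (.c (.v 3 12 0)
  .e))))) (.c (.v 24 1 0) .e))))) .e))))) (.c (.f 1 17 1602 1553 0) (.c (.v 22 1 0) .e)))))
  .e))))) (.c (.v 20 1 0) (.c (.R (.c (.v 17 3 0) (.c (.R (.c (.v 18 3 0) (.c (.v 22 1 0) (.c
  (.v 20 2 0) (.c (.R (.c (.f 1 18 1553 1602 0) (.c (.R (.c (.R (.c (.v 25 1 0) (.c (.f 28 20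
  1091 209 0) (.c (.v 15 6 0) (.c (.v 0 12 3) .e))))) (.c (.v 24 1 0) (.c (.f 14 19 1035 202 1)
  (.c (.v 22 2 0) .e))))) (.c (.R (.c (.v 15 5 1) (.c (.R (.c (.v 15 6 0) (.c (.v 25 1 0) (.c
  (.R (.c (.v 15 6 1) (.c (.v 24 2 0) (.c (.v 26 1 0) (.c (.v 22 3 0) .e))))) (.c (.v 21 3 0)
  .e))))) (.c (.v 24 1 0) (.c (.R (.c (.R (.c (.v 26 1 0) (.c (.f 1 21 1035 202 0) (.c (.R (.c
  (.v 12 8 1) (.c (.R (.c (.v 12 9 0) (.c (.v 28 1 0) (.c (.R (.c (.v 12 9 1) (.c (.v 27 2 0)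
  (.c (.v 29 1 0) (.c (.v 9 10 2) .e))))) (.c (.f 20 23 90 531 0) .e))))) (.c (.v 27 1 0) (.c
  (.v 9 9 2) .e))))) (.c (.R (.c (.v 25 2 0) (.c (.R (.c (.v 0 15 0) (.c (.v 28 1 0) (.c (.f 9
  23 90 531 0) (.c (.v 6 12 0) .e))))) (.c (.v 9 9 2) (.c (.v 27 1 0) .e))))) .e))))) (.c (.v
  21 3 0) (.c (.v 23 2 0) (.c (.v 25 1 0) .e))))) .e))))) (.c (.v 23 1 0) .e))))) .e))))) (.c
  (.v 21 1 0) (.c (.v 13 5 0) .e))))) (.c (.R (.c (.f 13 16 1546 1546 0) (.c (.R (.c (.f 7 17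
  1602 1553 0) (.c (.v 22 1 0) (.c (.f 0 17 1602 1553 0) (.c (.v 20 2 0) .e))))) (.c (.v 13 5
  0) (.c (.v 21 1 0) .e))))) .e))))) (.c (.f 28 14 531 90 0) (.c (.v 9 6 0) .e))))) (.c (.v 16
  2 0) (.c (.v 18 1 0) (.c (.f 14 13 83 83 1) .e))))) (.c (.R (.c (.v 9 5 1) (.c (.R (.c (.R
  (.c (.v 20 1 0) (.c (.R (.c (.v 19 2 0) (.c (.v 21 1 0) (.c (.R (.c (.L (.c (.L (.c (.v 0 1
  0) (.c (.v 0 3 0) (.c (.v 0 2 0) (.c (.R (.c (.v 25 1 0) (.c (.v 1 13 0) (.c (.R (.c (.v 24 2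
  0) (.c (.v 22 3 0) (.c (.v 26 1 0) (.c (.R (.c (.R (.c (.v 28 1 0) (.c (.v 1 13 3) (.c (.R
  (.c (.R (.c (.v 30 1 0) (.c (.R (.c (.R (.c (.v 32 1 0) (.c (.v 30 2 0) (.c (.f 14 27 1553
  1602 1) (.c (.R (.c (.f 28 28 1616 1616 0) (.c (.R (.c (.R (.c (.v 35 1 0) (.c (.R (.c (.v 34
  2 0) (.c (.v 36 1 0) (.c (.R (.c (.R (.c (.v 38 1 0) (.c (.R (.c (.R (.c (.v 40 1 0) (.c (.v
  38 2 0) (.c (.v 36 3 0) (.c (.v 29 6 1) .e))))) (.c (.v 39 1 0) (.c (.v 35 3 0) (.c (.v 29 6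
  0) .e))))) (.c (.R (.c (.v 37 2 0) (.c (.v 35 3 0) (.c (.v 39 1 0) (.c (.v 19 10 2) .e)))))
  (.c (.v 29 5 1) .e))))) (.c (.R (.c (.f 14 33 1672 1672 1) (.c (.v 38 1 0) (.c (.v 36 2 0)
  (.c (.R (.c (.v 29 6 0) (.c (.f 28 34 1665 1665 0) (.c (.R (.c (.R (.c (.v 41 1 0) (.c (.v 33
  5 0) (.c (.v 19 11 2) (.c (.f 13 36 1091 209 0) .e))))) (.c (.R (.c (.v 33 5 0) (.c (.v 41 1
  0) (.c (.R (.c (.R (.c (.v 43 1 0) (.c (.R (.c (.R (.c (.v 45 1 0) (.c (.v 43 2 0) (.c (.v 41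
  3 0) (.c (.R (.c (.v 19 13 3) (.c (.R (.c (.v 29 9 2) (.c (.v 47 1 0) (.c (.R (.c (.f 20 43
  1224 1224 0) (.c (.R (.c (.v 29 10 2) (.c (.v 49 1 0) (.c (.v 47 2 0) (.c (.v 32 9 1) .e)))))
  (.c (.v 48 1 0) (.c (.v 32 9 0) .e))))) (.c (.v 32 8 1) .e))))) (.c (.f 1 41 1602 1553 0) (.c
  (.v 46 1 0) .e))))) .e))))) (.c (.v 44 1 0) (.c (.R (.c (.v 41 3 0) (.c (.R (.c (.v 42 3 0)
  (.c (.v 46 1 0) (.c (.v 44 2 0) (.c (.v 35 6 1) .e))))) (.c (.v 45 1 0) (.c (.v 35 6 0)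
  .e))))) (.c (.v 35 5 1) .e))))) (.c (.R (.c (.v 42 2 0) (.c (.f 14 39 1602 1553 1) (.c (.v 44
  1 0) (.c (.R (.c (.v 17 15 0) (.c (.v 35 6 0) (.c (.f 28 40 1546 1546 0) (.c (.v 45 1 0)
  .e))))) .e))))) (.c (.f 1 38 643 153 0) .e))))) (.c (.v 40 2 0) (.c (.v 42 1 0) (.c (.v 38 3
  0) .e))))) (.c (.v 37 3 0) .e))))) (.c (.v 40 1 0) (.c (.R (.c (.R (.c (.v 42 1 0) (.c (.f 1
  37 1035 202 0) (.c (.v 17 12 3) (.c (.R (.c (.v 41 2 0) (.c (.R (.c (.L (.c (.L (.c (.v 0 1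
  0) (.c (.L (.c (.f 28 0 1224 1224 0) (.c (.v 0 1 0) (.c (.f 9 0 1112 720 1) (.c (.R (.c (.v
  48 1 0) (.c (.R (.c (.v 47 2 0) (.c (.v 49 1 0) (.c (.R (.c (.R (.c (.v 51 1 0) (.c (.R (.c
  (.v 30 11 2) (.c (.v 52 1 0) (.c (.v 48 3 0) (.c (.f 12 47 1665 1665 0) .e))))) (.c (.v 20 15
  3) (.c (.R (.c (.R (.c (.v 53 1 0) (.c (.f 0 48 1672 1672 0) (.c (.v 20 17 1) (.c (.v 51 2 0)
  .e))))) (.c (.f 20 47 1665 1665 0) (.c (.v 38 8 0) (.c (.v 52 1 0) .e))))) .e))))) (.c (.v 35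
  8 1) (.c (.v 50 1 0) (.c (.f 1 45 720 1112 0) .e))))) (.c (.v 45 3 0) .e))))) (.c (.R (.c (.R
  (.c (.v 50 1 0) (.c (.f 7 45 720 1112 0) (.c (.v 48 2 0) (.c (.f 0 45 720 1112 0) .e))))) (.c
  (.f 13 44 209 1091 0) (.c (.v 49 1 0) (.c (.v 41 5 0) .e))))) (.c (.R (.c (.R (.c (.v 50 1 0)
  (.c (.v 46 3 0) (.c (.R (.c (.R (.c (.v 52 1 0) (.c (.R (.c (.f 28 48 664 664 0) (.c (.v 53 1
  0) (.c (.v 20 17 1) (.c (.v 43 6 0) .e))))) (.c (.v 50 2 0) (.c (.f 14 47 153 643 1) .e)))))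
  (.c (.f 1 46 202 1035 0) (.c (.v 51 1 0) (.c (.R (.c (.R (.c (.v 53 1 0) (.c (.v 43 6 0) (.c
  (.v 49 3 0) (.c (.R (.c (.v 52 2 0) (.c (.v 43 6 1) (.c (.v 50 3 0) (.c (.v 54 1 0) .e)))))
  .e))))) (.c (.v 43 5 1) (.c (.R (.c (.v 49 3 0) (.c (.v 38 8 1) (.c (.v 53 1 0) (.c (.v 51 2
  0) .e))))) (.c (.v 52 1 0) .e))))) .e))))) (.c (.v 48 2 0) .e))))) (.c (.v 45 3 0) (.c (.v 41
  5 0) (.c (.v 49 1 0) .e))))) .e))))) .e))))) (.c (.f 14 0 1049 706 0) (.c (.v 0 2 0) .e)))))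
  (.c (.f 1 0 1546 1546 1) (.c (.v 0 12 3) (.c (.v 0 1 0) .e))))) (.c (.v 44 1 0) (.c (.f 9 39
  90 531 0) (.c (.f 28 39 90 531 0) .e))))) (.c (.f 14 38 538 538 1) (.c (.v 43 1 0) .e)))))
  .e))))) (.c (.v 37 3 0) (.c (.v 39 2 0) (.c (.v 41 1 0) .e))))) .e))))) (.c (.v 39 1 0)
  .e))))) .e))))) (.c (.v 37 1 0) (.c (.v 19 10 0) .e))))) (.c (.v 32 3 0) .e))))) (.c (.v 27 5
  0) (.c (.v 31 3 0) .e))))) (.c (.v 34 1 0) (.c (.v 21 7 1) (.c (.R (.c (.v 31 3 0) (.c (.v 33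
  2 0) (.c (.v 20 8 1) (.c (.v 35 1 0) .e))))) .e))))) (.c (.v 23 6 0) (.c (.v 33 1 0) .e)))))
  .e))))) (.c (.v 31 1 0) (.c (.v 22 5 1) (.c (.v 1 16 0) .e))))) (.c (.v 28 2 0) (.c (.v 26 3
  0) .e))))) (.c (.f 12 24 1049 706 0) (.c (.v 29 1 0) (.c (.v 25 3 0) .e))))) (.c (.R (.c (.v
  27 2 0) (.c (.v 15 8 0) (.c (.v 25 3 0) (.c (.v 29 1 0) .e))))) .e))))) (.c (.v 2 12 3) (.c
  (.R (.c (.f 14 23 1112 720 1) (.c (.R (.c (.f 9 24 1049 706 0) (.c (.v 29 1 0) (.c (.f 28 24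
  1049 706 0) (.c (.R (.c (.v 2 15 0) (.c (.R (.c (.v 15 8 2) (.c (.v 31 1 0) (.c (.v 27 3 0)
  (.c (.v 29 2 0) .e))))) (.c (.R (.c (.v 23 5 0) (.c (.v 27 3 0) (.c (.v 31 1 0) (.c (.R (.c
  (.v 2 15 2) (.c (.v 28 3 0) (.c (.v 30 2 0) (.c (.v 32 1 0) .e))))) .e))))) (.c (.v 30 1 0)
  .e))))) .e))))) (.c (.v 28 1 0) (.c (.v 26 2 0) .e))))) (.c (.v 27 1 0) .e))))) .e))))) (.c
  (.R (.c (.R (.c (.v 27 1 0) (.c (.v 1 13 2) (.c (.f 7 22 1672 1672 0) (.c (.v 25 2 0) .e)))))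
  (.c (.v 18 5 0) (.c (.f 13 21 1665 1665 0) (.c (.v 26 1 0) .e))))) .e))))) .e))))) (.c (.L
  (.c (.v 0 3 0) (.c (.v 0 1 0) (.c (.L (.c (.v 0 3 0) (.c (.v 0 2 0) (.c (.v 0 1 0) (.c (.L
  (.c (.f 1 0 1665 1665 1) (.c (.L (.c (.v 0 5 1) (.c (.v 0 1 0) (.c (.L (.c (.v 0 6 0) (.c (.L
  (.c (.v 0 6 1) (.c (.v 0 1 0) (.c (.v 0 2 0) (.c (.v 0 3 0) .e))))) (.c (.v 0 1 0) (.c (.v 0
  3 0) .e))))) (.c (.L (.c (.L (.c (.v 0 1 0) (.c (.L (.c (.v 0 8 1) (.c (.v 0 1 0) (.c (.L (.c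
  (.v 0 9 0) (.c (.L (.c (.v 0 9 1) (.c (.v 0 1 0) (.c (.v 0 2 0) (.c (.v 0 10 2) .e))))) (.c
  (.v 0 1 0) (.c (.f 20 0 202 1035 1) .e))))) (.c (.v 0 9 2) .e))))) (.c (.f 1 0 1091 209 1)
  (.c (.v 0 13 3) .e))))) (.c (.v 0 2 0) (.c (.v 0 3 0) (.c (.v 0 1 0) .e))))) .e))))) (.c (.L
  (.c (.L (.c (.v 0 1 0) (.c (.v 0 6 0) (.c (.f 28 0 1049 706 0) (.c (.v 0 15 0) .e))))) (.c
  (.f 14 0 1091 209 0) (.c (.v 0 1 0) (.c (.v 0 2 0) .e))))) (.c (.v 0 1 0) .e))))) .e))))) (.c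
  (.v 0 5 0) .e))))) (.c (.v 0 1 0) (.c (.L (.c (.f 13 0 1602 1553 1) (.c (.v 0 5 0) (.c (.v 0
  11 2) (.c (.v 0 1 0) .e))))) .e))))) (.c (.v 0 12 0) (.c (.v 22 1 0) (.c (.f 9 17 706 1049 0)
  .e))))) (.c (.v 3 9 2) .e))))) (.c (.f 1 15 83 83 0) (.c (.R (.c (.v 6 8 1) (.c (.v 3 9 2)
  (.c (.R (.c (.v 6 9 0) (.c (.f 20 17 706 1049 0) (.c (.v 22 1 0) (.c (.R (.c (.v 6 9 1) (.c
  (.v 3 10 2) (.c (.v 21 2 0) (.c (.v 23 1 0) .e))))) .e))))) (.c (.v 21 1 0) .e))))) .e)))))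
  (.c (.v 19 1 0) (.c (.v 15 3 0) (.c (.v 17 2 0) .e))))) (.c (.R (.c (.v 9 6 0) (.c (.v 15 3
  0) (.c (.v 19 1 0) (.c (.R (.c (.v 9 6 1) (.c (.v 16 3 0) (.c (.v 18 2 0) (.c (.v 20 1 0)
  .e))))) .e))))) (.c (.v 18 1 0) .e))))) .e))))) (.c (.v 16 1 0) (.c (.v 14 2 0) .e))))) (.c
  (.v 15 1 0) .e))))) .e))))) (.c (.f 28 8 139 139 0) .e))))) (.c (.f 14 7 643 153 1) (.c (.v
  10 2 0) (.c (.v 12 1 0) .e))))) .e))))) (.c (.v 10 1 0) .e))))) .e))))) (.c (.R (.c (.f 13 4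
  706 1049 0) (.c (.v 1 5 0) (.c (.v 9 1 0) (.c (.R (.c (.f 7 5 202 1035 0) (.c (.f 0 5 202
  1035 0) (.c (.v 8 2 0) (.c (.v 10 1 0) .e))))) .e))))) (.c (.v 8 1 0) .e))))) (.c (.f 9 0 643
  153 1) .e))))) .e)))))

/-- certificate -/
def t32 : T := (.R (.c (.v 6 1 0) (.c (.f 21 1 1091 209 0) (.c (.R (.c (.v 5 2 0) (.c (.f 1 2
  1035 202 0) (.c (.v 7 1 0) (.c (.f 8 2 1035 202 0) .e))))) (.c (.f 14 1 1091 209 0) .e)))))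

/-- certificate -/
def t33 : T := (.L (.c (.v 0 1 0) (.c (.v 0 2 0) (.c (.f 16 0 1553 1602 0) (.c (.f 1 0 209 1091
  0) .e)))))

/-- certificate -/
def t34 : T := (.R (.c (.v 4 2 0) (.c (.v 6 1 0) (.c (.v 2 3 0) (.c (.R (.c (.L (.c (.v 0 1 0)
  (.c (.v 0 2 0) (.c (.v 0 3 0) (.c (.L (.c (.f 0 0 720 1112 0) (.c (.v 0 5 1) (.c (.f 4 0 1602
  1553 1) (.c (.v 0 1 0) .e))))) .e))))) (.c (.f 0 2 706 1049 1) (.c (.f 4 2 1616 1616 0) (.c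
  (.v 7 1 0) .e))))) .e)))))

/-- certificate -/
def t35 : T := (.R (.c (.f 5 1 1665 1665 0) (.c (.L (.c (.v 0 1 0) (.c (.v 0 2 0) (.c (.v 0 3
  0) (.c (.L (.c (.f 1 0 720 1112 0) (.c (.R (.c (.f 2 4 1616 1616 0) (.c (.v 9 1 0) (.c (.R
  (.c (.f 16 5 1035 202 0) (.c (.f 0 5 1035 202 0) (.c (.v 10 1 0) (.c (.v 6 3 0) .e))))) (.c
  (.R (.c (.R (.c (.v 11 1 0) (.c (.R (.c (.R (.c (.v 13 1 0) (.c (.v 11 2 0) (.c (.R (.c (.f 1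
  9 1616 1616 1) (.c (.R (.c (.R (.c (.v 16 1 0) (.c (.f 0 11 1672 1672 0) (.c (.v 12 3 0) (.c
  (.f 16 11 1672 1672 0) .e))))) (.c (.v 15 1 0) (.c (.v 2 7 1) (.c (.f 2 10 209 1091 0)
  .e))))) (.c (.v 14 1 0) (.c (.f 5 9 706 1049 0) .e))))) (.c (.v 9 3 0) .e))))) (.c (.v 12 1
  0) (.c (.f 2 7 531 90 0) (.c (.R (.c (.v 9 3 0) (.c (.f 0 8 202 1035 0) (.c (.f 16 8 202 1035
  0) (.c (.v 13 1 0) .e))))) .e))))) (.c (.f 5 6 1091 209 0) (.c (.f 1 6 209 1091 1) .e)))))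
  (.c (.v 8 2 0) (.c (.v 6 3 0) (.c (.v 10 1 0) .e))))) .e))))) (.c (.f 5 0 1602 1553 1) (.c
  (.v 0 1 0) .e))))) .e))))) (.c (.f 1 1 531 90 1) (.c (.v 6 1 0) .e)))))

/-- certificate -/
def t36 : T := (.R (.c (.f 5 1 1665 1665 0) (.c (.v 6 1 0) (.c (.f 12 1 1665 1665 0) (.c (.v 4
  2 0) .e)))))

/-- certificate -/
def t37 : T := (.R (.c (.f 3 1 720 1112 1) (.c (.R (.c (.R (.c (.v 8 1 0) (.c (.f 2 3 1224 1224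
  0) (.c (.f 18 3 1224 1224 0) (.c (.v 4 3 0) .e))))) (.c (.v 7 1 0) (.c (.f 4 2 1553 1602 0)
  (.c (.f 1 2 202 1035 1) .e))))) (.c (.f 7 1 1602 1553 0) (.c (.v 6 1 0) .e)))))

/-- certificate -/
def t38 : T := (.R (.c (.v 6 1 0) (.c (.f 5 1 1602 1553 0) (.c (.f 0 1 1049 706 1) (.c (.f 2 1
  153 643 1) .e)))))

/-- certificate -/
def t39 : T := (.R (.c (.R (.c (.v 0 1 0) (.c (.R (.c (.R (.c (.v 2 1 0) (.c (.v 0 2 0) (.c (.R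
  (.c (.R (.c (.v 4 1 0) (.c (.R (.c (.f 38 0 1672 1672 0) (.c (.v 5 1 0) (.c (.v 1 3 0) (.c
  (.f 24 0 1672 1672 0) .e))))) (.c (.v 2 2 0) (.c (.R (.c (.f 36 0 1672 1672 0) (.c (.f 17 0
  1672 1672 0) (.c (.f 5 0 1672 1672 0) (.c (.v 5 1 0) .e))))) .e))))) (.c (.R (.c (.R (.c (.v
  5 1 0) (.c (.f 4 0 1672 1672 0) (.c (.v 1 3 0) (.c (.f 20 0 1672 1672 0) .e))))) (.c (.v 4 1
  0) (.c (.R (.c (.v 1 3 0) (.c (.v 3 2 0) (.c (.v 5 1 0) (.c (.f 3 0 1672 1672 0) .e))))) (.c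
  (.R (.c (.f 28 0 1672 1672 0) (.c (.f 2 0 1672 1672 0) (.c (.f 21 0 1672 1672 0) (.c (.v 5 1
  0) .e))))) .e))))) (.c (.v 3 1 0) (.c (.R (.c (.R (.c (.v 5 1 0) (.c (.f 32 0 1672 1672 0)
  (.c (.f 12 0 1672 1672 0) (.c (.f 2 0 153 643 1) .e))))) (.c (.R (.c (.f 34 0 1672 1672 0)
  (.c (.v 5 1 0) (.c (.f 27 0 1672 1672 0) (.c (.f 23 0 1672 1672 0) .e))))) (.c (.R (.c (.f 16
  0 1672 1672 0) (.c (.f 10 0 1672 1672 0) (.c (.v 5 1 0) (.c (.v 3 2 0) .e))))) (.c (.v 4 1 0)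
  .e))))) .e))))) (.c (.R (.c (.R (.c (.v 4 1 0) (.c (.R (.c (.f 38 0 1224 1224 0) (.c (.v 5 1
  0) (.c (.f 24 0 1224 1224 0) (.c (.v 1 3 0) .e))))) (.c (.R (.c (.f 36 0 1224 1224 0) (.c (.f
  17 0 1224 1224 0) (.c (.v 5 1 0) (.c (.f 5 0 1224 1224 0) .e))))) (.c (.v 2 2 0) .e))))) (.c
  (.R (.c (.R (.c (.v 5 1 0) (.c (.f 4 0 1224 1224 0) (.c (.f 20 0 1224 1224 0) (.c (.v 1 3 0)
  .e))))) (.c (.v 4 1 0) (.c (.R (.c (.f 28 0 1224 1224 0) (.c (.f 2 0 1224 1224 0) (.c (.v 5 1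
  0) (.c (.f 21 0 1224 1224 0) .e))))) (.c (.R (.c (.v 1 3 0) (.c (.v 3 2 0) (.c (.f 3 0 1224
  1224 0) (.c (.v 5 1 0) .e))))) .e))))) (.c (.R (.c (.R (.c (.v 5 1 0) (.c (.f 32 0 1224 1224
  0) (.c (.f 2 0 1049 706 1) (.c (.f 12 0 1224 1224 0) .e))))) (.c (.R (.c (.f 34 0 1224 1224
  0) (.c (.v 5 1 0) (.c (.f 23 0 1224 1224 0) (.c (.f 27 0 1224 1224 0) .e))))) (.c (.v 4 1 0)
  (.c (.R (.c (.f 16 0 1224 1224 0) (.c (.f 10 0 1224 1224 0) (.c (.v 3 2 0) (.c (.v 5 1 0)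
  .e))))) .e))))) (.c (.v 3 1 0) .e))))) .e))))) (.c (.v 1 1 0) (.c (.R (.c (.R (.c (.v 3 1 0)
  (.c (.R (.c (.R (.c (.v 5 1 0) (.c (.v 3 2 0) (.c (.v 1 3 0) (.c (.f 1 0 1672 1672 0) .e)))))
  (.c (.v 4 1 0) (.c (.v 0 3 0) (.c (.R (.c (.f 31 0 1672 1672 0) (.c (.f 12 0 706 1049 1) (.c
  (.f 19 0 1672 1672 0) (.c (.v 5 1 0) .e))))) .e))))) (.c (.R (.c (.v 2 2 0) (.c (.v 0 3 0)
  (.c (.v 4 1 0) (.c (.R (.c (.f 0 0 1672 1672 0) (.c (.f 9 0 1672 1672 0) (.c (.f 5 0 538 538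
  1) (.c (.v 5 1 0) .e))))) .e))))) (.c (.R (.c (.R (.c (.v 5 1 0) (.c (.f 8 0 1672 1672 0) (.c
  (.f 15 0 1672 1672 0) (.c (.v 3 2 0) .e))))) (.c (.R (.c (.f 35 0 1672 1672 0) (.c (.v 5 1 0)
  (.c (.f 18 0 1672 1672 0) (.c (.f 27 0 202 1035 1) .e))))) (.c (.R (.c (.f 31 0 1112 720 1)
  (.c (.f 30 0 1672 1672 0) (.c (.v 5 1 0) (.c (.f 21 0 90 531 1) .e))))) (.c (.v 4 1 0)
  .e))))) .e))))) (.c (.R (.c (.R (.c (.v 4 1 0) (.c (.R (.c (.v 3 2 0) (.c (.v 5 1 0) (.c (.f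
  37 0 1672 1672 0) (.c (.f 22 0 1672 1672 0) .e))))) (.c (.v 0 3 0) (.c (.R (.c (.f 16 0 720
  1112 1) (.c (.f 15 0 706 1049 1) (.c (.f 26 0 1672 1672 0) (.c (.v 5 1 0) .e))))) .e))))) (.c
  (.v 3 1 0) (.c (.v 1 2 0) (.c (.R (.c (.R (.c (.v 5 1 0) (.c (.f 8 0 1217 1217 1) (.c (.f 25
  0 1672 1672 0) (.c (.f 10 0 209 1091 1) .e))))) (.c (.R (.c (.f 7 0 1672 1672 0) (.c (.v 5 1
  0) (.c (.f 22 0 1035 202 1) (.c (.v 3 2 0) .e))))) (.c (.R (.c (.f 6 0 1672 1672 0) (.c (.f 1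
  0 1091 209 1) (.c (.v 5 1 0) (.c (.f 3 0 83 83 1) .e))))) (.c (.v 4 1 0) .e))))) .e))))) (.c
  (.v 2 1 0) (.c (.R (.c (.R (.c (.v 4 1 0) (.c (.R (.c (.f 34 0 1224 1224 1) (.c (.v 5 1 0)
  (.c (.f 33 0 1672 1672 0) (.c (.f 18 0 202 1035 1) .e))))) (.c (.R (.c (.f 28 0 1112 720 1)
  (.c (.f 29 0 1672 1672 0) (.c (.v 5 1 0) (.c (.f 19 0 90 531 1) .e))))) (.c (.R (.c (.v 3 2
  0) (.c (.f 25 0 706 1049 1) (.c (.f 26 0 538 538 1) (.c (.v 5 1 0) .e))))) .e))))) (.c (.R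
  (.c (.R (.c (.v 5 1 0) (.c (.f 32 0 1217 1217 1) (.c (.f 29 0 1553 1602 1) (.c (.f 30 0 209
  1091 1) .e))))) (.c (.v 4 1 0) (.c (.R (.c (.f 11 0 1672 1672 0) (.c (.f 20 0 1091 209 1) (.c
  (.v 5 1 0) (.c (.v 1 3 0) .e))))) (.c (.R (.c (.f 6 0 720 1112 1) (.c (.v 3 2 0) (.c (.v 1 3
  0) (.c (.v 5 1 0) .e))))) .e))))) (.c (.R (.c (.R (.c (.v 5 1 0) (.c (.f 14 0 1672 1672 0)
  (.c (.f 17 0 1049 706 1) (.c (.f 9 0 153 643 1) .e))))) (.c (.R (.c (.f 13 0 1672 1672 0) (.c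
  (.v 5 1 0) (.c (.f 24 0 1035 202 1) (.c (.v 1 3 0) .e))))) (.c (.v 4 1 0) (.c (.v 2 2 0)
  .e))))) (.c (.v 3 1 0) .e))))) .e))))) (.c (.R (.c (.R (.c (.v 3 1 0) (.c (.R (.c (.R (.c (.v
  5 1 0) (.c (.v 3 2 0) (.c (.f 1 0 1224 1224 0) (.c (.v 1 3 0) .e))))) (.c (.v 4 1 0) (.c (.R
  (.c (.f 31 0 1224 1224 0) (.c (.f 12 0 1602 1553 1) (.c (.v 5 1 0) (.c (.f 19 0 1224 1224 0)
  .e))))) (.c (.v 0 3 0) .e))))) (.c (.R (.c (.R (.c (.v 5 1 0) (.c (.f 8 0 1224 1224 0) (.c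
  (.v 3 2 0) (.c (.f 15 0 1224 1224 0) .e))))) (.c (.R (.c (.f 35 0 1224 1224 0) (.c (.v 5 1 0)
  (.c (.f 27 0 1546 1546 1) (.c (.f 18 0 1224 1224 0) .e))))) (.c (.v 4 1 0) (.c (.R (.c (.f 31
  0 664 664 1) (.c (.f 30 0 1224 1224 0) (.c (.f 21 0 538 538 1) (.c (.v 5 1 0) .e))))) .e)))))
  (.c (.R (.c (.v 2 2 0) (.c (.v 0 3 0) (.c (.R (.c (.f 0 0 1224 1224 0) (.c (.f 9 0 1224 1224
  0) (.c (.v 5 1 0) (.c (.f 5 0 90 531 1) .e))))) (.c (.v 4 1 0) .e))))) .e))))) (.c (.R (.c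
  (.R (.c (.v 4 1 0) (.c (.R (.c (.v 3 2 0) (.c (.v 5 1 0) (.c (.f 22 0 1224 1224 0) (.c (.f 37
  0 1224 1224 0) .e))))) (.c (.R (.c (.f 16 0 1616 1616 1) (.c (.f 15 0 1602 1553 1) (.c (.v 5
  1 0) (.c (.f 26 0 1224 1224 0) .e))))) (.c (.v 0 3 0) .e))))) (.c (.v 3 1 0) (.c (.R (.c (.R
  (.c (.v 5 1 0) (.c (.f 8 0 1665 1665 1) (.c (.f 10 0 1553 1602 1) (.c (.f 25 0 1224 1224 0)
  .e))))) (.c (.R (.c (.f 7 0 1224 1224 0) (.c (.v 5 1 0) (.c (.v 3 2 0) (.c (.f 22 0 139 139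
  1) .e))))) (.c (.v 4 1 0) (.c (.R (.c (.f 6 0 1224 1224 0) (.c (.f 1 0 643 153 1) (.c (.f 3 0
  531 90 1) (.c (.v 5 1 0) .e))))) .e))))) (.c (.v 1 2 0) .e))))) (.c (.R (.c (.R (.c (.v 4 1
  0) (.c (.R (.c (.f 34 0 1672 1672 1) (.c (.v 5 1 0) (.c (.f 18 0 1546 1546 1) (.c (.f 33 0
  1224 1224 0) .e))))) (.c (.R (.c (.v 3 2 0) (.c (.f 25 0 1602 1553 1) (.c (.v 5 1 0) (.c (.f
  26 0 90 531 1) .e))))) (.c (.R (.c (.f 28 0 664 664 1) (.c (.f 29 0 1224 1224 0) (.c (.f 19 0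
  538 538 1) (.c (.v 5 1 0) .e))))) .e))))) (.c (.R (.c (.R (.c (.v 5 1 0) (.c (.f 32 0 1665
  1665 1) (.c (.f 30 0 1553 1602 1) (.c (.f 29 0 209 1091 1) .e))))) (.c (.v 4 1 0) (.c (.R (.c
  (.f 6 0 1616 1616 1) (.c (.v 3 2 0) (.c (.v 5 1 0) (.c (.v 1 3 0) .e))))) (.c (.R (.c (.f 11
  0 1224 1224 0) (.c (.f 20 0 643 153 1) (.c (.v 1 3 0) (.c (.v 5 1 0) .e))))) .e))))) (.c (.v
  3 1 0) (.c (.R (.c (.R (.c (.v 5 1 0) (.c (.f 14 0 1224 1224 0) (.c (.f 9 0 1049 706 1) (.c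
  (.f 17 0 153 643 1) .e))))) (.c (.R (.c (.f 13 0 1224 1224 0) (.c (.v 5 1 0) (.c (.v 1 3 0)
  (.c (.f 24 0 139 139 1) .e))))) (.c (.v 2 2 0) (.c (.v 4 1 0) .e))))) .e))))) (.c (.v 2 1 0)
  .e))))) .e))))) (.c (.R (.c (.R (.c (.v 2 1 0) (.c (.R (.c (.R (.c (.v 4 1 0) (.c (.v 2 2 0)
  (.c (.R (.c (.f 38 0 1616 1616 0) (.c (.v 1 3 0) (.c (.v 5 1 0) (.c (.f 24 0 1616 1616 0)
  .e))))) (.c (.R (.c (.f 36 0 1616 1616 0) (.c (.f 5 0 1616 1616 0) (.c (.f 17 0 1616 1616 0)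
  (.c (.v 5 1 0) .e))))) .e))))) (.c (.v 3 1 0) (.c (.R (.c (.R (.c (.v 5 1 0) (.c (.v 1 3 0)
  (.c (.f 4 0 1616 1616 0) (.c (.f 20 0 1616 1616 0) .e))))) (.c (.R (.c (.v 1 3 0) (.c (.v 5 1
  0) (.c (.v 3 2 0) (.c (.f 3 0 1616 1616 0) .e))))) (.c (.v 4 1 0) (.c (.R (.c (.f 28 0 1616
  1616 0) (.c (.f 21 0 1616 1616 0) (.c (.f 2 0 1616 1616 0) (.c (.v 5 1 0) .e))))) .e))))) (.c
  (.R (.c (.R (.c (.v 5 1 0) (.c (.f 12 0 1616 1616 0) (.c (.f 32 0 1616 1616 0) (.c (.f 2 0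
  209 1091 1) .e))))) (.c (.R (.c (.f 16 0 1616 1616 0) (.c (.v 5 1 0) (.c (.f 10 0 1616 1616
  0) (.c (.v 3 2 0) .e))))) (.c (.R (.c (.f 34 0 1616 1616 0) (.c (.f 27 0 1616 1616 0) (.c (.v
  5 1 0) (.c (.f 23 0 1616 1616 0) .e))))) (.c (.v 4 1 0) .e))))) .e))))) (.c (.v 0 2 0) (.c
  (.R (.c (.R (.c (.v 4 1 0) (.c (.R (.c (.f 36 0 1112 720 0) (.c (.v 5 1 0) (.c (.f 17 0 1112
  720 0) (.c (.f 5 0 1112 720 0) .e))))) (.c (.R (.c (.f 38 0 1112 720 0) (.c (.f 24 0 1112 720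
  0) (.c (.v 5 1 0) (.c (.v 1 3 0) .e))))) (.c (.v 2 2 0) .e))))) (.c (.R (.c (.R (.c (.v 5 1
  0) (.c (.f 2 0 1217 1217 1) (.c (.f 32 0 1112 720 0) (.c (.f 12 0 1112 720 0) .e))))) (.c (.v
  4 1 0) (.c (.R (.c (.f 34 0 1112 720 0) (.c (.f 23 0 1112 720 0) (.c (.v 5 1 0) (.c (.f 27 0
  1112 720 0) .e))))) (.c (.R (.c (.f 16 0 1112 720 0) (.c (.v 3 2 0) (.c (.f 10 0 1112 720 0)
  (.c (.v 5 1 0) .e))))) .e))))) (.c (.R (.c (.R (.c (.v 5 1 0) (.c (.f 20 0 1112 720 0) (.c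
  (.f 4 0 1112 720 0) (.c (.v 1 3 0) .e))))) (.c (.R (.c (.f 28 0 1112 720 0) (.c (.v 5 1 0)
  (.c (.f 2 0 1112 720 0) (.c (.f 21 0 1112 720 0) .e))))) (.c (.v 4 1 0) (.c (.R (.c (.v 1 3
  0) (.c (.f 3 0 1112 720 0) (.c (.v 3 2 0) (.c (.v 5 1 0) .e))))) .e))))) (.c (.v 3 1 0)
  .e))))) .e))))) (.c (.R (.c (.R (.c (.v 3 1 0) (.c (.R (.c (.v 2 2 0) (.c (.v 4 1 0) (.c (.v
  0 3 0) (.c (.R (.c (.f 0 0 1616 1616 0) (.c (.f 5 0 706 1049 1) (.c (.f 9 0 1616 1616 0) (.c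
  (.v 5 1 0) .e))))) .e))))) (.c (.R (.c (.R (.c (.v 5 1 0) (.c (.v 1 3 0) (.c (.v 3 2 0) (.c
  (.f 1 0 1616 1616 0) .e))))) (.c (.v 0 3 0) (.c (.v 4 1 0) (.c (.R (.c (.f 31 0 1616 1616 0)
  (.c (.f 19 0 1616 1616 0) (.c (.f 12 0 538 538 1) (.c (.v 5 1 0) .e))))) .e))))) (.c (.R (.c
  (.R (.c (.v 5 1 0) (.c (.f 15 0 1616 1616 0) (.c (.f 8 0 1616 1616 0) (.c (.v 3 2 0) .e)))))
  (.c (.R (.c (.f 31 0 1224 1224 1) (.c (.v 5 1 0) (.c (.f 30 0 1616 1616 0) (.c (.f 21 0 202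
  1035 1) .e))))) (.c (.R (.c (.f 35 0 1616 1616 0) (.c (.f 18 0 1616 1616 0) (.c (.v 5 1 0)
  (.c (.f 27 0 90 531 1) .e))))) (.c (.v 4 1 0) .e))))) .e))))) (.c (.v 2 1 0) (.c (.R (.c (.R
  (.c (.v 4 1 0) (.c (.v 0 3 0) (.c (.R (.c (.v 3 2 0) (.c (.f 37 0 1616 1616 0) (.c (.v 5 1 0)
  (.c (.f 22 0 1616 1616 0) .e))))) (.c (.R (.c (.f 16 0 664 664 1) (.c (.f 26 0 1616 1616 0)
  (.c (.f 15 0 538 538 1) (.c (.v 5 1 0) .e))))) .e))))) (.c (.v 1 2 0) (.c (.v 3 1 0) (.c (.R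
  (.c (.R (.c (.v 5 1 0) (.c (.f 25 0 1616 1616 0) (.c (.f 8 0 1049 706 1) (.c (.f 10 0 153 643
  1) .e))))) (.c (.R (.c (.f 6 0 1616 1616 0) (.c (.v 5 1 0) (.c (.f 1 0 1035 202 1) (.c (.f 3
  0 139 139 1) .e))))) (.c (.R (.c (.f 7 0 1616 1616 0) (.c (.f 22 0 1091 209 1) (.c (.v 5 1 0)
  (.c (.v 3 2 0) .e))))) (.c (.v 4 1 0) .e))))) .e))))) (.c (.R (.c (.R (.c (.v 4 1 0) (.c (.R
  (.c (.f 28 0 1224 1224 1) (.c (.v 5 1 0) (.c (.f 29 0 1616 1616 0) (.c (.f 19 0 202 1035 1)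
  .e))))) (.c (.R (.c (.f 34 0 1112 720 1) (.c (.f 33 0 1616 1616 0) (.c (.v 5 1 0) (.c (.f 18
  0 90 531 1) .e))))) (.c (.R (.c (.v 3 2 0) (.c (.f 26 0 706 1049 1) (.c (.f 25 0 538 538 1)
  (.c (.v 5 1 0) .e))))) .e))))) (.c (.R (.c (.R (.c (.v 5 1 0) (.c (.f 17 0 1217 1217 1) (.c
  (.f 14 0 1616 1616 0) (.c (.f 9 0 209 1091 1) .e))))) (.c (.v 4 1 0) (.c (.R (.c (.f 13 0
  1616 1616 0) (.c (.f 24 0 1091 209 1) (.c (.v 5 1 0) (.c (.v 1 3 0) .e))))) (.c (.v 2 2 0)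
  .e))))) (.c (.R (.c (.R (.c (.v 5 1 0) (.c (.f 29 0 1665 1665 1) (.c (.f 32 0 1049 706 1) (.c
  (.f 30 0 153 643 1) .e))))) (.c (.R (.c (.f 11 0 1616 1616 0) (.c (.v 5 1 0) (.c (.f 20 0
  1035 202 1) (.c (.v 1 3 0) .e))))) (.c (.v 4 1 0) (.c (.R (.c (.f 6 0 664 664 1) (.c (.v 1 3
  0) (.c (.v 3 2 0) (.c (.v 5 1 0) .e))))) .e))))) (.c (.v 3 1 0) .e))))) .e))))) (.c (.v 1 1
  0) (.c (.R (.c (.R (.c (.v 3 1 0) (.c (.R (.c (.R (.c (.v 5 1 0) (.c (.v 3 2 0) (.c (.f 8 0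
  1112 720 0) (.c (.f 15 0 1112 720 0) .e))))) (.c (.v 4 1 0) (.c (.R (.c (.f 35 0 1112 720 0)
  (.c (.f 27 0 1602 1553 1) (.c (.v 5 1 0) (.c (.f 18 0 1112 720 0) .e))))) (.c (.R (.c (.f 31
  0 720 1112 1) (.c (.f 21 0 706 1049 1) (.c (.f 30 0 1112 720 0) (.c (.v 5 1 0) .e)))))
  .e))))) (.c (.R (.c (.R (.c (.v 5 1 0) (.c (.f 1 0 1112 720 0) (.c (.v 3 2 0) (.c (.v 1 3 0)
  .e))))) (.c (.R (.c (.f 31 0 1112 720 0) (.c (.v 5 1 0) (.c (.f 12 0 1546 1546 1) (.c (.f 19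
  0 1112 720 0) .e))))) (.c (.v 4 1 0) (.c (.v 0 3 0) .e))))) (.c (.R (.c (.v 2 2 0) (.c (.R
  (.c (.f 0 0 1112 720 0) (.c (.v 5 1 0) (.c (.f 9 0 1112 720 0) (.c (.f 5 0 202 1035 1)
  .e))))) (.c (.v 0 3 0) (.c (.v 4 1 0) .e))))) .e))))) (.c (.R (.c (.R (.c (.v 4 1 0) (.c (.R
  (.c (.v 3 2 0) (.c (.v 5 1 0) (.c (.f 25 0 1546 1546 1) (.c (.f 26 0 202 1035 1) .e))))) (.c
  (.R (.c (.f 34 0 1616 1616 1) (.c (.f 18 0 1602 1553 1) (.c (.v 5 1 0) (.c (.f 33 0 1112 720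
  0) .e))))) (.c (.R (.c (.f 28 0 720 1112 1) (.c (.f 19 0 706 1049 1) (.c (.f 29 0 1112 720 0)
  (.c (.v 5 1 0) .e))))) .e))))) (.c (.v 3 1 0) (.c (.R (.c (.R (.c (.v 5 1 0) (.c (.f 30 0
  1665 1665 1) (.c (.f 32 0 1553 1602 1) (.c (.f 29 0 153 643 1) .e))))) (.c (.R (.c (.f 6 0
  1672 1672 1) (.c (.v 5 1 0) (.c (.v 3 2 0) (.c (.v 1 3 0) .e))))) (.c (.v 4 1 0) (.c (.R (.c
  (.f 11 0 1112 720 0) (.c (.v 1 3 0) (.c (.f 20 0 531 90 1) (.c (.v 5 1 0) .e))))) .e))))) (.c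
  (.R (.c (.R (.c (.v 5 1 0) (.c (.f 9 0 1217 1217 1) (.c (.f 14 0 1112 720 0) (.c (.f 17 0 209
  1091 1) .e))))) (.c (.v 2 2 0) (.c (.R (.c (.f 13 0 1112 720 0) (.c (.v 1 3 0) (.c (.v 5 1 0)
  (.c (.f 24 0 83 83 1) .e))))) (.c (.v 4 1 0) .e))))) .e))))) (.c (.R (.c (.R (.c (.v 4 1 0)
  (.c (.R (.c (.f 16 0 1672 1672 1) (.c (.v 5 1 0) (.c (.f 15 0 1546 1546 1) (.c (.f 26 0 1112
  720 0) .e))))) (.c (.R (.c (.v 3 2 0) (.c (.f 22 0 1112 720 0) (.c (.v 5 1 0) (.c (.f 37 0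
  1112 720 0) .e))))) (.c (.v 0 3 0) .e))))) (.c (.R (.c (.R (.c (.v 5 1 0) (.c (.f 10 0 1665
  1665 1) (.c (.f 8 0 1553 1602 1) (.c (.f 25 0 1112 720 0) .e))))) (.c (.v 4 1 0) (.c (.R (.c
  (.f 7 0 1112 720 0) (.c (.v 3 2 0) (.c (.v 5 1 0) (.c (.f 22 0 83 83 1) .e))))) (.c (.R (.c
  (.f 6 0 1112 720 0) (.c (.f 3 0 643 153 1) (.c (.f 1 0 531 90 1) (.c (.v 5 1 0) .e)))))
  .e))))) (.c (.v 3 1 0) (.c (.v 1 2 0) .e))))) (.c (.v 2 1 0) .e))))) .e))))) (.c (.R (.c (.R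
  (.c (.v 2 1 0) (.c (.R (.c (.R (.c (.v 4 1 0) (.c (.v 2 2 0) (.c (.R (.c (.f 36 0 720 1112 0)
  (.c (.f 5 0 720 1112 0) (.c (.v 5 1 0) (.c (.f 17 0 720 1112 0) .e))))) (.c (.R (.c (.f 38 0
  720 1112 0) (.c (.v 1 3 0) (.c (.f 24 0 720 1112 0) (.c (.v 5 1 0) .e))))) .e))))) (.c (.v 3
  1 0) (.c (.R (.c (.R (.c (.v 5 1 0) (.c (.f 12 0 720 1112 0) (.c (.f 2 0 1553 1602 1) (.c (.f
  32 0 720 1112 0) .e))))) (.c (.R (.c (.f 16 0 720 1112 0) (.c (.v 5 1 0) (.c (.v 3 2 0) (.c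
  (.f 10 0 720 1112 0) .e))))) (.c (.v 4 1 0) (.c (.R (.c (.f 34 0 720 1112 0) (.c (.f 27 0 720
  1112 0) (.c (.f 23 0 720 1112 0) (.c (.v 5 1 0) .e))))) .e))))) (.c (.R (.c (.R (.c (.v 5 1
  0) (.c (.v 1 3 0) (.c (.f 20 0 720 1112 0) (.c (.f 4 0 720 1112 0) .e))))) (.c (.R (.c (.v 1
  3 0) (.c (.v 5 1 0) (.c (.f 3 0 720 1112 0) (.c (.v 3 2 0) .e))))) (.c (.R (.c (.f 28 0 720
  1112 0) (.c (.f 21 0 720 1112 0) (.c (.v 5 1 0) (.c (.f 2 0 720 1112 0) .e))))) (.c (.v 4 1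
  0) .e))))) .e))))) (.c (.R (.c (.R (.c (.v 4 1 0) (.c (.R (.c (.f 36 0 664 664 0) (.c (.v 5 1
  0) (.c (.f 5 0 664 664 0) (.c (.f 17 0 664 664 0) .e))))) (.c (.v 2 2 0) (.c (.R (.c (.f 38 0
  664 664 0) (.c (.f 24 0 664 664 0) (.c (.v 1 3 0) (.c (.v 5 1 0) .e))))) .e))))) (.c (.R (.c
  (.R (.c (.v 5 1 0) (.c (.f 2 0 1665 1665 1) (.c (.f 12 0 664 664 0) (.c (.f 32 0 664 664 0)
  .e))))) (.c (.v 4 1 0) (.c (.R (.c (.f 16 0 664 664 0) (.c (.v 3 2 0) (.c (.v 5 1 0) (.c (.f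
  10 0 664 664 0) .e))))) (.c (.R (.c (.f 34 0 664 664 0) (.c (.f 23 0 664 664 0) (.c (.f 27 0
  664 664 0) (.c (.v 5 1 0) .e))))) .e))))) (.c (.v 3 1 0) (.c (.R (.c (.R (.c (.v 5 1 0) (.c
  (.f 20 0 664 664 0) (.c (.v 1 3 0) (.c (.f 4 0 664 664 0) .e))))) (.c (.R (.c (.f 28 0 664
  664 0) (.c (.v 5 1 0) (.c (.f 21 0 664 664 0) (.c (.f 2 0 664 664 0) .e))))) (.c (.R (.c (.v
  1 3 0) (.c (.f 3 0 664 664 0) (.c (.v 5 1 0) (.c (.v 3 2 0) .e))))) (.c (.v 4 1 0) .e)))))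
  .e))))) (.c (.v 0 2 0) .e))))) (.c (.R (.c (.R (.c (.v 3 1 0) (.c (.R (.c (.v 2 2 0) (.c (.v
  4 1 0) (.c (.R (.c (.f 0 0 720 1112 0) (.c (.f 5 0 1602 1553 1) (.c (.v 5 1 0) (.c (.f 9 0
  720 1112 0) .e))))) (.c (.v 0 3 0) .e))))) (.c (.R (.c (.R (.c (.v 5 1 0) (.c (.f 15 0 720
  1112 0) (.c (.v 3 2 0) (.c (.f 8 0 720 1112 0) .e))))) (.c (.R (.c (.f 31 0 1672 1672 1) (.c
  (.v 5 1 0) (.c (.f 21 0 1546 1546 1) (.c (.f 30 0 720 1112 0) .e))))) (.c (.v 4 1 0) (.c (.R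
  (.c (.f 35 0 720 1112 0) (.c (.f 18 0 720 1112 0) (.c (.f 27 0 538 538 1) (.c (.v 5 1 0)
  .e))))) .e))))) (.c (.R (.c (.R (.c (.v 5 1 0) (.c (.v 1 3 0) (.c (.f 1 0 720 1112 0) (.c (.v
  3 2 0) .e))))) (.c (.v 0 3 0) (.c (.R (.c (.f 31 0 720 1112 0) (.c (.f 19 0 720 1112 0) (.c
  (.v 5 1 0) (.c (.f 12 0 90 531 1) .e))))) (.c (.v 4 1 0) .e))))) .e))))) (.c (.v 2 1 0) (.c
  (.R (.c (.R (.c (.v 4 1 0) (.c (.R (.c (.f 28 0 1672 1672 1) (.c (.v 5 1 0) (.c (.f 19 0 1546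
  1546 1) (.c (.f 29 0 720 1112 0) .e))))) (.c (.R (.c (.v 3 2 0) (.c (.f 26 0 1602 1553 1) (.c
  (.v 5 1 0) (.c (.f 25 0 90 531 1) .e))))) (.c (.R (.c (.f 34 0 664 664 1) (.c (.f 33 0 720
  1112 0) (.c (.f 18 0 538 538 1) (.c (.v 5 1 0) .e))))) .e))))) (.c (.R (.c (.R (.c (.v 5 1 0)
  (.c (.f 17 0 1665 1665 1) (.c (.f 9 0 1553 1602 1) (.c (.f 14 0 720 1112 0) .e))))) (.c (.v 4
  1 0) (.c (.v 2 2 0) (.c (.R (.c (.f 13 0 720 1112 0) (.c (.f 24 0 643 153 1) (.c (.v 1 3 0)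
  (.c (.v 5 1 0) .e))))) .e))))) (.c (.v 3 1 0) (.c (.R (.c (.R (.c (.v 5 1 0) (.c (.f 29 0
  1217 1217 1) (.c (.f 30 0 1049 706 1) (.c (.f 32 0 153 643 1) .e))))) (.c (.R (.c (.f 11 0
  720 1112 0) (.c (.v 5 1 0) (.c (.v 1 3 0) (.c (.f 20 0 139 139 1) .e))))) (.c (.R (.c (.f 6 0
  1112 720 1) (.c (.v 1 3 0) (.c (.v 5 1 0) (.c (.v 3 2 0) .e))))) (.c (.v 4 1 0) .e)))))
  .e))))) (.c (.R (.c (.R (.c (.v 4 1 0) (.c (.v 0 3 0) (.c (.R (.c (.f 16 0 1112 720 1) (.c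
  (.f 26 0 720 1112 0) (.c (.v 5 1 0) (.c (.f 15 0 90 531 1) .e))))) (.c (.R (.c (.v 3 2 0) (.c
  (.f 37 0 720 1112 0) (.c (.f 22 0 720 1112 0) (.c (.v 5 1 0) .e))))) .e))))) (.c (.v 1 2 0)
  (.c (.R (.c (.R (.c (.v 5 1 0) (.c (.f 25 0 720 1112 0) (.c (.f 10 0 1049 706 1) (.c (.f 8 0
  153 643 1) .e))))) (.c (.R (.c (.f 6 0 720 1112 0) (.c (.v 5 1 0) (.c (.f 3 0 1035 202 1) (.c
  (.f 1 0 139 139 1) .e))))) (.c (.v 4 1 0) (.c (.R (.c (.f 7 0 720 1112 0) (.c (.f 22 0 643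
  153 1) (.c (.v 3 2 0) (.c (.v 5 1 0) .e))))) .e))))) (.c (.v 3 1 0) .e))))) .e))))) (.c (.R
  (.c (.R (.c (.v 3 1 0) (.c (.R (.c (.R (.c (.v 5 1 0) (.c (.v 3 2 0) (.c (.f 15 0 664 664 0)
  (.c (.f 8 0 664 664 0) .e))))) (.c (.v 4 1 0) (.c (.R (.c (.f 31 0 1616 1616 1) (.c (.f 21 0
  1602 1553 1) (.c (.v 5 1 0) (.c (.f 30 0 664 664 0) .e))))) (.c (.R (.c (.f 35 0 664 664 0)
  (.c (.f 27 0 706 1049 1) (.c (.f 18 0 664 664 0) (.c (.v 5 1 0) .e))))) .e))))) (.c (.R (.c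
  (.v 2 2 0) (.c (.R (.c (.f 0 0 664 664 0) (.c (.v 5 1 0) (.c (.f 5 0 1546 1546 1) (.c (.f 9 0
  664 664 0) .e))))) (.c (.v 4 1 0) (.c (.v 0 3 0) .e))))) (.c (.R (.c (.R (.c (.v 5 1 0) (.c
  (.f 1 0 664 664 0) (.c (.v 1 3 0) (.c (.v 3 2 0) .e))))) (.c (.R (.c (.f 31 0 664 664 0) (.c
  (.v 5 1 0) (.c (.f 19 0 664 664 0) (.c (.f 12 0 202 1035 1) .e))))) (.c (.v 0 3 0) (.c (.v 4
  1 0) .e))))) .e))))) (.c (.R (.c (.R (.c (.v 4 1 0) (.c (.R (.c (.v 3 2 0) (.c (.v 5 1 0) (.c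
  (.f 26 0 1546 1546 1) (.c (.f 25 0 202 1035 1) .e))))) (.c (.R (.c (.f 28 0 1616 1616 1) (.c
  (.f 19 0 1602 1553 1) (.c (.v 5 1 0) (.c (.f 29 0 664 664 0) .e))))) (.c (.R (.c (.f 34 0 720
  1112 1) (.c (.f 18 0 706 1049 1) (.c (.f 33 0 664 664 0) (.c (.v 5 1 0) .e))))) .e))))) (.c
  (.v 3 1 0) (.c (.R (.c (.R (.c (.v 5 1 0) (.c (.f 9 0 1665 1665 1) (.c (.f 17 0 1553 1602 1)
  (.c (.f 14 0 664 664 0) .e))))) (.c (.v 2 2 0) (.c (.v 4 1 0) (.c (.R (.c (.f 13 0 664 664 0)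
  (.c (.v 1 3 0) (.c (.f 24 0 531 90 1) (.c (.v 5 1 0) .e))))) .e))))) (.c (.R (.c (.R (.c (.v
  5 1 0) (.c (.f 30 0 1217 1217 1) (.c (.f 29 0 1049 706 1) (.c (.f 32 0 209 1091 1) .e)))))
  (.c (.R (.c (.f 6 0 1224 1224 1) (.c (.v 5 1 0) (.c (.v 1 3 0) (.c (.v 3 2 0) .e))))) (.c (.R
  (.c (.f 11 0 664 664 0) (.c (.v 1 3 0) (.c (.v 5 1 0) (.c (.f 20 0 83 83 1) .e))))) (.c (.v 4
  1 0) .e))))) .e))))) (.c (.v 2 1 0) (.c (.R (.c (.R (.c (.v 4 1 0) (.c (.R (.c (.f 16 0 1224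
  1224 1) (.c (.v 5 1 0) (.c (.f 26 0 664 664 0) (.c (.f 15 0 202 1035 1) .e))))) (.c (.v 0 3
  0) (.c (.R (.c (.v 3 2 0) (.c (.f 22 0 664 664 0) (.c (.f 37 0 664 664 0) (.c (.v 5 1 0)
  .e))))) .e))))) (.c (.R (.c (.R (.c (.v 5 1 0) (.c (.f 10 0 1217 1217 1) (.c (.f 25 0 664 664
  0) (.c (.f 8 0 209 1091 1) .e))))) (.c (.v 4 1 0) (.c (.R (.c (.f 6 0 664 664 0) (.c (.f 3 0
  1091 209 1) (.c (.v 5 1 0) (.c (.f 1 0 83 83 1) .e))))) (.c (.R (.c (.f 7 0 664 664 0) (.c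
  (.v 3 2 0) (.c (.f 22 0 531 90 1) (.c (.v 5 1 0) .e))))) .e))))) (.c (.v 1 2 0) (.c (.v 3 1
  0) .e))))) .e))))) (.c (.v 1 1 0) .e))))) .e))))) (.c (.R (.c (.R (.c (.v 1 1 0) (.c (.R (.c
  (.v 0 2 0) (.c (.v 2 1 0) (.c (.R (.c (.R (.c (.v 4 1 0) (.c (.R (.c (.f 4 0 1665 1665 0) (.c
  (.v 5 1 0) (.c (.v 1 3 0) (.c (.f 20 0 1665 1665 0) .e))))) (.c (.R (.c (.v 3 2 0) (.c (.v 1
  3 0) (.c (.v 5 1 0) (.c (.f 3 0 1665 1665 0) .e))))) (.c (.R (.c (.f 2 0 1665 1665 0) (.c (.f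
  28 0 1665 1665 0) (.c (.f 21 0 1665 1665 0) (.c (.v 5 1 0) .e))))) .e))))) (.c (.R (.c (.R
  (.c (.v 5 1 0) (.c (.f 38 0 1665 1665 0) (.c (.v 1 3 0) (.c (.f 24 0 1665 1665 0) .e))))) (.c
  (.v 4 1 0) (.c (.v 2 2 0) (.c (.R (.c (.f 17 0 1665 1665 0) (.c (.f 36 0 1665 1665 0) (.c (.f
  5 0 1665 1665 0) (.c (.v 5 1 0) .e))))) .e))))) (.c (.v 3 1 0) (.c (.R (.c (.R (.c (.v 5 1 0)
  (.c (.f 34 0 1665 1665 0) (.c (.f 27 0 1665 1665 0) (.c (.f 23 0 1665 1665 0) .e))))) (.c (.R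
  (.c (.f 32 0 1665 1665 0) (.c (.v 5 1 0) (.c (.f 12 0 1665 1665 0) (.c (.f 2 0 139 139 1)
  .e))))) (.c (.R (.c (.f 10 0 1665 1665 0) (.c (.f 16 0 1665 1665 0) (.c (.v 5 1 0) (.c (.v 3
  2 0) .e))))) (.c (.v 4 1 0) .e))))) .e))))) (.c (.R (.c (.R (.c (.v 4 1 0) (.c (.R (.c (.f 4
  0 1217 1217 0) (.c (.v 5 1 0) (.c (.f 20 0 1217 1217 0) (.c (.v 1 3 0) .e))))) (.c (.R (.c
  (.f 2 0 1217 1217 0) (.c (.f 28 0 1217 1217 0) (.c (.v 5 1 0) (.c (.f 21 0 1217 1217 0)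
  .e))))) (.c (.R (.c (.v 3 2 0) (.c (.v 1 3 0) (.c (.f 3 0 1217 1217 0) (.c (.v 5 1 0) .e)))))
  .e))))) (.c (.R (.c (.R (.c (.v 5 1 0) (.c (.f 38 0 1217 1217 0) (.c (.f 24 0 1217 1217 0)
  (.c (.v 1 3 0) .e))))) (.c (.v 4 1 0) (.c (.R (.c (.f 17 0 1217 1217 0) (.c (.f 36 0 1217
  1217 0) (.c (.v 5 1 0) (.c (.f 5 0 1217 1217 0) .e))))) (.c (.v 2 2 0) .e))))) (.c (.R (.c
  (.R (.c (.v 5 1 0) (.c (.f 34 0 1217 1217 0) (.c (.f 23 0 1217 1217 0) (.c (.f 27 0 1217 1217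
  0) .e))))) (.c (.R (.c (.f 32 0 1217 1217 0) (.c (.v 5 1 0) (.c (.f 2 0 1035 202 1) (.c (.f
  12 0 1217 1217 0) .e))))) (.c (.v 4 1 0) (.c (.R (.c (.f 10 0 1217 1217 0) (.c (.f 16 0 1217
  1217 0) (.c (.v 3 2 0) (.c (.v 5 1 0) .e))))) .e))))) (.c (.v 3 1 0) .e))))) .e))))) (.c (.R
  (.c (.R (.c (.v 3 1 0) (.c (.R (.c (.R (.c (.v 5 1 0) (.c (.v 3 2 0) (.c (.f 37 0 1665 1665
  0) (.c (.f 22 0 1665 1665 0) .e))))) (.c (.v 4 1 0) (.c (.v 0 3 0) (.c (.R (.c (.f 15 0 720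
  1112 1) (.c (.f 16 0 706 1049 1) (.c (.f 26 0 1665 1665 0) (.c (.v 5 1 0) .e))))) .e))))) (.c
  (.v 1 2 0) (.c (.R (.c (.R (.c (.v 5 1 0) (.c (.f 7 0 1665 1665 0) (.c (.f 22 0 1049 706 1)
  (.c (.v 3 2 0) .e))))) (.c (.R (.c (.f 8 0 1224 1224 1) (.c (.v 5 1 0) (.c (.f 25 0 1665 1665
  0) (.c (.f 10 0 202 1035 1) .e))))) (.c (.R (.c (.f 1 0 1112 720 1) (.c (.f 6 0 1665 1665 0)
  (.c (.v 5 1 0) (.c (.f 3 0 90 531 1) .e))))) (.c (.v 4 1 0) .e))))) .e))))) (.c (.R (.c (.R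
  (.c (.v 4 1 0) (.c (.R (.c (.v 3 2 0) (.c (.v 5 1 0) (.c (.v 1 3 0) (.c (.f 1 0 1665 1665 0)
  .e))))) (.c (.v 0 3 0) (.c (.R (.c (.f 12 0 720 1112 1) (.c (.f 31 0 1665 1665 0) (.c (.f 19
  0 1665 1665 0) (.c (.v 5 1 0) .e))))) .e))))) (.c (.v 3 1 0) (.c (.R (.c (.v 0 3 0) (.c (.v 2
  2 0) (.c (.v 4 1 0) (.c (.R (.c (.f 9 0 1665 1665 0) (.c (.f 0 0 1665 1665 0) (.c (.f 5 0 531
  90 1) (.c (.v 5 1 0) .e))))) .e))))) (.c (.R (.c (.R (.c (.v 5 1 0) (.c (.f 35 0 1665 1665 0)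
  (.c (.f 18 0 1665 1665 0) (.c (.f 27 0 209 1091 1) .e))))) (.c (.R (.c (.f 8 0 1665 1665 0)
  (.c (.v 5 1 0) (.c (.f 15 0 1665 1665 0) (.c (.v 3 2 0) .e))))) (.c (.R (.c (.f 30 0 1665
  1665 0) (.c (.f 31 0 1091 209 1) (.c (.v 5 1 0) (.c (.f 21 0 83 83 1) .e))))) (.c (.v 4 1 0)
  .e))))) .e))))) (.c (.v 2 1 0) (.c (.R (.c (.R (.c (.v 4 1 0) (.c (.R (.c (.f 32 0 1224 1224
  1) (.c (.v 5 1 0) (.c (.f 29 0 1546 1546 1) (.c (.f 30 0 202 1035 1) .e))))) (.c (.R (.c (.f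
  20 0 1112 720 1) (.c (.f 11 0 1665 1665 0) (.c (.v 5 1 0) (.c (.v 1 3 0) .e))))) (.c (.R (.c
  (.v 3 2 0) (.c (.f 6 0 706 1049 1) (.c (.v 1 3 0) (.c (.v 5 1 0) .e))))) .e))))) (.c (.R (.c
  (.R (.c (.v 5 1 0) (.c (.f 34 0 1217 1217 1) (.c (.f 33 0 1665 1665 0) (.c (.f 18 0 209 1091
  1) .e))))) (.c (.v 4 1 0) (.c (.R (.c (.f 29 0 1665 1665 0) (.c (.f 28 0 1091 209 1) (.c (.v
  5 1 0) (.c (.f 19 0 83 83 1) .e))))) (.c (.R (.c (.f 25 0 720 1112 1) (.c (.v 3 2 0) (.c (.f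
  26 0 531 90 1) (.c (.v 5 1 0) .e))))) .e))))) (.c (.R (.c (.R (.c (.v 5 1 0) (.c (.f 13 0
  1665 1665 0) (.c (.f 24 0 1049 706 1) (.c (.v 1 3 0) .e))))) (.c (.R (.c (.f 14 0 1665 1665
  0) (.c (.v 5 1 0) (.c (.f 17 0 1035 202 1) (.c (.f 9 0 139 139 1) .e))))) (.c (.v 4 1 0) (.c
  (.v 2 2 0) .e))))) (.c (.v 3 1 0) .e))))) .e))))) (.c (.R (.c (.R (.c (.v 3 1 0) (.c (.R (.c
  (.R (.c (.v 5 1 0) (.c (.v 3 2 0) (.c (.f 22 0 1217 1217 0) (.c (.f 37 0 1217 1217 0) .e)))))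
  (.c (.v 4 1 0) (.c (.R (.c (.f 15 0 1616 1616 1) (.c (.f 16 0 1602 1553 1) (.c (.v 5 1 0) (.c
  (.f 26 0 1217 1217 0) .e))))) (.c (.v 0 3 0) .e))))) (.c (.R (.c (.R (.c (.v 5 1 0) (.c (.f 7
  0 1217 1217 0) (.c (.v 3 2 0) (.c (.f 22 0 153 643 1) .e))))) (.c (.R (.c (.f 8 0 1672 1672
  1) (.c (.v 5 1 0) (.c (.f 10 0 1546 1546 1) (.c (.f 25 0 1217 1217 0) .e))))) (.c (.v 4 1 0)
  (.c (.R (.c (.f 1 0 664 664 1) (.c (.f 6 0 1217 1217 0) (.c (.f 3 0 538 538 1) (.c (.v 5 1 0)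
  .e))))) .e))))) (.c (.v 1 2 0) .e))))) (.c (.R (.c (.R (.c (.v 4 1 0) (.c (.R (.c (.v 3 2 0)
  (.c (.v 5 1 0) (.c (.f 1 0 1217 1217 0) (.c (.v 1 3 0) .e))))) (.c (.R (.c (.f 12 0 1616 1616
  1) (.c (.f 31 0 1217 1217 0) (.c (.v 5 1 0) (.c (.f 19 0 1217 1217 0) .e))))) (.c (.v 0 3 0)
  .e))))) (.c (.v 3 1 0) (.c (.R (.c (.R (.c (.v 5 1 0) (.c (.f 35 0 1217 1217 0) (.c (.f 27 0
  1553 1602 1) (.c (.f 18 0 1217 1217 0) .e))))) (.c (.R (.c (.f 8 0 1217 1217 0) (.c (.v 5 1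
  0) (.c (.v 3 2 0) (.c (.f 15 0 1217 1217 0) .e))))) (.c (.v 4 1 0) (.c (.R (.c (.f 30 0 1217
  1217 0) (.c (.f 31 0 643 153 1) (.c (.f 21 0 531 90 1) (.c (.v 5 1 0) .e))))) .e))))) (.c (.R
  (.c (.v 0 3 0) (.c (.v 2 2 0) (.c (.R (.c (.f 9 0 1217 1217 0) (.c (.f 0 0 1217 1217 0) (.c
  (.v 5 1 0) (.c (.f 5 0 83 83 1) .e))))) (.c (.v 4 1 0) .e))))) .e))))) (.c (.R (.c (.R (.c
  (.v 4 1 0) (.c (.R (.c (.f 32 0 1672 1672 1) (.c (.v 5 1 0) (.c (.f 30 0 1546 1546 1) (.c (.f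
  29 0 202 1035 1) .e))))) (.c (.R (.c (.v 3 2 0) (.c (.f 6 0 1602 1553 1) (.c (.v 5 1 0) (.c
  (.v 1 3 0) .e))))) (.c (.R (.c (.f 20 0 664 664 1) (.c (.f 11 0 1217 1217 0) (.c (.v 1 3 0)
  (.c (.v 5 1 0) .e))))) .e))))) (.c (.R (.c (.R (.c (.v 5 1 0) (.c (.f 34 0 1665 1665 1) (.c
  (.f 18 0 1553 1602 1) (.c (.f 33 0 1217 1217 0) .e))))) (.c (.v 4 1 0) (.c (.R (.c (.f 25 0
  1616 1616 1) (.c (.v 3 2 0) (.c (.v 5 1 0) (.c (.f 26 0 83 83 1) .e))))) (.c (.R (.c (.f 29 0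
  1217 1217 0) (.c (.f 28 0 643 153 1) (.c (.f 19 0 531 90 1) (.c (.v 5 1 0) .e))))) .e)))))
  (.c (.v 3 1 0) (.c (.R (.c (.R (.c (.v 5 1 0) (.c (.f 13 0 1217 1217 0) (.c (.v 1 3 0) (.c
  (.f 24 0 153 643 1) .e))))) (.c (.R (.c (.f 14 0 1217 1217 0) (.c (.v 5 1 0) (.c (.f 9 0 1035
  202 1) (.c (.f 17 0 139 139 1) .e))))) (.c (.v 2 2 0) (.c (.v 4 1 0) .e))))) .e))))) (.c (.v
  2 1 0) .e))))) .e))))) (.c (.v 0 1 0) (.c (.R (.c (.R (.c (.v 2 1 0) (.c (.R (.c (.R (.c (.v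
  4 1 0) (.c (.v 2 2 0) (.c (.v 0 3 0) (.c (.R (.c (.f 5 0 720 1112 1) (.c (.f 0 0 1602 1553 0)
  (.c (.f 9 0 1602 1553 0) (.c (.v 5 1 0) .e))))) .e))))) (.c (.v 3 1 0) (.c (.R (.c (.v 0 3 0)
  (.c (.R (.c (.v 1 3 0) (.c (.v 5 1 0) (.c (.v 3 2 0) (.c (.f 1 0 1602 1553 0) .e))))) (.c (.v
  4 1 0) (.c (.R (.c (.f 19 0 1602 1553 0) (.c (.f 31 0 1602 1553 0) (.c (.f 12 0 531 90 1) (.c
  (.v 5 1 0) .e))))) .e))))) (.c (.R (.c (.R (.c (.v 5 1 0) (.c (.f 31 0 1217 1217 1) (.c (.f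
  30 0 1602 1553 0) (.c (.f 21 0 209 1091 1) .e))))) (.c (.R (.c (.f 15 0 1602 1553 0) (.c (.v
  5 1 0) (.c (.f 8 0 1602 1553 0) (.c (.v 3 2 0) .e))))) (.c (.R (.c (.f 18 0 1602 1553 0) (.c
  (.f 35 0 1602 1553 0) (.c (.v 5 1 0) (.c (.f 27 0 83 83 1) .e))))) (.c (.v 4 1 0) .e)))))
  .e))))) (.c (.R (.c (.v 1 2 0) (.c (.R (.c (.v 0 3 0) (.c (.v 4 1 0) (.c (.R (.c (.f 37 0
  1602 1553 0) (.c (.v 3 2 0) (.c (.v 5 1 0) (.c (.f 22 0 1602 1553 0) .e))))) (.c (.R (.c (.f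
  26 0 1602 1553 0) (.c (.f 16 0 643 153 1) (.c (.f 15 0 531 90 1) (.c (.v 5 1 0) .e)))))
  .e))))) (.c (.v 3 1 0) (.c (.R (.c (.R (.c (.v 5 1 0) (.c (.f 6 0 1602 1553 0) (.c (.f 1 0
  1049 706 1) (.c (.f 3 0 153 643 1) .e))))) (.c (.R (.c (.f 25 0 1602 1553 0) (.c (.v 5 1 0)
  (.c (.f 8 0 1035 202 1) (.c (.f 10 0 139 139 1) .e))))) (.c (.R (.c (.f 22 0 1112 720 1) (.c
  (.f 7 0 1602 1553 0) (.c (.v 5 1 0) (.c (.v 3 2 0) .e))))) (.c (.v 4 1 0) .e))))) .e))))) (.c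
  (.R (.c (.R (.c (.v 4 1 0) (.c (.R (.c (.f 17 0 1224 1224 1) (.c (.v 5 1 0) (.c (.f 14 0 1602
  1553 0) (.c (.f 9 0 202 1035 1) .e))))) (.c (.R (.c (.f 24 0 1112 720 1) (.c (.f 13 0 1602
  1553 0) (.c (.v 5 1 0) (.c (.v 1 3 0) .e))))) (.c (.v 2 2 0) .e))))) (.c (.R (.c (.R (.c (.v
  5 1 0) (.c (.f 28 0 1217 1217 1) (.c (.f 29 0 1602 1553 0) (.c (.f 19 0 209 1091 1) .e)))))
  (.c (.v 4 1 0) (.c (.R (.c (.f 33 0 1602 1553 0) (.c (.f 34 0 1091 209 1) (.c (.v 5 1 0) (.c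
  (.f 18 0 83 83 1) .e))))) (.c (.R (.c (.f 26 0 720 1112 1) (.c (.v 3 2 0) (.c (.f 25 0 531 90
  1) (.c (.v 5 1 0) .e))))) .e))))) (.c (.R (.c (.R (.c (.v 5 1 0) (.c (.f 11 0 1602 1553 0)
  (.c (.f 20 0 1049 706 1) (.c (.v 1 3 0) .e))))) (.c (.R (.c (.f 29 0 1672 1672 1) (.c (.v 5 1
  0) (.c (.f 32 0 1035 202 1) (.c (.f 30 0 139 139 1) .e))))) (.c (.v 4 1 0) (.c (.R (.c (.v 1
  3 0) (.c (.f 6 0 643 153 1) (.c (.v 3 2 0) (.c (.v 5 1 0) .e))))) .e))))) (.c (.v 3 1 0)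
  .e))))) .e))))) (.c (.R (.c (.R (.c (.v 3 1 0) (.c (.R (.c (.v 2 2 0) (.c (.v 4 1 0) (.c (.R
  (.c (.v 1 3 0) (.c (.f 38 0 1602 1553 0) (.c (.v 5 1 0) (.c (.f 24 0 1602 1553 0) .e))))) (.c
  (.R (.c (.f 5 0 1602 1553 0) (.c (.f 36 0 1602 1553 0) (.c (.f 17 0 1602 1553 0) (.c (.v 5 1
  0) .e))))) .e))))) (.c (.R (.c (.R (.c (.v 5 1 0) (.c (.v 1 3 0) (.c (.v 3 2 0) (.c (.f 3 0
  1602 1553 0) .e))))) (.c (.R (.c (.v 1 3 0) (.c (.v 5 1 0) (.c (.f 4 0 1602 1553 0) (.c (.f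
  20 0 1602 1553 0) .e))))) (.c (.v 4 1 0) (.c (.R (.c (.f 21 0 1602 1553 0) (.c (.f 28 0 1602
  1553 0) (.c (.f 2 0 1602 1553 0) (.c (.v 5 1 0) .e))))) .e))))) (.c (.R (.c (.R (.c (.v 5 1
  0) (.c (.f 16 0 1602 1553 0) (.c (.f 10 0 1602 1553 0) (.c (.v 3 2 0) .e))))) (.c (.R (.c (.f
  12 0 1602 1553 0) (.c (.v 5 1 0) (.c (.f 32 0 1602 1553 0) (.c (.f 2 0 202 1035 1) .e)))))
  (.c (.R (.c (.f 27 0 1602 1553 0) (.c (.f 34 0 1602 1553 0) (.c (.v 5 1 0) (.c (.f 23 0 1602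
  1553 0) .e))))) (.c (.v 4 1 0) .e))))) .e))))) (.c (.v 2 1 0) (.c (.v 0 2 0) (.c (.R (.c (.R
  (.c (.v 4 1 0) (.c (.R (.c (.f 2 0 1224 1224 1) (.c (.v 5 1 0) (.c (.f 32 0 1091 209 0) (.c
  (.f 12 0 1091 209 0) .e))))) (.c (.R (.c (.f 23 0 1091 209 0) (.c (.f 34 0 1091 209 0) (.c
  (.v 5 1 0) (.c (.f 27 0 1091 209 0) .e))))) (.c (.R (.c (.v 3 2 0) (.c (.f 16 0 1091 209 0)
  (.c (.f 10 0 1091 209 0) (.c (.v 5 1 0) .e))))) .e))))) (.c (.R (.c (.R (.c (.v 5 1 0) (.c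
  (.f 36 0 1091 209 0) (.c (.f 17 0 1091 209 0) (.c (.f 5 0 1091 209 0) .e))))) (.c (.v 4 1 0)
  (.c (.R (.c (.f 24 0 1091 209 0) (.c (.f 38 0 1091 209 0) (.c (.v 5 1 0) (.c (.v 1 3 0)
  .e))))) (.c (.v 2 2 0) .e))))) (.c (.R (.c (.R (.c (.v 5 1 0) (.c (.f 28 0 1091 209 0) (.c
  (.f 2 0 1091 209 0) (.c (.f 21 0 1091 209 0) .e))))) (.c (.R (.c (.f 20 0 1091 209 0) (.c (.v
  5 1 0) (.c (.f 4 0 1091 209 0) (.c (.v 1 3 0) .e))))) (.c (.v 4 1 0) (.c (.R (.c (.f 3 0 1091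
  209 0) (.c (.v 1 3 0) (.c (.v 3 2 0) (.c (.v 5 1 0) .e))))) .e))))) (.c (.v 3 1 0) .e)))))
  .e))))) (.c (.v 1 1 0) (.c (.R (.c (.R (.c (.v 3 1 0) (.c (.R (.c (.R (.c (.v 5 1 0) (.c (.v
  3 2 0) (.c (.f 25 0 1553 1602 1) (.c (.f 26 0 209 1091 1) .e))))) (.c (.v 4 1 0) (.c (.R (.c
  (.f 18 0 1616 1616 1) (.c (.f 34 0 1602 1553 1) (.c (.v 5 1 0) (.c (.f 33 0 1091 209 0)
  .e))))) (.c (.R (.c (.f 19 0 720 1112 1) (.c (.f 28 0 706 1049 1) (.c (.f 29 0 1091 209 0)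
  (.c (.v 5 1 0) .e))))) .e))))) (.c (.R (.c (.R (.c (.v 5 1 0) (.c (.f 6 0 1665 1665 1) (.c
  (.v 3 2 0) (.c (.v 1 3 0) .e))))) (.c (.R (.c (.f 30 0 1672 1672 1) (.c (.v 5 1 0) (.c (.f 32
  0 1546 1546 1) (.c (.f 29 0 139 139 1) .e))))) (.c (.v 4 1 0) (.c (.R (.c (.v 1 3 0) (.c (.f
  11 0 1091 209 0) (.c (.f 20 0 538 538 1) (.c (.v 5 1 0) .e))))) .e))))) (.c (.R (.c (.v 2 2
  0) (.c (.R (.c (.f 9 0 1224 1224 1) (.c (.v 5 1 0) (.c (.f 14 0 1091 209 0) (.c (.f 17 0 202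
  1035 1) .e))))) (.c (.R (.c (.v 1 3 0) (.c (.f 13 0 1091 209 0) (.c (.v 5 1 0) (.c (.f 24 0
  90 531 1) .e))))) (.c (.v 4 1 0) .e))))) .e))))) (.c (.R (.c (.R (.c (.v 4 1 0) (.c (.R (.c
  (.v 3 2 0) (.c (.v 5 1 0) (.c (.f 8 0 1091 209 0) (.c (.f 15 0 1091 209 0) .e))))) (.c (.R
  (.c (.f 27 0 1616 1616 1) (.c (.f 35 0 1091 209 0) (.c (.v 5 1 0) (.c (.f 18 0 1091 209 0)
  .e))))) (.c (.R (.c (.f 21 0 720 1112 1) (.c (.f 31 0 706 1049 1) (.c (.f 30 0 1091 209 0)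
  (.c (.v 5 1 0) .e))))) .e))))) (.c (.v 3 1 0) (.c (.R (.c (.R (.c (.v 5 1 0) (.c (.f 31 0
  1091 209 0) (.c (.f 12 0 1553 1602 1) (.c (.f 19 0 1091 209 0) .e))))) (.c (.R (.c (.f 1 0
  1091 209 0) (.c (.v 5 1 0) (.c (.v 3 2 0) (.c (.v 1 3 0) .e))))) (.c (.v 4 1 0) (.c (.v 0 3
  0) .e))))) (.c (.R (.c (.R (.c (.v 5 1 0) (.c (.f 0 0 1091 209 0) (.c (.f 9 0 1091 209 0) (.c
  (.f 5 0 209 1091 1) .e))))) (.c (.v 2 2 0) (.c (.v 0 3 0) (.c (.v 4 1 0) .e))))) .e))))) (.c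
  (.R (.c (.R (.c (.v 4 1 0) (.c (.R (.c (.f 10 0 1672 1672 1) (.c (.v 5 1 0) (.c (.f 8 0 1546
  1546 1) (.c (.f 25 0 1091 209 0) .e))))) (.c (.R (.c (.v 3 2 0) (.c (.f 7 0 1091 209 0) (.c
  (.v 5 1 0) (.c (.f 22 0 90 531 1) .e))))) (.c (.R (.c (.f 3 0 664 664 1) (.c (.f 6 0 1091 209
  0) (.c (.f 1 0 538 538 1) (.c (.v 5 1 0) .e))))) .e))))) (.c (.R (.c (.R (.c (.v 5 1 0) (.c
  (.f 16 0 1665 1665 1) (.c (.f 15 0 1553 1602 1) (.c (.f 26 0 1091 209 0) .e))))) (.c (.v 4 1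
  0) (.c (.R (.c (.f 22 0 1091 209 0) (.c (.v 3 2 0) (.c (.v 5 1 0) (.c (.f 37 0 1091 209 0)
  .e))))) (.c (.v 0 3 0) .e))))) (.c (.v 3 1 0) (.c (.v 1 2 0) .e))))) (.c (.v 2 1 0) .e)))))
  .e))))) (.c (.R (.c (.R (.c (.v 2 1 0) (.c (.R (.c (.R (.c (.v 4 1 0) (.c (.v 2 2 0) (.c (.R
  (.c (.f 5 0 1616 1616 1) (.c (.f 0 0 706 1049 0) (.c (.v 5 1 0) (.c (.f 9 0 706 1049 0)
  .e))))) (.c (.v 0 3 0) .e))))) (.c (.v 3 1 0) (.c (.R (.c (.R (.c (.v 5 1 0) (.c (.f 31 0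
  1665 1665 1) (.c (.f 21 0 1553 1602 1) (.c (.f 30 0 706 1049 0) .e))))) (.c (.R (.c (.f 15 0
  706 1049 0) (.c (.v 5 1 0) (.c (.v 3 2 0) (.c (.f 8 0 706 1049 0) .e))))) (.c (.v 4 1 0) (.c
  (.R (.c (.f 18 0 706 1049 0) (.c (.f 35 0 706 1049 0) (.c (.f 27 0 531 90 1) (.c (.v 5 1 0)
  .e))))) .e))))) (.c (.R (.c (.v 0 3 0) (.c (.R (.c (.v 1 3 0) (.c (.v 5 1 0) (.c (.f 1 0 706
  1049 0) (.c (.v 3 2 0) .e))))) (.c (.R (.c (.f 19 0 706 1049 0) (.c (.f 31 0 706 1049 0) (.c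
  (.v 5 1 0) (.c (.f 12 0 83 83 1) .e))))) (.c (.v 4 1 0) .e))))) .e))))) (.c (.R (.c (.R (.c
  (.v 4 1 0) (.c (.R (.c (.f 17 0 1672 1672 1) (.c (.v 5 1 0) (.c (.f 9 0 1546 1546 1) (.c (.f
  14 0 706 1049 0) .e))))) (.c (.v 2 2 0) (.c (.R (.c (.f 24 0 664 664 1) (.c (.f 13 0 706 1049
  0) (.c (.v 1 3 0) (.c (.v 5 1 0) .e))))) .e))))) (.c (.R (.c (.R (.c (.v 5 1 0) (.c (.f 28 0
  1665 1665 1) (.c (.f 19 0 1553 1602 1) (.c (.f 29 0 706 1049 0) .e))))) (.c (.v 4 1 0) (.c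
  (.R (.c (.f 26 0 1616 1616 1) (.c (.v 3 2 0) (.c (.v 5 1 0) (.c (.f 25 0 83 83 1) .e))))) (.c
  (.R (.c (.f 33 0 706 1049 0) (.c (.f 34 0 643 153 1) (.c (.f 18 0 531 90 1) (.c (.v 5 1 0)
  .e))))) .e))))) (.c (.v 3 1 0) (.c (.R (.c (.R (.c (.v 5 1 0) (.c (.f 11 0 706 1049 0) (.c
  (.v 1 3 0) (.c (.f 20 0 153 643 1) .e))))) (.c (.R (.c (.f 29 0 1224 1224 1) (.c (.v 5 1 0)
  (.c (.f 30 0 1035 202 1) (.c (.f 32 0 139 139 1) .e))))) (.c (.R (.c (.v 1 3 0) (.c (.f 6 0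
  1091 209 1) (.c (.v 5 1 0) (.c (.v 3 2 0) .e))))) (.c (.v 4 1 0) .e))))) .e))))) (.c (.R (.c
  (.v 1 2 0) (.c (.R (.c (.v 0 3 0) (.c (.v 4 1 0) (.c (.R (.c (.f 26 0 706 1049 0) (.c (.f 16
  0 1091 209 1) (.c (.v 5 1 0) (.c (.f 15 0 83 83 1) .e))))) (.c (.R (.c (.f 37 0 706 1049 0)
  (.c (.v 3 2 0) (.c (.f 22 0 706 1049 0) (.c (.v 5 1 0) .e))))) .e))))) (.c (.R (.c (.R (.c
  (.v 5 1 0) (.c (.f 6 0 706 1049 0) (.c (.f 3 0 1049 706 1) (.c (.f 1 0 153 643 1) .e))))) (.c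
  (.R (.c (.f 25 0 706 1049 0) (.c (.v 5 1 0) (.c (.f 10 0 1035 202 1) (.c (.f 8 0 139 139 1)
  .e))))) (.c (.v 4 1 0) (.c (.R (.c (.f 22 0 664 664 1) (.c (.f 7 0 706 1049 0) (.c (.v 3 2 0)
  (.c (.v 5 1 0) .e))))) .e))))) (.c (.v 3 1 0) .e))))) .e))))) (.c (.R (.c (.R (.c (.v 3 1 0)
  (.c (.R (.c (.v 2 2 0) (.c (.v 4 1 0) (.c (.R (.c (.f 5 0 706 1049 0) (.c (.f 36 0 706 1049
  0) (.c (.v 5 1 0) (.c (.f 17 0 706 1049 0) .e))))) (.c (.R (.c (.v 1 3 0) (.c (.f 38 0 706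
  1049 0) (.c (.f 24 0 706 1049 0) (.c (.v 5 1 0) .e))))) .e))))) (.c (.R (.c (.R (.c (.v 5 1
  0) (.c (.f 16 0 706 1049 0) (.c (.v 3 2 0) (.c (.f 10 0 706 1049 0) .e))))) (.c (.R (.c (.f
  12 0 706 1049 0) (.c (.v 5 1 0) (.c (.f 2 0 1546 1546 1) (.c (.f 32 0 706 1049 0) .e))))) (.c
  (.v 4 1 0) (.c (.R (.c (.f 27 0 706 1049 0) (.c (.f 34 0 706 1049 0) (.c (.f 23 0 706 1049 0)
  (.c (.v 5 1 0) .e))))) .e))))) (.c (.R (.c (.R (.c (.v 5 1 0) (.c (.v 1 3 0) (.c (.f 3 0 706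
  1049 0) (.c (.v 3 2 0) .e))))) (.c (.R (.c (.v 1 3 0) (.c (.v 5 1 0) (.c (.f 20 0 706 1049 0)
  (.c (.f 4 0 706 1049 0) .e))))) (.c (.R (.c (.f 21 0 706 1049 0) (.c (.f 28 0 706 1049 0) (.c
  (.v 5 1 0) (.c (.f 2 0 706 1049 0) .e))))) (.c (.v 4 1 0) .e))))) .e))))) (.c (.v 2 1 0) (.c
  (.R (.c (.R (.c (.v 4 1 0) (.c (.R (.c (.f 2 0 1672 1672 1) (.c (.v 5 1 0) (.c (.f 12 0 643
  153 0) (.c (.f 32 0 643 153 0) .e))))) (.c (.R (.c (.v 3 2 0) (.c (.f 16 0 643 153 0) (.c (.v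
  5 1 0) (.c (.f 10 0 643 153 0) .e))))) (.c (.R (.c (.f 23 0 643 153 0) (.c (.f 34 0 643 153
  0) (.c (.f 27 0 643 153 0) (.c (.v 5 1 0) .e))))) .e))))) (.c (.R (.c (.R (.c (.v 5 1 0) (.c
  (.f 36 0 643 153 0) (.c (.f 5 0 643 153 0) (.c (.f 17 0 643 153 0) .e))))) (.c (.v 4 1 0) (.c
  (.v 2 2 0) (.c (.R (.c (.f 24 0 643 153 0) (.c (.f 38 0 643 153 0) (.c (.v 1 3 0) (.c (.v 5 1
  0) .e))))) .e))))) (.c (.v 3 1 0) (.c (.R (.c (.R (.c (.v 5 1 0) (.c (.f 28 0 643 153 0) (.c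
  (.f 21 0 643 153 0) (.c (.f 2 0 643 153 0) .e))))) (.c (.R (.c (.f 20 0 643 153 0) (.c (.v 5
  1 0) (.c (.v 1 3 0) (.c (.f 4 0 643 153 0) .e))))) (.c (.R (.c (.f 3 0 643 153 0) (.c (.v 1 3
  0) (.c (.v 5 1 0) (.c (.v 3 2 0) .e))))) (.c (.v 4 1 0) .e))))) .e))))) (.c (.v 0 2 0)
  .e))))) (.c (.R (.c (.R (.c (.v 3 1 0) (.c (.R (.c (.R (.c (.v 5 1 0) (.c (.v 3 2 0) (.c (.f
  26 0 1553 1602 1) (.c (.f 25 0 209 1091 1) .e))))) (.c (.v 4 1 0) (.c (.R (.c (.f 19 0 1616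
  1616 1) (.c (.f 28 0 1602 1553 1) (.c (.v 5 1 0) (.c (.f 29 0 643 153 0) .e))))) (.c (.R (.c
  (.f 18 0 720 1112 1) (.c (.f 34 0 706 1049 1) (.c (.f 33 0 643 153 0) (.c (.v 5 1 0) .e)))))
  .e))))) (.c (.R (.c (.v 2 2 0) (.c (.R (.c (.f 9 0 1672 1672 1) (.c (.v 5 1 0) (.c (.f 17 0
  1546 1546 1) (.c (.f 14 0 643 153 0) .e))))) (.c (.v 4 1 0) (.c (.R (.c (.v 1 3 0) (.c (.f 13
  0 643 153 0) (.c (.f 24 0 538 538 1) (.c (.v 5 1 0) .e))))) .e))))) (.c (.R (.c (.R (.c (.v 5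
  1 0) (.c (.f 6 0 1217 1217 1) (.c (.v 1 3 0) (.c (.v 3 2 0) .e))))) (.c (.R (.c (.f 30 0 1224
  1224 1) (.c (.v 5 1 0) (.c (.f 29 0 1035 202 1) (.c (.f 32 0 202 1035 1) .e))))) (.c (.R (.c
  (.v 1 3 0) (.c (.f 11 0 643 153 0) (.c (.v 5 1 0) (.c (.f 20 0 90 531 1) .e))))) (.c (.v 4 1
  0) .e))))) .e))))) (.c (.R (.c (.R (.c (.v 4 1 0) (.c (.R (.c (.v 3 2 0) (.c (.v 5 1 0) (.c
  (.f 15 0 643 153 0) (.c (.f 8 0 643 153 0) .e))))) (.c (.R (.c (.f 21 0 1616 1616 1) (.c (.f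
  31 0 1602 1553 1) (.c (.v 5 1 0) (.c (.f 30 0 643 153 0) .e))))) (.c (.R (.c (.f 27 0 720
  1112 1) (.c (.f 35 0 643 153 0) (.c (.f 18 0 643 153 0) (.c (.v 5 1 0) .e))))) .e))))) (.c
  (.v 3 1 0) (.c (.R (.c (.R (.c (.v 5 1 0) (.c (.f 0 0 643 153 0) (.c (.f 5 0 1553 1602 1) (.c
  (.f 9 0 643 153 0) .e))))) (.c (.v 2 2 0) (.c (.v 4 1 0) (.c (.v 0 3 0) .e))))) (.c (.R (.c
  (.R (.c (.v 5 1 0) (.c (.f 31 0 643 153 0) (.c (.f 19 0 643 153 0) (.c (.f 12 0 209 1091 1)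
  .e))))) (.c (.R (.c (.f 1 0 643 153 0) (.c (.v 5 1 0) (.c (.v 1 3 0) (.c (.v 3 2 0) .e)))))
  (.c (.v 0 3 0) (.c (.v 4 1 0) .e))))) .e))))) (.c (.v 2 1 0) (.c (.R (.c (.R (.c (.v 4 1 0)
  (.c (.R (.c (.f 10 0 1224 1224 1) (.c (.v 5 1 0) (.c (.f 25 0 643 153 0) (.c (.f 8 0 202 1035
  1) .e))))) (.c (.R (.c (.f 3 0 1112 720 1) (.c (.f 6 0 643 153 0) (.c (.v 5 1 0) (.c (.f 1 0
  90 531 1) .e))))) (.c (.R (.c (.v 3 2 0) (.c (.f 7 0 643 153 0) (.c (.f 22 0 538 538 1) (.c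
  (.v 5 1 0) .e))))) .e))))) (.c (.R (.c (.R (.c (.v 5 1 0) (.c (.f 16 0 1217 1217 1) (.c (.f
  26 0 643 153 0) (.c (.f 15 0 209 1091 1) .e))))) (.c (.v 4 1 0) (.c (.v 0 3 0) (.c (.R (.c
  (.f 22 0 643 153 0) (.c (.v 3 2 0) (.c (.f 37 0 643 153 0) (.c (.v 5 1 0) .e))))) .e))))) (.c
  (.v 1 2 0) (.c (.v 3 1 0) .e))))) .e))))) (.c (.v 1 1 0) .e))))) .e))))) (.c (.R (.c (.R (.c
  (.v 1 1 0) (.c (.R (.c (.R (.c (.v 3 1 0) (.c (.v 1 2 0) (.c (.R (.c (.R (.c (.v 5 1 0) (.c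
  (.f 37 0 1553 1602 0) (.c (.v 3 2 0) (.c (.f 22 0 1553 1602 0) .e))))) (.c (.v 0 3 0) (.c (.v
  4 1 0) (.c (.R (.c (.f 15 0 664 664 1) (.c (.f 26 0 1553 1602 0) (.c (.f 16 0 538 538 1) (.c
  (.v 5 1 0) .e))))) .e))))) (.c (.R (.c (.R (.c (.v 5 1 0) (.c (.f 22 0 1217 1217 1) (.c (.f 7
  0 1553 1602 0) (.c (.v 3 2 0) .e))))) (.c (.R (.c (.f 1 0 1224 1224 1) (.c (.v 5 1 0) (.c (.f
  6 0 1553 1602 0) (.c (.f 3 0 202 1035 1) .e))))) (.c (.R (.c (.f 8 0 1112 720 1) (.c (.f 25 0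
  1553 1602 0) (.c (.v 5 1 0) (.c (.f 10 0 90 531 1) .e))))) (.c (.v 4 1 0) .e))))) .e))))) (.c
  (.v 2 1 0) (.c (.R (.c (.R (.c (.v 4 1 0) (.c (.v 0 3 0) (.c (.R (.c (.v 3 2 0) (.c (.v 1 3
  0) (.c (.v 5 1 0) (.c (.f 1 0 1553 1602 0) .e))))) (.c (.R (.c (.f 12 0 664 664 1) (.c (.f 19
  0 1553 1602 0) (.c (.f 31 0 1553 1602 0) (.c (.v 5 1 0) .e))))) .e))))) (.c (.R (.c (.v 0 3
  0) (.c (.v 4 1 0) (.c (.v 2 2 0) (.c (.R (.c (.f 9 0 1553 1602 0) (.c (.f 5 0 643 153 1) (.c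
  (.f 0 0 1553 1602 0) (.c (.v 5 1 0) .e))))) .e))))) (.c (.v 3 1 0) (.c (.R (.c (.R (.c (.v 5
  1 0) (.c (.f 18 0 1553 1602 0) (.c (.f 35 0 1553 1602 0) (.c (.f 27 0 153 643 1) .e))))) (.c
  (.R (.c (.f 30 0 1553 1602 0) (.c (.v 5 1 0) (.c (.f 31 0 1035 202 1) (.c (.f 21 0 139 139 1)
  .e))))) (.c (.R (.c (.f 8 0 1553 1602 0) (.c (.f 15 0 1553 1602 0) (.c (.v 5 1 0) (.c (.v 3 2
  0) .e))))) (.c (.v 4 1 0) .e))))) .e))))) (.c (.R (.c (.R (.c (.v 4 1 0) (.c (.R (.c (.f 20 0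
  1224 1224 1) (.c (.v 5 1 0) (.c (.f 11 0 1553 1602 0) (.c (.v 1 3 0) .e))))) (.c (.R (.c (.f
  32 0 1112 720 1) (.c (.f 29 0 1602 1553 1) (.c (.v 5 1 0) (.c (.f 30 0 90 531 1) .e))))) (.c
  (.R (.c (.v 3 2 0) (.c (.v 1 3 0) (.c (.f 6 0 538 538 1) (.c (.v 5 1 0) .e))))) .e))))) (.c
  (.R (.c (.R (.c (.v 5 1 0) (.c (.f 24 0 1217 1217 1) (.c (.f 13 0 1553 1602 0) (.c (.v 1 3 0)
  .e))))) (.c (.v 4 1 0) (.c (.R (.c (.f 14 0 1553 1602 0) (.c (.f 17 0 1091 209 1) (.c (.v 5 1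
  0) (.c (.f 9 0 83 83 1) .e))))) (.c (.v 2 2 0) .e))))) (.c (.R (.c (.R (.c (.v 5 1 0) (.c (.f
  33 0 1553 1602 0) (.c (.f 34 0 1049 706 1) (.c (.f 18 0 153 643 1) .e))))) (.c (.R (.c (.f 29
  0 1553 1602 0) (.c (.v 5 1 0) (.c (.f 28 0 1035 202 1) (.c (.f 19 0 139 139 1) .e))))) (.c
  (.v 4 1 0) (.c (.R (.c (.f 25 0 664 664 1) (.c (.f 26 0 643 153 1) (.c (.v 3 2 0) (.c (.v 5 1
  0) .e))))) .e))))) (.c (.v 3 1 0) .e))))) .e))))) (.c (.R (.c (.v 0 2 0) (.c (.R (.c (.R (.c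
  (.v 4 1 0) (.c (.R (.c (.v 3 2 0) (.c (.v 5 1 0) (.c (.v 1 3 0) (.c (.f 3 0 1553 1602 0)
  .e))))) (.c (.R (.c (.f 4 0 1553 1602 0) (.c (.v 1 3 0) (.c (.v 5 1 0) (.c (.f 20 0 1553 1602
  0) .e))))) (.c (.R (.c (.f 2 0 1553 1602 0) (.c (.f 21 0 1553 1602 0) (.c (.f 28 0 1553 1602
  0) (.c (.v 5 1 0) .e))))) .e))))) (.c (.v 3 1 0) (.c (.R (.c (.R (.c (.v 5 1 0) (.c (.v 1 3
  0) (.c (.f 38 0 1553 1602 0) (.c (.f 24 0 1553 1602 0) .e))))) (.c (.v 2 2 0) (.c (.v 4 1 0)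
  (.c (.R (.c (.f 17 0 1553 1602 0) (.c (.f 5 0 1553 1602 0) (.c (.f 36 0 1553 1602 0) (.c (.v
  5 1 0) .e))))) .e))))) (.c (.R (.c (.R (.c (.v 5 1 0) (.c (.f 27 0 1553 1602 0) (.c (.f 34 0
  1553 1602 0) (.c (.f 23 0 1553 1602 0) .e))))) (.c (.R (.c (.f 10 0 1553 1602 0) (.c (.v 5 1
  0) (.c (.f 16 0 1553 1602 0) (.c (.v 3 2 0) .e))))) (.c (.R (.c (.f 32 0 1553 1602 0) (.c (.f
  12 0 1553 1602 0) (.c (.v 5 1 0) (.c (.f 2 0 83 83 1) .e))))) (.c (.v 4 1 0) .e))))) .e)))))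
  (.c (.v 2 1 0) (.c (.R (.c (.R (.c (.v 4 1 0) (.c (.R (.c (.f 2 0 1049 706 0) (.c (.v 5 1 0)
  (.c (.f 28 0 1049 706 0) (.c (.f 21 0 1049 706 0) .e))))) (.c (.R (.c (.f 4 0 1049 706 0) (.c
  (.f 20 0 1049 706 0) (.c (.v 5 1 0) (.c (.v 1 3 0) .e))))) (.c (.R (.c (.v 3 2 0) (.c (.f 3 0
  1049 706 0) (.c (.v 1 3 0) (.c (.v 5 1 0) .e))))) .e))))) (.c (.R (.c (.R (.c (.v 5 1 0) (.c
  (.f 23 0 1049 706 0) (.c (.f 34 0 1049 706 0) (.c (.f 27 0 1049 706 0) .e))))) (.c (.v 4 1 0)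
  (.c (.R (.c (.f 32 0 1049 706 0) (.c (.f 2 0 1091 209 1) (.c (.v 5 1 0) (.c (.f 12 0 1049 706
  0) .e))))) (.c (.R (.c (.f 10 0 1049 706 0) (.c (.v 3 2 0) (.c (.f 16 0 1049 706 0) (.c (.v 5
  1 0) .e))))) .e))))) (.c (.R (.c (.R (.c (.v 5 1 0) (.c (.f 24 0 1049 706 0) (.c (.f 38 0
  1049 706 0) (.c (.v 1 3 0) .e))))) (.c (.R (.c (.f 17 0 1049 706 0) (.c (.v 5 1 0) (.c (.f 36
  0 1049 706 0) (.c (.f 5 0 1049 706 0) .e))))) (.c (.v 4 1 0) (.c (.v 2 2 0) .e))))) (.c (.v 3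
  1 0) .e))))) .e))))) (.c (.R (.c (.R (.c (.v 3 1 0) (.c (.R (.c (.R (.c (.v 5 1 0) (.c (.v 3
  2 0) (.c (.f 7 0 1049 706 0) (.c (.f 22 0 209 1091 1) .e))))) (.c (.v 4 1 0) (.c (.R (.c (.f
  8 0 1616 1616 1) (.c (.f 10 0 1602 1553 1) (.c (.v 5 1 0) (.c (.f 25 0 1049 706 0) .e)))))
  (.c (.R (.c (.f 1 0 720 1112 1) (.c (.f 3 0 706 1049 1) (.c (.f 6 0 1049 706 0) (.c (.v 5 1
  0) .e))))) .e))))) (.c (.R (.c (.R (.c (.v 5 1 0) (.c (.f 22 0 1049 706 0) (.c (.v 3 2 0) (.c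
  (.f 37 0 1049 706 0) .e))))) (.c (.R (.c (.f 15 0 1672 1672 1) (.c (.v 5 1 0) (.c (.f 16 0
  1546 1546 1) (.c (.f 26 0 1049 706 0) .e))))) (.c (.v 4 1 0) (.c (.v 0 3 0) .e))))) (.c (.v 1
  2 0) .e))))) (.c (.R (.c (.R (.c (.v 4 1 0) (.c (.R (.c (.v 3 2 0) (.c (.v 5 1 0) (.c (.f 6 0
  1546 1546 1) (.c (.v 1 3 0) .e))))) (.c (.R (.c (.f 32 0 1616 1616 1) (.c (.f 30 0 1602 1553
  1) (.c (.v 5 1 0) (.c (.f 29 0 90 531 1) .e))))) (.c (.R (.c (.f 20 0 720 1112 1) (.c (.v 1 3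
  0) (.c (.f 11 0 1049 706 0) (.c (.v 5 1 0) .e))))) .e))))) (.c (.v 3 1 0) (.c (.R (.c (.R (.c
  (.v 5 1 0) (.c (.f 18 0 1665 1665 1) (.c (.f 34 0 1553 1602 1) (.c (.f 33 0 1049 706 0)
  .e))))) (.c (.R (.c (.f 25 0 1672 1672 1) (.c (.v 5 1 0) (.c (.v 3 2 0) (.c (.f 26 0 139 139
  1) .e))))) (.c (.v 4 1 0) (.c (.R (.c (.f 29 0 1049 706 0) (.c (.f 19 0 643 153 1) (.c (.f 28
  0 531 90 1) (.c (.v 5 1 0) .e))))) .e))))) (.c (.R (.c (.R (.c (.v 5 1 0) (.c (.v 1 3 0) (.c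
  (.f 13 0 1049 706 0) (.c (.f 24 0 209 1091 1) .e))))) (.c (.v 2 2 0) (.c (.R (.c (.f 14 0
  1049 706 0) (.c (.f 9 0 1091 209 1) (.c (.v 5 1 0) (.c (.f 17 0 83 83 1) .e))))) (.c (.v 4 1
  0) .e))))) .e))))) (.c (.R (.c (.R (.c (.v 4 1 0) (.c (.R (.c (.f 12 0 1672 1672 1) (.c (.v 5
  1 0) (.c (.f 31 0 1049 706 0) (.c (.f 19 0 1049 706 0) .e))))) (.c (.R (.c (.v 3 2 0) (.c (.f
  1 0 1049 706 0) (.c (.v 5 1 0) (.c (.v 1 3 0) .e))))) (.c (.v 0 3 0) .e))))) (.c (.R (.c (.R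
  (.c (.v 5 1 0) (.c (.f 27 0 1665 1665 1) (.c (.f 35 0 1049 706 0) (.c (.f 18 0 1049 706 0)
  .e))))) (.c (.v 4 1 0) (.c (.R (.c (.f 8 0 1049 706 0) (.c (.v 3 2 0) (.c (.v 5 1 0) (.c (.f
  15 0 1049 706 0) .e))))) (.c (.R (.c (.f 30 0 1049 706 0) (.c (.f 21 0 643 153 1) (.c (.f 31
  0 531 90 1) (.c (.v 5 1 0) .e))))) .e))))) (.c (.v 3 1 0) (.c (.R (.c (.v 0 3 0) (.c (.R (.c
  (.f 9 0 1049 706 0) (.c (.v 5 1 0) (.c (.f 0 0 1049 706 0) (.c (.f 5 0 139 139 1) .e))))) (.c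
  (.v 2 2 0) (.c (.v 4 1 0) .e))))) .e))))) (.c (.v 2 1 0) .e))))) .e))))) (.c (.R (.c (.R (.c
  (.v 2 1 0) (.c (.R (.c (.v 1 2 0) (.c (.v 3 1 0) (.c (.R (.c (.v 0 3 0) (.c (.R (.c (.f 37 0
  1546 1546 0) (.c (.v 5 1 0) (.c (.v 3 2 0) (.c (.f 22 0 1546 1546 0) .e))))) (.c (.v 4 1 0)
  (.c (.R (.c (.f 26 0 1546 1546 0) (.c (.f 15 0 643 153 1) (.c (.f 16 0 531 90 1) (.c (.v 5 1
  0) .e))))) .e))))) (.c (.R (.c (.R (.c (.v 5 1 0) (.c (.f 1 0 1217 1217 1) (.c (.f 6 0 1546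
  1546 0) (.c (.f 3 0 209 1091 1) .e))))) (.c (.R (.c (.f 22 0 1224 1224 1) (.c (.v 5 1 0) (.c
  (.f 7 0 1546 1546 0) (.c (.v 3 2 0) .e))))) (.c (.R (.c (.f 25 0 1546 1546 0) (.c (.f 8 0
  1091 209 1) (.c (.v 5 1 0) (.c (.f 10 0 83 83 1) .e))))) (.c (.v 4 1 0) .e))))) .e))))) (.c
  (.R (.c (.R (.c (.v 4 1 0) (.c (.v 0 3 0) (.c (.v 2 2 0) (.c (.R (.c (.f 5 0 664 664 1) (.c
  (.f 9 0 1546 1546 0) (.c (.f 0 0 1546 1546 0) (.c (.v 5 1 0) .e))))) .e))))) (.c (.R (.c (.v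
  0 3 0) (.c (.v 4 1 0) (.c (.R (.c (.v 1 3 0) (.c (.v 3 2 0) (.c (.v 5 1 0) (.c (.f 1 0 1546
  1546 0) .e))))) (.c (.R (.c (.f 19 0 1546 1546 0) (.c (.f 12 0 643 153 1) (.c (.f 31 0 1546
  1546 0) (.c (.v 5 1 0) .e))))) .e))))) (.c (.v 3 1 0) (.c (.R (.c (.R (.c (.v 5 1 0) (.c (.f
  30 0 1546 1546 0) (.c (.f 31 0 1049 706 1) (.c (.f 21 0 153 643 1) .e))))) (.c (.R (.c (.f 18
  0 1546 1546 0) (.c (.v 5 1 0) (.c (.f 35 0 1546 1546 0) (.c (.f 27 0 139 139 1) .e))))) (.c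
  (.R (.c (.f 15 0 1546 1546 0) (.c (.f 8 0 1546 1546 0) (.c (.v 5 1 0) (.c (.v 3 2 0) .e)))))
  (.c (.v 4 1 0) .e))))) .e))))) (.c (.R (.c (.R (.c (.v 4 1 0) (.c (.R (.c (.f 24 0 1224 1224
  1) (.c (.v 5 1 0) (.c (.f 13 0 1546 1546 0) (.c (.v 1 3 0) .e))))) (.c (.R (.c (.f 17 0 1112
  720 1) (.c (.f 14 0 1546 1546 0) (.c (.v 5 1 0) (.c (.f 9 0 90 531 1) .e))))) (.c (.v 2 2 0)
  .e))))) (.c (.R (.c (.R (.c (.v 5 1 0) (.c (.f 20 0 1217 1217 1) (.c (.f 11 0 1546 1546 0)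
  (.c (.v 1 3 0) .e))))) (.c (.v 4 1 0) (.c (.R (.c (.f 29 0 1616 1616 1) (.c (.f 32 0 1091 209
  1) (.c (.v 5 1 0) (.c (.f 30 0 83 83 1) .e))))) (.c (.R (.c (.v 1 3 0) (.c (.v 3 2 0) (.c (.f
  6 0 531 90 1) (.c (.v 5 1 0) .e))))) .e))))) (.c (.R (.c (.R (.c (.v 5 1 0) (.c (.f 29 0 1546
  1546 0) (.c (.f 28 0 1049 706 1) (.c (.f 19 0 153 643 1) .e))))) (.c (.R (.c (.f 33 0 1546
  1546 0) (.c (.v 5 1 0) (.c (.f 34 0 1035 202 1) (.c (.f 18 0 139 139 1) .e))))) (.c (.v 4 1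
  0) (.c (.R (.c (.f 26 0 664 664 1) (.c (.f 25 0 643 153 1) (.c (.v 3 2 0) (.c (.v 5 1 0)
  .e))))) .e))))) (.c (.v 3 1 0) .e))))) .e))))) (.c (.v 1 1 0) (.c (.R (.c (.R (.c (.v 3 1 0)
  (.c (.R (.c (.R (.c (.v 5 1 0) (.c (.v 3 2 0) (.c (.v 1 3 0) (.c (.f 3 0 1546 1546 0) .e)))))
  (.c (.v 4 1 0) (.c (.R (.c (.v 1 3 0) (.c (.f 4 0 1546 1546 0) (.c (.v 5 1 0) (.c (.f 20 0
  1546 1546 0) .e))))) (.c (.R (.c (.f 21 0 1546 1546 0) (.c (.f 2 0 1546 1546 0) (.c (.f 28 0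
  1546 1546 0) (.c (.v 5 1 0) .e))))) .e))))) (.c (.R (.c (.v 2 2 0) (.c (.R (.c (.v 1 3 0) (.c
  (.v 5 1 0) (.c (.f 38 0 1546 1546 0) (.c (.f 24 0 1546 1546 0) .e))))) (.c (.v 4 1 0) (.c (.R
  (.c (.f 5 0 1546 1546 0) (.c (.f 17 0 1546 1546 0) (.c (.f 36 0 1546 1546 0) (.c (.v 5 1 0)
  .e))))) .e))))) (.c (.R (.c (.R (.c (.v 5 1 0) (.c (.f 10 0 1546 1546 0) (.c (.f 16 0 1546
  1546 0) (.c (.v 3 2 0) .e))))) (.c (.R (.c (.f 27 0 1546 1546 0) (.c (.v 5 1 0) (.c (.f 34 0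
  1546 1546 0) (.c (.f 23 0 1546 1546 0) .e))))) (.c (.R (.c (.f 12 0 1546 1546 0) (.c (.f 32 0
  1546 1546 0) (.c (.v 5 1 0) (.c (.f 2 0 90 531 1) .e))))) (.c (.v 4 1 0) .e))))) .e))))) (.c
  (.v 0 2 0) (.c (.v 2 1 0) (.c (.R (.c (.R (.c (.v 4 1 0) (.c (.R (.c (.f 23 0 1035 202 0) (.c
  (.v 5 1 0) (.c (.f 34 0 1035 202 0) (.c (.f 27 0 1035 202 0) .e))))) (.c (.R (.c (.f 2 0 1112
  720 1) (.c (.f 32 0 1035 202 0) (.c (.v 5 1 0) (.c (.f 12 0 1035 202 0) .e))))) (.c (.R (.c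
  (.v 3 2 0) (.c (.f 10 0 1035 202 0) (.c (.f 16 0 1035 202 0) (.c (.v 5 1 0) .e))))) .e)))))
  (.c (.R (.c (.R (.c (.v 5 1 0) (.c (.f 2 0 1035 202 0) (.c (.f 28 0 1035 202 0) (.c (.f 21 0
  1035 202 0) .e))))) (.c (.v 4 1 0) (.c (.R (.c (.f 20 0 1035 202 0) (.c (.f 4 0 1035 202 0)
  (.c (.v 5 1 0) (.c (.v 1 3 0) .e))))) (.c (.R (.c (.f 3 0 1035 202 0) (.c (.v 3 2 0) (.c (.v
  1 3 0) (.c (.v 5 1 0) .e))))) .e))))) (.c (.R (.c (.R (.c (.v 5 1 0) (.c (.f 17 0 1035 202 0)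
  (.c (.f 36 0 1035 202 0) (.c (.f 5 0 1035 202 0) .e))))) (.c (.R (.c (.f 24 0 1035 202 0) (.c
  (.v 5 1 0) (.c (.f 38 0 1035 202 0) (.c (.v 1 3 0) .e))))) (.c (.v 4 1 0) (.c (.v 2 2 0)
  .e))))) (.c (.v 3 1 0) .e))))) .e))))) (.c (.R (.c (.R (.c (.v 3 1 0) (.c (.R (.c (.R (.c (.v
  5 1 0) (.c (.v 3 2 0) (.c (.f 6 0 1553 1602 1) (.c (.v 1 3 0) .e))))) (.c (.v 4 1 0) (.c (.R
  (.c (.f 30 0 1616 1616 1) (.c (.f 32 0 1602 1553 1) (.c (.v 5 1 0) (.c (.f 29 0 83 83 1)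
  .e))))) (.c (.R (.c (.v 1 3 0) (.c (.f 20 0 706 1049 1) (.c (.f 11 0 1035 202 0) (.c (.v 5 1
  0) .e))))) .e))))) (.c (.R (.c (.R (.c (.v 5 1 0) (.c (.f 25 0 1665 1665 1) (.c (.v 3 2 0)
  (.c (.f 26 0 153 643 1) .e))))) (.c (.R (.c (.f 18 0 1672 1672 1) (.c (.v 5 1 0) (.c (.f 34 0
  1546 1546 1) (.c (.f 33 0 1035 202 0) .e))))) (.c (.v 4 1 0) (.c (.R (.c (.f 19 0 664 664 1)
  (.c (.f 29 0 1035 202 0) (.c (.f 28 0 538 538 1) (.c (.v 5 1 0) .e))))) .e))))) (.c (.R (.c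
  (.v 2 2 0) (.c (.R (.c (.v 1 3 0) (.c (.v 5 1 0) (.c (.f 13 0 1035 202 0) (.c (.f 24 0 202
  1035 1) .e))))) (.c (.R (.c (.f 9 0 1112 720 1) (.c (.f 14 0 1035 202 0) (.c (.v 5 1 0) (.c
  (.f 17 0 90 531 1) .e))))) (.c (.v 4 1 0) .e))))) .e))))) (.c (.R (.c (.R (.c (.v 4 1 0) (.c
  (.R (.c (.v 3 2 0) (.c (.v 5 1 0) (.c (.f 7 0 1035 202 0) (.c (.f 22 0 202 1035 1) .e)))))
  (.c (.R (.c (.f 10 0 1616 1616 1) (.c (.f 8 0 1602 1553 1) (.c (.v 5 1 0) (.c (.f 25 0 1035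
  202 0) .e))))) (.c (.R (.c (.f 3 0 720 1112 1) (.c (.f 1 0 706 1049 1) (.c (.f 6 0 1035 202
  0) (.c (.v 5 1 0) .e))))) .e))))) (.c (.v 3 1 0) (.c (.R (.c (.R (.c (.v 5 1 0) (.c (.f 15 0
  1665 1665 1) (.c (.f 16 0 1553 1602 1) (.c (.f 26 0 1035 202 0) .e))))) (.c (.R (.c (.f 22 0
  1035 202 0) (.c (.v 5 1 0) (.c (.v 3 2 0) (.c (.f 37 0 1035 202 0) .e))))) (.c (.v 4 1 0) (.c
  (.v 0 3 0) .e))))) (.c (.v 1 2 0) .e))))) (.c (.R (.c (.R (.c (.v 4 1 0) (.c (.R (.c (.f 27 0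
  1672 1672 1) (.c (.v 5 1 0) (.c (.f 35 0 1035 202 0) (.c (.f 18 0 1035 202 0) .e))))) (.c (.R
  (.c (.v 3 2 0) (.c (.f 8 0 1035 202 0) (.c (.v 5 1 0) (.c (.f 15 0 1035 202 0) .e))))) (.c
  (.R (.c (.f 21 0 664 664 1) (.c (.f 30 0 1035 202 0) (.c (.f 31 0 538 538 1) (.c (.v 5 1 0)
  .e))))) .e))))) (.c (.R (.c (.R (.c (.v 5 1 0) (.c (.f 12 0 1665 1665 1) (.c (.f 31 0 1035
  202 0) (.c (.f 19 0 1035 202 0) .e))))) (.c (.v 4 1 0) (.c (.R (.c (.f 1 0 1035 202 0) (.c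
  (.v 3 2 0) (.c (.v 5 1 0) (.c (.v 1 3 0) .e))))) (.c (.v 0 3 0) .e))))) (.c (.v 3 1 0) (.c
  (.R (.c (.R (.c (.v 5 1 0) (.c (.f 9 0 1035 202 0) (.c (.f 0 0 1035 202 0) (.c (.f 5 0 153
  643 1) .e))))) (.c (.v 0 3 0) (.c (.v 2 2 0) (.c (.v 4 1 0) .e))))) .e))))) (.c (.v 2 1 0)
  .e))))) .e))))) (.c (.v 0 1 0) (.c (.R (.c (.R (.c (.v 2 1 0) (.c (.R (.c (.R (.c (.v 4 1 0)
  (.c (.v 2 2 0) (.c (.R (.c (.f 17 0 1616 1616 1) (.c (.f 9 0 1602 1553 1) (.c (.v 5 1 0) (.c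
  (.f 14 0 538 538 0) .e))))) (.c (.R (.c (.f 24 0 720 1112 1) (.c (.v 1 3 0) (.c (.f 13 0 538
  538 0) (.c (.v 5 1 0) .e))))) .e))))) (.c (.v 3 1 0) (.c (.R (.c (.R (.c (.v 5 1 0) (.c (.f
  19 0 1665 1665 1) (.c (.f 28 0 1553 1602 1) (.c (.f 29 0 538 538 0) .e))))) (.c (.R (.c (.f
  26 0 1672 1672 1) (.c (.v 5 1 0) (.c (.v 3 2 0) (.c (.f 25 0 139 139 1) .e))))) (.c (.v 4 1
  0) (.c (.R (.c (.f 33 0 538 538 0) (.c (.f 18 0 643 153 1) (.c (.f 34 0 531 90 1) (.c (.v 5 1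
  0) .e))))) .e))))) (.c (.R (.c (.R (.c (.v 5 1 0) (.c (.v 1 3 0) (.c (.f 11 0 538 538 0) (.c
  (.f 20 0 209 1091 1) .e))))) (.c (.R (.c (.v 1 3 0) (.c (.v 5 1 0) (.c (.f 6 0 1035 202 1)
  (.c (.v 3 2 0) .e))))) (.c (.R (.c (.f 29 0 1112 720 1) (.c (.f 30 0 1091 209 1) (.c (.v 5 1
  0) (.c (.f 32 0 83 83 1) .e))))) (.c (.v 4 1 0) .e))))) .e))))) (.c (.R (.c (.R (.c (.v 4 1
  0) (.c (.R (.c (.f 5 0 1672 1672 1) (.c (.v 5 1 0) (.c (.f 0 0 538 538 0) (.c (.f 9 0 538 538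
  0) .e))))) (.c (.v 2 2 0) (.c (.v 0 3 0) .e))))) (.c (.R (.c (.R (.c (.v 5 1 0) (.c (.f 21 0
  1665 1665 1) (.c (.f 31 0 1553 1602 1) (.c (.f 30 0 538 538 0) .e))))) (.c (.v 4 1 0) (.c (.R
  (.c (.f 15 0 538 538 0) (.c (.v 3 2 0) (.c (.v 5 1 0) (.c (.f 8 0 538 538 0) .e))))) (.c (.R
  (.c (.f 18 0 538 538 0) (.c (.f 27 0 643 153 1) (.c (.f 35 0 538 538 0) (.c (.v 5 1 0)
  .e))))) .e))))) (.c (.v 3 1 0) (.c (.R (.c (.v 0 3 0) (.c (.R (.c (.f 19 0 538 538 0) (.c (.v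
  5 1 0) (.c (.f 31 0 538 538 0) (.c (.f 12 0 139 139 1) .e))))) (.c (.R (.c (.v 1 3 0) (.c (.f
  1 0 538 538 0) (.c (.v 5 1 0) (.c (.v 3 2 0) .e))))) (.c (.v 4 1 0) .e))))) .e))))) (.c (.R
  (.c (.v 1 2 0) (.c (.R (.c (.R (.c (.v 5 1 0) (.c (.f 3 0 1217 1217 1) (.c (.f 6 0 538 538 0)
  (.c (.f 1 0 209 1091 1) .e))))) (.c (.v 4 1 0) (.c (.R (.c (.f 25 0 538 538 0) (.c (.f 10 0
  1091 209 1) (.c (.v 5 1 0) (.c (.f 8 0 83 83 1) .e))))) (.c (.R (.c (.f 22 0 720 1112 1) (.c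
  (.v 3 2 0) (.c (.f 7 0 538 538 0) (.c (.v 5 1 0) .e))))) .e))))) (.c (.R (.c (.v 0 3 0) (.c
  (.R (.c (.f 26 0 538 538 0) (.c (.v 5 1 0) (.c (.f 16 0 1035 202 1) (.c (.f 15 0 139 139 1)
  .e))))) (.c (.v 4 1 0) (.c (.R (.c (.f 37 0 538 538 0) (.c (.f 22 0 538 538 0) (.c (.v 3 2 0)
  (.c (.v 5 1 0) .e))))) .e))))) (.c (.v 3 1 0) .e))))) .e))))) (.c (.R (.c (.R (.c (.v 3 1 0)
  (.c (.R (.c (.v 2 2 0) (.c (.v 4 1 0) (.c (.R (.c (.f 9 0 1616 1616 1) (.c (.f 17 0 1602 1553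
  1) (.c (.v 5 1 0) (.c (.f 14 0 531 90 0) .e))))) (.c (.R (.c (.v 1 3 0) (.c (.f 24 0 706 1049
  1) (.c (.f 13 0 531 90 0) (.c (.v 5 1 0) .e))))) .e))))) (.c (.R (.c (.R (.c (.v 5 1 0) (.c
  (.f 26 0 1665 1665 1) (.c (.v 3 2 0) (.c (.f 25 0 153 643 1) .e))))) (.c (.R (.c (.f 19 0
  1672 1672 1) (.c (.v 5 1 0) (.c (.f 28 0 1546 1546 1) (.c (.f 29 0 531 90 0) .e))))) (.c (.v
  4 1 0) (.c (.R (.c (.f 18 0 664 664 1) (.c (.f 33 0 531 90 0) (.c (.f 34 0 538 538 1) (.c (.v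
  5 1 0) .e))))) .e))))) (.c (.R (.c (.R (.c (.v 5 1 0) (.c (.v 1 3 0) (.c (.f 6 0 1049 706 1)
  (.c (.v 3 2 0) .e))))) (.c (.R (.c (.v 1 3 0) (.c (.v 5 1 0) (.c (.f 11 0 531 90 0) (.c (.f
  20 0 202 1035 1) .e))))) (.c (.R (.c (.f 30 0 1112 720 1) (.c (.f 29 0 1091 209 1) (.c (.v 5
  1 0) (.c (.f 32 0 90 531 1) .e))))) (.c (.v 4 1 0) .e))))) .e))))) (.c (.v 2 1 0) (.c (.R (.c
  (.R (.c (.v 4 1 0) (.c (.R (.c (.f 21 0 1672 1672 1) (.c (.v 5 1 0) (.c (.f 31 0 1546 1546 1)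
  (.c (.f 30 0 531 90 0) .e))))) (.c (.R (.c (.v 3 2 0) (.c (.f 15 0 531 90 0) (.c (.v 5 1 0)
  (.c (.f 8 0 531 90 0) .e))))) (.c (.R (.c (.f 27 0 664 664 1) (.c (.f 18 0 531 90 0) (.c (.f
  35 0 531 90 0) (.c (.v 5 1 0) .e))))) .e))))) (.c (.R (.c (.R (.c (.v 5 1 0) (.c (.f 5 0 1665
  1665 1) (.c (.f 0 0 531 90 0) (.c (.f 9 0 531 90 0) .e))))) (.c (.v 4 1 0) (.c (.v 2 2 0) (.c
  (.v 0 3 0) .e))))) (.c (.v 3 1 0) (.c (.R (.c (.R (.c (.v 5 1 0) (.c (.f 19 0 531 90 0) (.c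
  (.f 31 0 531 90 0) (.c (.f 12 0 153 643 1) .e))))) (.c (.v 0 3 0) (.c (.R (.c (.f 1 0 531 90
  0) (.c (.v 1 3 0) (.c (.v 5 1 0) (.c (.v 3 2 0) .e))))) (.c (.v 4 1 0) .e))))) .e))))) (.c
  (.R (.c (.R (.c (.v 4 1 0) (.c (.R (.c (.f 3 0 1224 1224 1) (.c (.v 5 1 0) (.c (.f 6 0 531 90
  0) (.c (.f 1 0 202 1035 1) .e))))) (.c (.R (.c (.f 10 0 1112 720 1) (.c (.f 25 0 531 90 0)
  (.c (.v 5 1 0) (.c (.f 8 0 90 531 1) .e))))) (.c (.R (.c (.v 3 2 0) (.c (.f 22 0 706 1049 1)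
  (.c (.f 7 0 531 90 0) (.c (.v 5 1 0) .e))))) .e))))) (.c (.v 1 2 0) (.c (.R (.c (.R (.c (.v 5
  1 0) (.c (.f 26 0 531 90 0) (.c (.f 16 0 1049 706 1) (.c (.f 15 0 153 643 1) .e))))) (.c (.v
  0 3 0) (.c (.v 4 1 0) (.c (.R (.c (.f 22 0 531 90 0) (.c (.f 37 0 531 90 0) (.c (.v 3 2 0)
  (.c (.v 5 1 0) .e))))) .e))))) (.c (.v 3 1 0) .e))))) .e))))) (.c (.R (.c (.R (.c (.v 3 1 0)
  (.c (.R (.c (.R (.c (.v 5 1 0) (.c (.v 3 2 0) (.c (.f 16 0 538 538 0) (.c (.f 10 0 538 538 0)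
  .e))))) (.c (.v 4 1 0) (.c (.R (.c (.f 12 0 538 538 0) (.c (.f 2 0 1602 1553 1) (.c (.v 5 1
  0) (.c (.f 32 0 538 538 0) .e))))) (.c (.R (.c (.f 27 0 538 538 0) (.c (.f 23 0 538 538 0)
  (.c (.f 34 0 538 538 0) (.c (.v 5 1 0) .e))))) .e))))) (.c (.R (.c (.v 2 2 0) (.c (.R (.c (.f
  5 0 538 538 0) (.c (.v 5 1 0) (.c (.f 36 0 538 538 0) (.c (.f 17 0 538 538 0) .e))))) (.c (.v
  4 1 0) (.c (.R (.c (.v 1 3 0) (.c (.f 24 0 538 538 0) (.c (.f 38 0 538 538 0) (.c (.v 5 1 0)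
  .e))))) .e))))) (.c (.R (.c (.R (.c (.v 5 1 0) (.c (.f 3 0 538 538 0) (.c (.v 1 3 0) (.c (.v
  3 2 0) .e))))) (.c (.R (.c (.f 21 0 538 538 0) (.c (.v 5 1 0) (.c (.f 28 0 538 538 0) (.c (.f
  2 0 538 538 0) .e))))) (.c (.R (.c (.v 1 3 0) (.c (.f 20 0 538 538 0) (.c (.v 5 1 0) (.c (.f
  4 0 538 538 0) .e))))) (.c (.v 4 1 0) .e))))) .e))))) (.c (.R (.c (.R (.c (.v 4 1 0) (.c (.R
  (.c (.v 3 2 0) (.c (.v 5 1 0) (.c (.f 16 0 531 90 0) (.c (.f 10 0 531 90 0) .e))))) (.c (.R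
  (.c (.f 2 0 1616 1616 1) (.c (.f 12 0 531 90 0) (.c (.v 5 1 0) (.c (.f 32 0 531 90 0) .e)))))
  (.c (.R (.c (.f 23 0 531 90 0) (.c (.f 27 0 531 90 0) (.c (.f 34 0 531 90 0) (.c (.v 5 1 0)
  .e))))) .e))))) (.c (.v 3 1 0) (.c (.R (.c (.R (.c (.v 5 1 0) (.c (.f 5 0 531 90 0) (.c (.f
  36 0 531 90 0) (.c (.f 17 0 531 90 0) .e))))) (.c (.v 2 2 0) (.c (.v 4 1 0) (.c (.R (.c (.f
  24 0 531 90 0) (.c (.v 1 3 0) (.c (.f 38 0 531 90 0) (.c (.v 5 1 0) .e))))) .e))))) (.c (.R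
  (.c (.R (.c (.v 5 1 0) (.c (.f 21 0 531 90 0) (.c (.f 28 0 531 90 0) (.c (.f 2 0 531 90 0)
  .e))))) (.c (.R (.c (.f 3 0 531 90 0) (.c (.v 5 1 0) (.c (.v 1 3 0) (.c (.v 3 2 0) .e)))))
  (.c (.R (.c (.f 20 0 531 90 0) (.c (.v 1 3 0) (.c (.v 5 1 0) (.c (.f 4 0 531 90 0) .e)))))
  (.c (.v 4 1 0) .e))))) .e))))) (.c (.v 2 1 0) (.c (.v 0 2 0) .e))))) (.c (.v 1 1 0) .e)))))
  .e))))) (.c (.R (.c (.R (.c (.v 1 1 0) (.c (.R (.c (.R (.c (.v 3 1 0) (.c (.v 1 2 0) (.c (.R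
  (.c (.R (.c (.v 5 1 0) (.c (.f 22 0 1665 1665 1) (.c (.v 3 2 0) (.c (.f 7 0 209 1091 0)
  .e))))) (.c (.R (.c (.f 1 0 1672 1672 1) (.c (.v 5 1 0) (.c (.f 3 0 1546 1546 1) (.c (.f 6 0
  209 1091 0) .e))))) (.c (.v 4 1 0) (.c (.R (.c (.f 8 0 664 664 1) (.c (.f 25 0 209 1091 0)
  (.c (.f 10 0 538 538 1) (.c (.v 5 1 0) .e))))) .e))))) (.c (.R (.c (.R (.c (.v 5 1 0) (.c (.f
  37 0 209 1091 0) (.c (.f 22 0 209 1091 0) (.c (.v 3 2 0) .e))))) (.c (.v 0 3 0) (.c (.R (.c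
  (.f 15 0 1112 720 1) (.c (.f 26 0 209 1091 0) (.c (.v 5 1 0) (.c (.f 16 0 90 531 1) .e)))))
  (.c (.v 4 1 0) .e))))) .e))))) (.c (.v 2 1 0) (.c (.R (.c (.R (.c (.v 4 1 0) (.c (.R (.c (.f
  20 0 1672 1672 1) (.c (.v 5 1 0) (.c (.v 1 3 0) (.c (.f 11 0 209 1091 0) .e))))) (.c (.R (.c
  (.v 3 2 0) (.c (.v 1 3 0) (.c (.v 5 1 0) (.c (.f 6 0 90 531 1) .e))))) (.c (.R (.c (.f 32 0
  664 664 1) (.c (.f 29 0 706 1049 1) (.c (.f 30 0 538 538 1) (.c (.v 5 1 0) .e))))) .e)))))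
  (.c (.R (.c (.R (.c (.v 5 1 0) (.c (.f 24 0 1665 1665 1) (.c (.v 1 3 0) (.c (.f 13 0 209 1091
  0) .e))))) (.c (.v 4 1 0) (.c (.v 2 2 0) (.c (.R (.c (.f 14 0 209 1091 0) (.c (.f 17 0 643
  153 1) (.c (.f 9 0 531 90 1) (.c (.v 5 1 0) .e))))) .e))))) (.c (.v 3 1 0) (.c (.R (.c (.R
  (.c (.v 5 1 0) (.c (.f 33 0 209 1091 0) (.c (.f 18 0 1049 706 1) (.c (.f 34 0 153 643 1)
  .e))))) (.c (.R (.c (.f 29 0 209 1091 0) (.c (.v 5 1 0) (.c (.f 19 0 1035 202 1) (.c (.f 28 0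
  139 139 1) .e))))) (.c (.R (.c (.f 25 0 1112 720 1) (.c (.f 26 0 1091 209 1) (.c (.v 5 1 0)
  (.c (.v 3 2 0) .e))))) (.c (.v 4 1 0) .e))))) .e))))) (.c (.R (.c (.R (.c (.v 4 1 0) (.c (.v
  0 3 0) (.c (.R (.c (.f 12 0 1112 720 1) (.c (.f 19 0 209 1091 0) (.c (.v 5 1 0) (.c (.f 31 0
  209 1091 0) .e))))) (.c (.R (.c (.v 3 2 0) (.c (.v 1 3 0) (.c (.f 1 0 209 1091 0) (.c (.v 5 1
  0) .e))))) .e))))) (.c (.R (.c (.v 0 3 0) (.c (.v 4 1 0) (.c (.R (.c (.f 9 0 209 1091 0) (.c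
  (.f 5 0 1091 209 1) (.c (.v 5 1 0) (.c (.f 0 0 209 1091 0) .e))))) (.c (.v 2 2 0) .e))))) (.c
  (.R (.c (.R (.c (.v 5 1 0) (.c (.f 18 0 209 1091 0) (.c (.f 27 0 1049 706 1) (.c (.f 35 0 209
  1091 0) .e))))) (.c (.R (.c (.f 30 0 209 1091 0) (.c (.v 5 1 0) (.c (.f 21 0 1035 202 1) (.c
  (.f 31 0 139 139 1) .e))))) (.c (.v 4 1 0) (.c (.R (.c (.f 8 0 209 1091 0) (.c (.f 15 0 209
  1091 0) (.c (.v 3 2 0) (.c (.v 5 1 0) .e))))) .e))))) (.c (.v 3 1 0) .e))))) .e))))) (.c (.R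
  (.c (.R (.c (.v 3 1 0) (.c (.R (.c (.R (.c (.v 5 1 0) (.c (.v 3 2 0) (.c (.f 22 0 1553 1602
  1) (.c (.f 7 0 153 643 0) .e))))) (.c (.v 4 1 0) (.c (.R (.c (.f 1 0 1616 1616 1) (.c (.f 3 0
  1602 1553 1) (.c (.v 5 1 0) (.c (.f 6 0 153 643 0) .e))))) (.c (.R (.c (.f 8 0 720 1112 1)
  (.c (.f 10 0 706 1049 1) (.c (.f 25 0 153 643 0) (.c (.v 5 1 0) .e))))) .e))))) (.c (.v 1 2
  0) (.c (.R (.c (.R (.c (.v 5 1 0) (.c (.f 22 0 153 643 0) (.c (.f 37 0 153 643 0) (.c (.v 3 2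
  0) .e))))) (.c (.R (.c (.f 15 0 1224 1224 1) (.c (.v 5 1 0) (.c (.f 26 0 153 643 0) (.c (.f
  16 0 202 1035 1) .e))))) (.c (.v 0 3 0) (.c (.v 4 1 0) .e))))) .e))))) (.c (.R (.c (.R (.c
  (.v 4 1 0) (.c (.R (.c (.v 3 2 0) (.c (.v 5 1 0) (.c (.v 1 3 0) (.c (.f 6 0 202 1035 1)
  .e))))) (.c (.R (.c (.f 20 0 1616 1616 1) (.c (.v 1 3 0) (.c (.v 5 1 0) (.c (.f 11 0 153 643
  0) .e))))) (.c (.R (.c (.f 32 0 720 1112 1) (.c (.f 30 0 706 1049 1) (.c (.f 29 0 538 538 1)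
  (.c (.v 5 1 0) .e))))) .e))))) (.c (.v 3 1 0) (.c (.R (.c (.R (.c (.v 5 1 0) (.c (.v 1 3 0)
  (.c (.f 24 0 1553 1602 1) (.c (.f 13 0 153 643 0) .e))))) (.c (.v 2 2 0) (.c (.v 4 1 0) (.c
  (.R (.c (.f 14 0 153 643 0) (.c (.f 9 0 643 153 1) (.c (.f 17 0 531 90 1) (.c (.v 5 1 0)
  .e))))) .e))))) (.c (.R (.c (.R (.c (.v 5 1 0) (.c (.f 18 0 1217 1217 1) (.c (.f 33 0 153 643
  0) (.c (.f 34 0 209 1091 1) .e))))) (.c (.R (.c (.f 25 0 1224 1224 1) (.c (.v 5 1 0) (.c (.f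
  26 0 1035 202 1) (.c (.v 3 2 0) .e))))) (.c (.R (.c (.f 29 0 153 643 0) (.c (.f 19 0 1091 209
  1) (.c (.v 5 1 0) (.c (.f 28 0 83 83 1) .e))))) (.c (.v 4 1 0) .e))))) .e))))) (.c (.v 2 1 0)
  (.c (.R (.c (.R (.c (.v 4 1 0) (.c (.R (.c (.f 12 0 1224 1224 1) (.c (.v 5 1 0) (.c (.f 19 0
  153 643 0) (.c (.f 31 0 153 643 0) .e))))) (.c (.v 0 3 0) (.c (.R (.c (.v 3 2 0) (.c (.f 1 0
  153 643 0) (.c (.v 1 3 0) (.c (.v 5 1 0) .e))))) .e))))) (.c (.R (.c (.R (.c (.v 5 1 0) (.c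
  (.f 27 0 1217 1217 1) (.c (.f 18 0 153 643 0) (.c (.f 35 0 153 643 0) .e))))) (.c (.v 4 1 0)
  (.c (.R (.c (.f 30 0 153 643 0) (.c (.f 21 0 1091 209 1) (.c (.v 5 1 0) (.c (.f 31 0 83 83 1)
  .e))))) (.c (.R (.c (.f 8 0 153 643 0) (.c (.v 3 2 0) (.c (.f 15 0 153 643 0) (.c (.v 5 1 0)
  .e))))) .e))))) (.c (.R (.c (.v 0 3 0) (.c (.R (.c (.f 9 0 153 643 0) (.c (.v 5 1 0) (.c (.f
  5 0 1035 202 1) (.c (.f 0 0 153 643 0) .e))))) (.c (.v 4 1 0) (.c (.v 2 2 0) .e))))) (.c (.v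
  3 1 0) .e))))) .e))))) (.c (.R (.c (.v 0 2 0) (.c (.R (.c (.R (.c (.v 4 1 0) (.c (.R (.c (.v
  3 2 0) (.c (.v 5 1 0) (.c (.f 3 0 209 1091 0) (.c (.v 1 3 0) .e))))) (.c (.R (.c (.f 2 0 209
  1091 0) (.c (.f 21 0 209 1091 0) (.c (.v 5 1 0) (.c (.f 28 0 209 1091 0) .e))))) (.c (.R (.c
  (.f 4 0 209 1091 0) (.c (.v 1 3 0) (.c (.f 20 0 209 1091 0) (.c (.v 5 1 0) .e))))) .e)))))
  (.c (.v 3 1 0) (.c (.R (.c (.R (.c (.v 5 1 0) (.c (.f 27 0 209 1091 0) (.c (.f 23 0 209 1091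
  0) (.c (.f 34 0 209 1091 0) .e))))) (.c (.R (.c (.f 10 0 209 1091 0) (.c (.v 5 1 0) (.c (.v 3
  2 0) (.c (.f 16 0 209 1091 0) .e))))) (.c (.v 4 1 0) (.c (.R (.c (.f 32 0 209 1091 0) (.c (.f
  12 0 209 1091 0) (.c (.f 2 0 531 90 1) (.c (.v 5 1 0) .e))))) .e))))) (.c (.R (.c (.R (.c (.v
  5 1 0) (.c (.v 1 3 0) (.c (.f 24 0 209 1091 0) (.c (.f 38 0 209 1091 0) .e))))) (.c (.v 2 2
  0) (.c (.R (.c (.f 17 0 209 1091 0) (.c (.f 5 0 209 1091 0) (.c (.v 5 1 0) (.c (.f 36 0 209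
  1091 0) .e))))) (.c (.v 4 1 0) .e))))) .e))))) (.c (.R (.c (.R (.c (.v 4 1 0) (.c (.R (.c (.f
  2 0 153 643 0) (.c (.v 5 1 0) (.c (.f 21 0 153 643 0) (.c (.f 28 0 153 643 0) .e))))) (.c (.R
  (.c (.v 3 2 0) (.c (.f 3 0 153 643 0) (.c (.v 5 1 0) (.c (.v 1 3 0) .e))))) (.c (.R (.c (.f 4
  0 153 643 0) (.c (.f 20 0 153 643 0) (.c (.v 1 3 0) (.c (.v 5 1 0) .e))))) .e))))) (.c (.R
  (.c (.R (.c (.v 5 1 0) (.c (.f 23 0 153 643 0) (.c (.f 27 0 153 643 0) (.c (.f 34 0 153 643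
  0) .e))))) (.c (.v 4 1 0) (.c (.R (.c (.f 10 0 153 643 0) (.c (.v 3 2 0) (.c (.v 5 1 0) (.c
  (.f 16 0 153 643 0) .e))))) (.c (.R (.c (.f 32 0 153 643 0) (.c (.f 2 0 643 153 1) (.c (.f 12
  0 153 643 0) (.c (.v 5 1 0) .e))))) .e))))) (.c (.v 3 1 0) (.c (.R (.c (.R (.c (.v 5 1 0) (.c
  (.f 24 0 153 643 0) (.c (.v 1 3 0) (.c (.f 38 0 153 643 0) .e))))) (.c (.R (.c (.f 17 0 153
  643 0) (.c (.v 5 1 0) (.c (.f 5 0 153 643 0) (.c (.f 36 0 153 643 0) .e))))) (.c (.v 2 2 0)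
  (.c (.v 4 1 0) .e))))) .e))))) (.c (.v 2 1 0) .e))))) .e))))) (.c (.R (.c (.R (.c (.v 2 1 0)
  (.c (.R (.c (.v 1 2 0) (.c (.v 3 1 0) (.c (.R (.c (.R (.c (.v 5 1 0) (.c (.f 1 0 1665 1665 1)
  (.c (.f 3 0 1553 1602 1) (.c (.f 6 0 202 1035 0) .e))))) (.c (.R (.c (.f 22 0 1672 1672 1)
  (.c (.v 5 1 0) (.c (.v 3 2 0) (.c (.f 7 0 202 1035 0) .e))))) (.c (.v 4 1 0) (.c (.R (.c (.f
  25 0 202 1035 0) (.c (.f 8 0 643 153 1) (.c (.f 10 0 531 90 1) (.c (.v 5 1 0) .e))))) .e)))))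
  (.c (.R (.c (.v 0 3 0) (.c (.R (.c (.f 37 0 202 1035 0) (.c (.v 5 1 0) (.c (.f 22 0 202 1035
  0) (.c (.v 3 2 0) .e))))) (.c (.R (.c (.f 26 0 202 1035 0) (.c (.f 15 0 1091 209 1) (.c (.v 5
  1 0) (.c (.f 16 0 83 83 1) .e))))) (.c (.v 4 1 0) .e))))) .e))))) (.c (.R (.c (.R (.c (.v 4 1
  0) (.c (.R (.c (.f 24 0 1672 1672 1) (.c (.v 5 1 0) (.c (.v 1 3 0) (.c (.f 13 0 202 1035 0)
  .e))))) (.c (.v 2 2 0) (.c (.R (.c (.f 17 0 664 664 1) (.c (.f 14 0 202 1035 0) (.c (.f 9 0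
  538 538 1) (.c (.v 5 1 0) .e))))) .e))))) (.c (.R (.c (.R (.c (.v 5 1 0) (.c (.f 20 0 1665
  1665 1) (.c (.v 1 3 0) (.c (.f 11 0 202 1035 0) .e))))) (.c (.v 4 1 0) (.c (.R (.c (.v 1 3 0)
  (.c (.v 3 2 0) (.c (.v 5 1 0) (.c (.f 6 0 83 83 1) .e))))) (.c (.R (.c (.f 29 0 720 1112 1)
  (.c (.f 32 0 643 153 1) (.c (.f 30 0 531 90 1) (.c (.v 5 1 0) .e))))) .e))))) (.c (.v 3 1 0)
  (.c (.R (.c (.R (.c (.v 5 1 0) (.c (.f 29 0 202 1035 0) (.c (.f 19 0 1049 706 1) (.c (.f 28 0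
  153 643 1) .e))))) (.c (.R (.c (.f 33 0 202 1035 0) (.c (.v 5 1 0) (.c (.f 18 0 1035 202 1)
  (.c (.f 34 0 139 139 1) .e))))) (.c (.R (.c (.f 26 0 1112 720 1) (.c (.f 25 0 1091 209 1) (.c
  (.v 5 1 0) (.c (.v 3 2 0) .e))))) (.c (.v 4 1 0) .e))))) .e))))) (.c (.R (.c (.R (.c (.v 4 1
  0) (.c (.v 0 3 0) (.c (.R (.c (.f 5 0 1112 720 1) (.c (.f 9 0 202 1035 0) (.c (.v 5 1 0) (.c
  (.f 0 0 202 1035 0) .e))))) (.c (.v 2 2 0) .e))))) (.c (.R (.c (.v 0 3 0) (.c (.v 4 1 0) (.c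
  (.R (.c (.f 19 0 202 1035 0) (.c (.f 12 0 1091 209 1) (.c (.v 5 1 0) (.c (.f 31 0 202 1035 0)
  .e))))) (.c (.R (.c (.v 1 3 0) (.c (.v 3 2 0) (.c (.f 1 0 202 1035 0) (.c (.v 5 1 0) .e)))))
  .e))))) (.c (.R (.c (.R (.c (.v 5 1 0) (.c (.f 30 0 202 1035 0) (.c (.f 21 0 1049 706 1) (.c
  (.f 31 0 153 643 1) .e))))) (.c (.R (.c (.f 18 0 202 1035 0) (.c (.v 5 1 0) (.c (.f 27 0 1035
  202 1) (.c (.f 35 0 202 1035 0) .e))))) (.c (.v 4 1 0) (.c (.R (.c (.f 15 0 202 1035 0) (.c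
  (.f 8 0 202 1035 0) (.c (.v 3 2 0) (.c (.v 5 1 0) .e))))) .e))))) (.c (.v 3 1 0) .e)))))
  .e))))) (.c (.v 1 1 0) (.c (.R (.c (.R (.c (.v 3 1 0) (.c (.R (.c (.R (.c (.v 5 1 0) (.c (.v
  3 2 0) (.c (.v 1 3 0) (.c (.f 6 0 209 1091 1) .e))))) (.c (.v 4 1 0) (.c (.R (.c (.v 1 3 0)
  (.c (.f 20 0 1602 1553 1) (.c (.v 5 1 0) (.c (.f 11 0 139 139 0) .e))))) (.c (.R (.c (.f 30 0
  720 1112 1) (.c (.f 32 0 706 1049 1) (.c (.f 29 0 531 90 1) (.c (.v 5 1 0) .e))))) .e)))))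
  (.c (.R (.c (.v 2 2 0) (.c (.R (.c (.v 1 3 0) (.c (.v 5 1 0) (.c (.f 24 0 1546 1546 1) (.c
  (.f 13 0 139 139 0) .e))))) (.c (.v 4 1 0) (.c (.R (.c (.f 9 0 664 664 1) (.c (.f 14 0 139
  139 0) (.c (.f 17 0 538 538 1) (.c (.v 5 1 0) .e))))) .e))))) (.c (.R (.c (.R (.c (.v 5 1 0)
  (.c (.f 25 0 1217 1217 1) (.c (.f 26 0 1049 706 1) (.c (.v 3 2 0) .e))))) (.c (.R (.c (.f 18
  0 1224 1224 1) (.c (.v 5 1 0) (.c (.f 33 0 139 139 0) (.c (.f 34 0 202 1035 1) .e))))) (.c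
  (.R (.c (.f 19 0 1112 720 1) (.c (.f 29 0 139 139 0) (.c (.v 5 1 0) (.c (.f 28 0 90 531 1)
  .e))))) (.c (.v 4 1 0) .e))))) .e))))) (.c (.R (.c (.R (.c (.v 4 1 0) (.c (.R (.c (.v 3 2 0)
  (.c (.v 5 1 0) (.c (.f 22 0 1546 1546 1) (.c (.f 7 0 139 139 0) .e))))) (.c (.R (.c (.f 3 0
  1616 1616 1) (.c (.f 1 0 1602 1553 1) (.c (.v 5 1 0) (.c (.f 6 0 139 139 0) .e))))) (.c (.R
  (.c (.f 10 0 720 1112 1) (.c (.f 8 0 706 1049 1) (.c (.f 25 0 139 139 0) (.c (.v 5 1 0)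
  .e))))) .e))))) (.c (.v 3 1 0) (.c (.v 1 2 0) (.c (.R (.c (.R (.c (.v 5 1 0) (.c (.f 15 0
  1217 1217 1) (.c (.f 26 0 139 139 0) (.c (.f 16 0 209 1091 1) .e))))) (.c (.R (.c (.f 22 0
  139 139 0) (.c (.v 5 1 0) (.c (.f 37 0 139 139 0) (.c (.v 3 2 0) .e))))) (.c (.v 0 3 0) (.c
  (.v 4 1 0) .e))))) .e))))) (.c (.v 2 1 0) (.c (.R (.c (.R (.c (.v 4 1 0) (.c (.R (.c (.f 27 0
  1224 1224 1) (.c (.v 5 1 0) (.c (.f 18 0 139 139 0) (.c (.f 35 0 139 139 0) .e))))) (.c (.R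
  (.c (.f 21 0 1112 720 1) (.c (.f 30 0 139 139 0) (.c (.v 5 1 0) (.c (.f 31 0 90 531 1)
  .e))))) (.c (.R (.c (.v 3 2 0) (.c (.f 8 0 139 139 0) (.c (.f 15 0 139 139 0) (.c (.v 5 1 0)
  .e))))) .e))))) (.c (.R (.c (.R (.c (.v 5 1 0) (.c (.f 12 0 1217 1217 1) (.c (.f 19 0 139 139
  0) (.c (.f 31 0 139 139 0) .e))))) (.c (.v 4 1 0) (.c (.v 0 3 0) (.c (.R (.c (.f 1 0 139 139
  0) (.c (.v 3 2 0) (.c (.v 1 3 0) (.c (.v 5 1 0) .e))))) .e))))) (.c (.R (.c (.R (.c (.v 5 1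
  0) (.c (.f 9 0 139 139 0) (.c (.f 5 0 1049 706 1) (.c (.f 0 0 139 139 0) .e))))) (.c (.v 0 3
  0) (.c (.v 4 1 0) (.c (.v 2 2 0) .e))))) (.c (.v 3 1 0) .e))))) .e))))) (.c (.R (.c (.R (.c
  (.v 3 1 0) (.c (.R (.c (.R (.c (.v 5 1 0) (.c (.v 3 2 0) (.c (.f 3 0 202 1035 0) (.c (.v 1 3
  0) .e))))) (.c (.v 4 1 0) (.c (.R (.c (.f 21 0 202 1035 0) (.c (.f 2 0 202 1035 0) (.c (.v 5
  1 0) (.c (.f 28 0 202 1035 0) .e))))) (.c (.R (.c (.v 1 3 0) (.c (.f 4 0 202 1035 0) (.c (.f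
  20 0 202 1035 0) (.c (.v 5 1 0) .e))))) .e))))) (.c (.R (.c (.R (.c (.v 5 1 0) (.c (.f 10 0
  202 1035 0) (.c (.v 3 2 0) (.c (.f 16 0 202 1035 0) .e))))) (.c (.R (.c (.f 27 0 202 1035 0)
  (.c (.v 5 1 0) (.c (.f 23 0 202 1035 0) (.c (.f 34 0 202 1035 0) .e))))) (.c (.v 4 1 0) (.c
  (.R (.c (.f 12 0 202 1035 0) (.c (.f 32 0 202 1035 0) (.c (.f 2 0 538 538 1) (.c (.v 5 1 0)
  .e))))) .e))))) (.c (.R (.c (.v 2 2 0) (.c (.R (.c (.v 1 3 0) (.c (.v 5 1 0) (.c (.f 24 0 202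
  1035 0) (.c (.f 38 0 202 1035 0) .e))))) (.c (.R (.c (.f 5 0 202 1035 0) (.c (.f 17 0 202
  1035 0) (.c (.v 5 1 0) (.c (.f 36 0 202 1035 0) .e))))) (.c (.v 4 1 0) .e))))) .e))))) (.c
  (.v 0 2 0) (.c (.R (.c (.R (.c (.v 4 1 0) (.c (.R (.c (.f 23 0 139 139 0) (.c (.v 5 1 0) (.c
  (.f 27 0 139 139 0) (.c (.f 34 0 139 139 0) .e))))) (.c (.R (.c (.v 3 2 0) (.c (.f 10 0 139
  139 0) (.c (.v 5 1 0) (.c (.f 16 0 139 139 0) .e))))) (.c (.R (.c (.f 2 0 664 664 1) (.c (.f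
  32 0 139 139 0) (.c (.f 12 0 139 139 0) (.c (.v 5 1 0) .e))))) .e))))) (.c (.R (.c (.R (.c
  (.v 5 1 0) (.c (.f 2 0 139 139 0) (.c (.f 21 0 139 139 0) (.c (.f 28 0 139 139 0) .e))))) (.c
  (.v 4 1 0) (.c (.R (.c (.f 3 0 139 139 0) (.c (.v 3 2 0) (.c (.v 5 1 0) (.c (.v 1 3 0)
  .e))))) (.c (.R (.c (.f 20 0 139 139 0) (.c (.f 4 0 139 139 0) (.c (.v 1 3 0) (.c (.v 5 1 0)
  .e))))) .e))))) (.c (.v 3 1 0) (.c (.R (.c (.R (.c (.v 5 1 0) (.c (.f 17 0 139 139 0) (.c (.f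
  5 0 139 139 0) (.c (.f 36 0 139 139 0) .e))))) (.c (.R (.c (.f 24 0 139 139 0) (.c (.v 5 1 0)
  (.c (.v 1 3 0) (.c (.f 38 0 139 139 0) .e))))) (.c (.v 2 2 0) (.c (.v 4 1 0) .e))))) .e)))))
  (.c (.v 2 1 0) .e))))) .e))))) (.c (.R (.c (.R (.c (.v 2 1 0) (.c (.R (.c (.R (.c (.v 4 1 0)
  (.c (.v 2 2 0) (.c (.R (.c (.f 24 0 1616 1616 1) (.c (.v 1 3 0) (.c (.v 5 1 0) (.c (.f 13 0
  90 531 0) .e))))) (.c (.R (.c (.f 17 0 720 1112 1) (.c (.f 9 0 706 1049 1) (.c (.f 14 0 90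
  531 0) (.c (.v 5 1 0) .e))))) .e))))) (.c (.v 3 1 0) (.c (.R (.c (.R (.c (.v 5 1 0) (.c (.v 1
  3 0) (.c (.f 20 0 1553 1602 1) (.c (.f 11 0 90 531 0) .e))))) (.c (.R (.c (.v 1 3 0) (.c (.v
  5 1 0) (.c (.v 3 2 0) (.c (.f 6 0 139 139 1) .e))))) (.c (.v 4 1 0) (.c (.R (.c (.f 29 0 664
  664 1) (.c (.f 30 0 643 153 1) (.c (.f 32 0 531 90 1) (.c (.v 5 1 0) .e))))) .e))))) (.c (.R
  (.c (.R (.c (.v 5 1 0) (.c (.f 19 0 1217 1217 1) (.c (.f 29 0 90 531 0) (.c (.f 28 0 209 1091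
  1) .e))))) (.c (.R (.c (.f 26 0 1224 1224 1) (.c (.v 5 1 0) (.c (.f 25 0 1035 202 1) (.c (.v
  3 2 0) .e))))) (.c (.R (.c (.f 33 0 90 531 0) (.c (.f 18 0 1091 209 1) (.c (.v 5 1 0) (.c (.f
  34 0 83 83 1) .e))))) (.c (.v 4 1 0) .e))))) .e))))) (.c (.R (.c (.v 1 2 0) (.c (.R (.c (.R
  (.c (.v 5 1 0) (.c (.f 3 0 1665 1665 1) (.c (.f 1 0 1553 1602 1) (.c (.f 6 0 90 531 0)
  .e))))) (.c (.v 4 1 0) (.c (.R (.c (.f 22 0 1616 1616 1) (.c (.v 3 2 0) (.c (.v 5 1 0) (.c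
  (.f 7 0 90 531 0) .e))))) (.c (.R (.c (.f 25 0 90 531 0) (.c (.f 10 0 643 153 1) (.c (.f 8 0
  531 90 1) (.c (.v 5 1 0) .e))))) .e))))) (.c (.v 3 1 0) (.c (.R (.c (.v 0 3 0) (.c (.R (.c
  (.f 26 0 90 531 0) (.c (.v 5 1 0) (.c (.f 15 0 1035 202 1) (.c (.f 16 0 139 139 1) .e)))))
  (.c (.R (.c (.f 37 0 90 531 0) (.c (.f 22 0 90 531 0) (.c (.v 5 1 0) (.c (.v 3 2 0) .e)))))
  (.c (.v 4 1 0) .e))))) .e))))) (.c (.R (.c (.R (.c (.v 4 1 0) (.c (.R (.c (.f 5 0 1224 1224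
  1) (.c (.v 5 1 0) (.c (.f 9 0 90 531 0) (.c (.f 0 0 90 531 0) .e))))) (.c (.v 0 3 0) (.c (.v
  2 2 0) .e))))) (.c (.R (.c (.R (.c (.v 5 1 0) (.c (.f 21 0 1217 1217 1) (.c (.f 30 0 90 531
  0) (.c (.f 31 0 209 1091 1) .e))))) (.c (.v 4 1 0) (.c (.R (.c (.f 18 0 90 531 0) (.c (.f 27
  0 1091 209 1) (.c (.v 5 1 0) (.c (.f 35 0 90 531 0) .e))))) (.c (.R (.c (.f 15 0 90 531 0)
  (.c (.v 3 2 0) (.c (.f 8 0 90 531 0) (.c (.v 5 1 0) .e))))) .e))))) (.c (.R (.c (.v 0 3 0)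
  (.c (.R (.c (.f 19 0 90 531 0) (.c (.v 5 1 0) (.c (.f 12 0 1035 202 1) (.c (.f 31 0 90 531 0)
  .e))))) (.c (.v 4 1 0) (.c (.R (.c (.v 1 3 0) (.c (.f 1 0 90 531 0) (.c (.v 3 2 0) (.c (.v 5
  1 0) .e))))) .e))))) (.c (.v 3 1 0) .e))))) .e))))) (.c (.R (.c (.R (.c (.v 3 1 0) (.c (.R
  (.c (.v 2 2 0) (.c (.v 4 1 0) (.c (.R (.c (.v 1 3 0) (.c (.f 24 0 1602 1553 1) (.c (.v 5 1 0)
  (.c (.f 13 0 83 83 0) .e))))) (.c (.R (.c (.f 9 0 720 1112 1) (.c (.f 17 0 706 1049 1) (.c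
  (.f 14 0 83 83 0) (.c (.v 5 1 0) .e))))) .e))))) (.c (.R (.c (.R (.c (.v 5 1 0) (.c (.v 1 3
  0) (.c (.v 3 2 0) (.c (.f 6 0 153 643 1) .e))))) (.c (.R (.c (.v 1 3 0) (.c (.v 5 1 0) (.c
  (.f 20 0 1546 1546 1) (.c (.f 11 0 83 83 0) .e))))) (.c (.v 4 1 0) (.c (.R (.c (.f 30 0 664
  664 1) (.c (.f 29 0 643 153 1) (.c (.f 32 0 538 538 1) (.c (.v 5 1 0) .e))))) .e))))) (.c (.R
  (.c (.R (.c (.v 5 1 0) (.c (.f 26 0 1217 1217 1) (.c (.f 25 0 1049 706 1) (.c (.v 3 2 0)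
  .e))))) (.c (.R (.c (.f 19 0 1224 1224 1) (.c (.v 5 1 0) (.c (.f 29 0 83 83 0) (.c (.f 28 0
  202 1035 1) .e))))) (.c (.R (.c (.f 18 0 1112 720 1) (.c (.f 33 0 83 83 0) (.c (.v 5 1 0) (.c
  (.f 34 0 90 531 1) .e))))) (.c (.v 4 1 0) .e))))) .e))))) (.c (.v 2 1 0) (.c (.R (.c (.R (.c
  (.v 4 1 0) (.c (.R (.c (.f 3 0 1672 1672 1) (.c (.v 5 1 0) (.c (.f 1 0 1546 1546 1) (.c (.f 6
  0 83 83 0) .e))))) (.c (.R (.c (.v 3 2 0) (.c (.f 22 0 1602 1553 1) (.c (.v 5 1 0) (.c (.f 7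
  0 83 83 0) .e))))) (.c (.R (.c (.f 10 0 664 664 1) (.c (.f 25 0 83 83 0) (.c (.f 8 0 538 538
  1) (.c (.v 5 1 0) .e))))) .e))))) (.c (.v 1 2 0) (.c (.v 3 1 0) (.c (.R (.c (.R (.c (.v 5 1
  0) (.c (.f 26 0 83 83 0) (.c (.f 15 0 1049 706 1) (.c (.f 16 0 153 643 1) .e))))) (.c (.v 0 3
  0) (.c (.R (.c (.f 22 0 83 83 0) (.c (.f 37 0 83 83 0) (.c (.v 5 1 0) (.c (.v 3 2 0) .e)))))
  (.c (.v 4 1 0) .e))))) .e))))) (.c (.R (.c (.R (.c (.v 4 1 0) (.c (.R (.c (.f 21 0 1224 1224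
  1) (.c (.v 5 1 0) (.c (.f 30 0 83 83 0) (.c (.f 31 0 202 1035 1) .e))))) (.c (.R (.c (.f 27 0
  1112 720 1) (.c (.f 18 0 83 83 0) (.c (.v 5 1 0) (.c (.f 35 0 83 83 0) .e))))) (.c (.R (.c
  (.v 3 2 0) (.c (.f 15 0 83 83 0) (.c (.f 8 0 83 83 0) (.c (.v 5 1 0) .e))))) .e))))) (.c (.R
  (.c (.R (.c (.v 5 1 0) (.c (.f 5 0 1217 1217 1) (.c (.f 9 0 83 83 0) (.c (.f 0 0 83 83 0)
  .e))))) (.c (.v 4 1 0) (.c (.v 0 3 0) (.c (.v 2 2 0) .e))))) (.c (.R (.c (.R (.c (.v 5 1 0)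
  (.c (.f 19 0 83 83 0) (.c (.f 12 0 1049 706 1) (.c (.f 31 0 83 83 0) .e))))) (.c (.v 0 3 0)
  (.c (.v 4 1 0) (.c (.R (.c (.f 1 0 83 83 0) (.c (.v 1 3 0) (.c (.v 3 2 0) (.c (.v 5 1 0)
  .e))))) .e))))) (.c (.v 3 1 0) .e))))) .e))))) (.c (.v 1 1 0) (.c (.R (.c (.R (.c (.v 3 1 0)
  (.c (.R (.c (.R (.c (.v 5 1 0) (.c (.v 3 2 0) (.c (.f 10 0 90 531 0) (.c (.f 16 0 90 531 0)
  .e))))) (.c (.v 4 1 0) (.c (.R (.c (.f 27 0 90 531 0) (.c (.f 23 0 90 531 0) (.c (.v 5 1 0)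
  (.c (.f 34 0 90 531 0) .e))))) (.c (.R (.c (.f 12 0 90 531 0) (.c (.f 2 0 706 1049 1) (.c (.f
  32 0 90 531 0) (.c (.v 5 1 0) .e))))) .e))))) (.c (.R (.c (.R (.c (.v 5 1 0) (.c (.f 3 0 90
  531 0) (.c (.v 3 2 0) (.c (.v 1 3 0) .e))))) (.c (.R (.c (.f 21 0 90 531 0) (.c (.v 5 1 0)
  (.c (.f 2 0 90 531 0) (.c (.f 28 0 90 531 0) .e))))) (.c (.v 4 1 0) (.c (.R (.c (.v 1 3 0)
  (.c (.f 20 0 90 531 0) (.c (.f 4 0 90 531 0) (.c (.v 5 1 0) .e))))) .e))))) (.c (.R (.c (.v 2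
  2 0) (.c (.R (.c (.f 5 0 90 531 0) (.c (.v 5 1 0) (.c (.f 17 0 90 531 0) (.c (.f 36 0 90 531
  0) .e))))) (.c (.R (.c (.v 1 3 0) (.c (.f 24 0 90 531 0) (.c (.v 5 1 0) (.c (.f 38 0 90 531
  0) .e))))) (.c (.v 4 1 0) .e))))) .e))))) (.c (.R (.c (.R (.c (.v 4 1 0) (.c (.R (.c (.v 3 2
  0) (.c (.v 5 1 0) (.c (.f 10 0 83 83 0) (.c (.f 16 0 83 83 0) .e))))) (.c (.R (.c (.f 23 0 83
  83 0) (.c (.f 27 0 83 83 0) (.c (.v 5 1 0) (.c (.f 34 0 83 83 0) .e))))) (.c (.R (.c (.f 2 0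
  720 1112 1) (.c (.f 12 0 83 83 0) (.c (.f 32 0 83 83 0) (.c (.v 5 1 0) .e))))) .e))))) (.c
  (.v 3 1 0) (.c (.R (.c (.R (.c (.v 5 1 0) (.c (.f 21 0 83 83 0) (.c (.f 2 0 83 83 0) (.c (.f
  28 0 83 83 0) .e))))) (.c (.R (.c (.f 3 0 83 83 0) (.c (.v 5 1 0) (.c (.v 3 2 0) (.c (.v 1 3
  0) .e))))) (.c (.v 4 1 0) (.c (.R (.c (.f 20 0 83 83 0) (.c (.v 1 3 0) (.c (.f 4 0 83 83 0)
  (.c (.v 5 1 0) .e))))) .e))))) (.c (.R (.c (.R (.c (.v 5 1 0) (.c (.f 5 0 83 83 0) (.c (.f 17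
  0 83 83 0) (.c (.f 36 0 83 83 0) .e))))) (.c (.v 2 2 0) (.c (.R (.c (.f 24 0 83 83 0) (.c (.v
  1 3 0) (.c (.v 5 1 0) (.c (.f 38 0 83 83 0) .e))))) (.c (.v 4 1 0) .e))))) .e))))) (.c (.v 0
  2 0) (.c (.v 2 1 0) .e))))) .e))))) (.c (.v 0 1 0) .e))))) .e)))))

/-- all certificates -/
def all : List (List ℕ × T) := [([0, 1, 0, 2, 0, 1, 0], t0),
  ([0, 1, 2, 1, 0, 1, 2], t1),
  ([0, 1, 0, 2, 0, 3, 0], t2),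
  ([0, 1, 2, 0, 3, 1, 0], t3),
  ([0, 1, 0, 2, 3, 1, 0], t4),
  ([0, 1, 2, 3, 0, 1, 2], t5),
  ([0, 1, 0, 2, 3, 0, 1], t6),
  ([0, 1, 2, 0, 1, 3, 0], t7),
  ([0, 1, 2, 0, 3, 2, 1], t8),
  ([0, 1, 2, 3, 0, 2, 1], t9),
  ([0, 1, 0, 2, 1, 3, 0], t10),
  ([0, 1, 0, 2, 3, 1, 2], t11),
  ([0, 1, 2, 1, 0, 3, 2], t12),
  ([0, 1, 2, 1, 3, 0, 2], t13),
  ([0, 1, 0, 2, 0, 1, 3], t14),
  ([0, 1, 0, 2, 3, 1, 3], t15),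
  ([0, 1, 2, 1, 0, 1, 3], t16),
  ([0, 1, 0, 2, 1, 3, 2], t17),
  ([0, 1, 0, 2, 1, 0, 3], t18),
  ([0, 1, 2, 0, 1, 3, 2], t19),
  ([0, 1, 2, 0, 3, 1, 2], t20),
  ([0, 1, 0, 2, 0, 3, 1], t21),
  ([0, 1, 0, 2, 3, 2, 0], t22),
  ([0, 1, 2, 0, 3, 0, 2], t23),
  ([0, 1, 2, 3, 2, 0, 1], t24),
  ([0, 1, 2, 3, 2, 1, 0], t25),
  ([0, 1, 0, 2, 3, 0, 2], t26),
  ([0, 1, 2, 3, 1, 2, 0], t27),
  ([0, 1, 0, 2, 3, 2, 1], t28),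
  ([0, 1, 2, 0, 2, 3, 1], t29),
  ([0, 1, 2, 0, 3, 0, 1], t30),
  ([0, 1, 2, 1, 3, 1, 0], t31),
  ([0, 1, 2, 1, 3, 2, 0], t32),
  ([0, 1, 0, 2, 0, 3, 2], t33),
  ([0, 1, 0, 2, 1, 0, 1], t34),
  ([0, 1, 0, 2, 1, 2, 3], t35),
  ([0, 1, 0, 2, 1, 3, 1], t36),
  ([0, 1, 2, 0, 1, 0, 3], t37),
  ([0, 1, 2, 0, 2, 3, 0], t38),
  ([], t39)]

theorem ok : chkAll 4 1 4 7 all [] = true := by decide +kernel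

theorem noext : ¬ Ext 4 1 4 [] :=
  chkAll_sound (fun g hg => by simp at hg) ok ([], t39) (by simp [all])

end MPbbea99S.Low4
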