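import Pool.Agent.Lib.Pbbea99S.Lower

/-!
# MP_bbea99_co: a certificate
-/

namespace MPbbea99S.Low5

/-- certificate -/
def t0 : T := (.R (.c (.v 4 1 0) (.c (.v 0 2 2) (.c (.R (.c (.v 4 1 1) (.c (.v 1 2 2) (.c (.v 5
  1 0) (.c (.v 2 2 1) (.c (.L (.c (.v 0 1 0) (.c (.v 0 1 1) (.c (.L (.c (.v 0 1 1) (.c (.v 0 2
  1) (.c (.v 0 1 0) (.c (.v 0 2 2) (.c (.v 0 3 3) .e)))))) (.c (.v 0 2 2) (.c (.R (.c (.R (.c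
  (.v 8 1 0) (.c (.v 0 4 2) (.c (.v 5 2 1) (.c (.v 4 2 2) (.c (.v 7 1 1) .e)))))) (.c (.v 0 4
  1) (.c (.v 6 1 1) (.c (.R (.c (.v 4 2 2) (.c (.v 0 5 0) (.c (.R (.c (.v 5 2 2) (.c (.v 2 3 3)
  (.c (.v 9 1 0) (.c (.v 8 1 1) (.c (.v 6 2 1) .e)))))) (.c (.v 8 1 0) (.c (.v 7 1 1) .e))))))
  (.c (.v 7 1 0) .e)))))) .e)))))) .e)))))) (.c (.v 3 1 1) (.c (.L (.c (.v 0 1 0) (.c (.v 0 1
  1) (.c (.L (.c (.v 0 1 1) (.c (.v 0 2 1) (.c (.v 0 1 0) (.c (.v 0 2 2) (.c (.L (.c (.L (.c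
  (.v 0 1 0) (.c (.v 0 2 2) (.c (.v 0 2 1) (.c (.v 0 4 2) (.c (.v 0 1 1) .e)))))) (.c (.L (.c
  (.v 0 2 2) (.c (.v 0 1 0) (.c (.L (.c (.v 0 2 2) (.c (.v 0 1 1) (.c (.v 0 1 0) (.c (.v 0 3 3)
  (.c (.v 0 2 1) .e)))))) (.c (.v 0 5 0) (.c (.v 0 1 1) .e)))))) (.c (.v 0 1 1) (.c (.v 0 4 1)
  (.c (.v 0 1 0) .e)))))) .e)))))) (.c (.v 0 2 2) (.c (.R (.c (.v 5 1 1) (.c (.v 0 3 2) (.c (.R
  (.c (.R (.c (.v 8 1 0) (.c (.v 1 3 3) (.c (.v 7 1 1) (.c (.v 4 2 2) (.c (.v 5 2 1) .e))))))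
  (.c (.v 0 4 1) (.c (.v 7 1 0) (.c (.v 3 2 2) (.c (.v 6 1 1) .e)))))) (.c (.R (.c (.v 4 2 1)
  (.c (.L (.c (.v 0 1 1) (.c (.L (.c (.v 0 2 1) (.c (.v 0 1 0) (.c (.v 0 2 2) (.c (.v 0 4 3)
  (.c (.v 0 1 1) .e)))))) (.c (.L (.c (.L (.c (.v 0 1 0) (.c (.v 0 2 2) (.c (.v 0 1 1) (.c (.v
  0 3 3) (.c (.v 0 2 1) .e)))))) (.c (.v 0 2 2) (.c (.v 0 1 0) (.c (.v 0 4 1) (.c (.v 0 1 1)
  .e)))))) (.c (.v 0 3 2) (.c (.v 0 1 0) .e)))))) (.c (.v 3 2 2) (.c (.v 7 1 0) (.c (.v 6 1 1)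
  .e)))))) (.c (.v 6 1 0) .e)))))) .e)))))) .e))))))

/-- certificate -/
def t1 : T := (.R (.c (.R (.c (.v 5 1 0) (.c (.R (.c (.v 5 1 1) (.c (.v 6 1 0) (.c (.v 0 3 2)
  (.c (.f 0 3 4378 8739 0) (.c (.R (.c (.v 4 2 1) (.c (.v 6 1 1) (.c (.R (.c (.f 0 5 10440
  13576 0) (.c (.R (.c (.v 5 2 2) (.c (.v 9 1 0) (.c (.v 8 1 1) (.c (.v 1 4 2) (.c (.v 6 2 1)
  .e)))))) (.c (.v 8 1 0) (.c (.v 2 3 2) (.c (.v 7 1 1) .e)))))) (.c (.v 3 2 2) (.c (.v 7 1 0)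
  .e)))))) .e)))))) (.c (.f 0 2 8739 4378 0) (.c (.R (.c (.v 5 1 1) (.c (.R (.c (.R (.c (.v 8 1
  0) (.c (.v 7 1 1) (.c (.v 0 4 2) (.c (.v 5 2 1) (.c (.v 4 2 2) .e)))))) (.c (.v 7 1 0) (.c
  (.v 1 3 2) (.c (.v 6 1 1) (.c (.f 0 4 1305 8900 0) .e)))))) (.c (.v 2 2 2) (.c (.v 6 1 0) (.c
  (.v 3 2 1) .e)))))) (.c (.v 4 1 1) .e)))))) (.c (.f 0 1 13380 2257 0) (.c (.R (.c (.R (.c (.v
  6 1 0) (.c (.v 0 3 2) (.c (.v 5 1 1) (.c (.f 0 3 4259 4259 0) (.c (.R (.c (.v 6 1 1) (.c (.L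
  (.c (.v 0 1 0) (.c (.v 0 1 1) (.c (.L (.c (.v 0 1 1) (.c (.v 0 2 1) (.c (.v 0 1 0) (.c (.v 0
  2 2) (.c (.v 0 3 3) .e)))))) (.c (.f 0 0 16593 17475 0) (.c (.v 0 4 2) .e)))))) (.c (.v 4 2
  1) (.c (.v 3 2 2) (.c (.v 7 1 0) .e)))))) .e)))))) (.c (.v 1 2 2) (.c (.v 5 1 0) (.c (.v 2 2
  1) (.c (.v 4 1 1) .e)))))) (.c (.v 3 1 1) (.c (.v 4 1 0) .e))))))

/-- certificate -/
def t2 : T := (.R (.c (.v 3 1 1) (.c (.f 1 1 17986 17937 0) (.c (.R (.c (.v 2 2 1) (.c (.v 1 2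
  2) (.c (.v 5 1 0) (.c (.v 4 1 1) (.c (.R (.c (.f 1 3 12960 6296 0) (.c (.f 0 3 12960 6296 0)
  (.c (.v 5 1 1) (.c (.R (.c (.v 3 2 2) (.c (.R (.c (.f 0 5 5148 738 0) (.c (.v 8 1 0) (.c (.f
  1 5 5148 738 0) (.c (.v 7 1 1) (.c (.R (.c (.R (.c (.v 10 1 0) (.c (.R (.c (.v 10 1 1) (.c
  (.v 11 1 0) (.c (.R (.c (.R (.c (.v 13 1 0) (.c (.v 10 2 1) (.c (.v 12 1 1) (.c (.v 0 5 5)
  (.c (.v 9 2 2) .e)))))) (.c (.v 11 1 1) (.c (.v 12 1 0) (.c (.f 0 9 2257 13380 0) (.c (.f 1 9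
  2257 13380 0) .e)))))) (.c (.v 7 2 2) (.c (.v 8 2 1) .e)))))) (.c (.f 0 7 8459 8459 0) (.c
  (.f 1 7 8459 8459 0) (.c (.v 9 1 1) .e)))))) (.c (.v 8 1 1) (.c (.v 5 2 2) (.c (.v 6 2 1) (.c
  (.v 9 1 0) .e)))))) .e)))))) (.c (.v 4 2 1) (.c (.v 7 1 0) (.c (.v 6 1 1) .e)))))) (.c (.v 6
  1 0) .e)))))) .e)))))) (.c (.v 4 1 0) (.c (.f 0 1 17986 17937 0) .e))))))

/-- certificate -/
def t3 : T := (.R (.c (.R (.c (.v 0 1 0) (.c (.R (.c (.v 0 1 1) (.c (.v 1 1 0) (.c (.R (.c (.R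
  (.c (.v 3 1 0) (.c (.v 0 2 1) (.c (.v 2 1 1) (.c (.f 0 0 18056 18056 0) (.c (.f 0 0 14472
  14472 0) .e)))))) (.c (.v 1 1 1) (.c (.v 2 1 0) (.c (.R (.c (.f 2 0 18056 18056 0) (.c (.f 0
  0 17027 16537 1) (.c (.v 2 1 1) (.c (.v 3 1 0) (.c (.f 1 0 18056 18056 0) .e)))))) (.c (.R
  (.c (.f 2 0 14472 14472 0) (.c (.f 0 0 6275 12449 1) (.c (.v 2 1 1) (.c (.f 1 0 14472 14472
  0) (.c (.v 3 1 0) .e)))))) .e)))))) (.c (.R (.c (.R (.c (.v 3 1 0) (.c (.v 0 2 1) (.c (.f 0 0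
  17608 17608 0) (.c (.v 2 1 1) (.c (.f 0 0 13576 10440 0) .e)))))) (.c (.v 1 1 1) (.c (.R (.c
  (.f 2 0 17608 17608 0) (.c (.f 0 0 17475 16593 1) (.c (.v 3 1 0) (.c (.v 2 1 1) (.c (.f 1 0
  17608 17608 0) .e)))))) (.c (.v 2 1 0) (.c (.R (.c (.f 2 0 13576 10440 0) (.c (.f 0 0 5379
  8417 1) (.c (.f 1 0 13576 10440 0) (.c (.v 2 1 1) (.c (.v 3 1 0) .e)))))) .e)))))) (.c (.R
  (.c (.R (.c (.v 3 1 0) (.c (.v 0 2 1) (.c (.f 0 0 10440 13576 0) (.c (.f 0 0 9992 9992 0) (.c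
  (.v 2 1 1) .e)))))) (.c (.v 1 1 1) (.c (.R (.c (.f 2 0 10440 13576 0) (.c (.f 0 0 10307 12561
  1) (.c (.v 3 1 0) (.c (.f 1 0 10440 13576 0) (.c (.v 2 1 1) .e)))))) (.c (.R (.c (.f 2 0 9992
  9992 0) (.c (.f 0 0 8963 8473 1) (.c (.f 1 0 9992 9992 0) (.c (.v 3 1 0) (.c (.v 2 1 1)
  .e)))))) (.c (.v 2 1 0) .e)))))) .e)))))) (.c (.R (.c (.v 0 1 1) (.c (.R (.c (.R (.c (.v 3 1
  0) (.c (.v 2 1 1) (.c (.v 0 2 1) (.c (.f 0 0 18000 18000 0) (.c (.f 0 0 14416 14416 0)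
  .e)))))) (.c (.v 2 1 0) (.c (.v 1 1 1) (.c (.R (.c (.f 2 0 18000 18000 0) (.c (.v 2 1 1) (.c
  (.f 0 0 16915 16474 1) (.c (.v 3 1 0) (.c (.f 1 0 18000 18000 0) .e)))))) (.c (.R (.c (.f 2 0
  14416 14416 0) (.c (.v 2 1 1) (.c (.f 0 0 6163 12386 1) (.c (.f 1 0 14416 14416 0) (.c (.v 3
  1 0) .e)))))) .e)))))) (.c (.v 1 1 0) (.c (.R (.c (.R (.c (.v 3 1 0) (.c (.f 0 0 17496 17104
  0) (.c (.v 0 2 1) (.c (.v 2 1 1) (.c (.f 0 0 13408 6352 0) .e)))))) (.c (.R (.c (.f 2 0 17496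
  17104 0) (.c (.v 3 1 0) (.c (.f 0 0 17419 16586 1) (.c (.v 2 1 1) (.c (.f 1 0 17496 17104 0)
  .e)))))) (.c (.v 1 1 1) (.c (.v 2 1 0) (.c (.R (.c (.f 2 0 13408 6352 0) (.c (.f 1 0 13408
  6352 0) (.c (.f 0 0 5155 4322 1) (.c (.v 2 1 1) (.c (.v 3 1 0) .e)))))) .e)))))) (.c (.R (.c
  (.R (.c (.v 3 1 0) (.c (.f 0 0 10328 13072 0) (.c (.v 0 2 1) (.c (.f 0 0 9824 5904 0) (.c (.v
  2 1 1) .e)))))) (.c (.R (.c (.f 2 0 10328 13072 0) (.c (.v 3 1 0) (.c (.f 0 0 10251 12554 1)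
  (.c (.f 1 0 10328 13072 0) (.c (.v 2 1 1) .e)))))) (.c (.v 1 1 1) (.c (.R (.c (.f 2 0 9824
  5904 0) (.c (.f 1 0 9824 5904 0) (.c (.f 0 0 8739 4378 1) (.c (.v 3 1 0) (.c (.v 2 1 1)
  .e)))))) (.c (.v 2 1 0) .e)))))) .e)))))) (.c (.R (.c (.v 0 1 1) (.c (.R (.c (.R (.c (.v 3 1
  0) (.c (.v 2 1 1) (.c (.f 0 0 17104 17496 0) (.c (.v 0 2 1) (.c (.f 0 0 13072 10328 0)
  .e)))))) (.c (.v 2 1 0) (.c (.R (.c (.f 2 0 17104 17496 0) (.c (.v 2 1 1) (.c (.v 3 1 0) (.c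
  (.f 0 0 16467 16467 1) (.c (.f 1 0 17104 17496 0) .e)))))) (.c (.v 1 1 1) (.c (.R (.c (.f 2 0
  13072 10328 0) (.c (.v 2 1 1) (.c (.f 1 0 13072 10328 0) (.c (.f 0 0 4371 8291 1) (.c (.v 3 1
  0) .e)))))) .e)))))) (.c (.R (.c (.R (.c (.v 3 1 0) (.c (.f 0 0 17048 17048 0) (.c (.v 2 1 1)
  (.c (.v 0 2 1) (.c (.f 0 0 12960 6296 0) .e)))))) (.c (.R (.c (.f 2 0 17048 17048 0) (.c (.v
  3 1 0) (.c (.v 2 1 1) (.c (.f 0 0 16523 16523 1) (.c (.f 1 0 17048 17048 0) .e)))))) (.c (.v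
  2 1 0) (.c (.v 1 1 1) (.c (.R (.c (.f 2 0 12960 6296 0) (.c (.f 1 0 12960 6296 0) (.c (.v 2 1
  1) (.c (.f 0 0 4259 4259 1) (.c (.v 3 1 0) .e)))))) .e)))))) (.c (.v 1 1 0) (.c (.R (.c (.R
  (.c (.v 3 1 0) (.c (.f 0 0 8984 8984 0) (.c (.f 0 0 8928 5400 0) (.c (.v 0 2 1) (.c (.v 2 1
  1) .e)))))) (.c (.R (.c (.f 2 0 8984 8984 0) (.c (.v 3 1 0) (.c (.f 1 0 8984 8984 0) (.c (.f
  0 0 8459 8459 1) (.c (.v 2 1 1) .e)))))) (.c (.R (.c (.f 2 0 8928 5400 0) (.c (.f 1 0 8928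
  5400 0) (.c (.v 3 1 0) (.c (.f 0 0 8291 4371 1) (.c (.v 2 1 1) .e)))))) (.c (.v 1 1 1) (.c
  (.v 2 1 0) .e)))))) .e)))))) (.c (.R (.c (.v 0 1 1) (.c (.R (.c (.R (.c (.v 3 1 0) (.c (.v 2
  1 1) (.c (.f 0 0 6352 13408 0) (.c (.f 0 0 5904 9824 0) (.c (.v 0 2 1) .e)))))) (.c (.v 2 1
  0) (.c (.R (.c (.f 2 0 6352 13408 0) (.c (.v 2 1 1) (.c (.v 3 1 0) (.c (.f 1 0 6352 13408 0)
  (.c (.f 0 0 2131 12372 1) .e)))))) (.c (.R (.c (.f 2 0 5904 9824 0) (.c (.v 2 1 1) (.c (.f 1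
  0 5904 9824 0) (.c (.v 3 1 0) (.c (.f 0 0 787 8284 1) .e)))))) (.c (.v 1 1 1) .e)))))) (.c
  (.R (.c (.R (.c (.v 3 1 0) (.c (.f 0 0 6296 12960 0) (.c (.v 2 1 1) (.c (.f 0 0 5792 5792 0)
  (.c (.v 0 2 1) .e)))))) (.c (.R (.c (.f 2 0 6296 12960 0) (.c (.v 3 1 0) (.c (.v 2 1 1) (.c
  (.f 1 0 6296 12960 0) (.c (.f 0 0 2187 12428 1) .e)))))) (.c (.v 2 1 0) (.c (.R (.c (.f 2 0
  5792 5792 0) (.c (.f 1 0 5792 5792 0) (.c (.v 2 1 1) (.c (.v 3 1 0) (.c (.f 0 0 675 4252 1)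
  .e)))))) (.c (.v 1 1 1) .e)))))) (.c (.R (.c (.R (.c (.v 3 1 0) (.c (.f 0 0 5400 8928 0) (.c
  (.f 0 0 5344 5344 0) (.c (.v 2 1 1) (.c (.v 0 2 1) .e)))))) (.c (.R (.c (.f 2 0 5400 8928 0)
  (.c (.v 3 1 0) (.c (.f 1 0 5400 8928 0) (.c (.v 2 1 1) (.c (.f 0 0 1291 8396 1) .e)))))) (.c
  (.R (.c (.f 2 0 5344 5344 0) (.c (.f 1 0 5344 5344 0) (.c (.v 3 1 0) (.c (.v 2 1 1) (.c (.f 0
  0 1123 4308 1) .e)))))) (.c (.v 2 1 0) (.c (.v 1 1 1) .e)))))) (.c (.v 1 1 0) .e))))))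
  .e)))))) (.c (.R (.c (.R (.c (.v 1 1 0) (.c (.v 0 1 1) (.c (.R (.c (.v 1 1 1) (.c (.R (.c (.v
  0 2 1) (.c (.v 3 1 0) (.c (.v 2 1 1) (.c (.f 0 0 18049 18049 0) (.c (.f 0 0 14465 14465 0)
  .e)))))) (.c (.v 2 1 0) (.c (.R (.c (.f 0 0 17048 17048 1) (.c (.f 2 0 18049 18049 0) (.c (.v
  2 1 1) (.c (.v 3 1 0) (.c (.f 1 0 18049 18049 0) .e)))))) (.c (.R (.c (.f 0 0 6296 12960 1)
  (.c (.f 2 0 14465 14465 0) (.c (.v 2 1 1) (.c (.f 1 0 14465 14465 0) (.c (.v 3 1 0) .e))))))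
  .e)))))) (.c (.R (.c (.v 1 1 1) (.c (.R (.c (.v 0 2 1) (.c (.v 3 1 0) (.c (.f 0 0 17601 17601
  0) (.c (.v 2 1 1) (.c (.f 0 0 13569 10433 0) .e)))))) (.c (.R (.c (.f 0 0 17496 17104 1) (.c
  (.f 2 0 17601 17601 0) (.c (.v 3 1 0) (.c (.v 2 1 1) (.c (.f 1 0 17601 17601 0) .e)))))) (.c
  (.v 2 1 0) (.c (.R (.c (.f 0 0 5400 8928 1) (.c (.f 2 0 13569 10433 0) (.c (.f 1 0 13569
  10433 0) (.c (.v 2 1 1) (.c (.v 3 1 0) .e)))))) .e)))))) (.c (.R (.c (.v 1 1 1) (.c (.R (.c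
  (.v 0 2 1) (.c (.v 3 1 0) (.c (.f 0 0 10433 13569 0) (.c (.f 0 0 9985 9985 0) (.c (.v 2 1 1)
  .e)))))) (.c (.R (.c (.f 0 0 10328 13072 1) (.c (.f 2 0 10433 13569 0) (.c (.v 3 1 0) (.c (.f
  1 0 10433 13569 0) (.c (.v 2 1 1) .e)))))) (.c (.R (.c (.f 0 0 8984 8984 1) (.c (.f 2 0 9985
  9985 0) (.c (.f 1 0 9985 9985 0) (.c (.v 3 1 0) (.c (.v 2 1 1) .e)))))) (.c (.v 2 1 0)
  .e)))))) .e)))))) (.c (.v 0 1 0) (.c (.R (.c (.R (.c (.v 2 1 0) (.c (.R (.c (.v 2 1 1) (.c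
  (.v 3 1 0) (.c (.v 0 2 1) (.c (.f 0 0 17986 17937 0) (.c (.f 0 0 14402 14353 0) .e)))))) (.c
  (.v 1 1 1) (.c (.R (.c (.v 2 1 1) (.c (.f 2 0 17986 17937 0) (.c (.f 0 0 16922 16922 1) (.c
  (.v 3 1 0) (.c (.f 1 0 17986 17937 0) .e)))))) (.c (.R (.c (.v 2 1 1) (.c (.f 2 0 14402 14353
  0) (.c (.f 0 0 6170 12834 1) (.c (.f 1 0 14402 14353 0) (.c (.v 3 1 0) .e)))))) .e)))))) (.c
  (.v 0 1 1) (.c (.v 1 1 0) (.c (.R (.c (.R (.c (.v 3 1 0) (.c (.f 2 0 17475 16593 0) (.c (.f 0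
  0 17433 17090 1) (.c (.v 2 1 1) (.c (.f 1 0 17475 16593 0) .e)))))) (.c (.R (.c (.f 0 0 17475
  16593 0) (.c (.v 3 1 0) (.c (.v 0 2 1) (.c (.v 2 1 1) (.c (.f 0 0 13380 2257 0) .e)))))) (.c
  (.v 1 1 1) (.c (.v 2 1 0) (.c (.R (.c (.f 1 0 13380 2257 0) (.c (.f 2 0 13380 2257 0) (.c (.f
  0 0 5148 738 1) (.c (.v 2 1 1) (.c (.v 3 1 0) .e)))))) .e)))))) (.c (.R (.c (.R (.c (.v 3 1
  0) (.c (.f 2 0 10307 12561 0) (.c (.f 0 0 10265 13058 1) (.c (.f 1 0 10307 12561 0) (.c (.v 2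
  1 1) .e)))))) (.c (.R (.c (.f 0 0 10307 12561 0) (.c (.v 3 1 0) (.c (.v 0 2 1) (.c (.f 0 0
  9796 1809 0) (.c (.v 2 1 1) .e)))))) (.c (.v 1 1 1) (.c (.R (.c (.f 1 0 9796 1809 0) (.c (.f
  2 0 9796 1809 0) (.c (.f 0 0 8732 794 1) (.c (.v 3 1 0) (.c (.v 2 1 1) .e)))))) (.c (.v 2 1
  0) .e)))))) .e)))))) (.c (.R (.c (.R (.c (.v 2 1 0) (.c (.R (.c (.v 2 1 1) (.c (.v 3 1 0) (.c
  (.f 0 0 17090 17433 0) (.c (.v 0 2 1) (.c (.f 0 0 13058 10265 0) .e)))))) (.c (.R (.c (.v 2 1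
  1) (.c (.f 2 0 17090 17433 0) (.c (.v 3 1 0) (.c (.f 0 0 16474 16915 1) (.c (.f 1 0 17090
  17433 0) .e)))))) (.c (.v 1 1 1) (.c (.R (.c (.v 2 1 1) (.c (.f 2 0 13058 10265 0) (.c (.f 1
  0 13058 10265 0) (.c (.f 0 0 4378 8739 1) (.c (.v 3 1 0) .e)))))) .e)))))) (.c (.v 0 1 1) (.c
  (.R (.c (.R (.c (.v 3 1 0) (.c (.f 2 0 17027 16537 0) (.c (.v 2 1 1) (.c (.f 0 0 16537 17027
  1) (.c (.f 1 0 17027 16537 0) .e)))))) (.c (.R (.c (.f 0 0 17027 16537 0) (.c (.v 3 1 0) (.c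
  (.v 2 1 1) (.c (.v 0 2 1) (.c (.f 0 0 12932 2201 0) .e)))))) (.c (.v 2 1 0) (.c (.v 1 1 1)
  (.c (.R (.c (.f 1 0 12932 2201 0) (.c (.f 2 0 12932 2201 0) (.c (.v 2 1 1) (.c (.f 0 0 4252
  675 1) (.c (.v 3 1 0) .e)))))) .e)))))) (.c (.v 1 1 0) (.c (.R (.c (.R (.c (.v 3 1 0) (.c (.f
  2 0 8963 8473 0) (.c (.f 1 0 8963 8473 0) (.c (.f 0 0 8473 8963 1) (.c (.v 2 1 1) .e))))))
  (.c (.R (.c (.f 0 0 8963 8473 0) (.c (.v 3 1 0) (.c (.f 0 0 8900 1305 0) (.c (.v 0 2 1) (.c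
  (.v 2 1 1) .e)))))) (.c (.R (.c (.f 1 0 8900 1305 0) (.c (.f 2 0 8900 1305 0) (.c (.v 3 1 0)
  (.c (.f 0 0 8284 787 1) (.c (.v 2 1 1) .e)))))) (.c (.v 1 1 1) (.c (.v 2 1 0) .e))))))
  .e)))))) (.c (.R (.c (.R (.c (.v 2 1 0) (.c (.R (.c (.v 2 1 1) (.c (.v 3 1 0) (.c (.f 0 0
  6338 13345 0) (.c (.f 0 0 5890 9761 0) (.c (.v 0 2 1) .e)))))) (.c (.R (.c (.v 2 1 1) (.c (.f
  2 0 6338 13345 0) (.c (.v 3 1 0) (.c (.f 1 0 6338 13345 0) (.c (.f 0 0 2138 12820 1) .e))))))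
  (.c (.R (.c (.v 2 1 1) (.c (.f 2 0 5890 9761 0) (.c (.f 1 0 5890 9761 0) (.c (.v 3 1 0) (.c
  (.f 0 0 794 8732 1) .e)))))) (.c (.v 1 1 1) .e)))))) (.c (.v 0 1 1) (.c (.R (.c (.R (.c (.v 3
  1 0) (.c (.f 2 0 6275 12449 0) (.c (.v 2 1 1) (.c (.f 1 0 6275 12449 0) (.c (.f 0 0 2201
  12932 1) .e)))))) (.c (.R (.c (.f 0 0 6275 12449 0) (.c (.v 3 1 0) (.c (.v 2 1 1) (.c (.f 0 0
  5764 1697 0) (.c (.v 0 2 1) .e)))))) (.c (.v 2 1 0) (.c (.R (.c (.f 1 0 5764 1697 0) (.c (.f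
  2 0 5764 1697 0) (.c (.v 2 1 1) (.c (.v 3 1 0) (.c (.f 0 0 668 668 1) .e)))))) (.c (.v 1 1 1)
  .e)))))) (.c (.R (.c (.R (.c (.v 3 1 0) (.c (.f 2 0 5379 8417 0) (.c (.f 1 0 5379 8417 0) (.c
  (.v 2 1 1) (.c (.f 0 0 1305 8900 1) .e)))))) (.c (.R (.c (.f 0 0 5379 8417 0) (.c (.v 3 1 0)
  (.c (.f 0 0 5316 1249 0) (.c (.v 2 1 1) (.c (.v 0 2 1) .e)))))) (.c (.R (.c (.f 1 0 5316 1249
  0) (.c (.f 2 0 5316 1249 0) (.c (.v 3 1 0) (.c (.v 2 1 1) (.c (.f 0 0 1116 724 1) .e))))))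
  (.c (.v 2 1 0) (.c (.v 1 1 1) .e)))))) (.c (.v 1 1 0) .e)))))) .e)))))) (.c (.R (.c (.R (.c
  (.v 1 1 0) (.c (.R (.c (.v 1 1 1) (.c (.v 2 1 0) (.c (.R (.c (.v 0 2 1) (.c (.v 2 1 1) (.c
  (.v 3 1 0) (.c (.f 0 0 17937 17986 0) (.c (.f 0 0 14353 14402 0) .e)))))) (.c (.R (.c (.f 0 0
  17104 17496 1) (.c (.v 2 1 1) (.c (.f 2 0 17937 17986 0) (.c (.v 3 1 0) (.c (.f 1 0 17937
  17986 0) .e)))))) (.c (.R (.c (.f 0 0 6352 13408 1) (.c (.v 2 1 1) (.c (.f 2 0 14353 14402 0)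
  (.c (.f 1 0 14353 14402 0) (.c (.v 3 1 0) .e)))))) .e)))))) (.c (.v 0 1 1) (.c (.R (.c (.v 1
  1 1) (.c (.R (.c (.f 0 0 17608 17608 1) (.c (.v 3 1 0) (.c (.f 2 0 17433 17090 0) (.c (.v 2 1
  1) (.c (.f 1 0 17433 17090 0) .e)))))) (.c (.R (.c (.v 0 2 1) (.c (.f 0 0 17433 17090 0) (.c
  (.v 3 1 0) (.c (.v 2 1 1) (.c (.f 0 0 13345 6338 0) .e)))))) (.c (.v 2 1 0) (.c (.R (.c (.f 0
  0 5344 5344 1) (.c (.f 1 0 13345 6338 0) (.c (.f 2 0 13345 6338 0) (.c (.v 2 1 1) (.c (.v 3 1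
  0) .e)))))) .e)))))) (.c (.R (.c (.v 1 1 1) (.c (.R (.c (.f 0 0 10440 13576 1) (.c (.v 3 1 0)
  (.c (.f 2 0 10265 13058 0) (.c (.f 1 0 10265 13058 0) (.c (.v 2 1 1) .e)))))) (.c (.R (.c (.v
  0 2 1) (.c (.f 0 0 10265 13058 0) (.c (.v 3 1 0) (.c (.f 0 0 9761 5890 0) (.c (.v 2 1 1)
  .e)))))) (.c (.R (.c (.f 0 0 8928 5400 1) (.c (.f 1 0 9761 5890 0) (.c (.f 2 0 9761 5890 0)
  (.c (.v 3 1 0) (.c (.v 2 1 1) .e)))))) (.c (.v 2 1 0) .e)))))) .e)))))) (.c (.R (.c (.R (.c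
  (.v 2 1 0) (.c (.v 1 1 1) (.c (.R (.c (.v 2 1 1) (.c (.v 0 2 1) (.c (.v 3 1 0) (.c (.f 0 0
  17930 17930 0) (.c (.f 0 0 14346 14346 0) .e)))))) (.c (.R (.c (.v 2 1 1) (.c (.f 0 0 17090
  17433 1) (.c (.f 2 0 17930 17930 0) (.c (.v 3 1 0) (.c (.f 1 0 17930 17930 0) .e)))))) (.c
  (.R (.c (.v 2 1 1) (.c (.f 0 0 6338 13345 1) (.c (.f 2 0 14346 14346 0) (.c (.f 1 0 14346
  14346 0) (.c (.v 3 1 0) .e)))))) .e)))))) (.c (.v 1 1 0) (.c (.v 0 1 1) (.c (.R (.c (.R (.c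
  (.v 3 1 0) (.c (.f 0 0 17601 17601 1) (.c (.f 2 0 17419 16586 0) (.c (.v 2 1 1) (.c (.f 1 0
  17419 16586 0) .e)))))) (.c (.v 1 1 1) (.c (.R (.c (.f 0 0 17419 16586 0) (.c (.v 0 2 1) (.c
  (.v 3 1 0) (.c (.v 2 1 1) (.c (.f 0 0 13324 2250 0) .e)))))) (.c (.v 2 1 0) (.c (.R (.c (.f 1
  0 13324 2250 0) (.c (.f 0 0 5316 1249 1) (.c (.f 2 0 13324 2250 0) (.c (.v 2 1 1) (.c (.v 3 1
  0) .e)))))) .e)))))) (.c (.R (.c (.R (.c (.v 3 1 0) (.c (.f 0 0 10433 13569 1) (.c (.f 2 0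
  10251 12554 0) (.c (.f 1 0 10251 12554 0) (.c (.v 2 1 1) .e)))))) (.c (.v 1 1 1) (.c (.R (.c
  (.f 0 0 10251 12554 0) (.c (.v 0 2 1) (.c (.v 3 1 0) (.c (.f 0 0 9740 1802 0) (.c (.v 2 1 1)
  .e)))))) (.c (.R (.c (.f 1 0 9740 1802 0) (.c (.f 0 0 8900 1305 1) (.c (.f 2 0 9740 1802 0)
  (.c (.v 3 1 0) (.c (.v 2 1 1) .e)))))) (.c (.v 2 1 0) .e)))))) .e)))))) (.c (.v 0 1 0) (.c
  (.R (.c (.R (.c (.v 2 1 0) (.c (.R (.c (.v 2 1 1) (.c (.v 3 1 0) (.c (.f 2 0 16922 16922 0)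
  (.c (.f 0 0 16586 17419 1) (.c (.f 1 0 16922 16922 0) .e)))))) (.c (.R (.c (.v 2 1 1) (.c (.f
  0 0 16922 16922 0) (.c (.v 3 1 0) (.c (.v 0 2 1) (.c (.f 0 0 12834 6170 0) .e)))))) (.c (.v 1
  1 1) (.c (.R (.c (.v 2 1 1) (.c (.f 1 0 12834 6170 0) (.c (.f 2 0 12834 6170 0) (.c (.f 0 0
  4322 5155 1) (.c (.v 3 1 0) .e)))))) .e)))))) (.c (.R (.c (.R (.c (.v 3 1 0) (.c (.v 2 1 1)
  (.c (.f 2 0 16915 16474 0) (.c (.f 0 0 16593 17475 1) (.c (.f 1 0 16915 16474 0) .e)))))) (.c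
  (.v 2 1 0) (.c (.R (.c (.f 0 0 16915 16474 0) (.c (.v 2 1 1) (.c (.v 3 1 0) (.c (.v 0 2 1)
  (.c (.f 0 0 12820 2138 0) .e)))))) (.c (.v 1 1 1) (.c (.R (.c (.f 1 0 12820 2138 0) (.c (.v 2
  1 1) (.c (.f 2 0 12820 2138 0) (.c (.f 0 0 4308 1123 1) (.c (.v 3 1 0) .e)))))) .e)))))) (.c
  (.v 0 1 1) (.c (.v 1 1 0) (.c (.R (.c (.R (.c (.v 3 1 0) (.c (.f 1 0 8739 4378 0) (.c (.f 2 0
  8739 4378 0) (.c (.f 0 0 8417 5379 1) (.c (.v 2 1 1) .e)))))) (.c (.R (.c (.f 1 0 8732 794 0)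
  (.c (.v 3 1 0) (.c (.f 2 0 8732 794 0) (.c (.f 0 0 8396 1291 1) (.c (.v 2 1 1) .e)))))) (.c
  (.R (.c (.f 0 0 8739 4378 0) (.c (.f 0 0 8732 794 0) (.c (.v 3 1 0) (.c (.v 0 2 1) (.c (.v 2
  1 1) .e)))))) (.c (.v 1 1 1) (.c (.v 2 1 0) .e)))))) .e)))))) (.c (.R (.c (.R (.c (.v 2 1 0)
  (.c (.R (.c (.v 2 1 1) (.c (.v 3 1 0) (.c (.f 2 0 6170 12834 0) (.c (.f 1 0 6170 12834 0) (.c
  (.f 0 0 2250 13324 1) .e)))))) (.c (.R (.c (.v 2 1 1) (.c (.f 0 0 6170 12834 0) (.c (.v 3 1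
  0) (.c (.f 0 0 5666 5666 0) (.c (.v 0 2 1) .e)))))) (.c (.R (.c (.v 2 1 1) (.c (.f 1 0 5666
  5666 0) (.c (.f 2 0 5666 5666 0) (.c (.v 3 1 0) (.c (.f 0 0 738 5148 1) .e)))))) (.c (.v 1 1
  1) .e)))))) (.c (.R (.c (.R (.c (.v 3 1 0) (.c (.v 2 1 1) (.c (.f 2 0 6163 12386 0) (.c (.f 1
  0 6163 12386 0) (.c (.f 0 0 2257 13380 1) .e)))))) (.c (.v 2 1 0) (.c (.R (.c (.f 0 0 6163
  12386 0) (.c (.v 2 1 1) (.c (.v 3 1 0) (.c (.f 0 0 5652 1634 0) (.c (.v 0 2 1) .e)))))) (.c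
  (.R (.c (.f 1 0 5652 1634 0) (.c (.v 2 1 1) (.c (.f 2 0 5652 1634 0) (.c (.v 3 1 0) (.c (.f 0
  0 724 1116 1) .e)))))) (.c (.v 1 1 1) .e)))))) (.c (.v 0 1 1) (.c (.R (.c (.R (.c (.v 3 1 0)
  (.c (.f 1 0 5155 4322 0) (.c (.f 2 0 5155 4322 0) (.c (.v 2 1 1) (.c (.f 0 0 1249 5316 1)
  .e)))))) (.c (.R (.c (.f 1 0 5148 738 0) (.c (.v 3 1 0) (.c (.f 2 0 5148 738 0) (.c (.v 2 1
  1) (.c (.f 0 0 1228 1228 1) .e)))))) (.c (.R (.c (.f 0 0 5155 4322 0) (.c (.f 0 0 5148 738 0)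
  (.c (.v 3 1 0) (.c (.v 2 1 1) (.c (.v 0 2 1) .e)))))) (.c (.v 2 1 0) (.c (.v 1 1 1) .e))))))
  (.c (.v 1 1 0) .e)))))) .e)))))) (.c (.R (.c (.R (.c (.v 1 1 0) (.c (.R (.c (.v 1 1 1) (.c
  (.v 2 1 0) (.c (.R (.c (.f 0 0 18000 18000 1) (.c (.v 2 1 1) (.c (.v 3 1 0) (.c (.f 2 0 16593
  17475 0) (.c (.f 1 0 16593 17475 0) .e)))))) (.c (.R (.c (.v 0 2 1) (.c (.v 2 1 1) (.c (.f 0
  0 16593 17475 0) (.c (.v 3 1 0) (.c (.f 0 0 12561 10307 0) .e)))))) (.c (.R (.c (.f 0 0 5904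
  9824 1) (.c (.v 2 1 1) (.c (.f 1 0 12561 10307 0) (.c (.f 2 0 12561 10307 0) (.c (.v 3 1 0)
  .e)))))) .e)))))) (.c (.R (.c (.v 1 1 1) (.c (.R (.c (.f 0 0 18056 18056 1) (.c (.v 3 1 0)
  (.c (.v 2 1 1) (.c (.f 2 0 16537 17027 0) (.c (.f 1 0 16537 17027 0) .e)))))) (.c (.v 2 1 0)
  (.c (.R (.c (.v 0 2 1) (.c (.f 0 0 16537 17027 0) (.c (.v 2 1 1) (.c (.v 3 1 0) (.c (.f 0 0
  12449 6275 0) .e)))))) (.c (.R (.c (.f 0 0 5792 5792 1) (.c (.f 1 0 12449 6275 0) (.c (.v 2 1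
  1) (.c (.f 2 0 12449 6275 0) (.c (.v 3 1 0) .e)))))) .e)))))) (.c (.v 0 1 1) (.c (.R (.c (.v
  1 1 1) (.c (.R (.c (.f 0 0 9992 9992 1) (.c (.v 3 1 0) (.c (.f 1 0 8473 8963 0) (.c (.f 2 0
  8473 8963 0) (.c (.v 2 1 1) .e)))))) (.c (.R (.c (.f 0 0 9824 5904 1) (.c (.f 1 0 8417 5379
  0) (.c (.v 3 1 0) (.c (.f 2 0 8417 5379 0) (.c (.v 2 1 1) .e)))))) (.c (.R (.c (.v 0 2 1) (.c
  (.f 0 0 8473 8963 0) (.c (.f 0 0 8417 5379 0) (.c (.v 3 1 0) (.c (.v 2 1 1) .e)))))) (.c (.v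
  2 1 0) .e)))))) .e)))))) (.c (.R (.c (.R (.c (.v 2 1 0) (.c (.v 1 1 1) (.c (.R (.c (.v 2 1 1)
  (.c (.f 0 0 17986 17937 1) (.c (.v 3 1 0) (.c (.f 2 0 16586 17419 0) (.c (.f 1 0 16586 17419
  0) .e)))))) (.c (.R (.c (.v 2 1 1) (.c (.v 0 2 1) (.c (.f 0 0 16586 17419 0) (.c (.v 3 1 0)
  (.c (.f 0 0 12554 10251 0) .e)))))) (.c (.R (.c (.v 2 1 1) (.c (.f 0 0 5890 9761 1) (.c (.f 1
  0 12554 10251 0) (.c (.f 2 0 12554 10251 0) (.c (.v 3 1 0) .e)))))) .e)))))) (.c (.v 1 1 0)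
  (.c (.R (.c (.R (.c (.v 3 1 0) (.c (.f 0 0 18049 18049 1) (.c (.v 2 1 1) (.c (.f 2 0 16523
  16523 0) (.c (.f 1 0 16523 16523 0) .e)))))) (.c (.v 1 1 1) (.c (.v 2 1 0) (.c (.R (.c (.f 0
  0 16523 16523 0) (.c (.v 0 2 1) (.c (.v 2 1 1) (.c (.v 3 1 0) (.c (.f 0 0 12428 2187 0)
  .e)))))) (.c (.R (.c (.f 1 0 12428 2187 0) (.c (.f 0 0 5764 1697 1) (.c (.v 2 1 1) (.c (.f 2
  0 12428 2187 0) (.c (.v 3 1 0) .e)))))) .e)))))) (.c (.v 0 1 1) (.c (.R (.c (.R (.c (.v 3 1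
  0) (.c (.f 0 0 9985 9985 1) (.c (.f 1 0 8459 8459 0) (.c (.f 2 0 8459 8459 0) (.c (.v 2 1 1)
  .e)))))) (.c (.v 1 1 1) (.c (.R (.c (.f 1 0 8396 1291 0) (.c (.f 0 0 9796 1809 1) (.c (.v 3 1
  0) (.c (.f 2 0 8396 1291 0) (.c (.v 2 1 1) .e)))))) (.c (.R (.c (.f 0 0 8459 8459 0) (.c (.v
  0 2 1) (.c (.f 0 0 8396 1291 0) (.c (.v 3 1 0) (.c (.v 2 1 1) .e)))))) (.c (.v 2 1 0)
  .e)))))) .e)))))) (.c (.R (.c (.R (.c (.v 2 1 0) (.c (.R (.c (.v 2 1 1) (.c (.v 3 1 0) (.c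
  (.f 0 0 17930 17930 1) (.c (.f 2 0 16474 16915 0) (.c (.f 1 0 16474 16915 0) .e)))))) (.c (.v
  1 1 1) (.c (.R (.c (.v 2 1 1) (.c (.f 0 0 16474 16915 0) (.c (.v 0 2 1) (.c (.v 3 1 0) (.c
  (.f 0 0 12386 6163 0) .e)))))) (.c (.R (.c (.v 2 1 1) (.c (.f 1 0 12386 6163 0) (.c (.f 0 0
  5666 5666 1) (.c (.f 2 0 12386 6163 0) (.c (.v 3 1 0) .e)))))) .e)))))) (.c (.R (.c (.R (.c
  (.v 3 1 0) (.c (.v 2 1 1) (.c (.f 0 0 17937 17986 1) (.c (.f 2 0 16467 16467 0) (.c (.f 1 0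
  16467 16467 0) .e)))))) (.c (.v 2 1 0) (.c (.v 1 1 1) (.c (.R (.c (.f 0 0 16467 16467 0) (.c
  (.v 2 1 1) (.c (.v 0 2 1) (.c (.v 3 1 0) (.c (.f 0 0 12372 2131 0) .e)))))) (.c (.R (.c (.f 1
  0 12372 2131 0) (.c (.v 2 1 1) (.c (.f 0 0 5652 1634 1) (.c (.f 2 0 12372 2131 0) (.c (.v 3 1
  0) .e)))))) .e)))))) (.c (.v 1 1 0) (.c (.v 0 1 1) (.c (.R (.c (.R (.c (.v 3 1 0) (.c (.f 1 0
  8291 4371 0) (.c (.f 0 0 9761 5890 1) (.c (.f 2 0 8291 4371 0) (.c (.v 2 1 1) .e)))))) (.c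
  (.R (.c (.f 1 0 8284 787 0) (.c (.v 3 1 0) (.c (.f 0 0 9740 1802 1) (.c (.f 2 0 8284 787 0)
  (.c (.v 2 1 1) .e)))))) (.c (.v 1 1 1) (.c (.R (.c (.f 0 0 8291 4371 0) (.c (.f 0 0 8284 787
  0) (.c (.v 0 2 1) (.c (.v 3 1 0) (.c (.v 2 1 1) .e)))))) (.c (.v 2 1 0) .e)))))) .e)))))) (.c
  (.v 0 1 0) (.c (.R (.c (.R (.c (.v 2 1 0) (.c (.R (.c (.v 2 1 1) (.c (.v 3 1 0) (.c (.f 1 0
  4378 8739 0) (.c (.f 2 0 4378 8739 0) (.c (.f 0 0 1802 9740 1) .e)))))) (.c (.R (.c (.v 2 1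
  1) (.c (.f 1 0 4322 5155 0) (.c (.v 3 1 0) (.c (.f 2 0 4322 5155 0) (.c (.f 0 0 1634 5652 1)
  .e)))))) (.c (.R (.c (.v 2 1 1) (.c (.f 0 0 4378 8739 0) (.c (.f 0 0 4322 5155 0) (.c (.v 3 1
  0) (.c (.v 0 2 1) .e)))))) (.c (.v 1 1 1) .e)))))) (.c (.R (.c (.R (.c (.v 3 1 0) (.c (.v 2 1
  1) (.c (.f 1 0 4371 8291 0) (.c (.f 2 0 4371 8291 0) (.c (.f 0 0 1809 9796 1) .e)))))) (.c
  (.v 2 1 0) (.c (.R (.c (.f 1 0 4308 1123 0) (.c (.v 2 1 1) (.c (.v 3 1 0) (.c (.f 2 0 4308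
  1123 0) (.c (.f 0 0 1620 1620 1) .e)))))) (.c (.R (.c (.f 0 0 4371 8291 0) (.c (.v 2 1 1) (.c
  (.f 0 0 4308 1123 0) (.c (.v 3 1 0) (.c (.v 0 2 1) .e)))))) (.c (.v 1 1 1) .e)))))) (.c (.R
  (.c (.R (.c (.v 3 1 0) (.c (.f 1 0 4259 4259 0) (.c (.v 2 1 1) (.c (.f 2 0 4259 4259 0) (.c
  (.f 0 0 1697 5764 1) .e)))))) (.c (.R (.c (.f 1 0 4252 675 0) (.c (.v 3 1 0) (.c (.v 2 1 1)
  (.c (.f 2 0 4252 675 0) (.c (.f 0 0 1676 1676 1) .e)))))) (.c (.v 2 1 0) (.c (.R (.c (.f 0 0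
  4259 4259 0) (.c (.f 0 0 4252 675 0) (.c (.v 2 1 1) (.c (.v 3 1 0) (.c (.v 0 2 1) .e))))))
  (.c (.v 1 1 1) .e)))))) (.c (.v 0 1 1) (.c (.v 1 1 0) .e)))))) .e)))))) (.c (.R (.c (.R (.c
  (.v 1 1 0) (.c (.R (.c (.v 1 1 1) (.c (.v 2 1 0) (.c (.R (.c (.f 0 0 14416 14416 1) (.c (.v 2
  1 1) (.c (.v 3 1 0) (.c (.f 1 0 2257 13380 0) (.c (.f 2 0 2257 13380 0) .e)))))) (.c (.R (.c
  (.f 0 0 13072 10328 1) (.c (.v 2 1 1) (.c (.f 1 0 1809 9796 0) (.c (.v 3 1 0) (.c (.f 2 0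
  1809 9796 0) .e)))))) (.c (.R (.c (.v 0 2 1) (.c (.v 2 1 1) (.c (.f 0 0 2257 13380 0) (.c (.f
  0 0 1809 9796 0) (.c (.v 3 1 0) .e)))))) .e)))))) (.c (.R (.c (.v 1 1 1) (.c (.R (.c (.f 0 0
  14472 14472 1) (.c (.v 3 1 0) (.c (.v 2 1 1) (.c (.f 1 0 2201 12932 0) (.c (.f 2 0 2201 12932
  0) .e)))))) (.c (.v 2 1 0) (.c (.R (.c (.f 0 0 12960 6296 1) (.c (.f 1 0 1697 5764 0) (.c (.v
  2 1 1) (.c (.v 3 1 0) (.c (.f 2 0 1697 5764 0) .e)))))) (.c (.R (.c (.v 0 2 1) (.c (.f 0 0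
  2201 12932 0) (.c (.v 2 1 1) (.c (.f 0 0 1697 5764 0) (.c (.v 3 1 0) .e)))))) .e)))))) (.c
  (.R (.c (.v 1 1 1) (.c (.R (.c (.f 0 0 13576 10440 1) (.c (.v 3 1 0) (.c (.f 1 0 1305 8900 0)
  (.c (.v 2 1 1) (.c (.f 2 0 1305 8900 0) .e)))))) (.c (.R (.c (.f 0 0 13408 6352 1) (.c (.f 1
  0 1249 5316 0) (.c (.v 3 1 0) (.c (.v 2 1 1) (.c (.f 2 0 1249 5316 0) .e)))))) (.c (.v 2 1 0)
  (.c (.R (.c (.v 0 2 1) (.c (.f 0 0 1305 8900 0) (.c (.f 0 0 1249 5316 0) (.c (.v 2 1 1) (.c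
  (.v 3 1 0) .e)))))) .e)))))) (.c (.v 0 1 1) .e)))))) (.c (.R (.c (.R (.c (.v 2 1 0) (.c (.v 1
  1 1) (.c (.R (.c (.v 2 1 1) (.c (.f 0 0 14402 14353 1) (.c (.v 3 1 0) (.c (.f 1 0 2250 13324
  0) (.c (.f 2 0 2250 13324 0) .e)))))) (.c (.R (.c (.v 2 1 1) (.c (.f 0 0 13058 10265 1) (.c
  (.f 1 0 1802 9740 0) (.c (.v 3 1 0) (.c (.f 2 0 1802 9740 0) .e)))))) (.c (.R (.c (.v 2 1 1)
  (.c (.v 0 2 1) (.c (.f 0 0 2250 13324 0) (.c (.f 0 0 1802 9740 0) (.c (.v 3 1 0) .e))))))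
  .e)))))) (.c (.v 1 1 0) (.c (.R (.c (.R (.c (.v 3 1 0) (.c (.f 0 0 14465 14465 1) (.c (.v 2 1
  1) (.c (.f 1 0 2187 12428 0) (.c (.f 2 0 2187 12428 0) .e)))))) (.c (.v 1 1 1) (.c (.v 2 1 0)
  (.c (.R (.c (.f 1 0 1676 1676 0) (.c (.f 0 0 12932 2201 1) (.c (.v 2 1 1) (.c (.v 3 1 0) (.c
  (.f 2 0 1676 1676 0) .e)))))) (.c (.R (.c (.f 0 0 2187 12428 0) (.c (.v 0 2 1) (.c (.v 2 1 1)
  (.c (.f 0 0 1676 1676 0) (.c (.v 3 1 0) .e)))))) .e)))))) (.c (.R (.c (.R (.c (.v 3 1 0) (.c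
  (.f 0 0 13569 10433 1) (.c (.f 1 0 1291 8396 0) (.c (.v 2 1 1) (.c (.f 2 0 1291 8396 0)
  .e)))))) (.c (.v 1 1 1) (.c (.R (.c (.f 1 0 1228 1228 0) (.c (.f 0 0 13380 2257 1) (.c (.v 3
  1 0) (.c (.v 2 1 1) (.c (.f 2 0 1228 1228 0) .e)))))) (.c (.v 2 1 0) (.c (.R (.c (.f 0 0 1291
  8396 0) (.c (.v 0 2 1) (.c (.f 0 0 1228 1228 0) (.c (.v 2 1 1) (.c (.v 3 1 0) .e))))))
  .e)))))) (.c (.v 0 1 1) .e)))))) (.c (.R (.c (.R (.c (.v 2 1 0) (.c (.R (.c (.v 2 1 1) (.c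
  (.v 3 1 0) (.c (.f 0 0 14346 14346 1) (.c (.f 1 0 2138 12820 0) (.c (.f 2 0 2138 12820 0)
  .e)))))) (.c (.v 1 1 1) (.c (.R (.c (.v 2 1 1) (.c (.f 1 0 1634 5652 0) (.c (.f 0 0 12834
  6170 1) (.c (.v 3 1 0) (.c (.f 2 0 1634 5652 0) .e)))))) (.c (.R (.c (.v 2 1 1) (.c (.f 0 0
  2138 12820 0) (.c (.v 0 2 1) (.c (.f 0 0 1634 5652 0) (.c (.v 3 1 0) .e)))))) .e)))))) (.c
  (.R (.c (.R (.c (.v 3 1 0) (.c (.v 2 1 1) (.c (.f 0 0 14353 14402 1) (.c (.f 1 0 2131 12372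
  0) (.c (.f 2 0 2131 12372 0) .e)))))) (.c (.v 2 1 0) (.c (.v 1 1 1) (.c (.R (.c (.f 1 0 1620
  1620 0) (.c (.v 2 1 1) (.c (.f 0 0 12820 2138 1) (.c (.v 3 1 0) (.c (.f 2 0 1620 1620 0)
  .e)))))) (.c (.R (.c (.f 0 0 2131 12372 0) (.c (.v 2 1 1) (.c (.v 0 2 1) (.c (.f 0 0 1620
  1620 0) (.c (.v 3 1 0) .e)))))) .e)))))) (.c (.v 1 1 0) (.c (.R (.c (.R (.c (.v 3 1 0) (.c
  (.f 1 0 1123 4308 0) (.c (.f 0 0 13345 6338 1) (.c (.v 2 1 1) (.c (.f 2 0 1123 4308 0)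
  .e)))))) (.c (.R (.c (.f 1 0 1116 724 0) (.c (.v 3 1 0) (.c (.f 0 0 13324 2250 1) (.c (.v 2 1
  1) (.c (.f 2 0 1116 724 0) .e)))))) (.c (.v 1 1 1) (.c (.v 2 1 0) (.c (.R (.c (.f 0 0 1123
  4308 0) (.c (.f 0 0 1116 724 0) (.c (.v 0 2 1) (.c (.v 2 1 1) (.c (.v 3 1 0) .e))))))
  .e)))))) (.c (.v 0 1 1) .e)))))) (.c (.R (.c (.R (.c (.v 2 1 0) (.c (.R (.c (.v 2 1 1) (.c
  (.v 3 1 0) (.c (.f 1 0 794 8732 0) (.c (.f 0 0 12554 10251 1) (.c (.f 2 0 794 8732 0)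
  .e)))))) (.c (.R (.c (.v 2 1 1) (.c (.f 1 0 738 5148 0) (.c (.v 3 1 0) (.c (.f 0 0 12386 6163
  1) (.c (.f 2 0 738 5148 0) .e)))))) (.c (.v 1 1 1) (.c (.R (.c (.v 2 1 1) (.c (.f 0 0 794
  8732 0) (.c (.f 0 0 738 5148 0) (.c (.v 0 2 1) (.c (.v 3 1 0) .e)))))) .e)))))) (.c (.R (.c
  (.R (.c (.v 3 1 0) (.c (.v 2 1 1) (.c (.f 1 0 787 8284 0) (.c (.f 0 0 12561 10307 1) (.c (.f
  2 0 787 8284 0) .e)))))) (.c (.v 2 1 0) (.c (.R (.c (.f 1 0 724 1116 0) (.c (.v 2 1 1) (.c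
  (.v 3 1 0) (.c (.f 0 0 12372 2131 1) (.c (.f 2 0 724 1116 0) .e)))))) (.c (.v 1 1 1) (.c (.R
  (.c (.f 0 0 787 8284 0) (.c (.v 2 1 1) (.c (.f 0 0 724 1116 0) (.c (.v 0 2 1) (.c (.v 3 1 0)
  .e)))))) .e)))))) (.c (.R (.c (.R (.c (.v 3 1 0) (.c (.f 1 0 675 4252 0) (.c (.v 2 1 1) (.c
  (.f 0 0 12449 6275 1) (.c (.f 2 0 675 4252 0) .e)))))) (.c (.R (.c (.f 1 0 668 668 0) (.c (.v
  3 1 0) (.c (.v 2 1 1) (.c (.f 0 0 12428 2187 1) (.c (.f 2 0 668 668 0) .e)))))) (.c (.v 2 1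
  0) (.c (.v 1 1 1) (.c (.R (.c (.f 0 0 675 4252 0) (.c (.f 0 0 668 668 0) (.c (.v 2 1 1) (.c
  (.v 0 2 1) (.c (.v 3 1 0) .e)))))) .e)))))) (.c (.v 1 1 0) (.c (.v 0 1 1) .e)))))) (.c (.v 0
  1 0) .e)))))) .e))))))

/-- all certificates -/
def all : List (List ℕ × T) := [([0, 1, 2, 3, 0], t0),
  ([0, 1, 2, 3, 4], t1),
  ([0, 1, 2, 0, 3], t2),
  ([], t3)]

theorem ok : chkAll 5 1 1 5 all [] = true := by decide +kernel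

theorem noext : ¬ Ext 5 1 1 [] :=
  chkAll_sound (fun g hg => by simp at hg) ok ([], t3) (by simp [all])

end MPbbea99S.Low5
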