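import Pool.Agent.Lib.Pbbea99S.Defs
import Pool.Agent.Lib.Pbbea99S.Base

/-!
# MP_bbea99_co: refutation trees
-/

namespace MPbbea99S

/-- a repetition `u v u'` with `B |v| ≤ A |u|` -/
def Viol (A B : ℕ) (w : List ℕ) : Prop :=
  ∃ u v u' : List ℕ, (u ++ v ++ u') <:+: w ∧ u.Perm u' ∧ u ≠ [] ∧ B * v.length ≤ A * u.length

/-- `w` extends by `k` letters on both sides -/
def Bi (n A B k : ℕ) (w : List ℕ) : Prop :=
  ∃ u v : List ℕ, u.length = k ∧ v.length = k ∧ (∀ c ∈ u ++ w ++ v, c < n) ∧
    ¬ Viol A B (u ++ w ++ v)

/-- `w` extends arbitrarily far on both sides -/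
def Ext (n A B : ℕ) (w : List ℕ) : Prop := ∀ k, Bi n A B k w

section

variable {n A B : ℕ}

lemma Viol.mono {w w' : List ℕ} (h : Viol A B w) (hw : w <:+: w') : Viol A B w' := by
  obtain ⟨u, v, u', h1, h2, h3, h4⟩ := h
  exact ⟨u, v, u', h1.trans hw, h2, h3, h4⟩

lemma Bi.factor {k : ℕ} {w w' : List ℕ} (h : Bi n A B k w) (hw : w' <:+: w) : Bi n A B k w' := by
  obtain ⟨u, v, h1, h2, h3, h4⟩ := h
  obtain ⟨a, b, rfl⟩ := hw
  have hinf : ((u ++ a).drop a.length ++ w' ++ (b ++ v).take k) <:+:
      (u ++ (a ++ w' ++ b) ++ v) := by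
    refine ⟨(u ++ a).take a.length, (b ++ v).drop k, ?_⟩
    calc (u ++ a).take a.length ++ ((u ++ a).drop a.length ++ w' ++ (b ++ v).take k) ++
          (b ++ v).drop k
        = ((u ++ a).take a.length ++ (u ++ a).drop a.length) ++ w' ++
          ((b ++ v).take k ++ (b ++ v).drop k) := by simp only [List.append_assoc]
      _ = (u ++ a) ++ w' ++ (b ++ v) := by rw [List.take_append_drop, List.take_append_drop]
      _ = u ++ (a ++ w' ++ b) ++ v := by simp only [List.append_assoc]
  refine ⟨(u ++ a).drop a.length, (b ++ v).take k, ?_, ?_, ?_, ?_⟩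
  · rw [List.length_drop, List.length_append, h1]
    omega
  · rw [List.length_take, List.length_append, h2]
    omega
  · intro c hc
    exact h3 c (hinf.subset hc)
  · intro hv
    exact h4 (hv.mono hinf)

lemma Ext.factor {w w' : List ℕ} (h : Ext n A B w) (hw : w' <:+: w) : Ext n A B w' :=
  fun k => (h k).factor hw

lemma Bi.pred {k : ℕ} {w : List ℕ} (h : Bi n A B (k + 1) w) : Bi n A B k w := by
  obtain ⟨u, v, h1, h2, h3, h4⟩ := h
  have hinf : (u.drop 1 ++ w ++ v.take k) <:+: (u ++ w ++ v) := by
    refine ⟨u.take 1, v.drop k, ?_⟩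
    calc u.take 1 ++ (u.drop 1 ++ w ++ v.take k) ++ v.drop k
        = (u.take 1 ++ u.drop 1) ++ w ++ (v.take k ++ v.drop k) := by
          simp only [List.append_assoc]
      _ = u ++ w ++ v := by rw [List.take_append_drop, List.take_append_drop]
  refine ⟨u.drop 1, v.take k, ?_, ?_, ?_, ?_⟩
  · rw [List.length_drop, h1]
    omega
  · rw [List.length_take, h2]
    omega
  · intro c hc
    exact h3 c (hinf.subset hc)
  · intro hv
    exact h4 (hv.mono hinf)

lemma Bi.le {k k' : ℕ} {w : List ℕ} (h : Bi n A B k w) (hk : k' ≤ k) : Bi n A B k' w := by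
  induction k with
  | zero =>
    have : k' = 0 := by omega
    rw [this]
    exact h
  | succ k ih =>
    rcases Nat.lt_or_ge k' (k + 1) with h1 | h1
    · exact ih h.pred (by omega)
    · have : k' = k + 1 := by omega
      rw [this]
      exact h

/-- bounded failure -/
lemma exists_bound {P : ℕ → ℕ → Prop} (hmono : ∀ c k k', k' ≤ k → P c k → P c k')
    (n : ℕ) (h : ∀ c, c < n → ∃ k, ¬ P c k) : ∃ K, ∀ c, c < n → ¬ P c K := by
  induction n with
  | zero => exact ⟨0, fun c hc => by omega⟩
  | succ n ih =>
    obtain ⟨K, hK⟩ := ih (fun c hc => h c (by omega))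
    obtain ⟨k, hk⟩ := h n (by omega)
    refine ⟨max K k, ?_⟩
    intro c hc hP
    rcases Nat.lt_or_ge c n with h1 | h1
    · exact hK c h1 (hmono c _ _ (le_max_left K k) hP)
    · have : c = n := by omega
      rw [this] at hP
      exact hk (hmono n _ _ (le_max_right K k) hP)

lemma Ext.right {w : List ℕ} (h : Ext n A B w) : ∃ c, c < n ∧ Ext n A B (w ++ [c]) := by
  by_contra hcon
  push Not at hcon
  obtain ⟨K, hK⟩ := exists_bound (P := fun c k => Bi n A B k (w ++ [c]))
    (fun c k k' hk hP => hP.le hk) n (fun c hc => by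
      have := hcon c hc
      unfold Ext at this
      push Not at this
      exact this)
  obtain ⟨u, v, h1, h2, h3, h4⟩ := h (K + 1)
  obtain ⟨c, v', rfl⟩ : ∃ c v', v = c :: v' := by
    cases v with
    | nil => simp at h2
    | cons c v' => exact ⟨c, v', rfl⟩
  have hc : c < n := h3 c (by simp)
  apply hK c hc
  have hinf : (u.drop 1 ++ (w ++ [c]) ++ v') <:+: (u ++ w ++ (c :: v')) := by
    refine ⟨u.take 1, [], ?_⟩
    calc u.take 1 ++ (u.drop 1 ++ (w ++ [c]) ++ v') ++ []
        = (u.take 1 ++ u.drop 1) ++ w ++ (c :: v') := by simp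
      _ = u ++ w ++ (c :: v') := by rw [List.take_append_drop]
  refine ⟨u.drop 1, v', ?_, ?_, ?_, ?_⟩
  · rw [List.length_drop, h1]
    omega
  · simpa using h2
  · intro d hd
    exact h3 d (hinf.subset hd)
  · intro hv
    exact h4 (hv.mono hinf)

lemma Ext.left {w : List ℕ} (h : Ext n A B w) : ∃ c, c < n ∧ Ext n A B (c :: w) := by
  by_contra hcon
  push Not at hcon
  obtain ⟨K, hK⟩ := exists_bound (P := fun c k => Bi n A B k (c :: w))
    (fun c k k' hk hP => hP.le hk) n (fun c hc => by
      have := hcon c hc
      unfold Ext at this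
      push Not at this
      exact this)
  obtain ⟨u, v, h1, h2, h3, h4⟩ := h (K + 1)
  have hu : u ≠ [] := by
    intro h0
    rw [h0] at h1
    simp at h1
  obtain ⟨u', c, rfl⟩ : ∃ u' c, u = u' ++ [c] := ⟨_, _, (List.dropLast_append_getLast hu).symm⟩
  have hc : c < n := h3 c (by simp)
  apply hK c hc
  have hinf : (u' ++ (c :: w) ++ v.take K) <:+: ((u' ++ [c]) ++ w ++ v) := by
    refine ⟨[], v.drop K, ?_⟩
    calc [] ++ (u' ++ (c :: w) ++ v.take K) ++ v.drop K
        = (u' ++ [c]) ++ w ++ (v.take K ++ v.drop K) := by simp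
      _ = (u' ++ [c]) ++ w ++ v := by rw [List.take_append_drop]
  refine ⟨u', v.take K, ?_, ?_, ?_, ?_⟩
  · simpa using h1
  · rw [List.length_take, h2]
    omega
  · intro d hd
    exact h3 d (hinf.subset hd)
  · intro hv
    exact h4 (hv.mono hinf)

lemma Viol.reverse {w : List ℕ} (h : Viol A B w) : Viol A B w.reverse := by
  obtain ⟨u, v, u', h1, h2, h3, h4⟩ := h
  refine ⟨u'.reverse, v.reverse, u.reverse, ?_, ?_, ?_, ?_⟩
  · have := List.reverse_infix.2 h1
    simpa [List.append_assoc] using this
  · exact (List.reverse_perm u').trans (h2.symm.trans (List.reverse_perm u).symm)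
  · intro h0
    have : u' = [] := by simpa using h0
    rw [this] at h2
    exact h3 (List.perm_nil.1 h2)
  · rw [List.length_reverse, List.length_reverse, ← h2.length_eq]
    exact h4

lemma Ext.reverse {w : List ℕ} (h : Ext n A B w) : Ext n A B w.reverse := by
  intro k
  obtain ⟨u, v, h1, h2, h3, h4⟩ := h k
  have e : v.reverse ++ w.reverse ++ u.reverse = (u ++ w ++ v).reverse := by simp
  refine ⟨v.reverse, u.reverse, by simpa using h2, by simpa using h1, ?_, ?_⟩
  · intro c hc
    rw [e] at hc
    exact h3 c (List.mem_reverse.1 hc)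
  · intro hv
    apply h4
    rw [e] at hv
    have := hv.reverse
    rwa [List.reverse_reverse] at this

lemma Viol.map (σ : ℕ → ℕ) {w : List ℕ} (h : Viol A B w) : Viol A B (w.map σ) := by
  obtain ⟨u, v, u', ⟨s, t, h1⟩, h2, h3, h4⟩ := h
  refine ⟨u.map σ, v.map σ, u'.map σ, ⟨s.map σ, t.map σ, ?_⟩, h2.map σ, ?_, ?_⟩
  · rw [← h1]
    simp
  · simpa using h3
  · simpa using h4

/-- letter permutations -/
lemma Ext.map {σ τ : ℕ → ℕ} (hτ : ∀ c, c < n → σ (τ c) = c) (hτn : ∀ c, c < n → τ c < n)
    {w : List ℕ} (h : Ext n A B (w.map σ)) (hw : ∀ c ∈ w, τ (σ c) = c) : Ext n A B w := by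
  intro k
  obtain ⟨u, v, h1, h2, h3, h4⟩ := h k
  have e : u.map τ ++ w ++ v.map τ = (u ++ w.map σ ++ v).map τ := by
    have : w = (w.map σ).map τ := by
      rw [List.map_map]
      conv_lhs => rw [← List.map_id w]
      apply List.map_congr_left
      intro c hc
      exact (hw c hc).symm
    conv_lhs => rw [this]
    simp
  refine ⟨u.map τ, v.map τ, by simpa using h1, by simpa using h2, ?_, ?_⟩
  · intro c hc
    rw [e, List.mem_map] at hc
    obtain ⟨d, hd, rfl⟩ := hc
    exact hτn d (h3 d hd)
  · intro hv
    apply h4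
    rw [e] at hv
    have h5 := hv.map σ
    rw [List.map_map] at h5
    have : (u ++ w.map σ ++ v).map (σ ∘ τ) = u ++ w.map σ ++ v := by
      conv_rhs => rw [← List.map_id (u ++ w.map σ ++ v)]
      apply List.map_congr_left
      intro c hc
      exact hτ c (h3 c hc)
    rwa [this] at h5

lemma not_ext_of_viol {w : List ℕ} (h : Viol A B w) : ¬ Ext n A B w := by
  intro he
  obtain ⟨u, v, h1, h2, h3, h4⟩ := he 0
  apply h4
  rw [List.length_eq_zero_iff] at h1 h2
  subst h1
  subst h2
  simpa using h

lemma Ext.mapOf {π ρ : ℕ → ℕ} (h1 : ∀ c, c < n → ρ (π c) = c) (h2 : ∀ c, c < n → π c < n)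
    {w : List ℕ} (hw : ∀ c ∈ w, c < n) (h : Ext n A B w) : Ext n A B (w.map π) := by
  apply Ext.map (σ := ρ) (τ := π) h1 h2
  · rw [List.map_map]
    have : w.map (ρ ∘ π) = w := by
      conv_rhs => rw [← List.map_id w]
      apply List.map_congr_left
      intro c hc
      exact h1 c (hw c hc)
    rwa [this]
  · intro c hc
    obtain ⟨d, hd, rfl⟩ := List.mem_map.1 hc
    rw [h1 d (hw d hd)]

end

/-- certificates: a repetition, a refuted factor, extension to the right or to the left -/
inductive T : Type
  | v (i m g : ℕ) : T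
  | f (j i p q r : ℕ) : T
  | R (x : T) : T
  | L (x : T) : T
  | c (x y : T) : T
  | e : T

/-- packed letter counts of the first `m` letters -/
noncomputable def wsum (m : ℕ) (l : List ℕ) : ℕ :=
  Nat.rec (motive := fun _ => List ℕ → ℕ) (fun _ => 0)
    (fun _ ih l => List.casesOn l 0 (fun c t => Nat.add (Nat.shiftLeft 1 (Nat.mul 8 c)) (ih t)))
    m l

/-- the list without its first `m` elements -/
noncomputable def dropL (m : ℕ) (l : List ℕ) : List ℕ :=
  Nat.rec (motive := fun _ => List ℕ → List ℕ) (fun l => l)
    (fun _ ih l => List.casesOn l [] (fun _ t => ih t)) m l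

/-- the first `m` elements, in a list of letters changed by `g` -/
noncomputable def takeM (g : ℕ → ℕ) (m : ℕ) (l : List ℕ) : List ℕ :=
  Nat.rec (motive := fun _ => List ℕ → List ℕ) (fun _ => [])
    (fun _ ih l => List.casesOn l [] (fun c t => (g c) :: (ih t))) m l

/-- equality of lists -/
noncomputable def leq (l l' : List ℕ) : Bool :=
  List.rec (motive := fun _ => List ℕ → Bool) (fun l' => List.casesOn l' true (fun _ _ => false))
    (fun c _ ih l' => List.casesOn l' false (fun d t' => and (Nat.beq c d) (ih t'))) l l'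

/-- length -/
noncomputable def lenL (l : List ℕ) : ℕ := List.rec 0 (fun _ _ ih => Nat.succ ih) l

/-- reversal -/
noncomputable def revL (l a : List ℕ) : List ℕ :=
  List.rec (motive := fun _ => List ℕ → List ℕ) (fun a => a) (fun c _ ih a => ih (c :: a)) l a

/-- append a letter -/
noncomputable def snoc (l : List ℕ) (k : ℕ) : List ℕ :=
  List.rec [k] (fun c _ ih => c :: ih) l

/-- `l` or its reversal is the `j`-th word of the list -/
noncomputable def chkF (F : List (List ℕ)) (j r : ℕ) (l : List ℕ) : Bool :=
  List.rec (motive := fun _ => ℕ → Bool) (fun _ => false)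
    (fun g _ ih j => Nat.casesOn j (bif Nat.beq r 0 then leq l g else leq l (revL g []))
      (fun j => ih j)) F j

/-- digit `c` of a permutation -/
def pdig (p c : ℕ) : ℕ := Nat.mod (Nat.shiftRight p (Nat.mul 3 c)) 8

/-- check of a certificate -/
noncomputable def chk (n A B M : ℕ) (F : List (List ℕ)) (t : T) : ℕ → ℕ → List ℕ → Bool :=
  T.rec (motive := fun _ => ℕ → ℕ → List ℕ → Bool)
    (fun i m g d _ w => and (Nat.beq d 0) (and (Nat.ble 1 m) (and (Nat.ble m 255)
      (and (Nat.ble (Nat.mul B g) (Nat.mul A m))
      (and (Nat.ble (Nat.add (Nat.add i m) (Nat.add g m)) (lenL w))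
      (Nat.beq (wsum m (dropL i w)) (wsum m (dropL (Nat.add m g) (dropL i w)))))))))
    (fun j i p q r d _ w => and (Nat.beq d 0)
      (and (allN (fun c => and (Nat.ble (Nat.succ (pdig p c)) n) (Nat.beq (pdig q (pdig p c)) c)) n)
      (chkF F j r (takeM (pdig p) M (dropL i w)))))
    (fun _ ih d _ w => and (Nat.beq d 0) (ih 1 0 w))
    (fun _ ih d _ w => and (Nat.beq d 0) (ih 2 0 w))
    (fun _ _ ihx ihy d k w => and (or (and (Nat.beq d 1) (ihx 0 0 (snoc w k)))
      (and (Nat.beq d 2) (ihx 0 0 (k :: w)))) (ihy d (Nat.succ k) w))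
    (fun d k _ => and (Nat.ble 1 d) (Nat.ble n k)) t

/-- check of a list of certificates -/
noncomputable def chkAll (n A B M : ℕ) (L : List (List ℕ × T)) (F : List (List ℕ)) : Bool :=
  List.rec (motive := fun _ => List (List ℕ) → Bool) (fun _ => true)
    (fun x _ ih F => and (allL (fun c => Nat.ble (Nat.succ c) n) x.1)
      (and (chk n A B M F x.2 0 0 x.1) (ih (x.1 :: F)))) L F

lemma dropL_eq (m : ℕ) : ∀ l, dropL m l = l.drop m := by
  induction m with
  | zero => intro l; rfl
  | succ m ih =>
    intro l
    cases l with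
    | nil => rfl
    | cons c t => exact ih t

lemma takeM_eq (g : ℕ → ℕ) (m : ℕ) : ∀ l, takeM g m l = (l.take m).map g := by
  induction m with
  | zero => intro l; simp; rfl
  | succ m ih =>
    intro l
    cases l with
    | nil => rfl
    | cons c t =>
      show g c :: takeM g m t = _
      rw [ih]
      rfl

lemma leq_t {l : List ℕ} : ∀ {l' : List ℕ}, leq l l' = true → l = l' := by
  induction l with
  | nil =>
    intro l' h
    cases l' with
    | nil => rfl
    | cons d t => exact absurd h (by simp [leq])
  | cons c l ih =>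
    intro l' h
    cases l' with
    | nil => exact absurd h (by simp [leq])
    | cons d t =>
      have h' : (Nat.beq c d && leq l t) = true := h
      rw [Bool.and_eq_true] at h'
      rw [beq_t h'.1, ih h'.2]

lemma lenL_eq (l : List ℕ) : lenL l = l.length := by
  induction l with
  | nil => rfl
  | cons c l ih =>
    show lenL l + 1 = _
    rw [ih, List.length_cons]

lemma revL_eq (l : List ℕ) : ∀ a, revL l a = l.reverse ++ a := by
  induction l with
  | nil => intro a; rfl
  | cons c l ih =>
    intro a
    show revL l (c :: a) = _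
    rw [ih]
    simp

lemma snoc_eq (l : List ℕ) (k : ℕ) : snoc l k = l ++ [k] := by
  induction l with
  | nil => rfl
  | cons c l ih =>
    show c :: snoc l k = _
    rw [ih]
    rfl

lemma chkF_t {F : List (List ℕ)} {r : ℕ} {l : List ℕ} : ∀ {j : ℕ}, chkF F j r l = true →
    ∃ g ∈ F, l = g ∨ l = g.reverse := by
  induction F with
  | nil => intro j h; exact absurd h (by simp [chkF])
  | cons g F ih =>
    intro j h
    cases j with
    | zero =>
      have h' : (bif Nat.beq r 0 then leq l g else leq l (revL g [])) = true := h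
      refine ⟨g, by simp, ?_⟩
      cases hr : Nat.beq r 0 with
      | true =>
        rw [hr, cond_true] at h'
        exact Or.inl (leq_t h')
      | false =>
        rw [hr, cond_false, revL_eq, List.append_nil] at h'
        exact Or.inr (leq_t h')
    | succ j =>
      have h' : chkF F j r l = true := h
      obtain ⟨g', hg', h2⟩ := ih h'
      exact ⟨g', by simp [hg'], h2⟩

lemma wsum_eq {n : ℕ} (m : ℕ) : ∀ l : List ℕ, (∀ c ∈ l, c < n) →
    wsum m l = pk 8 (fun c => (l.take m).count c) n := by
  induction m with
  | zero =>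
    intro l _
    show 0 = _
    simp only [List.take_zero, List.count_nil]
    rw [pk_zero']
  | succ m ih =>
    intro l hl
    cases l with
    | nil =>
      show 0 = _
      simp only [List.take_nil, List.count_nil]
      rw [pk_zero']
    | cons c t =>
      have h1 : wsum (m + 1) (c :: t) = 1 <<< (8 * c) + wsum m t := rfl
      rw [h1, ih t (fun d hd => hl d (by simp [hd])), Nat.shiftLeft_eq, Nat.one_mul,
        ← pk_unit 8 c n (hl c (by simp)), ← pk_add]
      apply pk_congr
      intro i _
      rw [List.take_succ_cons, List.count_cons, Nat.add_comm]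
      simp only [beq_iff_eq]

lemma perm_of_wsum {n m : ℕ} {l l' : List ℕ} (hm : m ≤ 255) (hl : ∀ c ∈ l, c < n)
    (hl' : ∀ c ∈ l', c < n) (h : wsum m l = wsum m l') : (l.take m).Perm (l'.take m) := by
  rw [wsum_eq m l hl, wsum_eq m l' hl'] at h
  have hb : ∀ (l : List ℕ) (c : ℕ), (l.take m).count c < 2 ^ 8 := by
    intro l c
    have h1 : (l.take m).count c ≤ (l.take m).length := List.count_le_length
    have h2 : (l.take m).length ≤ m := by rw [List.length_take]; omega
    show _ < 256
    omega
  have h3 := pk_inj (fun c _ => hb l c) (fun c _ => hb l' c) h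
  rw [List.perm_iff_count]
  intro c
  rcases Nat.lt_or_ge c n with hc | hc
  · exact h3 c hc
  · rw [List.count_eq_zero.2, List.count_eq_zero.2]
    · intro hcm
      have := hl' c (List.mem_of_mem_take hcm)
      omega
    · intro hcm
      have := hl c (List.mem_of_mem_take hcm)
      omega

section

variable {n A B M : ℕ}

theorem chk_sound {F : List (List ℕ)} (hF : ∀ g ∈ F, ¬ Ext n A B g) (t : T) :
    (∀ k w, (∀ c ∈ w, c < n) → chk n A B M F t 0 k w = true → ¬ Ext n A B w) ∧
    (∀ k w, (∀ c ∈ w, c < n) → chk n A B M F t 1 k w = true →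
      ∀ c, k ≤ c → c < n → ¬ Ext n A B (w ++ [c])) ∧
    (∀ k w, (∀ c ∈ w, c < n) → chk n A B M F t 2 k w = true →
      ∀ c, k ≤ c → c < n → ¬ Ext n A B (c :: w)) := by
  induction t with
  | v i m g =>
    refine ⟨?_, ?_, ?_⟩
    · intro k w hw h
      have h' : (Nat.beq 0 0 && (Nat.ble 1 m && (Nat.ble m 255 && (Nat.ble (B * g) (A * m) &&
        (Nat.ble (i + m + (g + m)) (lenL w) &&
        Nat.beq (wsum m (dropL i w)) (wsum m (dropL (m + g) (dropL i w)))))))) = true := h
      simp only [Bool.and_eq_true] at h'
      obtain ⟨_, h1, h2, h3, h4, h5⟩ := h'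
      have h1' := Nat.le_of_ble_eq_true h1
      have h2' := Nat.le_of_ble_eq_true h2
      have h3' := Nat.le_of_ble_eq_true h3
      have h4' := Nat.le_of_ble_eq_true h4
      have h5' := beq_t h5
      rw [lenL_eq] at h4'
      rw [dropL_eq, dropL_eq] at h5'
      apply not_ext_of_viol
      have hp := perm_of_wsum h2' (fun c hc => hw c (List.mem_of_mem_drop hc))
        (fun c hc => hw c (List.mem_of_mem_drop (List.mem_of_mem_drop hc))) h5'
      refine ⟨(w.drop i).take m, ((w.drop i).drop m).take g,
        ((w.drop i).drop (m + g)).take m, ?_, hp, ?_, ?_⟩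
      · refine ⟨w.take i, ((w.drop i).drop (m + g)).drop m, ?_⟩
        have e1 : (w.drop i).drop (m + g) = ((w.drop i).drop m).drop g := by
          simp only [List.drop_drop, Nat.add_assoc]
        calc w.take i ++ ((w.drop i).take m ++ ((w.drop i).drop m).take g ++
              ((w.drop i).drop (m + g)).take m) ++ ((w.drop i).drop (m + g)).drop m
            = w.take i ++ ((w.drop i).take m ++ (((w.drop i).drop m).take g ++
              (((w.drop i).drop (m + g)).take m ++ ((w.drop i).drop (m + g)).drop m))) := by
              simp only [List.append_assoc]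
          _ = w.take i ++ ((w.drop i).take m ++ (((w.drop i).drop m).take g ++
              ((w.drop i).drop m).drop g)) := by rw [List.take_append_drop, e1]
          _ = w := by
              rw [List.take_append_drop, List.take_append_drop, List.take_append_drop]
      · intro h0
        have := congrArg List.length h0
        rw [List.length_take, List.length_drop, List.length_nil] at this
        omega
      · have e1 : (((w.drop i).drop m).take g).length = g := by
          rw [List.length_take, List.length_drop, List.length_drop]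
          omega
        have e2 : ((w.drop i).take m).length = m := by
          rw [List.length_take, List.length_drop]
          omega
        rw [e1, e2]
        exact h3'
    · intro k w _ h
      exact absurd h (by simp [chk])
    · intro k w _ h
      exact absurd h (by simp [chk])
  | f j i p q r =>
    refine ⟨?_, ?_, ?_⟩
    · intro k w hw h hext
      have h' : (Nat.beq 0 0 && (allN (fun c => Nat.ble (Nat.succ (pdig p c)) n &&
        Nat.beq (pdig q (pdig p c)) c) n &&
        chkF F j r (takeM (pdig p) M (dropL i w)))) = true := h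
      simp only [Bool.and_eq_true] at h'
      obtain ⟨_, h1, h2⟩ := h'
      have h1' := allN_sound h1
      rw [takeM_eq, dropL_eq] at h2
      have hp1 : ∀ c, c < n → pdig q (pdig p c) = c := by
        intro c hc
        have := h1' c hc
        rw [Bool.and_eq_true] at this
        exact beq_t this.2
      have hp2 : ∀ c, c < n → pdig p c < n := by
        intro c hc
        have := h1' c hc
        rw [Bool.and_eq_true] at this
        exact Nat.le_of_ble_eq_true this.1
      have hfac : (w.drop i).take M <:+: w :=
        (List.take_prefix _ _).isInfix.trans (List.drop_suffix _ _).isInfix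
      have he := hext.factor hfac
      have he2 := Ext.mapOf hp1 hp2 (fun c hc => hw c (hfac.subset hc)) he
      obtain ⟨g, hg, h3 | h3⟩ := chkF_t h2
      · rw [h3] at he2
        exact hF g hg he2
      · rw [h3] at he2
        have := he2.reverse
        rw [List.reverse_reverse] at this
        exact hF g hg this
    · intro k w _ h
      exact absurd h (by simp [chk])
    · intro k w _ h
      exact absurd h (by simp [chk])
  | R x ih =>
    refine ⟨?_, ?_, ?_⟩
    · intro k w hw h hext
      have h' : (Nat.beq 0 0 && chk n A B M F x 1 0 w) = true := h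
      rw [Bool.and_eq_true] at h'
      obtain ⟨c, hc, he⟩ := hext.right
      exact ih.2.1 0 w hw h'.2 c (Nat.zero_le _) hc he
    · intro k w _ h
      exact absurd h (by simp [chk])
    · intro k w _ h
      exact absurd h (by simp [chk])
  | L x ih =>
    refine ⟨?_, ?_, ?_⟩
    · intro k w hw h hext
      have h' : (Nat.beq 0 0 && chk n A B M F x 2 0 w) = true := h
      rw [Bool.and_eq_true] at h'
      obtain ⟨c, hc, he⟩ := hext.left
      exact ih.2.2 0 w hw h'.2 c (Nat.zero_le _) hc he
    · intro k w _ h
      exact absurd h (by simp [chk])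
    · intro k w _ h
      exact absurd h (by simp [chk])
  | c x y ihx ihy =>
    refine ⟨?_, ?_, ?_⟩
    · intro k w _ h
      exact absurd h (by simp [chk])
    · intro k w hw h c hkc hc
      have h' : (((Nat.beq 1 1 && chk n A B M F x 0 0 (snoc w k)) ||
        (Nat.beq 1 2 && chk n A B M F x 0 0 (k :: w))) && chk n A B M F y 1 (k + 1) w) = true := h
      rw [Bool.and_eq_true] at h'
      obtain ⟨h1, h2⟩ := h'
      rcases Nat.lt_or_ge k c with h3 | h3
      · exact ihy.2.1 (k + 1) w hw h2 c h3 hc
      · have : c = k := by omega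
        subst this
        have h4 : chk n A B M F x 0 0 (snoc w c) = true := by simpa using h1
        rw [snoc_eq] at h4
        apply ihx.1 0 _ _ h4
        intro d hd
        rcases List.mem_append.1 hd with hd | hd
        · exact hw d hd
        · have : d = c := by simpa using hd
          omega
    · intro k w hw h c hkc hc
      have h' : (((Nat.beq 2 1 && chk n A B M F x 0 0 (snoc w k)) ||
        (Nat.beq 2 2 && chk n A B M F x 0 0 (k :: w))) && chk n A B M F y 2 (k + 1) w) = true := h
      rw [Bool.and_eq_true] at h'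
      obtain ⟨h1, h2⟩ := h'
      rcases Nat.lt_or_ge k c with h3 | h3
      · exact ihy.2.2 (k + 1) w hw h2 c h3 hc
      · have : c = k := by omega
        subst this
        have h4 : chk n A B M F x 0 0 (c :: w) = true := by simpa using h1
        apply ihx.1 0 _ _ h4
        intro d hd
        rcases List.mem_cons.1 hd with hd | hd
        · omega
        · exact hw d hd
  | e =>
    refine ⟨?_, ?_, ?_⟩
    · intro k w _ h
      exact absurd h (by simp [chk])
    · intro k w _ h c hkc hc
      have h' : (Nat.ble 1 1 && Nat.ble n k) = true := h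
      rw [Bool.and_eq_true] at h'
      have : n ≤ k := Nat.le_of_ble_eq_true h'.2
      omega
    · intro k w _ h c hkc hc
      have h' : (Nat.ble 1 2 && Nat.ble n k) = true := h
      rw [Bool.and_eq_true] at h'
      have : n ≤ k := Nat.le_of_ble_eq_true h'.2
      omega

theorem chkAll_sound {L : List (List ℕ × T)} : ∀ {F : List (List ℕ)},
    (∀ g ∈ F, ¬ Ext n A B g) → chkAll n A B M L F = true → ∀ x ∈ L, ¬ Ext n A B x.1 := by
  induction L with
  | nil => intro F _ _ x hx; simp at hx
  | cons y L ih =>
    intro F hF h x hx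
    have h' : (allL (fun c => Nat.ble (Nat.succ c) n) y.1 && (chk n A B M F y.2 0 0 y.1 &&
      chkAll n A B M L (y.1 :: F))) = true := h
    rw [Bool.and_eq_true, Bool.and_eq_true] at h'
    obtain ⟨h1, h2, h3⟩ := h'
    have hy : ¬ Ext n A B y.1 := (chk_sound hF y.2).1 0 y.1
      (fun c hc => Nat.le_of_ble_eq_true (allL_mem h1 hc)) h2
    rcases List.mem_cons.1 hx with rfl | hx
    · exact hy
    · refine ih ?_ h3 x hx
      intro g hg
      rcases List.mem_cons.1 hg with rfl | hg
      · exact hy
      · exact hF g hg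

/-- the set of words is small if the empty word does not extend -/
theorem not_avoid_of_ext {s : ℝ} (hs1 : 1 ≤ s) (hB : 0 < B)
    (hAB : (A : ℝ) * (s - 1) ≤ B * (2 - s)) (hno : ¬ Ext n A B []) : ¬ Avoid s n := by
  intro hav
  apply hno
  intro k
  obtain ⟨w, hw, hlen⟩ := hav.exists_long (2 * k)
  obtain ⟨W, hW⟩ : ∃ W : List ℕ, W = w.map Fin.val := ⟨_, rfl⟩
  have hWl : 2 * k ≤ W.length := by rw [hW, List.length_map]; exact hlen
  have hinf : (W.take k ++ [] ++ (W.drop k).take k) <:+: W := by
    refine ⟨[], (W.drop k).drop k, ?_⟩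
    calc [] ++ (W.take k ++ [] ++ (W.drop k).take k) ++ (W.drop k).drop k
        = W.take k ++ ((W.drop k).take k ++ (W.drop k).drop k) := by simp
      _ = W := by rw [List.take_append_drop, List.take_append_drop]
  refine ⟨W.take k, (W.drop k).take k, ?_, ?_, ?_, ?_⟩
  · rw [List.length_take]
    omega
  · rw [List.length_take, List.length_drop]
    omega
  · intro c hc
    have := hinf.subset hc
    rw [hW, List.mem_map] at this
    obtain ⟨d, _, rfl⟩ := this
    exact d.isLt
  · intro hv
    obtain ⟨u, v, u', h1, h2, h3, h4⟩ := hv.mono hinf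
    have hu : 0 < u.length := List.length_pos_iff.2 h3
    have hu0 : (0 : ℝ) < u.length := by exact_mod_cast hu
    have hv0 : (0 : ℝ) ≤ v.length := by positivity
    have hr : ((u ++ v ++ u).length : ℝ) / ((u ++ v).length : ℝ) =
        1 + u.length / (u.length + v.length) := by
      simp only [List.length_append]
      push_cast
      field_simp
    apply hw (1 + u.length / (u.length + v.length))
    · have h5 : (B : ℝ) * v.length ≤ A * u.length := by exact_mod_cast h4
      have h6 : s - 1 ≤ u.length / (u.length + v.length) := by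
        rw [le_div_iff₀ (by linarith)]
        have h7 : (s - 1) * ((B : ℝ) * v.length) ≤ (s - 1) * (A * u.length) :=
          mul_le_mul_of_nonneg_left h5 (by linarith)
        have h8 : ((A : ℝ) * (s - 1)) * u.length ≤ (B * (2 - s)) * u.length :=
          mul_le_mul_of_nonneg_right hAB hu0.le
        have hB0 : (0 : ℝ) < B := by exact_mod_cast hB
        have h9 : (B : ℝ) * ((s - 1) * v.length) ≤ B * ((2 - s) * u.length) := by linarith
        have h10 := le_of_mul_le_mul_left h9 hB0
        linarith
      linarith
    · have : (0 : ℝ) < u.length / (u.length + v.length) := by positivity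
      linarith
    · have : (u.length : ℝ) / (u.length + v.length) ≤ 1 := by
        rw [div_le_one (by linarith)]
        linarith
      linarith
    · have henc : Encounters W (1 + u.length / (u.length + v.length)) :=
        ⟨u, v, u', h1, h2, hr⟩
      rw [hW] at henc
      exact henc.of_map Fin.val_injective

end

end MPbbea99S
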