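import Mathlib

/-!
# MP_bbea99_co: packed arrays of natural numbers
-/

namespace MPbbea99S

open Finset

/-- the array `f 0, ..., f (L-1)` in fields of `F` bits -/
def pk (F : ℕ) (f : ℕ → ℕ) : ℕ → ℕ
  | 0 => 0
  | L + 1 => pk F f L + f L <<< (F * L)

lemma pk_succ (F : ℕ) (f : ℕ → ℕ) (L : ℕ) :
    pk F f (L + 1) = pk F f L + f L * 2 ^ (F * L) := by
  rw [pk, Nat.shiftLeft_eq]

lemma pk_congr {F : ℕ} {f g : ℕ → ℕ} {L : ℕ} (h : ∀ i, i < L → f i = g i) :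
    pk F f L = pk F g L := by
  induction L with
  | zero => rfl
  | succ L ih => rw [pk_succ, pk_succ, ih (fun i hi => h i (by omega)), h L (by omega)]

lemma pk_add (F : ℕ) (f g : ℕ → ℕ) (L : ℕ) :
    pk F (fun i => f i + g i) L = pk F f L + pk F g L := by
  induction L with
  | zero => rfl
  | succ L ih =>
    rw [pk_succ, pk_succ, pk_succ, ih]
    ring

lemma pk_lt {F : ℕ} {f : ℕ → ℕ} {L : ℕ} (h : ∀ i, i < L → f i < 2 ^ F) :
    pk F f L < 2 ^ (F * L) := by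
  induction L with
  | zero => simp [pk]
  | succ L ih =>
    rw [pk_succ]
    have h1 := ih (fun i hi => h i (by omega))
    have h2 : (f L + 1) * 2 ^ (F * L) ≤ 2 ^ F * 2 ^ (F * L) :=
      Nat.mul_le_mul (h L (by omega)) le_rfl
    have e : F * (L + 1) = F + F * L := by ring
    rw [e, pow_add]
    linarith

/-- the part above field `s` -/
lemma pk_shift {F : ℕ} {f : ℕ → ℕ} (s L : ℕ) (h : ∀ i, i < s → f i < 2 ^ F) :
    pk F f (s + L) = pk F f s + 2 ^ (F * s) * pk F (fun i => f (i + s)) L := by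
  induction L with
  | zero => simp [pk]
  | succ L ih =>
    rw [← Nat.add_assoc, pk_succ, pk_succ, ih]
    have e : F * (s + L) = F * s + F * L := by ring
    rw [e, pow_add, Nat.add_comm L s]
    ring

lemma pk_div {F : ℕ} {f : ℕ → ℕ} (s L : ℕ) (h : ∀ i, i < s → f i < 2 ^ F) :
    pk F f (s + L) / 2 ^ (F * s) = pk F (fun i => f (i + s)) L := by
  rw [pk_shift s L h, Nat.add_mul_div_left _ _ (by positivity), Nat.div_eq_of_lt (pk_lt h),
    Nat.zero_add]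

lemma pk_mod {F : ℕ} {f : ℕ → ℕ} (s L : ℕ) (h : ∀ i, i < s → f i < 2 ^ F) :
    pk F f (s + L) % 2 ^ (F * s) = pk F f s := by
  rw [pk_shift s L h, Nat.add_mul_mod_self_left, Nat.mod_eq_of_lt (pk_lt h)]

/-- reading a field -/
lemma pk_field {F : ℕ} {f : ℕ → ℕ} {L i : ℕ} (h : ∀ i, i < L → f i < 2 ^ F) (hi : i < L) :
    pk F f L / 2 ^ (F * i) % 2 ^ F = f i := by
  obtain ⟨k, rfl⟩ : ∃ k, L = i + (1 + k) := ⟨L - i - 1, by omega⟩
  rw [pk_div i (1 + k) (fun j hj => h j (by omega))]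
  have h2 := pk_mod (F := F) (f := fun j => f (j + i)) 1 k (by
    intro j hj
    exact h _ (by omega))
  rw [Nat.mul_one] at h2
  rw [h2, pk_succ]
  simp [pk]

/-- extension by zero fields -/
lemma pk_ext {F : ℕ} {f : ℕ → ℕ} {L : ℕ} (k : ℕ) (h : ∀ i, L ≤ i → f i = 0) :
    pk F f (L + k) = pk F f L := by
  induction k with
  | zero => rfl
  | succ k ih => rw [← Nat.add_assoc, pk_succ, ih, h _ (by omega)]; simp

/-- bounded fields bound the low part -/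
lemma low_le {F X : ℕ} (hF : 1 ≤ F) {i : ℕ}
    (h : ∀ j, j < i → X / 2 ^ (F * j) % 2 ^ F < 2 ^ (F - 1)) :
    X % 2 ^ (F * i) ≤ pk F (fun _ => 2 ^ (F - 1) - 1) i := by
  induction i with
  | zero => simp [pk, Nat.mod_one]
  | succ i ih =>
    have h1 := ih (fun j hj => h j (by omega))
    have h2 := h i (by omega)
    have e : F * (i + 1) = F * i + F := by ring
    rw [e, pow_add, Nat.mod_mul, pk_succ]
    have h3 : 2 ^ (F * i) * (X / 2 ^ (F * i) % 2 ^ F) ≤ 2 ^ (F * i) * (2 ^ (F - 1) - 1) :=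
      Nat.mul_le_mul le_rfl (by omega)
    linarith

lemma two_mul_pk {F : ℕ} (hF : 1 ≤ F) (i : ℕ) :
    2 * pk F (fun _ => 2 ^ (F - 1) - 1) i < 2 ^ (F * i) := by
  have h1 : 2 * pk F (fun _ => 2 ^ (F - 1) - 1) i = pk F (fun _ => 2 ^ F - 2) i := by
    have := pk_add F (fun _ => 2 ^ (F - 1) - 1) (fun _ => 2 ^ (F - 1) - 1) i
    rw [two_mul, ← this]
    apply pk_congr
    intro _ _
    have e : F = (F - 1) + 1 := by omega
    have h0 : 0 < 2 ^ (F - 1) := by positivity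
    have h2 : 2 ^ F = 2 * 2 ^ (F - 1) := by
      conv_lhs => rw [e]
      rw [pow_succ]
      ring
    omega
  rw [h1]
  apply pk_lt
  intro _ _
  have : 0 < 2 ^ F := by positivity
  omega

/-- no zero field -/
def nz (X : ℕ) (K G : ℕ) : Bool := Nat.beq (Nat.land (X + K) G) G

lemma nz_sound {F Cnt X K G : ℕ} (hF : 1 ≤ F) (hK : K = pk F (fun _ => 2 ^ (F - 1) - 1) Cnt)
    (hG : G = pk F (fun _ => 2 ^ (F - 1)) Cnt)
    (hX : ∀ i, i < Cnt → X / 2 ^ (F * i) % 2 ^ F < 2 ^ (F - 1))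
    (h : nz X K G = true) {i : ℕ} (hi : i < Cnt) : X / 2 ^ (F * i) % 2 ^ F ≠ 0 := by
  intro h0
  have h1 : (X + K) &&& G = G := Nat.eq_of_beq_eq_true h
  obtain ⟨k, hk⟩ : ∃ k, Cnt = i + (1 + k) := ⟨Cnt - i - 1, by omega⟩
  have hlt : 2 ^ (F - 1) < 2 ^ F := Nat.pow_lt_pow_right (by norm_num) (by omega)
  have hK1 : K / 2 ^ (F * i) % 2 ^ F = 2 ^ (F - 1) - 1 := by
    rw [hK]
    exact pk_field (fun j _ => by omega) hi
  have hG1 : G / 2 ^ (F * i) % 2 ^ F = 2 ^ (F - 1) := by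
    rw [hG]
    exact pk_field (fun j _ => hlt) hi
  have hK0 : K % 2 ^ (F * i) = pk F (fun _ => 2 ^ (F - 1) - 1) i := by
    rw [hK, hk]
    exact pk_mod i (1 + k) (fun j _ => by omega)
  have hX0 : X % 2 ^ (F * i) ≤ pk F (fun _ => 2 ^ (F - 1) - 1) i :=
    low_le hF (fun j hj => hX j (by omega))
  have h2 := two_mul_pk hF i
  have hsum : (X + K) / 2 ^ (F * i) = X / 2 ^ (F * i) + K / 2 ^ (F * i) := by
    have hp : 0 < 2 ^ (F * i) := by positivity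
    have e1 := Nat.div_add_mod X (2 ^ (F * i))
    have e2 := Nat.div_add_mod K (2 ^ (F * i))
    have e3 : X + K = (X % 2 ^ (F * i) + K % 2 ^ (F * i)) +
        2 ^ (F * i) * (X / 2 ^ (F * i) + K / 2 ^ (F * i)) := by
      rw [mul_add]
      omega
    rw [e3, Nat.add_mul_div_left _ _ hp, Nat.div_eq_of_lt (by rw [hK0]; omega), Nat.zero_add]
  have hfield : (X + K) / 2 ^ (F * i) % 2 ^ F = 2 ^ (F - 1) - 1 := by
    rw [hsum, Nat.add_mod, h0, hK1, Nat.zero_add]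
    exact Nat.mod_eq_of_lt (by omega)
  have h3 : ((X + K) &&& G) / 2 ^ (F * i) % 2 ^ F =
      ((X + K) / 2 ^ (F * i) % 2 ^ F) &&& (G / 2 ^ (F * i) % 2 ^ F) := by
    rw [← Nat.shiftRight_eq_div_pow, Nat.shiftRight_and_distrib, Nat.and_mod_two_pow,
      Nat.shiftRight_eq_div_pow, Nat.shiftRight_eq_div_pow]
  rw [h1, hfield, hG1] at h3
  have h4 : (2 ^ (F - 1) - 1) &&& 2 ^ (F - 1) = 0 := by
    rw [Nat.and_comm, Nat.and_two_pow_sub_one_eq_mod, Nat.mod_self]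
  rw [h4] at h3
  have : 0 < 2 ^ (F - 1) := by positivity
  omega

lemma xor_field (F A B i : ℕ) : (A ^^^ B) / 2 ^ (F * i) % 2 ^ F =
    (A / 2 ^ (F * i) % 2 ^ F) ^^^ (B / 2 ^ (F * i) % 2 ^ F) := by
  rw [← Nat.shiftRight_eq_div_pow, Nat.shiftRight_xor_distrib, Nat.xor_mod_two_pow,
    Nat.shiftRight_eq_div_pow, Nat.shiftRight_eq_div_pow]

/-- fields `i` and `i + s` differ for all `i < Cnt` -/
lemma nz_ne {F Cnt Q s K G : ℕ} (hF : 1 ≤ F) (hK : K = pk F (fun _ => 2 ^ (F - 1) - 1) Cnt)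
    (hG : G = pk F (fun _ => 2 ^ (F - 1)) Cnt)
    (hQ : ∀ i, Q / 2 ^ (F * i) % 2 ^ F < 2 ^ (F - 1))
    (h : nz (Nat.xor Q (Nat.shiftRight Q (F * s))) K G = true) {i : ℕ} (hi : i < Cnt) :
    Q / 2 ^ (F * i) % 2 ^ F ≠ Q / 2 ^ (F * (i + s)) % 2 ^ F := by
  have hsh : ∀ j, (Q >>> (F * s)) / 2 ^ (F * j) % 2 ^ F = Q / 2 ^ (F * (j + s)) % 2 ^ F := by
    intro j
    rw [Nat.shiftRight_eq_div_pow, Nat.div_div_eq_div_mul, ← pow_add]
    congr 3
    ring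
  have h1 : (Q ^^^ (Q >>> (F * s))) / 2 ^ (F * i) % 2 ^ F ≠ 0 := by
    apply nz_sound hF hK hG _ h hi
    intro j _
    show (Q ^^^ (Q >>> (F * s))) / 2 ^ (F * j) % 2 ^ F < 2 ^ (F - 1)
    rw [xor_field, hsh]
    exact Nat.xor_lt_two_pow (hQ j) (hQ _)
  intro heq
  apply h1
  rw [xor_field, hsh, heq, Nat.xor_self]

end MPbbea99S
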