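import Pool.Agent.Lib.Pbbea99S.Seq

/-!
# MP_bbea99_co: parents of Abelian repetitions in digit-sum sequences
-/

namespace MPbbea99S

open Finset

/-- a linear functional of the prefix vectors -/
def fs (n : ℕ) (w φ : ℕ → ℕ) (d r : ℕ) : ℕ := ∑ c ∈ range n, φ c * pre n w d r c

/-- an admissible description of a coincidence by its parent -/
structure Sol (n l : ℕ) (w : ℕ → ℕ) (A B m0 Lb : ℕ) (Exc : List (ℕ × ℕ))
    (bad : ℕ × ℕ → ℕ → ℕ → ℕ → ℕ → ℕ → ℕ → ℕ → Bool)
    (c1 d0 d1 a0 a1 b0 b1 e1 e2 e3 e4 : ℕ) : Prop where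
  le1 : e1 ≤ 1
  le2 : e2 ≤ 1
  le3 : e3 ≤ 1
  le4 : e4 ≤ 1
  vec : ∀ c, c < n → pre n w 0 a0 c + pre n w d1 b1 c + e2 * pre n w c1 l c + e3 * pre n w d0 l c
    = pre n w c1 a1 c + pre n w d0 b0 c + e1 * pre n w 0 l c + e4 * pre n w d1 l c
  ord : c1 = d0 → a1 ≤ b0 → e2 ≤ e3
  bd : (A + B) * a1 + B * (l * e3) + A * (l * e1) + m0 ≤
    l * m0 + (A + B) * (l * e2) + B * b0 + A * a0
  exc : ∀ e ∈ Exc, (A + B) * a1 + B * (l * e3) + A * (l * e1) + m0 + l * (A * e.1) ≤
      l * (B * e.2) + (A + B) * (l * e2) + B * b0 + A * a0 ∨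
    l * e.1 + a1 + l * e1 ≤ Lb + l * e2 + a0 ∨ bad e c1 d0 d1 e1 e2 e3 e4 = true

/-- every coincidence detected by the functional is admissible -/
def HT (n l : ℕ) (w φ : ℕ → ℕ) (N A B m0 Lb : ℕ) (Exc : List (ℕ × ℕ))
    (bad : ℕ × ℕ → ℕ → ℕ → ℕ → ℕ → ℕ → ℕ → ℕ → Bool) : Prop :=
  ∀ c1 d0 d1 a0 a1 b0 b1, c1 < n → d0 < n → d1 < n → a0 < l → a1 < l → b0 < l → b1 < l →
    (fs n w φ 0 a0 + fs n w φ d1 b1) % N = (fs n w φ c1 a1 + fs n w φ d0 b0) % N →
    ∃ e1 e2 e3 e4, Sol n l w A B m0 Lb Exc bad c1 d0 d1 a0 a1 b0 b1 e1 e2 e3 e4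

/-- the substitution matrix is injective -/
def Inj (n l : ℕ) (w : ℕ → ℕ) : Prop :=
  ∀ Y : ℕ → ℤ, (∀ c, c < n → ∑ d ∈ range n, (pre n w d l c : ℤ) * Y d = 0) → ∀ d, d < n → Y d = 0

section

variable {n l : ℕ} {w φ : ℕ → ℕ} {N A B m0 Lb : ℕ} {Exc : List (ℕ × ℕ)}
  {bad : ℕ × ℕ → ℕ → ℕ → ℕ → ℕ → ℕ → ℕ → ℕ → Bool}

lemma sum_phi {y : ℕ → ℕ} (hφ : ∀ d, d < n → fs n w φ d l % N = 0) (q : ℕ) :
    (∑ c ∈ range n, φ c * ∑ d ∈ range n, pre n w d l c * cn y d q) % N = 0 := by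
  have h1 : ∑ c ∈ range n, φ c * ∑ d ∈ range n, pre n w d l c * cn y d q =
      ∑ d ∈ range n, fs n w φ d l * cn y d q := by
    unfold fs
    simp_rw [Finset.mul_sum, Finset.sum_mul]
    rw [Finset.sum_comm]
    apply Finset.sum_congr rfl
    intro d _
    apply Finset.sum_congr rfl
    intro c _
    ring
  rw [h1]
  apply Nat.mod_eq_zero_of_dvd
  apply Finset.dvd_sum
  intro d hd
  exact Dvd.dvd.mul_right (Nat.dvd_of_mod_eq_zero (hφ d (Finset.mem_range.1 hd))) _

lemma sum_succ_le {y : ℕ → ℕ} (hy : ∀ i, y i < n) (c q e : ℕ) (he : e ≤ 1) :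
    ∑ d ∈ range n, pre n w d l c * cn y d (q + e) =
      (∑ d ∈ range n, pre n w d l c * cn y d q) + e * pre n w (y q) l c := by
  rcases Nat.le_one_iff_eq_zero_or_eq_one.1 he with h | h
  · subst h
    simp
  · subst h
    have h1 : ∀ d ∈ range n, pre n w d l c * cn y d (q + 1) =
        pre n w d l c * cn y d q + if y q = d then pre n w d l c else 0 := by
      intro d _
      rw [cn_succ]
      split_ifs <;> ring
    rw [Finset.sum_congr rfl h1, Finset.sum_add_distrib, Finset.sum_ite_eq,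
      if_pos (Finset.mem_range.2 (hy q)), one_mul]

theorem parent {y : ℕ → ℕ} (h : IsSeq n l w y) (hl : 0 < l)
    (hφ : ∀ d, d < n → fs n w φ d l % N = 0) (inj : Inj n l w)
    (ht : HT n l w φ N A B m0 Lb Exc bad) {a b m : ℕ}
    (hy : y (a / l) = 0) (hex : Ex n y a b m) :
    ∃ e1 e2 e3 e4, Sol n l w A B m0 Lb Exc bad (y ((a + m) / l)) (y (b / l)) (y ((b + m) / l))
        (a % l) ((a + m) % l) (b % l) ((b + m) % l) e1 e2 e3 e4 ∧
      ∀ d, d < n → cn y d ((a + m) / l + e2) + cn y d (b / l + e3) =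
        cn y d ((b + m) / l + e4) + cn y d (a / l + e1) := by
  have hm : ∀ z : ℕ, z % l < l := fun z => Nat.mod_lt _ hl
  have hrec : ∀ c z, cn y c z =
      (∑ d ∈ range n, pre n w d l c * cn y d (z / l)) + pre n w (y (z / l)) (z % l) c := by
    intro c z
    rw [← cn_rec h c (z / l) (z % l) (hm z).le, Nat.div_add_mod]
  have hex' : ∀ c, c < n →
      (∑ d ∈ range n, pre n w d l c * cn y d ((a + m) / l)) +
        pre n w (y ((a + m) / l)) ((a + m) % l) c +
      ((∑ d ∈ range n, pre n w d l c * cn y d (b / l)) + pre n w (y (b / l)) (b % l) c) =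
      (∑ d ∈ range n, pre n w d l c * cn y d ((b + m) / l)) +
        pre n w (y ((b + m) / l)) ((b + m) % l) c +
      ((∑ d ∈ range n, pre n w d l c * cn y d (a / l)) + pre n w 0 (a % l) c) := by
    intro c hc
    have := hex c hc
    rw [hrec c (a + m), hrec c b, hrec c (b + m), hrec c a, hy] at this
    exact this
  -- the functional
  have hfun : (fs n w φ 0 (a % l) + fs n w φ (y ((b + m) / l)) ((b + m) % l)) % N =
      (fs n w φ (y ((a + m) / l)) ((a + m) % l) + fs n w φ (y (b / l)) (b % l)) % N := by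
    have h1 : ∑ c ∈ range n, φ c *
        ((∑ d ∈ range n, pre n w d l c * cn y d ((a + m) / l)) +
          pre n w (y ((a + m) / l)) ((a + m) % l) c +
        ((∑ d ∈ range n, pre n w d l c * cn y d (b / l)) + pre n w (y (b / l)) (b % l) c)) =
        ∑ c ∈ range n, φ c *
        ((∑ d ∈ range n, pre n w d l c * cn y d ((b + m) / l)) +
          pre n w (y ((b + m) / l)) ((b + m) % l) c +
        ((∑ d ∈ range n, pre n w d l c * cn y d (a / l)) + pre n w 0 (a % l) c)) := by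
      apply Finset.sum_congr rfl
      intro c hc
      rw [hex' c (Finset.mem_range.1 hc)]
    simp only [mul_add, Finset.sum_add_distrib] at h1
    have z1 := sum_phi (y := y) hφ ((a + m) / l)
    have z2 := sum_phi (y := y) hφ (b / l)
    have z3 := sum_phi (y := y) hφ ((b + m) / l)
    have z4 := sum_phi (y := y) hφ (a / l)
    have f1 : ∑ c ∈ range n, φ c * pre n w (y ((a + m) / l)) ((a + m) % l) c =
      fs n w φ (y ((a + m) / l)) ((a + m) % l) := rfl
    have f2 : ∑ c ∈ range n, φ c * pre n w (y (b / l)) (b % l) c =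
      fs n w φ (y (b / l)) (b % l) := rfl
    have f3 : ∑ c ∈ range n, φ c * pre n w (y ((b + m) / l)) ((b + m) % l) c =
      fs n w φ (y ((b + m) / l)) ((b + m) % l) := rfl
    have f4 : ∑ c ∈ range n, φ c * pre n w 0 (a % l) c = fs n w φ 0 (a % l) := rfl
    rw [f1, f2, f3, f4] at h1
    obtain ⟨k1, hk1⟩ := Nat.dvd_of_mod_eq_zero z1
    obtain ⟨k2, hk2⟩ := Nat.dvd_of_mod_eq_zero z2
    obtain ⟨k3, hk3⟩ := Nat.dvd_of_mod_eq_zero z3
    obtain ⟨k4, hk4⟩ := Nat.dvd_of_mod_eq_zero z4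
    rw [hk1, hk2, hk3, hk4] at h1
    have h2 : (N * (k1 + k2) + (fs n w φ (y ((a + m) / l)) ((a + m) % l) +
        fs n w φ (y (b / l)) (b % l))) % N =
        (N * (k3 + k4) + (fs n w φ 0 (a % l) + fs n w φ (y ((b + m) / l)) ((b + m) % l))) % N := by
      congr 1
      rw [mul_add, mul_add]
      linarith
    rw [Nat.mul_add_mod, Nat.mul_add_mod] at h2
    exact h2.symm
  obtain ⟨e1, e2, e3, e4, hs⟩ := ht _ _ _ _ _ _ _ (h.lt _) (h.lt _) (h.lt _) (hm a) (hm (a + m))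
    (hm b) (hm (b + m)) hfun
  refine ⟨e1, e2, e3, e4, hs, ?_⟩
  have hz := inj (fun d => (cn y d ((a + m) / l + e2) : ℤ) + cn y d (b / l + e3) -
    cn y d ((b + m) / l + e4) - cn y d (a / l + e1)) ?_
  · intro d hd
    have := hz d hd
    have h3 : (cn y d ((a + m) / l + e2) : ℤ) + cn y d (b / l + e3) =
      cn y d ((b + m) / l + e4) + cn y d (a / l + e1) := by linarith
    exact_mod_cast h3
  · intro c hc
    have s1 := sum_succ_le (w := w) (l := l) h.lt c ((a + m) / l) e2 hs.le2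
    have s2 := sum_succ_le (w := w) (l := l) h.lt c (b / l) e3 hs.le3
    have s3 := sum_succ_le (w := w) (l := l) h.lt c ((b + m) / l) e4 hs.le4
    have s4 := sum_succ_le (w := w) (l := l) h.lt c (a / l) e1 hs.le1
    have hv := hs.vec c hc
    have hx := hex' c hc
    rw [hy] at s4
    have key : (∑ d ∈ range n, pre n w d l c * cn y d ((a + m) / l + e2)) +
        (∑ d ∈ range n, pre n w d l c * cn y d (b / l + e3)) =
        (∑ d ∈ range n, pre n w d l c * cn y d ((b + m) / l + e4)) +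
        (∑ d ∈ range n, pre n w d l c * cn y d (a / l + e1)) := by
      rw [s1, s2, s3, s4]
      linarith
    have key' : ((∑ d ∈ range n, pre n w d l c * cn y d ((a + m) / l + e2) : ℕ) : ℤ) +
        ((∑ d ∈ range n, pre n w d l c * cn y d (b / l + e3) : ℕ) : ℤ) =
        ((∑ d ∈ range n, pre n w d l c * cn y d ((b + m) / l + e4) : ℕ) : ℤ) +
        ((∑ d ∈ range n, pre n w d l c * cn y d (a / l + e1) : ℕ) : ℤ) := by
      exact_mod_cast key
    push_cast at key'
    have : ∀ d, (pre n w d l c : ℤ) * ((cn y d ((a + m) / l + e2) : ℤ) + cn y d (b / l + e3) -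
        cn y d ((b + m) / l + e4) - cn y d (a / l + e1)) =
        (pre n w d l c : ℤ) * cn y d ((a + m) / l + e2) + (pre n w d l c : ℤ) * cn y d (b / l + e3) -
        (pre n w d l c : ℤ) * cn y d ((b + m) / l + e4) -
        (pre n w d l c : ℤ) * cn y d (a / l + e1) := fun d => by ring
    simp only [this, Finset.sum_sub_distrib, Finset.sum_add_distrib]
    linarith

end

end MPbbea99S
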