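import Pool.Agent.Lib.Pbbea99S.Parent
import Pool.Agent.Lib.Pbbea99S.Pack

/-!
# MP_bbea99_co: checking all coincidences
-/

namespace MPbbea99S

open Finset

/-- field `i` of `T`; `M` is the size `2 ^ F` of a field -/
def fd (F M T i : ℕ) : ℕ := Nat.mod (Nat.shiftRight T (Nat.mul F i)) M

/-- the data of a check -/
structure Par where
  n : ℕ
  l : ℕ
  N : ℕ
  N' : ℕ
  A : ℕ
  B : ℕ
  m0 : ℕ
  sp : ℕ
  bF : ℕ
  MF : ℕ
  TF : ℕ
  TB : ℕ
  bQ : ℕ
  MQ : ℕ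
  T0 : ℕ
  T1 : ℕ
  T3 : ℕ
  bm : ℕ

/-- the bits of the entries -/
noncomputable def lorE (bF MF TB M : ℕ) (row : List ℕ) : ℕ :=
  List.rec 0 (fun x _ ih => Nat.lor (Nat.shiftLeft 1
    (fd bF MF TB (Nat.shiftRight (Nat.mod x M) 1))) ih) row

/-- all members of the list satisfy `f` -/
noncomputable def allL (f : ℕ → Bool) (row : List ℕ) : Bool :=
  List.rec true (fun x _ ih => and (f x) ih) row

/-- check of a true entry -/
def eT (l A B m0 sp bQ MQ T0 T1 T3 a0 i2 j1 j3 e1 e3 : ℕ) : Bool :=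
  and (Nat.beq (Nat.add (fd bQ MQ T0 (Nat.add (Nat.mul 2 a0) e1)) (fd bQ MQ T3 j3))
    (Nat.add (fd bQ MQ T1 j1) (fd bQ MQ T0 (Nat.add (Nat.mul 2 i2) e3))))
  (and (Nat.ble
    (Nat.add (Nat.add (Nat.add (Nat.mul (Nat.add A B) (Nat.mod (Nat.shiftRight j1 1) l))
      (Nat.mul B (Nat.mul l e3))) (Nat.mul A (Nat.mul l e1))) m0)
    (Nat.add (Nat.add (Nat.add (Nat.mul l m0) (Nat.mul (Nat.add A B) (Nat.mul l (Nat.mod j1 2))))
      (Nat.mul B (Nat.mod i2 l))) (Nat.mul A a0)))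
  (or (Nat.beq (Nat.mod j1 2) 0) (or (Nat.beq e3 1)
    (or (Nat.ble (Nat.succ (Nat.mod i2 l)) (Nat.mod (Nat.shiftRight j1 1) l))
      (and (not (Nat.beq (Nat.div (Nat.shiftRight j1 1) l) (Nat.div i2 l)))
        (not (Nat.beq (Nat.mod (Nat.shiftRight j1 1) l) sp)))))))

/-- check of an entry -/
def eOK (l N N' A B m0 sp bF MF TF bQ MQ T0 T1 T3 M a0 i2 x : ℕ) : Bool :=
  bif Nat.ble 4 (Nat.div x (Nat.mul M M)) then
    and (Nat.beq (Nat.mod (Nat.add (fd bF MF TF a0)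
        (fd bF MF TF (Nat.shiftRight (Nat.mod (Nat.div x M) M) 1))) N')
      (Nat.mod (Nat.add (fd bF MF TF (Nat.shiftRight (Nat.mod x M) 1)) (fd bF MF TF i2)) N'))
    (not (Nat.beq (Nat.mod (Nat.add (fd bF MF TF a0)
        (fd bF MF TF (Nat.shiftRight (Nat.mod (Nat.div x M) M) 1))) N)
      (Nat.mod (Nat.add (fd bF MF TF (Nat.shiftRight (Nat.mod x M) 1)) (fd bF MF TF i2)) N)))
  else eT l A B m0 sp bQ MQ T0 T1 T3 a0 i2 (Nat.mod x M) (Nat.mod (Nat.div x M) M)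
    (Nat.mod (Nat.div x (Nat.mul M M)) 2) (Nat.div (Nat.div x (Nat.mul M M)) 2)

/-- check of a row; `d` is the difference of the residues -/
noncomputable def rowOK (l N N' A B m0 sp bF MF TF TB bQ MQ T0 T1 T3 bm M a0 i2 : ℕ)
    (row : List ℕ) : Bool :=
  and (Nat.beq (Nat.land (Nat.lor
      (Nat.shiftLeft bm (Nat.mod (Nat.sub (Nat.add (fd bF MF TB a0) N') (fd bF MF TB i2)) N'))
      (Nat.shiftRight bm (Nat.sub N'
        (Nat.mod (Nat.sub (Nat.add (fd bF MF TB a0) N') (fd bF MF TB i2)) N')))) bm)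
    (lorE bF MF TB M row))
  (allL (eOK l N N' A B m0 sp bF MF TF bQ MQ T0 T1 T3 M a0 i2) row)

/-- check of the rows `k - 1, ..., 0` -/
noncomputable def rowsOK (l N N' A B m0 sp bF MF TF TB bQ MQ T0 T1 T3 bm M a0 k : ℕ)
    (rows : List (List ℕ)) : Bool :=
  Nat.rec (motive := fun _ => List (List ℕ) → Bool) (fun _ => true)
    (fun k ih rows => List.casesOn rows false (fun r rs =>
      and (rowOK l N N' A B m0 sp bF MF TF TB bQ MQ T0 T1 T3 bm M a0 k r) (ih rs))) k rows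

/-- the facts about the tables -/
structure Tabs (n l : ℕ) (w φ : ℕ → ℕ) (N N' sp bF MF TF TB bQ MQ T0 T1 T3 bm K P1 P3 Pb : ℕ) :
    Prop where
  hl : 0 < l
  hN : 0 < N
  hN' : 0 < N'
  hdvd : N' ∣ N
  hF : ∀ d, d < n → ∀ r, r < l → fd bF MF TF (d * l + r) = fs n w φ d r % N
  hB : ∀ i, i < n * l → fd bF MF TB i = fd bF MF TF i % N'
  hQ : ∀ d, d < n → ∀ r, r < l → ∀ e, e ≤ 1 → fd bQ MQ T0 (2 * (d * l + r) + e) +
    e * pk 10 (pre n w d l) n = K + pk 10 (pre n w d r) n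
  h1 : ∀ j, j < 2 * (n * l) → (j % (2 * l) ≠ 1 ∧ j % (2 * l) ≠ 2 * sp ∧
    fd bQ MQ T1 j = fd bQ MQ T0 j) ∨ fd bQ MQ T1 j = P1
  h3 : ∀ j, j < 2 * (n * l) → (j % (2 * l) ≠ 1 ∧ j % (2 * l) ≠ 2 * sp ∧
    fd bQ MQ T3 j = fd bQ MQ T0 j) ∨ fd bQ MQ T3 j = P3
  hPb : ∀ j, j < 2 * (n * l) → fd bQ MQ T0 j < Pb
  hP1 : 2 * Pb ≤ P1
  hP3 : P1 + Pb ≤ P3
  hinj : ∀ i, i < n * l → ∀ i', i' < n * l → fd bF MF TB i = fd bF MF TB i' →
    fd bF MF TF i = fd bF MF TF i' ∧ (i = i' ∨ (i % l = i' % l ∧ (i % l = 0 ∨ i % l = sp)))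
  hsp : sp < l → ∀ d, d < n → ∀ c, c < n →
    pre n w d sp c + pre n w 0 l c = pre n w 0 sp c + pre n w d l c
  hbm : ∀ i, i < n * l → Nat.testBit bm (fd bF MF TB i) = true
  hcnt : 4 * l < 2 ^ 10
  hφ : ∀ d, d < n → fs n w φ d l % N = 0

lemma pre_le (n : ℕ) (w : ℕ → ℕ) (d r c : ℕ) : pre n w d r c ≤ r := by
  unfold pre
  exact Nat.count_le _

lemma pk_mul (F : ℕ) (f : ℕ → ℕ) (e L : ℕ) : pk F (fun i => e * f i) L = e * pk F f L := by
  induction L with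
  | zero => simp [pk]
  | succ L ih =>
    rw [pk_succ, pk_succ, ih]
    ring

lemma pk_inj {F : ℕ} {f g : ℕ → ℕ} {L : ℕ} (hf : ∀ i, i < L → f i < 2 ^ F)
    (hg : ∀ i, i < L → g i < 2 ^ F) (h : pk F f L = pk F g L) : ∀ i, i < L → f i = g i := by
  intro i hi
  rw [← pk_field hf hi, ← pk_field hg hi, h]

lemma lorE_nil (bF MF TB M : ℕ) : lorE bF MF TB M [] = 0 := rfl

lemma lorE_cons (bF MF TB M x : ℕ) (row : List ℕ) : lorE bF MF TB M (x :: row) =
    (1 <<< (fd bF MF TB ((x % M) >>> 1))) ||| lorE bF MF TB M row := rfl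

lemma lorE_bit {bF MF TB M : ℕ} {row : List ℕ} {v : ℕ}
    (h : Nat.testBit (lorE bF MF TB M row) v = true) :
    ∃ x ∈ row, fd bF MF TB ((x % M) >>> 1) = v := by
  induction row with
  | nil =>
    rw [lorE_nil, Nat.zero_testBit] at h
    exact absurd h (by simp)
  | cons x row ih =>
    rw [lorE_cons, Nat.testBit_or, Bool.or_eq_true] at h
    rcases h with h | h
    · refine ⟨x, by simp, ?_⟩
      rw [Nat.testBit_shiftLeft, Bool.and_eq_true, decide_eq_true_eq] at h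
      obtain ⟨h1, h2⟩ := h
      by_contra hne
      have : v - fd bF MF TB ((x % M) >>> 1) ≠ 0 := by omega
      rw [Nat.testBit_one_eq_true_iff_self_eq_zero] at h2
      exact this h2
    · obtain ⟨y, hy, hv⟩ := ih h
      exact ⟨y, by simp [hy], hv⟩

lemma allL_mem {f : ℕ → Bool} {row : List ℕ} (h : allL f row = true) {x : ℕ} (hx : x ∈ row) :
    f x = true := by
  induction row with
  | nil => simp at hx
  | cons y row ih =>
    have h' : (f y && allL f row) = true := h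
    rw [Bool.and_eq_true] at h'
    rcases List.mem_cons.1 hx with rfl | hx
    · exact h'.1
    · exact ih h'.2 hx

section

variable {n l : ℕ} {w φ : ℕ → ℕ} {N N' A B m0 sp bF MF TF TB bQ MQ T0 T1 T3 bm K P1 P3 Pb M : ℕ}

lemma rowsOK_row {a0 : ℕ} : ∀ {k : ℕ} {rows : List (List ℕ)},
    rowsOK l N N' A B m0 sp bF MF TF TB bQ MQ T0 T1 T3 bm M a0 k rows = true →
    ∀ i2, i2 < k → ∃ r, rowOK l N N' A B m0 sp bF MF TF TB bQ MQ T0 T1 T3 bm M a0 i2 r = true := by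
  intro k
  induction k with
  | zero => intro rows _ i2 h; omega
  | succ k ih =>
    intro rows h i2 hi2
    cases rows with
    | nil => exact absurd h (by simp [rowsOK])
    | cons r rs =>
      have h' : (rowOK l N N' A B m0 sp bF MF TF TB bQ MQ T0 T1 T3 bm M a0 k r &&
        rowsOK l N N' A B m0 sp bF MF TF TB bQ MQ T0 T1 T3 bm M a0 k rs) = true := h
      rw [Bool.and_eq_true] at h'
      rcases Nat.lt_or_ge i2 k with h1 | h1
      · exact ih h'.2 i2 h1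
      · have : i2 = k := by omega
        subst this
        exact ⟨r, h'.1⟩

/-- the vector equation of an entry -/
lemma vec_of_pk (t : Tabs n l w φ N N' sp bF MF TF TB bQ MQ T0 T1 T3 bm K P1 P3 Pb)
    {a0 d0 b0 c1 a1 d1 b1 e1 e2 e3 e4 : ℕ} (ha0 : a0 < l) (hn : 0 < n) (hd0 : d0 < n)
    (hb0 : b0 < l) (hc1 : c1 < n) (ha1 : a1 < l) (hd1 : d1 < n) (hb1 : b1 < l) (he1 : e1 ≤ 1)
    (he2 : e2 ≤ 1) (he3 : e3 ≤ 1) (he4 : e4 ≤ 1)
    (h : fd bQ MQ T0 (2 * a0 + e1) + fd bQ MQ T0 (2 * (d1 * l + b1) + e4) =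
      fd bQ MQ T0 (2 * (c1 * l + a1) + e2) + fd bQ MQ T0 (2 * (d0 * l + b0) + e3)) :
    ∀ c, c < n → pre n w 0 a0 c + pre n w d1 b1 c + e2 * pre n w c1 l c + e3 * pre n w d0 l c
    = pre n w c1 a1 c + pre n w d0 b0 c + e1 * pre n w 0 l c + e4 * pre n w d1 l c := by
  have q1 := t.hQ 0 hn a0 ha0 e1 he1
  have q2 := t.hQ d1 hd1 b1 hb1 e4 he4
  have q3 := t.hQ c1 hc1 a1 ha1 e2 he2
  have q4 := t.hQ d0 hd0 b0 hb0 e3 he3
  rw [Nat.zero_mul, Nat.zero_add] at q1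
  have hpk : pk 10 (fun c => pre n w 0 a0 c + pre n w d1 b1 c + e2 * pre n w c1 l c +
      e3 * pre n w d0 l c) n = pk 10 (fun c => pre n w c1 a1 c + pre n w d0 b0 c +
      e1 * pre n w 0 l c + e4 * pre n w d1 l c) n := by
    rw [pk_add, pk_add, pk_add, pk_add, pk_add, pk_add, pk_mul, pk_mul, pk_mul, pk_mul]
    have g1 : pk 10 (fun i => pre n w 0 a0 i) n = pk 10 (pre n w 0 a0) n := rfl
    have g2 : pk 10 (fun i => pre n w d1 b1 i) n = pk 10 (pre n w d1 b1) n := rfl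
    have g3 : pk 10 (fun i => pre n w c1 a1 i) n = pk 10 (pre n w c1 a1) n := rfl
    have g4 : pk 10 (fun i => pre n w d0 b0 i) n = pk 10 (pre n w d0 b0) n := rfl
    have g5 : pk 10 (fun i => pre n w c1 l i) n = pk 10 (pre n w c1 l) n := rfl
    have g6 : pk 10 (fun i => pre n w d0 l i) n = pk 10 (pre n w d0 l) n := rfl
    have g7 : pk 10 (fun i => pre n w 0 l i) n = pk 10 (pre n w 0 l) n := rfl
    have g8 : pk 10 (fun i => pre n w d1 l i) n = pk 10 (pre n w d1 l) n := rfl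
    linarith
  have hle : ∀ d r c e : ℕ, e ≤ 1 → r ≤ l → e * pre n w d r c ≤ l := by
    intro d r c e he hr
    have h1 := pre_le n w d r c
    calc e * pre n w d r c ≤ 1 * l := Nat.mul_le_mul he (h1.trans hr)
      _ = l := Nat.one_mul l
  have hc := t.hcnt
  apply pk_inj _ _ hpk
  · intro c _
    have z1 := pre_le n w 0 a0 c
    have z2 := pre_le n w d1 b1 c
    have z3 := hle c1 l c e2 he2 le_rfl
    have z4 := hle d0 l c e3 he3 le_rfl
    show _ < _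
    omega
  · intro c _
    have z1 := pre_le n w c1 a1 c
    have z2 := pre_le n w d0 b0 c
    have z3 := hle 0 l c e1 he1 le_rfl
    have z4 := hle d1 l c e4 he4 le_rfl
    show _ < _
    omega

/-- an admissible equation is detected by the functional -/
lemma fs_of_vec (hφ : ∀ d, d < n → fs n w φ d l % N = 0)
    {a0 d0 b0 c1 a1 d1 b1 e1 e2 e3 e4 : ℕ} (hn : 0 < n) (hd0 : d0 < n) (hc1 : c1 < n)
    (hd1 : d1 < n)
    (h : ∀ c, c < n → pre n w 0 a0 c + pre n w d1 b1 c + e2 * pre n w c1 l c +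
      e3 * pre n w d0 l c = pre n w c1 a1 c + pre n w d0 b0 c + e1 * pre n w 0 l c +
      e4 * pre n w d1 l c) :
    (fs n w φ 0 a0 + fs n w φ d1 b1) % N = (fs n w φ c1 a1 + fs n w φ d0 b0) % N := by
  have h1 : ∑ c ∈ range n, φ c * (pre n w 0 a0 c + pre n w d1 b1 c + e2 * pre n w c1 l c +
      e3 * pre n w d0 l c) = ∑ c ∈ range n, φ c * (pre n w c1 a1 c + pre n w d0 b0 c +
      e1 * pre n w 0 l c + e4 * pre n w d1 l c) :=
    Finset.sum_congr rfl (fun c hc => by rw [h c (Finset.mem_range.1 hc)])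
  simp only [mul_add, Finset.sum_add_distrib] at h1
  have hm : ∀ e d : ℕ, ∑ c ∈ range n, φ c * (e * pre n w d l c) = e * fs n w φ d l := by
    intro e d
    unfold fs
    rw [Finset.mul_sum]
    apply Finset.sum_congr rfl
    intro c _
    ring
  rw [hm, hm, hm, hm] at h1
  have f1 : ∑ c ∈ range n, φ c * pre n w 0 a0 c = fs n w φ 0 a0 := rfl
  have f2 : ∑ c ∈ range n, φ c * pre n w d1 b1 c = fs n w φ d1 b1 := rfl
  have f3 : ∑ c ∈ range n, φ c * pre n w c1 a1 c = fs n w φ c1 a1 := rfl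
  have f4 : ∑ c ∈ range n, φ c * pre n w d0 b0 c = fs n w φ d0 b0 := rfl
  rw [f1, f2, f3, f4] at h1
  obtain ⟨k1, hk1⟩ := Nat.dvd_of_mod_eq_zero (hφ _ hc1)
  obtain ⟨k2, hk2⟩ := Nat.dvd_of_mod_eq_zero (hφ _ hd0)
  obtain ⟨k3, hk3⟩ := Nat.dvd_of_mod_eq_zero (hφ _ hn)
  obtain ⟨k4, hk4⟩ := Nat.dvd_of_mod_eq_zero (hφ _ hd1)
  rw [hk1, hk2, hk3, hk4] at h1
  have h2 : (N * (e2 * k1 + e3 * k2) + (fs n w φ 0 a0 + fs n w φ d1 b1)) % N =
      (N * (e1 * k3 + e4 * k4) + (fs n w φ c1 a1 + fs n w φ d0 b0)) % N := by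
    congr 1
    linarith
  rwa [Nat.mul_add_mod, Nat.mul_add_mod] at h2

lemma eT_unfold {a0 i2 j1 j3 e1 e3 : ℕ}
    (h : eT l A B m0 sp bQ MQ T0 T1 T3 a0 i2 j1 j3 e1 e3 = true) :
    fd bQ MQ T0 (2 * a0 + e1) + fd bQ MQ T3 j3 = fd bQ MQ T1 j1 + fd bQ MQ T0 (2 * i2 + e3) ∧
    (A + B) * ((j1 >>> 1) % l) + B * (l * e3) + A * (l * e1) + m0 ≤
      l * m0 + (A + B) * (l * (j1 % 2)) + B * (i2 % l) + A * a0 ∧
    (j1 % 2 = 0 ∨ e3 = 1 ∨ i2 % l < (j1 >>> 1) % l ∨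
      ((j1 >>> 1) / l ≠ i2 / l ∧ (j1 >>> 1) % l ≠ sp)) := by
  unfold eT at h
  rw [Bool.and_eq_true, Bool.and_eq_true, Bool.or_eq_true, Bool.or_eq_true, Bool.or_eq_true,
    Bool.and_eq_true] at h
  obtain ⟨h1, h2, h3⟩ := h
  refine ⟨Nat.eq_of_beq_eq_true h1, Nat.le_of_ble_eq_true h2, ?_⟩
  rcases h3 with h3 | h3 | h3 | ⟨h3, h4⟩
  · exact Or.inl (Nat.eq_of_beq_eq_true h3)
  · exact Or.inr (Or.inl (Nat.eq_of_beq_eq_true h3))
  · exact Or.inr (Or.inr (Or.inl (Nat.le_of_ble_eq_true h3)))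
  · refine Or.inr (Or.inr (Or.inr ⟨?_, ?_⟩))
    · intro hc
      rw [Bool.not_eq_true', ← Bool.not_eq_true] at h3
      apply h3
      show Nat.beq ((j1 >>> 1) / l) (i2 / l) = true
      rw [hc]
      exact Nat.beq_refl _
    · intro hc
      rw [Bool.not_eq_true', ← Bool.not_eq_true] at h4
      apply h4
      show Nat.beq ((j1 >>> 1) % l) sp = true
      rw [hc]
      exact Nat.beq_refl _

theorem row_sound (t : Tabs n l w φ N N' sp bF MF TF TB bQ MQ T0 T1 T3 bm K P1 P3 Pb)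
    (hM : M = 2 * (n * l)) {Lb : ℕ} {Exc : List (ℕ × ℕ)}
    (hExc : ∀ e ∈ Exc, l * e.1 + 2 * l ≤ Lb + 1)
    {a0 i2 : ℕ} (ha0 : a0 < l) (hi2 : i2 < n * l) {row : List ℕ}
    (hrow : rowOK l N N' A B m0 sp bF MF TF TB bQ MQ T0 T1 T3 bm M a0 i2 row = true)
    {c1 a1 d1 b1 : ℕ} (hc1 : c1 < n) (ha1 : a1 < l) (hd1 : d1 < n) (hb1 : b1 < l)
    (heq : (fs n w φ 0 a0 + fs n w φ d1 b1) % N =
      (fs n w φ c1 a1 + fs n w φ (i2 / l) (i2 % l)) % N) :
    ∃ e1 e2 e3 e4, Sol n l w A B m0 Lb Exc (fun _ _ _ _ _ _ _ _ => false) c1 (i2 / l) d1 a0 a1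
      (i2 % l) b1 e1 e2 e3 e4 := by
  have hl := t.hl
  have hn : 0 < n := by omega
  have hd0 : i2 / l < n := Nat.div_lt_of_lt_mul (by rwa [Nat.mul_comm])
  have hb0 : i2 % l < l := Nat.mod_lt _ hl
  have hi2' : i2 / l * l + i2 % l = i2 := by rw [Nat.mul_comm]; exact Nat.div_add_mod i2 l
  have hidx : ∀ d r, d < n → r < l → d * l + r < n * l := by
    intro d r hd hr
    calc d * l + r < d * l + l := by omega
      _ = (d + 1) * l := by ring
      _ ≤ n * l := Nat.mul_le_mul (by omega) le_rfl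
  have hi1 := hidx c1 a1 hc1 ha1
  have hi3 := hidx d1 b1 hd1 hb1
  have hi0 : a0 < n * l := by
    have := hidx 0 a0 hn ha0
    rwa [Nat.zero_mul, Nat.zero_add] at this
  unfold rowOK at hrow
  rw [Bool.and_eq_true] at hrow
  obtain ⟨hbits, hall⟩ := hrow
  have hbits' := Nat.eq_of_beq_eq_true hbits
  -- the residues
  have F0 := t.hF 0 hn a0 ha0
  rw [Nat.zero_mul, Nat.zero_add] at F0
  have F1 := t.hF c1 hc1 a1 ha1
  have F2 := t.hF (i2 / l) hd0 (i2 % l) hb0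
  rw [hi2'] at F2
  have F3 := t.hF d1 hd1 b1 hb1
  have heqN : (fd bF MF TF a0 + fd bF MF TF (d1 * l + b1)) % N =
      (fd bF MF TF (c1 * l + a1) + fd bF MF TF i2) % N := by
    rw [F0, F1, F2, F3, ← Nat.add_mod, ← Nat.add_mod]
    exact heq
  obtain ⟨u0, hu0⟩ : ∃ u, u = fd bF MF TB a0 := ⟨_, rfl⟩
  obtain ⟨u1, hu1⟩ : ∃ u, u = fd bF MF TB (c1 * l + a1) := ⟨_, rfl⟩
  obtain ⟨u2, hu2⟩ : ∃ u, u = fd bF MF TB i2 := ⟨_, rfl⟩
  obtain ⟨u3, hu3⟩ : ∃ u, u = fd bF MF TB (d1 * l + b1) := ⟨_, rfl⟩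
  have G0 := t.hB a0 hi0
  have G1 := t.hB _ hi1
  have G2 := t.hB _ hi2
  have G3 := t.hB _ hi3
  rw [← hu0] at G0
  rw [← hu1] at G1
  rw [← hu2] at G2
  rw [← hu3] at G3
  have hN' := t.hN'
  have l0 : u0 < N' := by rw [G0]; exact Nat.mod_lt _ hN'
  have l1 : u1 < N' := by rw [G1]; exact Nat.mod_lt _ hN'
  have l2 : u2 < N' := by rw [G2]; exact Nat.mod_lt _ hN'
  have l3 : u3 < N' := by rw [G3]; exact Nat.mod_lt _ hN'
  have heqN' : (u0 + u3) % N' = (u1 + u2) % N' := by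
    rw [G0, G1, G2, G3, ← Nat.add_mod, ← Nat.add_mod, ← Nat.mod_mod_of_dvd _ t.hdvd, heqN,
      Nat.mod_mod_of_dvd _ t.hdvd]
  obtain ⟨δ, hδ⟩ : ∃ δ, δ = (u0 + N' - u2) % N' := ⟨_, rfl⟩
  have hδlt : δ < N' := by rw [hδ]; exact Nat.mod_lt _ hN'
  have hkey : u1 = u3 + δ ∨ u1 + N' = u3 + δ := by
    have e1 : (u3 + δ) % N' = u1 % N' := by
      rw [hδ, Nat.add_mod_mod]
      have e2 : (u3 + (u0 + N' - u2) + u2) % N' = (u1 + u2) % N' := by
        have : u3 + (u0 + N' - u2) + u2 = u0 + u3 + N' := by omega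
        rw [this, Nat.add_mod_right, heqN']
      exact Nat.ModEq.add_right_cancel' u2 e2
    rw [Nat.mod_eq_of_lt l1] at e1
    rcases Nat.lt_or_ge (u3 + δ) N' with h | h
    · left
      rw [Nat.mod_eq_of_lt h] at e1
      exact e1.symm
    · right
      rw [Nat.mod_eq_sub_mod h, Nat.mod_eq_of_lt (by omega)] at e1
      omega
  have hbit : Nat.testBit (lorE bF MF TB M row) u1 = true := by
    rw [← hbits']
    show Nat.testBit (((bm <<< ((fd bF MF TB a0 + N' - fd bF MF TB i2) % N')) |||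
      (bm >>> (N' - (fd bF MF TB a0 + N' - fd bF MF TB i2) % N'))) &&& bm) u1 = true
    rw [← hu0, ← hu2, ← hδ, Nat.testBit_and, Nat.testBit_or, Bool.and_eq_true, Bool.or_eq_true]
    constructor
    · rcases hkey with h | h
      · left
        rw [Nat.testBit_shiftLeft, Bool.and_eq_true]
        refine ⟨by simp; omega, ?_⟩
        have : u1 - δ = u3 := by omega
        rw [this, hu3]
        exact t.hbm _ hi3
      · right
        rw [Nat.testBit_shiftRight]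
        have : N' - δ + u1 = u3 := by omega
        rw [this, hu3]
        exact t.hbm _ hi3
    · rw [hu1]
      exact t.hbm _ hi1
  obtain ⟨x, hx, hxv⟩ := lorE_bit hbit
  have hxe := allL_mem hall hx
  have hMpos : 0 < M := by
    rw [hM]
    have : 0 < n * l := Nat.mul_pos hn hl
    omega
  obtain ⟨j1, hj1⟩ : ∃ j, j = x % M := ⟨_, rfl⟩
  obtain ⟨j3, hj3⟩ : ∃ j, j = x / M % M := ⟨_, rfl⟩
  have hj1M : j1 < 2 * (n * l) := by rw [hj1, ← hM]; exact Nat.mod_lt _ hMpos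
  have hj3M : j3 < 2 * (n * l) := by rw [hj3, ← hM]; exact Nat.mod_lt _ hMpos
  have s1 : j1 >>> 1 = j1 / 2 := by rw [Nat.shiftRight_eq_div_pow, pow_one]
  have s3 : j3 >>> 1 = j3 / 2 := by rw [Nat.shiftRight_eq_div_pow, pow_one]
  rw [← hj1, s1] at hxv
  have hj1l : j1 / 2 < n * l := by omega
  have hj3l : j3 / 2 < n * l := by omega
  obtain ⟨inj1F, inj1⟩ := t.hinj _ hi1 _ hj1l (by rw [← hu1, hxv])
  have mod1 : (c1 * l + a1) % l = a1 := by
    rw [Nat.add_comm, Nat.add_mul_mod_self_right, Nat.mod_eq_of_lt ha1]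
  have div1 : (c1 * l + a1) / l = c1 := by
    rw [Nat.add_comm, Nat.add_mul_div_right _ _ hl, Nat.div_eq_of_lt ha1, Nat.zero_add]
  have mod3 : (d1 * l + b1) % l = b1 := by
    rw [Nat.add_comm, Nat.add_mul_mod_self_right, Nat.mod_eq_of_lt hb1]
  have div3 : (d1 * l + b1) / l = d1 := by
    rw [Nat.add_comm, Nat.add_mul_div_right _ _ hl, Nat.div_eq_of_lt hb1, Nat.zero_add]
  rw [mod1] at inj1
  have a1' : j1 / 2 % l = a1 := by
    rcases inj1 with h | ⟨h, _⟩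
    · rw [← h, mod1]
    · exact h.symm
  obtain ⟨c1', hc1d⟩ : ∃ c, c = j1 / 2 / l := ⟨_, rfl⟩
  have dm1 : c1' * l + a1 = j1 / 2 := by
    rw [← a1', hc1d, Nat.mul_comm]
    exact Nat.div_add_mod _ _
  have hc1' : c1' < n := by rw [hc1d]; exact Nat.div_lt_of_lt_mul (by rwa [Nat.mul_comm])
  unfold eOK at hxe
  cases hbr : Nat.ble 4 (Nat.div x (Nat.mul M M)) with
  | true =>
    -- a false entry
    exfalso
    rw [hbr, cond_true] at hxe
    have hxe' : (Nat.beq ((fd bF MF TF a0 + fd bF MF TF ((x / M % M) >>> 1)) % N')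
      ((fd bF MF TF ((x % M) >>> 1) + fd bF MF TF i2) % N') &&
      !Nat.beq ((fd bF MF TF a0 + fd bF MF TF ((x / M % M) >>> 1)) % N)
      ((fd bF MF TF ((x % M) >>> 1) + fd bF MF TF i2) % N)) = true := hxe
    rw [← hj1, ← hj3, s1, s3, Bool.and_eq_true, Bool.not_eq_true', ← Bool.not_eq_true] at hxe'
    obtain ⟨hx1, hx2⟩ := hxe'
    have hx1' := Nat.eq_of_beq_eq_true hx1
    apply hx2
    have hTB3 : fd bF MF TB (j3 / 2) = u3 := by
      have g3 := t.hB _ hj3l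
      have l3' : fd bF MF TB (j3 / 2) < N' := by rw [g3]; exact Nat.mod_lt _ hN'
      have e1 : (u0 + fd bF MF TB (j3 / 2)) % N' = (u0 + u3) % N' := by
        rw [heqN', G0, g3, G1, G2, ← Nat.add_mod, ← Nat.add_mod, hx1', inj1F]
      have e2 := Nat.ModEq.add_left_cancel' u0 e1
      unfold Nat.ModEq at e2
      rwa [Nat.mod_eq_of_lt l3', Nat.mod_eq_of_lt l3] at e2
    obtain ⟨inj3F, _⟩ := t.hinj _ hj3l _ hi3 (by rw [hTB3, hu3])
    rw [inj3F, ← inj1F, heqN]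
    exact Nat.beq_refl _
  | false =>
    rw [hbr, cond_false] at hxe
    have hee : x / (M * M) < 4 := by
      by_contra hcon
      push Not at hcon
      have : Nat.ble 4 (Nat.div x (Nat.mul M M)) = true := Nat.ble_eq_true_of_le hcon
      rw [hbr] at this
      exact absurd this (by simp)
    obtain ⟨e1, he1⟩ : ∃ e, e = x / (M * M) % 2 := ⟨_, rfl⟩
    obtain ⟨e3, he3⟩ : ∃ e, e = x / (M * M) / 2 := ⟨_, rfl⟩
    obtain ⟨e2, he2⟩ : ∃ e, e = j1 % 2 := ⟨_, rfl⟩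
    obtain ⟨e4, he4⟩ : ∃ e, e = j3 % 2 := ⟨_, rfl⟩
    have hxe' : eT l A B m0 sp bQ MQ T0 T1 T3 a0 i2 (x % M) (x / M % M) (x / (M * M) % 2)
      (x / (M * M) / 2) = true := hxe
    rw [← hj1, ← hj3, ← he1, ← he3] at hxe'
    obtain ⟨hV, hbd, hord⟩ := eT_unfold hxe'
    rw [s1, a1', ← he2] at hbd
    rw [s1, a1', ← he2, ← hc1d] at hord
    have be1 : e1 ≤ 1 := by omega
    have be2 : e2 ≤ 1 := by omega
    have be3 : e3 ≤ 1 := by omega
    have be4 : e4 ≤ 1 := by omega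
    obtain ⟨b1', hb1d⟩ : ∃ b, b = j3 / 2 % l := ⟨_, rfl⟩
    obtain ⟨d1', hd1d⟩ : ∃ d, d = j3 / 2 / l := ⟨_, rfl⟩
    have dm3 : d1' * l + b1' = j3 / 2 := by
      rw [hd1d, hb1d, Nat.mul_comm]
      exact Nat.div_add_mod _ _
    have hd1' : d1' < n := by rw [hd1d]; exact Nat.div_lt_of_lt_mul (by rwa [Nat.mul_comm])
    have hb1' : b1' < l := by rw [hb1d]; exact Nat.mod_lt _ hl
    have jj1 : 2 * (c1' * l + a1) + e2 = j1 := by omega
    have jj3 : 2 * (d1' * l + b1') + e4 = j3 := by omega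
    have p0 : fd bQ MQ T0 (2 * a0 + e1) < Pb := t.hPb _ (by omega)
    have p2 : fd bQ MQ T0 (2 * i2 + e3) < Pb := t.hPb _ (by omega)
    have p1 := t.hPb _ hj1M
    have p3 := t.hPb _ hj3M
    have hP1 := t.hP1
    have hP3 := t.hP3
    -- the entries are legitimate
    have hleg : (j1 % (2 * l) ≠ 1 ∧ j1 % (2 * l) ≠ 2 * sp ∧ fd bQ MQ T1 j1 = fd bQ MQ T0 j1) ∧
        (j3 % (2 * l) ≠ 1 ∧ j3 % (2 * l) ≠ 2 * sp ∧ fd bQ MQ T3 j3 = fd bQ MQ T0 j3) := by
      rcases t.h1 _ hj1M with g1 | g1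
      · rcases t.h3 _ hj3M with g3 | g3
        · exact ⟨g1, g3⟩
        · exfalso
          rw [g3, g1.2.2] at hV
          omega
      · rcases t.h3 _ hj3M with g3 | g3
        · exfalso
          rw [g3.2.2, g1] at hV
          omega
        · exfalso
          rw [g3, g1] at hV
          omega
    obtain ⟨⟨z11, z12, z13⟩, ⟨z31, z32, z33⟩⟩ := hleg
    rw [z13, z33, ← jj1, ← jj3] at hV
    rw [← hi2'] at hV
    have hvec := vec_of_pk t ha0 hn hd0 hb0 hc1' ha1 hd1' hb1' be1 be2 be3 be4 hV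
    have m1 : j1 % (2 * l) = 2 * a1 + e2 := by
      have : j1 = 2 * a1 + e2 + (2 * l) * c1' := by rw [← jj1]; ring
      rw [this, Nat.add_mul_mod_self_left, Nat.mod_eq_of_lt (by omega)]
    have m3 : j3 % (2 * l) = 2 * b1' + e4 := by
      have : j3 = 2 * b1' + e4 + (2 * l) * d1' := by rw [← jj3]; ring
      rw [this, Nat.add_mul_mod_self_left, Nat.mod_eq_of_lt (by omega)]
    rw [m1] at z11 z12
    rw [m3] at z31 z32
    -- the fourth point
    have hfs := fs_of_vec t.hφ hn hd0 hc1' hd1' hvec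
    have F1' := t.hF c1' hc1' a1 ha1
    rw [dm1] at F1'
    have F3' := t.hF d1' hd1' b1' hb1'
    rw [dm3] at F3'
    have hF3 : fd bF MF TF (j3 / 2) = fd bF MF TF (d1 * l + b1) := by
      have k0 : (fd bF MF TF a0 + fd bF MF TF (j3 / 2)) % N =
          (fd bF MF TF a0 + fd bF MF TF (d1 * l + b1)) % N := by
        rw [heqN, F0, F3', ← Nat.add_mod, hfs, Nat.add_mod, ← F1', ← F2, inj1F]
      have k1 := Nat.ModEq.add_left_cancel' _ k0
      unfold Nat.ModEq at k1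
      rw [F3', F3, Nat.mod_mod, Nat.mod_mod] at k1
      rw [F3', F3, k1]
    obtain ⟨_, inj3⟩ := t.hinj _ hj3l _ hi3 (by rw [t.hB _ hj3l, t.hB _ hi3, hF3])
    rw [mod3, ← hb1d] at inj3
    have hb : b1' = b1 := by
      rcases inj3 with h | ⟨h, _⟩
      · rw [hb1d, h, mod3]
      · exact h
    subst hb
    -- the free letters
    have hfree1 : ∀ c, c < n → e2 * pre n w c1 l c + pre n w c1' a1 c =
        e2 * pre n w c1' l c + pre n w c1 a1 c := by
      intro c hc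
      rcases inj1 with h | ⟨_, h | h⟩
      · have : c1' = c1 := by rw [hc1d, ← h, div1]
        rw [this]
      · have : e2 = 0 := by omega
        rw [h, this, pre_zero, pre_zero]
        ring
      · have h2 : e2 = 1 := by omega
        have g1 := t.hsp (by omega) c1 hc1 c hc
        have g2 := t.hsp (by omega) c1' hc1' c hc
        rw [h, h2]
        omega
    have hfree3 : ∀ c, c < n → e4 * pre n w d1 l c + pre n w d1' b1' c =
        e4 * pre n w d1' l c + pre n w d1 b1' c := by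
      intro c hc
      rcases inj3 with h | ⟨_, h | h⟩
      · have : d1' = d1 := by rw [hd1d, h, div3]
        rw [this]
      · have : e4 = 0 := by omega
        rw [h, this, pre_zero, pre_zero]
        ring
      · have h2 : e4 = 1 := by omega
        have g1 := t.hsp (by omega) d1 hd1 c hc
        have g2 := t.hsp (by omega) d1' hd1' c hc
        rw [h, h2]
        omega
    refine ⟨e1, e2, e3, e4, be1, be2, be3, be4, ?_, ?_, hbd, ?_⟩
    · intro c hc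
      have g := hvec c hc
      have g1 := hfree1 c hc
      have g3 := hfree3 c hc
      omega
    · intro hcd hab
      rcases hord with h | h | h | ⟨h1, h2⟩
      · omega
      · omega
      · omega
      · rcases inj1 with h | ⟨_, h | h⟩
        · exfalso
          apply h1
          rw [hc1d, ← h, div1, hcd]
        · omega
        · omega
    · intro e he
      right
      left
      have g := hExc e he
      have : l * e1 ≤ l * 1 := Nat.mul_le_mul le_rfl be1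
      omega

/-- all rows checked -/
theorem HT_of_rows (t : Tabs n l w φ N N' sp bF MF TF TB bQ MQ T0 T1 T3 bm K P1 P3 Pb)
    (hM : M = 2 * (n * l)) {Lb : ℕ} {Exc : List (ℕ × ℕ)}
    (hExc : ∀ e ∈ Exc, l * e.1 + 2 * l ≤ Lb + 1)
    (h : ∀ a0, a0 < l → ∃ rows,
      rowsOK l N N' A B m0 sp bF MF TF TB bQ MQ T0 T1 T3 bm M a0 (n * l) rows = true) :
    HT n l w φ N A B m0 Lb Exc (fun _ _ _ _ _ _ _ _ => false) := by
  intro c1 d0 d1 a0 a1 b0 b1 hc1 hd0 hd1 ha0 ha1 hb0 hb1 heq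
  obtain ⟨rows, hrows⟩ := h a0 ha0
  have hi2 : d0 * l + b0 < n * l := by
    calc d0 * l + b0 < d0 * l + l := by omega
      _ = (d0 + 1) * l := by ring
      _ ≤ n * l := Nat.mul_le_mul (by omega) le_rfl
  obtain ⟨r, hr⟩ := rowsOK_row hrows _ hi2
  have m2 : (d0 * l + b0) % l = b0 := by
    rw [Nat.add_comm, Nat.add_mul_mod_self_right, Nat.mod_eq_of_lt hb0]
  have v2 : (d0 * l + b0) / l = d0 := by
    rw [Nat.add_comm, Nat.add_mul_div_right _ _ t.hl, Nat.div_eq_of_lt hb0, Nat.zero_add]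
  have := row_sound t hM hExc ha0 hi2 hr hc1 ha1 hd1 hb1 (by rw [m2, v2]; exact heq)
  rw [m2, v2] at this
  exact this

end

end MPbbea99S
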