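import Pool.Agent.Lib.Pbbea99S.TCheck

/-!
# MP_bbea99_co: checking the tables
-/

namespace MPbbea99S

open Finset

/-- `f i` for all `i < k` -/
noncomputable def allN (f : ℕ → Bool) (k : ℕ) : Bool :=
  Nat.rec true (fun k ih => and (f k) ih) k

lemma allN_sound {f : ℕ → Bool} : ∀ {k : ℕ}, allN f k = true → ∀ i, i < k → f i = true := by
  intro k
  induction k with
  | zero => intro _ i h; omega
  | succ k ih =>
    intro h i hi
    have h' : (f k && allN f k) = true := h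
    rw [Bool.and_eq_true] at h'
    rcases Nat.lt_or_ge i k with h1 | h1
    · exact ih h'.2 i h1
    · have : i = k := by omega
      rw [this]
      exact h'.1

lemma beq_t {a b : ℕ} (h : Nat.beq a b = true) : a = b := Nat.eq_of_beq_eq_true h

lemma nbeq_t {a b : ℕ} (h : (not (Nat.beq a b)) = true) : a ≠ b := by
  intro hab
  rw [hab, Nat.beq_refl] at h
  exact absurd h (by simp)

/-- checks of the residues -/
noncomputable def ckF (n l N bF MF TF : ℕ) (w φ : ℕ → ℕ) : Bool :=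
  allN (fun d => and (Nat.beq (fd bF MF TF (Nat.mul d l)) 0)
    (and (allN (fun r => Nat.beq (fd bF MF TF (Nat.add (Nat.mul d l) (Nat.succ r)))
      (Nat.mod (Nat.add (fd bF MF TF (Nat.add (Nat.mul d l) r)) (φ (Nat.mod (Nat.add d (w r)) n)))
        N)) (Nat.pred l))
    (Nat.beq (Nat.mod (Nat.add (fd bF MF TF (Nat.add (Nat.mul d l) (Nat.pred l)))
      (φ (Nat.mod (Nat.add d (w (Nat.pred l))) n))) N) 0))) n

lemma fs_succ {n : ℕ} (hn : 0 < n) (w φ : ℕ → ℕ) (d r : ℕ) :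
    fs n w φ d (r + 1) = fs n w φ d r + φ ((d + w r) % n) := by
  unfold fs
  have h1 : ∀ c ∈ range n, φ c * pre n w d (r + 1) c =
      φ c * pre n w d r c + if (d + w r) % n = c then φ c else 0 := by
    intro c _
    rw [pre_succ]
    split_ifs <;> ring
  rw [Finset.sum_congr rfl h1, Finset.sum_add_distrib, Finset.sum_ite_eq,
    if_pos (Finset.mem_range.2 (Nat.mod_lt _ hn))]

lemma fs_zero (n : ℕ) (w φ : ℕ → ℕ) (d : ℕ) : fs n w φ d 0 = 0 := by
  unfold fs
  apply Finset.sum_eq_zero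
  intro c _
  rw [pre_zero, Nat.mul_zero]

lemma ckF_sound {n l N bF MF TF : ℕ} {w φ : ℕ → ℕ} (hn : 0 < n) (hl : 0 < l)
    (h : ckF n l N bF MF TF w φ = true) :
    (∀ d, d < n → ∀ r, r < l → fd bF MF TF (d * l + r) = fs n w φ d r % N) ∧
    (∀ d, d < n → fs n w φ d l % N = 0) := by
  have h1 : ∀ d, d < n → ∀ r, r < l → fd bF MF TF (d * l + r) = fs n w φ d r % N := by
    intro d hd r
    have h2 := allN_sound h d hd
    rw [Bool.and_eq_true, Bool.and_eq_true] at h2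
    obtain ⟨h3, h4, _⟩ := h2
    induction r with
    | zero =>
      intro _
      rw [fs_zero, Nat.zero_mod, Nat.add_zero]
      exact beq_t h3
    | succ r ih =>
      intro hr
      have h5 : fd bF MF TF (d * l + (r + 1)) =
          (fd bF MF TF (d * l + r) + φ ((d + w r) % n)) % N :=
        beq_t (allN_sound h4 r (by show r < l - 1; omega))
      rw [h5, ih (by omega), Nat.mod_add_mod, fs_succ hn]
  refine ⟨h1, ?_⟩
  intro d hd
  have h2 := allN_sound h d hd
  rw [Bool.and_eq_true, Bool.and_eq_true] at h2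
  have h3 : (fd bF MF TF (d * l + (l - 1)) + φ ((d + w (l - 1)) % n)) % N = 0 := beq_t h2.2.2
  rw [h1 d hd (l - 1) (by omega), Nat.mod_add_mod, ← fs_succ hn] at h3
  have e : l - 1 + 1 = l := by omega
  rwa [e] at h3

/-- checks of the packed vectors -/
noncomputable def ckQ (n l bQ MQ T0 K : ℕ) (w PM : ℕ → ℕ) : Bool :=
  allN (fun d => and (Nat.beq (fd bQ MQ T0 (Nat.mul 2 (Nat.mul d l))) K)
    (and (allN (fun r => Nat.beq (fd bQ MQ T0 (Nat.mul 2 (Nat.add (Nat.mul d l) (Nat.succ r))))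
      (Nat.add (fd bQ MQ T0 (Nat.mul 2 (Nat.add (Nat.mul d l) r)))
        (Nat.pow 2 (Nat.mul 10 (Nat.mod (Nat.add d (w r)) n))))) (Nat.pred l))
    (and (Nat.beq (Nat.add K (PM d))
      (Nat.add (fd bQ MQ T0 (Nat.mul 2 (Nat.add (Nat.mul d l) (Nat.pred l))))
        (Nat.pow 2 (Nat.mul 10 (Nat.mod (Nat.add d (w (Nat.pred l))) n)))))
    (allN (fun r => Nat.beq
      (Nat.add (fd bQ MQ T0 (Nat.add (Nat.mul 2 (Nat.add (Nat.mul d l) r)) 1)) (PM d))
      (fd bQ MQ T0 (Nat.mul 2 (Nat.add (Nat.mul d l) r)))) l)))) n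

lemma pk_unit (F c L : ℕ) (hc : c < L) :
    pk F (fun i => if c = i then 1 else 0) L = 2 ^ (F * c) := by
  induction L with
  | zero => omega
  | succ L ih =>
    rw [pk_succ]
    rcases Nat.lt_or_ge c L with h | h
    · rw [ih h, if_neg (by omega)]
      ring
    · have : c = L := by omega
      subst this
      have hz : pk F (fun i => if c = i then 1 else 0) c = pk F (fun _ => 0) c := by
        apply pk_congr
        intro i hi
        rw [if_neg (by omega)]
      have hz2 : pk F (fun _ => 0) c = 0 := by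
        have := pk_mul F (fun _ => 0) 0 c
        simpa using this
      rw [hz, hz2, if_pos rfl]
      ring

lemma pk_pre_succ {n : ℕ} (hn : 0 < n) (w : ℕ → ℕ) (d r : ℕ) :
    pk 10 (pre n w d (r + 1)) n = pk 10 (pre n w d r) n + 2 ^ (10 * ((d + w r) % n)) := by
  rw [← pk_unit 10 ((d + w r) % n) n (Nat.mod_lt _ hn), ← pk_add]
  apply pk_congr
  intro i _
  exact pre_succ n w d r i

lemma pk_pre_zero (n : ℕ) (w : ℕ → ℕ) (d : ℕ) : pk 10 (pre n w d 0) n = 0 := by
  have h1 : pk 10 (pre n w d 0) n = pk 10 (fun _ => 0) n := by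
    apply pk_congr
    intro i _
    exact pre_zero n w d i
  have hz2 : pk 10 (fun _ => 0) n = 0 := by
    have := pk_mul 10 (fun _ => 0) 0 n
    simpa using this
  rw [h1, hz2]

lemma ckQ_sound {n l bQ MQ T0 K : ℕ} {w PM : ℕ → ℕ} (hn : 0 < n) (hl : 0 < l)
    (h : ckQ n l bQ MQ T0 K w PM = true) :
    ∀ d, d < n → ∀ r, r < l → ∀ e, e ≤ 1 → fd bQ MQ T0 (2 * (d * l + r) + e) +
      e * pk 10 (pre n w d l) n = K + pk 10 (pre n w d r) n := by
  intro d hd
  have h2 := allN_sound h d hd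
  rw [Bool.and_eq_true, Bool.and_eq_true, Bool.and_eq_true] at h2
  obtain ⟨h3, h4, h5, h6⟩ := h2
  have h7 : ∀ r, r < l → fd bQ MQ T0 (2 * (d * l + r)) = K + pk 10 (pre n w d r) n := by
    intro r
    induction r with
    | zero =>
      intro _
      rw [pk_pre_zero, Nat.add_zero]
      exact beq_t h3
    | succ r ih =>
      intro hr
      have h8 : fd bQ MQ T0 (2 * (d * l + (r + 1))) =
          fd bQ MQ T0 (2 * (d * l + r)) + 2 ^ (10 * ((d + w r) % n)) :=
        beq_t (allN_sound h4 r (by show r < l - 1; omega))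
      rw [h8, ih (by omega), pk_pre_succ hn, Nat.add_assoc]
  have h9 : PM d = pk 10 (pre n w d l) n := by
    have h8 : K + PM d = fd bQ MQ T0 (2 * (d * l + (l - 1))) +
      2 ^ (10 * ((d + w (l - 1)) % n)) := beq_t h5
    rw [h7 (l - 1) (by omega), Nat.add_assoc, ← pk_pre_succ hn] at h8
    have e : l - 1 + 1 = l := by omega
    rw [e] at h8
    omega
  intro r hr e he
  rcases Nat.le_one_iff_eq_zero_or_eq_one.1 he with h0 | h0
  · subst h0
    rw [Nat.zero_mul, Nat.add_zero, Nat.add_zero]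
    exact h7 r hr
  · subst h0
    have h8 : fd bQ MQ T0 (2 * (d * l + r) + 1) + PM d = fd bQ MQ T0 (2 * (d * l + r)) :=
      beq_t (allN_sound h6 r hr)
    rw [Nat.one_mul, ← h9, h8, h7 r hr]

/-- check of the reduced residues -/
noncomputable def ckB (n l N' bF MF TF TB : ℕ) : Bool :=
  allN (fun i => Nat.beq (fd bF MF TB i) (Nat.mod (fd bF MF TF i) N')) (Nat.mul n l)

/-- check of a table with poison -/
noncomputable def ckP (n l sp bQ MQ T0 T1 P1 : ℕ) : Bool :=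
  allN (fun j => or (and (not (Nat.beq (Nat.mod j (Nat.mul 2 l)) 1))
    (and (not (Nat.beq (Nat.mod j (Nat.mul 2 l)) (Nat.mul 2 sp)))
      (Nat.beq (fd bQ MQ T1 j) (fd bQ MQ T0 j)))) (Nat.beq (fd bQ MQ T1 j) P1))
    (Nat.mul 2 (Nat.mul n l))

lemma ckP_sound {n l sp bQ MQ T0 T1 P1 : ℕ} (h : ckP n l sp bQ MQ T0 T1 P1 = true) :
    ∀ j, j < 2 * (n * l) → (j % (2 * l) ≠ 1 ∧ j % (2 * l) ≠ 2 * sp ∧
    fd bQ MQ T1 j = fd bQ MQ T0 j) ∨ fd bQ MQ T1 j = P1 := by
  intro j hj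
  have h1 := allN_sound h j hj
  rw [Bool.or_eq_true, Bool.and_eq_true, Bool.and_eq_true] at h1
  rcases h1 with ⟨h1, h2, h3⟩ | h1
  · left
    exact ⟨nbeq_t h1, nbeq_t h2, beq_t h3⟩
  · right
    exact beq_t h1

/-- bound of the table -/
noncomputable def ckL (n l bQ MQ T0 Pb : ℕ) : Bool :=
  allN (fun j => Nat.ble (Nat.succ (fd bQ MQ T0 j)) Pb) (Nat.mul 2 (Nat.mul n l))

/-- injectivity up to the special points -/
noncomputable def ckI (n l sp bF MF TF TB : ℕ) : Bool :=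
  allN (fun i => allN (fun i' => or (not (Nat.beq (fd bF MF TB i) (fd bF MF TB i')))
    (and (Nat.beq (fd bF MF TF i) (fd bF MF TF i')) (or (Nat.beq i i')
      (and (Nat.beq (Nat.mod i l) (Nat.mod i' l)) (or (Nat.beq (Nat.mod i l) 0)
        (Nat.beq (Nat.mod i l) sp)))))) (Nat.mul n l)) (Nat.mul n l)

lemma ckI_sound {n l sp bF MF TF TB : ℕ} (h : ckI n l sp bF MF TF TB = true) :
    ∀ i, i < n * l → ∀ i', i' < n * l → fd bF MF TB i = fd bF MF TB i' →
    fd bF MF TF i = fd bF MF TF i' ∧ (i = i' ∨ (i % l = i' % l ∧ (i % l = 0 ∨ i % l = sp))) := by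
  intro i hi i' hi' heq
  have h1 := allN_sound (allN_sound h i hi) i' hi'
  rw [Bool.or_eq_true, Bool.and_eq_true, Bool.or_eq_true, Bool.and_eq_true,
    Bool.or_eq_true] at h1
  rcases h1 with h1 | ⟨h1, h2⟩
  · exact absurd heq (nbeq_t h1)
  · refine ⟨beq_t h1, ?_⟩
    rcases h2 with h2 | ⟨h2, h3 | h3⟩
    · exact Or.inl (beq_t h2)
    · exact Or.inr ⟨beq_t h2, Or.inl (beq_t h3)⟩
    · exact Or.inr ⟨beq_t h2, Or.inr (beq_t h3)⟩

/-- bits of the residues -/
noncomputable def ckM (n l bF MF TB bm : ℕ) : Bool :=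
  allN (fun i => Nat.beq (Nat.land (Nat.shiftRight bm (fd bF MF TB i)) 1) 1) (Nat.mul n l)

lemma ckM_sound {n l bF MF TB bm : ℕ} (h : ckM n l bF MF TB bm = true) :
    ∀ i, i < n * l → Nat.testBit bm (fd bF MF TB i) = true := by
  intro i hi
  have h1 : (bm >>> (fd bF MF TB i)) &&& 1 = 1 := beq_t (allN_sound h i hi)
  rw [Nat.testBit, Nat.and_comm, h1]
  rfl

/-- check of the special point -/
def ckS (n l sp : ℕ) (w : ℕ → ℕ) : Bool :=
  decide (sp < l → ∀ d, d < n → ∀ c, c < n →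
    pre n w d sp c + pre n w 0 l c = pre n w 0 sp c + pre n w d l c)

theorem tabs_of_checks {n l : ℕ} {w φ : ℕ → ℕ} {N N' sp bF MF TF TB bQ MQ T0 T1 T3 bm K P1 P3 Pb : ℕ}
    {PM : ℕ → ℕ} (hn : 0 < n) (hl : 0 < l) (hN : 0 < N) (hN' : 0 < N') (hdvd : N' ∣ N)
    (hcnt : 4 * l < 2 ^ 10) (hP1 : 2 * Pb ≤ P1) (hP3 : P1 + Pb ≤ P3)
    (cF : ckF n l N bF MF TF w φ = true) (cB : ckB n l N' bF MF TF TB = true)
    (cQ : ckQ n l bQ MQ T0 K w PM = true) (c1 : ckP n l sp bQ MQ T0 T1 P1 = true)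
    (c3 : ckP n l sp bQ MQ T0 T3 P3 = true) (cL : ckL n l bQ MQ T0 Pb = true)
    (cI : ckI n l sp bF MF TF TB = true) (cM : ckM n l bF MF TB bm = true)
    (hsp : sp < l → ∀ d, d < n → ∀ c, c < n →
      pre n w d sp c + pre n w 0 l c = pre n w 0 sp c + pre n w d l c) :
    Tabs n l w φ N N' sp bF MF TF TB bQ MQ T0 T1 T3 bm K P1 P3 Pb where
  hl := hl
  hN := hN
  hN' := hN'
  hdvd := hdvd
  hF := (ckF_sound hn hl cF).1
  hB := fun i hi => beq_t (allN_sound cB i hi)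
  hQ := ckQ_sound hn hl cQ
  h1 := ckP_sound c1
  h3 := ckP_sound c3
  hPb := fun j hj => Nat.le_of_ble_eq_true (allN_sound cL j hj)
  hP1 := hP1
  hP3 := hP3
  hinj := ckI_sound cI
  hsp := hsp
  hbm := ckM_sound cM
  hcnt := hcnt
  hφ := (ckF_sound hn hl cF).2

end MPbbea99S
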